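import Pool.Agent.Lib.MP_7b7e48_nt.LG.Defs
import Pool.Agent.Lib.SW.SWFinal

/-!
# Module PC (60 minutes): primes in dyadic intervals

PROOF. `SW.pnt 1` (or `2`) gives `ψ(2L) - ψ(L) = L (1 + o(1))`; prime powers contribute at most
`√(2L) (log 2L)^2`, so `θ(2L) - θ(L)` is between `0.9 L` and `1.1 L` for `L ≥ L0`; divide by `log L` resp.
`log (2L)`. (For `PCa` maybe `Nat.exists_prime_lt_and_le_two_mul`-like tools are not enough; use `pnt`.)
`PCb`: cover `(TT N, N^(1/2+kap)]` by `k ≤ (2 kap log N)/log 2 + 4` blocks `(M, 2M]`, each contributes at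
most `2 M/(log M) / M = 2/log M ≤ 2/(0.49 log N)`; total `≤ (2 kap/log 2)*2/0.49 + o(1) < 1/50`.
-/

open Finset

namespace Pool.Agent.Lib.MP_7b7e48_nt.LG

/-- the prime number theorem for `theta` -/
private theorem PC_theta : ∃ X0 : ℝ, ∀ x : ℝ, X0 ≤ x → |Chebyshev.theta x - x| ≤ x / 100 := by
  obtain ⟨C, hC, h⟩ := SW.pnt 1
  have h1 : ∀ᶠ x : ℝ in Filter.atTop, 200 * C ≤ Real.log x :=
    Real.tendsto_log_atTop.eventually_ge_atTop (200 * C)
  have h2 := (isLittleO_log_rpow_atTop (show (0 : ℝ) < 1 / 2 by norm_num)).bound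
    (show (0 : ℝ) < 1 / 400 by norm_num)
  have h3 := Filter.eventually_ge_atTop (2 : ℝ)
  obtain ⟨X, hX⟩ := Filter.eventually_atTop.mp (h1.and (h2.and h3))
  refine ⟨X, fun x hx => ?_⟩
  obtain ⟨g1, g2, g3⟩ := hX x hx
  have hxpos : 0 < x := by linarith
  have hl : 0 < Real.log x := by nlinarith
  have e1 : |Chebyshev.psi x - x| ≤ C * x / (Real.log x) ^ 1 := by
    have := h x g3
    have e : Chebyshev.psi x = ∑ n ∈ Finset.Icc 1 ⌊x⌋₊, ArithmeticFunction.vonMangoldt n := by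
      unfold Chebyshev.psi
      rfl
    rw [e]
    exact this
  have e2 := Chebyshev.abs_psi_sub_theta_le_sqrt_mul_log (show (1 : ℝ) ≤ x by linarith)
  rw [Real.norm_eq_abs, Real.norm_eq_abs, abs_of_pos hl, abs_of_nonneg (by positivity),
    ← Real.sqrt_eq_rpow] at g2
  have e3 : C * x / (Real.log x) ^ 1 ≤ x / 200 := by
    rw [pow_one, div_le_div_iff₀ hl (by norm_num)]
    nlinarith
  have e4 : 2 * x.sqrt * x.log ≤ x / 200 := by
    have := Real.mul_self_sqrt hxpos.le
    have hs : 0 < x.sqrt := Real.sqrt_pos.mpr hxpos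
    nlinarith
  have e5 : Chebyshev.theta x - x =
      (Chebyshev.psi x - x) - (Chebyshev.psi x - Chebyshev.theta x) := by ring
  rw [e5]
  refine (abs_sub _ _).trans ?_
  linarith

private theorem PC_bl (L : ℕ) : Chebyshev.theta ((2 * L : ℕ) : ℝ) - Chebyshev.theta (L : ℝ) =
    ∑ p ∈ Bl L, Real.log p := by
  unfold Chebyshev.theta Bl
  rw [Nat.floor_natCast, Nat.floor_natCast]
  have h : Finset.Ioc 0 (2 * L) = Finset.Ioc 0 L ∪ Finset.Ioc L (2 * L) := by
    rw [Finset.Ioc_union_Ioc_eq_Ioc (by omega) (by omega)]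
  rw [h, Finset.filter_union, Finset.sum_union]
  · ring
  · apply Finset.disjoint_filter_filter
    rw [Finset.disjoint_left]
    intro a ha hb
    rw [Finset.mem_Ioc] at ha hb
    omega

/-- the number of primes in a dyadic block -/
theorem PCa : ∃ L0 : ℕ, ∀ L : ℕ, L0 ≤ L → (L : ℝ) / (2 * Real.log L) ≤ ((Bl L).card : ℝ) ∧
    ((Bl L).card : ℝ) ≤ 2 * L / Real.log L := by
  obtain ⟨X0, hX0⟩ := PC_theta
  refine ⟨max 8 ⌈X0⌉₊, fun L hL => ?_⟩
  have hL8 : 8 ≤ L := (le_max_left _ _).trans hL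
  have hLX : X0 ≤ L := (Nat.le_ceil X0).trans (by exact_mod_cast (le_max_right _ _).trans hL)
  have hL8' : (8 : ℝ) ≤ L := by exact_mod_cast hL8
  have h1 := hX0 L hLX
  have h2 := hX0 ((2 * L : ℕ) : ℝ) (by push_cast; linarith)
  rw [abs_le] at h1 h2
  have h3 := PC_bl L
  have hlog8 : 3 * Real.log 2 ≤ Real.log L := by
    have : Real.log ((2 : ℝ) ^ 3) ≤ Real.log L := Real.log_le_log (by norm_num) (by norm_num; exact hL8)
    rw [Real.log_pow] at this
    exact_mod_cast this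
  have hl2 : 0 < Real.log 2 := Real.log_pos (by norm_num)
  have hl : 0 < Real.log L := by linarith
  have h4 : ∑ p ∈ Bl L, Real.log p ≤ (Bl L).card * Real.log ((2 * L : ℕ) : ℝ) := by
    rw [← nsmul_eq_mul]
    apply Finset.sum_le_card_nsmul
    intro p hp
    unfold Bl at hp
    rw [Finset.mem_filter, Finset.mem_Ioc] at hp
    apply Real.log_le_log
    · exact_mod_cast hp.2.pos
    · exact_mod_cast hp.1.2
  have h5 : (Bl L).card * Real.log L ≤ ∑ p ∈ Bl L, Real.log p := by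
    rw [← nsmul_eq_mul]
    apply Finset.card_nsmul_le_sum
    intro p hp
    unfold Bl at hp
    rw [Finset.mem_filter, Finset.mem_Ioc] at hp
    apply Real.log_le_log
    · linarith
    · exact_mod_cast hp.1.1.le
  have h6 : Real.log ((2 * L : ℕ) : ℝ) = Real.log 2 + Real.log L := by
    push_cast
    rw [Real.log_mul (by norm_num) (by linarith)]
  rw [h6] at h4
  push_cast at h2 h3 h4
  constructor
  · rw [div_le_iff₀ (by positivity)]
    have hc : (0 : ℝ) ≤ (Bl L).card := Nat.cast_nonneg _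
    nlinarith
  · rw [le_div_iff₀ hl]
    nlinarith

private theorem PC_cover (M l : ℕ) (hM : M < l) (k : ℕ) : l ≤ 2 ^ k * M →
    ∃ i ∈ Finset.range k, 2 ^ i * M < l ∧ l ≤ 2 * (2 ^ i * M) := by
  induction k with
  | zero => intro h; rw [pow_zero, one_mul] at h; omega
  | succ k ih =>
    intro h
    by_cases h1 : l ≤ 2 ^ k * M
    · obtain ⟨i, hi, h2⟩ := ih h1
      exact ⟨i, Finset.mem_range.mpr (by rw [Finset.mem_range] at hi; omega), h2⟩
    · refine ⟨k, Finset.mem_range.mpr (by omega), by omega, ?_⟩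
      rw [pow_succ] at h
      linarith

/-- numerics -/
private theorem PC_num (L0 : ℕ) : ∃ N0 : ℕ, ∀ N : ℕ, N0 ≤ N → 1000 ≤ Real.log N ∧
    (L0 : ℝ) ≤ TT N - 1 ∧ TT N / 2 ≤ TT N - 1 := by
  have h1 : ∀ᶠ x : ℝ in Filter.atTop, 1000 ≤ Real.log x :=
    Real.tendsto_log_atTop.eventually_ge_atTop 1000
  have h2 : ∀ᶠ x : ℝ in Filter.atTop, 2 * (L0 + 2 : ℝ) ≤ x ^ (1 / 2 - kap) :=
    (tendsto_rpow_atTop (by norm_num [kap])).eventually_ge_atTop _
  obtain ⟨X, hX⟩ := Filter.eventually_atTop.mp (h1.and h2)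
  refine ⟨⌈X⌉₊, fun N hN => ?_⟩
  have hNX : X ≤ N := (Nat.le_ceil X).trans (by exact_mod_cast hN)
  obtain ⟨g1, g2⟩ := hX N hNX
  have h0 : (0 : ℝ) ≤ L0 := Nat.cast_nonneg _
  unfold TT
  refine ⟨g1, ?_, ?_⟩ <;> linarith

/-- the primes around the square root of `N` are few -/
theorem PCb : ∃ N0 : ℕ, ∀ N : ℕ, N0 ≤ N → ∀ T : Finset ℕ,
    (∀ l ∈ T, l.Prime ∧ TT N < l ∧ (l : ℝ) ≤ (N : ℝ) ^ (1 / 2 + kap)) →
    ∑ l ∈ T, 1 / (l : ℝ) ≤ 1 / 40 := by
  classical
  obtain ⟨L0, hL0⟩ := PCa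
  obtain ⟨N0, hN0⟩ := PC_num (max L0 2)
  refine ⟨N0, fun N hN T hT => ?_⟩
  obtain ⟨g1, g2, g3⟩ := hN0 N hN
  set K : ℝ := Real.log N with hK
  have hNpos : (0 : ℝ) < N := by
    rcases Nat.eq_zero_or_pos N with h | h
    · rw [hK, h] at g1
      norm_num at g1
    · exact_mod_cast h
  have hexp : ∀ a : ℝ, (N : ℝ) ^ a = Real.exp (K * a) := fun a => by
    rw [Real.rpow_def_of_pos hNpos]
  have hTpos : 0 < TT N := by
    unfold TT
    positivity
  set M : ℕ := ⌊TT N⌋₊ with hM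
  have hM1 : TT N - 1 < M := by
    have := Nat.lt_floor_add_one (TT N)
    linarith
  have hM2 : (M : ℝ) ≤ TT N := Nat.floor_le hTpos.le
  have hML : L0 ≤ M := by
    have : ((max L0 2 : ℕ) : ℝ) < M := by linarith
    have h2 : max L0 2 < M := by exact_mod_cast this
    exact (le_max_left _ _).trans h2.le
  have hM2' : 2 ≤ M := by
    have : ((max L0 2 : ℕ) : ℝ) < M := by linarith
    have h2 : max L0 2 < M := by exact_mod_cast this
    exact (le_max_right _ _).trans h2.le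
  have hMr : (2 : ℝ) ≤ M := by exact_mod_cast hM2'
  have hl2a : (0.6931471803 : ℝ) < Real.log 2 := Real.log_two_gt_d9
  have hl2b : Real.log 2 < (0.6931471808 : ℝ) := Real.log_two_lt_d9
  -- the logarithm of `M`
  have hlogM : 0.49 * K ≤ Real.log M := by
    have h1 : Real.log (TT N / 2) ≤ Real.log M := Real.log_le_log (by positivity) (by linarith)
    have h2 : Real.log (TT N / 2) = (1 / 2 - kap) * K - 2 * Real.log 2 := by
      unfold TT
      rw [Real.log_div (by positivity) (by norm_num), Real.log_div (by positivity) (by norm_num),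
        Real.log_rpow hNpos]
      ring
    rw [h2] at h1
    unfold kap at h1
    linarith
  -- the number of blocks
  set k : ℕ := ⌊0.003 * K⌋₊ + 3 with hk
  have hk1 : 0.003 * K + 2 ≤ k := by
    have := Nat.lt_floor_add_one (0.003 * K)
    rw [hk]
    push_cast
    linarith
  have hk2 : (k : ℝ) ≤ 0.003 * K + 3 := by
    have := Nat.floor_le (show 0 ≤ 0.003 * K by linarith)
    rw [hk]
    push_cast
    linarith
  have hcov : (N : ℝ) ^ (1 / 2 + kap) ≤ (2 : ℝ) ^ k * M := by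
    have h1 : Real.log ((N : ℝ) ^ (1 / 2 + kap)) ≤ Real.log ((2 : ℝ) ^ k * (TT N / 2)) := by
      rw [Real.log_mul (by positivity) (by positivity), Real.log_pow, Real.log_rpow hNpos]
      have h2 : Real.log (TT N / 2) = (1 / 2 - kap) * K - 2 * Real.log 2 := by
        unfold TT
        rw [Real.log_div (by positivity) (by norm_num), Real.log_div (by positivity) (by norm_num),
          Real.log_rpow hNpos]
        ring
      rw [h2]
      unfold kap
      have h3 : (0.003 * K + 2) * Real.log 2 ≤ k * Real.log 2 := by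
        apply mul_le_mul_of_nonneg_right hk1 (by linarith)
      nlinarith
    have h2 : (N : ℝ) ^ (1 / 2 + kap) ≤ (2 : ℝ) ^ k * (TT N / 2) :=
      (Real.log_le_log_iff (by positivity) (by positivity)).mp h1
    refine h2.trans ?_
    gcongr
    linarith
  -- the sum
  have hblock : ∀ i : ℕ, ((Bl (2 ^ i * M)).card : ℝ) / ((2 ^ i * M : ℕ) : ℝ) ≤ 2 / (0.49 * K) := by
    intro i
    have h1 : M ≤ 2 ^ i * M := Nat.le_mul_of_pos_left _ (by positivity)
    have h2 := (hL0 (2 ^ i * M) (hML.trans h1)).2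
    have h3 : (M : ℝ) ≤ ((2 ^ i * M : ℕ) : ℝ) := by exact_mod_cast h1
    have h4 : Real.log M ≤ Real.log ((2 ^ i * M : ℕ) : ℝ) := Real.log_le_log (by linarith) h3
    have h5 : 0 < ((2 ^ i * M : ℕ) : ℝ) := by linarith
    rw [div_le_iff₀ h5]
    refine h2.trans ?_
    rw [div_mul_eq_mul_div]
    gcongr
    linarith
  have hpoint : ∀ l ∈ T, 1 / (l : ℝ) ≤
      ∑ i ∈ Finset.range k, if l ∈ Bl (2 ^ i * M) then 1 / ((2 ^ i * M : ℕ) : ℝ) else 0 := by
    intro l hl
    obtain ⟨p1, p2, p3⟩ := hT l hl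
    have q1 : M < l := by
      have : (M : ℝ) < l := by linarith
      exact_mod_cast this
    have q2 : l ≤ 2 ^ k * M := by
      have : (l : ℝ) ≤ (2 : ℝ) ^ k * M := p3.trans hcov
      exact_mod_cast this
    obtain ⟨i, hi, q3, q4⟩ := PC_cover M l q1 k q2
    have q5 : l ∈ Bl (2 ^ i * M) := by
      unfold Bl
      rw [Finset.mem_filter, Finset.mem_Ioc]
      exact ⟨⟨q3, q4⟩, p1⟩
    calc 1 / (l : ℝ) ≤ 1 / ((2 ^ i * M : ℕ) : ℝ) := by
          apply one_div_le_one_div_of_le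
          · have : 0 < 2 ^ i * M := by positivity
            exact_mod_cast this
          · exact_mod_cast q3.le
      _ = (if l ∈ Bl (2 ^ i * M) then 1 / ((2 ^ i * M : ℕ) : ℝ) else 0) := by rw [if_pos q5]
      _ ≤ ∑ i ∈ Finset.range k, if l ∈ Bl (2 ^ i * M) then 1 / ((2 ^ i * M : ℕ) : ℝ) else 0 := by
          apply Finset.single_le_sum (f := fun i => if l ∈ Bl (2 ^ i * M) then
            1 / ((2 ^ i * M : ℕ) : ℝ) else 0) _ hi
          intro j _
          positivity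
  calc ∑ l ∈ T, 1 / (l : ℝ) ≤ ∑ l ∈ T, ∑ i ∈ Finset.range k,
        (if l ∈ Bl (2 ^ i * M) then 1 / ((2 ^ i * M : ℕ) : ℝ) else 0) := Finset.sum_le_sum hpoint
    _ = ∑ i ∈ Finset.range k, ∑ l ∈ T,
        (if l ∈ Bl (2 ^ i * M) then 1 / ((2 ^ i * M : ℕ) : ℝ) else 0) := Finset.sum_comm
    _ ≤ ∑ i ∈ Finset.range k, 2 / (0.49 * K) := by
        refine Finset.sum_le_sum fun i _ => ?_
        rw [← Finset.sum_filter, Finset.sum_const, nsmul_eq_mul]
        refine le_trans ?_ (hblock i)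
        rw [mul_one_div]
        gcongr
        intro l hl
        rw [Finset.mem_filter] at hl
        exact hl.2
    _ = k * (2 / (0.49 * K)) := by rw [Finset.sum_const, Finset.card_range, nsmul_eq_mul]
    _ ≤ 1 / 40 := by
        rw [mul_div_assoc', div_le_iff₀ (by positivity)]
        nlinarith

end Pool.Agent.Lib.MP_7b7e48_nt.LG
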