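import Pool.Agent.Lib.MP_7b7e48_nt.LG.Defs
import Pool.Agent.Lib.MP_45349e_nt.LS.Liou
import Pool.Agent.Lib.SW.Davenport

/-!
# Module LA1 (60 minutes): uniform exponential sums with the Liouville function

`LA0` is `LA1` with `α = 0`.

PROOF of `LA1`. As in `LS/Liou.lean` (`Liou_id`: `lam n = ∑_{d^2 ∣ n} μ(n/d^2)`, write `n = a d^2`,
`a` squarefree): `∑_{n ≤ Y} lam n e(n α) = ∑_{d ≤ √Y} ∑_{a ≤ Y/d^2} μ(a) e(a d^2 α)`. For the inner sum
use `SW.davenport A` with `X = Y = ` (the natural number `Y / d^2`) and the real `d^2 α`: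
`≤ C X/(log X)^A`. For `d ≤ Y^(1/4)`: `Y/d^2 ≥ √Y - 1`, sum over `d` at most `C' Y/(log Y)^A`. For
`d > Y^(1/4)`: trivial bound `Y/d^2`, total `2 Y^(3/4) + 2 ≤ C'' Y/(log Y)^A`. (`liou` in
`LS/Liou.lean` is the case `α = 0`, `A = 3`; copy its proof.)
-/

open Finset
open Pool.Agent.Lib.MP_45349e_nt.LS (lam)

namespace Pool.Agent.Lib.MP_7b7e48_nt.LG

open Pool.Agent.Lib.MP_45349e_nt.LS

/-- the inner sum -/
noncomputable def LA1_M (Z : ℕ) (α : ℝ) : ℂ :=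
  ∑ a ∈ Finset.Icc 1 Z, ((ArithmeticFunction.moebius a : ℝ) : ℂ) *
    Pool.Agent.Lib.GT.e ((a : ℝ) * α)

theorem LA1_norm_e (t : ℝ) : ‖Pool.Agent.Lib.GT.e t‖ = 1 := by
  unfold Pool.Agent.Lib.GT.e
  rw [Complex.norm_exp]
  simp

theorem LA1_id (Y : ℕ) (α : ℝ) :
    ∑ n ∈ Finset.Icc 1 Y, ((lam n : ℝ) : ℂ) * Pool.Agent.Lib.GT.e ((n : ℝ) * α) =
      ∑ d ∈ Finset.Icc 1 Y, LA1_M (Y / d ^ 2) ((d : ℝ) ^ 2 * α) := by
  classical
  have h1 : ∀ d ∈ Finset.Icc 1 Y, LA1_M (Y / d ^ 2) ((d : ℝ) ^ 2 * α) =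
      ∑ a ∈ Finset.Icc 1 Y, if Squarefree a ∧ a * d ^ 2 ≤ Y then
        ((ArithmeticFunction.moebius a : ℝ) : ℂ) *
          Pool.Agent.Lib.GT.e ((a : ℝ) * ((d : ℝ) ^ 2 * α)) else 0 := by
    intro d hd
    rw [Finset.mem_Icc] at hd
    have hd2 : 0 < d ^ 2 := pow_pos hd.1 2
    unfold LA1_M
    have h2 : Finset.Icc 1 (Y / d ^ 2) = (Finset.Icc 1 Y).filter (fun a => a * d ^ 2 ≤ Y) := by
      ext a
      rw [Finset.mem_filter, Finset.mem_Icc, Finset.mem_Icc, Nat.le_div_iff_mul_le hd2]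
      constructor
      · rintro ⟨h3, h4⟩
        exact ⟨⟨h3, le_trans (Nat.le_mul_of_pos_right a hd2) h4⟩, h4⟩
      · rintro ⟨⟨h3, -⟩, h4⟩
        exact ⟨h3, h4⟩
    rw [h2, Finset.sum_filter]
    refine Finset.sum_congr rfl fun a _ => ?_
    by_cases h3 : a * d ^ 2 ≤ Y
    · by_cases h4 : Squarefree a
      · rw [if_pos h3, if_pos ⟨h4, h3⟩]
      · rw [if_pos h3, if_neg (fun h => h4 h.1), ArithmeticFunction.moebius_eq_zero_of_not_squarefree h4]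
        simp
    · rw [if_neg h3, if_neg (fun h => h3 h.2)]
  rw [Finset.sum_congr rfl h1, ← Finset.sum_product', ← Finset.sum_filter]
  symm
  refine Finset.sum_bij (fun x _ => x.2 * x.1 ^ 2) ?_ ?_ ?_ ?_
  · rintro ⟨d, a⟩ h
    rw [Finset.mem_filter, Finset.mem_product, Finset.mem_Icc, Finset.mem_Icc] at h
    rw [Finset.mem_Icc]
    refine ⟨?_, h.2.2⟩
    have h2 : 0 < a * d ^ 2 := Nat.mul_pos h.1.2.1 (pow_pos h.1.1.1 2)
    exact h2
  · rintro ⟨d, a⟩ h ⟨d', a'⟩ h' heq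
    rw [Finset.mem_filter, Finset.mem_product, Finset.mem_Icc, Finset.mem_Icc] at h h'
    have h1 : 1 ≤ d := h.1.1.1
    have h1' : 1 ≤ d' := h'.1.1.1
    obtain ⟨h2, h3⟩ := Liou_sq_unique h.2.1 h'.2.1 (by omega : d ≠ 0) (by omega : d' ≠ 0) heq
    rw [Prod.mk.injEq]
    exact ⟨h3, h2⟩
  · intro n hn
    rw [Finset.mem_Icc] at hn
    obtain ⟨a, b, ha, hb, hab, hsq⟩ := Nat.sq_mul_squarefree_of_pos (show 0 < n by omega)
    refine ⟨(b, a), ?_, by rw [← hab]; exact mul_comm _ _⟩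
    rw [Finset.mem_filter, Finset.mem_product, Finset.mem_Icc, Finset.mem_Icc]
    have h1 : a * b ^ 2 = n := by rw [← hab]; exact mul_comm _ _
    have h2 : a ≤ n := by rw [← h1]; exact Nat.le_mul_of_pos_right a (pow_pos hb 2)
    have h3 : b ≤ n := by
      rw [← h1]
      calc b ≤ b ^ 2 := Nat.le_self_pow (by norm_num) b
        _ ≤ a * b ^ 2 := Nat.le_mul_of_pos_left _ ha
    exact ⟨⟨⟨hb, h3.trans hn.2⟩, ⟨ha, h2.trans hn.2⟩⟩, hsq, by show a * b ^ 2 ≤ Y; omega⟩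
  · rintro ⟨d, a⟩ h
    rw [Finset.mem_filter, Finset.mem_product, Finset.mem_Icc, Finset.mem_Icc] at h
    have h1 : 1 ≤ d := h.1.1.1
    show ((ArithmeticFunction.moebius a : ℝ) : ℂ) *
          Pool.Agent.Lib.GT.e ((a : ℝ) * ((d : ℝ) ^ 2 * α)) =
      ((lam (a * d ^ 2) : ℝ) : ℂ) * Pool.Agent.Lib.GT.e (((a * d ^ 2 : ℕ) : ℝ) * α)
    rw [Liou_lam_sq a d h.2.1 (by omega)]
    congr 2
    push_cast
    ring

theorem LA1_M_triv (Y : ℕ) (α : ℝ) : ‖LA1_M Y α‖ ≤ Y := by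
  unfold LA1_M
  refine (norm_sum_le _ _).trans ?_
  calc ∑ a ∈ Finset.Icc 1 Y, ‖((ArithmeticFunction.moebius a : ℝ) : ℂ) *
        Pool.Agent.Lib.GT.e ((a : ℝ) * α)‖ ≤ ∑ a ∈ Finset.Icc 1 Y, (1 : ℝ) := by
        refine Finset.sum_le_sum fun a _ => ?_
        rw [norm_mul, LA1_norm_e, mul_one, Complex.norm_real, Real.norm_eq_abs, ← Int.cast_abs]
        exact_mod_cast ArithmeticFunction.abs_moebius_le_one
    _ = Y := by
        rw [Finset.sum_const, Nat.card_Icc, nsmul_eq_mul, mul_one, Nat.add_sub_cancel]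

theorem LA1_triv (Y : ℕ) (α : ℝ) :
    ‖∑ n ∈ Finset.Icc 1 Y, ((lam n : ℝ) : ℂ) * Pool.Agent.Lib.GT.e ((n : ℝ) * α)‖ ≤ Y := by
  refine (norm_sum_le _ _).trans (le_of_eq ?_)
  rw [Finset.sum_congr rfl (fun n _ => by
    rw [norm_mul, LA1_norm_e, mul_one, Complex.norm_real, Real.norm_eq_abs, abs_lam n]),
    Finset.sum_const, Nat.card_Icc, nsmul_eq_mul, mul_one, Nat.add_sub_cancel]

/-- exponential sums with the Liouville function -/
theorem LA1 (A : ℕ) : ∃ C : ℝ, 0 < C ∧ ∀ Y : ℕ, 2 ≤ Y → ∀ α : ℝ,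
    ‖∑ n ∈ Finset.Icc 1 Y, ((lam n : ℝ) : ℂ) * Pool.Agent.Lib.GT.e ((n : ℝ) * α)‖ ≤
      C * Y / (Real.log Y) ^ A := by
  obtain ⟨C, hC, hM'⟩ := Pool.Agent.Lib.SW.davenport A
  have hM : ∀ Z : ℕ, 2 ≤ Z → ∀ β : ℝ, ‖LA1_M Z β‖ ≤ C * Z / (Real.log Z) ^ A := fun Z hZ β =>
    hM' Z hZ Z le_rfl β
  refine ⟨2 * 4 ^ A * C + 2 * 4 ^ A * (Nat.factorial A : ℝ) + 3 ^ A, by positivity,
    fun Y hY α => ?_⟩
  have hYR : (2 : ℝ) ≤ Y := by exact_mod_cast hY
  have hL : 0 < Real.log Y := Real.log_pos (by linarith)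
  have hL3 : 0 < Real.log Y ^ A := by positivity
  by_cases h16 : Y < 16
  · have h1 : Real.log Y ≤ 3 := by
      have h2 : Real.log Y ≤ Real.log (2 ^ 4 : ℝ) := by
        apply Real.log_le_log (by linarith)
        have : (Y : ℝ) < 16 := by exact_mod_cast h16
        linarith
      rw [Real.log_pow] at h2
      have h3 := Real.log_two_lt_d9
      norm_num at h2
      linarith
    have h2 : Real.log Y ^ A ≤ 3 ^ A := pow_le_pow_left₀ hL.le h1 A
    refine (LA1_triv Y α).trans ?_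
    rw [le_div_iff₀ hL3]
    have h3 : (Y : ℝ) * Real.log Y ^ A ≤ Y * 3 ^ A := mul_le_mul_of_nonneg_left h2 (by linarith)
    have h4 : 0 ≤ (2 * 4 ^ A * C + 2 * 4 ^ A * (Nat.factorial A : ℝ)) * (Y : ℝ) := by positivity
    linarith
  · set k := Nat.sqrt (Nat.sqrt Y) with hk
    have hk1 : k ^ 4 ≤ Y := by
      calc k ^ 4 = (k ^ 2) ^ 2 := by ring
        _ ≤ (Nat.sqrt Y) ^ 2 := Nat.pow_le_pow_left (Nat.sqrt_le' _) 2
        _ ≤ Y := Nat.sqrt_le' Y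
    have hk2 : Y < (k + 1) ^ 4 := by
      have h1 : Nat.sqrt Y < (k + 1) ^ 2 := Nat.lt_succ_sqrt' (Nat.sqrt Y)
      have h2 : Y < (Nat.sqrt Y + 1) ^ 2 := Nat.lt_succ_sqrt' Y
      calc Y < (Nat.sqrt Y + 1) ^ 2 := h2
        _ ≤ ((k + 1) ^ 2) ^ 2 := Nat.pow_le_pow_left h1 2
        _ = (k + 1) ^ 4 := by ring
    have hk3 : 2 ≤ k := by
      by_contra h
      have h1 : (k + 1) ^ 4 ≤ 2 ^ 4 := Nat.pow_le_pow_left (by omega) 4
      omega
    have hkY : k ≤ Y := le_trans (Nat.le_self_pow (by norm_num) k) hk1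
    have hlogk : Real.log Y ≤ 4 * Real.log ((k + 1 : ℕ) : ℝ) := by
      have h1 : Real.log Y ≤ Real.log (((k + 1 : ℕ) : ℝ) ^ 4) := by
        apply Real.log_le_log (by linarith)
        exact_mod_cast hk2.le
      rwa [Real.log_pow] at h1
    -- large divisors
    have hbig : Real.log Y ^ A ≤ 4 ^ A * (Nat.factorial A : ℝ) * ((k + 1 : ℕ) : ℝ) := by
      have h1 : 0 ≤ Real.log ((k + 1 : ℕ) : ℝ) := Real.log_natCast_nonneg _
      have h2 := Real.pow_div_factorial_le_exp _ h1 A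
      rw [Real.exp_log (by positivity)] at h2
      rw [div_le_iff₀ (by positivity)] at h2
      calc Real.log Y ^ A ≤ (4 * Real.log ((k + 1 : ℕ) : ℝ)) ^ A := pow_le_pow_left₀ hL.le hlogk A
        _ = 4 ^ A * Real.log ((k + 1 : ℕ) : ℝ) ^ A := mul_pow _ _ _
        _ ≤ 4 ^ A * (((k + 1 : ℕ) : ℝ) * (Nat.factorial A : ℝ)) :=
            mul_le_mul_of_nonneg_left h2 (by positivity)
        _ = _ := by ring
    have hsplit : Finset.Icc 1 Y = Finset.Ioo 0 (k + 1) ∪ Finset.Ioo k (Y + 1) := by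
      ext d
      rw [Finset.mem_union, Finset.mem_Icc, Finset.mem_Ioo, Finset.mem_Ioo]
      omega
    have hdisj : Disjoint (Finset.Ioo 0 (k + 1)) (Finset.Ioo k (Y + 1)) := by
      rw [Finset.disjoint_left]
      intro d h1 h2
      rw [Finset.mem_Ioo] at h1 h2
      omega
    rw [LA1_id, hsplit, Finset.sum_union hdisj]
    have hA : ‖∑ d ∈ Finset.Ioo 0 (k + 1), LA1_M (Y / d ^ 2) ((d : ℝ) ^ 2 * α)‖ ≤
        2 * 4 ^ A * C * Y / Real.log Y ^ A := by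
      have h1 : ∀ d ∈ Finset.Ioo 0 (k + 1), ‖LA1_M (Y / d ^ 2) ((d : ℝ) ^ 2 * α)‖ ≤
          4 ^ A * C * Y / Real.log Y ^ A * ((d : ℝ) ^ 2)⁻¹ := by
        intro d hd
        rw [Finset.mem_Ioo] at hd
        have hd2 : 0 < d ^ 2 := pow_pos hd.1 2
        set Z := Y / d ^ 2 with hZ
        have hZk : k ^ 2 ≤ Z := by
          rw [hZ, Nat.le_div_iff_mul_le hd2]
          calc k ^ 2 * d ^ 2 ≤ k ^ 2 * k ^ 2 :=
                Nat.mul_le_mul_left _ (Nat.pow_le_pow_left (by omega) 2)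
            _ = k ^ 4 := by ring
            _ ≤ Y := hk1
        have hZ2 : 2 ≤ Z := by nlinarith
        have hZR : (2 : ℝ) ≤ Z := by exact_mod_cast hZ2
        have hlogZ : Real.log Y ≤ 4 * Real.log Z := by
          have h2 : Real.log ((k + 1 : ℕ) : ℝ) ≤ Real.log Z := by
            apply Real.log_le_log (by positivity)
            have : k + 1 ≤ Z := by nlinarith
            exact_mod_cast this
          linarith
        have hLZ : 0 < Real.log Z := Real.log_pos (by linarith)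
        have h3 := hM Z hZ2 ((d : ℝ) ^ 2 * α)
        refine h3.trans ?_
        have h4 : (Z : ℝ) ≤ Y * ((d : ℝ) ^ 2)⁻¹ := by
          have h5 : ((Y / d ^ 2 : ℕ) : ℝ) ≤ (Y : ℝ) / ((d ^ 2 : ℕ) : ℝ) := Nat.cast_div_le
          rw [Nat.cast_pow] at h5
          rw [← div_eq_mul_inv]
          exact h5
        have h5 : Real.log Y ^ A ≤ 4 ^ A * Real.log Z ^ A := by
          calc Real.log Y ^ A ≤ (4 * Real.log Z) ^ A := pow_le_pow_left₀ hL.le hlogZ A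
            _ = _ := mul_pow _ _ _
        have hdR : (0 : ℝ) < (d : ℝ) ^ 2 := by exact_mod_cast hd2
        calc C * Z / Real.log Z ^ A ≤ C * (Y * ((d : ℝ) ^ 2)⁻¹) / Real.log Z ^ A := by
              gcongr
          _ ≤ C * (Y * ((d : ℝ) ^ 2)⁻¹) / (Real.log Y ^ A / 4 ^ A) := by
              refine div_le_div_of_nonneg_left (by positivity) (by positivity) ?_
              rw [div_le_iff₀ (by positivity)]
              linarith
          _ = _ := by field_simp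
      refine (norm_sum_le _ _).trans ((Finset.sum_le_sum h1).trans ?_)
      rw [← Finset.mul_sum]
      have h2 := sum_Ioo_inv_sq_le (α := ℝ) 0 (k + 1)
      rw [Nat.cast_zero, zero_add, div_one] at h2
      calc 4 ^ A * C * Y / Real.log Y ^ A * ∑ d ∈ Finset.Ioo 0 (k + 1), ((d : ℝ) ^ 2)⁻¹
          ≤ 4 ^ A * C * Y / Real.log Y ^ A * 2 := mul_le_mul_of_nonneg_left h2 (by positivity)
        _ = _ := by ring
    have hB : ‖∑ d ∈ Finset.Ioo k (Y + 1), LA1_M (Y / d ^ 2) ((d : ℝ) ^ 2 * α)‖ ≤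
        2 * 4 ^ A * (Nat.factorial A : ℝ) * Y / Real.log Y ^ A := by
      have h1 : ∀ d ∈ Finset.Ioo k (Y + 1), ‖LA1_M (Y / d ^ 2) ((d : ℝ) ^ 2 * α)‖ ≤
          Y * ((d : ℝ) ^ 2)⁻¹ := by
        intro d _
        refine (LA1_M_triv _ _).trans ?_
        have h5 : ((Y / d ^ 2 : ℕ) : ℝ) ≤ (Y : ℝ) / ((d ^ 2 : ℕ) : ℝ) := Nat.cast_div_le
        rw [Nat.cast_pow] at h5
        rw [← div_eq_mul_inv]
        exact h5
      refine (norm_sum_le _ _).trans ((Finset.sum_le_sum h1).trans ?_)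
      rw [← Finset.mul_sum]
      have h2 := sum_Ioo_inv_sq_le (α := ℝ) k (Y + 1)
      have hk0 : (0 : ℝ) < (k : ℝ) + 1 := by positivity
      rw [le_div_iff₀ hL3]
      calc (Y : ℝ) * (∑ d ∈ Finset.Ioo k (Y + 1), ((d : ℝ) ^ 2)⁻¹) * Real.log Y ^ A
          ≤ Y * (2 / (k + 1)) * (4 ^ A * (Nat.factorial A : ℝ) * ((k + 1 : ℕ) : ℝ)) := by
            rw [mul_assoc, mul_assoc]
            refine mul_le_mul_of_nonneg_left ?_ (by positivity)
            exact mul_le_mul h2 hbig hL3.le (by positivity)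
        _ = 2 * 4 ^ A * (Nat.factorial A : ℝ) * Y := by
            push_cast
            field_simp
    refine (norm_add_le _ _).trans ((add_le_add hA hB).trans ?_)
    rw [← add_div]
    refine div_le_div_of_nonneg_right ?_ hL3.le
    have h9 : 0 ≤ (3 : ℝ) ^ A * Y := by positivity
    linarith

/-- the summatory function of the Liouville function -/
theorem LA0 (A : ℕ) : ∃ C : ℝ, 0 < C ∧ ∀ Y : ℕ, 2 ≤ Y →
    |∑ n ∈ Finset.Icc 1 Y, lam n| ≤ C * Y / (Real.log Y) ^ A := by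
  obtain ⟨C, hC, h⟩ := LA1 A
  refine ⟨C, hC, fun Y hY => ?_⟩
  have h1 := h Y hY 0
  have h2 : ∑ n ∈ Finset.Icc 1 Y, ((lam n : ℝ) : ℂ) *
      Pool.Agent.Lib.GT.e ((n : ℝ) * 0) = ((∑ n ∈ Finset.Icc 1 Y, lam n : ℝ) : ℂ) := by
    rw [Complex.ofReal_sum]
    refine Finset.sum_congr rfl fun n _ => ?_
    rw [mul_zero]
    have h3 : Pool.Agent.Lib.GT.e 0 = 1 := by
      unfold Pool.Agent.Lib.GT.e
      simp
    rw [h3, mul_one]
  rw [h2, Complex.norm_real, Real.norm_eq_abs] at h1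
  exact h1

end Pool.Agent.Lib.MP_7b7e48_nt.LG
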