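import Pool.Agent.Lib.MP_7b7e48_nt.LG.Defs

/-!
# Module BM (75 minutes): bounded multipliers, every modulus

PROOF. Strong induction on `k` (the constant `C` depends on `k` only; use `∀ k, ∃ C, ...` with the
hypotheses for all `j ≤ k`). `k = 1`: nothing is exceptional (`σ 1 = 1`). `k ≥ 2`: let `x` with
`k x ≠ 0` and `F (k x) ≠ σ k F x`. Either `j k x = 0` for some `1 ≤ j < k` (at most `j k` such `x` for each
`j`: `#{x : m x = 0} ≤ m`), or not. Dirichlet (`Real.exists_nat_abs_mul_sub_round_le` or
`exists_int_int_abs_mul_sub_le` for `ξ = x.val / M`, `n = k - 1`): there are `1 ≤ j ≤ k - 1` and an integer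
`a` with `|j x.val - a M| ≤ M / k`; equality would give `k j x = 0`. Put `z = j x` in `ZMod M`; so
`z = u` or `z = -u` with `0 < u`, `k u < M`, `u : ℕ`. If `z = u`: `F (k z) = σ k F z` by `hloc`. If
`z = -u`, `u ∉ E`, `k u ∉ E`: `F (k z) = F (-(k u)) = η F (k u) = η σ k F u = σ k F (-u)`. If moreover
`x ∉ exc j` (i.e. `F (j x) = σ j F x`) and `F (j (k x)) = σ j F (k x)`: then
`σ j F (k x) = F (j k x) = σ k F (j x) = σ k σ j F x`, so `F (k x) = σ k F x` (as `σ j ^ 2 = 1`).
So the exceptional `x` lie in `⋃_{j<k} {j k x = 0} ∪ exc j ∪ {x : k x ∈ exc j} ∪ {x : j x ∈ E} ∪ {x : j k x ∈ E}`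
(`E = -E`), of size at most `∑_{j<k} (j k + (1 + k) |exc j| + (j + j k) |E|)`, since the fibres of
multiplication by `m ≥ 1` on `ZMod M` have at most `m` elements (a separate lemma; `gcd (m, M) ≤ m`).
-/

open Finset

namespace Pool.Agent.Lib.MP_7b7e48_nt.LG

/-- the kernel of multiplication by `m` -/
private theorem BM_ker (M : ℕ) [NeZero M] (m : ℕ) (hm : 0 < m) :
    ((univ : Finset (ZMod M)).filter fun x => (m : ZMod M) * x = 0).card ≤ m := by
  classical
  have h := IsAddCyclic.card_nsmul_eq_zero_le (α := ZMod M) hm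
  refine le_trans (le_of_eq ?_) h
  congr 1
  ext x
  simp only [mem_filter, mem_univ, true_and, nsmul_eq_mul]

/-- the fibres of multiplication by `m` have at most `m` elements -/
theorem BM_fibre (M : ℕ) [NeZero M] (m : ℕ) (hm : 0 < m) (S : Finset (ZMod M)) :
    ((univ : Finset (ZMod M)).filter fun x => (m : ZMod M) * x ∈ S).card ≤ m * S.card := by
  classical
  have h1 : ((univ : Finset (ZMod M)).filter fun x => (m : ZMod M) * x ∈ S) =
      S.biUnion fun y => (univ : Finset (ZMod M)).filter fun x => (m : ZMod M) * x = y := by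
    ext x
    simp only [mem_filter, mem_univ, true_and, mem_biUnion]
    constructor
    · intro h
      exact ⟨_, h, rfl⟩
    · rintro ⟨y, hy, hxy⟩
      rw [hxy]
      exact hy
  rw [h1]
  refine le_trans card_biUnion_le ?_
  have h2 : ∀ y ∈ S, ((univ : Finset (ZMod M)).filter fun x => (m : ZMod M) * x = y).card ≤ m := by
    intro y _
    by_cases hne : ((univ : Finset (ZMod M)).filter fun x => (m : ZMod M) * x = y).Nonempty
    · obtain ⟨x0, hx0⟩ := hne
      rw [mem_filter] at hx0
      refine le_trans ?_ (BM_ker M m hm)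
      refine card_le_card_of_injOn (fun x => x - x0) ?_ ?_
      · intro x hx
        rw [mem_coe, mem_filter] at hx ⊢
        refine ⟨mem_univ _, ?_⟩
        rw [mul_sub, hx.2, hx0.2, sub_self]
      · intro a _ b _ hab
        exact sub_left_injective hab
    · rw [not_nonempty_iff_eq_empty] at hne
      rw [hne, card_empty]
      exact Nat.zero_le _
  refine le_trans (sum_le_sum h2) ?_
  rw [sum_const, smul_eq_mul, mul_comm]

/-- Dirichlet -/
private theorem BM_dir (M : ℕ) [NeZero M] (k : ℕ) (hk : 2 ≤ k) (x : ZMod M)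
    (hx : ∀ j : ℕ, 1 ≤ j → j < k → ((j * k : ℕ) : ZMod M) * x ≠ 0) :
    ∃ j : ℕ, 1 ≤ j ∧ j < k ∧ ∃ u : ℕ, 1 ≤ u ∧ k * u < M ∧
      ((j : ZMod M) * x = (u : ZMod M) ∨ (j : ZMod M) * x = -(u : ZMod M)) := by
  have hM : 0 < M := Nat.pos_of_ne_zero (NeZero.ne M)
  have hMr : (0 : ℝ) < M := by exact_mod_cast hM
  obtain ⟨j, hj0, hjk, hj⟩ := Real.exists_nat_abs_mul_sub_round_le ((x.val : ℝ) / M)
    (n := k - 1) (by omega)
  refine ⟨j, hj0, by omega, ?_⟩
  set a : ℤ := round ((j : ℝ) * ((x.val : ℝ) / M)) with ha
  set d : ℤ := j * x.val - a * M with hd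
  have hdk : (k : ℤ) * |d| ≤ M := by
    have h1 : ((k - 1 : ℕ) : ℝ) + 1 = k := by
      have : 1 ≤ k := by omega
      push_cast [Nat.cast_sub this]
      ring
    rw [h1] at hj
    have h2 : ((d : ℤ) : ℝ) = ((j : ℝ) * ((x.val : ℝ) / M) - a) * M := by
      rw [hd]
      push_cast
      field_simp
    have hk0 : (0 : ℝ) < k := by
      have : 0 < k := by omega
      exact_mod_cast this
    have h3 : (k : ℝ) * |((d : ℤ) : ℝ)| ≤ M := by
      rw [h2, abs_mul, abs_of_pos hMr]
      calc (k : ℝ) * (|(j : ℝ) * ((x.val : ℝ) / M) - a| * M)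
          ≤ (k : ℝ) * (1 / k * M) := by
            refine mul_le_mul_of_nonneg_left ?_ hk0.le
            exact mul_le_mul_of_nonneg_right hj hMr.le
        _ = M := by field_simp
    exact_mod_cast h3
  have hz : ((d : ℤ) : ZMod M) = (j : ZMod M) * x := by
    rw [hd]
    push_cast
    rw [ZMod.natCast_self, mul_zero, sub_zero, ZMod.natCast_val, ZMod.cast_id', id]
  have hkd : (((k : ℤ) * d : ℤ) : ZMod M) ≠ 0 := by
    have h1 := hx j hj0 (by omega)
    intro h2
    apply h1
    push_cast at h2 ⊢
    rw [hz] at h2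
    rw [← h2]
    ring
  have hndvd : ¬ ((M : ℤ) ∣ (k : ℤ) * d) := by
    intro h
    exact hkd ((ZMod.intCast_zmod_eq_zero_iff_dvd _ _).mpr h)
  have hd0 : d ≠ 0 := by
    intro h
    apply hndvd
    rw [h, mul_zero]
    exact dvd_zero _
  have hlt : (k : ℤ) * |d| < M := by
    refine lt_of_le_of_ne hdk ?_
    intro h
    apply hndvd
    rcases abs_choice d with h1 | h1
    · rw [h1] at h
      rw [h]
    · rw [h1] at h
      rw [show (k : ℤ) * d = -((k : ℤ) * -d) by ring, h]
      exact (dvd_refl _).neg_right
  refine ⟨d.natAbs, Int.natAbs_pos.mpr hd0, ?_, ?_⟩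
  · have h1 : ((k * d.natAbs : ℕ) : ℤ) < (M : ℕ) := by
      push_cast
      exact hlt
    exact_mod_cast h1
  · rcases Int.natAbs_eq d with h1 | h1
    · left
      rw [← hz]
      conv_lhs => rw [h1]
      exact Int.cast_natCast _
    · right
      rw [← hz]
      conv_lhs => rw [h1]
      rw [Int.cast_neg, Int.cast_natCast]

theorem BM (k : ℕ) (hk : 1 ≤ k) : ∃ C : ℝ, 0 < C ∧ ∀ (M : ℕ) [NeZero M] (F : ZMod M → ℝ)
    (σ : ℕ → ℝ) (η : ℝ) (E : Finset (ZMod M)), σ 1 = 1 → (∀ j, 1 ≤ j → j ≤ k → σ j ^ 2 = 1) →
    (∀ x ∈ E, -x ∈ E) → (∀ x, x ≠ 0 → x ∉ E → F (-x) = η * F x) →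
    (∀ j n : ℕ, 1 ≤ j → j ≤ k → 1 ≤ n → j * n < M →
      F ((j * n : ℕ) : ZMod M) = σ j * F (n : ZMod M)) →
    ((exc M F (σ k) k).card : ℝ) ≤ C * ((E.card : ℝ) + 1) := by
  classical
  induction k using Nat.strong_induction_on with
  | _ k ih =>
    rcases Nat.eq_or_lt_of_le hk with hk1 | hk2
    · -- `k = 1`
      subst hk1
      refine ⟨1, one_pos, ?_⟩
      intro M _ F σ η E hσ1 _ _ _ _
      have h0 : exc M F (σ 1) 1 = ∅ := by
        unfold exc
        rw [filter_eq_empty_iff]
        intro x _
        rw [hσ1]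
        push_cast
        rw [one_mul, one_mul]
        rintro ⟨_, h⟩
        exact h rfl
      rw [h0, card_empty]
      push_cast
      positivity
    · have hk2' : 2 ≤ k := hk2
      choose! c hc0 hc using ih
      refine ⟨∑ j ∈ Ico 1 k, ((j * k : ℕ) + (1 + k) * c j + (j + j * k)), ?_, ?_⟩
      · refine sum_pos (fun j hj => ?_) ⟨1, by rw [mem_Ico]; omega⟩
        rw [mem_Ico] at hj
        have h1 := hc0 j hj.2 hj.1
        have h2 : (0 : ℝ) < (1 + k) * c j := by positivity
        have h3 : (0 : ℝ) ≤ ((j * k : ℕ) : ℝ) := Nat.cast_nonneg _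
        have h4 : (0 : ℝ) ≤ (j : ℝ) + j * k := by positivity
        linarith
      · intro M _ F σ η E hσ1 hσ hE hrefl hloc
        let U : ℕ → Finset (ZMod M) := fun j =>
          ((univ.filter fun x : ZMod M => ((j * k : ℕ) : ZMod M) * x ∈ ({0} : Finset (ZMod M))) ∪
            exc M F (σ j) j) ∪
          (univ.filter fun x : ZMod M => (k : ZMod M) * x ∈ exc M F (σ j) j) ∪
          ((univ.filter fun x : ZMod M => (j : ZMod M) * x ∈ E) ∪
          (univ.filter fun x : ZMod M => ((j * k : ℕ) : ZMod M) * x ∈ E))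
        have hsub : exc M F (σ k) k ⊆ (Ico 1 k).biUnion U := by
          intro x hx
          by_contra hcon
          rw [mem_biUnion] at hcon
          push Not at hcon
          have hcon' : ∀ j, 1 ≤ j → j < k → ((j * k : ℕ) : ZMod M) * x ≠ 0 ∧
              x ∉ exc M F (σ j) j ∧ (k : ZMod M) * x ∉ exc M F (σ j) j ∧
              (j : ZMod M) * x ∉ E ∧ ((j * k : ℕ) : ZMod M) * x ∉ E := by
            intro j hj1 hj2
            have h1 := hcon j (by rw [mem_Ico]; exact ⟨hj1, hj2⟩)
            simp only [U, mem_union, mem_filter, mem_univ, true_and, mem_singleton, not_or] at h1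
            exact ⟨h1.1.1.1, h1.1.1.2, h1.1.2, h1.2.1, h1.2.2⟩
          obtain ⟨j, hj1, hj2, u, hu1, hu2, hu3⟩ :=
            BM_dir M k hk2' x (fun j h1 h2 => (hcon' j h1 h2).1)
          obtain ⟨g1, g2, g3, g4, g5⟩ := hcon' j hj1 hj2
          have hjk : ((j * k : ℕ) : ZMod M) * x = (j : ZMod M) * ((k : ZMod M) * x) := by
            push_cast
            ring
          have hjk' : ((j * k : ℕ) : ZMod M) * x = (k : ZMod M) * ((j : ZMod M) * x) := by
            push_cast
            ring
          have hjx : (j : ZMod M) * x ≠ 0 := by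
            intro h
            apply g1
            rw [hjk', h, mul_zero]
          -- `F (j x) = σ j F x`
          have e1 : F ((j : ZMod M) * x) = σ j * F x := by
            by_contra h
            apply g2
            unfold exc
            rw [mem_filter]
            exact ⟨mem_univ _, hjx, h⟩
          have e2 : F ((j : ZMod M) * ((k : ZMod M) * x)) = σ j * F ((k : ZMod M) * x) := by
            by_contra h
            apply g3
            unfold exc
            rw [mem_filter]
            refine ⟨mem_univ _, ?_, h⟩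
            rw [← hjk]
            exact g1
          -- `F (k z) = σ k F z`
          have hku : F ((k : ZMod M) * (u : ZMod M)) = σ k * F (u : ZMod M) := by
            have h1 := hloc k u hk le_rfl hu1 hu2
            push_cast at h1
            exact h1
          have e3 : F ((k : ZMod M) * ((j : ZMod M) * x)) = σ k * F ((j : ZMod M) * x) := by
            rcases hu3 with h | h
            · rw [h]
              exact hku
            · have hu0 : (u : ZMod M) ≠ 0 := by
                intro h0
                apply hjx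
                rw [h, h0, neg_zero]
              have hku0 : (k : ZMod M) * (u : ZMod M) ≠ 0 := by
                intro h0
                apply g1
                rw [hjk', h, mul_neg, h0, neg_zero]
              have hnE : (u : ZMod M) ∉ E := by
                intro h0
                apply g4
                rw [h]
                exact hE _ h0
              have hnkE : (k : ZMod M) * (u : ZMod M) ∉ E := by
                intro h0
                apply g5
                rw [hjk', h, mul_neg]
                exact hE _ h0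
              rw [h, mul_neg, hrefl _ hku0 hnkE, hrefl _ hu0 hnE, hku]
              ring
          have hσj := hσ j hj1 (by omega)
          have e4 : F ((k : ZMod M) * x) = σ k * F x := by
            have h1 : σ j * F ((k : ZMod M) * x) = σ k * (σ j * F x) := by
              rw [← e2, ← hjk, hjk', e3, e1]
            calc F ((k : ZMod M) * x) = σ j ^ 2 * F ((k : ZMod M) * x) := by rw [hσj, one_mul]
              _ = σ j * (σ j * F ((k : ZMod M) * x)) := by ring
              _ = σ j * (σ k * (σ j * F x)) := by rw [h1]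
              _ = σ j ^ 2 * (σ k * F x) := by ring
              _ = σ k * F x := by rw [hσj, one_mul]
          unfold exc at hx
          rw [mem_filter] at hx
          exact hx.2.2 e4
        have hcard : ((exc M F (σ k) k).card : ℝ) ≤ ∑ j ∈ Ico 1 k, ((U j).card : ℝ) := by
          have h1 := le_trans (card_le_card hsub) card_biUnion_le
          exact_mod_cast h1
        refine le_trans hcard ?_
        rw [sum_mul]
        refine sum_le_sum fun j hj => ?_
        rw [mem_Ico] at hj
        have hcj := hc j hj.2 hj.1 M F σ η E hσ1 (fun i h1 h2 => hσ i h1 (by omega)) hE hrefl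
          (fun i n h1 h2 h3 h4 => hloc i n h1 (by omega) h3 h4)
        have hcj0 := hc0 j hj.2 hj.1
        have hjk0 : 0 < j * k := Nat.mul_pos (by omega) (by omega)
        have f1 := BM_fibre M (j * k) hjk0 ({0} : Finset (ZMod M))
        have f3 := BM_fibre M k (by omega) (exc M F (σ j) j)
        have f4 := BM_fibre M j (by omega) E
        have f5 := BM_fibre M (j * k) hjk0 E
        rw [card_singleton, mul_one] at f1
        have hU : (U j).card ≤ j * k + (exc M F (σ j) j).card + k * (exc M F (σ j) j).card +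
            (j * E.card + (j * k) * E.card) := by
          refine le_trans (card_union_le _ _) ?_
          refine add_le_add ?_ ?_
          · refine le_trans (card_union_le _ _) ?_
            refine add_le_add ?_ f3
            refine le_trans (card_union_le _ _) ?_
            exact add_le_add f1 le_rfl
          · refine le_trans (card_union_le _ _) ?_
            exact add_le_add f4 f5
        have hUr : ((U j).card : ℝ) ≤ (j * k : ℕ) + ((exc M F (σ j) j).card : ℝ) +
            k * ((exc M F (σ j) j).card : ℝ) + (j * (E.card : ℝ) + (j * k) * (E.card : ℝ)) := by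
          exact_mod_cast hU
        refine le_trans hUr ?_
        have hE0 : (0 : ℝ) ≤ (E.card : ℝ) := Nat.cast_nonneg _
        have hjkr : (0 : ℝ) ≤ ((j * k : ℕ) : ℝ) := Nat.cast_nonneg _
        have hj0 : (0 : ℝ) ≤ (j : ℝ) := Nat.cast_nonneg _
        have hk0 : (0 : ℝ) ≤ (k : ℝ) := Nat.cast_nonneg _
        have t1 : ((j * k : ℕ) : ℝ) ≤ ((j * k : ℕ) : ℝ) * ((E.card : ℝ) + 1) := by nlinarith
        have t2 : (k : ℝ) * ((exc M F (σ j) j).card : ℝ) ≤ k * (c j * ((E.card : ℝ) + 1)) :=
          mul_le_mul_of_nonneg_left hcj hk0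
        have t3 : (j : ℝ) * (E.card : ℝ) + (j * k) * (E.card : ℝ) ≤
            (j + j * k) * ((E.card : ℝ) + 1) := by
          have : (0 : ℝ) ≤ (j : ℝ) + j * k := by positivity
          nlinarith
        calc _ ≤ ((j * k : ℕ) : ℝ) * ((E.card : ℝ) + 1) + c j * ((E.card : ℝ) + 1) +
              k * (c j * ((E.card : ℝ) + 1)) + (j + j * k) * ((E.card : ℝ) + 1) := by linarith
          _ = _ := by ring

end Pool.Agent.Lib.MP_7b7e48_nt.LG
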