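import Pool.Agent.Lib.MP_7b7e48_nt.LG.Defs

/-!
# Module CH (20 minutes): a chain of characters values

PROOF. For each `t`: `‖v (m) t - s‖² ≤ (m+1) (‖v 0 t - s‖² + ∑_{j<m} ‖v (j+1) t - v j t‖²)` (Cauchy-Schwarz,
`sq_sum_le_card_mul_sum_sq`); multiply by `u t` and sum.
-/

open Finset

namespace Pool.Agent.Lib.MP_7b7e48_nt.LG

private theorem CH_norm {ι : Type} (v : ℕ → ι → ℂ) (s : ℂ) (t : ι) (m : ℕ) :
    ‖v m t - s‖ ≤ ‖v 0 t - s‖ + ∑ j ∈ range m, ‖v j t - v (j + 1) t‖ := by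
  induction m with
  | zero => simp
  | succ m ih =>
    rw [sum_range_succ]
    have h1 : v (m + 1) t - s = (v m t - s) - (v m t - v (m + 1) t) := by ring
    have h2 : ‖v (m + 1) t - s‖ ≤ ‖v m t - s‖ + ‖v m t - v (m + 1) t‖ := by
      rw [h1]
      exact norm_sub_le _ _
    linarith

private theorem CH_sq {ι : Type} (v : ℕ → ι → ℂ) (s : ℂ) (t : ι) (m : ℕ) :
    ‖v m t - s‖ ^ 2 ≤
      (m + 1) * ((∑ j ∈ range m, ‖v j t - v (j + 1) t‖ ^ 2) + ‖v 0 t - s‖ ^ 2) := by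
  let a : ℕ → ℝ := fun i => if i = m then ‖v 0 t - s‖ else ‖v i t - v (i + 1) t‖
  have ha : ∀ i ∈ range m, a i = ‖v i t - v (i + 1) t‖ := by
    intro i hi
    have : i ≠ m := ne_of_lt (mem_range.mp hi)
    simp only [a, if_neg this]
  have ham : a m = ‖v 0 t - s‖ := by simp only [a, if_true]
  have h1 : ‖v m t - s‖ ≤ ∑ i ∈ range (m + 1), a i := by
    rw [sum_range_succ, ham, sum_congr rfl ha]
    have := CH_norm v s t m
    linarith
  have h2 : (∑ i ∈ range (m + 1), a i) ^ 2 ≤ (m + 1) * ∑ i ∈ range (m + 1), a i ^ 2 := by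
    have := sq_sum_le_card_mul_sum_sq (s := range (m + 1)) (f := a)
    rw [card_range] at this
    push_cast at this
    exact this
  have h3 : ∑ i ∈ range (m + 1), a i ^ 2 =
      (∑ j ∈ range m, ‖v j t - v (j + 1) t‖ ^ 2) + ‖v 0 t - s‖ ^ 2 := by
    rw [sum_range_succ, ham]
    congr 1
    exact sum_congr rfl fun i hi => by rw [ha i hi]
  rw [← h3]
  refine le_trans ?_ h2
  exact pow_le_pow_left₀ (norm_nonneg _) h1 2

theorem CH {ι : Type} (T : Finset ι) (u : ι → ℝ) (hu : ∀ t ∈ T, 0 ≤ u t) (v : ℕ → ι → ℂ) (s : ℂ)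
    (d d0 : ℝ) (m : ℕ) (hd : ∀ j < m, ∑ t ∈ T, u t * ‖v j t - v (j + 1) t‖ ^ 2 ≤ d)
    (h0 : ∑ t ∈ T, u t * ‖v 0 t - s‖ ^ 2 ≤ d0) :
    ∑ t ∈ T, u t * ‖v m t - s‖ ^ 2 ≤ (m + 1) * (m * d + d0) := by
  have h1 : ∑ t ∈ T, u t * ‖v m t - s‖ ^ 2 ≤
      ∑ t ∈ T, (m + 1) * ((∑ j ∈ range m, u t * ‖v j t - v (j + 1) t‖ ^ 2) +
        u t * ‖v 0 t - s‖ ^ 2) := by
    refine sum_le_sum fun t ht => ?_
    have h2 := mul_le_mul_of_nonneg_left (CH_sq v s t m) (hu t ht)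
    refine le_trans h2 (le_of_eq ?_)
    rw [← mul_sum]
    ring
  refine le_trans h1 ?_
  rw [← mul_sum, sum_add_distrib, sum_comm]
  refine mul_le_mul_of_nonneg_left ?_ (by positivity)
  refine add_le_add ?_ h0
  refine le_trans (sum_le_sum fun j hj => hd j (mem_range.mp hj)) ?_
  rw [sum_const, card_range, nsmul_eq_mul]

end Pool.Agent.Lib.MP_7b7e48_nt.LG
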