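import Mathlib

/-!
# The Polya-Vinogradov inequality for prime moduli

`polya_vinogradov`: for a prime `N ≥ 3` and a non-principal Dirichlet character `χ` modulo `N`,
`|∑_{n ≤ Y} χ n| ≤ 2 √N log N` for every `Y`.  `PV` is the same with the constant `4`.
-/

set_option autoImplicit false

open Finset

namespace Pool.Agent.Lib.MP_7b7e48_nt.LG

theorem pv_gauss (N : ℕ) [hN : Fact N.Prime] (χ : DirichletCharacter ℂ N) (h : χ ≠ 1)
    (a : ZMod N) :
    χ a * gaussSum χ⁻¹ (ZMod.stdAddChar (N := N)) =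
      ∑ x : ZMod N, χ⁻¹ x * ZMod.stdAddChar (a * x) := by
  have hinv : χ⁻¹ ≠ 1 := by
    intro h1
    exact h (inv_eq_one.mp h1)
  by_cases ha : a = 0
  · subst ha
    rw [MulChar.map_zero, zero_mul]
    simp only [zero_mul, AddChar.map_zero_eq_one, mul_one]
    exact (MulChar.sum_eq_zero_of_ne_one hinv).symm
  · have hu : IsUnit a := isUnit_iff_ne_zero.mpr ha
    obtain ⟨u, rfl⟩ := hu
    have h1 := gaussSum_mulShift_eq χ⁻¹ (ZMod.stdAddChar (N := N)) u
    rw [inv_inv] at h1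
    rw [← h1]
    simp only [gaussSum, AddChar.mulShift_apply]

theorem pv_norm_gauss (N : ℕ) [hN : Fact N.Prime] (χ : DirichletCharacter ℂ N) (h : χ ≠ 1) :
    ‖gaussSum χ⁻¹ (ZMod.stdAddChar (N := N))‖ = Real.sqrt N := by
  have hinv : χ⁻¹ ≠ 1 := by
    intro h1
    exact h (inv_eq_one.mp h1)
  have hprim : (ZMod.stdAddChar (N := N)).IsPrimitive := ZMod.isPrimitive_stdAddChar N
  have h1 := gaussSum_mul_gaussSum_eq_card hinv hprim
  rw [← star_gaussSum_eq, ZMod.card] at h1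
  have h2 : (‖gaussSum χ⁻¹ (ZMod.stdAddChar (N := N))‖ : ℝ) ^ 2 = N := by
    have h3 : gaussSum χ⁻¹ (ZMod.stdAddChar (N := N)) *
        star (gaussSum χ⁻¹ (ZMod.stdAddChar (N := N))) =
        ((‖gaussSum χ⁻¹ (ZMod.stdAddChar (N := N))‖ ^ 2 : ℝ) : ℂ) := by
      have h4 := Complex.mul_conj' (gaussSum χ⁻¹ (ZMod.stdAddChar (N := N)))
      rw [Complex.ofReal_pow]
      exact h4
    rw [h3] at h1
    exact_mod_cast h1
  rw [← h2, Real.sqrt_sq (norm_nonneg _)]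

theorem pv_geom (z : ℂ) (hz : ‖z‖ = 1) (h1 : z ≠ 1) (Y : ℕ) :
    ‖∑ n ∈ Icc 1 Y, z ^ n‖ ≤ 2 / ‖z - 1‖ := by
  have h2 : ∑ n ∈ Icc 1 Y, z ^ n = z * ∑ n ∈ range Y, z ^ n := by
    induction Y with
    | zero => simp
    | succ Y ih =>
      rw [sum_Icc_succ_top (by omega), sum_range_succ, ih, mul_add, pow_succ']
  rw [h2, geom_sum_eq h1, norm_mul, hz, one_mul, norm_div]
  have h3 : ‖z ^ Y - 1‖ ≤ 2 := by
    refine (norm_sub_le _ _).trans ?_
    rw [norm_pow, hz, one_pow, norm_one]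
    norm_num
  gcongr

theorem pv_norm_char (N : ℕ) [NeZero N] (x : ZMod N) : ‖ZMod.stdAddChar x‖ = 1 := by
  rw [ZMod.stdAddChar_apply]
  exact Circle.norm_coe _

theorem pv_dist (N : ℕ) [hN : NeZero N] (x : ZMod N) (hx : x ≠ 0) :
    2 / ‖ZMod.stdAddChar x - 1‖ ≤
      (N : ℝ) / 2 * (((x.val : ℕ) : ℝ)⁻¹ + (((N - x.val : ℕ) : ℕ) : ℝ)⁻¹) := by
  have hNpos : 0 < N := Nat.pos_of_ne_zero hN.out
  have hlt : x.val < N := ZMod.val_lt x
  have hpos : 0 < x.val := by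
    rw [Nat.pos_iff_ne_zero]
    intro h
    exact hx ((ZMod.val_eq_zero x).mp h)
  have hNr : (0 : ℝ) < N := by exact_mod_cast hNpos
  have hkr : (0 : ℝ) < (x.val : ℝ) := by exact_mod_cast hpos
  have hsub : (((N - x.val : ℕ) : ℕ) : ℝ) = N - x.val := by
    rw [Nat.cast_sub hlt.le]
  have hlr : (0 : ℝ) < (N : ℝ) - x.val := by
    have : (x.val : ℝ) < N := by exact_mod_cast hlt
    linarith
  have h1 : ‖ZMod.stdAddChar x - 1‖ = |2 * Real.sin (Real.pi * x.val / N)| := by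
    rw [ZMod.stdAddChar_apply, ZMod.toCircle_apply]
    have h2 : (2 * (Real.pi : ℂ) * Complex.I * (x.val : ℂ) / (N : ℂ)) =
        Complex.I * ((2 * Real.pi * x.val / N : ℝ) : ℂ) := by
      push_cast
      ring
    rw [h2, Complex.norm_exp_I_mul_ofReal_sub_one, Real.norm_eq_abs]
    congr 3
    ring
  rw [h1, hsub]
  rcases le_total (2 * (x.val : ℝ)) N with h2 | h2
  · have h3 : 2 * (x.val : ℝ) / N ≤ Real.sin (Real.pi * x.val / N) := by
      have h4 := Real.mul_le_sin (x := Real.pi * x.val / N) (by positivity) (by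
        rw [div_le_iff₀ hNr]
        nlinarith [Real.pi_pos])
      refine le_trans (le_of_eq ?_) h4
      field_simp
    have h5 : 4 * (x.val : ℝ) / N ≤ |2 * Real.sin (Real.pi * x.val / N)| := by
      refine le_trans ?_ (le_abs_self _)
      calc 4 * (x.val : ℝ) / N = 2 * (2 * (x.val : ℝ) / N) := by ring
        _ ≤ _ := by linarith
    calc 2 / |2 * Real.sin (Real.pi * x.val / N)| ≤ 2 / (4 * (x.val : ℝ) / N) := by gcongr
      _ = (N : ℝ) / 2 * (x.val : ℝ)⁻¹ := by field_simp; norm_num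
      _ ≤ _ := by
        gcongr
        have : 0 ≤ ((N : ℝ) - x.val)⁻¹ := by positivity
        linarith
  · have h3 : 2 * ((N : ℝ) - x.val) / N ≤ Real.sin (Real.pi * x.val / N) := by
      have h4 := Real.mul_le_sin (x := Real.pi * (N - x.val) / N) (by positivity) (by
        rw [div_le_iff₀ hNr]
        nlinarith [Real.pi_pos])
      have h5 : Real.sin (Real.pi * (N - x.val) / N) = Real.sin (Real.pi * x.val / N) := by
        have h6 : Real.pi * (N - x.val) / N = Real.pi - Real.pi * x.val / N := by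
          field_simp
        rw [h6, Real.sin_pi_sub]
      rw [h5] at h4
      refine le_trans (le_of_eq ?_) h4
      field_simp
    have h5 : 4 * ((N : ℝ) - x.val) / N ≤ |2 * Real.sin (Real.pi * x.val / N)| := by
      refine le_trans ?_ (le_abs_self _)
      calc 4 * ((N : ℝ) - x.val) / N = 2 * (2 * ((N : ℝ) - x.val) / N) := by ring
        _ ≤ _ := by linarith
    calc 2 / |2 * Real.sin (Real.pi * x.val / N)| ≤ 2 / (4 * ((N : ℝ) - x.val) / N) := by gcongr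
      _ = (N : ℝ) / 2 * ((N : ℝ) - x.val)⁻¹ := by field_simp; norm_num
      _ ≤ _ := by
        gcongr
        have : 0 ≤ (x.val : ℝ)⁻¹ := by positivity
        linarith

theorem pv_sum (N : ℕ) [hN : NeZero N] :
    ∑ x ∈ (univ : Finset (ZMod N)).erase 0,
      (N : ℝ) / 2 * (((x.val : ℕ) : ℝ)⁻¹ + (((N - x.val : ℕ) : ℕ) : ℝ)⁻¹) =
      N * ∑ k ∈ Icc 1 (N - 1), ((k : ℕ) : ℝ)⁻¹ := by
  have hNpos : 0 < N := Nat.pos_of_ne_zero hN.out
  have h1 : ∀ f : ℕ → ℝ, ∑ x ∈ (univ : Finset (ZMod N)).erase 0, f x.val =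
      ∑ k ∈ Icc 1 (N - 1), f k := by
    intro f
    refine Finset.sum_nbij' (fun x => x.val) (fun k => (k : ZMod N)) ?_ ?_ ?_ ?_ ?_
    · intro x hx
      have hx0 : x ≠ 0 := (mem_erase.mp hx).1
      have h2 : x.val ≠ 0 := fun h => hx0 ((ZMod.val_eq_zero x).mp h)
      have h3 := ZMod.val_lt x
      exact mem_Icc.mpr ⟨by omega, by omega⟩
    · intro k hk
      obtain ⟨h2, h3⟩ := mem_Icc.mp hk
      refine mem_erase.mpr ⟨?_, mem_univ _⟩
      intro h4
      rw [ZMod.natCast_eq_zero_iff] at h4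
      have := Nat.le_of_dvd (by omega) h4
      omega
    · intro x _
      exact ZMod.natCast_zmod_val x
    · intro k hk
      obtain ⟨h2, h3⟩ := mem_Icc.mp hk
      exact ZMod.val_cast_of_lt (by omega)
    · intro x _
      rfl
  rw [h1 (fun k => (N : ℝ) / 2 * (((k : ℕ) : ℝ)⁻¹ + (((N - k : ℕ) : ℕ) : ℝ)⁻¹)), ← mul_sum,
    sum_add_distrib]
  have h2 : ∑ k ∈ Icc 1 (N - 1), (((N - k : ℕ) : ℕ) : ℝ)⁻¹ =
      ∑ k ∈ Icc 1 (N - 1), ((k : ℕ) : ℝ)⁻¹ := by
    refine Finset.sum_nbij' (fun k => N - k) (fun k => N - k) ?_ ?_ ?_ ?_ ?_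
    · intro k hk
      obtain ⟨h2, h3⟩ := mem_Icc.mp hk
      exact mem_Icc.mpr ⟨by omega, by omega⟩
    · intro k hk
      obtain ⟨h2, h3⟩ := mem_Icc.mp hk
      exact mem_Icc.mpr ⟨by omega, by omega⟩
    · intro k hk
      obtain ⟨h2, h3⟩ := mem_Icc.mp hk
      omega
    · intro k hk
      obtain ⟨h2, h3⟩ := mem_Icc.mp hk
      omega
    · intro k _
      rfl
  rw [h2]
  ring

/-- **Polya-Vinogradov** for prime moduli. -/
theorem polya_vinogradov (N : ℕ) [hN : Fact N.Prime] (h3 : 3 ≤ N) (χ : DirichletCharacter ℂ N)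
    (h : χ ≠ 1) (Y : ℕ) :
    ‖∑ n ∈ Icc 1 Y, χ n‖ ≤ 2 * Real.sqrt N * Real.log N := by
  have hNr : (0 : ℝ) < N := by
    have : 0 < N := by omega
    exact_mod_cast this
  set τ : ℂ := gaussSum χ⁻¹ (ZMod.stdAddChar (N := N)) with hτ
  have hτn : ‖τ‖ = Real.sqrt N := pv_norm_gauss N χ h
  have h1 : τ * ∑ n ∈ Icc 1 Y, χ n =
      ∑ x : ZMod N, χ⁻¹ x * ∑ n ∈ Icc 1 Y, (ZMod.stdAddChar x) ^ n := by
    rw [mul_sum]
    have h2 : ∀ n ∈ Icc 1 Y, τ * χ n = ∑ x : ZMod N, χ⁻¹ x * (ZMod.stdAddChar x) ^ n := by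
      intro n _
      rw [mul_comm, hτ, pv_gauss N χ h]
      refine sum_congr rfl fun x _ => ?_
      rw [← AddChar.map_nsmul_eq_pow, nsmul_eq_mul]
    rw [sum_congr rfl h2, sum_comm]
    refine sum_congr rfl fun x _ => ?_
    rw [mul_sum]
  have h4 : ‖τ * ∑ n ∈ Icc 1 Y, χ n‖ ≤ N * (1 + Real.log N) := by
    rw [h1, ← Finset.add_sum_erase univ _ (mem_univ (0 : ZMod N)), MulChar.map_zero, zero_mul,
      zero_add]
    refine (norm_sum_le _ _).trans ?_
    have h5 : ∀ x ∈ (univ : Finset (ZMod N)).erase 0,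
        ‖χ⁻¹ x * ∑ n ∈ Icc 1 Y, (ZMod.stdAddChar x) ^ n‖ ≤
        (N : ℝ) / 2 * (((x.val : ℕ) : ℝ)⁻¹ + (((N - x.val : ℕ) : ℕ) : ℝ)⁻¹) := by
      intro x hx
      have hx0 : x ≠ 0 := (mem_erase.mp hx).1
      have h6 : ZMod.stdAddChar x ≠ 1 := by
        intro h7
        apply hx0
        apply ZMod.injective_stdAddChar
        rw [h7, AddChar.map_zero_eq_one]
      rw [norm_mul]
      have h7 : ‖χ⁻¹ x‖ ≤ 1 := DirichletCharacter.norm_le_one _ _
      calc ‖χ⁻¹ x‖ * ‖∑ n ∈ Icc 1 Y, (ZMod.stdAddChar x) ^ n‖ ≤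
          1 * (2 / ‖ZMod.stdAddChar x - 1‖) := by
            gcongr
            exact pv_geom _ (pv_norm_char N x) h6 Y
        _ ≤ _ := by
          rw [one_mul]
          exact pv_dist N x hx0
    refine (sum_le_sum h5).trans ?_
    rw [pv_sum]
    have h8 := harmonic_le_one_add_log (N - 1)
    simp_rw [harmonic_eq_sum_Icc, Rat.cast_sum, Rat.cast_inv, Rat.cast_natCast] at h8
    have h9 : Real.log ((N - 1 : ℕ) : ℝ) ≤ Real.log N := by
      apply Real.log_le_log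
      · have : 0 < N - 1 := by omega
        exact_mod_cast this
      · exact_mod_cast Nat.sub_le N 1
    gcongr
    linarith
  have h5 : 1 ≤ Real.log N := by
    rw [Real.le_log_iff_exp_le hNr]
    have h6 := Real.exp_one_lt_d9
    have h7 : (3 : ℝ) ≤ N := by exact_mod_cast h3
    linarith
  rw [norm_mul, hτn] at h4
  have hs : 0 < Real.sqrt N := Real.sqrt_pos.mpr hNr
  have h6 : Real.sqrt N * ‖∑ n ∈ Icc 1 Y, χ n‖ ≤ Real.sqrt N * (2 * Real.sqrt N * Real.log N) := by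
    refine h4.trans ?_
    have h7 : Real.sqrt N * Real.sqrt N = N := Real.mul_self_sqrt hNr.le
    calc (N : ℝ) * (1 + Real.log N) ≤ N * (2 * Real.log N) := by
          gcongr
          linarith
      _ = (Real.sqrt N * Real.sqrt N) * (2 * Real.log N) := by rw [h7]
      _ = Real.sqrt N * (2 * Real.sqrt N * Real.log N) := by ring
  exact le_of_mul_le_mul_left h6 hs

theorem PV (N : ℕ) [NeZero N] (hN : N.Prime) (h3 : 3 ≤ N) (χ : DirichletCharacter ℂ N)
    (h : χ ≠ 1) (Y : ℕ) :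
    ‖∑ n ∈ Finset.Icc 1 Y, χ (n : ZMod N)‖ ≤ 4 * Real.sqrt N * Real.log N := by
  haveI : Fact N.Prime := ⟨hN⟩
  refine (polya_vinogradov N h3 χ h Y).trans ?_
  have h1 : 0 ≤ Real.log N := Real.log_natCast_nonneg N
  have h2 : 0 ≤ Real.sqrt N := Real.sqrt_nonneg _
  nlinarith [mul_nonneg h2 h1]

end Pool.Agent.Lib.MP_7b7e48_nt.LG
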