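import Mathlib
import Pool.Agent.Lib.MP_7b7e48_nt.LG.PV

/-!
# Fourier analysis on the multiplicative group modulo a prime

`cp_parseval`, `cp_inversion`, `cp_near` (near orthogonality of a small set of characters on a
long interval, from Polya-Vinogradov).
-/

set_option autoImplicit false

open Finset

namespace Pool.Agent.Lib.MP_7b7e48_nt.LG

theorem cp_norm_one {N : ℕ} [Fact N.Prime] (χ : DirichletCharacter ℂ N) {x : ZMod N}
    (hx : x ≠ 0) : ‖χ x‖ = 1 := by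
  obtain ⟨u, rfl⟩ := isUnit_iff_ne_zero.mpr hx
  exact DirichletCharacter.unit_norm_eq_one χ u

theorem cp_star {N : ℕ} [Fact N.Prime] (χ : DirichletCharacter ℂ N) (x : ZMod N) :
    (starRingEnd ℂ) (χ x) = χ⁻¹ x := MulChar.star_apply' χ x

theorem cp_orth {N : ℕ} [Fact N.Prime] (χ ψ : DirichletCharacter ℂ N) :
    ∑ x : ZMod N, χ x * (starRingEnd ℂ) (ψ x) = if χ = ψ then ((N : ℂ) - 1) else 0 := by
  have h1 : ∀ x : ZMod N, χ x * (starRingEnd ℂ) (ψ x) = (χ * ψ⁻¹) x := by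
    intro x
    rw [cp_star, MulChar.mul_apply]
  simp_rw [h1]
  split_ifs with h
  · subst h
    rw [mul_inv_cancel, MulChar.sum_one_eq_card_units, ZMod.card_units]
    have h2 : 1 ≤ N := (Fact.out : N.Prime).one_lt.le
    push_cast [h2]
    ring
  · exact MulChar.sum_eq_zero_of_ne_one (fun h2 => h (mul_inv_eq_one.mp h2))

theorem cp_normsq (z : ℂ) : ((‖z‖ ^ 2 : ℝ) : ℂ) = z * (starRingEnd ℂ) z := by
  rw [Complex.mul_conj']
  push_cast
  rfl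

theorem cp_expand {ι : Type*} (s : Finset ι) (c : ι → ℂ) (f : ι → ℂ) :
    ((‖∑ i ∈ s, c i * f i‖ ^ 2 : ℝ) : ℂ) =
      ∑ i ∈ s, ∑ j ∈ s, (c i * (starRingEnd ℂ) (c j)) * (f i * (starRingEnd ℂ) (f j)) := by
  rw [cp_normsq, map_sum, Finset.sum_mul_sum]
  refine sum_congr rfl fun i _ => sum_congr rfl fun j _ => ?_
  rw [map_mul]
  ring

/-- Parseval for the characters modulo a prime. -/
theorem cp_parseval {N : ℕ} [Fact N.Prime] (G : Finset (DirichletCharacter ℂ N))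
    (c : DirichletCharacter ℂ N → ℂ) :
    ∑ x : ZMod N, ‖∑ χ ∈ G, c χ * χ x‖ ^ 2 = ((N : ℝ) - 1) * ∑ χ ∈ G, ‖c χ‖ ^ 2 := by
  have h1 : ((∑ x : ZMod N, ‖∑ χ ∈ G, c χ * χ x‖ ^ 2 : ℝ) : ℂ) =
      ((((N : ℝ) - 1) * ∑ χ ∈ G, ‖c χ‖ ^ 2 : ℝ) : ℂ) := by
    rw [Complex.ofReal_sum]
    have h2 : ∀ x : ZMod N, ((‖∑ χ ∈ G, c χ * χ x‖ ^ 2 : ℝ) : ℂ) =
        ∑ χ ∈ G, ∑ ψ ∈ G, (c χ * (starRingEnd ℂ) (c ψ)) * (χ x * (starRingEnd ℂ) (ψ x)) :=
      fun x => cp_expand G c (fun χ => χ x)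
    simp_rw [h2]
    rw [sum_comm]
    have h3 : ∀ χ ∈ G, ∑ x : ZMod N, ∑ ψ ∈ G,
        (c χ * (starRingEnd ℂ) (c ψ)) * (χ x * (starRingEnd ℂ) (ψ x)) =
        ((N : ℂ) - 1) * ((‖c χ‖ ^ 2 : ℝ) : ℂ) := by
      intro χ hχ
      rw [sum_comm]
      simp_rw [← mul_sum, cp_orth]
      rw [Finset.sum_eq_single χ]
      · rw [if_pos rfl, cp_normsq]
        ring
      · intro ψ _ hne
        rw [if_neg (fun h => hne h.symm), mul_zero]
      · intro h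
        exact absurd hχ h
    rw [sum_congr rfl h3, ← mul_sum]
    push_cast
    rfl
  exact_mod_cast h1

/-- The coefficient of `χ` in the expansion of `F`. -/
noncomputable def cf {N : ℕ} [NeZero N] (F : ZMod N → ℂ) (χ : DirichletCharacter ℂ N) : ℂ :=
  ((N : ℂ) - 1)⁻¹ * ∑ y : ZMod N, F y * (starRingEnd ℂ) (χ y)

theorem cp_inversion {N : ℕ} [hN : Fact N.Prime] (F : ZMod N → ℂ) (h0 : F 0 = 0) (x : ZMod N) :
    F x = ∑ χ : DirichletCharacter ℂ N, cf F χ * χ x := by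
  have hN1 : ((N : ℂ) - 1) ≠ 0 := by
    have h1 : 1 < N := (Fact.out : N.Prime).one_lt
    intro h
    have h2 : ((N : ℂ)) = ((1 : ℕ) : ℂ) := by
      rw [Nat.cast_one]
      exact sub_eq_zero.mp h
    have h3 := Nat.cast_injective (R := ℂ) h2
    omega
  by_cases hx : x = 0
  · subst hx
    rw [h0]
    symm
    apply Finset.sum_eq_zero
    intro χ _
    rw [MulChar.map_zero, mul_zero]
  · unfold cf
    simp_rw [mul_sum, sum_mul]
    rw [sum_comm]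
    have h1 : ∀ y : ZMod N, ∑ χ : DirichletCharacter ℂ N,
        ((N : ℂ) - 1)⁻¹ * (F y * (starRingEnd ℂ) (χ y)) * χ x = if y = x then F y else 0 := by
      intro y
      by_cases hy : y = 0
      · subst hy
        rw [if_neg (fun h => hx h.symm)]
        apply Finset.sum_eq_zero
        intro χ _
        rw [h0]
        ring
      · have h2 := DirichletCharacter.sum_char_inv_mul_char_eq ℂ (isUnit_iff_ne_zero.mpr hy) x
        have h3 : ∀ χ : DirichletCharacter ℂ N,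
            ((N : ℂ) - 1)⁻¹ * (F y * (starRingEnd ℂ) (χ y)) * χ x =
            (((N : ℂ) - 1)⁻¹ * F y) * (χ y⁻¹ * χ x) := by
          intro χ
          rw [cp_star, MulChar.inv_apply']
          ring
        simp_rw [h3]
        rw [← mul_sum, h2]
        split_ifs with h4
        · rw [Nat.totient_prime (Fact.out : N.Prime)]
          have h5 : 1 ≤ N := (Fact.out : N.Prime).one_lt.le
          push_cast [h5]
          field_simp
        · rw [mul_zero]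
    simp_rw [h1]
    rw [Finset.sum_ite_eq' univ x, if_pos (mem_univ _)]

/-- Parseval for `F`. -/
theorem cp_parseval_F {N : ℕ} [hN : Fact N.Prime] (F : ZMod N → ℂ) (h0 : F 0 = 0) :
    ∑ x : ZMod N, ‖F x‖ ^ 2 = ((N : ℝ) - 1) * ∑ χ : DirichletCharacter ℂ N, ‖cf F χ‖ ^ 2 := by
  rw [← cp_parseval univ (cf F)]
  refine sum_congr rfl fun x _ => ?_
  rw [← cp_inversion F h0 x]

/-- Multiplier in the Fourier side. -/
theorem cp_mult {N : ℕ} [hN : Fact N.Prime] (F : ZMod N → ℂ) (h0 : F 0 = 0) (s : ℂ)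
    (a : ZMod N) :
    ∑ x : ZMod N, ‖F (a * x) - s * F x‖ ^ 2 =
      ((N : ℝ) - 1) * ∑ χ : DirichletCharacter ℂ N, ‖cf F χ‖ ^ 2 * ‖χ a - s‖ ^ 2 := by
  have h1 : ∀ x : ZMod N, F (a * x) - s * F x =
      ∑ χ : DirichletCharacter ℂ N, (cf F χ * (χ a - s)) * χ x := by
    intro x
    rw [cp_inversion F h0 (a * x), cp_inversion F h0 x, mul_sum, ← sum_sub_distrib]
    refine sum_congr rfl fun χ _ => ?_
    rw [map_mul]
    ring
  simp_rw [h1]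
  rw [cp_parseval univ (fun χ => cf F χ * (χ a - s))]
  congr 1
  refine sum_congr rfl fun χ _ => ?_
  rw [norm_mul, mul_pow]

/-- Near orthogonality of few characters on a long interval. -/
theorem cp_near {N : ℕ} [NeZero N] (hN : N.Prime) (h3 : 3 ≤ N)
    (G : Finset (DirichletCharacter ℂ N)) (c : DirichletCharacter ℂ N → ℂ) (X : ℕ) (hX : X < N) :
    ((X : ℝ) - G.card * (4 * Real.sqrt N * Real.log N)) * ∑ χ ∈ G, ‖c χ‖ ^ 2 ≤
      ∑ n ∈ Icc 1 X, ‖∑ χ ∈ G, c χ * χ (n : ZMod N)‖ ^ 2 := by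
  haveI : Fact N.Prime := ⟨hN⟩
  set M : ℝ := 4 * Real.sqrt N * Real.log N with hM
  have hM0 : 0 ≤ M := by
    have h1 : 0 ≤ Real.log N := Real.log_natCast_nonneg N
    positivity
  -- the sum as a double sum
  have h1 : ((∑ n ∈ Icc 1 X, ‖∑ χ ∈ G, c χ * χ (n : ZMod N)‖ ^ 2 : ℝ) : ℂ) =
      ∑ χ ∈ G, ∑ ψ ∈ G, (c χ * (starRingEnd ℂ) (c ψ)) * ∑ n ∈ Icc 1 X,
        (χ (n : ZMod N) * (starRingEnd ℂ) (ψ (n : ZMod N))) := by
    rw [Complex.ofReal_sum]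
    have h2 : ∀ n ∈ Icc 1 X, ((‖∑ χ ∈ G, c χ * χ (n : ZMod N)‖ ^ 2 : ℝ) : ℂ) =
        ∑ χ ∈ G, ∑ ψ ∈ G, (c χ * (starRingEnd ℂ) (c ψ)) *
          (χ (n : ZMod N) * (starRingEnd ℂ) (ψ (n : ZMod N))) :=
      fun n _ => cp_expand G c (fun χ => χ (n : ZMod N))
    rw [sum_congr rfl h2, sum_comm]
    refine sum_congr rfl fun χ _ => ?_
    rw [sum_comm]
    refine sum_congr rfl fun ψ _ => ?_
    rw [mul_sum]
  have hdiag : ∀ χ : DirichletCharacter ℂ N, ∑ n ∈ Icc 1 X,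
      (χ (n : ZMod N) * (starRingEnd ℂ) (χ (n : ZMod N))) = (X : ℂ) := by
    intro χ
    have h2 : ∀ n ∈ Icc 1 X, χ (n : ZMod N) * (starRingEnd ℂ) (χ (n : ZMod N)) = 1 := by
      intro n hn
      obtain ⟨h4, h5⟩ := mem_Icc.mp hn
      have h6 : (n : ZMod N) ≠ 0 := by
        intro h7
        rw [ZMod.natCast_eq_zero_iff] at h7
        have := Nat.le_of_dvd (by omega) h7
        omega
      rw [← cp_normsq, cp_norm_one χ h6]
      norm_num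
    rw [sum_congr rfl h2, sum_const, Nat.card_Icc]
    simp
  have hoff : ∀ χ ψ : DirichletCharacter ℂ N, χ ≠ ψ → ‖∑ n ∈ Icc 1 X,
      (χ (n : ZMod N) * (starRingEnd ℂ) (ψ (n : ZMod N)))‖ ≤ M := by
    intro χ ψ hne
    have h2 : ∀ n ∈ Icc 1 X, χ (n : ZMod N) * (starRingEnd ℂ) (ψ (n : ZMod N)) =
        (χ * ψ⁻¹) (n : ZMod N) := by
      intro n _
      rw [cp_star, MulChar.mul_apply]
    rw [sum_congr rfl h2]
    exact PV N hN h3 _ (fun h => hne (mul_inv_eq_one.mp h)) X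
  -- real part comparison
  have h4 : ‖((∑ n ∈ Icc 1 X, ‖∑ χ ∈ G, c χ * χ (n : ZMod N)‖ ^ 2 : ℝ) : ℂ) -
      ((X * ∑ χ ∈ G, ‖c χ‖ ^ 2 : ℝ) : ℂ)‖ ≤ G.card * M * ∑ χ ∈ G, ‖c χ‖ ^ 2 := by
    have h5 : ((X * ∑ χ ∈ G, ‖c χ‖ ^ 2 : ℝ) : ℂ) = ∑ χ ∈ G, ∑ ψ ∈ G,
        if χ = ψ then (c χ * (starRingEnd ℂ) (c ψ)) * (X : ℂ) else 0 := by
      push_cast
      rw [mul_sum]
      refine sum_congr rfl fun χ hχ => ?_
      rw [Finset.sum_ite_eq G χ, if_pos hχ]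
      have := cp_normsq (c χ)
      push_cast at this
      rw [this]
      ring
    rw [h1, h5, ← sum_sub_distrib]
    refine (norm_sum_le _ _).trans ?_
    have h6 : ∀ χ ∈ G, ‖(∑ ψ ∈ G, (c χ * (starRingEnd ℂ) (c ψ)) * ∑ n ∈ Icc 1 X,
        (χ (n : ZMod N) * (starRingEnd ℂ) (ψ (n : ZMod N)))) -
        ∑ ψ ∈ G, (if χ = ψ then (c χ * (starRingEnd ℂ) (c ψ)) * (X : ℂ) else 0)‖ ≤
        ∑ ψ ∈ G, ‖c χ‖ * ‖c ψ‖ * M := by
      intro χ _
      rw [← sum_sub_distrib]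
      refine (norm_sum_le _ _).trans (sum_le_sum fun ψ _ => ?_)
      by_cases h7 : χ = ψ
      · subst h7
        rw [if_pos rfl, hdiag, sub_self, norm_zero]
        positivity
      · rw [if_neg h7, sub_zero, norm_mul, norm_mul, RCLike.norm_conj]
        gcongr
        exact hoff χ ψ h7
    refine (sum_le_sum h6).trans ?_
    have h7 : ∑ χ ∈ G, ∑ ψ ∈ G, ‖c χ‖ * ‖c ψ‖ * M = M * (∑ χ ∈ G, ‖c χ‖) ^ 2 := by
      rw [sq, Finset.sum_mul_sum, mul_sum]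
      refine sum_congr rfl fun χ _ => ?_
      rw [mul_sum]
      refine sum_congr rfl fun ψ _ => ?_
      ring
    rw [h7]
    have h8 : (∑ χ ∈ G, ‖c χ‖) ^ 2 ≤ G.card * ∑ χ ∈ G, ‖c χ‖ ^ 2 := sq_sum_le_card_mul_sum_sq
    calc M * (∑ χ ∈ G, ‖c χ‖) ^ 2 ≤ M * (G.card * ∑ χ ∈ G, ‖c χ‖ ^ 2) := by gcongr
      _ = _ := by ring
  rw [← Complex.ofReal_sub, Complex.norm_real, Real.norm_eq_abs] at h4
  have h5 := (abs_le.mp h4).1
  have h6 : ((X : ℝ) - G.card * M) * ∑ χ ∈ G, ‖c χ‖ ^ 2 =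
      X * ∑ χ ∈ G, ‖c χ‖ ^ 2 - G.card * M * ∑ χ ∈ G, ‖c χ‖ ^ 2 := by ring
  rw [h6]
  linarith

end Pool.Agent.Lib.MP_7b7e48_nt.LG
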