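import Mathlib
import Pool.Agent.Lib.MP_45349e_nt.LS.Defs

/-!
# Liouville-Goldbach for every large integer: definitions

Paper proof: `/team-store/LGB_PROOF.md`. `lam` is the Liouville function (`LS.lam`, real valued),
`N` is a prime in most modules, `K = log N`.
-/

open Finset

namespace Pool.Agent.Lib.MP_7b7e48_nt.LG

/-- the small exponent -/
noncomputable def kap : ℝ := 1 / 1000

/-- all primes up to `PP N = (log N)^4000` are used for the near invariance -/
noncomputable def PP (N : ℕ) : ℕ := ⌊(Real.log N) ^ 4000⌋₊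

/-- the range `N^(1/2-kap)/2` in which the characters are controlled -/
noncomputable def TT (N : ℕ) : ℝ := (N : ℝ) ^ (1 / 2 - kap) / 2

/-- `m / G` has distance at least `1 / b` from the integers -/
def Far (b G m : ℕ) : Prop := G ≤ b * (m % G) ∧ G ≤ b * (G - m % G)

open Classical in
/-- the `x` with `k x ≠ 0` and `F (k x) ≠ s F x` -/
noncomputable def exc (M : ℕ) [NeZero M] (F : ZMod M → ℝ) (s : ℝ) (k : ℕ) : Finset (ZMod M) :=
  Finset.univ.filter fun x => (k : ZMod M) * x ≠ 0 ∧ F (k * x) ≠ s * F x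

/-- the coefficient of `χ` in the expansion of `F` into the characters modulo `N` -/
noncomputable def bc {N : ℕ} [NeZero N] (F : ZMod N → ℝ) (χ : DirichletCharacter ℂ N) : ℂ :=
  (1 / ((N : ℂ) - 1)) * ∑ x : ZMod N, (F x : ℂ) * (starRingEnd ℂ) (χ x)

/-- the square of the `L²` norm -/
noncomputable def nsq {N : ℕ} [NeZero N] (F : ZMod N → ℝ) : ℝ := ∑ x : ZMod N, F x ^ 2

open Classical in
/-- characters which are close to `s` at all primes up to `PP N` -/
noncomputable def Good (N : ℕ) [NeZero N] (s : ℝ) : Finset (DirichletCharacter ℂ N) :=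
  Finset.univ.filter fun χ => ∀ p : ℕ, p.Prime → p ≤ PP N →
    ‖χ (p : ZMod N) - (s : ℂ)‖ ≤ 1 / (10 * Real.log N)

/-- the part of the expansion of `F` which uses the good characters only -/
noncomputable def GG {N : ℕ} [NeZero N] (F : ZMod N → ℝ) (s : ℝ) (x : ZMod N) : ℂ :=
  ∑ χ ∈ Good N s, bc F χ * χ x

/-- the block `(L, 2L]` of primes -/
def Bl (L : ℕ) : Finset ℕ := (Finset.Ioc L (2 * L)).filter Nat.Prime

/-- the deviation of `s F n` and `G (l n)` for small `n` -/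
noncomputable def TL {N : ℕ} [NeZero N] (F : ZMod N → ℝ) (s : ℝ) (L l : ℕ) : ℝ :=
  ∑ n ∈ Finset.Icc 1 ((N - 1) / (4 * L)),
    ‖((s * F (n : ZMod N) : ℝ) : ℂ) - GG F s ((l * n : ℕ) : ZMod N)‖ ^ 2

open Classical in
/-- sum of `1 / l` over the primes `l ≤ TT N` at which `χ` is not close to `s` -/
noncomputable def Bad (N : ℕ) [NeZero N] (s : ℝ) (χ : DirichletCharacter ℂ N) : ℝ :=
  ∑ l ∈ (Finset.range (N + 1)).filter (fun l : ℕ => l.Prime ∧ (l : ℝ) ≤ TT N ∧
    1 / (10 * Real.log N) < ‖χ (l : ZMod N) - (s : ℂ)‖), 1 / (l : ℝ)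

/-- the real valued function `c` behaves like the quadratic character modulo the prime `N` -/
structure QC (N : ℕ) (c : ℕ → ℝ) : Prop where
  mul : ∀ m n, c (m * n) = c m * c n
  val : ∀ n, ¬ N ∣ n → c n = 1 ∨ c n = -1
  zero : ∀ n, N ∣ n → c n = 0
  per : ∀ n, c (n + N) = c n
  pv : ∀ Y : ℕ, |∑ n ∈ Finset.Icc 1 Y, c n| ≤ 4 * Real.sqrt N * Real.log N
  sum0 : ∑ n ∈ Finset.range N, c n = 0

/-- `L` is the value of the `L`-series of `c` at `1`, with an error term -/
def LV (N : ℕ) (c : ℕ → ℝ) (L : ℝ) : Prop := 0 ≤ L ∧ ∀ y : ℕ, 1 ≤ y →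
  |∑ a ∈ Finset.Icc 1 y, c a / a - L| ≤ 8 * Real.sqrt N * Real.log N / y

open Classical in
/-- the primes `q < N` with `c q = 1` -/
noncomputable def Qp (N : ℕ) (c : ℕ → ℝ) : Finset ℕ :=
  (Finset.range N).filter fun q => q.Prime ∧ c q = 1

/-- the sum of their reciprocals -/
noncomputable def sig (N : ℕ) (c : ℕ → ℝ) : ℝ := ∑ q ∈ Qp N c, 1 / (q : ℝ)

open Classical in
/-- the `0 < n < N` with `lam n ≠ c n` -/
noncomputable def DD (N : ℕ) (c : ℕ → ℝ) : Finset ℕ :=
  (Finset.range N).filter fun n => 0 < n ∧ MP_45349e_nt.LS.lam n ≠ c n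

open Classical in
/-- `1 * c` -/
noncomputable def rr (c : ℕ → ℝ) (n : ℕ) : ℝ := ∑ d ∈ n.divisors, c d

open Classical in
/-- `2 ^ ω(n)` if `c = 1` at all primes dividing `n`, and `0` otherwise -/
noncomputable def rho (c : ℕ → ℝ) (n : ℕ) : ℝ :=
  if ∀ p ∈ n.primeFactors, c p = 1 then 2 ^ n.primeFactors.card else 0

/-- summatory function of `rho` -/
noncomputable def Rho (c : ℕ → ℝ) (z : ℕ) : ℝ := ∑ n ∈ Finset.Icc 1 z, rho c n

/-- the size `N^(27/50)` from which on the distribution of `Rho` is regular -/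
noncomputable def ZZ (N : ℕ) : ℕ := ⌊(N : ℝ) ^ ((27 : ℝ) / 50)⌋₊

open Classical in
/-- the `0 < n < M` with `lam n = lam (M - n)` -/
noncomputable def EE (M : ℕ) : Finset ℕ :=
  (Finset.range M).filter fun n => 0 < n ∧ MP_45349e_nt.LS.lam n = MP_45349e_nt.LS.lam (M - n)

open Classical in
/-- the `0 < n < M` with `lam n = lam (M - n) = s` -/
noncomputable def ES (M : ℕ) (s : ℝ) : Finset ℕ :=
  (Finset.range M).filter fun n => 0 < n ∧ MP_45349e_nt.LS.lam n = s ∧
    MP_45349e_nt.LS.lam (M - n) = s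

/-- a finite set of multipliers, closed under removing a suitable prime factor `≤ W` -/
structure Mult (W : ℕ) (H : Finset ℕ) : Prop where
  one : 1 ∈ H
  pos : ∀ h ∈ H, 0 < h
  step : ∀ h ∈ H, h ≠ 1 → ∃ p, p.Prime ∧ p ≤ W ∧ p ∣ h ∧ h / p ∈ H

/-- the hypotheses of the spectral theorem -/
structure Hyp (N : ℕ) [NeZero N] (s : ℝ) (F : ZMod N → ℝ) (Q : Finset ℕ) (B : ℕ) : Prop where
  zero : F 0 = 0
  pos : 0 < nsq F
  inv : ∀ p : ℕ, p.Prime → p ≤ PP N →
    ∑ x : ZMod N, (F ((p : ZMod N) * x) - s * F x) ^ 2 ≤ nsq F / (Real.log N) ^ B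
  loc : ∀ l : ℕ, l.Prime → l ∉ Q → (l : ℝ) ≤ 2 * TT N → ∀ n : ℕ, 1 ≤ n → l * n < N →
    F ((l * n : ℕ) : ZMod N) = s * F (n : ZMod N)
  big : ∀ q ∈ Q, PP N < q
  rsm : ∑ q ∈ Q, 1 / (q : ℝ) ≤ 1 / (Real.log N) ^ B

/-- the number of cells -/
noncomputable def Ga (N : ℕ) : ℕ := ⌊(N : ℝ) ^ ((1 : ℝ) / 400)⌋₊

open Classical in
/-- the cells `j < G` which are not covered by the multipliers in `H` -/
noncomputable def Jb (G b : ℕ) (H : Finset ℕ) : Finset ℕ :=
  (Finset.range G).filter fun j => ∀ h ∈ H, Far (2 * b) G (h * j)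

open Classical in
/-- the Liouville function on the residues modulo `N` -/
noncomputable def fl (N : ℕ) (x : ZMod N) : ℝ :=
  if x = 0 then 0 else MP_45349e_nt.LS.lam x.val

open Classical in
/-- the indicator function of `DD N c` on the residues modulo `N` -/
noncomputable def fd (N : ℕ) (c : ℕ → ℝ) (x : ZMod N) : ℝ := if x.val ∈ DD N c then 1 else 0

/-- the density of the squarefree numbers -/
noncomputable def c0 : ℝ := ∑' d : ℕ, (ArithmeticFunction.moebius d : ℝ) / (d : ℝ) ^ 2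

end Pool.Agent.Lib.MP_7b7e48_nt.LG
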