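import Mathlib
import Pool.Agent.Lib.SW.SWFinal

/-!
# Primes in dyadic blocks
-/

set_option autoImplicit false

open Finset Filter

namespace Pool.Agent.Lib.MP_7b7e48_nt.LG

/-- Primes in `(L, 2 L]`. -/
def dyP (L : ℕ) : Finset ℕ := (Ioc L (2 * L)).filter Nat.Prime

theorem mem_dyP {L l : ℕ} : l ∈ dyP L ↔ (L < l ∧ l ≤ 2 * L) ∧ l.Prime := by
  unfold dyP
  rw [mem_filter, mem_Ioc]

theorem dy_theta (L : ℕ) :
    ∑ l ∈ dyP L, Real.log l = Chebyshev.theta (2 * L : ℕ) - Chebyshev.theta (L : ℕ) := by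
  rw [Chebyshev.theta_eq_sum_primesLE_log, Chebyshev.theta_eq_sum_primesLE_log]
  have h1 : Nat.primesLE (2 * L) = Nat.primesLE L ∪ dyP L := by
    ext p
    rw [mem_union, Nat.mem_primesLE, Nat.mem_primesLE, mem_dyP]
    constructor
    · rintro ⟨h1, h2⟩
      by_cases h3 : p ≤ L
      · exact Or.inl ⟨h3, h2⟩
      · exact Or.inr ⟨⟨by omega, h1⟩, h2⟩
    · rintro (⟨h1, h2⟩ | ⟨⟨h1, h2⟩, h3⟩)
      · exact ⟨by omega, h2⟩
      · exact ⟨h2, h3⟩
  have h2 : Disjoint (Nat.primesLE L) (dyP L) := by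
    rw [Finset.disjoint_left]
    intro p hp hp'
    have h3 := (Nat.mem_primesLE.mp hp).1
    have h4 := (mem_dyP.mp hp').1.1
    omega
  rw [h1, sum_union h2]
  ring

/-- Upper bound for the sum of reciprocals. -/
theorem dy_upper (L : ℕ) (hL : 2 ≤ L) : ∑ l ∈ dyP L, (1 : ℝ) / l ≤ 3 / Real.log L := by
  have hLr : (2 : ℝ) ≤ L := by exact_mod_cast hL
  have hlog : 0 < Real.log L := Real.log_pos (by linarith)
  have h1 : ∑ l ∈ dyP L, Real.log l ≤ Real.log 4 * (2 * L) := by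
    rw [dy_theta]
    have h2 := Chebyshev.theta_le_log4_mul_x (x := ((2 * L : ℕ) : ℝ)) (by positivity)
    have h3 := Chebyshev.theta_nonneg ((L : ℕ) : ℝ)
    push_cast at h2 ⊢
    linarith
  have h4 : Real.log 4 < 3 / 2 := by
    have h5 : Real.log 4 = 2 * Real.log 2 := by
      rw [show (4 : ℝ) = 2 ^ 2 by norm_num, Real.log_pow]
      norm_num
    have h6 := Real.log_two_lt_d9
    rw [h5]
    linarith
  have h5 : ∀ l ∈ dyP L, (1 : ℝ) / l ≤ Real.log l / (L * Real.log L) := by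
    intro l hl
    obtain ⟨⟨h6, _⟩, _⟩ := mem_dyP.mp hl
    have h7 : (L : ℝ) ≤ l := by exact_mod_cast h6.le
    have h8 : Real.log L ≤ Real.log l := Real.log_le_log (by linarith) h7
    rw [div_le_div_iff₀ (by linarith) (by positivity)]
    rw [one_mul]
    calc (L : ℝ) * Real.log L ≤ l * Real.log l := by gcongr
      _ = _ := by ring
  refine (sum_le_sum h5).trans ?_
  rw [← sum_div, div_le_div_iff₀ (by positivity) hlog]
  have h6 : ∑ l ∈ dyP L, Real.log l ≤ 3 * L := by nlinarith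
  calc (∑ l ∈ dyP L, Real.log l) * Real.log L ≤ (3 * L) * Real.log L := by gcongr
    _ = _ := by ring

theorem dy_psi (x : ℝ) : Chebyshev.psi x =
    ∑ n ∈ Finset.Icc 1 ⌊x⌋₊, ArithmeticFunction.vonMangoldt n := by
  unfold Chebyshev.psi
  rfl

/-- Lower bound for the number of primes. -/
theorem dy_lower : ∃ L₀ : ℕ, 2 ≤ L₀ ∧ ∀ L : ℕ, L₀ ≤ L →
    (L : ℝ) / (2 * Real.log L) ≤ (dyP L).card := by
  obtain ⟨C, hC, hpnt⟩ := SW.pnt 1
  have ht : Tendsto (fun L : ℕ => (L : ℝ)) atTop atTop := tendsto_natCast_atTop_atTop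
  have h1 : ∀ᶠ L : ℕ in atTop, 24 * C ≤ Real.log L :=
    (Real.tendsto_log_atTop.comp ht).eventually (eventually_ge_atTop _)
  have h2 : ∀ᶠ x : ℝ in atTop, 2 * Real.sqrt (2 * x) * Real.log (2 * x) ≤ x / 8 := by
    have h3 : ∀ᶠ y : ℝ in atTop, Real.log y ≤ 1 / 64 * y := by
      have h4 := Real.isLittleO_log_id_atTop.bound (c := 1 / 64) (by norm_num)
      filter_upwards [h4, eventually_ge_atTop (1 : ℝ)] with K hK hK1
      rw [Real.norm_of_nonneg (Real.log_nonneg hK1), id, Real.norm_of_nonneg (by linarith)] at hK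
      exact hK
    have h5 : Tendsto (fun x : ℝ => Real.sqrt (2 * x)) atTop atTop :=
      Real.tendsto_sqrt_atTop.comp (tendsto_id.const_mul_atTop (by norm_num))
    filter_upwards [h5.eventually h3, eventually_ge_atTop (1 : ℝ)] with x hx hx1
    have h6 : Real.log (2 * x) = 2 * Real.log (Real.sqrt (2 * x)) := by
      rw [Real.log_sqrt (by positivity)]
      ring
    have h7 : Real.sqrt (2 * x) * Real.sqrt (2 * x) = 2 * x :=
      Real.mul_self_sqrt (by positivity)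
    have h8 : 0 ≤ Real.sqrt (2 * x) := Real.sqrt_nonneg _
    rw [h6]
    nlinarith
  have h9 := h1.and ((ht.eventually h2).and (((Real.tendsto_log_atTop.comp ht).eventually
    (eventually_ge_atTop (3 / 2 : ℝ))).and (eventually_ge_atTop 2)))
  obtain ⟨L₀, hL₀⟩ := eventually_atTop.mp h9
  refine ⟨max L₀ 2, le_max_right _ _, ?_⟩
  intro L hL
  obtain ⟨hC1, hsq, hlog, hL2⟩ := hL₀ L ((le_max_left _ _).trans hL)
  have hlog' : (3 / 2 : ℝ) ≤ Real.log L := hlog
  have hC1' : 24 * C ≤ Real.log L := hC1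
  have hLr : (2 : ℝ) ≤ L := by exact_mod_cast hL2
  have hlogpos : 0 < Real.log L := by linarith
  have e1 := hpnt ((2 * L : ℕ) : ℝ) (by push_cast; linarith)
  have e2 := hpnt ((L : ℕ) : ℝ) hLr
  rw [← dy_psi, pow_one] at e1 e2
  have e3 := Chebyshev.psi_sub_theta_le (x := ((2 * L : ℕ) : ℝ)) (by push_cast; linarith)
  have e4 := Chebyshev.theta_le_psi ((L : ℕ) : ℝ)
  have hsq' : 2 * Real.sqrt ((2 * L : ℕ) : ℝ) * Real.log ((2 * L : ℕ) : ℝ) ≤ L / 8 := by
    push_cast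
    exact hsq
  have hlog2 : Real.log L ≤ Real.log ((2 * L : ℕ) : ℝ) := by
    apply Real.log_le_log (by linarith)
    push_cast
    linarith
  have e5 : C * ((L : ℕ) : ℝ) / Real.log ((L : ℕ) : ℝ) ≤ L / 24 := by
    rw [div_le_div_iff₀ hlogpos (by norm_num)]
    nlinarith
  have e6 : C * ((2 * L : ℕ) : ℝ) / Real.log ((2 * L : ℕ) : ℝ) ≤ L / 12 := by
    rw [div_le_div_iff₀ (by linarith) (by norm_num)]
    push_cast at hlog2 ⊢
    nlinarith
  have e7 := (abs_le.mp e1).1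
  have e8 := (abs_le.mp e2).2
  have e9 : (3 / 4 : ℝ) * L ≤ ∑ l ∈ dyP L, Real.log l := by
    rw [dy_theta]
    push_cast at e3 e4 e7 e8 e6 e5 hsq' ⊢
    linarith
  have e10 : ∑ l ∈ dyP L, Real.log l ≤ (dyP L).card * (3 / 2 * Real.log L) := by
    rw [← nsmul_eq_mul, ← sum_const]
    refine sum_le_sum fun l hl => ?_
    obtain ⟨⟨h10, h11⟩, _⟩ := mem_dyP.mp hl
    have h12 : (l : ℝ) ≤ 2 * L := by exact_mod_cast h11
    have h13 : (L : ℝ) < l := by exact_mod_cast h10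
    have h14 : Real.log l ≤ Real.log 2 + Real.log L := by
      rw [← Real.log_mul (by norm_num) (by positivity)]
      exact Real.log_le_log (by linarith) h12
    have h15 := Real.log_two_lt_d9
    linarith
  rw [div_le_iff₀ (by positivity)]
  nlinarith

end Pool.Agent.Lib.MP_7b7e48_nt.LG
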