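import Pool.Agent.Lib.MP_7b7e48_nt.LG.Defs
import Pool.Agent.Lib.MP_7b7e48_nt.LG.LA1

/-!
# Module E0 (40 minutes): the set of equal signs

`E0a`: `∑_{0<n<M} (lam n + lam (M-n))/2 = #ES M 1 - #ES M (-1)` and `EE M = ES M 1 ∪ ES M (-1)`, so
`#EE M ≤ 2 #ES M s + |∑_{n ≤ M-1} lam n|` for `s = ±1`. `E0b`: with `LA0`.
-/

open Finset
open Pool.Agent.Lib.MP_45349e_nt.LS (lam)

namespace Pool.Agent.Lib.MP_7b7e48_nt.LG

private lemma e0_lam (n : ℕ) : lam n = 1 ∨ lam n = -1 := by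
  unfold lam
  exact neg_one_pow_eq_or ℝ _

private lemma e0_range (M : ℕ) : (Finset.range M).filter (fun n => 0 < n) = Finset.Icc 1 (M - 1) := by
  ext n
  simp only [Finset.mem_filter, Finset.mem_range, Finset.mem_Icc]
  omega

private lemma e0_EE (M : ℕ) : ((EE M).card : ℝ) =
    ∑ n ∈ Finset.Icc 1 (M - 1), if lam n = lam (M - n) then (1 : ℝ) else 0 := by
  classical
  have h : EE M = (Finset.Icc 1 (M - 1)).filter (fun n => lam n = lam (M - n)) := by
    unfold EE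
    rw [← e0_range, Finset.filter_filter]
  rw [h, Finset.card_filter]
  push_cast
  rfl

private lemma e0_ES (M : ℕ) (s : ℝ) : ((ES M s).card : ℝ) =
    ∑ n ∈ Finset.Icc 1 (M - 1), if lam n = s ∧ lam (M - n) = s then (1 : ℝ) else 0 := by
  classical
  have h : ES M s = (Finset.Icc 1 (M - 1)).filter (fun n => lam n = s ∧ lam (M - n) = s) := by
    unfold ES
    rw [← e0_range, Finset.filter_filter]
  rw [h, Finset.card_filter]
  push_cast
  rfl

private lemma e0_refl (M : ℕ) : ∑ n ∈ Finset.Icc 1 (M - 1), lam (M - n) =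
    ∑ n ∈ Finset.Icc 1 (M - 1), lam n := by
  refine Finset.sum_nbij' (fun n => M - n) (fun n => M - n) ?_ ?_ ?_ ?_ ?_
  · intro n hn
    simp only [Finset.mem_Icc] at hn ⊢
    omega
  · intro n hn
    simp only [Finset.mem_Icc] at hn ⊢
    omega
  · intro n hn
    simp only [Finset.mem_Icc] at hn ⊢
    omega
  · intro n hn
    simp only [Finset.mem_Icc] at hn ⊢
    omega
  · intro n hn
    rfl

theorem E0a (M : ℕ) (s : ℝ) (hs : s = 1 ∨ s = -1) :
    ((EE M).card : ℝ) ≤ 2 * (ES M s).card + |∑ n ∈ Finset.Icc 1 (M - 1), lam n| := by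
  have hpt : ∀ n ∈ Finset.Icc 1 (M - 1), (if lam n = lam (M - n) then (1 : ℝ) else 0) =
      2 * (if lam n = s ∧ lam (M - n) = s then (1 : ℝ) else 0) - s * ((lam n + lam (M - n)) / 2) := by
    intro n _
    rcases hs with rfl | rfl <;> rcases e0_lam n with h1 | h1 <;>
      rcases e0_lam (M - n) with h2 | h2 <;> rw [h1, h2] <;> norm_num
  have hsum : ∑ n ∈ Finset.Icc 1 (M - 1), ((lam n + lam (M - n)) / 2) =
      ∑ n ∈ Finset.Icc 1 (M - 1), lam n := by
    rw [← Finset.sum_div, Finset.sum_add_distrib, e0_refl]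
    ring
  rw [e0_EE, e0_ES, Finset.sum_congr rfl hpt, Finset.sum_sub_distrib, ← Finset.mul_sum,
    ← Finset.mul_sum, hsum]
  have habs : |s * ∑ n ∈ Finset.Icc 1 (M - 1), lam n| = |∑ n ∈ Finset.Icc 1 (M - 1), lam n| := by
    rw [abs_mul]
    rcases hs with rfl | rfl <;> simp
  have := neg_abs_le (s * ∑ n ∈ Finset.Icc 1 (M - 1), lam n)
  linarith

theorem E0b (A : ℕ) : ∃ C : ℝ, 0 < C ∧ ∀ M : ℕ, 3 ≤ M → ∀ s : ℝ, (s = 1 ∨ s = -1) →
    ((EE M).card : ℝ) ≤ 2 * (ES M s).card + C * M / (Real.log M) ^ A := by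
  obtain ⟨C, hC, hb⟩ := LA0 A
  refine ⟨C * 2 ^ A, by positivity, fun M hM s hs => ?_⟩
  refine (E0a M s hs).trans ?_
  have h1 := hb (M - 1) (by omega)
  have hM3 : (3 : ℝ) ≤ M := by exact_mod_cast hM
  have hcast : ((M - 1 : ℕ) : ℝ) = (M : ℝ) - 1 := by
    rw [Nat.cast_sub (by omega)]
    norm_num
  rw [hcast] at h1
  have hlog0 : 0 < Real.log M := Real.log_pos (by linarith)
  have hlog : Real.log M / 2 ≤ Real.log ((M : ℝ) - 1) := by
    have h2 : Real.log M ≤ Real.log (((M : ℝ) - 1) ^ 2) := by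
      apply Real.log_le_log (by linarith)
      nlinarith
    rw [Real.log_pow] at h2
    push_cast at h2
    linarith
  have h3 : C * ((M : ℝ) - 1) / Real.log ((M : ℝ) - 1) ^ A ≤ C * M / (Real.log M / 2) ^ A := by
    apply div_le_div₀
    · positivity
    · nlinarith
    · positivity
    · exact pow_le_pow_left₀ (by positivity) hlog A
  have h4 : C * M / (Real.log M / 2) ^ A = C * 2 ^ A * M / Real.log M ^ A := by
    rw [div_pow]
    field_simp
  linarith

end Pool.Agent.Lib.MP_7b7e48_nt.LG
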