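import Pool.Agent.Lib.MP_7b7e48_nt.LG.Defs

/-!
# Module HH (60 minutes): the set of multipliers

PROOF. Let `p_1 < ... < p_r` be the first `r` primes (`Nat.nth Nat.Prime`), `W = p_1 ⋯ p_r` (`W = 2` for
`r = 0`... take `W = 2 * ∏ p_i`), `H = {∏ p_i^{a_i} : 0 ≤ a_i ≤ A}` (image of
`Fintype.piFinset` / functions `Fin r → Fin (A+1)`; injective by unique factorization), closed under division
by a prime factor, so `Mult W H`; `h ≤ W^A`. Then `GH`: for `N` large take
`A = ⌊log N / (1600 (log W + 1))⌋`, so `h ≤ W^A ≤ N^(1/1600)`, `24 b^3 h ≤ 24 (log N)^12000 N^(1/1600) <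
Ga N` for `b ≤ PP N`, and `(A+1)^r` lies between `c (log N)^r` and `(log N)^r`.
-/

open Finset

namespace Pool.Agent.Lib.MP_7b7e48_nt.LG

private noncomputable def hhP (r : ℕ) (i : Fin r) : ℕ := Nat.nth Nat.Prime i

private lemma hhP_prime (r : ℕ) (i : Fin r) : (hhP r i).Prime := Nat.prime_nth_prime i

private lemma hhP_inj (r : ℕ) : Function.Injective (hhP r) := by
  intro i j h
  have := Nat.nth_injective Nat.infinite_setOf_prime h
  exact Fin.ext this

private noncomputable def hhf (r A : ℕ) (a : Fin r → Fin (A + 1)) : ℕ :=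
  ∏ i, hhP r i ^ (a i : ℕ)

private lemma hhf_pos (r A : ℕ) (a : Fin r → Fin (A + 1)) : 0 < hhf r A a :=
  Finset.prod_pos fun i _ => pow_pos (hhP_prime r i).pos _

private lemma hhf_fac (r A : ℕ) (a : Fin r → Fin (A + 1)) (j : Fin r) :
    (hhf r A a).factorization (hhP r j) = (a j : ℕ) := by
  unfold hhf
  rw [Nat.factorization_prod (fun i _ => (pow_pos (hhP_prime r i).pos _).ne')]
  rw [Finsupp.finset_sum_apply]
  rw [Finset.sum_eq_single j]
  · rw [(hhP_prime r j).factorization_pow]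
    simp
  · intro i _ hij
    rw [(hhP_prime r i).factorization_pow, Finsupp.single_apply]
    rw [if_neg]
    intro h
    exact hij (hhP_inj r h)
  · intro h
    exact absurd (Finset.mem_univ j) h

private lemma hhf_inj (r A : ℕ) : Function.Injective (hhf r A) := by
  intro a b h
  funext j
  apply Fin.ext
  rw [← hhf_fac r A a j, ← hhf_fac r A b j, h]

private lemma hhf_le (r A : ℕ) (a : Fin r → Fin (A + 1)) : hhf r A a ≤ (2 * ∏ i, hhP r i) ^ A := by
  have h1 : hhf r A a ≤ ∏ i, hhP r i ^ A := by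
    unfold hhf
    refine Finset.prod_le_prod' fun i _ => ?_
    exact Nat.pow_le_pow_right (hhP_prime r i).pos (by have := (a i).2; omega)
  rw [Finset.prod_pow] at h1
  refine h1.trans (Nat.pow_le_pow_left ?_ A)
  omega

theorem HH (r : ℕ) : ∃ W : ℕ, 2 ≤ W ∧ ∀ A : ℕ, ∃ H : Finset ℕ, Mult W H ∧ H.card = (A + 1) ^ r ∧
    ∀ h ∈ H, h ≤ W ^ A := by
  have hWpos : 0 < ∏ i, hhP r i := Finset.prod_pos fun i _ => (hhP_prime r i).pos
  refine ⟨2 * ∏ i, hhP r i, by omega, fun A => ⟨Finset.univ.image (hhf r A), ?_, ?_, ?_⟩⟩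
  · refine ⟨?_, ?_, ?_⟩
    · rw [Finset.mem_image]
      refine ⟨fun _ => 0, Finset.mem_univ _, ?_⟩
      simp [hhf]
    · intro h hh
      rw [Finset.mem_image] at hh
      obtain ⟨a, -, rfl⟩ := hh
      exact hhf_pos r A a
    · intro h hh h1
      rw [Finset.mem_image] at hh
      obtain ⟨a, -, rfl⟩ := hh
      have hex : ∃ i, (a i : ℕ) ≠ 0 := by
        by_contra hcon
        push Not at hcon
        apply h1
        unfold hhf
        refine Finset.prod_eq_one fun i _ => ?_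
        rw [hcon i, pow_zero]
      obtain ⟨i, hi⟩ := hex
      have hlt : (a i : ℕ) - 1 < A + 1 := by have := (a i).2; omega
      set b : Fin r → Fin (A + 1) := Function.update a i ⟨(a i : ℕ) - 1, hlt⟩ with hb
      have hbi : (b i : ℕ) = (a i : ℕ) - 1 := by rw [hb, Function.update_self]
      have hbj : ∀ j, j ≠ i → b j = a j := fun j hj => by rw [hb, Function.update_of_ne hj]
      have hmul : hhf r A a = hhP r i * hhf r A b := by
        unfold hhf
        rw [← Finset.mul_prod_erase _ _ (Finset.mem_univ i),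
          ← Finset.mul_prod_erase Finset.univ (fun i => hhP r i ^ (b i : ℕ)) (Finset.mem_univ i)]
        rw [← mul_assoc]
        congr 1
        · rw [hbi, ← pow_succ']
          congr 1
          omega
        · refine Finset.prod_congr rfl fun j hj => ?_
          rw [hbj j (Finset.ne_of_mem_erase hj)]
      refine ⟨hhP r i, hhP_prime r i, ?_, ?_, ?_⟩
      · have h2 : hhP r i ∣ ∏ i, hhP r i := Finset.dvd_prod_of_mem _ (Finset.mem_univ i)
        have := Nat.le_of_dvd hWpos h2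
        omega
      · rw [hmul]
        exact dvd_mul_right _ _
      · rw [hmul, Nat.mul_div_cancel_left _ (hhP_prime r i).pos]
        exact Finset.mem_image_of_mem _ (Finset.mem_univ _)
  · rw [Finset.card_image_of_injective _ (hhf_inj r A), Finset.card_univ, Fintype.card_fun]
    simp
  · intro h hh
    rw [Finset.mem_image] at hh
    obtain ⟨a, -, rfl⟩ := hh
    exact hhf_le r A a

private lemma hh_event : ∃ N0 : ℕ, ∀ N : ℕ, N0 ≤ N → 2 ≤ Real.log N ∧
    24 * Real.log N ^ 12000 * (N : ℝ) ^ ((1 : ℝ) / 1600) < (Ga N : ℝ) := by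
  have h1 := (isLittleO_log_rpow_rpow_atTop (12000 : ℝ) (show (0 : ℝ) < 1 / 1600 by norm_num)).def
    (show (0 : ℝ) < 1 / 48 by norm_num)
  have h2 : ∀ᶠ x : ℝ in Filter.atTop, 2 ≤ Real.log x :=
    Real.tendsto_log_atTop.eventually_ge_atTop 2
  have h3 : ∀ᶠ x : ℝ in Filter.atTop, 2 ≤ x ^ ((1 : ℝ) / 800) :=
    (tendsto_rpow_atTop (show (0 : ℝ) < 1 / 800 by norm_num)).eventually_ge_atTop 2
  have h4 := tendsto_natCast_atTop_atTop.eventually
    (((h1.and h2).and h3).and (Filter.eventually_ge_atTop (1 : ℝ)))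
  rw [Filter.eventually_atTop] at h4
  obtain ⟨N0, hN0⟩ := h4
  refine ⟨N0, fun N hN => ?_⟩
  obtain ⟨⟨⟨ha, hb⟩, hc⟩, hd⟩ := hN0 N hN
  refine ⟨hb, ?_⟩
  have hlog : 0 ≤ Real.log N := by linarith
  have hx : 0 < (N : ℝ) := by linarith
  rw [Real.norm_of_nonneg (Real.rpow_nonneg hlog _),
    Real.norm_of_nonneg (Real.rpow_nonneg hx.le _)] at ha
  have hpw : Real.log N ^ (12000 : ℝ) = Real.log N ^ (12000 : ℕ) := by
    rw [← Real.rpow_natCast]
    norm_num
  rw [hpw] at ha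
  set y : ℝ := (N : ℝ) ^ ((1 : ℝ) / 1600) with hy
  have hy0 : 0 < y := Real.rpow_pos_of_pos hx _
  have hy2 : (N : ℝ) ^ ((1 : ℝ) / 800) = y * y := by
    rw [hy, ← Real.rpow_add hx]
    norm_num
  have hy4 : (N : ℝ) ^ ((1 : ℝ) / 400) = (y * y) * (y * y) := by
    rw [hy, ← Real.rpow_add hx, ← Real.rpow_add hx]
    norm_num
  have hGa : (N : ℝ) ^ ((1 : ℝ) / 400) - 1 < (Ga N : ℝ) := by
    unfold Ga
    have := Nat.lt_floor_add_one ((N : ℝ) ^ ((1 : ℝ) / 400))
    linarith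
  rw [hy2] at hc
  rw [hy4] at hGa
  have h5 : 24 * Real.log N ^ 12000 * y ≤ 24 * (1 / 48 * y) * y := by
    have := mul_le_mul_of_nonneg_right ha hy0.le
    nlinarith
  have h6 : 24 * (1 / 48 * y) * y = (y * y) / 2 := by ring
  nlinarith

theorem GH (r : ℕ) : ∃ W : ℕ, ∃ c : ℝ, ∃ N0 : ℕ, 2 ≤ W ∧ 0 < c ∧ ∀ N : ℕ, N0 ≤ N →
    ∃ H : Finset ℕ, Mult W H ∧ c * (Real.log N) ^ r ≤ H.card ∧ (H.card : ℝ) ≤ (Real.log N) ^ r ∧
      ∀ h ∈ H, ∀ b : ℕ, 2 ≤ b → b ≤ PP N → 24 * b ^ 3 * h < Ga N := by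
  obtain ⟨W, hW, hH⟩ := HH r
  obtain ⟨N0, hN0⟩ := hh_event
  have hW' : (2 : ℝ) ≤ W := by exact_mod_cast hW
  have hlW : 0 ≤ Real.log W := Real.log_nonneg (by linarith)
  have hq : 0 < 1600 * (Real.log W + 1) := by linarith
  refine ⟨W, (1 / (1600 * (Real.log W + 1))) ^ r, N0 + 1, hW, by positivity, fun N hN => ?_⟩
  obtain ⟨hlog2, hmain⟩ := hN0 N (by omega)
  have hNpos : (0 : ℝ) < N := by
    have : 0 < N := by omega
    exact_mod_cast this
  set A : ℕ := ⌊Real.log N / (1600 * (Real.log W + 1))⌋₊ with hA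
  have hlog : 0 ≤ Real.log N := by linarith
  have hAle : (A : ℝ) ≤ Real.log N / (1600 * (Real.log W + 1)) :=
    Nat.floor_le (div_nonneg hlog hq.le)
  have hAge : Real.log N / (1600 * (Real.log W + 1)) < (A : ℝ) + 1 := Nat.lt_floor_add_one _
  have hAle2 : (A : ℝ) * (1600 * (Real.log W + 1)) ≤ Real.log N := by
    rwa [le_div_iff₀ hq] at hAle
  have hA0 : (0 : ℝ) ≤ A := Nat.cast_nonneg _
  obtain ⟨H, hM, hcard, hle⟩ := hH A
  refine ⟨H, hM, ?_, ?_, ?_⟩
  · rw [hcard, ← mul_pow]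
    push_cast
    refine pow_le_pow_left₀ (by positivity) ?_ r
    have : 1 / (1600 * (Real.log W + 1)) * Real.log N = Real.log N / (1600 * (Real.log W + 1)) := by
      ring
    linarith
  · rw [hcard]
    push_cast
    refine pow_le_pow_left₀ (by positivity) ?_ r
    have h1 : (A : ℝ) * 1600 ≤ Real.log N := by
      nlinarith [mul_nonneg hA0 hlW]
    linarith
  · intro h hh b hb hbP
    have h1 : (h : ℝ) ≤ (N : ℝ) ^ ((1 : ℝ) / 1600) := by
      have h2 : (h : ℝ) ≤ (W : ℝ) ^ A := by exact_mod_cast hle h hh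
      refine h2.trans ?_
      rw [← Real.log_le_log_iff (by positivity) (Real.rpow_pos_of_pos hNpos _),
        Real.log_pow, Real.log_rpow hNpos]
      nlinarith
    have hbr : (b : ℝ) ≤ Real.log N ^ 4000 := by
      have h3 : (b : ℝ) ≤ (PP N : ℝ) := by exact_mod_cast hbP
      refine h3.trans ?_
      unfold PP
      exact Nat.floor_le (by positivity)
    have hb3 : (b : ℝ) ^ 3 ≤ Real.log N ^ 12000 := by
      have h4 : (b : ℝ) ^ 3 ≤ (Real.log N ^ 4000) ^ 3 :=
        pow_le_pow_left₀ (Nat.cast_nonneg _) hbr 3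
      rwa [← pow_mul] at h4
    have h5 : (24 : ℝ) * (b : ℝ) ^ 3 * h ≤
        24 * Real.log N ^ 12000 * (N : ℝ) ^ ((1 : ℝ) / 1600) := by
      refine mul_le_mul ?_ h1 (Nat.cast_nonneg _) (by positivity)
      linarith
    have h6 : ((24 * b ^ 3 * h : ℕ) : ℝ) < (Ga N : ℝ) := by
      push_cast
      linarith
    exact_mod_cast h6

end Pool.Agent.Lib.MP_7b7e48_nt.LG
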