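import Pool.Agent.Lib.MP_7b7e48_nt.LG.Defs

/-!
# Module MB (75 minutes): multipliers up to a power of the logarithm

PROOF. `N` prime, so multiplication by `m` with `0 < m < N` is a bijection of `ZMod N`. Let `x` be in the set
on the left, `j = G * x.val / N` (natural division, `j < G`), `h ∈ H` with `¬ Far (2b) G (h j)`: so there
is an integer `a` with `|h j - a G| < G/(2b)`. Since `0 ≤ G x.val/N - j < 1` (real numbers),
`|h G x.val / N - a G| < G/(2b) + h ≤ G / b` (`2 b h ≤ G`), i.e. `|h x.val - a N| < N / b`: `h x` is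
`u` or `-u` with `u : ℕ`, `b u < N`, and `u > 0` because `h x ≠ 0`. So `F (b (h x)) = s F (h x)` unless
`h x ∈ E` or `b h x ∈ E` (as in `BM`). Chains: by strong induction on `h' ∈ H` (`Mult.step`): if for all
`h' ∈ H` and all primes `p ≤ W` the point `h' y` is not in `exc N F s p`, then
`F (h' y) = ε F y` with the same sign `ε = ε(h') = s^Ω(h')` for all such `y` (`p * (h'/p) = h'`). Apply
it to `y = x` and `y = b x`: `F (h b x) = ε F (b x)`, `F (h x) = ε F x`, so `F (b x) = s F x`
(`ε ^ 2 = 1`), contradiction. So `x` is in the union over `h ∈ H` of the preimages of `E` and of the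
`exc N F s p` (`p ≤ W` prime) under `h` and `b h`: at most `2 |H| (|E| + (W+1) c)` elements.
-/

open Finset

namespace Pool.Agent.Lib.MP_7b7e48_nt.LG

private theorem MB_ne {N : ℕ} [NeZero N] (hN : N.Prime) {m : ℕ} (h0 : 0 < m) (hm : m < N) : (m : ZMod N) ≠ 0 := by
  intro h
  rw [ZMod.natCast_eq_zero_iff] at h
  exact absurd (Nat.le_of_dvd h0 h) (by omega)

private theorem MB_mul_ne {N : ℕ} [NeZero N] (hN : N.Prime) {x y : ZMod N} (hx : x ≠ 0) (hy : y ≠ 0) : x * y ≠ 0 := by
  haveI : Fact N.Prime := ⟨hN⟩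
  exact mul_ne_zero hx hy

private theorem MB_pre {N : ℕ} [NeZero N] (hN : N.Prime) (m : ZMod N) (hm : m ≠ 0) (S : Finset (ZMod N)) :
    ((univ : Finset (ZMod N)).filter fun x => m * x ∈ S).card ≤ S.card := by
  classical
  haveI : Fact N.Prime := ⟨hN⟩
  refine Finset.card_le_card_of_injOn (fun x => m * x) ?_ ?_
  · intro x hx
    exact (mem_filter.1 hx).2
  · intro x _ y _ h
    exact mul_left_cancel₀ hm h

/-- the arithmetic of the cells -/
private theorem MB_cell (N G b h v : ℕ) (hN : 0 < N) (hb : 2 ≤ b) (hh : 0 < h) (hG : 2 * b * h ≤ G)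
    (hfar : ¬ Far (2 * b) G (h * (G * v / N))) :
    ∃ a : ℤ, (b : ℤ) * |(h : ℤ) * v - a * N| < N := by
  have hG0 : 0 < G := by
    have : 0 < 2 * b * h := by positivity
    omega
  set j := G * v / N with hj
  have hj1 : N * j ≤ G * v := Nat.mul_div_le _ _
  have hj2 : G * v < N * (j + 1) := Nat.lt_mul_div_succ _ hN
  set r := (h * j) % G with hr
  set q := (h * j) / G with hq
  have hdm : G * q + r = h * j := Nat.div_add_mod _ _
  have hrG : r < G := Nat.mod_lt _ hG0
  have hbZ : (2 : ℤ) ≤ b := by exact_mod_cast hb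
  have hNZ : (0 : ℤ) < N := by exact_mod_cast hN
  have hGZ : (0 : ℤ) < G := by exact_mod_cast hG0
  have hhZ : (0 : ℤ) < h := by exact_mod_cast hh
  have e1 : (N : ℤ) * j ≤ G * v := by exact_mod_cast hj1
  have e2 : (G : ℤ) * v < N * (j + 1) := by exact_mod_cast hj2
  have e3 : (G : ℤ) * q + r = h * j := by exact_mod_cast hdm
  have e4 : 2 * (b : ℤ) * h ≤ G := by exact_mod_cast hG
  have hr0 : (0 : ℤ) ≤ r := Int.natCast_nonneg _
  have e5 : (h : ℤ) * (N * j) ≤ h * (G * v) := mul_le_mul_of_nonneg_left e1 hhZ.le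
  have e6 : (h : ℤ) * (G * v) < h * (N * (j + 1)) := mul_lt_mul_of_pos_left e2 hhZ
  have e7 : (h : ℤ) * (N * j) = N * (G * q + r) := by rw [e3]; ring
  have e8 : (h : ℤ) * (N * (j + 1)) = N * (G * q + r) + N * h := by
    rw [e3]; ring
  unfold Far at hfar
  rw [not_and_or, not_le, not_le] at hfar
  rcases hfar with h1 | h1
  · -- close to the left end
    have f1 : 2 * (b : ℤ) * r < G := by exact_mod_cast h1
    refine ⟨q, ?_⟩
    have g1 : (0 : ℤ) ≤ G * (h * v - q * N) := by nlinarith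
    have g2 : (G : ℤ) * (h * v - q * N) < N * (r + h) := by nlinarith
    have g0 : (0 : ℤ) ≤ h * v - q * N := by
      by_contra hc
      push Not at hc
      nlinarith
    rw [abs_of_nonneg g0]
    have g3 : (G : ℤ) * (b * (h * v - q * N)) < G * N := by
      have k1 : (b : ℤ) * (G * (h * v - q * N)) < b * (N * (r + h)) := mul_lt_mul_of_pos_left g2 (by linarith)
      have k2 : (b : ℤ) * (r + h) < G := by nlinarith
      have k3 : (N : ℤ) * (b * (r + h)) < N * G := mul_lt_mul_of_pos_left k2 hNZ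
      nlinarith
    exact lt_of_mul_lt_mul_left g3 hGZ.le
  · -- close to the right end
    have hsub : ((G - r : ℕ) : ℤ) = G - r := by
      rw [Nat.cast_sub hrG.le]
    have f1 : 2 * (b : ℤ) * (G - r) < G := by
      rw [← hsub]
      exact_mod_cast h1
    refine ⟨q + 1, ?_⟩
    have g1 : -((N : ℤ) * (G - r)) ≤ G * (h * v - (q + 1) * N) := by nlinarith
    have g2 : (G : ℤ) * (h * v - (q + 1) * N) < N * h := by nlinarith
    have g3 : (G : ℤ) * (b * (h * v - (q + 1) * N)) < G * N := by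
      have k1 : (b : ℤ) * (G * (h * v - (q + 1) * N)) < b * (N * h) := mul_lt_mul_of_pos_left g2 (by linarith)
      have k2 : (b : ℤ) * h < G := by nlinarith
      have k3 : (N : ℤ) * (b * h) < N * G := mul_lt_mul_of_pos_left k2 hNZ
      nlinarith
    have g4 : (G : ℤ) * (-(b * (h * v - (q + 1) * N))) < G * N := by
      have k1 : (b : ℤ) * (-((N : ℤ) * (G - r))) ≤ b * (G * (h * v - (q + 1) * N)) :=
        mul_le_mul_of_nonneg_left g1 (by linarith)
      have k4 : (0 : ℤ) ≤ b * (G - r) := by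
        have : (0 : ℤ) ≤ G - r := by
          have : (r : ℤ) < G := by exact_mod_cast hrG
          linarith
        positivity
      have k2 : (b : ℤ) * (G - r) < G := by linarith
      have k3 : (N : ℤ) * (b * (G - r)) < N * G := mul_lt_mul_of_pos_left k2 hNZ
      nlinarith
    have g5 := lt_of_mul_lt_mul_left g3 hGZ.le
    have g6 := lt_of_mul_lt_mul_left g4 hGZ.le
    rcases abs_cases ((h : ℤ) * v - (q + 1) * N) with ⟨h2, _⟩ | ⟨h2, _⟩
    · rw [h2]
      exact g5
    · rw [h2, mul_neg]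
      exact g6

/-- chains of multiplications by small primes -/
private theorem MB_chain {N : ℕ} [NeZero N] (hN : N.Prime) (F : ZMod N → ℝ) (s : ℝ) (hs : s ^ 2 = 1) (W : ℕ)
    (hW : W < N) (H : Finset ℕ) (hH : Mult W H) (hHN : ∀ h ∈ H, h < N) (h : ℕ) (hh : h ∈ H) :
    ∃ ε : ℝ, ε ^ 2 = 1 ∧ ∀ y : ZMod N, y ≠ 0 →
      (∀ h' ∈ H, ∀ p : ℕ, p.Prime → p ≤ W → ((h' : ℕ) : ZMod N) * y ∉ exc N F s p) →
      F ((h : ZMod N) * y) = ε * F y := by
  classical
  induction h using Nat.strong_induction_on with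
  | _ h ih =>
    by_cases h1 : h = 1
    · subst h1
      refine ⟨1, one_pow 2, fun y _ _ => ?_⟩
      rw [Nat.cast_one, one_mul, one_mul]
    · obtain ⟨p, hp, hpW, hdvd, hmem⟩ := hH.step h hh h1
      have hpos := hH.pos h hh
      have hlt : h / p < h := Nat.div_lt_self hpos hp.one_lt
      obtain ⟨ε, hε, hy⟩ := ih (h / p) hlt hmem
      refine ⟨s * ε, by rw [mul_pow, hs, hε, one_mul], fun y hy0 hyg => ?_⟩
      have h2 : (h : ZMod N) * y = (p : ZMod N) * (((h / p : ℕ) : ZMod N) * y) := by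
        rw [← mul_assoc, ← Nat.cast_mul, Nat.mul_div_cancel' hdvd]
      have h3 := hyg (h / p) hmem p hp hpW
      have h4 : (p : ZMod N) * (((h / p : ℕ) : ZMod N) * y) ≠ 0 := by
        refine MB_mul_ne hN (MB_ne hN hp.pos (by omega)) (MB_mul_ne hN (MB_ne hN (hH.pos _ hmem) (hHN _ hmem)) hy0)
      have h5 : F ((p : ZMod N) * (((h / p : ℕ) : ZMod N) * y)) = s * F (((h / p : ℕ) : ZMod N) * y) := by
        by_contra hc
        exact h3 (mem_filter.2 ⟨mem_univ _, h4, hc⟩)
      rw [h2, h5, hy y hy0 hyg, mul_assoc]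

theorem MB (N : ℕ) [NeZero N] (hN : N.Prime) (F : ZMod N → ℝ) (s η : ℝ) (hs : s ^ 2 = 1)
    (E : Finset (ZMod N)) (hE : ∀ x ∈ E, -x ∈ E) (hneg : ∀ x, x ≠ 0 → x ∉ E → F (-x) = η * F x)
    (W : ℕ) (hW : W < N) (H : Finset ℕ) (hH : Mult W H) (hHN : ∀ h ∈ H, h < N) (c : ℕ)
    (hc : ∀ p : ℕ, p.Prime → p ≤ W → (exc N F s p).card ≤ c) (b : ℕ) (hb : 2 ≤ b) (hbN : b < N)
    (hloc : ∀ n : ℕ, 1 ≤ n → b * n < N → F ((b * n : ℕ) : ZMod N) = s * F (n : ZMod N))
    (G : ℕ) (hG : ∀ h ∈ H, 2 * b * h ≤ G) (Xs : Finset (ZMod N))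
    (hXs : ∀ x ∈ Xs, x ≠ 0 ∧ F ((b : ZMod N) * x) ≠ s * F x ∧
      ∃ h ∈ H, ¬ Far (2 * b) G (h * (G * x.val / N))) :
    Xs.card ≤ 2 * H.card * (E.card + (W + 1) * c) := by
  classical
  set S : Finset (ZMod N) := E ∪ ((range (W + 1)).filter Nat.Prime).biUnion (fun p => exc N F s p) with hS
  have hScard : S.card ≤ E.card + (W + 1) * c := by
    refine (card_union_le _ _).trans (Nat.add_le_add_left ?_ _)
    refine (card_biUnion_le).trans ?_
    have h1 : ∀ p ∈ (range (W + 1)).filter Nat.Prime, (exc N F s p).card ≤ c := by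
      intro p hp
      rw [mem_filter, mem_range] at hp
      exact hc p hp.2 (by omega)
    refine (sum_le_card_nsmul _ _ _ h1).trans ?_
    rw [smul_eq_mul]
    refine Nat.mul_le_mul_right _ ?_
    refine (card_filter_le _ _).trans ?_
    rw [card_range]
  have hexc : ∀ (y : ZMod N) (p : ℕ), p.Prime → p ≤ W → y ∈ exc N F s p → y ∈ S := by
    intro y p hp hpW hy
    rw [hS]
    refine mem_union_right _ (mem_biUnion.2 ⟨p, mem_filter.2 ⟨mem_range.2 (by omega), hp⟩, hy⟩)
  have hbne : (b : ZMod N) ≠ 0 := MB_ne hN (by omega) hbN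
  have hsub : Xs ⊆ H.biUnion fun h => (univ.filter fun x : ZMod N => (h : ZMod N) * x ∈ S) ∪
      (univ.filter fun x : ZMod N => ((b : ZMod N) * (h : ZMod N)) * x ∈ S) := by
    intro x hx
    obtain ⟨hx0, hxF, h, hh, hfar⟩ := hXs x hx
    by_contra hcon
    rw [mem_biUnion] at hcon
    push Not at hcon
    have hn1 : ∀ h' ∈ H, ((h' : ℕ) : ZMod N) * x ∉ S := by
      intro h' hh' hm
      exact hcon h' hh' (mem_union_left _ (mem_filter.2 ⟨mem_univ _, hm⟩))
    have hn2 : ∀ h' ∈ H, ((h' : ℕ) : ZMod N) * ((b : ZMod N) * x) ∉ S := by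
      intro h' hh' hm
      refine hcon h' hh' (mem_union_right _ (mem_filter.2 ⟨mem_univ _, ?_⟩))
      have e : ((b : ZMod N) * (h' : ZMod N)) * x = ((h' : ℕ) : ZMod N) * ((b : ZMod N) * x) := by ring
      rw [e]
      exact hm
    obtain ⟨ε, hε, hch⟩ := MB_chain hN F s hs W hW H hH hHN h hh
    have c1 := hch x hx0 (fun h' hh' p hp hpW hm => hn1 h' hh' (hexc _ p hp hpW hm))
    have hbx0 : (b : ZMod N) * x ≠ 0 := MB_mul_ne hN hbne hx0
    have c2 := hch ((b : ZMod N) * x) hbx0 (fun h' hh' p hp hpW hm => hn2 h' hh' (hexc _ p hp hpW hm))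
    have hhne : (h : ZMod N) ≠ 0 := MB_ne hN (hH.pos h hh) (hHN h hh)
    have hhx0 : (h : ZMod N) * x ≠ 0 := MB_mul_ne hN hhne hx0
    -- the small multiple
    obtain ⟨a, ha⟩ := MB_cell N G b h x.val hN.pos hb (hH.pos h hh) (hG h hh) hfar
    have hxv : ((x.val : ℕ) : ZMod N) = x := ZMod.natCast_zmod_val x
    set z : ℤ := (h : ℤ) * x.val - a * N with hz
    have hzx : (h : ZMod N) * x = (z : ZMod N) := by
      rw [hz]
      push_cast
      rw [hxv, ZMod.natCast_self, mul_zero, sub_zero]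
    obtain ⟨u, hu⟩ : ∃ u : ℕ, u = z.natAbs := ⟨_, rfl⟩
    have huabs : (u : ℤ) = |z| := by rw [hu, Int.natCast_natAbs]
    have hu0 : 1 ≤ u := by
      rcases Nat.eq_zero_or_pos u with h0 | h0
      · exfalso
        rw [h0] at huabs
        have : z = 0 := abs_eq_zero.1 huabs.symm
        rw [this, Int.cast_zero] at hzx
        exact hhx0 hzx
      · exact h0
    have hbu : b * u < N := by
      rw [← huabs] at ha
      exact_mod_cast ha
    have hE1 : (h : ZMod N) * x ∉ E := fun hm => hn1 h hh (mem_union_left _ hm)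
    have hE2 : (h : ZMod N) * ((b : ZMod N) * x) ∉ E := fun hm => hn2 h hh (mem_union_left _ hm)
    have hune : (u : ZMod N) ≠ 0 := MB_ne hN (by omega) (by nlinarith)
    have hbune : ((b * u : ℕ) : ZMod N) ≠ 0 := MB_ne hN (by positivity) hbu
    have hl := hloc u hu0 hbu
    have key : F ((h : ZMod N) * ((b : ZMod N) * x)) = s * F ((h : ZMod N) * x) := by
      have e0 : (h : ZMod N) * ((b : ZMod N) * x) = (b : ZMod N) * ((h : ZMod N) * x) := by ring
      rcases le_or_gt 0 z with hz0 | hz0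
      · have hzu : (z : ZMod N) = (u : ZMod N) := by
          have : z = (u : ℤ) := by rw [huabs, abs_of_nonneg hz0]
          rw [this, Int.cast_natCast]
        rw [e0, hzx, hzu, ← Nat.cast_mul]
        exact hl
      · have hzu : (z : ZMod N) = -(u : ZMod N) := by
          have : z = -(u : ℤ) := by rw [huabs, abs_of_neg hz0, neg_neg]
          rw [this, Int.cast_neg, Int.cast_natCast]
        have hu1 : (u : ZMod N) ∉ E := by
          intro hm
          have := hE _ hm
          rw [← hzu, ← hzx] at this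
          exact hE1 this
        have e1 : (b : ZMod N) * (-(u : ZMod N)) = -((b * u : ℕ) : ZMod N) := by
          push_cast
          ring
        have hu2 : ((b * u : ℕ) : ZMod N) ∉ E := by
          intro hm
          have := hE _ hm
          rw [← e1, ← hzu, ← hzx, ← e0] at this
          exact hE2 this
        rw [e0, hzx, hzu, e1, hneg _ hbune hu2, hneg _ hune hu1, hl]
        ring
    rw [c1, c2] at key
    have hεne : ε ≠ 0 := by
      intro h0
      rw [h0] at hε
      norm_num at hε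
    apply hxF
    have : ε * F ((b : ZMod N) * x) = ε * (s * F x) := by
      rw [key]
      ring
    exact mul_left_cancel₀ hεne this
  calc Xs.card ≤ _ := card_le_card hsub
    _ ≤ ∑ h ∈ H, (S.card + S.card) := by
        refine card_biUnion_le.trans (sum_le_sum fun h hh => ?_)
        refine (card_union_le _ _).trans (Nat.add_le_add ?_ ?_)
        · exact MB_pre hN _ (MB_ne hN (hH.pos h hh) (hHN h hh)) S
        · exact MB_pre hN _ (MB_mul_ne hN hbne (MB_ne hN (hH.pos h hh) (hHN h hh))) S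
    _ = 2 * H.card * S.card := by
        rw [sum_const, smul_eq_mul]
        ring
    _ ≤ 2 * H.card * (E.card + (W + 1) * c) := Nat.mul_le_mul_left _ hScard

end Pool.Agent.Lib.MP_7b7e48_nt.LG
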