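import Pool.Agent.Lib.MP_7b7e48_nt.LG.Defs

/-!
# Module XC1 (60 minutes): a trigonometric polynomial

PROOF. `n = 3 b^3`, `g m = 4^(-n) * Nat.choose (2 n) (n + m)` for `-n ≤ m ≤ n`, `0` otherwise. The sum of the
binomial coefficients is `4^n` (`Nat.sum_range_choose`), `4^n ≤ (2n+1) choose(2n, n)` (Mathlib:
`Nat.four_pow_le_two_mul_add_one_mul_central_binom` or similar). For real `t`:
`∑_m g m exp(2π i m t) = 4^(-n) exp(-2π i n t) (1 + exp(2π i t))^(2n) = cos(π t)^(2n)` (binomial theorem;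
`1 + exp(2π i t) = 2 cos(π t) exp(π i t)`). If `|t - k| ≥ 1/b` for all integers `k` then
`|cos(π t)| ≤ cos(π/b)` (reduce `t` by its nearest integer to `|t| ≤ 1/2`), `cos(π/b) ≤ 1 - 2/b^2`
(`Real.cos_quadratic_upper_bound`), so `cos(π t)^(2n) ≤ exp(-4 n/b^2) = exp(-12 b) ≤ 1/(2(2n+1)) ≤ g 0 / 2`.
-/

open Finset

namespace Pool.Agent.Lib.MP_7b7e48_nt.LG

private lemma XC1_reindex {α : Type*} [AddCommMonoid α] (n : ℕ) (f : ℤ → α) :
    ∑ m ∈ Finset.Icc (-(n : ℤ)) n, f m = ∑ k ∈ Finset.range (2 * n + 1), f ((k : ℤ) - n) := by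
  refine Finset.sum_nbij' (fun m => (m + n).toNat) (fun k => (k : ℤ) - n) ?_ ?_ ?_ ?_ ?_
  · intro m hm
    simp only [Finset.mem_Icc, Finset.mem_range] at hm ⊢
    omega
  · intro k hk
    simp only [Finset.mem_Icc, Finset.mem_range] at hk ⊢
    omega
  · intro m hm
    simp only [Finset.mem_Icc] at hm
    omega
  · intro k hk
    simp only [Finset.mem_range] at hk
    omega
  · intro m hm
    simp only [Finset.mem_Icc] at hm
    have h1 : (((m + n).toNat : ℕ) : ℤ) - n = m := by omega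
    rw [h1]

private lemma XC1_cos (n : ℕ) (t : ℝ) :
    ∑ k ∈ Finset.range (2 * n + 1), (((2 * n).choose k : ℝ) : ℂ) *
      Complex.exp (2 * Real.pi * Complex.I * (((k : ℤ) - n : ℤ) : ℂ) * t) =
      ((4 : ℂ) ^ n) * (((Real.cos (Real.pi * t)) ^ (2 * n) : ℝ) : ℂ) := by
  have h1 : ∀ k ∈ Finset.range (2 * n + 1), (((2 * n).choose k : ℝ) : ℂ) *
      Complex.exp (2 * Real.pi * Complex.I * (((k : ℤ) - n : ℤ) : ℂ) * t) =
      Complex.exp (-(2 * Real.pi * Complex.I * t * n)) *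
        ((Complex.exp (2 * Real.pi * Complex.I * t)) ^ k * 1 ^ (2 * n - k) *
          ((2 * n).choose k : ℂ)) := by
    intro k _
    rw [← Complex.exp_nat_mul]
    have : (2 * Real.pi * Complex.I * (((k : ℤ) - n : ℤ) : ℂ) * t) =
        -(2 * Real.pi * Complex.I * t * n) + (k : ℂ) * (2 * Real.pi * Complex.I * t) := by
      push_cast
      ring
    rw [this, Complex.exp_add]
    push_cast
    ring
  rw [Finset.sum_congr rfl h1, ← Finset.mul_sum, ← add_pow]
  have h2 : (Complex.exp (2 * Real.pi * Complex.I * t) + 1) =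
      2 * Complex.cos (Real.pi * t) * Complex.exp (Real.pi * Complex.I * t) := by
    rw [Complex.cos]
    have e1 : Complex.exp (2 * Real.pi * Complex.I * t) =
        Complex.exp (Real.pi * t * Complex.I) * Complex.exp (Real.pi * Complex.I * t) := by
      rw [← Complex.exp_add]
      congr 1
      ring
    have e2 : (1 : ℂ) = Complex.exp (-(Real.pi * t) * Complex.I) *
        Complex.exp (Real.pi * Complex.I * t) := by
      rw [← Complex.exp_add]
      have : (-(Real.pi * t) * Complex.I + Real.pi * Complex.I * t : ℂ) = 0 := by ring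
      rw [this, Complex.exp_zero]
    calc Complex.exp (2 * Real.pi * Complex.I * t) + 1
        = Complex.exp (Real.pi * t * Complex.I) * Complex.exp (Real.pi * Complex.I * t)
          + Complex.exp (-(Real.pi * t) * Complex.I) *
        Complex.exp (Real.pi * Complex.I * t) := by rw [← e1, ← e2]
      _ = _ := by ring
  rw [h2, mul_pow, mul_pow, ← Complex.exp_nat_mul]
  have h3 : Complex.exp (-(2 * Real.pi * Complex.I * t * n)) *
      Complex.exp (((2 * n : ℕ) : ℂ) * (Real.pi * Complex.I * t)) = 1 := by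
    rw [← Complex.exp_add]
    have : (-(2 * Real.pi * Complex.I * t * n) +
        ((2 * n : ℕ) : ℂ) * (Real.pi * Complex.I * t) : ℂ) = 0 := by
      push_cast
      ring
    rw [this, Complex.exp_zero]
  have h4 : ((2 : ℂ)) ^ (2 * n) = 4 ^ n := by
    rw [pow_mul]
    norm_num
  have h5 : (((Real.cos (Real.pi * t)) ^ (2 * n) : ℝ) : ℂ) =
      (Complex.cos (Real.pi * t)) ^ (2 * n) := by
    push_cast
    rfl
  rw [h5, h4]
  calc Complex.exp (-(2 * Real.pi * Complex.I * t * n)) *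
      (4 ^ n * Complex.cos (Real.pi * t) ^ (2 * n) *
        Complex.exp (((2 * n : ℕ) : ℂ) * (Real.pi * Complex.I * t)))
      = (Complex.exp (-(2 * Real.pi * Complex.I * t * n)) *
      Complex.exp (((2 * n : ℕ) : ℂ) * (Real.pi * Complex.I * t))) *
      (4 ^ n * Complex.cos (Real.pi * t) ^ (2 * n)) := by ring
    _ = _ := by rw [h3, one_mul]

private lemma XC1_cos_bound (b : ℕ) (hb : 2 ≤ b) (t : ℝ)
    (ht : ∀ k : ℤ, 1 / (b : ℝ) ≤ |t - k|) (n : ℕ) :
    (Real.cos (Real.pi * t)) ^ (2 * n) ≤ Real.exp (-(4 * n / (b : ℝ) ^ 2)) := by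
  have hb0 : (0 : ℝ) < b := by
    have : (2 : ℝ) ≤ b := by exact_mod_cast hb
    linarith
  set u : ℝ := t - round t with hu
  have hu1 : |u| ≤ 1 / 2 := abs_sub_round t
  have hu2 : 1 / (b : ℝ) ≤ |u| := ht (round t)
  have hcos : Real.cos (Real.pi * t) ^ 2 = Real.cos (Real.pi * u) ^ 2 := by
    have h1 : Real.pi * u = Real.pi * t - (round t : ℤ) * Real.pi := by
      rw [hu]
      ring
    rw [h1, Real.cos_sub_int_mul_pi, mul_pow]
    have h2 : (((-1 : ℝ)) ^ (round t : ℤ)) ^ 2 = 1 := by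
      rcases Int.even_or_odd (round t) with h | h
      · rw [h.neg_one_zpow]
        norm_num
      · rw [h.neg_one_zpow]
        norm_num
    rw [h2, one_mul]
  have hpi := Real.pi_pos
  have hub : |Real.pi * u| ≤ Real.pi := by
    rw [abs_mul, abs_of_pos hpi]
    nlinarith
  have hq := Real.cos_le_one_sub_mul_cos_sq hub
  have hq2 : Real.cos (Real.pi * u) ≤ 1 - 2 * u ^ 2 := by
    have e : 2 / Real.pi ^ 2 * (Real.pi * u) ^ 2 = 2 * u ^ 2 := by
      field_simp
    linarith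
  have hq3 : 0 ≤ Real.cos (Real.pi * u) := by
    apply Real.cos_nonneg_of_mem_Icc
    have := abs_le.mp hu1
    constructor
    · nlinarith [this.1]
    · nlinarith [this.2]
  have hu3 : 1 / (b : ℝ) ^ 2 ≤ u ^ 2 := by
    have h1 : (1 / (b : ℝ)) ^ 2 ≤ |u| ^ 2 := pow_le_pow_left₀ (by positivity) hu2 2
    rw [sq_abs] at h1
    calc 1 / (b : ℝ) ^ 2 = (1 / (b : ℝ)) ^ 2 := by ring
      _ ≤ u ^ 2 := h1
  have hq4 : Real.cos (Real.pi * u) ≤ Real.exp (-(2 / (b : ℝ) ^ 2)) := by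
    have h1 := Real.add_one_le_exp (-(2 / (b : ℝ) ^ 2))
    have h2 : 2 / (b : ℝ) ^ 2 ≤ 2 * u ^ 2 := by
      calc 2 / (b : ℝ) ^ 2 = 2 * (1 / (b : ℝ) ^ 2) := by ring
        _ ≤ 2 * u ^ 2 := by linarith
    linarith
  calc (Real.cos (Real.pi * t)) ^ (2 * n) = (Real.cos (Real.pi * u)) ^ (2 * n) := by
        rw [pow_mul, pow_mul, hcos]
    _ ≤ (Real.exp (-(2 / (b : ℝ) ^ 2))) ^ (2 * n) := pow_le_pow_left₀ hq3 hq4 _
    _ = Real.exp (-(4 * n / (b : ℝ) ^ 2)) := by
        rw [← Real.exp_nat_mul]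
        congr 1
        push_cast
        ring

theorem XC1 (b : ℕ) (hb : 2 ≤ b) : ∃ g : ℤ → ℝ, (∀ m, 0 ≤ g m) ∧
    ∑ m ∈ Finset.Icc (-(3 * (b : ℤ) ^ 3)) (3 * (b : ℤ) ^ 3), g m = 1 ∧
    1 / (6 * (b : ℝ) ^ 3 + 1) ≤ g 0 ∧
    ∀ t : ℝ, (∀ k : ℤ, 1 / (b : ℝ) ≤ |t - k|) →
      (∑ m ∈ Finset.Icc (-(3 * (b : ℤ) ^ 3)) (3 * (b : ℤ) ^ 3),
        (g m : ℂ) * Complex.exp (2 * Real.pi * Complex.I * m * t)).re ≤ g 0 / 2 := by
  set n : ℕ := 3 * b ^ 3 with hn
  have hnz : (3 * (b : ℤ) ^ 3) = (n : ℤ) := by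
    rw [hn]
    push_cast
    ring
  have hb2 : (2 : ℝ) ≤ b := by exact_mod_cast hb
  have hb0 : (0 : ℝ) < b := by linarith
  rw [hnz]
  have h4 : (0 : ℝ) < 4 ^ n := by positivity
  set g : ℤ → ℝ := fun m => ((2 * n).choose (m + n).toNat : ℝ) / 4 ^ n with hg
  have hgk : ∀ k : ℕ, g ((k : ℤ) - n) = ((2 * n).choose k : ℝ) / 4 ^ n := by
    intro k
    have : ((k : ℤ) - n + n).toNat = k := by omega
    simp only [hg, this]
  have hg0 : 1 / (2 * (n : ℝ) + 1) ≤ g 0 := by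
    have h1 := Nat.four_pow_le_two_mul_add_one_mul_central_binom n
    have h2 : ((4 : ℝ)) ^ n ≤ (2 * n + 1) * (Nat.centralBinom n : ℝ) := by exact_mod_cast h1
    have h3 : g 0 = (Nat.centralBinom n : ℝ) / 4 ^ n := by
      simp only [hg, zero_add, Int.toNat_natCast]
      rfl
    rw [h3, div_le_div_iff₀ (by positivity) h4]
    linarith
  refine ⟨g, ?_, ?_, ?_, ?_⟩
  · intro m
    simp only [hg]
    positivity
  · rw [XC1_reindex n g]
    simp only [hgk]
    rw [← Finset.sum_div]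
    have h1 := Nat.sum_range_choose (2 * n)
    have h2 : ∑ k ∈ Finset.range (2 * n + 1), ((2 * n).choose k : ℝ) = 2 ^ (2 * n) := by
      exact_mod_cast h1
    rw [h2, pow_mul]
    norm_num
  · have h5 : (6 * (b : ℝ) ^ 3 + 1) = 2 * (n : ℝ) + 1 := by
      rw [hn]
      push_cast
      ring
    rw [h5]
    exact hg0
  · intro t ht
    rw [XC1_reindex n (fun m => (g m : ℂ) * Complex.exp (2 * Real.pi * Complex.I * m * t))]
    have h1 : ∑ k ∈ Finset.range (2 * n + 1), ((g ((k : ℤ) - n) : ℝ) : ℂ) *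
        Complex.exp (2 * Real.pi * Complex.I * (((k : ℤ) - n : ℤ) : ℂ) * t) =
        (((Real.cos (Real.pi * t)) ^ (2 * n) : ℝ) : ℂ) := by
      have h2 := XC1_cos n t
      have h3 : ∀ k ∈ Finset.range (2 * n + 1), ((g ((k : ℤ) - n) : ℝ) : ℂ) *
        Complex.exp (2 * Real.pi * Complex.I * (((k : ℤ) - n : ℤ) : ℂ) * t) =
        (1 / (4 : ℂ) ^ n) * ((((2 * n).choose k : ℝ) : ℂ) *
        Complex.exp (2 * Real.pi * Complex.I * (((k : ℤ) - n : ℤ) : ℂ) * t)) := by
        intro k _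
        rw [hgk]
        push_cast
        ring
      rw [Finset.sum_congr rfl h3, ← Finset.mul_sum, h2]
      have h44 : (4 : ℂ) ^ n ≠ 0 := pow_ne_zero _ (by norm_num)
      field_simp
    rw [h1, Complex.ofReal_re]
    have h2 := XC1_cos_bound b hb t ht n
    have h3 : (4 * (n : ℝ) / (b : ℝ) ^ 2) = 12 * b := by
      rw [hn]
      push_cast
      field_simp
      ring
    rw [h3] at h2
    have h5 : Real.exp (-(12 * (b : ℝ))) ≤ 1 / (2 * (2 * (n : ℝ) + 1)) := by
      rw [Real.exp_neg, ← one_div]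
      apply one_div_le_one_div_of_le (by positivity)
      have h6 := Real.pow_div_factorial_le_exp (12 * (b : ℝ)) (by positivity) 3
      have h7 : ((Nat.factorial 3 : ℕ) : ℝ) = 6 := by
        norm_num [Nat.factorial]
      rw [h7] at h6
      have h8 : (n : ℝ) = 3 * (b : ℝ) ^ 3 := by
        rw [hn]
        push_cast
        ring
      rw [h8]
      have h9 : (12 * (b : ℝ)) ^ 3 / 6 = 288 * (b : ℝ) ^ 3 := by ring
      rw [h9] at h6
      have h10 : (8 : ℝ) ≤ (b : ℝ) ^ 3 := by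
        calc (8 : ℝ) = 2 ^ 3 := by norm_num
          _ ≤ (b : ℝ) ^ 3 := pow_le_pow_left₀ (by norm_num) hb2 3
      linarith
    have h6 : 1 / (2 * (2 * (n : ℝ) + 1)) = (1 / (2 * (n : ℝ) + 1)) / 2 := by
      field_simp
    linarith

end Pool.Agent.Lib.MP_7b7e48_nt.LG
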