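import Pool.Agent.Lib.MP_7b7e48_nt.LG.Defs
import Pool.Agent.Lib.MP_7b7e48_nt.LG.XC1

/-!
# Module XC (60 minutes): few cells are not covered

PROOF. Let `n = 3 b^3`, `S(y) = ∑_{h ∈ H} exp(2π i h y / G)` for integers `y`. If `j` is bad (`Far b G (h j)`
for all `h ∈ H`, i.e. `|h j/G - k| ≥ 1/b` for all integers `k`), then `XC1` with `t = h j / G`, summed over
`h`, gives `∑_m g m Re S(m j) ≤ (g 0 / 2) |H|`, the term `m = 0` is `g 0 |H|`, so
`∑_{m ≠ 0} g m ‖S(m j)‖ ≥ (g 0 / 2)|H|`; Cauchy-Schwarz with `∑ g m ≤ 1`: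
`∑_{m ≠ 0} g m ‖S(m j)‖^2 ≥ (g 0)^2 |H|^2 / 4`. Sum over all `0 ≤ j < G`: for `0 < |m| ≤ n`,
`∑_j ‖S(m j)‖^2 = ∑_{h,h'} ∑_j exp(2π i m (h - h') j/G) = G |H|` because `|m (h - h')| < G` (`hG`) so
that `G ∣ m(h - h')` only for `h = h'` (geometric sum over `j`). So `#bad * (g 0)^2 |H|^2/4 ≤ G |H|` and
`1/(g 0)^2 ≤ (6 b^3 + 1)^2 ≤ 50 b^6`.
-/

open Finset

namespace Pool.Agent.Lib.MP_7b7e48_nt.LG

/-- the exponential sum over the multipliers -/
private noncomputable def XC_S (H : Finset ℕ) (G : ℕ) (y : ℤ) : ℂ :=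
  ∑ h ∈ H, Complex.exp (2 * Real.pi * Complex.I * (h * y) / G)

private lemma XC_far (b G x : ℕ) (hb : 2 ≤ b) (hG : 0 < G) (h : Far b G x) (k : ℤ) :
    1 / (b : ℝ) ≤ |(x : ℝ) / G - k| := by
  obtain ⟨h1, h2⟩ := h
  have hb0 : (0 : ℝ) < b := by
    have : 0 < b := by omega
    exact_mod_cast this
  have hG0 : (0 : ℝ) < G := by exact_mod_cast hG
  have hlt : x % G < G := Nat.mod_lt _ hG
  have h1' : (G : ℝ) ≤ b * ((x % G : ℕ) : ℝ) := by exact_mod_cast h1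
  have h2' : (G : ℝ) ≤ b * ((G : ℝ) - ((x % G : ℕ) : ℝ)) := by
    have : ((G - x % G : ℕ) : ℝ) = (G : ℝ) - ((x % G : ℕ) : ℝ) := by
      rw [Nat.cast_sub hlt.le]
    rw [← this]
    exact_mod_cast h2
  have hx : (x : ℝ) = G * ((x / G : ℕ) : ℝ) + ((x % G : ℕ) : ℝ) := by
    have := Nat.div_add_mod x G
    exact_mod_cast this.symm
  set q : ℝ := ((x / G : ℕ) : ℝ) with hq
  set r : ℝ := ((x % G : ℕ) : ℝ) with hr
  have hxG : (x : ℝ) / G = q + r / G := by
    rw [hx]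
    field_simp
  rw [hxG]
  have hr1 : 1 / (b : ℝ) ≤ r / G := by
    rw [div_le_div_iff₀ hb0 hG0]
    linarith
  have hr2 : 1 / (b : ℝ) ≤ 1 - r / G := by
    have : 1 - r / G = (G - r) / G := by
      field_simp
    rw [this, div_le_div_iff₀ hb0 hG0]
    linarith
  rcases le_or_gt k ((x / G : ℕ) : ℤ) with hk | hk
  · have hk' : (k : ℝ) ≤ q := by
      have h3 : ((k : ℤ) : ℝ) ≤ (((x / G : ℕ) : ℤ) : ℝ) := Int.cast_le.mpr hk
      rw [Int.cast_natCast] at h3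
      exact h3
    rw [le_abs]
    left
    linarith
  · have hk' : q + 1 ≤ (k : ℝ) := by
      have h3 : ((((x / G : ℕ) : ℤ) + 1 : ℤ) : ℝ) ≤ ((k : ℤ) : ℝ) := Int.cast_le.mpr (by omega)
      rw [Int.cast_add, Int.cast_natCast, Int.cast_one] at h3
      exact h3
    rw [le_abs]
    right
    linarith

private lemma XC_geom (G : ℕ) (hG : 0 < G) (a : ℤ) (ha : ¬ ((G : ℤ) ∣ a)) :
    ∑ j ∈ Finset.range G, Complex.exp (2 * Real.pi * Complex.I * (a * j) / G) = 0 := by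
  have hGC : (G : ℂ) ≠ 0 := by
    have : G ≠ 0 := by omega
    exact_mod_cast this
  set z : ℂ := Complex.exp (2 * Real.pi * Complex.I * a / G) with hz
  have h1 : ∀ j ∈ Finset.range G, Complex.exp (2 * Real.pi * Complex.I * (a * j) / G) = z ^ j := by
    intro j _
    rw [hz, ← Complex.exp_nat_mul]
    congr 1
    ring
  rw [Finset.sum_congr rfl h1]
  have hz1 : z ≠ 1 := by
    intro h
    rw [hz, Complex.exp_eq_one_iff] at h
    obtain ⟨n, hn⟩ := h
    apply ha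
    have h2 : (2 * Real.pi * Complex.I : ℂ) ≠ 0 := Complex.two_pi_I_ne_zero
    have h3 : (a : ℂ) = G * n := by
      field_simp at hn
      have h4 : (2 * Real.pi * Complex.I : ℂ) * a = (2 * Real.pi * Complex.I : ℂ) * (G * n) := by
        linear_combination (2 * Real.pi * Complex.I : ℂ) * hn
      exact mul_left_cancel₀ h2 h4
    have h5 : a = G * n := by exact_mod_cast h3
    exact ⟨n, h5⟩
  have hzG : z ^ G = 1 := by
    rw [hz, ← Complex.exp_nat_mul, Complex.exp_eq_one_iff]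
    refine ⟨a, ?_⟩
    field_simp
  have h2 := mul_geom_sum z G
  rw [hzG, sub_self] at h2
  rcases mul_eq_zero.mp h2 with h | h
  · exact absurd (sub_eq_zero.mp h) hz1
  · exact h

private lemma XC_parseval (H : Finset ℕ) (G : ℕ) (hG : 0 < G) (m : ℤ) (hm : m ≠ 0)
    (hmH : ∀ h ∈ H, m.natAbs * h < G) :
    ∑ j ∈ Finset.range G, ‖XC_S H G (m * j)‖ ^ 2 = G * H.card := by
  have h1 : ∀ j ∈ Finset.range G, ((‖XC_S H G (m * j)‖ ^ 2 : ℝ) : ℂ) =
      ∑ h ∈ H, ∑ h' ∈ H, Complex.exp (2 * Real.pi * Complex.I *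
        (((m * ((h : ℤ) - h') : ℤ) : ℂ) * j) / G) := by
    intro j _
    have h2 : ((‖XC_S H G (m * j)‖ ^ 2 : ℝ) : ℂ) =
        XC_S H G (m * j) * (starRingEnd ℂ) (XC_S H G (m * j)) := by
      rw [Complex.mul_conj, Complex.normSq_eq_norm_sq]
    rw [h2, XC_S, map_sum, Finset.sum_mul_sum]
    refine Finset.sum_congr rfl fun h _ => Finset.sum_congr rfl fun h' _ => ?_
    rw [← Complex.exp_conj, ← Complex.exp_add]
    congr 1
    simp only [map_div₀, map_mul, Complex.conj_I, Complex.conj_ofReal, map_natCast, map_intCast,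
      map_ofNat]
    push_cast
    ring
  have h3 : ((∑ j ∈ Finset.range G, ‖XC_S H G (m * j)‖ ^ 2 : ℝ) : ℂ) = ((G * H.card : ℝ) : ℂ) := by
    rw [Complex.ofReal_sum, Finset.sum_congr rfl h1, Finset.sum_comm]
    have h4 : ∀ h ∈ H, ∑ j ∈ Finset.range G, ∑ h' ∈ H, Complex.exp (2 * Real.pi * Complex.I *
        (((m * ((h : ℤ) - h') : ℤ) : ℂ) * j) / G) = G := by
      intro h hh
      rw [Finset.sum_comm, Finset.sum_eq_single h]
      · simp
      · intro h' hh' hne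
        apply XC_geom G hG
        intro hdvd
        have hb1 : (m * ((h : ℤ) - h')).natAbs < G := by
          rw [Int.natAbs_mul]
          have e1 := hmH h hh
          have e2 := hmH h' hh'
          rcases le_total h h' with hle | hle
          · have : ((h : ℤ) - h').natAbs ≤ h' := by omega
            calc m.natAbs * ((h : ℤ) - h').natAbs ≤ m.natAbs * h' := Nat.mul_le_mul_left _ this
              _ < G := e2
          · have : ((h : ℤ) - h').natAbs ≤ h := by omega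
            calc m.natAbs * ((h : ℤ) - h').natAbs ≤ m.natAbs * h := Nat.mul_le_mul_left _ this
              _ < G := e1
        have hne0 : m * ((h : ℤ) - h') ≠ 0 := by
          apply mul_ne_zero hm
          intro h0
          apply hne
          omega
        have h5 := Int.natAbs_dvd_natAbs.mpr hdvd
        rw [Int.natAbs_natCast] at h5
        have h6 := Nat.le_of_dvd (Int.natAbs_pos.mpr hne0) h5
        omega
      · intro h0
        exact absurd hh h0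
    rw [Finset.sum_congr rfl h4, Finset.sum_const, nsmul_eq_mul]
    push_cast
    ring
  exact_mod_cast h3

private lemma XC_bad (b : ℕ) (hb : 2 ≤ b) (H : Finset ℕ) (G : ℕ) (hG : 0 < G) (g : ℤ → ℝ)
    (g0 : ∀ m, 0 ≤ g m) (M : Finset ℤ) (hM0 : (0 : ℤ) ∈ M) (g1 : ∑ m ∈ M, g m = 1)
    (g3 : ∀ t : ℝ, (∀ k : ℤ, 1 / (b : ℝ) ≤ |t - k|) →
      (∑ m ∈ M, (g m : ℂ) * Complex.exp (2 * Real.pi * Complex.I * m * t)).re ≤ g 0 / 2)
    (j : ℕ) (hj : ∀ h ∈ H, Far b G (h * j)) :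
    (g 0) ^ 2 * (H.card : ℝ) ^ 2 / 4 ≤ ∑ m ∈ M.erase 0, g m * ‖XC_S H G (m * j)‖ ^ 2 := by
  have hGC : (G : ℂ) ≠ 0 := by
    have : G ≠ 0 := by omega
    exact_mod_cast this
  have h1 : ∑ h ∈ H, (∑ m ∈ M, (g m : ℂ) * Complex.exp (2 * Real.pi * Complex.I * m *
      (((((h * j : ℕ) : ℝ) / G : ℝ)) : ℂ))).re ≤ ∑ h ∈ H, g 0 / 2 :=
    Finset.sum_le_sum fun h hh => g3 _ (XC_far b G (h * j) hb hG (hj h hh))
  rw [Finset.sum_const, nsmul_eq_mul, ← Complex.re_sum, Finset.sum_comm] at h1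
  have h2 : ∀ m ∈ M, ∑ h ∈ H, (g m : ℂ) * Complex.exp (2 * Real.pi * Complex.I * m *
      (((((h * j : ℕ) : ℝ) / G : ℝ)) : ℂ)) = (g m : ℂ) * XC_S H G (m * j) := by
    intro m _
    rw [XC_S, Finset.mul_sum]
    refine Finset.sum_congr rfl fun h _ => ?_
    congr 2
    push_cast
    ring
  rw [Finset.sum_congr rfl h2, ← Finset.add_sum_erase M _ hM0, Complex.add_re] at h1
  have h3 : XC_S H G ((0 : ℤ) * j) = (H.card : ℂ) := by
    rw [XC_S]
    simp
  have h4 : ((g 0 : ℂ) * XC_S H G ((0 : ℤ) * j)).re = g 0 * H.card := by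
    rw [h3]
    have : ((g 0 : ℂ) * (H.card : ℂ)) = ((g 0 * H.card : ℝ) : ℂ) := by push_cast; ring
    rw [this, Complex.ofReal_re]
  rw [h4] at h1
  have h5 : -(∑ m ∈ M.erase 0, g m * ‖XC_S H G (m * j)‖) ≤
      (∑ m ∈ M.erase 0, (g m : ℂ) * XC_S H G (m * j)).re := by
    rw [Complex.re_sum, ← Finset.sum_neg_distrib]
    apply Finset.sum_le_sum
    intro m _
    rw [Complex.re_ofReal_mul]
    have h6 := Complex.abs_re_le_norm (XC_S H G (m * j))
    have h7 := (abs_le.mp h6).1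
    nlinarith [g0 m]
  have h6 : g 0 * H.card / 2 ≤ ∑ m ∈ M.erase 0, g m * ‖XC_S H G (m * j)‖ := by
    have e : (H.card : ℝ) * (g 0 / 2) = g 0 * H.card / 2 := by ring
    linarith
  have h7 : (∑ m ∈ M.erase 0, g m * ‖XC_S H G (m * j)‖) ^ 2 ≤
      (∑ m ∈ M.erase 0, g m) * ∑ m ∈ M.erase 0, g m * ‖XC_S H G (m * j)‖ ^ 2 := by
    apply Finset.sum_sq_le_sum_mul_sum_of_sq_le_mul
    · intro m _
      exact g0 m
    · intro m _
      exact mul_nonneg (g0 m) (by positivity)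
    · intro m _
      apply le_of_eq
      ring
  have h8 : ∑ m ∈ M.erase 0, g m ≤ 1 := by
    rw [← g1]
    exact Finset.sum_le_sum_of_subset_of_nonneg (Finset.erase_subset _ _) fun m _ _ => g0 m
  have h9 : 0 ≤ ∑ m ∈ M.erase 0, g m * ‖XC_S H G (m * j)‖ ^ 2 :=
    Finset.sum_nonneg fun m _ => mul_nonneg (g0 m) (by positivity)
  have h10 : (g 0 * H.card / 2) ^ 2 ≤ (∑ m ∈ M.erase 0, g m * ‖XC_S H G (m * j)‖) ^ 2 := by
    apply pow_le_pow_left₀ _ h6
    have := g0 0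
    positivity
  calc (g 0) ^ 2 * (H.card : ℝ) ^ 2 / 4 = (g 0 * H.card / 2) ^ 2 := by ring
    _ ≤ _ := h10
    _ ≤ _ := h7
    _ ≤ 1 * ∑ m ∈ M.erase 0, g m * ‖XC_S H G (m * j)‖ ^ 2 :=
        mul_le_mul_of_nonneg_right h8 h9
    _ = _ := one_mul _

theorem XC (b : ℕ) (hb : 2 ≤ b) (H : Finset ℕ) (hH : H.Nonempty) (G : ℕ)
    (hG : ∀ h ∈ H, 3 * b ^ 3 * h < G) (Bd : Finset ℕ) (hB : ∀ j ∈ Bd, j < G ∧ ∀ h ∈ H, Far b G (h * j)) :
    (Bd.card : ℝ) ≤ 200 * (b : ℝ) ^ 6 * G / H.card := by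
  obtain ⟨g, g0, g1, g2, g3⟩ := XC1 b hb
  set M : Finset ℤ := Finset.Icc (-(3 * (b : ℤ) ^ 3)) (3 * (b : ℤ) ^ 3) with hM
  have hG0 : 0 < G := by
    obtain ⟨h, hh⟩ := hH
    have := hG h hh
    omega
  have hb2 : (2 : ℝ) ≤ b := by exact_mod_cast hb
  have hb0 : (0 : ℝ) < b := by linarith
  have hHc : 0 < (H.card : ℝ) := by
    have := hH.card_pos
    exact_mod_cast this
  have hM0 : (0 : ℤ) ∈ M := by
    rw [hM, Finset.mem_Icc]
    constructor
    · have : (0 : ℤ) ≤ 3 * (b : ℤ) ^ 3 := by positivity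
      linarith
    · positivity
  have h1 : (Bd.card : ℝ) * ((g 0) ^ 2 * (H.card : ℝ) ^ 2 / 4) ≤ G * H.card := by
    calc (Bd.card : ℝ) * ((g 0) ^ 2 * (H.card : ℝ) ^ 2 / 4)
        = ∑ j ∈ Bd, ((g 0) ^ 2 * (H.card : ℝ) ^ 2 / 4) := by
          rw [Finset.sum_const, nsmul_eq_mul]
      _ ≤ ∑ j ∈ Bd, ∑ m ∈ M.erase 0, g m * ‖XC_S H G (m * j)‖ ^ 2 :=
          Finset.sum_le_sum fun j hj => XC_bad b hb H G hG0 g g0 M hM0 g1 g3 j (hB j hj).2
      _ ≤ ∑ j ∈ Finset.range G, ∑ m ∈ M.erase 0, g m * ‖XC_S H G (m * j)‖ ^ 2 := by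
          apply Finset.sum_le_sum_of_subset_of_nonneg
          · intro j hj
            exact Finset.mem_range.mpr (hB j hj).1
          · intro j _ _
            exact Finset.sum_nonneg fun m _ => mul_nonneg (g0 m) (by positivity)
      _ = ∑ m ∈ M.erase 0, g m * ∑ j ∈ Finset.range G, ‖XC_S H G (m * j)‖ ^ 2 := by
          rw [Finset.sum_comm]
          refine Finset.sum_congr rfl fun m _ => ?_
          rw [Finset.mul_sum]
      _ = ∑ m ∈ M.erase 0, g m * (G * H.card) := by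
          refine Finset.sum_congr rfl fun m hm => ?_
          rw [Finset.mem_erase] at hm
          rw [XC_parseval H G hG0 m hm.1]
          intro h hh
          have h2 := hG h hh
          have h3 : m.natAbs ≤ 3 * b ^ 3 := by
            have h4 := hm.2
            rw [hM, Finset.mem_Icc] at h4
            have h5 : ((3 * b ^ 3 : ℕ) : ℤ) = 3 * (b : ℤ) ^ 3 := by push_cast; ring
            rw [← h5] at h4
            omega
          calc m.natAbs * h ≤ 3 * b ^ 3 * h := Nat.mul_le_mul_right _ h3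
            _ < G := h2
      _ = (∑ m ∈ M.erase 0, g m) * (G * H.card) := by rw [Finset.sum_mul]
      _ ≤ 1 * (G * H.card) := by
          apply mul_le_mul_of_nonneg_right _ (by positivity)
          rw [← g1]
          exact Finset.sum_le_sum_of_subset_of_nonneg (Finset.erase_subset _ _) fun m _ _ => g0 m
      _ = G * H.card := one_mul _
  have h2 : (Bd.card : ℝ) * ((g 0) ^ 2 * (H.card : ℝ)) ≤ 4 * G := by
    have h3 : ((Bd.card : ℝ) * ((g 0) ^ 2 * (H.card : ℝ))) * H.card ≤ (4 * G) * H.card := by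
      nlinarith [h1]
    exact le_of_mul_le_mul_right h3 hHc
  have hb3 : (8 : ℝ) ≤ (b : ℝ) ^ 3 := by
    calc (8 : ℝ) = 2 ^ 3 := by norm_num
      _ ≤ (b : ℝ) ^ 3 := pow_le_pow_left₀ (by norm_num) hb2 3
  have h4 : 1 / (50 * (b : ℝ) ^ 6) ≤ (g 0) ^ 2 := by
    have h5 : (1 / (6 * (b : ℝ) ^ 3 + 1)) ^ 2 ≤ (g 0) ^ 2 := pow_le_pow_left₀ (by positivity) g2 2
    have h6 : 1 / (50 * (b : ℝ) ^ 6) ≤ (1 / (6 * (b : ℝ) ^ 3 + 1)) ^ 2 := by
      rw [one_div_pow]
      apply one_div_le_one_div_of_le (by positivity)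
      have e : (b : ℝ) ^ 6 = (b : ℝ) ^ 3 * (b : ℝ) ^ 3 := by ring
      rw [e]
      nlinarith [hb3]
    linarith
  rw [le_div_iff₀ hHc]
  have h7 : (Bd.card : ℝ) * (H.card : ℝ) * (1 / (50 * (b : ℝ) ^ 6)) ≤ 4 * G := by
    calc (Bd.card : ℝ) * (H.card : ℝ) * (1 / (50 * (b : ℝ) ^ 6))
        ≤ (Bd.card : ℝ) * (H.card : ℝ) * (g 0) ^ 2 :=
          mul_le_mul_of_nonneg_left h4 (by positivity)
      _ = (Bd.card : ℝ) * ((g 0) ^ 2 * (H.card : ℝ)) := by ring
      _ ≤ 4 * G := h2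
  have hb6 : (0 : ℝ) < 50 * (b : ℝ) ^ 6 := by positivity
  rw [mul_one_div, div_le_iff₀ hb6] at h7
  linarith

end Pool.Agent.Lib.MP_7b7e48_nt.LG
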