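import Pool.Agent.Lib.MP_7b7e48_nt.LG.Defs
import Pool.Agent.Lib.MP_7b7e48_nt.LG.BM
import Pool.Agent.Lib.MP_7b7e48_nt.LG.HH
import Pool.Agent.Lib.MP_7b7e48_nt.LG.XC
import Pool.Agent.Lib.MP_7b7e48_nt.LG.MB

/-!
# Module EXB (60 minutes): the number of exceptions for all primes up to a power of the logarithm

PROOF. Let `W, c, N0` be given by `GH r`; for each prime `p ≤ W` let `C_p` be the constant of `BM p` (with
`σ j = s^Ω(j)`, i.e. `σ = 1` or `σ = lam`, see `hσ`), `C1 = max C_p`: `#exc N F s p ≤ C1 (|E| + 1)` because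
`σ p = s`. Take `H` from `GH`, `G = Ga N`, `Jset = Jb G b H`: `XC` with `2 b` gives
`|Jb| ≤ 200 (2b)^6 G/|H| ≤ 12800 (PP N)^6 Ga N/(c K^r)` (`3 (2b)^3 h = 24 b^3 h < G`). `MB` (with `c` there
`= ⌈C1 (|E|+1)⌉`, and `2 b h ≤ G`) bounds the number of `x` with `F (b x) ≠ s F x` whose cell
`G x.val/N` is not in `Jb G b H` by `2 |H| (|E| + (W+1)(C1(|E|+1) + 1)) ≤ C K^r (|E| + 1)`.
-/

open Finset

namespace Pool.Agent.Lib.MP_7b7e48_nt.LG

private theorem EXB_Ga_le (N : ℕ) (hN : 1 ≤ N) : Ga N ≤ N := by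
  unfold Ga
  have h1 : (1 : ℝ) ≤ N := by exact_mod_cast hN
  have h2 : (N : ℝ) ^ ((1 : ℝ) / 400) ≤ (N : ℝ) ^ (1 : ℝ) :=
    Real.rpow_le_rpow_of_exponent_le h1 (by norm_num)
  rw [Real.rpow_one] at h2
  have h3 : ⌊(N : ℝ) ^ ((1 : ℝ) / 400)⌋₊ ≤ ⌊(N : ℝ)⌋₊ := Nat.floor_le_floor h2
  rwa [Nat.floor_natCast] at h3

private theorem EXB_const (W : ℕ) : ∃ C1 : ℝ, 0 < C1 ∧ ∀ k, 1 ≤ k → k ≤ W →
    ∀ (M : ℕ) [NeZero M] (F : ZMod M → ℝ)
    (σ : ℕ → ℝ) (η : ℝ) (E : Finset (ZMod M)), σ 1 = 1 → (∀ j, 1 ≤ j → j ≤ k → σ j ^ 2 = 1) →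
    (∀ x ∈ E, -x ∈ E) → (∀ x, x ≠ 0 → x ∉ E → F (-x) = η * F x) →
    (∀ j n : ℕ, 1 ≤ j → j ≤ k → 1 ≤ n → j * n < M →
      F ((j * n : ℕ) : ZMod M) = σ j * F (n : ZMod M)) →
    ((exc M F (σ k) k).card : ℝ) ≤ C1 * ((E.card : ℝ) + 1) := by
  induction W with
  | zero =>
    refine ⟨1, one_pos, ?_⟩
    intro k h1 h2
    omega
  | succ W ih =>
    obtain ⟨C1, hC1, h⟩ := ih
    obtain ⟨C2, hC2, h2⟩ := BM (W + 1) (by omega)
    refine ⟨C1 + C2, by positivity, ?_⟩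
    intro k hk1 hk2 M _ F σ η E a1 a2 a3 a4 a5
    have hE0 : (0 : ℝ) ≤ E.card := Nat.cast_nonneg _
    rcases Nat.lt_or_ge W k with hlt | hle
    · have hk : k = W + 1 := by omega
      subst hk
      have := h2 M F σ η E a1 a2 a3 a4 a5
      nlinarith
    · have := h k hk1 hle M F σ η E a1 a2 a3 a4 a5
      nlinarith

theorem EXB (r : ℕ) : ∃ C : ℝ, ∃ N0 : ℕ, 0 < C ∧ ∀ (N : ℕ) [NeZero N], N0 ≤ N → N.Prime →
    ∀ (F : ZMod N → ℝ) (s η : ℝ) (σ : ℕ → ℝ) (E : Finset (ZMod N)), s ^ 2 = 1 → σ 1 = 1 →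
    (∀ j, 1 ≤ j → j ≤ PP N → σ j ^ 2 = 1) → (∀ p : ℕ, p.Prime → p ≤ PP N → σ p = s) →
    (∀ x ∈ E, -x ∈ E) → (∀ x, x ≠ 0 → x ∉ E → F (-x) = η * F x) →
    (∀ j n : ℕ, 1 ≤ j → j ≤ PP N → 1 ≤ n → j * n < N →
      F ((j * n : ℕ) : ZMod N) = σ j * F (n : ZMod N)) →
    ∀ b : ℕ, b.Prime → b ≤ PP N → ∃ Js : Finset ℕ, (∀ j ∈ Js, j < Ga N) ∧
      (Js.card : ℝ) ≤ C * (PP N : ℝ) ^ 6 * Ga N / (Real.log N) ^ r ∧
      ∀ Xs : Finset (ZMod N), (∀ x ∈ Xs, x ≠ 0 ∧ F ((b : ZMod N) * x) ≠ s * F x ∧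
        Ga N * x.val / N ∉ Js) → (Xs.card : ℝ) ≤ C * (Real.log N) ^ r * ((E.card : ℝ) + 1) := by
  classical
  obtain ⟨W, c, N1, hW, hc, hGH⟩ := GH r
  obtain ⟨C1, hC1, hBM⟩ := EXB_const W
  refine ⟨12800 / c + 2 * (1 + (W + 1) * (C1 + 1)), N1 + W + 1 + ⌈Real.exp W⌉₊, by positivity, ?_⟩
  intro N _ hN0 hN F s η σ E hs hσ1 hσ hσp hE hneg hloc b hb hbP
  have hW2 : (2 : ℝ) ≤ W := by exact_mod_cast hW
  have hNpos : (0 : ℝ) < N := by exact_mod_cast hN.pos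
  have hlog : (W : ℝ) ≤ Real.log N := by
    rw [Real.le_log_iff_exp_le hNpos]
    refine (Nat.le_ceil _).trans ?_
    have : ⌈Real.exp W⌉₊ ≤ N := by omega
    exact_mod_cast this
  have hlog1 : (1 : ℝ) ≤ Real.log N := by linarith
  have hWP : W ≤ PP N := by
    unfold PP
    apply Nat.le_floor
    calc (W : ℝ) ≤ Real.log N := hlog
      _ = Real.log N ^ 1 := (pow_one _).symm
      _ ≤ Real.log N ^ 4000 := pow_le_pow_right₀ hlog1 (by norm_num)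
  obtain ⟨H, hMult, hHge, hHle, hGa⟩ := hGH N (by omega)
  have hb2 : 2 ≤ b := hb.two_le
  have hGaN : Ga N ≤ N := EXB_Ga_le N hN.one_le
  have hHne : H.Nonempty := ⟨1, hMult.one⟩
  have hKr : 0 < Real.log N ^ r := by positivity
  have hHpos : (0 : ℝ) < H.card := lt_of_lt_of_le (by positivity) hHge
  have hb1 : 24 * b ^ 3 * 1 < Ga N := hGa 1 hMult.one b hb2 hbP
  have hbb : b ≤ 24 * b ^ 3 * 1 := by
    have : b ≤ b ^ 3 := Nat.le_self_pow (by norm_num) b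
    omega
  have hhb : ∀ h ∈ H, 2 * b * h < Ga N := by
    intro h hh
    have h1 := hGa h hh b hb2 hbP
    have h2 : b ≤ b ^ 3 := Nat.le_self_pow (by norm_num) b
    have h3 : 2 * b * h ≤ 24 * b ^ 3 * h := Nat.mul_le_mul_right h (by omega)
    omega
  have hhN : ∀ h ∈ H, h < N := by
    intro h hh
    have h1 := hhb h hh
    have h2 : h ≤ 2 * b * h := Nat.le_mul_of_pos_left h (by omega)
    omega
  refine ⟨Jb (Ga N) b H, ?_, ?_, ?_⟩
  · intro j hj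
    unfold Jb at hj
    rw [Finset.mem_filter, Finset.mem_range] at hj
    exact hj.1
  · have hX := XC (2 * b) (by omega) H hHne (Ga N) (by
      intro h hh
      have h1 := hGa h hh b hb2 hbP
      have e : 3 * (2 * b) ^ 3 * h = 24 * b ^ 3 * h := by ring
      omega) (Jb (Ga N) b H) (by
      intro j hj
      unfold Jb at hj
      rw [Finset.mem_filter, Finset.mem_range] at hj
      exact hj)
    refine hX.trans ?_
    have hbP' : (b : ℝ) ≤ PP N := by exact_mod_cast hbP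
    have hG0 : (0 : ℝ) ≤ Ga N := Nat.cast_nonneg _
    have e1 : 200 * ((2 * b : ℕ) : ℝ) ^ 6 * (Ga N : ℝ) / H.card ≤
        12800 * (PP N : ℝ) ^ 6 * Ga N / (c * Real.log N ^ r) := by
      apply div_le_div₀ (by positivity) _ (by positivity) hHge
      push_cast
      have h6 : (b : ℝ) ^ 6 ≤ (PP N : ℝ) ^ 6 := pow_le_pow_left₀ (Nat.cast_nonneg _) hbP' 6
      have : 200 * (2 * (b : ℝ)) ^ 6 * (Ga N : ℝ) = 12800 * (b : ℝ) ^ 6 * Ga N := by ring
      rw [this]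
      gcongr
    refine e1.trans ?_
    have e2 : 12800 * (PP N : ℝ) ^ 6 * Ga N / (c * Real.log N ^ r) =
        12800 / c * ((PP N : ℝ) ^ 6 * Ga N) / Real.log N ^ r := by
      field_simp
    rw [e2]
    apply div_le_div_of_nonneg_right _ hKr.le
    have e3 : (12800 / c + 2 * (1 + (W + 1) * (C1 + 1))) * (PP N : ℝ) ^ 6 * (Ga N : ℝ) =
        12800 / c * ((PP N : ℝ) ^ 6 * Ga N) +
          2 * (1 + (W + 1) * (C1 + 1)) * ((PP N : ℝ) ^ 6 * Ga N) := by ring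
    rw [e3]
    have : 0 ≤ 2 * (1 + ((W : ℝ) + 1) * (C1 + 1)) * ((PP N : ℝ) ^ 6 * Ga N) := by positivity
    linarith
  · intro Xs hXs
    set c' : ℕ := ⌈C1 * ((E.card : ℝ) + 1)⌉₊ with hc'
    have hexc : ∀ p : ℕ, p.Prime → p ≤ W → (exc N F s p).card ≤ c' := by
      intro p hp hpW
      have h1 := hBM p hp.one_le hpW N F σ η E hσ1
        (fun j h1 h2 => hσ j h1 (by omega)) hE hneg
        (fun j n h1 h2 h3 h4 => hloc j n h1 (by omega) h3 h4)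
      rw [hσp p hp (by omega)] at h1
      have h2 : ((exc N F s p).card : ℝ) ≤ (c' : ℝ) := h1.trans (Nat.le_ceil _)
      exact_mod_cast h2
    have hMB := MB N hN F s η hs E hE hneg W (by omega) H hMult hhN c' hexc b hb2 (by omega)
      (fun n h1 h2 => by
        have := hloc b n (by omega) hbP h1 h2
        rw [hσp b hb hbP] at this
        exact this)
      (Ga N) (fun h hh => (hhb h hh).le) Xs (by
        intro x hx
        obtain ⟨h1, h2, h3⟩ := hXs x hx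
        refine ⟨h1, h2, ?_⟩
        by_contra hcon
        push Not at hcon
        apply h3
        unfold Jb
        rw [Finset.mem_filter, Finset.mem_range]
        refine ⟨?_, hcon⟩
        have hG0 : 0 < Ga N := by omega
        rw [Nat.div_lt_iff_lt_mul hN.pos]
        exact Nat.mul_lt_mul_of_pos_left (ZMod.val_lt x) hG0)
    have hE0 : (0 : ℝ) ≤ E.card := Nat.cast_nonneg _
    have hc'' : (c' : ℝ) ≤ C1 * ((E.card : ℝ) + 1) + 1 :=
      (Nat.ceil_lt_add_one (by positivity)).le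
    have h1 : (Xs.card : ℝ) ≤ 2 * H.card * (E.card + (W + 1) * c') := by exact_mod_cast hMB
    have h2 : (E.card : ℝ) + (W + 1) * c' ≤ (1 + (W + 1) * (C1 + 1)) * ((E.card : ℝ) + 1) := by
      have h3 : ((W : ℝ) + 1) * c' ≤ (W + 1) * (C1 * ((E.card : ℝ) + 1) + 1) := by gcongr
      nlinarith [mul_nonneg (by positivity : (0 : ℝ) ≤ (W : ℝ) + 1) hE0]
    calc (Xs.card : ℝ) ≤ 2 * H.card * (E.card + (W + 1) * c') := h1
      _ ≤ 2 * Real.log N ^ r * ((1 + (W + 1) * (C1 + 1)) * ((E.card : ℝ) + 1)) := by gcongr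
      _ = 2 * (1 + (W + 1) * (C1 + 1)) * Real.log N ^ r * ((E.card : ℝ) + 1) := by ring
      _ ≤ (12800 / c + 2 * (1 + (W + 1) * (C1 + 1))) * Real.log N ^ r * ((E.card : ℝ) + 1) := by
        gcongr
        have : 0 < 12800 / c := by positivity
        linarith

end Pool.Agent.Lib.MP_7b7e48_nt.LG
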