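import Pool.Agent.Lib.MP_7b7e48_nt.LG.Defs
import Pool.Agent.Lib.MP_7b7e48_nt.LG.PV

/-!
# Module QCH (45 minutes): the quadratic character as a real function

PROOF. `χ^2 = 1` gives `χ x = ±1` for units, `χ 0 = 0`. `per`: `((n + N : ℕ) : ZMod N) = n`. `pv`: `PV` (the
real part of a sum). `sum0`: `∑_x χ x = 0`, reindex `ZMod N` by `Finset.range N` (value at `0` is `0`).
-/

open Finset

namespace Pool.Agent.Lib.MP_7b7e48_nt.LG

theorem QCH_zero (N : ℕ) [NeZero N] (hN : N.Prime) (χ : DirichletCharacter ℂ N) (n : ℕ)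
    (h : N ∣ n) : χ (n : ZMod N) = 0 := by
  have h1 : ((n : ℕ) : ZMod N) = 0 := (ZMod.natCast_eq_zero_iff n N).2 h
  rw [h1]
  have : Fact N.Prime := ⟨hN⟩
  exact MulChar.map_zero χ

theorem QCH_val (N : ℕ) [NeZero N] (hN : N.Prime) (χ : DirichletCharacter ℂ N) (h1 : χ ^ 2 = 1)
    (n : ℕ) (h : ¬ N ∣ n) : χ (n : ZMod N) = 1 ∨ χ (n : ZMod N) = -1 := by
  have : Fact N.Prime := ⟨hN⟩
  have h2 : ((n : ℕ) : ZMod N) ≠ 0 := fun h3 => h ((ZMod.natCast_eq_zero_iff n N).1 h3)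
  have hu : IsUnit ((n : ℕ) : ZMod N) := isUnit_iff_ne_zero.2 h2
  have h3 : (χ (n : ZMod N)) ^ 2 = 1 := by
    have h4 : (χ ^ 2) (n : ZMod N) = (χ (n : ZMod N)) ^ 2 := MulChar.pow_apply' χ two_ne_zero _
    rw [← h4, h1, MulChar.one_apply hu]
  rcases mul_eq_zero.1 (show (χ (n : ZMod N) - 1) * (χ (n : ZMod N) + 1) = 0 by linear_combination h3) with h5 | h5
  · exact Or.inl (sub_eq_zero.1 h5)
  · exact Or.inr (eq_neg_of_add_eq_zero_left h5)

theorem QCHa (N : ℕ) [NeZero N] (hN : N.Prime) (χ : DirichletCharacter ℂ N) (h1 : χ ^ 2 = 1)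
    (n : ℕ) : χ (n : ZMod N) = (((χ (n : ZMod N)).re : ℝ) : ℂ) := by
  by_cases h : N ∣ n
  · rw [QCH_zero N hN χ n h]
    simp
  · rcases QCH_val N hN χ h1 n h with h2 | h2
    · rw [h2]
      simp
    · rw [h2]
      simp

theorem QCH (N : ℕ) [NeZero N] (hN : N.Prime) (h3 : 3 ≤ N) (χ : DirichletCharacter ℂ N)
    (h1 : χ ^ 2 = 1) (h2 : χ ≠ 1) : QC N (fun n => (χ (n : ZMod N)).re) := by
  have : Fact N.Prime := ⟨hN⟩
  refine ⟨?_, ?_, ?_, ?_, ?_, ?_⟩
  · intro m n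
    show (χ ((m * n : ℕ) : ZMod N)).re = (χ (m : ZMod N)).re * (χ (n : ZMod N)).re
    rw [Nat.cast_mul, map_mul, QCHa N hN χ h1 m, QCHa N hN χ h1 n, ← Complex.ofReal_mul,
      Complex.ofReal_re, Complex.ofReal_re, Complex.ofReal_re]
  · intro n hn
    show (χ (n : ZMod N)).re = 1 ∨ (χ (n : ZMod N)).re = -1
    rcases QCH_val N hN χ h1 n hn with h | h
    · rw [h]
      left
      simp
    · rw [h]
      right
      simp
  · intro n hn
    show (χ (n : ZMod N)).re = 0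
    rw [QCH_zero N hN χ n hn]
    simp
  · intro n
    show (χ ((n + N : ℕ) : ZMod N)).re = (χ (n : ZMod N)).re
    rw [Nat.cast_add, ZMod.natCast_self, add_zero]
  · intro Y
    have h4 := PV N hN h3 χ h2 Y
    have h5 : ∑ n ∈ Finset.Icc 1 Y, (χ (n : ZMod N)).re = (∑ n ∈ Finset.Icc 1 Y, χ (n : ZMod N)).re := by
      rw [Complex.re_sum]
    rw [h5]
    exact (Complex.abs_re_le_norm _).trans h4
  · have h4 : ∑ x : ZMod N, χ x = 0 := MulChar.sum_eq_zero_of_ne_one h2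
    have h5 : ∑ n ∈ Finset.range N, χ (n : ZMod N) = ∑ x : ZMod N, χ x := by
      refine Finset.sum_nbij' (fun n => (n : ZMod N)) (fun x => x.val) ?_ ?_ ?_ ?_ ?_
      · intro n _
        exact Finset.mem_univ _
      · intro x _
        exact Finset.mem_range.2 (ZMod.val_lt x)
      · intro n hn
        exact ZMod.val_cast_of_lt (Finset.mem_range.1 hn)
      · intro x _
        exact ZMod.natCast_zmod_val x
      · intro n _
        rfl
    have h6 : ∑ n ∈ Finset.range N, (χ (n : ZMod N)).re = (∑ n ∈ Finset.range N, χ (n : ZMod N)).re := by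
      rw [Complex.re_sum]
    rw [h6, h5, h4]
    simp

end Pool.Agent.Lib.MP_7b7e48_nt.LG
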