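import Pool.Agent.Lib.MP_7b7e48_nt.LG.Defs

/-!
# Module F2 (75 minutes): summatory function of `1 * c`

PROOF. Hyperbola method: for `1 ≤ A ≤ y`,
`∑_{m ≤ y} rr c m = ∑_{a ≤ A} c a * (y / a) + ∑_{b ≤ y/(A+1)} ∑_{A < a ≤ y/b} c a` (natural quotients). First
sum `= y ∑_{a ≤ A} c a/a + O(A) = y L + O(y √N log N / A + A)` (`LV`), second
`≤ (y/A) * 8 √N log N` (`pv` twice). For `y ≥ √N` take `A = ⌈√y N^(1/4)⌉ ≤ 2y`... (if `A > y` use the trivial
bound below, `y ≤ √N`). For `y ≤ √N`: `∑ rr ≤ ∑ τ(m) ≤ y (1 + log y)`, and `0 ≤ L ≤ 20 log N`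
(`LV` at `y = N`: `L ≤ ∑_{a ≤ N} 1/a + 8 √N log N/N`), all `≤ C √y N^(1/4) log N` because
`y ≤ √y N^(1/4)`. Only `y ≤ N` is needed.
-/

open Finset

namespace Pool.Agent.Lib.MP_7b7e48_nt.LG

theorem QC.abs_le {N : ℕ} {c : ℕ → ℝ} (hc : QC N c) (n : ℕ) : |c n| ≤ 1 := by
  by_cases h : N ∣ n
  · rw [hc.zero n h, abs_zero]
    exact zero_le_one
  · rcases hc.val n h with h1 | h1
    · rw [h1, abs_one]
    · rw [h1, abs_neg, abs_one]

private theorem F2_harm (n : ℕ) : ∑ a ∈ Finset.Icc 1 n, (1 : ℝ) / a ≤ 1 + Real.log n := by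
  have h := harmonic_le_one_add_log n
  rw [harmonic_eq_sum_Icc] at h
  push_cast at h
  refine le_trans (le_of_eq ?_) h
  exact Finset.sum_congr rfl fun a _ => one_div _

private theorem F2_log {N : ℕ} (h3 : 3 ≤ N) : 1 ≤ Real.log N := by
  have h1 : Real.log (Real.exp 1) ≤ Real.log N := by
    refine Real.log_le_log (Real.exp_pos _) ?_
    have h2 := Real.exp_one_lt_d9
    have h4 : (3 : ℝ) ≤ N := by exact_mod_cast h3
    linarith
  rwa [Real.log_exp] at h1

/-- A bound for `L`. -/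
theorem F2_L_le {N : ℕ} (h3 : 3 ≤ N) {c : ℕ → ℝ} {L : ℝ} (hc : QC N c) (hL : LV N c L) :
    L ≤ 10 * Real.log N := by
  have hlog := F2_log h3
  have hN : (0 : ℝ) < N := by
    have : 0 < N := by omega
    exact_mod_cast this
  have h1 := hL.2 N (by omega)
  have h2 : ∑ a ∈ Finset.Icc 1 N, c a / a ≤ 1 + Real.log N := by
    refine le_trans (Finset.sum_le_sum fun a ha => ?_) (F2_harm N)
    rw [Finset.mem_Icc] at ha
    have ha0 : (0 : ℝ) < a := by
      have : 0 < a := by omega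
      exact_mod_cast this
    exact div_le_div_of_nonneg_right ((le_abs_self _).trans (hc.abs_le a)) ha0.le
  have h4 : 8 * Real.sqrt N * Real.log N / N ≤ 8 * Real.log N := by
    rw [div_le_iff₀ hN]
    have h5 : Real.sqrt N ≤ N := by
      rw [Real.sqrt_le_left hN.le]
      have h6 : (1 : ℝ) ≤ N := by
        have : 1 ≤ N := by omega
        exact_mod_cast this
      nlinarith
    calc 8 * Real.sqrt N * Real.log N ≤ 8 * N * Real.log N := by
          refine mul_le_mul_of_nonneg_right ?_ (by linarith)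
          linarith
      _ = 8 * Real.log N * N := by ring
  have h5 := (abs_le.1 h1).1
  linarith

/-- Exchange of the two summations. -/
theorem F2_swap (c : ℕ → ℝ) (y : ℕ) :
    ∑ m ∈ Finset.Icc 1 y, rr c m = ∑ a ∈ Finset.Icc 1 y, c a * ((y / a : ℕ) : ℝ) := by
  classical
  have h1 : ∀ m ∈ Finset.Icc 1 y, rr c m =
      ∑ a ∈ Finset.Icc 1 y, if a ∣ m then c a else 0 := by
    intro m hm
    rw [Finset.mem_Icc] at hm
    unfold rr
    rw [← Finset.sum_filter]
    refine Finset.sum_congr ?_ fun _ _ => rfl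
    ext a
    rw [Nat.mem_divisors, Finset.mem_filter, Finset.mem_Icc]
    constructor
    · rintro ⟨h, _⟩
      have h2 := Nat.le_of_dvd (by omega) h
      have h4 : 0 < a := Nat.pos_of_dvd_of_pos h (by omega)
      exact ⟨⟨h4, by omega⟩, h⟩
    · rintro ⟨_, h⟩
      exact ⟨h, by omega⟩
  rw [Finset.sum_congr rfl h1, Finset.sum_comm]
  refine Finset.sum_congr rfl fun a _ => ?_
  rw [← Finset.sum_filter, Finset.sum_const, nsmul_eq_mul, mul_comm]
  congr 2
  have h2 := Nat.Ioc_filter_dvd_card_eq_div y a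
  exact h2

private theorem F2_count (a y : ℕ) (ha : 0 < a) :
    ((y / a : ℕ) : ℝ) = ∑ b ∈ Finset.Icc 1 y, if a * b ≤ y then (1 : ℝ) else 0 := by
  rw [← Finset.sum_filter, Finset.sum_const, nsmul_eq_mul, mul_one]
  have h1 : (Finset.Icc 1 y).filter (fun b => a * b ≤ y) = Finset.Icc 1 (y / a) := by
    ext b
    rw [Finset.mem_filter, Finset.mem_Icc, Finset.mem_Icc, Nat.le_div_iff_mul_le ha, mul_comm b a]
    constructor
    · rintro ⟨⟨h1, _⟩, h2⟩
      exact ⟨h1, h2⟩
    · rintro ⟨h1, h2⟩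
      refine ⟨⟨h1, ?_⟩, h2⟩
      exact (Nat.le_mul_of_pos_left b ha).trans h2
  rw [h1, Nat.card_Icc, Nat.add_sub_cancel]

/-- The hyperbola method. -/
private theorem F2_hyp {N : ℕ} (h3 : 3 ≤ N) {c : ℕ → ℝ} {L : ℝ} (hc : QC N c) (hL : LV N c L)
    {y A : ℕ} (hA : 1 ≤ A) (hAy : A ≤ y) :
    |∑ m ∈ Finset.Icc 1 y, rr c m - y * L| ≤
      16 * ((y : ℝ) / A) * (Real.sqrt N * Real.log N) + A := by
  classical
  have hlog := F2_log h3
  have hA0 : (0 : ℝ) < A := by exact_mod_cast hA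
  have hy0 : (0 : ℝ) ≤ y := Nat.cast_nonneg y
  set W : ℝ := Real.sqrt N * Real.log N with hW
  have hW0 : 0 ≤ W := mul_nonneg (Real.sqrt_nonneg _) (by linarith)
  have hsplit : Finset.Icc 1 y = Finset.Icc 1 A ∪ Finset.Ioc A y := by
    ext a
    rw [Finset.mem_union, Finset.mem_Icc, Finset.mem_Icc, Finset.mem_Ioc]
    omega
  have hdis : Disjoint (Finset.Icc 1 A) (Finset.Ioc A y) := by
    rw [Finset.disjoint_left]
    intro a h1 h2
    rw [Finset.mem_Icc] at h1
    rw [Finset.mem_Ioc] at h2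
    omega
  have e1 : ∑ m ∈ Finset.Icc 1 y, rr c m =
      ∑ a ∈ Finset.Icc 1 A, c a * ((y / a : ℕ) : ℝ) +
      ∑ a ∈ Finset.Ioc A y, c a * ((y / a : ℕ) : ℝ) := by
    rw [F2_swap]
    nth_rewrite 1 [hsplit]
    rw [Finset.sum_union hdis]
  -- the first part
  have h1 : |∑ a ∈ Finset.Icc 1 A, c a * ((y / a : ℕ) : ℝ) -
      ∑ a ∈ Finset.Icc 1 A, c a * ((y : ℝ) / a)| ≤ A := by
    rw [← Finset.sum_sub_distrib]
    refine (Finset.abs_sum_le_sum_abs _ _).trans ?_
    have h2 : ∀ a ∈ Finset.Icc 1 A, |c a * ((y / a : ℕ) : ℝ) - c a * ((y : ℝ) / a)| ≤ 1 := by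
      intro a ha
      rw [Finset.mem_Icc] at ha
      have ha0 : (0 : ℝ) < a := by
        have : 0 < a := by omega
        exact_mod_cast this
      rw [← mul_sub, abs_mul]
      have h4 : |((y / a : ℕ) : ℝ) - (y : ℝ) / a| ≤ 1 := by
        have h5 : ((y / a : ℕ) : ℝ) ≤ (y : ℝ) / a := Nat.cast_div_le
        have h6 : (y : ℝ) / a < ((y / a : ℕ) : ℝ) + 1 := by
          rw [div_lt_iff₀ ha0]
          have h7 : y < (y / a + 1) * a := by
            have := Nat.lt_div_mul_add (a := y) (b := a) (by omega)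
            calc y < y / a * a + a := this
              _ = (y / a + 1) * a := by ring
          exact_mod_cast h7
        rw [abs_le]
        constructor <;> linarith
      calc |c a| * |((y / a : ℕ) : ℝ) - (y : ℝ) / a| ≤ 1 * 1 :=
            mul_le_mul (hc.abs_le a) h4 (abs_nonneg _) zero_le_one
        _ = 1 := one_mul 1
    calc ∑ a ∈ Finset.Icc 1 A, |c a * ((y / a : ℕ) : ℝ) - c a * ((y : ℝ) / a)| ≤
        ∑ _a ∈ Finset.Icc 1 A, (1 : ℝ) := Finset.sum_le_sum h2
      _ = A := by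
          rw [Finset.sum_const, Nat.card_Icc, nsmul_eq_mul, mul_one]
          simp
  have h2 : |∑ a ∈ Finset.Icc 1 A, c a * ((y : ℝ) / a) - y * L| ≤ 8 * ((y : ℝ) / A) * W := by
    have e2 : ∑ a ∈ Finset.Icc 1 A, c a * ((y : ℝ) / a) =
        y * ∑ a ∈ Finset.Icc 1 A, c a / a := by
      rw [Finset.mul_sum]
      exact Finset.sum_congr rfl fun a _ => by ring
    rw [e2, ← mul_sub, abs_mul, abs_of_nonneg hy0]
    calc (y : ℝ) * |∑ a ∈ Finset.Icc 1 A, c a / a - L| ≤
        y * (8 * Real.sqrt N * Real.log N / A) := mul_le_mul_of_nonneg_left (hL.2 A hA) hy0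
      _ = 8 * ((y : ℝ) / A) * W := by
          rw [hW]
          ring
  -- the second part
  have h4 : |∑ a ∈ Finset.Ioc A y, c a * ((y / a : ℕ) : ℝ)| ≤ 8 * ((y : ℝ) / A) * W := by
    have e3 : ∑ a ∈ Finset.Ioc A y, c a * ((y / a : ℕ) : ℝ) =
        ∑ b ∈ Finset.Icc 1 y, ∑ a ∈ Finset.Ioc A y, if a * b ≤ y then c a else 0 := by
      rw [Finset.sum_comm]
      refine Finset.sum_congr rfl fun a ha => ?_
      rw [Finset.mem_Ioc] at ha
      rw [F2_count a y (by omega), Finset.mul_sum]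
      exact Finset.sum_congr rfl fun b _ => by rw [mul_ite, mul_one, mul_zero]
    have h5 : ∀ b ∈ Finset.Icc 1 y, |∑ a ∈ Finset.Ioc A y, if a * b ≤ y then c a else 0| ≤
        if A * b ≤ y then 8 * W else 0 := by
      intro b hb
      rw [Finset.mem_Icc] at hb
      have e4 : (∑ a ∈ Finset.Ioc A y, if a * b ≤ y then c a else 0) =
          ∑ a ∈ Finset.Ioc A (y / b), c a := by
        rw [← Finset.sum_filter]
        refine Finset.sum_congr ?_ fun _ _ => rfl
        ext a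
        rw [Finset.mem_filter, Finset.mem_Ioc, Finset.mem_Ioc, Nat.le_div_iff_mul_le (by omega)]
        constructor
        · rintro ⟨⟨h1, _⟩, h2⟩
          exact ⟨h1, h2⟩
        · rintro ⟨h1, h2⟩
          exact ⟨⟨h1, (Nat.le_mul_of_pos_right a (by omega)).trans h2⟩, h2⟩
      rw [e4]
      split_ifs with h6
      · have hAb : A ≤ y / b := by
          rw [Nat.le_div_iff_mul_le (by omega)]
          exact h6
        have e5 : ∑ a ∈ Finset.Icc 1 (y / b), c a =
            ∑ a ∈ Finset.Icc 1 A, c a + ∑ a ∈ Finset.Ioc A (y / b), c a := by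
          rw [← Finset.sum_union]
          · refine Finset.sum_congr ?_ fun _ _ => rfl
            ext a
            rw [Finset.mem_union, Finset.mem_Icc, Finset.mem_Icc, Finset.mem_Ioc]
            omega
          · rw [Finset.disjoint_left]
            intro a h1 h2
            rw [Finset.mem_Icc] at h1
            rw [Finset.mem_Ioc] at h2
            omega
        have h7 := abs_le.1 (hc.pv (y / b))
        have h8 := abs_le.1 (hc.pv A)
        have e6 : 4 * Real.sqrt N * Real.log N = 4 * W := by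
          rw [hW]
          ring
        rw [e6] at h7 h8
        rw [abs_le]
        constructor <;> linarith [h7.1, h7.2, h8.1, h8.2]
      · have h7 : Finset.Ioc A (y / b) = ∅ := by
          rw [Finset.Ioc_eq_empty_iff]
          intro h8
          apply h6
          have h9 : A ≤ y / b := h8.le
          rwa [Nat.le_div_iff_mul_le (by omega)] at h9
        rw [h7, Finset.sum_empty, abs_zero]
    rw [e3]
    refine (Finset.abs_sum_le_sum_abs _ _).trans ((Finset.sum_le_sum h5).trans ?_)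
    rw [← Finset.sum_filter, Finset.sum_const, nsmul_eq_mul]
    have h6 : (((Finset.Icc 1 y).filter (fun b => A * b ≤ y)).card : ℝ) ≤ (y : ℝ) / A := by
      have h7 := F2_count A y (by omega)
      rw [← Finset.sum_filter, Finset.sum_const, nsmul_eq_mul, mul_one] at h7
      rw [← h7]
      exact Nat.cast_div_le
    calc (((Finset.Icc 1 y).filter (fun b => A * b ≤ y)).card : ℝ) * (8 * W) ≤
        (y : ℝ) / A * (8 * W) := mul_le_mul_of_nonneg_right h6 (by linarith)
      _ = 8 * ((y : ℝ) / A) * W := by ring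
  rw [e1]
  have e7 : ∑ a ∈ Finset.Icc 1 A, c a * ((y / a : ℕ) : ℝ) +
      ∑ a ∈ Finset.Ioc A y, c a * ((y / a : ℕ) : ℝ) - y * L =
      (∑ a ∈ Finset.Icc 1 A, c a * ((y / a : ℕ) : ℝ) -
      ∑ a ∈ Finset.Icc 1 A, c a * ((y : ℝ) / a)) +
      (∑ a ∈ Finset.Icc 1 A, c a * ((y : ℝ) / a) - y * L) +
      ∑ a ∈ Finset.Ioc A y, c a * ((y / a : ℕ) : ℝ) := by ring
  rw [e7]
  calc _ ≤ _ := (abs_add_le _ _).trans (add_le_add (abs_add_le _ _) le_rfl)
    _ ≤ A + 8 * ((y : ℝ) / A) * W + 8 * ((y : ℝ) / A) * W :=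
        add_le_add (add_le_add h1 h2) h4
    _ = 16 * ((y : ℝ) / A) * W + A := by ring

private theorem F2_small {N : ℕ} (h3 : 3 ≤ N) {c : ℕ → ℝ} {L : ℝ} (hc : QC N c) (hL : LV N c L)
    {y : ℕ} (hy1 : 1 ≤ y) (hy : y ≤ N) :
    |∑ m ∈ Finset.Icc 1 y, rr c m - y * L| ≤ 12 * y * Real.log N := by
  have hlog := F2_log h3
  have hy0 : (0 : ℝ) < y := by exact_mod_cast hy1
  have h1 : |∑ m ∈ Finset.Icc 1 y, rr c m| ≤ y * (1 + Real.log y) := by
    rw [F2_swap]
    refine (Finset.abs_sum_le_sum_abs _ _).trans ?_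
    have h2 : ∀ a ∈ Finset.Icc 1 y, |c a * ((y / a : ℕ) : ℝ)| ≤ y * (1 / (a : ℝ)) := by
      intro a ha
      rw [abs_mul, abs_of_nonneg (Nat.cast_nonneg _ : (0 : ℝ) ≤ ((y / a : ℕ) : ℝ))]
      have h4 : ((y / a : ℕ) : ℝ) ≤ (y : ℝ) / a := Nat.cast_div_le
      calc |c a| * ((y / a : ℕ) : ℝ) ≤ 1 * ((y : ℝ) / a) :=
            mul_le_mul (hc.abs_le a) h4 (Nat.cast_nonneg _) zero_le_one
        _ = y * (1 / (a : ℝ)) := by ring
    refine (Finset.sum_le_sum h2).trans ?_
    rw [← Finset.mul_sum]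
    exact mul_le_mul_of_nonneg_left (F2_harm y) hy0.le
  have h2 : Real.log y ≤ Real.log N := Real.log_le_log hy0 (by exact_mod_cast hy)
  have h4 : |(y : ℝ) * L| ≤ y * (10 * Real.log N) := by
    rw [abs_mul, abs_of_pos hy0, abs_of_nonneg hL.1]
    exact mul_le_mul_of_nonneg_left (F2_L_le h3 hc hL) hy0.le
  have h5 : |∑ m ∈ Finset.Icc 1 y, rr c m - y * L| ≤
      |∑ m ∈ Finset.Icc 1 y, rr c m| + |(y : ℝ) * L| := abs_sub _ _
  have h6 : (y : ℝ) * (1 + Real.log y) ≤ y * (2 * Real.log N) :=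
    mul_le_mul_of_nonneg_left (by linarith) hy0.le
  calc |∑ m ∈ Finset.Icc 1 y, rr c m - y * L| ≤ y * (2 * Real.log N) + y * (10 * Real.log N) := by
        linarith
    _ = 12 * y * Real.log N := by ring

theorem F2 : ∃ C : ℝ, 0 < C ∧ ∀ (N : ℕ), 3 ≤ N → ∀ (c : ℕ → ℝ) (L : ℝ), QC N c → LV N c L →
    ∀ y : ℕ, 1 ≤ y → y ≤ N →
    |∑ m ∈ Finset.Icc 1 y, rr c m - y * L| ≤
      C * Real.sqrt y * (N : ℝ) ^ ((1 : ℝ) / 4) * Real.log N := by
  refine ⟨18, by norm_num, ?_⟩
  intro N h3 c L hc hL y hy1 hy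
  have hlog := F2_log h3
  have hN0 : (0 : ℝ) < N := by
    have : 0 < N := by omega
    exact_mod_cast this
  have hN1 : (1 : ℝ) ≤ N := by
    have : 1 ≤ N := by omega
    exact_mod_cast this
  have hy0 : (0 : ℝ) < y := by exact_mod_cast hy1
  have hy1' : (1 : ℝ) ≤ y := by exact_mod_cast hy1
  set q : ℝ := (N : ℝ) ^ ((1 : ℝ) / 4) with hq
  have hq0 : 0 < q := Real.rpow_pos_of_pos hN0 _
  have hq1 : 1 ≤ q := Real.one_le_rpow hN1 (by norm_num)
  have hqq : q * q = Real.sqrt N := by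
    rw [hq, ← Real.rpow_add hN0, Real.sqrt_eq_rpow]
    norm_num
  have hs0 : 0 < Real.sqrt y := Real.sqrt_pos.2 hy0
  have hs1 : 1 ≤ Real.sqrt y := Real.one_le_sqrt.2 hy1'
  have hss : Real.sqrt y * Real.sqrt y = y := Real.mul_self_sqrt hy0.le
  have hlog0 : 0 < Real.log N := by linarith
  rcases le_or_gt (Real.sqrt y) q with h | h
  · refine (F2_small h3 hc hL hy1 hy).trans ?_
    have h1 : (y : ℝ) ≤ Real.sqrt y * q := by
      calc (y : ℝ) = Real.sqrt y * Real.sqrt y := hss.symm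
        _ ≤ Real.sqrt y * q := mul_le_mul_of_nonneg_left h hs0.le
    have h2 : 12 * (y : ℝ) * Real.log N ≤ 12 * (Real.sqrt y * q) * Real.log N :=
      mul_le_mul_of_nonneg_right (by linarith) hlog0.le
    have h4 : 0 ≤ Real.sqrt y * q * Real.log N := by positivity
    nlinarith
  · set A : ℕ := ⌈Real.sqrt y * q⌉₊ with hA
    have hsq0 : 0 < Real.sqrt y * q := by positivity
    have hA1 : 1 ≤ A := by
      rw [hA]
      exact Nat.one_le_iff_ne_zero.2 (Nat.ceil_pos.2 hsq0).ne'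
    have hAy : A ≤ y := by
      rw [hA, Nat.ceil_le]
      calc Real.sqrt y * q ≤ Real.sqrt y * Real.sqrt y := mul_le_mul_of_nonneg_left h.le hs0.le
        _ = y := hss
    have hAl : Real.sqrt y * q ≤ A := Nat.le_ceil _
    have hAu : (A : ℝ) ≤ 2 * (Real.sqrt y * q) := by
      have h1 : (A : ℝ) < Real.sqrt y * q + 1 := Nat.ceil_lt_add_one hsq0.le
      have h2 : 1 ≤ Real.sqrt y * q := by
        calc (1 : ℝ) = 1 * 1 := (one_mul 1).symm
          _ ≤ Real.sqrt y * q := mul_le_mul hs1 hq1 zero_le_one hs0.le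
      linarith
    refine (F2_hyp h3 hc hL hA1 hAy).trans ?_
    have h1 : (y : ℝ) / A * Real.sqrt N ≤ Real.sqrt y * q := by
      have hA0 : (0 : ℝ) < A := lt_of_lt_of_le hsq0 hAl
      rw [div_mul_eq_mul_div, div_le_iff₀ hA0]
      calc (y : ℝ) * Real.sqrt N = (Real.sqrt y * Real.sqrt y) * (q * q) := by
            rw [hss, hqq]
        _ = Real.sqrt y * q * (Real.sqrt y * q) := by ring
        _ ≤ Real.sqrt y * q * A := mul_le_mul_of_nonneg_left hAl hsq0.le
    have h2 : 16 * ((y : ℝ) / A) * (Real.sqrt N * Real.log N) ≤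
        16 * (Real.sqrt y * q) * Real.log N := by
      calc 16 * ((y : ℝ) / A) * (Real.sqrt N * Real.log N) =
          16 * ((y : ℝ) / A * Real.sqrt N) * Real.log N := by ring
        _ ≤ 16 * (Real.sqrt y * q) * Real.log N :=
          mul_le_mul_of_nonneg_right (by linarith) hlog0.le
    have h4 : 2 * (Real.sqrt y * q) ≤ 2 * (Real.sqrt y * q) * Real.log N := by
      nlinarith
    calc _ ≤ 16 * (Real.sqrt y * q) * Real.log N + 2 * (Real.sqrt y * q) * Real.log N :=
          add_le_add h2 (hAu.trans h4)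
      _ = 18 * Real.sqrt y * q * Real.log N := by ring

end Pool.Agent.Lib.MP_7b7e48_nt.LG
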