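import Pool.Agent.Lib.MP_7b7e48_nt.LG.Defs
import Pool.Agent.Lib.MP_45349e_nt.LS.LamB

/-!
# Module F3 (90 minutes): identities for `rho`

All `n` satisfy `1 ≤ n < N`, `N` prime, so `c p = ±1` for every prime `p ∣ n`.
PROOF of `F3a`. Induction on coprime prime powers (`Nat.recOnPosPrimePosCoprime` or strong induction with
`n = p^k m`, `p ∤ m`): both sides are multiplicative on coprime factors of `n < N`. At `p^k`:
`rr c (p^k) = ∑_{i ≤ k} (c p)^i` is `k+1` if `c p = 1`; `1` (`k` even) or `0` (`k` odd) if `c p = -1`;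
`rho c (p^k) = 2` (`c p = 1`, `k ≥ 1`), `0` (`c p = -1`, `k ≥ 1`), `rho c 1 = 1`. (Squares `d^2 ∣ p^k`:
`d = p^i`, `2 i ≤ k`.) `F3b`: the inverse relation: insert `F3a` and use `∑_{e ∣ f} μ(e) = [f = 1]`, or again
by multiplicativity. `F3c`: at `p^k`: left side `(-c p)^k = (lam p * c p)^k`: for `c p = -1` it is `1`,
right side `1`; for `c p = 1` left `(-1)^k`, right `1 + ∑_{1 ≤ i ≤ k} 2 (-1)^i = (-1)^k`.
-/

open Finset
open Pool.Agent.Lib.MP_45349e_nt.LS (lam)

namespace Pool.Agent.Lib.MP_7b7e48_nt.LG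

open ArithmeticFunction (IsMultiplicative)

/-- `c` as an arithmetic function. -/
private noncomputable def fc (c : ℕ → ℝ) (h : c 0 = 0) : ArithmeticFunction ℝ := ⟨c, h⟩

/-- `rho c` as an arithmetic function. -/
private noncomputable def fr (c : ℕ → ℝ) : ArithmeticFunction ℝ :=
  ⟨fun n => if n = 0 then 0 else rho c n, if_pos rfl⟩

/-- `lam` as an arithmetic function. -/
private noncomputable def fm : ArithmeticFunction ℝ :=
  ⟨fun n => if n = 0 then 0 else lam n, if_pos rfl⟩

/-- `u (√n)` at the squares. -/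
private noncomputable def SQ (u : ℕ → ℝ) : ArithmeticFunction ℝ :=
  ⟨fun n => if n = 0 then 0 else if (Nat.sqrt n) ^ 2 = n then u (Nat.sqrt n) else 0, if_pos rfl⟩

/-- The indicator function of the numbers which are not divisible by `N`. -/
private noncomputable def on (N : ℕ) : ArithmeticFunction ℝ :=
  ⟨fun n => if N ∣ n then 0 else 1, if_pos (dvd_zero N)⟩

private theorem on_mult {N : ℕ} (hN : N.Prime) : (on N).IsMultiplicative := by
  constructor
  · change (if N ∣ 1 then (0 : ℝ) else 1) = 1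
    rw [if_neg]
    intro h
    exact hN.one_lt.ne' (Nat.dvd_one.1 h)
  · intro m n _
    change (if N ∣ m * n then (0 : ℝ) else 1) = (if N ∣ m then (0 : ℝ) else 1) *
      (if N ∣ n then (0 : ℝ) else 1)
    by_cases hm : N ∣ m
    · rw [if_pos (hm.mul_right n), if_pos hm, zero_mul]
    · by_cases hn : N ∣ n
      · rw [if_pos (hn.mul_left m), if_pos hn, mul_zero]
      · rw [if_neg hm, if_neg hn, if_neg, mul_one]
        intro h
        rcases hN.dvd_mul.1 h with h | h
        · exact hm h
        · exact hn h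

private theorem rho_one (c : ℕ → ℝ) : rho c 1 = 1 := by
  unfold rho
  rw [Nat.primeFactors_one, if_pos, Finset.card_empty, pow_zero]
  intro p hp
  exact absurd hp (Finset.notMem_empty p)

private theorem rho_mul (c : ℕ → ℝ) {m n : ℕ} (h : m.Coprime n) :
    rho c (m * n) = rho c m * rho c n := by
  unfold rho
  rw [h.primeFactors_mul, Finset.card_union_of_disjoint h.disjoint_primeFactors, pow_add]
  by_cases h1 : ∀ p ∈ m.primeFactors, c p = 1
  · by_cases h2 : ∀ p ∈ n.primeFactors, c p = 1
    · rw [if_pos h1, if_pos h2, if_pos]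
      intro p hp
      rcases Finset.mem_union.1 hp with hp | hp
      · exact h1 p hp
      · exact h2 p hp
    · rw [if_neg h2, mul_zero, if_neg]
      intro h3
      exact h2 fun p hp => h3 p (Finset.mem_union_right _ hp)
  · rw [if_neg h1, zero_mul, if_neg]
    intro h3
    exact h1 fun p hp => h3 p (Finset.mem_union_left _ hp)

private theorem fr_mult (c : ℕ → ℝ) : (fr c).IsMultiplicative := by
  rw [ArithmeticFunction.IsMultiplicative.iff_ne_zero]
  constructor
  · change (if (1 : ℕ) = 0 then (0 : ℝ) else rho c 1) = 1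
    rw [if_neg one_ne_zero, rho_one]
  · intro m n hm hn h
    change (if m * n = 0 then (0 : ℝ) else rho c (m * n)) =
      (if m = 0 then (0 : ℝ) else rho c m) * (if n = 0 then (0 : ℝ) else rho c n)
    rw [if_neg (mul_ne_zero hm hn), if_neg hm, if_neg hn, rho_mul c h]

private theorem fm_mult : fm.IsMultiplicative := by
  rw [ArithmeticFunction.IsMultiplicative.iff_ne_zero]
  constructor
  · change (if (1 : ℕ) = 0 then (0 : ℝ) else lam 1) = 1
    rw [if_neg one_ne_zero, MP_45349e_nt.LS.lam_one]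
  · intro m n hm hn _
    change (if m * n = 0 then (0 : ℝ) else lam (m * n)) =
      (if m = 0 then (0 : ℝ) else lam m) * (if n = 0 then (0 : ℝ) else lam n)
    rw [if_neg (mul_ne_zero hm hn), if_neg hm, if_neg hn, MP_45349e_nt.LS.lam_mul m n hm hn]

private theorem SQ_mult {u : ℕ → ℝ} (h1 : u 1 = 1)
    (hu : ∀ a b : ℕ, a.Coprime b → u (a * b) = u a * u b) : (SQ u).IsMultiplicative := by
  rw [ArithmeticFunction.IsMultiplicative.iff_ne_zero]
  constructor
  · change (if (1 : ℕ) = 0 then (0 : ℝ) else if (Nat.sqrt 1) ^ 2 = 1 then u (Nat.sqrt 1) else 0) = 1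
    have h : Nat.sqrt 1 = 1 := by
      have := Nat.sqrt_eq' 1
      simpa using this
    rw [if_neg one_ne_zero, h, if_pos (one_pow 2), h1]
  · intro m n hm hn h
    change (if m * n = 0 then (0 : ℝ) else
        if (Nat.sqrt (m * n)) ^ 2 = m * n then u (Nat.sqrt (m * n)) else 0) =
      (if m = 0 then (0 : ℝ) else if (Nat.sqrt m) ^ 2 = m then u (Nat.sqrt m) else 0) *
      (if n = 0 then (0 : ℝ) else if (Nat.sqrt n) ^ 2 = n then u (Nat.sqrt n) else 0)
    rw [if_neg (mul_ne_zero hm hn), if_neg hm, if_neg hn]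
    by_cases h2 : (Nat.sqrt (m * n)) ^ 2 = m * n
    · obtain ⟨a, ha⟩ : ∃ a, m = a ^ 2 :=
        exists_eq_pow_of_mul_eq_pow (by rw [show gcd m n = 1 from h]; exact isUnit_one) h2.symm
      obtain ⟨b, hb⟩ : ∃ b, n = b ^ 2 :=
        exists_eq_pow_of_mul_eq_pow (by rw [show gcd n m = 1 from h.symm]; exact isUnit_one)
          ((mul_comm n m).trans h2.symm)
      have e1 : Nat.sqrt m = a := by rw [ha, Nat.sqrt_eq']
      have e2 : Nat.sqrt n = b := by rw [hb, Nat.sqrt_eq']
      have e3 : Nat.sqrt (m * n) = a * b := by rw [ha, hb, ← mul_pow, Nat.sqrt_eq']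
      rw [if_pos h2, e1, e2, e3, if_pos ha.symm, if_pos hb.symm, hu]
      rw [ha, hb] at h
      exact Nat.Coprime.of_dvd (dvd_pow_self a two_ne_zero) (dvd_pow_self b two_ne_zero) h
    · rw [if_neg h2]
      by_cases h4 : (Nat.sqrt m) ^ 2 = m
      · by_cases h5 : (Nat.sqrt n) ^ 2 = n
        · exfalso
          apply h2
          have e3 : Nat.sqrt (m * n) = Nat.sqrt m * Nat.sqrt n := by
            conv_lhs => rw [← h4, ← h5, ← mul_pow, Nat.sqrt_eq']
          rw [e3, mul_pow, h4, h5]
        · rw [if_neg h5, mul_zero]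
      · rw [if_neg h4, zero_mul]

private theorem SQ_mul (u : ℕ → ℝ) (g : ArithmeticFunction ℝ) {n : ℕ} (hn : n ≠ 0) :
    (SQ u * g) n = ∑ d ∈ (Finset.Icc 1 n).filter (fun d => d ^ 2 ∣ n), u d * g (n / d ^ 2) := by
  rw [ArithmeticFunction.mul_apply, Nat.sum_divisorsAntidiagonal (fun a b => SQ u a * g b)]
  set T := (Finset.Icc 1 n).filter (fun d => d ^ 2 ∣ n) with hT
  have hsub : T.image (fun d => d ^ 2) ⊆ n.divisors := by
    intro a ha
    rw [Finset.mem_image] at ha
    obtain ⟨d, hd, rfl⟩ := ha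
    rw [hT, Finset.mem_filter] at hd
    exact Nat.mem_divisors.2 ⟨hd.2, hn⟩
  rw [← Finset.sum_subset hsub]
  · rw [Finset.sum_image]
    · refine Finset.sum_congr rfl fun d hd => ?_
      rw [hT, Finset.mem_filter, Finset.mem_Icc] at hd
      congr 1
      change (if d ^ 2 = 0 then (0 : ℝ) else
        if (Nat.sqrt (d ^ 2)) ^ 2 = d ^ 2 then u (Nat.sqrt (d ^ 2)) else 0) = u d
      have h1 : d ^ 2 ≠ 0 := pow_ne_zero 2 (by omega)
      rw [if_neg h1, Nat.sqrt_eq', if_pos rfl]
    · intro a _ b _ hab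
      exact Nat.pow_left_injective two_ne_zero hab
  · intro a ha hna
    have ha' := Nat.mem_divisors.1 ha
    have h0 : a ≠ 0 := by
      rintro rfl
      exact hn (zero_dvd_iff.1 ha'.1)
    have h1 : ¬ (Nat.sqrt a) ^ 2 = a := by
      intro h2
      apply hna
      rw [Finset.mem_image]
      refine ⟨Nat.sqrt a, ?_, h2⟩
      rw [hT, Finset.mem_filter, Finset.mem_Icc]
      refine ⟨⟨?_, ?_⟩, ?_⟩
      · rw [Nat.one_le_iff_ne_zero]
        intro h3
        rw [h3] at h2
        exact h0 h2.symm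
      · exact (Nat.sqrt_le_self a).trans (Nat.le_of_dvd (Nat.pos_of_ne_zero hn) ha'.1)
      · rw [h2]
        exact ha'.1
    have h2 : SQ u a = 0 := by
      change (if a = 0 then (0 : ℝ) else
        if (Nat.sqrt a) ^ 2 = a then u (Nat.sqrt a) else 0) = 0
      rw [if_neg h0, if_neg h1]
    rw [h2, zero_mul]

private theorem SQ_pow (u : ℕ → ℝ) (g : ArithmeticFunction ℝ) {p : ℕ} (hp : p.Prime) (k : ℕ) :
    (SQ u * g) (p ^ k) = ∑ i ∈ Finset.range (k / 2 + 1), u (p ^ i) * g (p ^ (k - 2 * i)) := by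
  rw [SQ_mul u g (pow_ne_zero k hp.ne_zero)]
  have h1 : (Finset.Icc 1 (p ^ k)).filter (fun d => d ^ 2 ∣ p ^ k) =
      (Finset.range (k / 2 + 1)).image (fun i => p ^ i) := by
    ext d
    rw [Finset.mem_filter, Finset.mem_Icc, Finset.mem_image]
    constructor
    · rintro ⟨_, h2⟩
      have h3 : d ∣ p ^ k := (dvd_pow_self d two_ne_zero).trans h2
      obtain ⟨i, hi, rfl⟩ := (Nat.dvd_prime_pow hp).1 h3
      refine ⟨i, ?_, rfl⟩
      rw [← pow_mul, Nat.pow_dvd_pow_iff_le_right hp.one_lt] at h2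
      rw [Finset.mem_range]
      omega
    · rintro ⟨i, hi, rfl⟩
      rw [Finset.mem_range] at hi
      refine ⟨⟨Nat.one_le_pow _ _ hp.pos, Nat.pow_le_pow_right hp.pos (by omega)⟩, ?_⟩
      rw [← pow_mul]
      exact pow_dvd_pow p (by omega)
  rw [h1, Finset.sum_image]
  · refine Finset.sum_congr rfl fun i hi => ?_
    rw [Finset.mem_range] at hi
    rw [← pow_mul, Nat.pow_div (by omega) hp.pos, mul_comm i 2]
  · intro a _ b _ hab
    exact Nat.pow_right_injective hp.two_le hab

private theorem fr_pow (c : ℕ → ℝ) {p : ℕ} (hp : p.Prime) (k : ℕ) :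
    fr c (p ^ k) = if k = 0 then 1 else if c p = 1 then 2 else 0 := by
  change (if p ^ k = 0 then (0 : ℝ) else rho c (p ^ k)) = _
  rw [if_neg (pow_ne_zero k hp.ne_zero)]
  by_cases hk : k = 0
  · rw [if_pos hk, hk, pow_zero, rho_one]
  · rw [if_neg hk]
    unfold rho
    rw [Nat.primeFactors_prime_pow hk hp, Finset.card_singleton, pow_one]
    by_cases h : c p = 1
    · rw [if_pos h, if_pos]
      intro q hq
      rw [Finset.mem_singleton.1 hq]
      exact h
    · rw [if_neg h, if_neg]
      intro h2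
      exact h (h2 p (Finset.mem_singleton_self p))

private theorem c_one {N : ℕ} (hN : N.Prime) {c : ℕ → ℝ} (hc : QC N c) : c 1 = 1 := by
  have h1 : ¬ N ∣ 1 := fun h => hN.one_lt.ne' (Nat.dvd_one.1 h)
  have h2 := hc.mul 1 1
  rw [one_mul] at h2
  rcases hc.val 1 h1 with h | h
  · exact h
  · rw [h] at h2
    norm_num at h2

private theorem c_pow {N : ℕ} (hN : N.Prime) {c : ℕ → ℝ} (hc : QC N c) (p k : ℕ) :
    c (p ^ k) = (c p) ^ k := by
  induction k with
  | zero => rw [pow_zero, pow_zero, c_one hN hc]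
  | succ k ih => rw [pow_succ, pow_succ, hc.mul, ih]

private theorem fc_mult {N : ℕ} (hN : N.Prime) {c : ℕ → ℝ} (hc : QC N c)
    (h0 : c 0 = 0) : (fc c h0).IsMultiplicative :=
  ⟨c_one hN hc, fun {m n} _ => hc.mul m n⟩

private theorem rr_pow {N : ℕ} (hN : N.Prime) {c : ℕ → ℝ} (hc : QC N c) (h0 : c 0 = 0)
    {p : ℕ} (hp : p.Prime) (k : ℕ) :
    (fc c h0 * (ArithmeticFunction.zeta : ArithmeticFunction ℝ)) (p ^ k) =
      ∑ j ∈ Finset.range (k + 1), (c p) ^ j := by
  rw [ArithmeticFunction.coe_mul_zeta_apply, Nat.sum_divisors_prime_pow hp]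
  exact Finset.sum_congr rfl fun j _ => c_pow hN hc p j

private theorem zeta_mult : ((ArithmeticFunction.zeta : ArithmeticFunction ℝ)).IsMultiplicative :=
  ArithmeticFunction.isMultiplicative_zeta.natCast

private theorem on_one {N n : ℕ} (h1 : 1 ≤ n) (h2 : n < N) : on N n = 1 := by
  change (if N ∣ n then (0 : ℝ) else 1) = 1
  rw [if_neg]
  intro h
  have := Nat.le_of_dvd (by omega) h
  omega

/-- The principle: two multiplicative functions which agree at the powers of the primes `p ≠ N`
agree at all `1 ≤ n < N`. -/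
private theorem agree {N : ℕ} (hN : N.Prime) {A B : ArithmeticFunction ℝ}
    (hA : A.IsMultiplicative) (hB : B.IsMultiplicative)
    (h : ∀ p k : ℕ, p.Prime → p ≠ N → A (p ^ k) = B (p ^ k)) {n : ℕ} (h1 : 1 ≤ n) (h2 : n < N) :
    A n = B n := by
  have h3 : (on N).pmul A = (on N).pmul B := by
    rw [ArithmeticFunction.IsMultiplicative.eq_iff_eq_on_prime_powers _ ((on_mult hN).pmul hA) _
      ((on_mult hN).pmul hB)]
    intro p k hp
    rw [ArithmeticFunction.pmul_apply, ArithmeticFunction.pmul_apply]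
    by_cases hpN : p = N
    · rcases Nat.eq_zero_or_pos k with hk | hk
      · rw [hk, pow_zero, hA.map_one, hB.map_one]
      · have : on N (p ^ k) = 0 := by
          change (if N ∣ p ^ k then (0 : ℝ) else 1) = 0
          rw [if_pos]
          rw [hpN]
          exact dvd_pow_self N hk.ne'
        rw [this, zero_mul, zero_mul]
    · rw [h p k hp hpN]
  have h4 := DFunLike.congr_fun h3 n
  rw [ArithmeticFunction.pmul_apply, ArithmeticFunction.pmul_apply, on_one h1 h2, one_mul,
    one_mul] at h4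
  exact h4

private theorem val_prime {N : ℕ} (hN : N.Prime) {c : ℕ → ℝ} (hc : QC N c) {p : ℕ}
    (hp : p.Prime) (hpN : p ≠ N) : c p = 1 ∨ c p = -1 := by
  refine hc.val p fun h => hpN ?_
  exact ((Nat.prime_dvd_prime_iff_eq hN hp).1 h).symm

theorem F3a (N : ℕ) (hN : N.Prime) (c : ℕ → ℝ) (hc : QC N c) (n : ℕ) (h1 : 1 ≤ n) (h2 : n < N) :
    rr c n = ∑ d ∈ (Finset.Icc 1 n).filter (fun d => d ^ 2 ∣ n), rho c (n / d ^ 2) := by
  have h0 : c 0 = 0 := hc.zero 0 (dvd_zero N)
  have hS : (SQ fun _ => 1).IsMultiplicative := SQ_mult rfl fun _ _ _ => (one_mul 1).symm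
  have key : (fc c h0 * (ArithmeticFunction.zeta : ArithmeticFunction ℝ)) n =
      ((SQ fun _ => 1) * fr c) n := by
    refine agree hN ((fc_mult hN hc h0).mul zeta_mult) (hS.mul (fr_mult c)) ?_ h1 h2
    intro p k hp hpN
    rw [rr_pow hN hc h0 hp, SQ_pow _ _ hp]
    rcases val_prime hN hc hp hpN with h | h
    · rw [h]
      induction k using Nat.twoStepInduction with
      | zero => simp [(fr_mult c).map_one]
      | one =>
        simp [fr_pow c hp, h, Finset.sum_range_succ]
      | more k ih _ =>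
        have e1 : (k + 2) / 2 + 1 = k / 2 + 1 + 1 := by omega
        rw [e1, Finset.sum_range_succ' _ (k / 2 + 1), Finset.sum_range_succ _ (k + 2),
          Finset.sum_range_succ _ (k + 1), ih]
        have e2 : ∀ i ∈ Finset.range (k / 2 + 1), (1 : ℝ) * fr c (p ^ (k + 2 - 2 * (i + 1))) =
            1 * fr c (p ^ (k - 2 * i)) := by
          intro i _
          have : k + 2 - 2 * (i + 1) = k - 2 * i := by omega
          rw [this]
        rw [Finset.sum_congr rfl e2]
        simp only [fr_pow c hp, h]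
        norm_num
        ring
    · rw [h]
      have hne : ¬ ((-1 : ℝ) = 1) := by norm_num
      induction k using Nat.twoStepInduction with
      | zero => simp [(fr_mult c).map_one]
      | one =>
        simp only [fr_pow c hp, h]
        norm_num [Finset.sum_range_succ]
      | more k ih _ =>
        have e1 : (k + 2) / 2 + 1 = k / 2 + 1 + 1 := by omega
        rw [e1, Finset.sum_range_succ' _ (k / 2 + 1), Finset.sum_range_succ _ (k + 2),
          Finset.sum_range_succ _ (k + 1), ih]
        have e2 : ∀ i ∈ Finset.range (k / 2 + 1), (1 : ℝ) * fr c (p ^ (k + 2 - 2 * (i + 1))) =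
            1 * fr c (p ^ (k - 2 * i)) := by
          intro i _
          have : k + 2 - 2 * (i + 1) = k - 2 * i := by omega
          rw [this]
        rw [Finset.sum_congr rfl e2]
        have e3 : fr c (p ^ (k + 2 - 2 * 0)) = 0 := by
          rw [fr_pow c hp, if_neg (by omega), h, if_neg hne]
        rw [e3, pow_succ]
        ring
  rw [ArithmeticFunction.coe_mul_zeta_apply, SQ_mul _ _ (by omega)] at key
  unfold rr
  refine key.trans (Finset.sum_congr rfl fun d hd => ?_)
  rw [Finset.mem_filter, Finset.mem_Icc] at hd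
  rw [one_mul]
  change (if n / d ^ 2 = 0 then (0 : ℝ) else rho c (n / d ^ 2)) = _
  rw [if_neg]
  exact (Nat.div_pos (Nat.le_of_dvd (by omega) hd.2) (pow_pos (by omega) 2)).ne'

theorem F3b (N : ℕ) (hN : N.Prime) (c : ℕ → ℝ) (hc : QC N c) (n : ℕ) (h1 : 1 ≤ n) (h2 : n < N) :
    rho c n = ∑ d ∈ (Finset.Icc 1 n).filter (fun d => d ^ 2 ∣ n),
      (ArithmeticFunction.moebius d : ℝ) * rr c (n / d ^ 2) := by
  have h0 : c 0 = 0 := hc.zero 0 (dvd_zero N)
  have hS : (SQ fun d => (ArithmeticFunction.moebius d : ℝ)).IsMultiplicative := by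
    refine SQ_mult (by simp) fun a b hab => ?_
    rw [ArithmeticFunction.isMultiplicative_moebius.map_mul_of_coprime hab, Int.cast_mul]
  have key : fr c n = ((SQ fun d => (ArithmeticFunction.moebius d : ℝ)) *
      (fc c h0 * (ArithmeticFunction.zeta : ArithmeticFunction ℝ))) n := by
    refine agree hN (fr_mult c) (hS.mul ((fc_mult hN hc h0).mul zeta_mult)) ?_ h1 h2
    intro p k hp hpN
    rw [SQ_pow _ _ hp, fr_pow c hp]
    match k with
    | 0 =>
      rw [if_pos rfl]
      simp only [Nat.zero_div, zero_add, Finset.sum_range_one, pow_zero, mul_zero, Nat.sub_zero,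
        ArithmeticFunction.moebius_apply_one, Int.cast_one, one_mul]
      have := rr_pow hN hc h0 hp 0
      rw [pow_zero] at this
      rw [this]
      simp
    | 1 =>
      rw [if_neg one_ne_zero]
      have e1 : 1 / 2 + 1 = 1 := rfl
      rw [e1, Finset.sum_range_one, pow_zero, mul_zero, Nat.sub_zero,
        ArithmeticFunction.moebius_apply_one, Int.cast_one, one_mul, rr_pow hN hc h0 hp 1]
      rcases val_prime hN hc hp hpN with h | h
      · rw [if_pos h, h]
        norm_num [Finset.sum_range_succ]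
      · rw [h]
        norm_num [Finset.sum_range_succ]
    | k + 2 =>
      rw [if_neg (by omega)]
      have e1 : (k + 2) / 2 + 1 = k / 2 + 1 + 1 := by omega
      rw [e1, Finset.sum_range_succ', Finset.sum_range_succ']
      have e2 : ∑ i ∈ Finset.range (k / 2),
          (ArithmeticFunction.moebius (p ^ (i + 1 + 1)) : ℝ) *
            (fc c h0 * (ArithmeticFunction.zeta : ArithmeticFunction ℝ))
              (p ^ (k + 2 - 2 * (i + 1 + 1))) = 0 := by
        refine Finset.sum_eq_zero fun i _ => ?_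
        rw [ArithmeticFunction.moebius_apply_prime_pow hp (by omega), if_neg (by omega),
          Int.cast_zero, zero_mul]
      rw [e2]
      have e3 : k + 2 - 2 * (0 + 1) = k := by omega
      have e4 : k + 2 - 2 * 0 = k + 2 := by omega
      rw [e3, e4, pow_zero, ArithmeticFunction.moebius_apply_one,
        ArithmeticFunction.moebius_apply_prime_pow hp (by omega), if_pos rfl,
        rr_pow hN hc h0 hp, rr_pow hN hc h0 hp, Finset.sum_range_succ _ (k + 2),
        Finset.sum_range_succ _ (k + 1)]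
      rcases val_prime hN hc hp hpN with h | h
      · rw [if_pos h, h]
        push_cast
        simp only [one_pow]
        ring
      · have hne : ¬ c p = 1 := by
          rw [h]
          norm_num
        rw [if_neg hne, h]
        push_cast
        rw [pow_succ (-1 : ℝ) (k + 1)]
        ring
  rw [SQ_mul _ _ (by omega)] at key
  have e : fr c n = rho c n := by
    change (if n = 0 then (0 : ℝ) else rho c n) = _
    rw [if_neg (by omega)]
  rw [← e, key]
  refine Finset.sum_congr rfl fun d _ => ?_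
  rw [ArithmeticFunction.coe_mul_zeta_apply]
  rfl

theorem F3c (N : ℕ) (hN : N.Prime) (c : ℕ → ℝ) (hc : QC N c) (n : ℕ) (h1 : 1 ≤ n) (h2 : n < N) :
    lam n * c n = ∑ d ∈ n.divisors, lam d * rho c d := by
  have h0 : c 0 = 0 := hc.zero 0 (dvd_zero N)
  have hlp : ∀ p k : ℕ, p.Prime → fm (p ^ k) = (-1) ^ k := by
    intro p k hp
    change (if p ^ k = 0 then (0 : ℝ) else lam (p ^ k)) = _
    rw [if_neg (pow_ne_zero k hp.ne_zero)]
    induction k with
    | zero => rw [pow_zero, pow_zero, MP_45349e_nt.LS.lam_one]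
    | succ k ih =>
      rw [pow_succ, MP_45349e_nt.LS.lam_mul _ _ (pow_ne_zero k hp.ne_zero) hp.ne_zero, ih,
        MP_45349e_nt.LS.lam_prime p hp, pow_succ]
  have key : (fm.pmul (fc c h0)) n =
      ((fm.pmul (fr c)) * (ArithmeticFunction.zeta : ArithmeticFunction ℝ)) n := by
    refine agree hN (fm_mult.pmul (fc_mult hN hc h0)) ((fm_mult.pmul (fr_mult c)).mul zeta_mult)
      ?_ h1 h2
    intro p k hp hpN
    rw [ArithmeticFunction.coe_mul_zeta_apply, Nat.sum_divisors_prime_pow hp,
      ArithmeticFunction.pmul_apply, hlp p k hp]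
    have e1 : fc c h0 (p ^ k) = (c p) ^ k := c_pow hN hc p k
    rw [e1]
    have e2 : ∀ j ∈ Finset.range (k + 1), (fm.pmul (fr c)) (p ^ j) =
        (-1) ^ j * (if j = 0 then 1 else if c p = 1 then 2 else 0) := by
      intro j _
      rw [ArithmeticFunction.pmul_apply, hlp p j hp, fr_pow c hp]
    rw [Finset.sum_congr rfl e2, Finset.sum_range_succ']
    rcases val_prime hN hc hp hpN with h | h
    · rw [h]
      have e3 : ∀ m : ℕ, ∑ j ∈ Finset.range m, (-1 : ℝ) ^ (j + 1) *
          (if j + 1 = 0 then (1 : ℝ) else if (1 : ℝ) = 1 then 2 else 0) = (-1) ^ m - 1 := by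
        intro m
        induction m with
        | zero => simp
        | succ m ih =>
          rw [Finset.sum_range_succ, ih, if_neg (by omega), if_pos rfl, pow_succ]
          ring
      rw [e3, one_pow]
      simp
    · rw [h]
      have hne : ¬ ((-1 : ℝ) = 1) := by norm_num
      have e3 : ∑ j ∈ Finset.range k, (-1 : ℝ) ^ (j + 1) *
          (if j + 1 = 0 then (1 : ℝ) else if (-1 : ℝ) = 1 then 2 else 0) = 0 := by
        refine Finset.sum_eq_zero fun j _ => ?_
        rw [if_neg (by omega), if_neg hne, mul_zero]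
      rw [e3, ← mul_pow]
      norm_num
  rw [ArithmeticFunction.coe_mul_zeta_apply, ArithmeticFunction.pmul_apply] at key
  have e : fm n = lam n := by
    change (if n = 0 then (0 : ℝ) else lam n) = _
    rw [if_neg (by omega)]
  rw [e] at key
  refine key.trans (Finset.sum_congr rfl fun d hd => ?_)
  have hd0 : d ≠ 0 := by
    rintro rfl
    exact absurd (Nat.dvd_of_mem_divisors hd) (by rw [zero_dvd_iff]; omega)
  rw [ArithmeticFunction.pmul_apply]
  change (if d = 0 then (0 : ℝ) else lam d) * (if d = 0 then (0 : ℝ) else rho c d) = _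
  rw [if_neg hd0, if_neg hd0]

end Pool.Agent.Lib.MP_7b7e48_nt.LG
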