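import Pool.Agent.Lib.MP_7b7e48_nt.LG.Defs
import Pool.Agent.Lib.MP_7b7e48_nt.LG.F2
import Pool.Agent.Lib.MP_7b7e48_nt.LG.F3

/-!
# Module F4 (60 minutes): summatory function of `rho`

`F4c`: `c0 = ∑' μ(d)/d^2` lies in `[1/3, 1]`... (`|∑_{d ≥ 2}| ≤ ∑_{d≥2} 1/d^2 = π²/6 - 1 < 0.645`; or
`1 - ∑_{d ≥ 2} 1/d^2`, `∑_{d≥2} 1/d^2 ≤ 1/4 + 1/9 + ∑_{d ≥ 4} 1/(d(d-1)) = 25/36`: gives `c0 ≥ 11/36`, so the
bound `1/4` is easy).
PROOF of `F4`. `F3b` summed: `Rho c z = ∑_{d ≤ √z} μ(d) ∑_{m ≤ z/d^2} rr c m` (substitute `n = d^2 m`). Insert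
`F2` with `y = z/d^2` (natural quotient): main term `L ∑_{d ≤ √z} μ(d) (z/d^2) = c0 L z + O(L √z)`
(floor error `≤ 1` for each of the `√z` terms, tail of `c0` `≤ 2/√z`), errors
`C √(z/d^2) N^(1/4) log N` sum up to `≤ C √z N^(1/4) log N (1 + log N)`; `L ≤ 20 log N` (as in `F2`).
-/

open Finset

namespace Pool.Agent.Lib.MP_7b7e48_nt.LG

private theorem F4_term_le (d : ℕ) :
    ‖(ArithmeticFunction.moebius d : ℝ) / (d : ℝ) ^ 2‖ ≤ 1 / (d : ℝ) ^ 2 := by
  rw [norm_div, Real.norm_of_nonneg (by positivity : (0 : ℝ) ≤ (d : ℝ) ^ 2)]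
  refine div_le_div_of_nonneg_right ?_ (by positivity)
  rw [Real.norm_eq_abs, ← Int.cast_abs]
  exact_mod_cast ArithmeticFunction.abs_moebius_le_one

private theorem F4_summable :
    Summable fun d : ℕ => (ArithmeticFunction.moebius d : ℝ) / (d : ℝ) ^ 2 :=
  Summable.of_norm_bounded hasSum_zeta_two.summable F4_term_le

/-- The partial sums of the series for `c0`. -/
theorem F4_tail (D : ℕ) :
    |∑ d ∈ Finset.Icc 1 D, (ArithmeticFunction.moebius d : ℝ) / (d : ℝ) ^ 2 - c0| ≤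
      2 / ((D : ℝ) + 1) := by
  set f : ℕ → ℝ := fun d => (ArithmeticFunction.moebius d : ℝ) / (d : ℝ) ^ 2 with hf
  have h1 := F4_summable.hasSum.tendsto_sum_nat
  have hf0 : f 0 = 0 := by
    rw [hf]
    simp
  have e1 : ∀ n : ℕ, ∑ d ∈ Finset.range (n + 1), f d = ∑ d ∈ Finset.Icc 1 n, f d := by
    intro n
    rw [Finset.sum_range_succ', hf0, add_zero]
    rw [Finset.range_eq_Ico, Finset.sum_Ico_add' f 0 n 1]
    rfl
  have h2 : Filter.Tendsto (fun n : ℕ => ∑ d ∈ Finset.Icc 1 n, f d) Filter.atTop (nhds c0) := by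
    have h3 := h1.comp (Filter.tendsto_add_atTop_nat 1)
    refine h3.congr fun n => ?_
    exact e1 n
  have h3 : Filter.Tendsto (fun n : ℕ => |∑ d ∈ Finset.Icc 1 D, f d - ∑ d ∈ Finset.Icc 1 n, f d|)
      Filter.atTop (nhds |∑ d ∈ Finset.Icc 1 D, f d - c0|) :=
    (tendsto_const_nhds.sub h2).abs
  refine le_of_tendsto h3 (Filter.eventually_atTop.2 ⟨D, fun n hn => ?_⟩)
  have e2 : ∑ d ∈ Finset.Icc 1 n, f d =
      ∑ d ∈ Finset.Icc 1 D, f d + ∑ d ∈ Finset.Ioo D (n + 1), f d := by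
    rw [← Finset.sum_union]
    · refine Finset.sum_congr ?_ fun _ _ => rfl
      ext a
      rw [Finset.mem_union, Finset.mem_Icc, Finset.mem_Icc, Finset.mem_Ioo]
      omega
    · rw [Finset.disjoint_left]
      intro a h4 h5
      rw [Finset.mem_Icc] at h4
      rw [Finset.mem_Ioo] at h5
      omega
  rw [e2, sub_add_cancel_left, abs_neg]
  calc |∑ d ∈ Finset.Ioo D (n + 1), f d| ≤ ∑ d ∈ Finset.Ioo D (n + 1), |f d| :=
        Finset.abs_sum_le_sum_abs _ _
    _ ≤ ∑ d ∈ Finset.Ioo D (n + 1), ((d : ℝ) ^ 2)⁻¹ := by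
        refine Finset.sum_le_sum fun d _ => ?_
        have := F4_term_le d
        rw [one_div] at this
        exact this
    _ ≤ 2 / ((D : ℝ) + 1) := sum_Ioo_inv_sq_le D (n + 1)

theorem F4c : 1 / 4 ≤ c0 ∧ c0 ≤ 2 := by
  have h1 : HasSum (fun d : ℕ => if d = 1 then (1 : ℝ) else 0) 1 := hasSum_ite_eq 1 1
  have h2 := (F4_summable.hasSum.sub h1).tsum_eq
  have h3 := (hasSum_zeta_two.sub h1)
  have h4 : ‖∑' d : ℕ, ((ArithmeticFunction.moebius d : ℝ) / (d : ℝ) ^ 2 -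
      if d = 1 then (1 : ℝ) else 0)‖ ≤ Real.pi ^ 2 / 6 - 1 := by
    refine tsum_of_norm_bounded h3 fun d => ?_
    by_cases hd : d = 1
    · rw [hd, if_pos rfl]
      simp
    · rw [if_neg hd, sub_zero, sub_zero]
      exact F4_term_le d
  rw [h2] at h4
  have h5 : c0 = ∑' d : ℕ, (ArithmeticFunction.moebius d : ℝ) / (d : ℝ) ^ 2 := rfl
  rw [← h5, Real.norm_eq_abs] at h4
  have h6 := abs_le.1 h4
  have h7 : Real.pi ^ 2 ≤ 3.15 ^ 2 :=
    pow_le_pow_left₀ Real.pi_pos.le Real.pi_lt_d2.le 2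
  norm_num at h7
  constructor <;> linarith [h6.1, h6.2]

private theorem F4_harm (n : ℕ) : ∑ a ∈ Finset.Icc 1 n, (1 : ℝ) / a ≤ 1 + Real.log n := by
  have h := harmonic_le_one_add_log n
  rw [harmonic_eq_sum_Icc] at h
  push_cast at h
  refine le_trans (le_of_eq ?_) h
  exact Finset.sum_congr rfl fun a _ => one_div _

private theorem F4_log {N : ℕ} (h3 : 3 ≤ N) : 1 ≤ Real.log N := by
  have h1 : Real.log (Real.exp 1) ≤ Real.log N := by
    refine Real.log_le_log (Real.exp_pos _) ?_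
    have h2 := Real.exp_one_lt_d9
    have h4 : (3 : ℝ) ≤ N := by exact_mod_cast h3
    linarith
  rwa [Real.log_exp] at h1

/-- Substitution `n = d^2 m`. -/
private theorem F4_swap (f : ℕ → ℕ → ℝ) (z : ℕ) :
    ∑ n ∈ Finset.Icc 1 z, ∑ d ∈ (Finset.Icc 1 n).filter (fun d => d ^ 2 ∣ n), f d (n / d ^ 2) =
      ∑ d ∈ Finset.Icc 1 (Nat.sqrt z), ∑ m ∈ Finset.Icc 1 (z / d ^ 2), f d m := by
  have h1 : ∀ n ∈ Finset.Icc 1 z,
      ∑ d ∈ (Finset.Icc 1 n).filter (fun d => d ^ 2 ∣ n), f d (n / d ^ 2) =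
      ∑ d ∈ Finset.Icc 1 (Nat.sqrt z), if d ^ 2 ∣ n then f d (n / d ^ 2) else 0 := by
    intro n hn
    rw [Finset.mem_Icc] at hn
    rw [← Finset.sum_filter]
    refine Finset.sum_congr ?_ fun _ _ => rfl
    ext d
    rw [Finset.mem_filter, Finset.mem_filter, Finset.mem_Icc, Finset.mem_Icc]
    constructor
    · rintro ⟨⟨h2, _⟩, h3⟩
      refine ⟨⟨h2, ?_⟩, h3⟩
      rw [Nat.le_sqrt']
      exact (Nat.le_of_dvd (by omega) h3).trans hn.2
    · rintro ⟨⟨h2, _⟩, h3⟩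
      refine ⟨⟨h2, ?_⟩, h3⟩
      exact Nat.le_of_dvd (by omega) ((dvd_pow_self d two_ne_zero).trans h3)
  rw [Finset.sum_congr rfl h1, Finset.sum_comm]
  refine Finset.sum_congr rfl fun d hd => ?_
  rw [Finset.mem_Icc] at hd
  have hd2 : 0 < d ^ 2 := pow_pos (by omega) 2
  rw [← Finset.sum_filter]
  have h2 : (Finset.Icc 1 z).filter (fun n => d ^ 2 ∣ n) =
      (Finset.Icc 1 (z / d ^ 2)).image (fun m => d ^ 2 * m) := by
    ext n
    rw [Finset.mem_filter, Finset.mem_Icc, Finset.mem_image]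
    constructor
    · rintro ⟨⟨h3, h4⟩, m, rfl⟩
      refine ⟨m, ?_, rfl⟩
      rw [Finset.mem_Icc, Nat.le_div_iff_mul_le hd2, mul_comm m]
      refine ⟨?_, h4⟩
      rw [Nat.one_le_iff_ne_zero]
      rintro rfl
      omega
    · rintro ⟨m, hm, rfl⟩
      rw [Finset.mem_Icc, Nat.le_div_iff_mul_le hd2, mul_comm m] at hm
      exact ⟨⟨Nat.mul_pos hd2 hm.1, hm.2⟩, dvd_mul_right _ _⟩
  rw [h2, Finset.sum_image]
  · refine Finset.sum_congr rfl fun m _ => ?_
    rw [Nat.mul_div_cancel_left m hd2]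
  · intro a _ b _ hab
    exact Nat.eq_of_mul_eq_mul_left hd2 hab

theorem F4 : ∃ C : ℝ, 0 < C ∧ ∀ (N : ℕ), 3 ≤ N → N.Prime → ∀ (c : ℕ → ℝ) (L : ℝ), QC N c →
    LV N c L → ∀ z : ℕ, 1 ≤ z → z < N →
    |Rho c z - c0 * L * z| ≤ C * Real.sqrt z * (N : ℝ) ^ ((1 : ℝ) / 4) * (Real.log N) ^ 2 := by
  obtain ⟨C, hC, hF2⟩ := F2
  refine ⟨2 * C + 40, by positivity, ?_⟩
  intro N h3 hN c L hc hL z hz1 hz
  have hlog := F4_log h3
  have hlog0 : 0 < Real.log N := by linarith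
  have hN0 : (0 : ℝ) < N := by
    have : 0 < N := by omega
    exact_mod_cast this
  have hN1 : (1 : ℝ) ≤ N := by
    have : 1 ≤ N := by omega
    exact_mod_cast this
  have hz0 : (0 : ℝ) < z := by exact_mod_cast hz1
  have hz1' : (1 : ℝ) ≤ z := by exact_mod_cast hz1
  set q : ℝ := (N : ℝ) ^ ((1 : ℝ) / 4) with hq
  have hq1 : 1 ≤ q := Real.one_le_rpow hN1 (by norm_num)
  have hs0 : 0 < Real.sqrt z := Real.sqrt_pos.2 hz0
  have hss : Real.sqrt z * Real.sqrt z = z := Real.mul_self_sqrt hz0.le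
  have hL10 := F2_L_le h3 hc hL
  have hL0 := hL.1
  set D : ℕ := Nat.sqrt z with hD
  have hDle : (D : ℝ) ≤ Real.sqrt z := by
    rw [Real.le_sqrt' (by
      have : 0 < D := Nat.sqrt_pos.2 (by omega)
      exact_mod_cast this)]
    have : D ^ 2 ≤ z := Nat.sqrt_le' z
    exact_mod_cast this
  have hDlt : Real.sqrt z < D + 1 := by
    rw [Real.sqrt_lt' (by positivity)]
    have : z < (D + 1) ^ 2 := Nat.lt_succ_sqrt' z
    exact_mod_cast this
  have hD1 : 1 ≤ D := Nat.sqrt_pos.2 (by omega)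
  -- the identity
  have e1 : Rho c z = ∑ d ∈ Finset.Icc 1 D, (ArithmeticFunction.moebius d : ℝ) *
      ∑ m ∈ Finset.Icc 1 (z / d ^ 2), rr c m := by
    unfold Rho
    have h4 : ∀ n ∈ Finset.Icc 1 z, rho c n =
        ∑ d ∈ (Finset.Icc 1 n).filter (fun d => d ^ 2 ∣ n),
          (ArithmeticFunction.moebius d : ℝ) * rr c (n / d ^ 2) := by
      intro n hn
      rw [Finset.mem_Icc] at hn
      exact F3b N hN c hc n hn.1 (by omega)
    rw [Finset.sum_congr rfl h4,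
      F4_swap (fun d m => (ArithmeticFunction.moebius d : ℝ) * rr c m) z]
    exact Finset.sum_congr rfl fun d _ => (Finset.mul_sum _ _ _).symm
  -- one term
  have h5 : ∀ d ∈ Finset.Icc 1 D, |(ArithmeticFunction.moebius d : ℝ) *
      ∑ m ∈ Finset.Icc 1 (z / d ^ 2), rr c m -
      L * z * ((ArithmeticFunction.moebius d : ℝ) / (d : ℝ) ^ 2)| ≤
      C * Real.sqrt z * q * Real.log N * (1 / (d : ℝ)) + L := by
    intro d hd
    rw [Finset.mem_Icc] at hd
    have hd0 : (0 : ℝ) < d := by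
      have : 0 < d := by omega
      exact_mod_cast this
    have hd2 : d ^ 2 ≤ z := by
      have := Nat.le_sqrt'.1 (hd.2.trans_eq hD)
      exact this
    have hd2p : 0 < d ^ 2 := pow_pos (by omega) 2
    have hy1 : 1 ≤ z / d ^ 2 := Nat.div_pos hd2 hd2p
    have hy2 : z / d ^ 2 ≤ N := (Nat.div_le_self _ _).trans hz.le
    have h6 := hF2 N h3 c L hc hL (z / d ^ 2) hy1 hy2
    have h7 : Real.sqrt ((z / d ^ 2 : ℕ) : ℝ) ≤ Real.sqrt z / d := by
      rw [Real.sqrt_le_left (by positivity)]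
      rw [div_pow, Real.sq_sqrt hz0.le]
      have : ((z / d ^ 2 : ℕ) : ℝ) ≤ (z : ℝ) / ((d ^ 2 : ℕ) : ℝ) := Nat.cast_div_le
      rwa [Nat.cast_pow] at this
    have h8 : |((z / d ^ 2 : ℕ) : ℝ) - (z : ℝ) / (d : ℝ) ^ 2| ≤ 1 := by
      have h9 : ((z / d ^ 2 : ℕ) : ℝ) ≤ (z : ℝ) / ((d ^ 2 : ℕ) : ℝ) := Nat.cast_div_le
      rw [Nat.cast_pow] at h9
      have h10 : (z : ℝ) / (d : ℝ) ^ 2 < ((z / d ^ 2 : ℕ) : ℝ) + 1 := by
        rw [div_lt_iff₀ (by positivity)]
        have h11 : z < (z / d ^ 2 + 1) * d ^ 2 := by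
          have := Nat.lt_div_mul_add (a := z) (b := d ^ 2) hd2p
          calc z < z / d ^ 2 * d ^ 2 + d ^ 2 := this
            _ = (z / d ^ 2 + 1) * d ^ 2 := by ring
        exact_mod_cast h11
      rw [abs_le]
      constructor <;> linarith
    have hμ : |(ArithmeticFunction.moebius d : ℝ)| ≤ 1 := by
      rw [← Int.cast_abs]
      exact_mod_cast ArithmeticFunction.abs_moebius_le_one
    have e2 : (ArithmeticFunction.moebius d : ℝ) * ∑ m ∈ Finset.Icc 1 (z / d ^ 2), rr c m -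
        L * z * ((ArithmeticFunction.moebius d : ℝ) / (d : ℝ) ^ 2) =
        (ArithmeticFunction.moebius d : ℝ) * ((∑ m ∈ Finset.Icc 1 (z / d ^ 2), rr c m -
          ((z / d ^ 2 : ℕ) : ℝ) * L) + L * (((z / d ^ 2 : ℕ) : ℝ) - (z : ℝ) / (d : ℝ) ^ 2)) := by
      ring
    rw [e2, abs_mul]
    have h9 : |(∑ m ∈ Finset.Icc 1 (z / d ^ 2), rr c m - ((z / d ^ 2 : ℕ) : ℝ) * L) +
        L * (((z / d ^ 2 : ℕ) : ℝ) - (z : ℝ) / (d : ℝ) ^ 2)| ≤
        C * Real.sqrt z * q * Real.log N * (1 / (d : ℝ)) + L := by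
      refine (abs_add_le _ _).trans (add_le_add (h6.trans ?_) ?_)
      · calc C * Real.sqrt ((z / d ^ 2 : ℕ) : ℝ) * q * Real.log N ≤
            C * (Real.sqrt z / d) * q * Real.log N := by
              refine mul_le_mul_of_nonneg_right (mul_le_mul_of_nonneg_right
                (mul_le_mul_of_nonneg_left h7 hC.le) (by linarith)) hlog0.le
          _ = C * Real.sqrt z * q * Real.log N * (1 / (d : ℝ)) := by ring
      · rw [abs_mul, abs_of_nonneg hL0]
        calc L * |((z / d ^ 2 : ℕ) : ℝ) - (z : ℝ) / (d : ℝ) ^ 2| ≤ L * 1 :=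
              mul_le_mul_of_nonneg_left h8 hL0
          _ = L := mul_one L
    calc _ ≤ 1 * (C * Real.sqrt z * q * Real.log N * (1 / (d : ℝ)) + L) :=
          mul_le_mul hμ h9 (abs_nonneg _) zero_le_one
      _ = _ := one_mul _
  have h6 : |Rho c z - L * z * ∑ d ∈ Finset.Icc 1 D,
      (ArithmeticFunction.moebius d : ℝ) / (d : ℝ) ^ 2| ≤
      C * Real.sqrt z * q * Real.log N * (1 + Real.log D) + D * L := by
    rw [e1, Finset.mul_sum, ← Finset.sum_sub_distrib]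
    refine (Finset.abs_sum_le_sum_abs _ _).trans ((Finset.sum_le_sum h5).trans ?_)
    rw [Finset.sum_add_distrib, ← Finset.mul_sum, Finset.sum_const, Nat.card_Icc, nsmul_eq_mul,
      Nat.add_sub_cancel]
    refine add_le_add (mul_le_mul_of_nonneg_left (F4_harm D) ?_) le_rfl
    have : 0 < q := by linarith
    positivity
  have h7 : |L * z * ∑ d ∈ Finset.Icc 1 D,
      (ArithmeticFunction.moebius d : ℝ) / (d : ℝ) ^ 2 - c0 * L * z| ≤ 2 * Real.sqrt z * L := by
    have e3 : L * z * ∑ d ∈ Finset.Icc 1 D,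
      (ArithmeticFunction.moebius d : ℝ) / (d : ℝ) ^ 2 - c0 * L * z =
      L * z * (∑ d ∈ Finset.Icc 1 D,
      (ArithmeticFunction.moebius d : ℝ) / (d : ℝ) ^ 2 - c0) := by ring
    rw [e3, abs_mul, abs_of_nonneg (by positivity : 0 ≤ L * z)]
    calc L * z * |∑ d ∈ Finset.Icc 1 D,
        (ArithmeticFunction.moebius d : ℝ) / (d : ℝ) ^ 2 - c0| ≤ L * z * (2 / ((D : ℝ) + 1)) :=
          mul_le_mul_of_nonneg_left (F4_tail D) (by positivity)
      _ ≤ L * z * (2 / Real.sqrt z) := by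
          refine mul_le_mul_of_nonneg_left ?_ (by positivity)
          exact div_le_div_of_nonneg_left (by norm_num) hs0 hDlt.le
      _ = 2 * Real.sqrt z * L := by
          rw [mul_div_assoc', div_eq_iff hs0.ne']
          calc L * z * 2 = L * (Real.sqrt z * Real.sqrt z) * 2 := by rw [hss]
            _ = 2 * Real.sqrt z * L * Real.sqrt z := by ring
  have h8 : Real.log D ≤ Real.log N := by
    refine Real.log_le_log (by exact_mod_cast hD1) ?_
    have : D ≤ N := (Nat.sqrt_le_self z).trans hz.le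
    exact_mod_cast this
  have h9 : |Rho c z - c0 * L * z| ≤
      C * Real.sqrt z * q * Real.log N * (1 + Real.log D) + D * L + 2 * Real.sqrt z * L := by
    have e4 : Rho c z - c0 * L * z = (Rho c z - L * z * ∑ d ∈ Finset.Icc 1 D,
      (ArithmeticFunction.moebius d : ℝ) / (d : ℝ) ^ 2) + (L * z * ∑ d ∈ Finset.Icc 1 D,
      (ArithmeticFunction.moebius d : ℝ) / (d : ℝ) ^ 2 - c0 * L * z) := by ring
    rw [e4]
    exact (abs_add_le _ _).trans (add_le_add h6 h7)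
  refine h9.trans ?_
  have h10 : C * Real.sqrt z * q * Real.log N * (1 + Real.log D) ≤
      C * Real.sqrt z * q * Real.log N * (2 * Real.log N) := by
    refine mul_le_mul_of_nonneg_left (by linarith) ?_
    have : 0 < q := by linarith
    positivity
  have h11 : (D : ℝ) * L + 2 * Real.sqrt z * L ≤ 30 * (Real.sqrt z * Real.log N) := by
    have h12 : (D : ℝ) * L ≤ Real.sqrt z * (10 * Real.log N) :=
      mul_le_mul hDle hL10 hL0 hs0.le
    have h13 : Real.sqrt z * L ≤ Real.sqrt z * (10 * Real.log N) :=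
      mul_le_mul_of_nonneg_left hL10 hs0.le
    linarith
  have h12 : Real.sqrt z * Real.log N ≤ Real.sqrt z * q * Real.log N ^ 2 := by
    have h13 : Real.log N ≤ q * Real.log N ^ 2 := by
      have h14 : Real.log N * 1 ≤ Real.log N * (q * Real.log N) := by
        refine mul_le_mul_of_nonneg_left ?_ hlog0.le
        nlinarith
      calc Real.log N = Real.log N * 1 := (mul_one _).symm
        _ ≤ Real.log N * (q * Real.log N) := h14
        _ = q * Real.log N ^ 2 := by ring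
    calc Real.sqrt z * Real.log N ≤ Real.sqrt z * (q * Real.log N ^ 2) :=
          mul_le_mul_of_nonneg_left h13 hs0.le
      _ = Real.sqrt z * q * Real.log N ^ 2 := by ring
  have h13 : 0 ≤ Real.sqrt z * q * Real.log N ^ 2 := by
    have : 0 < q := by linarith
    positivity
  calc C * Real.sqrt z * q * Real.log N * (1 + Real.log D) + D * L + 2 * Real.sqrt z * L ≤
      C * Real.sqrt z * q * Real.log N * (2 * Real.log N) + 30 * (Real.sqrt z * Real.log N) := by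
        linarith
    _ ≤ 2 * C * (Real.sqrt z * q * Real.log N ^ 2) +
        30 * (Real.sqrt z * q * Real.log N ^ 2) := by
        refine add_le_add (le_of_eq (by ring)) ?_
        linarith
    _ ≤ (2 * C + 40) * (Real.sqrt z * q * Real.log N ^ 2) := by
        nlinarith
    _ = (2 * C + 40) * Real.sqrt z * q * Real.log N ^ 2 := by ring

end Pool.Agent.Lib.MP_7b7e48_nt.LG
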