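import Pool.Agent.Lib.MP_7b7e48_nt.LG.Defs
import Pool.Agent.Lib.MP_7b7e48_nt.LG.F3

/-!
# Module F5 (75 minutes): the exceptional set

NOTATION: `g n = lam n * c n`, completely multiplicative with values `±1` on `1 ≤ n < N`; `g q = -1` for
`q ∈ Qp`, `g p = 1` for the other primes `p < N`. So `n ∈ DD` iff `g n = -1` iff `n` has an odd number of
prime factors (with multiplicity) in `Qp`.
`F5a`: an `n ∈ DD` has a prime factor in `Qp`; `#{n ≤ y : q ∣ n} ≤ y/q`.
`F5b`: for `1 ≤ n < N`: `1_{DD}(n) ≥ #{q ∈ Qp : q ∣ n} - 2 #{(q,q') : q < q' in Qp, q q' ∣ n}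
- 2 #{q ∈ Qp : q^2 ∣ n}` (let `w` = number of `q`'s, `W` the number with multiplicity: `W = 0, 1`: equality;
`W = 2`: right side `≤ 0`; `W ≥ 3`: `w = 1`: `1 - 2`, `w = 2`: `2 - 2(1+1)`, `w ≥ 3`: `w - w(w-1) < 0`).
Sum over `n < N`: `#{0 < n < N : q ∣ n} = (N-1)/q ≥ (N-1)/(2q)` (floor), so
`#DD ≥ (N-1) sig/2 - N sig^2 - 2 N ∑ 1/q^2 ≥ (N-1) sig/2 - N sig^2 - 2 N sig/100 ≥ N sig/4`
(`q ≥ 100`, `sig ≤ 1/100`, `N ≥ 100`).
-/

open Finset
open Pool.Agent.Lib.MP_45349e_nt.LS (lam)

namespace Pool.Agent.Lib.MP_7b7e48_nt.LG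

private theorem F5_lam_mul (m n : ℕ) (hm : m ≠ 0) (hn : n ≠ 0) :
    lam (m * n) = lam m * lam n := by
  unfold lam
  rw [ArithmeticFunction.cardFactors_mul hm hn, pow_add]

private theorem F5_lam_prime (p : ℕ) (hp : p.Prime) : lam p = -1 := by
  unfold lam
  rw [ArithmeticFunction.cardFactors_apply_prime hp, pow_one]

private theorem F5_lam_ne (n : ℕ) : lam n ≠ 0 := by
  unfold lam
  exact pow_ne_zero _ (by norm_num)

private theorem F5_c_one {N : ℕ} (hN : N.Prime) {c : ℕ → ℝ} (hc : QC N c) : c 1 = 1 := by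
  have h := hc.mul 1 1
  rw [mul_one] at h
  have h1 : c 1 = 1 ∨ c 1 = -1 := hc.val 1 (by
    intro hd
    exact hN.one_lt.ne' (Nat.dvd_one.1 hd))
  rcases h1 with h1 | h1
  · exact h1
  · rw [h1] at h
    norm_num at h

private theorem F5_eq {N : ℕ} (hN : N.Prime) {c : ℕ → ℝ} (hc : QC N c) :
    ∀ n : ℕ, 0 < n → n < N → (∀ p : ℕ, p.Prime → p ∣ n → c p ≠ 1) → lam n = c n := by
  intro n
  induction n using Nat.strong_induction_on with
  | _ n ih =>
    intro h0 hn hp
    rcases Nat.lt_or_ge n 2 with h2 | h2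
    · have h1 : n = 1 := by omega
      subst h1
      rw [F5_c_one hN hc]
      simp [lam]
    · have hq : n.minFac.Prime := Nat.minFac_prime (by omega)
      have hqd : n.minFac ∣ n := Nat.minFac_dvd n
      have hm : n.minFac * (n / n.minFac) = n := Nat.mul_div_cancel' hqd
      have hqle : n.minFac ≤ n := Nat.minFac_le (by omega)
      have hpos : 0 < n / n.minFac := Nat.div_pos hqle (Nat.minFac_pos n)
      have hlt : n / n.minFac < n := Nat.div_lt_self h0 hq.one_lt
      have ih' := ih (n / n.minFac) hlt hpos (by omega) (by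
        intro p hpp hpd
        exact hp p hpp (hpd.trans (Nat.div_dvd_of_dvd hqd)))
      have hcq : c n.minFac = -1 := by
        have hnd : ¬ N ∣ n.minFac := by
          intro hd
          have := Nat.le_of_dvd (Nat.minFac_pos n) hd
          omega
        rcases hc.val _ hnd with h | h
        · exact absurd h (hp _ hq hqd)
        · exact h
      have e1 : lam n = lam n.minFac * lam (n / n.minFac) := by
        rw [← F5_lam_mul _ _ (Nat.minFac_pos n).ne' hpos.ne', hm]
      have e2 : c n = c n.minFac * c (n / n.minFac) := by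
        rw [← hc.mul, hm]
      rw [e1, e2, F5_lam_prime _ hq, hcq, ih']

private theorem F5_mem_DD {N : ℕ} {c : ℕ → ℝ} {n : ℕ} :
    n ∈ DD N c ↔ n < N ∧ 0 < n ∧ lam n ≠ c n := by
  unfold DD
  rw [Finset.mem_filter, Finset.mem_range]

private theorem F5_mem_Qp {N : ℕ} {c : ℕ → ℝ} {q : ℕ} :
    q ∈ Qp N c ↔ q < N ∧ q.Prime ∧ c q = 1 := by
  unfold Qp
  rw [Finset.mem_filter, Finset.mem_range]

private theorem F5_exists {N : ℕ} (hN : N.Prime) {c : ℕ → ℝ} (hc : QC N c) {n : ℕ}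
    (hn : n ∈ DD N c) : ∃ q ∈ Qp N c, q ∣ n := by
  rw [F5_mem_DD] at hn
  by_contra hcon
  apply hn.2.2
  apply F5_eq hN hc n hn.2.1 hn.1
  intro p hp hpd h1
  apply hcon
  refine ⟨p, F5_mem_Qp.2 ⟨?_, hp, h1⟩, hpd⟩
  exact lt_of_le_of_lt (Nat.le_of_dvd hn.2.1 hpd) hn.1

theorem F5a (N : ℕ) (hN : N.Prime) (c : ℕ → ℝ) (hc : QC N c) (y : ℕ) (hy : y < N) :
    (((DD N c).filter (fun n => n ≤ y)).card : ℝ) ≤ y * sig N c := by
  classical
  have hsub : (DD N c).filter (fun n => n ≤ y) ⊆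
      (Qp N c).biUnion (fun q => (Finset.Ioc 0 y).filter (fun n => q ∣ n)) := by
    intro n hn
    rw [Finset.mem_filter] at hn
    obtain ⟨q, hq, hqn⟩ := F5_exists hN hc hn.1
    rw [Finset.mem_biUnion]
    refine ⟨q, hq, ?_⟩
    rw [Finset.mem_filter, Finset.mem_Ioc]
    exact ⟨⟨(F5_mem_DD.1 hn.1).2.1, hn.2⟩, hqn⟩
  have h1 := (Finset.card_le_card hsub).trans Finset.card_biUnion_le
  calc (((DD N c).filter (fun n => n ≤ y)).card : ℝ)
      ≤ ((∑ q ∈ Qp N c, ((Finset.Ioc 0 y).filter (fun n => q ∣ n)).card : ℕ) : ℝ) := by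
        exact_mod_cast h1
    _ = ∑ q ∈ Qp N c, (((Finset.Ioc 0 y).filter (fun n => q ∣ n)).card : ℝ) := by
        push_cast
        rfl
    _ ≤ ∑ q ∈ Qp N c, (y : ℝ) * (1 / (q : ℝ)) := by
        apply Finset.sum_le_sum
        intro q _
        rw [Nat.Ioc_filter_dvd_card_eq_div]
        rw [mul_one_div]
        exact Nat.cast_div_le
    _ = y * sig N c := by
        rw [← Finset.mul_sum]
        rfl

private theorem F5_key {N : ℕ} (hN : N.Prime) {c : ℕ → ℝ} (hc : QC N c) (n : ℕ) (h0 : 0 < n)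
    (hn : n < N) :
    (((Qp N c).filter (fun q => q ∣ n)).card : ℝ) -
      (((Qp N c).filter (fun q => q ∣ n)).card : ℝ) *
        ((((Qp N c).filter (fun q => q ∣ n)).card : ℝ) - 1) -
      2 * (((Qp N c).filter (fun q => q ^ 2 ∣ n)).card : ℝ) ≤
    (if lam n ≠ c n then 1 else 0 : ℝ) := by
  classical
  have hpos : (0 : ℝ) ≤ (if lam n ≠ c n then 1 else 0 : ℝ) := by
    split_ifs <;> norm_num
  have hs : (0 : ℝ) ≤ (((Qp N c).filter (fun q => q ^ 2 ∣ n)).card : ℝ) := Nat.cast_nonneg _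
  rcases Nat.lt_trichotomy ((Qp N c).filter (fun q => q ∣ n)).card 1 with h | h | h
  · have h00 : ((Qp N c).filter (fun q => q ∣ n)).card = 0 := by omega
    rw [h00]
    push_cast
    linarith
  · rw [h]
    obtain ⟨q, hq⟩ := Finset.card_eq_one.1 h
    have hqm : q ∈ (Qp N c).filter (fun q => q ∣ n) := by rw [hq]; exact Finset.mem_singleton_self q
    rw [Finset.mem_filter, F5_mem_Qp] at hqm
    obtain ⟨⟨hqN, hqp, hcq⟩, hqn⟩ := hqm
    by_cases h2 : q ^ 2 ∣ n
    · have h1 : 1 ≤ ((Qp N c).filter (fun q => q ^ 2 ∣ n)).card := by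
        apply Finset.card_pos.2
        exact ⟨q, Finset.mem_filter.2 ⟨F5_mem_Qp.2 ⟨hqN, hqp, hcq⟩, h2⟩⟩
      have h1' : (1 : ℝ) ≤ (((Qp N c).filter (fun q => q ^ 2 ∣ n)).card : ℝ) := by
        exact_mod_cast h1
      push_cast
      linarith
    · obtain ⟨m, rfl⟩ := hqn
      have hm0 : 0 < m := Nat.pos_of_mul_pos_left h0 |> fun _ => by
        rcases Nat.eq_zero_or_pos m with hm | hm
        · rw [hm] at h0
          simp at h0
        · exact hm
      have hmN : m < N := lt_of_le_of_lt (Nat.le_mul_of_pos_left m hqp.pos) hn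
      have hqm' : ¬ q ∣ m := by
        intro hd
        apply h2
        rw [pow_two]
        exact Nat.mul_dvd_mul_left q hd
      have hlm : lam m = c m := by
        apply F5_eq hN hc m hm0 hmN
        intro p hp hpm hcp
        have hpmem : p ∈ (Qp N c).filter (fun p => p ∣ q * m) := by
          rw [Finset.mem_filter, F5_mem_Qp]
          exact ⟨⟨lt_of_le_of_lt (Nat.le_of_dvd hm0 hpm) hmN, hp, hcp⟩,
            Dvd.dvd.mul_left hpm q⟩
        rw [hq, Finset.mem_singleton] at hpmem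
        rw [hpmem] at hpm
        exact hqm' hpm
      have hne : lam (q * m) ≠ c (q * m) := by
        rw [F5_lam_mul q m hqp.ne_zero hm0.ne', hc.mul, F5_lam_prime q hqp, hcq, ← hlm]
        intro hcon
        have := F5_lam_ne m
        apply this
        linarith
      rw [if_pos hne]
      push_cast
      linarith
  · have h2 : (2 : ℝ) ≤ (((Qp N c).filter (fun q => q ∣ n)).card : ℝ) := by exact_mod_cast h
    nlinarith

theorem F5b (N : ℕ) (hN : N.Prime) (h3 : 100 ≤ N) (c : ℕ → ℝ) (hc : QC N c)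
    (hq : ∀ q ∈ Qp N c, 100 ≤ q) (hs : sig N c ≤ 1 / 100) :
    N * sig N c / 4 ≤ ((DD N c).card : ℝ) := by
  classical
  set S := Finset.Ioc 0 (N - 1) with hS
  set I : ℕ → ℕ → ℝ := fun d n => if d ∣ n then 1 else 0 with hI
  have hsn : 0 ≤ sig N c := by
    unfold sig
    exact Finset.sum_nonneg fun q _ => by positivity
  have hN0 : (0 : ℝ) < N := by
    have : 0 < N := by omega
    exact_mod_cast this
  have hcount : ∀ d : ℕ, ∑ n ∈ S, I d n = (((N - 1) / d : ℕ) : ℝ) := by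
    intro d
    rw [← Nat.Ioc_filter_dvd_card_eq_div (N - 1) d, Finset.card_filter]
    push_cast
    rfl
  have hcard1 : ∀ n, (((Qp N c).filter (fun q => q ∣ n)).card : ℝ) = ∑ q ∈ Qp N c, I q n := by
    intro n
    rw [Finset.card_filter]
    push_cast
    rfl
  have hcard2 : ∀ n, (((Qp N c).filter (fun q => q ^ 2 ∣ n)).card : ℝ) =
      ∑ q ∈ Qp N c, I (q ^ 2) n := by
    intro n
    rw [Finset.card_filter]
    push_cast
    rfl
  have hDD : ((DD N c).card : ℝ) = ∑ n ∈ S, (if lam n ≠ c n then 1 else 0 : ℝ) := by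
    have : DD N c = S.filter (fun n => lam n ≠ c n) := by
      ext n
      rw [F5_mem_DD, Finset.mem_filter, hS, Finset.mem_Ioc]
      constructor
      · rintro ⟨h1, h2, h3⟩
        exact ⟨⟨h2, by omega⟩, h3⟩
      · rintro ⟨⟨h1, h2⟩, h3⟩
        exact ⟨by omega, h1, h3⟩
    rw [this, Finset.card_filter]
    push_cast
    rfl
  have hsum : ∑ n ∈ S, (∑ q ∈ Qp N c, I q n - (∑ q ∈ Qp N c, I q n) *
      ((∑ q ∈ Qp N c, I q n) - 1) - 2 * ∑ q ∈ Qp N c, I (q ^ 2) n) ≤ ((DD N c).card : ℝ) := by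
    rw [hDD]
    apply Finset.sum_le_sum
    intro n hn
    rw [hS, Finset.mem_Ioc] at hn
    have := F5_key hN hc n hn.1 (by omega)
    rw [hcard1, hcard2] at this
    exact this
  -- the three sums
  have hA : ((N : ℝ) - 1) / 2 * sig N c ≤ ∑ n ∈ S, ∑ q ∈ Qp N c, I q n := by
    rw [Finset.sum_comm]
    unfold sig
    rw [Finset.mul_sum]
    apply Finset.sum_le_sum
    intro q hqm
    rw [hcount]
    obtain ⟨hqN, hqp, _⟩ := F5_mem_Qp.1 hqm
    have hq0 : (0 : ℝ) < q := by exact_mod_cast hqp.pos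
    have h1 : 1 ≤ (N - 1) / q := Nat.div_pos (by omega) hqp.pos
    have h2 : N - 1 < q * ((N - 1) / q + 1) := Nat.lt_mul_div_succ (N - 1) hqp.pos
    have h2' : ((N : ℝ) - 1) < q * ((((N - 1) / q : ℕ) : ℝ) + 1) := by
      have h4 : ((N - 1 : ℕ) : ℝ) < ((q * ((N - 1) / q + 1) : ℕ) : ℝ) := by exact_mod_cast h2
      rw [Nat.cast_sub (by omega : 1 ≤ N)] at h4
      push_cast at h4
      push_cast
      exact h4
    have h1' : (1 : ℝ) ≤ (((N - 1) / q : ℕ) : ℝ) := by exact_mod_cast h1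
    rw [mul_one_div, div_le_iff₀ hq0]
    nlinarith
  have hB : ∑ n ∈ S, (∑ q ∈ Qp N c, I q n) * ((∑ q ∈ Qp N c, I q n) - 1) ≤
      (N : ℝ) * (sig N c) ^ 2 := by
    have hII : ∀ q n, I q n * I q n = I q n := by
      intro q n
      simp only [hI]
      split_ifs <;> norm_num
    have e1 : ∀ n, (∑ q ∈ Qp N c, I q n) * ((∑ q ∈ Qp N c, I q n) - 1) =
        ∑ q ∈ Qp N c, ∑ q' ∈ (Qp N c).erase q, I q n * I q' n := by
      intro n
      rw [mul_sub, mul_one, Finset.sum_mul_sum, ← Finset.sum_sub_distrib]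
      apply Finset.sum_congr rfl
      intro q hqm
      rw [← Finset.add_sum_erase _ _ hqm, hII]
      ring
    rw [Finset.sum_congr rfl (fun n _ => e1 n), Finset.sum_comm]
    have e2 : ∀ q ∈ Qp N c, ∑ n ∈ S, ∑ q' ∈ (Qp N c).erase q, I q n * I q' n ≤
        (1 / (q : ℝ)) * (N * sig N c) := by
      intro q hqm
      rw [Finset.sum_comm]
      obtain ⟨hqN, hqp, _⟩ := F5_mem_Qp.1 hqm
      calc ∑ q' ∈ (Qp N c).erase q, ∑ n ∈ S, I q n * I q' n
          ≤ ∑ q' ∈ (Qp N c).erase q, (1 / (q : ℝ)) * (N * (1 / (q' : ℝ))) := by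
            apply Finset.sum_le_sum
            intro q' hq'
            rw [Finset.mem_erase] at hq'
            obtain ⟨hq'N, hq'p, _⟩ := F5_mem_Qp.1 hq'.2
            have hcop : Nat.Coprime q q' := (Nat.coprime_primes hqp hq'p).2 (fun h => hq'.1 h.symm)
            have e3 : ∀ n, I q n * I q' n = I (q * q') n := by
              intro n
              simp only [hI]
              by_cases h1 : q ∣ n
              · by_cases h2 : q' ∣ n
                · rw [if_pos h1, if_pos h2, if_pos (hcop.mul_dvd_of_dvd_of_dvd h1 h2)]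
                  norm_num
                · rw [if_pos h1, if_neg h2,
                    if_neg (fun h => h2 ((Dvd.intro_left q rfl).trans h))]
                  norm_num
              · rw [if_neg h1, if_neg (fun h => h1 ((Dvd.intro q' rfl).trans h))]
                norm_num
            rw [Finset.sum_congr rfl (fun n _ => e3 n), hcount]
            have h5 : (((N - 1) / (q * q') : ℕ) : ℝ) ≤ ((N - 1 : ℕ) : ℝ) / ((q * q' : ℕ) : ℝ) :=
              Nat.cast_div_le
            refine h5.trans ?_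
            have h6 : ((N - 1 : ℕ) : ℝ) ≤ N := by exact_mod_cast Nat.sub_le N 1
            have hqq : (0 : ℝ) < ((q * q' : ℕ) : ℝ) := by
              exact_mod_cast Nat.mul_pos hqp.pos hq'p.pos
            calc ((N - 1 : ℕ) : ℝ) / ((q * q' : ℕ) : ℝ) ≤ (N : ℝ) / ((q * q' : ℕ) : ℝ) :=
                  div_le_div_of_nonneg_right h6 hqq.le
              _ = (1 / (q : ℝ)) * (N * (1 / (q' : ℝ))) := by
                  push_cast
                  rw [one_div, one_div, div_eq_mul_inv, mul_inv]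
                  ring
        _ = (1 / (q : ℝ)) * (N * ∑ q' ∈ (Qp N c).erase q, (1 / (q' : ℝ))) := by
            rw [Finset.mul_sum, Finset.mul_sum]
        _ ≤ (1 / (q : ℝ)) * (N * sig N c) := by
            have h7 : ∑ q' ∈ (Qp N c).erase q, (1 / (q' : ℝ)) ≤ sig N c := by
              unfold sig
              apply Finset.sum_le_sum_of_subset_of_nonneg (Finset.erase_subset _ _)
              intro x _ _
              positivity
            gcongr
    calc ∑ q ∈ Qp N c, ∑ n ∈ S, ∑ q' ∈ (Qp N c).erase q, I q n * I q' n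
        ≤ ∑ q ∈ Qp N c, (1 / (q : ℝ)) * (N * sig N c) := Finset.sum_le_sum e2
      _ = (N : ℝ) * (sig N c) ^ 2 := by
          rw [← Finset.sum_mul]
          change sig N c * (N * sig N c) = _
          ring
  have hC : ∑ n ∈ S, ∑ q ∈ Qp N c, I (q ^ 2) n ≤ (N : ℝ) * sig N c / 100 := by
    rw [Finset.sum_comm]
    have e : (N : ℝ) * sig N c / 100 = ∑ q ∈ Qp N c, (N : ℝ) / 100 * (1 / (q : ℝ)) := by
      rw [← Finset.mul_sum]
      change _ = (N : ℝ) / 100 * sig N c
      ring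
    rw [e]
    apply Finset.sum_le_sum
    intro q hqm
    rw [hcount]
    obtain ⟨hqN, hqp, _⟩ := F5_mem_Qp.1 hqm
    have hq0 : (0 : ℝ) < q := by exact_mod_cast hqp.pos
    have hq100 : (100 : ℝ) ≤ q := by exact_mod_cast hq q hqm
    have h5 : (((N - 1) / (q ^ 2) : ℕ) : ℝ) ≤ ((N - 1 : ℕ) : ℝ) / ((q ^ 2 : ℕ) : ℝ) :=
      Nat.cast_div_le
    refine h5.trans ?_
    have h6 : ((N - 1 : ℕ) : ℝ) ≤ N := by exact_mod_cast Nat.sub_le N 1
    push_cast
    rw [div_le_iff₀ (by positivity)]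
    have e2 : (N : ℝ) / 100 * (1 / (q : ℝ)) * (q : ℝ) ^ 2 = N * (q / 100) := by
      field_simp
    rw [e2]
    have h8 : (1 : ℝ) ≤ q / 100 := by
      rw [le_div_iff₀ (by norm_num)]
      linarith
    nlinarith
  rw [Finset.sum_sub_distrib, Finset.sum_sub_distrib, ← Finset.mul_sum] at hsum
  have h100 : (100 : ℝ) ≤ N := by exact_mod_cast h3
  nlinarith [mul_nonneg hsn hN0.le, mul_le_mul_of_nonneg_right hs (mul_nonneg hsn hN0.le),
    mul_nonneg hsn (sub_nonneg.2 h100)]

end Pool.Agent.Lib.MP_7b7e48_nt.LG
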