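import Pool.Agent.Lib.MP_7b7e48_nt.LG.Defs
import Pool.Agent.Lib.MP_7b7e48_nt.LG.F3

/-!
# Module F5r (60 minutes): logarithmic sums of `rho`

`V = ∑_{2 ≤ d < N} rho c d / d`. PROOF of `F5c`. If `rho c d ≠ 0` and `d ≥ 2`, all prime factors of `d` are in
`Qp` (`d < N`); let `q` be the smallest one, `d = q d'`: `rho c d ≤ 2 rho c d'`. So
`V ≤ ∑_{q ∈ Qp} (2/q) (1 + V) = 2 sig (1 + V)`, hence `V ≤ 3 sig` for `sig ≤ 1/100`.
`F5d`: if `lam d = 1`, `d ≥ 2`, then `d' ≥ 2` (`lam d' = -1`): sum `≤ 2 sig V ≤ 6 sig^2`.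
`F5e`: `Rho c (N-1) = 1 + ∑_{2 ≤ d < N} rho c d ≤ 1 + N V`.
-/

open Finset
open Pool.Agent.Lib.MP_45349e_nt.LS (lam)

namespace Pool.Agent.Lib.MP_7b7e48_nt.LG

private theorem F5r_one {N : ℕ} (hN : N.Prime) {c : ℕ → ℝ} : rho c 1 = 1 := by
  simp [rho]

private theorem F5r_nonneg (c : ℕ → ℝ) (n : ℕ) : 0 ≤ rho c n := by
  unfold rho
  split_ifs
  · positivity
  · exact le_rfl

private theorem F5r_step (N : ℕ) (c : ℕ → ℝ) (d : ℕ) (h2 : 2 ≤ d) (hd : d ≤ N - 1)
    (hr : rho c d ≠ 0) : d.minFac ∈ Qp N c ∧ rho c d ≤ 2 * rho c (d / d.minFac) := by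
  have hcp : ∀ p ∈ d.primeFactors, c p = 1 := by
    by_contra hcon
    exact hr (by unfold rho; exact if_neg hcon)
  have hd0 : d ≠ 0 := by omega
  have hq : d.minFac.Prime := Nat.minFac_prime (by omega)
  have hqd : d.minFac ∣ d := Nat.minFac_dvd d
  have hqmem : d.minFac ∈ d.primeFactors := Nat.mem_primeFactors.2 ⟨hq, hqd, hd0⟩
  have hqle : d.minFac ≤ d := Nat.minFac_le (by omega)
  refine ⟨?_, ?_⟩
  · unfold Qp
    rw [Finset.mem_filter, Finset.mem_range]
    exact ⟨by omega, hq, hcp _ hqmem⟩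
  · have hdd : d / d.minFac ∣ d := Nat.div_dvd_of_dvd hqd
    have hd'0 : d / d.minFac ≠ 0 := by
      intro h0
      rw [h0] at hdd
      exact hd0 (Nat.eq_zero_of_zero_dvd hdd)
    have hsub : (d / d.minFac).primeFactors ⊆ d.primeFactors := Nat.primeFactors_mono hdd hd0
    have hcp' : ∀ p ∈ (d / d.minFac).primeFactors, c p = 1 := fun p hp => hcp p (hsub hp)
    have e1 : rho c d = 2 ^ d.primeFactors.card := by unfold rho; exact if_pos hcp
    have e2 : rho c (d / d.minFac) = 2 ^ (d / d.minFac).primeFactors.card := by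
      unfold rho; exact if_pos hcp'
    rw [e1, e2]
    have hins : d.primeFactors ⊆ insert d.minFac (d / d.minFac).primeFactors := by
      intro p hp
      rw [Nat.mem_primeFactors] at hp
      rw [Finset.mem_insert]
      have hm : d.minFac * (d / d.minFac) = d := Nat.mul_div_cancel' hqd
      have hp2 : p ∣ d.minFac * (d / d.minFac) := by rw [hm]; exact hp.2.1
      rcases (hp.1.dvd_mul).1 hp2 with h | h
      · left
        exact (Nat.prime_dvd_prime_iff_eq hp.1 hq).1 h
      · right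
        exact Nat.mem_primeFactors.2 ⟨hp.1, h, hd'0⟩
    have hcard : d.primeFactors.card ≤ (d / d.minFac).primeFactors.card + 1 :=
      (Finset.card_le_card hins).trans (Finset.card_insert_le _ _)
    calc (2 : ℝ) ^ d.primeFactors.card ≤ 2 ^ ((d / d.minFac).primeFactors.card + 1) :=
          pow_le_pow_right₀ (by norm_num) hcard
      _ = 2 * 2 ^ (d / d.minFac).primeFactors.card := by ring

private theorem F5r_main (N : ℕ) (c : ℕ → ℝ) (T U : Finset ℕ)
    (hT : ∀ d ∈ T, 2 ≤ d ∧ d ≤ N - 1)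
    (hU : ∀ d ∈ T, rho c d ≠ 0 → d / d.minFac ∈ U) :
    ∑ d ∈ T, rho c d / d ≤ 2 * sig N c * ∑ d ∈ U, rho c d / d := by
  classical
  have h1 : ∑ d ∈ T, rho c d / d = ∑ d ∈ T.filter (fun d => rho c d ≠ 0), rho c d / d := by
    rw [Finset.sum_filter]
    apply Finset.sum_congr rfl
    intro d _
    by_cases h : rho c d = 0
    · simp [h]
    · simp [h]
  rw [h1]
  have hinj : ∀ a ∈ T.filter (fun d => rho c d ≠ 0), ∀ b ∈ T.filter (fun d => rho c d ≠ 0),
      ((a.minFac, a / a.minFac) : ℕ × ℕ) = (b.minFac, b / b.minFac) → a = b := by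
    intro a _ b _ h
    have h1 : a.minFac = b.minFac := congrArg Prod.fst h
    have h2 : a / a.minFac = b / b.minFac := congrArg Prod.snd h
    rw [← Nat.mul_div_cancel' (Nat.minFac_dvd a), ← Nat.mul_div_cancel' (Nat.minFac_dvd b), h2, h1]
  calc ∑ d ∈ T.filter (fun d => rho c d ≠ 0), rho c d / d
      ≤ ∑ d ∈ T.filter (fun d => rho c d ≠ 0),
          (1 / (d.minFac : ℝ)) * (2 * (rho c (d / d.minFac) / ((d / d.minFac : ℕ) : ℝ))) := by
        apply Finset.sum_le_sum
        intro d hd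
        rw [Finset.mem_filter] at hd
        obtain ⟨h2, hle⟩ := hT d hd.1
        obtain ⟨_, hr⟩ := F5r_step N c d h2 hle hd.2
        have hm : (d.minFac : ℝ) * ((d / d.minFac : ℕ) : ℝ) = d := by
          rw [← Nat.cast_mul, Nat.mul_div_cancel' (Nat.minFac_dvd d)]
        have hd0 : (0 : ℝ) < d := by
          have : 0 < d := by omega
          exact_mod_cast this
        have e : (1 / (d.minFac : ℝ)) * (2 * (rho c (d / d.minFac) / ((d / d.minFac : ℕ) : ℝ))) =
            2 * rho c (d / d.minFac) / d := by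
          rw [← hm]
          ring
        rw [e]
        exact div_le_div_of_nonneg_right hr hd0.le
    _ = ∑ x ∈ (T.filter (fun d => rho c d ≠ 0)).image
          (fun a => ((a.minFac, a / a.minFac) : ℕ × ℕ)),
          (1 / (x.1 : ℝ)) * (2 * (rho c x.2 / (x.2 : ℝ))) := by
        rw [Finset.sum_image hinj]
    _ ≤ ∑ x ∈ Qp N c ×ˢ U, (1 / (x.1 : ℝ)) * (2 * (rho c x.2 / (x.2 : ℝ))) := by
        apply Finset.sum_le_sum_of_subset_of_nonneg
        · intro x hx
          rw [Finset.mem_image] at hx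
          obtain ⟨a, ha, rfl⟩ := hx
          rw [Finset.mem_filter] at ha
          obtain ⟨h2, hle⟩ := hT a ha.1
          rw [Finset.mem_product]
          exact ⟨(F5r_step N c a h2 hle ha.2).1, hU a ha.1 ha.2⟩
        · intro x _ _
          have := F5r_nonneg c x.2
          positivity
    _ = 2 * sig N c * ∑ d ∈ U, rho c d / d := by
        rw [Finset.sum_product]
        have e : ∀ q ∈ Qp N c, ∑ y ∈ U, 1 / (((q, y) : ℕ × ℕ).1 : ℝ) *
            (2 * (rho c ((q, y) : ℕ × ℕ).2 / (((q, y) : ℕ × ℕ).2 : ℝ))) =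
            (1 / (q : ℝ)) * (2 * ∑ d ∈ U, rho c d / d) := by
          intro q _
          rw [Finset.mul_sum, Finset.mul_sum]
        rw [Finset.sum_congr rfl e, ← Finset.sum_mul]
        unfold sig
        ring

private theorem F5r_sig_nonneg (N : ℕ) (c : ℕ → ℝ) : 0 ≤ sig N c := by
  unfold sig
  exact Finset.sum_nonneg fun q _ => by positivity

theorem F5c (N : ℕ) (hN : N.Prime) (c : ℕ → ℝ) (hc : QC N c) (hs : sig N c ≤ 1 / 100) :
    ∑ d ∈ Finset.Icc 2 (N - 1), rho c d / d ≤ 3 * sig N c := by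
  have hN2 : 2 ≤ N := hN.two_le
  have h := F5r_main N c (Finset.Icc 2 (N - 1)) (Finset.Icc 1 (N - 1))
    (fun d hd => Finset.mem_Icc.1 hd) (by
      intro d hd hr
      rw [Finset.mem_Icc] at hd ⊢
      constructor
      · exact Nat.div_pos (Nat.minFac_le (by omega)) (Nat.minFac_pos d)
      · exact (Nat.div_le_self _ _).trans hd.2)
  have hsplit : ∑ d ∈ Finset.Icc 1 (N - 1), rho c d / d =
      1 + ∑ d ∈ Finset.Icc 2 (N - 1), rho c d / d := by
    rw [← Finset.add_sum_Ioc_eq_sum_Icc (by omega : 1 ≤ N - 1)]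
    rw [F5r_one hN]
    congr 1
    simp
  rw [hsplit] at h
  have hsn := F5r_sig_nonneg N c
  have hV : 0 ≤ ∑ d ∈ Finset.Icc 2 (N - 1), rho c d / d :=
    Finset.sum_nonneg fun d _ => div_nonneg (F5r_nonneg c d) (Nat.cast_nonneg _)
  set V := ∑ d ∈ Finset.Icc 2 (N - 1), rho c d / d with hVdef
  nlinarith [mul_nonneg hsn hV, mul_le_mul_of_nonneg_right hs hV]

theorem F5d (N : ℕ) (hN : N.Prime) (c : ℕ → ℝ) (hc : QC N c) (hs : sig N c ≤ 1 / 100) :
    ∑ d ∈ (Finset.Icc 2 (N - 1)).filter (fun d => lam d = 1), rho c d / d ≤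
      6 * (sig N c) ^ 2 := by
  have h := F5r_main N c ((Finset.Icc 2 (N - 1)).filter (fun d => lam d = 1))
    (Finset.Icc 2 (N - 1))
    (fun d hd => Finset.mem_Icc.1 (Finset.mem_filter.1 hd).1) (by
      intro d hd hr
      rw [Finset.mem_filter, Finset.mem_Icc] at hd
      rw [Finset.mem_Icc]
      refine ⟨?_, (Nat.div_le_self _ _).trans hd.1.2⟩
      by_contra hlt
      have hpos : 0 < d / d.minFac := Nat.div_pos (Nat.minFac_le (by omega)) (Nat.minFac_pos d)
      have h1 : d / d.minFac = 1 := by omega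
      have hm : d.minFac * (d / d.minFac) = d := Nat.mul_div_cancel' (Nat.minFac_dvd d)
      rw [h1, mul_one] at hm
      have hp : d.Prime := by
        have := Nat.minFac_prime (n := d) (by omega)
        rw [hm] at this
        exact this
      have hl : lam d = -1 := by
        unfold lam
        rw [ArithmeticFunction.cardFactors_apply_prime hp]
        norm_num
      have := hd.2
      rw [hl] at this
      norm_num at this)
  have hV := F5c N hN c hc hs
  have hsn := F5r_sig_nonneg N c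
  calc _ ≤ 2 * sig N c * ∑ d ∈ Finset.Icc 2 (N - 1), rho c d / d := h
    _ ≤ 2 * sig N c * (3 * sig N c) := by gcongr
    _ = 6 * (sig N c) ^ 2 := by ring

theorem F5e (N : ℕ) (hN : N.Prime) (c : ℕ → ℝ) (hc : QC N c) (hs : sig N c ≤ 1 / 100) :
    Rho c (N - 1) ≤ 1 + 3 * N * sig N c := by
  have hN2 : 2 ≤ N := hN.two_le
  have hsplit : Rho c (N - 1) = 1 + ∑ d ∈ Finset.Icc 2 (N - 1), rho c d := by
    unfold Rho
    rw [← Finset.add_sum_Ioc_eq_sum_Icc (by omega : 1 ≤ N - 1), F5r_one hN]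
    congr 1
  rw [hsplit]
  have h1 : ∑ d ∈ Finset.Icc 2 (N - 1), rho c d ≤
      ∑ d ∈ Finset.Icc 2 (N - 1), (N : ℝ) * (rho c d / d) := by
    apply Finset.sum_le_sum
    intro d hd
    rw [Finset.mem_Icc] at hd
    have hd0 : (0 : ℝ) < d := by
      have : 0 < d := by omega
      exact_mod_cast this
    have hdN : (d : ℝ) ≤ N := by
      have : d ≤ N := by omega
      exact_mod_cast this
    have hr := F5r_nonneg c d
    rw [mul_div_assoc', le_div_iff₀ hd0]
    nlinarith
  rw [← Finset.mul_sum] at h1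
  have hV := F5c N hN c hc hs
  have hN0 : (0 : ℝ) ≤ N := Nat.cast_nonneg _
  nlinarith [mul_le_mul_of_nonneg_left hV hN0]

end Pool.Agent.Lib.MP_7b7e48_nt.LG
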