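import Pool.Agent.Lib.MP_7b7e48_nt.LG.Defs
import Pool.Agent.Lib.MP_7b7e48_nt.LG.F4
import Pool.Agent.Lib.MP_7b7e48_nt.LG.F5
import Pool.Agent.Lib.MP_7b7e48_nt.LG.F5r

/-!
# Module F5z (40 minutes): the exceptional set is large

PROOF. `F4` at `z = N - 1`: `c0 L (N-1) - C N^(3/4) (log N)^2 ≤ Rho c (N-1) ≤ 1 + 3 N sig ≤ 1 + 12 #DD`
(`F5e`, `F5b`), `c0 ≥ 1/4`, and `L N ≥ N^(89/90)` beats `N^(3/4) (log N)^2`. So `N L ≤ 100 #DD`.
-/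

open Finset
open Pool.Agent.Lib.MP_45349e_nt.LS (lam)

namespace Pool.Agent.Lib.MP_7b7e48_nt.LG

private lemma F5z_e1 (C : ℝ) : ∀ᶠ x : ℝ in Filter.atTop,
    1 + C * x ^ ((3 : ℝ) / 4) * (Real.log x) ^ 2 ≤ x ^ ((89 : ℝ) / 90) / 100 := by
  have h1 : (fun x : ℝ => Real.log x ^ (2 : ℝ)) =o[Filter.atTop] fun x : ℝ => x ^ ((1 : ℝ) / 10) :=
    isLittleO_log_rpow_rpow_atTop 2 (by norm_num)
  have h2 : ∀ᶠ x : ℝ in Filter.atTop,
      ‖Real.log x ^ (2 : ℝ)‖ ≤ 1 / (200 * (|C| + 1)) * ‖x ^ ((1 : ℝ) / 10)‖ :=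
    h1.bound (by positivity)
  have h3 : Filter.Tendsto (fun x : ℝ => x ^ ((89 : ℝ) / 90)) Filter.atTop Filter.atTop :=
    tendsto_rpow_atTop (by norm_num)
  filter_upwards [h2, h3.eventually_ge_atTop 200, Filter.eventually_ge_atTop 1] with x hx hx2 hx1
  have hx0 : 0 < x := by linarith
  have hlog : 0 ≤ Real.log x := Real.log_nonneg hx1
  rw [Real.norm_of_nonneg (Real.rpow_nonneg hlog _),
    Real.norm_of_nonneg (Real.rpow_nonneg hx0.le _)] at hx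
  have e2 : Real.log x ^ (2 : ℝ) = (Real.log x) ^ 2 := Real.rpow_two _
  rw [e2] at hx
  have hp : x ^ ((3 : ℝ) / 4) * x ^ ((1 : ℝ) / 10) ≤ x ^ ((89 : ℝ) / 90) := by
    rw [← Real.rpow_add hx0]
    exact Real.rpow_le_rpow_of_exponent_le hx1 (by norm_num)
  have hA : 0 ≤ x ^ ((3 : ℝ) / 4) := Real.rpow_nonneg hx0.le _
  have hT : 0 ≤ x ^ ((1 : ℝ) / 10) := Real.rpow_nonneg hx0.le _
  have hC : C * x ^ ((3 : ℝ) / 4) * (Real.log x) ^ 2 ≤ x ^ ((89 : ℝ) / 90) / 200 := by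
    have hCC : C ≤ |C| + 1 := by linarith [le_abs_self C]
    have hCp : 0 < |C| + 1 := by positivity
    calc C * x ^ ((3 : ℝ) / 4) * (Real.log x) ^ 2
        ≤ (|C| + 1) * x ^ ((3 : ℝ) / 4) * (Real.log x) ^ 2 := by
          apply mul_le_mul_of_nonneg_right _ (sq_nonneg _)
          exact mul_le_mul_of_nonneg_right hCC hA
      _ ≤ (|C| + 1) * x ^ ((3 : ℝ) / 4) * (1 / (200 * (|C| + 1)) * x ^ ((1 : ℝ) / 10)) :=
          mul_le_mul_of_nonneg_left hx (by positivity)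
      _ = (x ^ ((3 : ℝ) / 4) * x ^ ((1 : ℝ) / 10)) / 200 := by
          field_simp
      _ ≤ x ^ ((89 : ℝ) / 90) / 200 := by linarith
  linarith

private lemma F5z_e2 : ∀ᶠ x : ℝ in Filter.atTop,
    100 * x ^ ((197 : ℝ) / 200) ≤ x ^ ((89 : ℝ) / 90) := by
  have h3 : Filter.Tendsto (fun x : ℝ => x ^ ((89 : ℝ) / 90 - 197 / 200)) Filter.atTop
      Filter.atTop := tendsto_rpow_atTop (by norm_num)
  filter_upwards [h3.eventually_ge_atTop 100, Filter.eventually_ge_atTop 1] with x hx hx1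
  have hx0 : 0 < x := by linarith
  have e : x ^ ((89 : ℝ) / 90) = x ^ ((89 : ℝ) / 90 - 197 / 200) * x ^ ((197 : ℝ) / 200) := by
    rw [← Real.rpow_add hx0]
    norm_num
  rw [e]
  exact mul_le_mul_of_nonneg_right hx (Real.rpow_nonneg hx0.le _)

theorem F5z : ∃ N0 : ℕ, ∀ N : ℕ, N0 ≤ N → N.Prime → ∀ (c : ℕ → ℝ) (L : ℝ), QC N c → LV N c L →
    (N : ℝ) ^ (-(1 / 90) : ℝ) ≤ L → (∀ q ∈ Qp N c, 100 ≤ q) → sig N c ≤ 1 / 100 →
    N * L ≤ 100 * ((DD N c).card : ℝ) ∧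
      (N : ℝ) ^ ((197 : ℝ) / 200) ≤ ((DD N c).card : ℝ) := by
  obtain ⟨C, hC, h4⟩ := F4
  obtain ⟨c1, -⟩ := F4c
  have ev : ∀ᶠ n : ℕ in Filter.atTop,
      (1 + C * (n : ℝ) ^ ((3 : ℝ) / 4) * (Real.log n) ^ 2 ≤ (n : ℝ) ^ ((89 : ℝ) / 90) / 100) ∧
      100 * (n : ℝ) ^ ((197 : ℝ) / 200) ≤ (n : ℝ) ^ ((89 : ℝ) / 90) :=
    tendsto_natCast_atTop_atTop.eventually ((F5z_e1 C).and F5z_e2)
  obtain ⟨N1, hN1⟩ := Filter.eventually_atTop.1 ev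
  refine ⟨max N1 100, ?_⟩
  intro N hN hp c L hc hL hLN hq hs
  have hNN1 : N1 ≤ N := le_trans (le_max_left _ _) hN
  have h100 : 100 ≤ N := le_trans (le_max_right _ _) hN
  obtain ⟨a1, a2⟩ := hN1 N hNN1
  have hNpos : (0 : ℝ) < N := by exact_mod_cast (show 0 < N by omega)
  have hNR : (100 : ℝ) ≤ N := by exact_mod_cast h100
  have hLpos : 0 < L := lt_of_lt_of_le (Real.rpow_pos_of_pos hNpos _) hLN
  -- `N L ≥ N^(89/90)`
  have hNL : (N : ℝ) ^ ((89 : ℝ) / 90) ≤ N * L := by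
    have e : (N : ℝ) ^ ((89 : ℝ) / 90) = N * (N : ℝ) ^ (-(1 / 90) : ℝ) := by
      nth_rewrite 2 [← Real.rpow_one (N : ℝ)]
      rw [← Real.rpow_add hNpos]
      norm_num
    rw [e]
    exact mul_le_mul_of_nonneg_left hLN hNpos.le
  have b4 := h4 N (by omega) hp c L hc hL (N - 1) (by omega) (by omega)
  have b5 := F5e N hp c hc hs
  have b6 := F5b N hp h100 c hc hq hs
  have hcast : ((N - 1 : ℕ) : ℝ) = (N : ℝ) - 1 := by
    rw [Nat.cast_sub (by omega)]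
    norm_num
  rw [hcast] at b4
  have b7 : c0 * L * ((N : ℝ) - 1) - Rho c (N - 1) ≤
      C * Real.sqrt ((N : ℝ) - 1) * (N : ℝ) ^ ((1 : ℝ) / 4) * (Real.log N) ^ 2 := by
    have := (abs_le.1 b4).1
    linarith
  have b8 : C * Real.sqrt ((N : ℝ) - 1) * (N : ℝ) ^ ((1 : ℝ) / 4) * (Real.log N) ^ 2 ≤
      C * (N : ℝ) ^ ((3 : ℝ) / 4) * (Real.log N) ^ 2 := by
    have e1 : Real.sqrt ((N : ℝ) - 1) ≤ (N : ℝ) ^ ((1 : ℝ) / 2) := by
      rw [← Real.sqrt_eq_rpow]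
      exact Real.sqrt_le_sqrt (by linarith)
    have e2 : (N : ℝ) ^ ((3 : ℝ) / 4) = (N : ℝ) ^ ((1 : ℝ) / 2) * (N : ℝ) ^ ((1 : ℝ) / 4) := by
      rw [← Real.rpow_add hNpos]
      norm_num
    apply mul_le_mul_of_nonneg_right _ (sq_nonneg _)
    rw [e2, ← mul_assoc]
    apply mul_le_mul_of_nonneg_right _ (Real.rpow_nonneg hNpos.le _)
    exact mul_le_mul_of_nonneg_left e1 hC.le
  have b9 : 1 / 4 * L * ((N : ℝ) - 1) ≤ c0 * L * ((N : ℝ) - 1) := by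
    apply mul_le_mul_of_nonneg_right _ (by linarith)
    exact mul_le_mul_of_nonneg_right c1 hLpos.le
  have b10 : L * 100 ≤ N * L := by nlinarith
  have main : N * L ≤ 100 * ((DD N c).card : ℝ) := by nlinarith
  exact ⟨main, by linarith⟩

end Pool.Agent.Lib.MP_7b7e48_nt.LG
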