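import Pool.Agent.Lib.MP_7b7e48_nt.LG.Defs
import Pool.Agent.Lib.MP_7b7e48_nt.LG.LA1

/-!
# Module LA2 (60 minutes): the sum of `lam n / n`

PROOF. Let `L(y) = ∑_{n ≤ y} lam n`. `∑_{d ∣ n} lam d` is `1` if `n` is a square and `0` otherwise, so
`∑_{d ≤ y} lam d * (y / d) = Nat.sqrt y` (natural division). Let `J = ⌊(log y)^(A+1)⌋ + 1`, `z = y / J`.
For `d > z`: `∑_{z < d ≤ y} lam d * (y/d) = ∑_{k < J'} (L(y/k) - L(z))` summed over `1 ≤ k ≤ J`
(write `y/d = #{k : k d ≤ y}`, all such `k` are `≤ J + 1`), each `|L(y/k)| ≤ C y/(k (log (y/k))^B)` by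
`LA0 B`, `|L(z)| ≤ C z/(log z)^B`; with `B = 3 A + 5` the sum is `≤ C' y/(log y)^A`. So
`|∑_{d ≤ z} lam d * (y/d)| ≤ C'' y/(log y)^A`; replace the natural quotient by `y / d` (error `≤ z`), divide
by `y`: `|∑_{d ≤ z} lam d / d| ≤ C/(log y)^A` with `z = y / J`. To pass from `z` to a given `Y`: take
`y` with `y / J(y)` near `Y`, or bound `∑_{z < d ≤ y} lam d / d` by partial summation with `LA0`
(`≤ C (log J + 1) max |L(t)|/t ≤ C/(log y)^A`); the second way is simplest: it gives the bound at `y`.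
-/

open Finset
open Pool.Agent.Lib.MP_45349e_nt.LS (lam)

namespace Pool.Agent.Lib.MP_7b7e48_nt.LG

open ArithmeticFunction in
private theorem LA2_pp (p k : ℕ) (hp : p.Prime) :
    (liouville * ((zeta : ArithmeticFunction ℕ) : ArithmeticFunction ℤ)) (p ^ k) =
      if Even k then 1 else 0 := by
  rw [coe_mul_zeta_apply, Nat.sum_divisors_prime_pow hp]
  have h : ∀ j ∈ Finset.range (k + 1), liouville (p ^ j) = (-1 : ℤ) ^ j := by
    intro j _
    rw [liouville_apply (pow_ne_zero j hp.ne_zero), cardFactors_apply_prime_pow hp]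
  rw [Finset.sum_congr rfl h, neg_one_geom_sum]
  by_cases hk : Even k
  · rw [if_pos hk, if_neg (by rw [Nat.even_add_one]; exact fun h => h hk)]
  · rw [if_neg hk, if_pos (by rw [Nat.even_add_one]; exact hk)]

open ArithmeticFunction in
private theorem LA2_val (n : ℕ) (hn : n ≠ 0) :
    |(liouville * ((zeta : ArithmeticFunction ℕ) : ArithmeticFunction ℤ)) n| ≤
      if IsSquare n then 1 else 0 := by
  have hf : IsMultiplicative (liouville * ((zeta : ArithmeticFunction ℕ) :
      ArithmeticFunction ℤ)) := isMultiplicative_liouville.mul isMultiplicative_zeta.natCast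
  rw [hf.multiplicative_factorization _ hn]
  unfold Finsupp.prod
  have h1 : ∀ p ∈ n.factorization.support,
      (liouville * ((zeta : ArithmeticFunction ℕ) : ArithmeticFunction ℤ))
        (p ^ n.factorization p) = if Even (n.factorization p) then 1 else 0 := by
    intro p hp
    rw [Nat.support_factorization] at hp
    exact LA2_pp p _ (Nat.prime_of_mem_primeFactors hp)
  rw [Finset.prod_congr rfl h1]
  by_cases hall : ∀ p ∈ n.factorization.support, Even (n.factorization p)
  · have hsq : IsSquare n := by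
      obtain ⟨a, b, ha, hb, hab, hsq⟩ := Nat.sq_mul_squarefree_of_pos (Nat.pos_of_ne_zero hn)
      have ha1 : a = 1 := by
        by_contra hne
        obtain ⟨p, hp, hpa⟩ := Nat.exists_prime_and_dvd hne
        have h2 : p ∈ n.factorization.support := by
          rw [Nat.support_factorization, Nat.mem_primeFactors]
          exact ⟨hp, by rw [← hab]; exact Dvd.dvd.mul_left hpa _, hn⟩
        have h3 := hall p h2
        have h4 : n.factorization p = 2 * b.factorization p + a.factorization p := by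
          rw [← hab, Nat.factorization_mul (pow_ne_zero 2 hb.ne') ha.ne', Nat.factorization_pow]
          simp
        have h5 := Squarefree.natFactorization_le_one p hsq
        have h6 : 1 ≤ a.factorization p := (hp.dvd_iff_one_le_factorization ha.ne').1 hpa
        obtain ⟨r, hr⟩ := h3
        omega
      refine ⟨b, ?_⟩
      rw [← hab, ha1, mul_one, pow_two]
    rw [if_pos hsq, Finset.prod_congr rfl (fun p hp => if_pos (hall p hp)), Finset.prod_const_one,
      abs_one]
  · push Not at hall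
    obtain ⟨p, hp, hodd⟩ := hall
    rw [Finset.prod_eq_zero hp (if_neg hodd), abs_zero]
    split_ifs <;> norm_num

open ArithmeticFunction in
private theorem LA2_sq (y : ℕ) :
    |∑ d ∈ Finset.Icc 1 y, lam d * ((y / d : ℕ) : ℝ)| ≤ Real.sqrt y := by
  have h := sum_Ioc_mul_zeta_eq_sum liouville y
  have e1 : ∑ d ∈ Finset.Icc 1 y, lam d * ((y / d : ℕ) : ℝ) =
      ((∑ n ∈ Finset.Ioc 0 y, liouville n * ((y / n : ℕ) : ℤ) : ℤ) : ℝ) := by
    rw [Int.cast_sum]
    have e0 : Finset.Icc 1 y = Finset.Ioc 0 y := by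
      ext a
      rw [Finset.mem_Icc, Finset.mem_Ioc]
      omega
    rw [e0]
    refine Finset.sum_congr rfl fun d hd => ?_
    rw [Finset.mem_Ioc] at hd
    rw [liouville_apply (by omega)]
    unfold MP_45349e_nt.LS.lam
    push_cast
    rfl
  rw [e1, ← h]
  rw [← Int.cast_abs]
  have h2 : |∑ n ∈ Finset.Ioc 0 y, (liouville * ((zeta : ArithmeticFunction ℕ) :
      ArithmeticFunction ℤ)) n| ≤ (Nat.sqrt y : ℤ) := by
    refine (Finset.abs_sum_le_sum_abs _ _).trans ?_
    refine (Finset.sum_le_sum fun n hn => LA2_val n (by rw [Finset.mem_Ioc] at hn; omega)).trans ?_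
    rw [← Finset.sum_filter, Finset.sum_const, nsmul_eq_mul, mul_one]
    have h3 : (Finset.Ioc 0 y).filter (fun n => IsSquare n) ⊆
        (Finset.Icc 1 (Nat.sqrt y)).image (fun b => b * b) := by
      intro n hn
      rw [Finset.mem_filter, Finset.mem_Ioc] at hn
      obtain ⟨⟨h4, h5⟩, b, hb⟩ := hn
      rw [Finset.mem_image]
      refine ⟨b, ?_, hb.symm⟩
      rw [Finset.mem_Icc]
      constructor
      · by_contra h6
        have : b = 0 := by omega
        rw [this] at hb
        omega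
      · rw [Nat.le_sqrt]
        omega
    have h6 := (Finset.card_le_card h3).trans Finset.card_image_le
    rw [Nat.card_Icc, Nat.add_sub_cancel] at h6
    exact_mod_cast h6
  have h7 : ((|∑ n ∈ Finset.Ioc 0 y, (liouville * ((zeta : ArithmeticFunction ℕ) :
      ArithmeticFunction ℤ)) n| : ℤ) : ℝ) ≤ ((Nat.sqrt y : ℤ) : ℝ) := by exact_mod_cast h2
  refine h7.trans ?_
  rw [Int.cast_natCast]
  exact Real.nat_sqrt_le_real_sqrt

private theorem LA2_cnt (K z d : ℕ) (hz : 1 ≤ z) (hd : z < d) :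
    ((K * z / d : ℕ) : ℝ) = ∑ k ∈ Finset.Icc 1 K, if k * d ≤ K * z then (1 : ℝ) else 0 := by
  rw [← Finset.sum_filter, Finset.sum_const, nsmul_eq_mul, mul_one]
  have h1 : (Finset.Icc 1 K).filter (fun k => k * d ≤ K * z) = Finset.Icc 1 (K * z / d) := by
    ext k
    rw [Finset.mem_filter, Finset.mem_Icc, Finset.mem_Icc, Nat.le_div_iff_mul_le (by omega)]
    constructor
    · rintro ⟨⟨h2, -⟩, h3⟩
      exact ⟨h2, h3⟩
    · rintro ⟨h2, h3⟩
      refine ⟨⟨h2, ?_⟩, h3⟩
      by_contra h4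
      have h5 : K < k := by omega
      have h6 : K * z < k * d := Nat.mul_lt_mul_of_lt_of_le h5 hd.le (by omega)
      omega
  rw [h1, Nat.card_Icc, Nat.add_sub_cancel]

private theorem LA2_swap (K z : ℕ) (hz : 1 ≤ z) :
    ∑ d ∈ Finset.Ioc z (K * z), lam d * ((K * z / d : ℕ) : ℝ) =
      ∑ k ∈ Finset.Icc 1 K, ∑ d ∈ Finset.Ioc z (K * z / k), lam d := by
  have h1 : ∀ d ∈ Finset.Ioc z (K * z), lam d * ((K * z / d : ℕ) : ℝ) =
      ∑ k ∈ Finset.Icc 1 K, if k * d ≤ K * z then lam d else 0 := by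
    intro d hd
    rw [Finset.mem_Ioc] at hd
    rw [LA2_cnt K z d hz hd.1, Finset.mul_sum]
    refine Finset.sum_congr rfl fun k _ => ?_
    split_ifs <;> simp
  rw [Finset.sum_congr rfl h1, Finset.sum_comm]
  refine Finset.sum_congr rfl fun k hk => ?_
  rw [Finset.mem_Icc] at hk
  rw [← Finset.sum_filter]
  refine Finset.sum_congr ?_ fun _ _ => rfl
  ext d
  rw [Finset.mem_filter, Finset.mem_Ioc, Finset.mem_Ioc, Nat.le_div_iff_mul_le (by omega),
    mul_comm k d]
  constructor
  · rintro ⟨⟨h2, -⟩, h3⟩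
    exact ⟨h2, h3⟩
  · rintro ⟨h2, h3⟩
    exact ⟨⟨h2, (Nat.le_mul_of_pos_right d (by omega)).trans h3⟩, h3⟩

private theorem LA2_far (C : ℝ) (hC : 0 < C) (h0 : ∀ Y : ℕ, 2 ≤ Y →
    |∑ n ∈ Finset.Icc 1 Y, lam n| ≤ C * Y / (Real.log Y) ^ 1) (K z : ℕ) (hK : 1 ≤ K)
    (hz : 2 ≤ z) :
    |∑ n ∈ Finset.Icc 1 z, lam n / n| ≤
      1 / K + 1 / Real.sqrt z + 2 * C * K / Real.log z := by
  have hzR : (2 : ℝ) ≤ z := by exact_mod_cast hz
  have hKR : (1 : ℝ) ≤ K := by exact_mod_cast hK
  have hlog : 0 < Real.log z := Real.log_pos (by linarith)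
  have hz0 : (0 : ℝ) < z := by linarith
  have hK0 : (0 : ℝ) < K := by linarith
  -- second part
  have hL : ∀ w : ℕ, z ≤ w → w ≤ K * z → |∑ n ∈ Finset.Icc 1 w, lam n| ≤
      C * (K * z) / Real.log z := by
    intro w hw1 hw2
    refine (h0 w (by omega)).trans ?_
    rw [pow_one]
    have hw1R : (z : ℝ) ≤ w := by exact_mod_cast hw1
    have hw2R : (w : ℝ) ≤ K * z := by exact_mod_cast hw2
    have h2 : Real.log z ≤ Real.log w := Real.log_le_log hz0 hw1R
    calc C * (w : ℝ) / Real.log w ≤ C * (w : ℝ) / Real.log z :=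
          div_le_div_of_nonneg_left (by positivity) hlog h2
      _ ≤ C * (K * z) / Real.log z := by gcongr
  have h2 : |∑ d ∈ Finset.Ioc z (K * z), lam d * ((K * z / d : ℕ) : ℝ)| ≤
      K * (2 * (C * (K * z) / Real.log z)) := by
    rw [LA2_swap K z (by omega)]
    refine (Finset.abs_sum_le_sum_abs _ _).trans ?_
    have h3 : ∀ k ∈ Finset.Icc 1 K, |∑ d ∈ Finset.Ioc z (K * z / k), lam d| ≤
        2 * (C * (K * z) / Real.log z) := by
      intro k hk
      rw [Finset.mem_Icc] at hk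
      have h4 : z ≤ K * z / k := by
        rw [Nat.le_div_iff_mul_le (by omega), mul_comm]
        exact Nat.mul_le_mul_right z hk.2
      have h5 : K * z / k ≤ K * z := Nat.div_le_self _ _
      have e1 : ∑ d ∈ Finset.Ioc z (K * z / k), lam d =
          ∑ d ∈ Finset.Icc 1 (K * z / k), lam d - ∑ d ∈ Finset.Icc 1 z, lam d := by
        have e2 : Finset.Icc 1 (K * z / k) = Finset.Icc 1 z ∪ Finset.Ioc z (K * z / k) := by
          ext a
          rw [Finset.mem_union, Finset.mem_Icc, Finset.mem_Icc, Finset.mem_Ioc]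
          omega
        have e3 : Disjoint (Finset.Icc 1 z) (Finset.Ioc z (K * z / k)) := by
          rw [Finset.disjoint_left]
          intro a ha hb
          rw [Finset.mem_Icc] at ha
          rw [Finset.mem_Ioc] at hb
          omega
        rw [e2, Finset.sum_union e3]
        ring
      rw [e1]
      refine (abs_sub _ _).trans ?_
      have h6 := hL _ h4 h5
      have h7 := hL z le_rfl (Nat.le_mul_of_pos_left z (by omega))
      linarith
    refine (Finset.sum_le_sum h3).trans (le_of_eq ?_)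
    rw [Finset.sum_const, Nat.card_Icc, nsmul_eq_mul, Nat.add_sub_cancel]
  -- first part with natural division
  have h8 : |∑ d ∈ Finset.Icc 1 z, lam d * ((K * z / d : ℕ) : ℝ)| ≤
      Real.sqrt (K * z) + K * (2 * (C * (K * z) / Real.log z)) := by
    have h9 := LA2_sq (K * z)
    have e2 : Finset.Icc 1 (K * z) = Finset.Icc 1 z ∪ Finset.Ioc z (K * z) := by
      have : z ≤ K * z := Nat.le_mul_of_pos_left z (by omega)
      ext a
      rw [Finset.mem_union, Finset.mem_Icc, Finset.mem_Icc, Finset.mem_Ioc]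
      omega
    have e3 : Disjoint (Finset.Icc 1 z) (Finset.Ioc z (K * z)) := by
      rw [Finset.disjoint_left]
      intro a ha hb
      rw [Finset.mem_Icc] at ha
      rw [Finset.mem_Ioc] at hb
      omega
    rw [e2, Finset.sum_union e3] at h9
    have e4 : ((K * z : ℕ) : ℝ) = (K : ℝ) * z := by push_cast; ring
    rw [e4] at h9
    rw [abs_le] at h9 h2 ⊢
    constructor <;> linarith [h9.1, h9.2, h2.1, h2.2]
  have h10 : |(K * z : ℝ) * ∑ n ∈ Finset.Icc 1 z, lam n / n -
      ∑ d ∈ Finset.Icc 1 z, lam d * ((K * z / d : ℕ) : ℝ)| ≤ z := by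
    rw [Finset.mul_sum, ← Finset.sum_sub_distrib]
    refine (Finset.abs_sum_le_sum_abs _ _).trans ?_
    have h11 : ∀ d ∈ Finset.Icc 1 z, |(K * z : ℝ) * (lam d / d) - lam d * ((K * z / d : ℕ) : ℝ)| ≤
        1 := by
      intro d hd
      rw [Finset.mem_Icc] at hd
      have hd0 : (0 : ℝ) < d := by exact_mod_cast hd.1
      have e5 : (K * z : ℝ) * (lam d / d) - lam d * ((K * z / d : ℕ) : ℝ) =
          lam d * ((K * z : ℝ) / d - ((K * z / d : ℕ) : ℝ)) := by ring
      rw [e5, abs_mul, MP_45349e_nt.LS.abs_lam, one_mul]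
      have h12 : ((K * z / d : ℕ) : ℝ) ≤ (K * z : ℝ) / d := by
        have := @Nat.cast_div_le ℝ _ _ _ (K * z) d
        push_cast at this ⊢
        exact this
      have h13 : (K * z : ℝ) / d < ((K * z / d : ℕ) : ℝ) + 1 := by
        rw [div_lt_iff₀ hd0]
        have h14 := Nat.lt_mul_div_succ (K * z) (show 0 < d by omega)
        have h15 : ((K * z : ℕ) : ℝ) < ((d * (K * z / d + 1) : ℕ) : ℝ) := by exact_mod_cast h14
        push_cast at h15 ⊢
        linarith
      rw [abs_le]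
      constructor <;> linarith
    refine (Finset.sum_le_sum h11).trans (le_of_eq ?_)
    rw [Finset.sum_const, Nat.card_Icc, nsmul_eq_mul, Nat.add_sub_cancel, mul_one]
  have h16 : |(K * z : ℝ) * ∑ n ∈ Finset.Icc 1 z, lam n / n| ≤
      z + (Real.sqrt (K * z) + K * (2 * (C * (K * z) / Real.log z))) := by
    rw [abs_le] at h8 h10 ⊢
    constructor <;> linarith [h8.1, h8.2, h10.1, h10.2]
  have hKz : (0 : ℝ) < K * z := by positivity
  rw [abs_mul, abs_of_pos hKz] at h16
  have h17 : |∑ n ∈ Finset.Icc 1 z, lam n / n| ≤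
      (z + (Real.sqrt (K * z) + K * (2 * (C * (K * z) / Real.log z)))) / (K * z) := by
    rw [le_div_iff₀ hKz]
    linarith
  refine h17.trans ?_
  have hsq : 0 < Real.sqrt z := Real.sqrt_pos.2 hz0
  have hsq2 : Real.sqrt z * Real.sqrt z = z := Real.mul_self_sqrt hz0.le
  have h18 : Real.sqrt (K * z) ≤ K * Real.sqrt z := by
    rw [Real.sqrt_mul hK0.le]
    have : Real.sqrt K ≤ K := by
      rw [Real.sqrt_le_left hK0.le]
      nlinarith
    exact mul_le_mul_of_nonneg_right this hsq.le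
  have e6 : (z : ℝ) / (K * z) = 1 / K := by
    field_simp
  have e7 : Real.sqrt (K * z) / (K * z) ≤ 1 / Real.sqrt z := by
    rw [div_le_div_iff₀ hKz hsq]
    calc Real.sqrt (K * z) * Real.sqrt z ≤ K * Real.sqrt z * Real.sqrt z :=
          mul_le_mul_of_nonneg_right h18 hsq.le
      _ = 1 * (K * z) := by rw [mul_assoc, hsq2]; ring
  have e8 : (K : ℝ) * (2 * (C * (K * z) / Real.log z)) / (K * z) = 2 * C * K / Real.log z := by
    field_simp
  rw [add_div, add_div, e6, e8]
  linarith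

private theorem LA2_small (ε : ℝ) (hε : 0 < ε) (X : ℕ) :
    ∃ z : ℕ, X ≤ z ∧ |∑ n ∈ Finset.Icc 1 z, lam n / n| ≤ ε := by
  obtain ⟨C, hC, h0⟩ := LA0 1
  obtain ⟨K, hK⟩ := exists_nat_gt (2 / ε)
  have hK0 : (0 : ℝ) < K := lt_trans (by positivity) hK
  have hK1 : 1 ≤ K := by exact_mod_cast hK0
  have h1 : 1 / (K : ℝ) ≤ ε / 2 := by
    rw [div_le_div_iff₀ hK0 (by norm_num)]
    rw [div_lt_iff₀ hε] at hK
    linarith
  have ht1 : Filter.Tendsto (fun z : ℕ => 1 / Real.sqrt z) Filter.atTop (nhds 0) := by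
    have : Filter.Tendsto (fun z : ℕ => Real.sqrt z) Filter.atTop Filter.atTop :=
      Real.tendsto_sqrt_atTop.comp tendsto_natCast_atTop_atTop
    have h := this.inv_tendsto_atTop
    refine h.congr fun z => ?_
    rw [Pi.inv_apply, one_div]
  have ht2 : Filter.Tendsto (fun z : ℕ => 2 * C * K / Real.log z) Filter.atTop (nhds 0) := by
    have : Filter.Tendsto (fun z : ℕ => Real.log z) Filter.atTop Filter.atTop :=
      Real.tendsto_log_atTop.comp tendsto_natCast_atTop_atTop
    exact Filter.Tendsto.const_div_atTop this _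
  have ht := ht1.add ht2
  rw [add_zero] at ht
  have hev := ht.eventually (gt_mem_nhds (show (0 : ℝ) < ε / 2 by positivity))
  obtain ⟨z, hz1, hz2⟩ := (hev.and (Filter.eventually_ge_atTop (max X 2))).exists
  refine ⟨z, (le_max_left _ _).trans hz2, ?_⟩
  have h2 := LA2_far C hC h0 K z hK1 ((le_max_right _ _).trans hz2)
  linarith

private theorem LA2_pow (A : ℕ) (u v : ℝ) (hu : 0 < u) (huv : u ≤ v) :
    (v - u) / v ^ (A + 2) ≤ 1 / u ^ (A + 1) - 1 / v ^ (A + 1) := by
  have hv : 0 < v := lt_of_lt_of_le hu huv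
  have h1 : 1 / (u * v ^ A) ≤ 1 / u ^ (A + 1) := by
    apply one_div_le_one_div_of_le (by positivity)
    rw [pow_succ, mul_comm]
    exact mul_le_mul_of_nonneg_left (pow_le_pow_left₀ hu.le huv A) hu.le
  have h2 : (v - u) / v ^ (A + 2) ≤ (v - u) / (u * v ^ (A + 1)) := by
    apply div_le_div_of_nonneg_left (by linarith) (by positivity)
    rw [show v ^ (A + 2) = v * v ^ (A + 1) by ring]
    exact mul_le_mul_of_nonneg_right huv (by positivity)
  have h3 : (v - u) / (u * v ^ (A + 1)) = 1 / (u * v ^ A) - 1 / v ^ (A + 1) := by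
    field_simp
    ring
  linarith

private theorem LA2_abel (A : ℕ) (C : ℝ) (hC : 0 < C) (h0 : ∀ Y : ℕ, 2 ≤ Y →
    |∑ n ∈ Finset.Icc 1 Y, lam n| ≤ C * Y / (Real.log Y) ^ (A + 2)) (X : ℕ) (hX : 2 ≤ X)
    (k : ℕ) :
    |(∑ n ∈ Finset.Icc 1 (X + k), lam n / n -
        (∑ n ∈ Finset.Icc 1 (X + k), lam n) / ((X + k : ℕ) + 1)) -
      (∑ n ∈ Finset.Icc 1 X, lam n / n - (∑ n ∈ Finset.Icc 1 X, lam n) / ((X : ℝ) + 1))| ≤
      C * (1 / (Real.log X) ^ (A + 1) - 1 / (Real.log (X + k : ℕ)) ^ (A + 1)) := by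
  induction k with
  | zero => simp
  | succ k ih =>
    have e1 : ∑ n ∈ Finset.Icc 1 (X + (k + 1)), lam n / n =
        ∑ n ∈ Finset.Icc 1 (X + k), lam n / n + lam (X + k + 1) / ((X + k + 1 : ℕ) : ℝ) := by
      rw [← add_assoc, Finset.sum_Icc_succ_top (by omega)]
    have e2 : ∑ n ∈ Finset.Icc 1 (X + (k + 1)), lam n =
        ∑ n ∈ Finset.Icc 1 (X + k), lam n + lam (X + k + 1) := by
      rw [← add_assoc, Finset.sum_Icc_succ_top (by omega)]
    have h3 := h0 (X + (k + 1)) (by omega)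
    rw [e2] at h3
    rw [e1, e2]
    set L := ∑ n ∈ Finset.Icc 1 (X + k), lam n with hL
    set S := ∑ n ∈ Finset.Icc 1 (X + k), lam n / n with hS
    set T := ∑ n ∈ Finset.Icc 1 X, lam n / n - (∑ n ∈ Finset.Icc 1 X, lam n) / ((X : ℝ) + 1)
      with hT
    have e3 : ((X + (k + 1) : ℕ) : ℝ) = ((X + k : ℕ) : ℝ) + 1 := by push_cast; ring
    have e4 : ((X + k + 1 : ℕ) : ℝ) = ((X + k : ℕ) : ℝ) + 1 := by push_cast; ring
    rw [e3] at h3
    rw [e3, e4]
    have hm2 : (2 : ℝ) ≤ ((X + k : ℕ) : ℝ) := by exact_mod_cast (by omega : 2 ≤ X + k)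
    set m : ℝ := ((X + k : ℕ) : ℝ) with hmm
    have hm0 : (0 : ℝ) < m := by linarith
    have hu : 0 < Real.log m := Real.log_pos (by linarith)
    have huv : Real.log m ≤ Real.log (m + 1) := Real.log_le_log hm0 (by linarith)
    have hv : 0 < Real.log (m + 1) := lt_of_lt_of_le hu huv
    have hd : 1 / (m + 1) ≤ Real.log (m + 1) - Real.log m := by
      rw [← Real.log_div (by positivity) hm0.ne']
      have := Real.one_sub_inv_le_log_of_pos (show (0 : ℝ) < (m + 1) / m by positivity)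
      have e : 1 - ((m + 1) / m)⁻¹ = 1 / (m + 1) := by
        field_simp
        ring
      linarith
    have e5 : S + lam (X + k + 1) / (m + 1) - (L + lam (X + k + 1)) / (m + 1 + 1) - T =
        (S - L / (m + 1) - T) + (L + lam (X + k + 1)) * (1 / ((m + 1) * (m + 2))) := by
      field_simp
      ring
    rw [e5]
    refine (abs_add_le _ _).trans ?_
    have h6 : |(L + lam (X + k + 1)) * (1 / ((m + 1) * (m + 2)))| ≤
        C * (1 / Real.log m ^ (A + 1) - 1 / Real.log (m + 1) ^ (A + 1)) := by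
      rw [abs_mul, abs_of_pos (show (0 : ℝ) < 1 / ((m + 1) * (m + 2)) by positivity)]
      calc |L + lam (X + k + 1)| * (1 / ((m + 1) * (m + 2))) ≤
            C * (m + 1) / Real.log (m + 1) ^ (A + 2) * (1 / ((m + 1) * (m + 2))) :=
            mul_le_mul_of_nonneg_right h3 (by positivity)
        _ = C * ((1 / (m + 2)) / Real.log (m + 1) ^ (A + 2)) := by
            field_simp
        _ ≤ C * ((Real.log (m + 1) - Real.log m) / Real.log (m + 1) ^ (A + 2)) := by
            have : 1 / (m + 2) ≤ 1 / (m + 1) :=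
              one_div_le_one_div_of_le (by positivity) (by linarith)
            apply mul_le_mul_of_nonneg_left _ hC.le
            apply div_le_div_of_nonneg_right _ (by positivity)
            linarith
        _ ≤ _ := mul_le_mul_of_nonneg_left (LA2_pow A _ _ hu huv) hC.le
    have e7 : C * (1 / Real.log X ^ (A + 1) - 1 / Real.log (m + 1) ^ (A + 1)) =
        C * (1 / Real.log X ^ (A + 1) - 1 / Real.log m ^ (A + 1)) +
          C * (1 / Real.log m ^ (A + 1) - 1 / Real.log (m + 1) ^ (A + 1)) := by ring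
    rw [e7]
    exact add_le_add ih h6

theorem LA2 (A : ℕ) : ∃ C : ℝ, 0 < C ∧ ∀ Y : ℕ, 2 ≤ Y →
    |∑ n ∈ Finset.Icc 1 Y, lam n / n| ≤ C / (Real.log Y) ^ A := by
  obtain ⟨C, hC, h0⟩ := LA0 (A + 2)
  refine ⟨10 * C, by positivity, ?_⟩
  intro Y hY
  have hYR : (2 : ℝ) ≤ Y := by exact_mod_cast hY
  have hY0 : (0 : ℝ) < Y := by linarith
  have hl2 : (1 / 2 : ℝ) ≤ Real.log 2 := by
    have := Real.log_two_gt_d9
    linarith
  have hl : (1 / 2 : ℝ) ≤ Real.log Y := hl2.trans (Real.log_le_log (by norm_num) hYR)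
  have hl0 : 0 < Real.log Y := by linarith
  refine le_of_forall_pos_le_add fun ε hε => ?_
  obtain ⟨z, hz, hmz⟩ := LA2_small ε hε Y
  obtain ⟨k, rfl⟩ := Nat.exists_eq_add_of_le hz
  have h1 := LA2_abel A C hC h0 Y hY k
  have hzR : (Y : ℝ) ≤ ((Y + k : ℕ) : ℝ) := by exact_mod_cast hz
  have hlz : Real.log Y ≤ Real.log ((Y + k : ℕ) : ℝ) := Real.log_le_log hY0 hzR
  have hlz0 : 0 < Real.log ((Y + k : ℕ) : ℝ) := lt_of_lt_of_le hl0 hlz
  have hD : ∀ w : ℕ, Y ≤ w → |(∑ n ∈ Finset.Icc 1 w, lam n) / ((w : ℝ) + 1)| ≤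
      2 * (C / Real.log Y ^ (A + 1)) := by
    intro w hw
    have hwR : (Y : ℝ) ≤ w := by exact_mod_cast hw
    have hw0 : (0 : ℝ) < w := by linarith
    have hlw : Real.log Y ≤ Real.log w := Real.log_le_log hY0 hwR
    have h2 := h0 w (by omega)
    rw [abs_div, abs_of_pos (show (0 : ℝ) < (w : ℝ) + 1 by positivity)]
    rw [div_le_iff₀ (by positivity)]
    refine h2.trans ?_
    calc C * (w : ℝ) / Real.log w ^ (A + 2) ≤ C * (w : ℝ) / Real.log Y ^ (A + 2) := by
          apply div_le_div_of_nonneg_left (by positivity) (by positivity)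
          exact pow_le_pow_left₀ hl0.le hlw _
      _ = (C / Real.log Y ^ (A + 1)) * (w / Real.log Y) := by
          rw [div_mul_div_comm, ← pow_succ]
      _ ≤ (C / Real.log Y ^ (A + 1)) * (2 * ((w : ℝ) + 1)) := by
          apply mul_le_mul_of_nonneg_left _ (by positivity)
          rw [div_le_iff₀ hl0]
          nlinarith
      _ = 2 * (C / Real.log Y ^ (A + 1)) * ((w : ℝ) + 1) := by ring
  have h3 := hD Y le_rfl
  have h4 := hD (Y + k) hz
  have h5 : C * (1 / Real.log Y ^ (A + 1) - 1 / Real.log ((Y + k : ℕ) : ℝ) ^ (A + 1)) ≤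
      C / Real.log Y ^ (A + 1) := by
    have : 0 ≤ C * (1 / Real.log ((Y + k : ℕ) : ℝ) ^ (A + 1)) := by positivity
    have e : C / Real.log Y ^ (A + 1) = C * (1 / Real.log Y ^ (A + 1)) := by ring
    rw [e]
    linarith
  have h6 := h1.trans h5
  have h7 : |∑ n ∈ Finset.Icc 1 Y, lam n / n| ≤ ε + 5 * (C / Real.log Y ^ (A + 1)) := by
    rw [abs_le] at h3 h4 h6 hmz ⊢
    constructor <;> linarith [h3.1, h3.2, h4.1, h4.2, h6.1, h6.2, hmz.1, hmz.2]
  have h8 : 5 * (C / Real.log Y ^ (A + 1)) ≤ 10 * C / Real.log Y ^ A := by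
    rw [pow_succ, ← div_div]
    have e : 10 * C / Real.log Y ^ A = (C / Real.log Y ^ A) * 10 := by ring
    rw [e]
    have e2 : 5 * (C / Real.log Y ^ A / Real.log Y) = (C / Real.log Y ^ A) * (5 / Real.log Y) := by
      ring
    rw [e2]
    apply mul_le_mul_of_nonneg_left _ (by positivity)
    rw [div_le_iff₀ hl0]
    linarith
  linarith

end Pool.Agent.Lib.MP_7b7e48_nt.LG
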