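import Pool.Agent.Lib.MP_7b7e48_nt.LG.Defs
import Pool.Agent.Lib.MP_7b7e48_nt.LG.F5
import Pool.Agent.Lib.MP_7b7e48_nt.LG.F5r
import Pool.Agent.Lib.MP_7b7e48_nt.LG.LA2

/-!
# Module F6a (60 minutes): partial sums of `c`

`X y = ∑_{m ≤ y} c m`. PROOF. `lam = c` off `DD`, so `|X y| ≤ |∑_{m ≤ y} lam m| + 2 #(DD ∩ [1,y])`, `LA0`, `F5a`.
`F6b`: `|∑_{m ≤ y} c m/m| ≤ |∑ lam m/m| + 2 ∑_{m ∈ DD, m ≤ y} 1/m`, and
`∑_{m ∈ DD, m ≤ y} 1/m ≤ ∑_{q ∈ Qp} (1/q) ∑_{k ≤ y} 1/k ≤ sig (1 + log N)`. For `y ≥ N^(2/5)`,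
`log y ≥ (2/5) log N`.
-/

open Finset
open Pool.Agent.Lib.MP_45349e_nt.LS (lam)

namespace Pool.Agent.Lib.MP_7b7e48_nt.LG

theorem F6a_lam_abs (n : ℕ) : |lam n| = 1 := by
  unfold lam
  rw [abs_pow, abs_neg, abs_one, one_pow]

theorem F6a_c_abs {N : ℕ} {c : ℕ → ℝ} (hc : QC N c) (n : ℕ) : |c n| ≤ 1 := by
  by_cases h : N ∣ n
  · rw [hc.zero n h, abs_zero]
    exact zero_le_one
  · rcases hc.val n h with h1 | h1
    · rw [h1, abs_one]
    · rw [h1, abs_neg, abs_one]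

theorem F6a_lam_mul (m n : ℕ) (hm : m ≠ 0) (hn : n ≠ 0) : lam (m * n) = lam m * lam n := by
  unfold lam
  rw [ArithmeticFunction.cardFactors_mul hm hn, pow_add]

theorem F6a_lam_prime (p : ℕ) (hp : p.Prime) : lam p = -1 := by
  unfold lam
  rw [ArithmeticFunction.cardFactors_apply_prime hp, pow_one]

theorem F6a_c_one {N : ℕ} (hN : N.Prime) {c : ℕ → ℝ} (hc : QC N c) : c 1 = 1 := by
  have h1 : ¬ N ∣ 1 := fun h => hN.one_lt.ne' (Nat.dvd_one.1 h)
  have h2 := hc.mul 1 1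
  rw [mul_one] at h2
  rcases hc.val 1 h1 with h | h
  · exact h
  · rw [h] at h2
    norm_num at h2

/-- If `c = -1` at all prime factors of `n`, then `lam n = c n`. -/
theorem F6a_eq {N : ℕ} (hN : N.Prime) {c : ℕ → ℝ} (hc : QC N c) :
    ∀ n : ℕ, 1 ≤ n → (∀ p : ℕ, p.Prime → p ∣ n → c p = -1) → lam n = c n := by
  intro n
  induction n using Nat.recOnMul with
  | zero => intro h; omega
  | one =>
    intro _ _
    rw [F6a_c_one hN hc]
    unfold lam
    simp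
  | prime p hp =>
    intro _ h
    rw [h p hp (dvd_refl p), F6a_lam_prime p hp]
  | mul a b ha hb =>
    intro h1 h2
    have ha0 : a ≠ 0 := by rintro rfl; simp at h1
    have hb0 : b ≠ 0 := by rintro rfl; simp at h1
    rw [F6a_lam_mul a b ha0 hb0, hc.mul a b,
      ha (Nat.one_le_iff_ne_zero.2 ha0) (fun p hp hd => h2 p hp (hd.mul_right b)),
      hb (Nat.one_le_iff_ne_zero.2 hb0) (fun p hp hd => h2 p hp (hd.mul_left a))]

/-- An element of the exceptional set has a prime factor in `Qp`. -/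
theorem F6a_factor {N : ℕ} (hN : N.Prime) {c : ℕ → ℝ} (hc : QC N c) {n : ℕ} (hn : n ∈ DD N c) :
    ∃ q ∈ Qp N c, q ∣ n := by
  classical
  unfold DD at hn
  rw [Finset.mem_filter, Finset.mem_range] at hn
  obtain ⟨h1, h2, h3⟩ := hn
  by_contra hcon
  push Not at hcon
  refine h3 (F6a_eq hN hc n h2 fun p hp hd => ?_)
  have hle : p ≤ n := Nat.le_of_dvd h2 hd
  have hlt : p < N := lt_of_le_of_lt hle h1
  have hnd : ¬ N ∣ p := fun h => absurd (Nat.le_of_dvd hp.pos h) (by omega)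
  rcases hc.val p hnd with h | h
  · exfalso
    refine hcon p ?_ hd
    unfold Qp
    rw [Finset.mem_filter, Finset.mem_range]
    exact ⟨hlt, hp, h⟩
  · exact h

theorem F6a_Q_pos {N : ℕ} {c : ℕ → ℝ} {q : ℕ} (hq : q ∈ Qp N c) : q.Prime := by
  classical
  unfold Qp at hq
  rw [Finset.mem_filter] at hq
  exact hq.2.1

/-- Comparison of a weighted sum of `c` with a weighted sum of `lam`. -/
theorem F6a_cmp {N : ℕ} {c : ℕ → ℝ} (hc : QC N c) (w : ℕ → ℝ) (hw : ∀ n, 0 ≤ w n)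
    {y : ℕ} (hy : y < N) :
    |∑ m ∈ Finset.Icc 1 y, c m * w m| ≤ |∑ m ∈ Finset.Icc 1 y, lam m * w m| +
      2 * ∑ m ∈ (DD N c).filter (fun n => n ≤ y), w m := by
  classical
  have h1 : ∑ m ∈ Finset.Icc 1 y, c m * w m = ∑ m ∈ Finset.Icc 1 y, lam m * w m +
      ∑ m ∈ Finset.Icc 1 y, (c m - lam m) * w m := by
    rw [← Finset.sum_add_distrib]
    exact Finset.sum_congr rfl fun m _ => by ring
  have h2 : |∑ m ∈ Finset.Icc 1 y, (c m - lam m) * w m| ≤
      2 * ∑ m ∈ (DD N c).filter (fun n => n ≤ y), w m := by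
    have h3 : ∀ m ∈ Finset.Icc 1 y, m ∉ (DD N c).filter (fun n => n ≤ y) →
        (c m - lam m) * w m = 0 := by
      intro m hm hnot
      rw [Finset.mem_Icc] at hm
      have h4 : lam m = c m := by
        by_contra hne
        refine hnot ?_
        rw [Finset.mem_filter]
        refine ⟨?_, hm.2⟩
        unfold DD
        rw [Finset.mem_filter, Finset.mem_range]
        exact ⟨lt_of_le_of_lt hm.2 hy, hm.1, hne⟩
      rw [h4, sub_self, zero_mul]
    have hsub : (DD N c).filter (fun n => n ≤ y) ⊆ Finset.Icc 1 y := by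
      intro m hm
      rw [Finset.mem_filter] at hm
      have h5 := hm.1
      unfold DD at h5
      rw [Finset.mem_filter] at h5
      rw [Finset.mem_Icc]
      exact ⟨h5.2.1, hm.2⟩
    rw [← Finset.sum_subset hsub h3, Finset.mul_sum]
    refine (Finset.abs_sum_le_sum_abs _ _).trans (Finset.sum_le_sum fun m _ => ?_)
    rw [abs_mul, abs_of_nonneg (hw m)]
    refine mul_le_mul_of_nonneg_right ?_ (hw m)
    have h6 := abs_sub (c m) (lam m)
    have h7 := F6a_c_abs hc m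
    have h8 := F6a_lam_abs m
    linarith
  rw [h1]
  exact (abs_add_le _ _).trans (by linarith)

theorem F6a_harm (n : ℕ) : ∑ a ∈ Finset.Icc 1 n, (1 : ℝ) / a ≤ 1 + Real.log n := by
  have h := harmonic_le_one_add_log n
  rw [harmonic_eq_sum_Icc] at h
  push_cast at h
  refine le_trans (le_of_eq ?_) h
  exact Finset.sum_congr rfl fun a _ => one_div _

theorem F6a_logsum {N : ℕ} (hN : N.Prime) {c : ℕ → ℝ} (hc : QC N c) (y : ℕ) (hy : y < N) :
    ∑ m ∈ (DD N c).filter (fun n => n ≤ y), (1 : ℝ) / m ≤ sig N c * (1 + Real.log N) := by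
  classical
  have hT : ∀ m ∈ (DD N c).filter (fun n => n ≤ y),
      (1 : ℝ) / m ≤ ∑ q ∈ Qp N c, if q ∣ m then (1 : ℝ) / m else 0 := by
    intro m hm
    rw [Finset.mem_filter] at hm
    obtain ⟨q, hq, hd⟩ := F6a_factor hN hc hm.1
    have h1 : (if q ∣ m then (1 : ℝ) / m else 0) = (1 : ℝ) / m := if_pos hd
    have h2 := Finset.single_le_sum (f := fun q => if q ∣ m then (1 : ℝ) / m else 0)
      (s := Qp N c) (fun i _ => by
        split_ifs
        · positivity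
        · exact le_refl 0) hq
    exact h1.symm.le.trans h2
  refine (Finset.sum_le_sum hT).trans ?_
  rw [Finset.sum_comm]
  unfold sig
  rw [Finset.sum_mul]
  refine Finset.sum_le_sum fun q hq => ?_
  have hq0 : 0 < q := (F6a_Q_pos hq).pos
  have hqr : (0 : ℝ) < q := by exact_mod_cast hq0
  rw [← Finset.sum_filter]
  -- map `m ↦ m / q` into `[1, y]`
  have h2 : ∑ m ∈ ((DD N c).filter (fun n => n ≤ y)).filter (fun m => q ∣ m), (1 : ℝ) / m ≤
      ∑ k ∈ Finset.Icc 1 y, 1 / (q : ℝ) * (1 / (k : ℝ)) := by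
    have h3 : ((DD N c).filter (fun n => n ≤ y)).filter (fun m => q ∣ m) ⊆
        (Finset.Icc 1 y).image (fun k => q * k) := by
      intro m hm
      rw [Finset.mem_filter, Finset.mem_filter] at hm
      obtain ⟨⟨h4, h5⟩, k, rfl⟩ := hm
      unfold DD at h4
      rw [Finset.mem_filter] at h4
      rw [Finset.mem_image]
      have hk : 0 < k := by
        rcases Nat.eq_zero_or_pos k with h | h
        · rw [h, mul_zero] at h4
          exact absurd h4.2.1 (lt_irrefl 0)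
        · exact h
      refine ⟨k, ?_, rfl⟩
      rw [Finset.mem_Icc]
      exact ⟨hk, le_trans (Nat.le_mul_of_pos_left k hq0) h5⟩
    refine (Finset.sum_le_sum_of_subset_of_nonneg h3 fun i _ _ => by positivity).trans ?_
    rw [Finset.sum_image fun a _ b _ hab => Nat.eq_of_mul_eq_mul_left hq0 hab]
    refine Finset.sum_le_sum fun k hk => le_of_eq ?_
    push_cast
    rw [one_div_mul_one_div]
  refine h2.trans ?_
  rw [← Finset.mul_sum]
  refine mul_le_mul_of_nonneg_left ?_ (by positivity)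
  refine (F6a_harm y).trans ?_
  rcases Nat.eq_zero_or_pos y with h | h
  · rw [h]
    simp only [Nat.cast_zero, Real.log_zero, add_zero]
    have : 0 ≤ Real.log N := Real.log_natCast_nonneg N
    linarith
  · have : Real.log y ≤ Real.log N := by
      refine Real.log_le_log (by exact_mod_cast h) ?_
      exact_mod_cast hy.le
    linarith

theorem F6a_sig_nonneg (N : ℕ) (c : ℕ → ℝ) : 0 ≤ sig N c := by
  unfold sig
  exact Finset.sum_nonneg fun q _ => by positivity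

theorem F6a_log_one {N : ℕ} (h3 : 100 ≤ N) : 1 ≤ Real.log N := by
  have h1 : Real.log (Real.exp 1) ≤ Real.log N := by
    refine Real.log_le_log (Real.exp_pos _) ?_
    have h2 := Real.exp_one_lt_d9
    have h4 : (100 : ℝ) ≤ N := by exact_mod_cast h3
    linarith
  rwa [Real.log_exp] at h1

/-- `y ≥ N^(2/5)` implies `y ≥ 2` and `log y ≥ (2/5) log N`. -/
theorem F6a_y {N : ℕ} (h3 : 100 ≤ N) {y : ℕ} (h : (N : ℝ) ^ ((2 : ℝ) / 5) ≤ y) :
    2 ≤ y ∧ 2 / 5 * Real.log N ≤ Real.log y := by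
  have hN : (100 : ℝ) ≤ N := by exact_mod_cast h3
  have hN0 : (0 : ℝ) < N := by linarith
  have hpos : 0 < (N : ℝ) ^ ((2 : ℝ) / 5) := Real.rpow_pos_of_pos hN0 _
  have h1 : 1 < (N : ℝ) ^ ((2 : ℝ) / 5) := Real.one_lt_rpow (by linarith) (by norm_num)
  constructor
  · have h2 : (1 : ℝ) < y := lt_of_lt_of_le h1 h
    have h4 : 1 < y := by exact_mod_cast h2
    omega
  · rw [← Real.log_rpow hN0]
    exact Real.log_le_log hpos h

/-- transfer of the bound -/
theorem F6a_transfer {N : ℕ} (h3 : 100 ≤ N) {y : ℕ} (h : (N : ℝ) ^ ((2 : ℝ) / 5) ≤ y) (A : ℕ)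
    {C : ℝ} (hC : 0 < C) :
    C / (Real.log y) ^ A ≤ (C * (5 / 2) ^ A) / (Real.log N) ^ A := by
  have h1 := F6a_log_one h3
  obtain ⟨h2, h4⟩ := F6a_y h3 h
  have h5 : 0 < 2 / 5 * Real.log N := by linarith
  have h6 : (2 / 5 * Real.log N) ^ A ≤ (Real.log y) ^ A := pow_le_pow_left₀ h5.le h4 A
  have h7 : C / (Real.log y) ^ A ≤ C / (2 / 5 * Real.log N) ^ A :=
    div_le_div_of_nonneg_left hC.le (by positivity) h6
  refine h7.trans (le_of_eq ?_)
  rw [mul_pow, div_pow, div_pow]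
  field_simp

theorem F6x (A : ℕ) : ∃ C : ℝ, 0 < C ∧ ∀ N : ℕ, 100 ≤ N → N.Prime → ∀ c : ℕ → ℝ, QC N c →
    ∀ y : ℕ, y < N → (N : ℝ) ^ ((2 : ℝ) / 5) ≤ y →
    |∑ m ∈ Finset.Icc 1 y, c m| ≤ y * (C / (Real.log N) ^ A + 2 * sig N c) := by
  obtain ⟨C, hC, h⟩ := LA0 A
  refine ⟨C * (5 / 2) ^ A, by positivity, fun N h3 hN c hc y hy hyN => ?_⟩
  obtain ⟨h2, h4⟩ := F6a_y h3 hyN
  have h5 := F6a_cmp hc (fun _ => 1) (fun _ => zero_le_one) hy
  simp only [mul_one] at h5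
  rw [Finset.sum_const, nsmul_eq_mul, mul_one] at h5
  have h6 := F5a N hN c hc y hy
  have h7 := h y h2
  have h8 := F6a_transfer h3 hyN A hC
  have hy0 : (0 : ℝ) ≤ y := Nat.cast_nonneg y
  have h9 : C * y / (Real.log y) ^ A = y * (C / (Real.log y) ^ A) := by ring
  have h10 : (y : ℝ) * (C / (Real.log y) ^ A) ≤ y * (C * (5 / 2) ^ A / (Real.log N) ^ A) :=
    mul_le_mul_of_nonneg_left h8 hy0
  rw [h9] at h7
  calc |∑ m ∈ Finset.Icc 1 y, c m| ≤ _ := h5
    _ ≤ y * (C * (5 / 2) ^ A / (Real.log N) ^ A) + 2 * (y * sig N c) := by linarith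
    _ = y * (C * (5 / 2) ^ A / (Real.log N) ^ A + 2 * sig N c) := by ring

theorem F6y (A : ℕ) : ∃ C : ℝ, 0 < C ∧ ∀ N : ℕ, 100 ≤ N → N.Prime → ∀ c : ℕ → ℝ, QC N c →
    ∀ y : ℕ, y < N → (N : ℝ) ^ ((2 : ℝ) / 5) ≤ y →
    |∑ m ∈ Finset.Icc 1 y, c m / m| ≤ C / (Real.log N) ^ A + 4 * sig N c * Real.log N := by
  obtain ⟨C, hC, h⟩ := LA2 A
  refine ⟨C * (5 / 2) ^ A, by positivity, fun N h3 hN c hc y hy hyN => ?_⟩
  obtain ⟨h2, h4⟩ := F6a_y h3 hyN
  have h5 := F6a_cmp hc (fun n => 1 / (n : ℝ)) (fun _ => by positivity) hy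
  simp only [mul_one_div] at h5
  have h6 := F6a_logsum hN hc y hy
  have h7 := h y h2
  have h8 := F6a_transfer h3 hyN A hC
  have h9 := F6a_log_one h3
  have h10 := F6a_sig_nonneg N c
  have h11 : sig N c * (1 + Real.log N) ≤ sig N c * (2 * Real.log N) :=
    mul_le_mul_of_nonneg_left (by linarith) h10
  calc |∑ m ∈ Finset.Icc 1 y, c m / m| ≤ _ := h5
    _ ≤ C * (5 / 2) ^ A / (Real.log N) ^ A + 2 * (sig N c * (2 * Real.log N)) := by linarith
    _ = C * (5 / 2) ^ A / (Real.log N) ^ A + 4 * sig N c * Real.log N := by ring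

end Pool.Agent.Lib.MP_7b7e48_nt.LG
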