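import Pool.Agent.Lib.MP_7b7e48_nt.LG.Defs
import Pool.Agent.Lib.MP_7b7e48_nt.LG.F6a
import Pool.Agent.Lib.MP_7b7e48_nt.LG.F5z

/-!
# Module F6 (90 minutes): the sum of the Liouville function is small compared with the exceptional set

PROOF. `K = log N`, `Z = ZZ N ~ N^(0.54)`, `X y = ∑_{m ≤ y} c m`. For `1 ≤ n < N`: `lam n = c n * (lam n c n) =
∑_{d ∣ n} c n lam d rho c d` (`F3c`, `c n ^ 2 = 1`); `c (d m) = c d c m`, and `c d = 1` if `rho c d ≠ 0`. So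
`∑_{n<N} lam n = ∑_{1 ≤ d < N} lam d rho c d X((N-1)/d)`. The term `d = 1` is `X(N-1) = 0` (`sum0`).
(1) `2 ≤ d ≤ Z`: `(N-1)/d ≥ N^(2/5)`, `F6x`: total `≤ N ∑ rho c d/d * (C/K^A' + 2 sig) ≤ 3 N sig (...)
≤ 12 #DD (...)` (`F5c`, `F5b`).
(2) `d > Z`, `lam d = 1`: `|X((N-1)/d)| ≤ N/d`, so the error in replacing `lam d` by `-1` is
`≤ 2 N * 6 sig^2 ≤ 48 sig #DD` (`F5d`).
(3) `∑_{Z < d < N} rho c d X((N-1)/d) = ∑_{m ≤ (N-1)/Z'} c m (Rho c ((N-1)/m) - Rho c Z)`, `m` running over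
`m ≤ (N-1)/(Z+1)`. By `F4`: `= c0 L ∑_m c m ((N-1)/m - Z) + O(∑_m (√(N/m) + √Z) N^(1/4) K^2)`; the floor of
`(N-1)/m` costs `c0 L` for each `m` (`≤ N^(1/2)` in total). The error sum is `≤ C N^(0.98) K^2` and
`#DD ≥ N^(0.985)` (`F5z`). Main term: `F6y` and `F6x` at `y = (N-1)/(Z+1) ~ N^(0.46)`:
`≤ c0 L N (C/K^A' + 6 sig K)`, and `L N ≤ 100 #DD`. With `A' = A + 2`, `B = A + 4`, `N` large.
-/

open Finset
open Pool.Agent.Lib.MP_45349e_nt.LS (lam)

namespace Pool.Agent.Lib.MP_7b7e48_nt.LG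

namespace F6

theorem evlog (C : ℝ) (k : ℕ) (ε : ℝ) (hε : 0 < ε) :
    ∃ N0 : ℕ, ∀ N : ℕ, N0 ≤ N → C * (Real.log N) ^ k ≤ (N : ℝ) ^ ε := by
  have h := (isLittleO_log_rpow_rpow_atTop (k : ℝ) hε).bound
    (show (0 : ℝ) < 1 / (|C| + 1) by positivity)
  have h2 := (tendsto_natCast_atTop_atTop (R := ℝ)).eventually h
  obtain ⟨N0, hN0⟩ := Filter.eventually_atTop.1 h2
  refine ⟨max N0 1, fun N hN => ?_⟩
  have h3 := hN0 N (le_trans (le_max_left _ _) hN)
  have hN1 : 1 ≤ N := le_trans (le_max_right _ _) hN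
  have hN1' : (1 : ℝ) ≤ N := by exact_mod_cast hN1
  have hl : 0 ≤ Real.log N := Real.log_nonneg hN1'
  rw [Real.rpow_natCast, Real.norm_of_nonneg (by positivity),
    Real.norm_of_nonneg (by positivity)] at h3
  have h4 : (|C| + 1) * (Real.log N) ^ k ≤ (N : ℝ) ^ ε := by
    have hpos : (0 : ℝ) < |C| + 1 := by positivity
    calc (|C| + 1) * (Real.log N) ^ k ≤ (|C| + 1) * (1 / (|C| + 1) * (N : ℝ) ^ ε) :=
          mul_le_mul_of_nonneg_left h3 hpos.le
      _ = (N : ℝ) ^ ε := by field_simp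
  have h5 : C * (Real.log N) ^ k ≤ (|C| + 1) * (Real.log N) ^ k := by
    apply mul_le_mul_of_nonneg_right _ (by positivity)
    linarith [le_abs_self C]
  exact h5.trans h4

theorem c_one {N : ℕ} (hN : N.Prime) {c : ℕ → ℝ} (hc : QC N c) : c 1 = 1 := by
  have h1 : ¬ N ∣ 1 := fun h => hN.one_lt.ne' (Nat.dvd_one.1 h)
  have h2 := hc.mul 1 1
  rcases hc.val 1 h1 with h | h
  · exact h
  · rw [mul_one, h] at h2; norm_num at h2

theorem c_eq_one {N : ℕ} (hN : N.Prime) {c : ℕ → ℝ} (hc : QC N c) (d : ℕ) :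
    d ≠ 0 → (∀ p ∈ d.primeFactors, c p = 1) → c d = 1 := by
  induction d using Nat.recOnMul with
  | zero => intro h; exact absurd rfl h
  | one => intro _ _; exact c_one hN hc
  | prime p hp => intro _ h; exact h p (by rw [hp.primeFactors]; exact Finset.mem_singleton_self p)
  | mul a b ha hb =>
    intro h0 h
    have ha0 : a ≠ 0 := fun e => h0 (by rw [e, zero_mul])
    have hb0 : b ≠ 0 := fun e => h0 (by rw [e, mul_zero])
    rw [Nat.primeFactors_mul ha0 hb0] at h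
    rw [hc.mul, ha ha0 fun p hp => h p (Finset.mem_union_left _ hp),
      hb hb0 fun p hp => h p (Finset.mem_union_right _ hp), mul_one]

theorem rho_nonneg (c : ℕ → ℝ) (d : ℕ) : 0 ≤ rho c d := by
  unfold rho
  split_ifs
  · positivity
  · exact le_refl _

theorem rho_mul_c {N : ℕ} (hN : N.Prime) {c : ℕ → ℝ} (hc : QC N c) (d : ℕ) (hd : d ≠ 0) :
    rho c d * c d = rho c d := by
  by_cases h : ∀ p ∈ d.primeFactors, c p = 1
  · rw [c_eq_one hN hc d hd h, mul_one]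
  · have : rho c d = 0 := by unfold rho; rw [if_neg h]
    rw [this, zero_mul]

theorem lam_or (n : ℕ) : lam n = 1 ∨ lam n = -1 := by
  unfold lam
  exact neg_one_pow_eq_or ℝ _

theorem abs_c_le {N : ℕ} {c : ℕ → ℝ} (hc : QC N c) (n : ℕ) : |c n| ≤ 1 := by
  by_cases h : N ∣ n
  · rw [hc.zero n h]; norm_num
  · rcases hc.val n h with h | h <;> rw [h] <;> norm_num

theorem abs_X_le {N : ℕ} {c : ℕ → ℝ} (hc : QC N c) (y : ℕ) :
    |∑ m ∈ Finset.Icc 1 y, c m| ≤ y := by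
  calc |∑ m ∈ Finset.Icc 1 y, c m| ≤ ∑ m ∈ Finset.Icc 1 y, |c m| :=
        Finset.abs_sum_le_sum_abs _ _
    _ ≤ ∑ m ∈ Finset.Icc 1 y, (1 : ℝ) := Finset.sum_le_sum fun m _ => abs_c_le hc m
    _ = y := by simp

theorem swap1 (M : ℕ) (h : ℕ → ℕ → ℝ) :
    ∑ n ∈ Finset.Icc 1 M, ∑ d ∈ n.divisors, h d n =
      ∑ d ∈ Finset.Icc 1 M, ∑ m ∈ Finset.Icc 1 (M / d), h d (d * m) := by
  rw [Finset.sum_sigma', Finset.sum_sigma']
  refine Finset.sum_nbij' (fun x => ⟨x.2, x.1 / x.2⟩) (fun x => ⟨x.1 * x.2, x.1⟩) ?_ ?_ ?_ ?_ ?_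
  · rintro ⟨n, d⟩ hx
    simp only [Finset.mem_sigma, Finset.mem_Icc, Nat.mem_divisors] at hx ⊢
    obtain ⟨⟨h1, h2⟩, h3, h4⟩ := hx
    have hd : 0 < d := Nat.pos_of_dvd_of_pos h3 (by omega)
    have hdn : d ≤ n := Nat.le_of_dvd (by omega) h3
    exact ⟨⟨hd, hdn.trans h2⟩, Nat.div_pos hdn hd, Nat.div_le_div_right h2⟩
  · rintro ⟨d, m⟩ hx
    simp only [Finset.mem_sigma, Finset.mem_Icc, Nat.mem_divisors] at hx ⊢
    obtain ⟨⟨h1, h2⟩, h3, h4⟩ := hx
    have h5 : d * m ≤ M := by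
      rw [mul_comm]; exact (Nat.le_div_iff_mul_le (by omega)).1 h4
    have h6 : 1 ≤ d * m := Nat.one_le_iff_ne_zero.2 (Nat.mul_ne_zero (by omega) (by omega))
    exact ⟨⟨h6, h5⟩, Nat.dvd_mul_right d m, by omega⟩
  · rintro ⟨n, d⟩ hx
    simp only [Finset.mem_sigma, Finset.mem_Icc, Nat.mem_divisors] at hx
    obtain ⟨⟨h1, h2⟩, h3, h4⟩ := hx
    simp only [Nat.mul_div_cancel' h3]
  · rintro ⟨d, m⟩ hx
    simp only [Finset.mem_sigma, Finset.mem_Icc] at hx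
    obtain ⟨⟨h1, h2⟩, h3, h4⟩ := hx
    simp only [Nat.mul_div_cancel_left m (show 0 < d by omega)]
  · rintro ⟨n, d⟩ hx
    simp only [Finset.mem_sigma, Finset.mem_Icc, Nat.mem_divisors] at hx
    obtain ⟨⟨h1, h2⟩, h3, h4⟩ := hx
    simp only [Nat.mul_div_cancel' h3]

theorem swap2 (M z : ℕ) (f g : ℕ → ℝ) :
    ∑ d ∈ Finset.Ioc z M, f d * ∑ m ∈ Finset.Icc 1 (M / d), g m =
      ∑ m ∈ Finset.Icc 1 (M / (z + 1)), g m * ∑ d ∈ Finset.Ioc z (M / m), f d := by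
  simp_rw [Finset.mul_sum]
  rw [Finset.sum_comm' (t' := Finset.Icc 1 (M / (z + 1))) (s' := fun m => Finset.Ioc z (M / m))]
  · refine Finset.sum_congr rfl fun m _ => Finset.sum_congr rfl fun d _ => ?_
    ring
  · intro d m
    simp only [Finset.mem_Ioc, Finset.mem_Icc]
    constructor
    · rintro ⟨⟨h1, h2⟩, h3, h4⟩
      have h5 : m * d ≤ M := (Nat.le_div_iff_mul_le (by omega)).1 h4
      refine ⟨⟨h1, (Nat.le_div_iff_mul_le (by omega)).2 (by rw [mul_comm]; exact h5)⟩, h3,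
        (Nat.le_div_iff_mul_le (by omega)).2 ?_⟩
      exact le_trans (Nat.mul_le_mul_left m (by omega)) h5
    · rintro ⟨⟨h1, h2⟩, h3, h4⟩
      have h5 : d * m ≤ M := (Nat.le_div_iff_mul_le (by omega)).1 h2
      refine ⟨⟨h1, ?_⟩, h3, (Nat.le_div_iff_mul_le (by omega)).2 (by rw [mul_comm]; exact h5)⟩
      exact le_trans (Nat.le_mul_of_pos_right d (by omega)) h5

theorem sum_inv_sqrt (M : ℕ) : ∑ m ∈ Finset.Icc 1 M, 1 / Real.sqrt m ≤ 2 * Real.sqrt M := by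
  induction M with
  | zero => simp
  | succ M ih =>
    rw [Finset.sum_Icc_succ_top (by omega)]
    have h1 : (0 : ℝ) < Real.sqrt ((M + 1 : ℕ) : ℝ) := Real.sqrt_pos.2 (by positivity)
    have h2 : (0 : ℝ) ≤ Real.sqrt (M : ℝ) := Real.sqrt_nonneg _
    have h3 : Real.sqrt (M : ℝ) ≤ Real.sqrt ((M + 1 : ℕ) : ℝ) :=
      Real.sqrt_le_sqrt (by push_cast; linarith)
    have h4 : Real.sqrt ((M + 1 : ℕ) : ℝ) ^ 2 = M + 1 := by
      rw [Real.sq_sqrt (by positivity)]; push_cast; ring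
    have h5 : Real.sqrt (M : ℝ) ^ 2 = M := Real.sq_sqrt (by positivity)
    have h6 : 1 / Real.sqrt ((M + 1 : ℕ) : ℝ) ≤
        2 * (Real.sqrt ((M + 1 : ℕ) : ℝ) - Real.sqrt (M : ℝ)) := by
      rw [div_le_iff₀ h1]
      nlinarith
    linarith

/-- the sum of the Liouville function in terms of the partial sums of `c` -/
theorem ident (N : ℕ) (hN : N.Prime) (c : ℕ → ℝ) (hc : QC N c) :
    ∑ n ∈ Finset.Icc 1 (N - 1), lam n =
      ∑ d ∈ Finset.Icc 1 (N - 1), lam d * rho c d * ∑ m ∈ Finset.Icc 1 ((N - 1) / d), c m := by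
  have h1 : ∀ n ∈ Finset.Icc 1 (N - 1), lam n =
      ∑ d ∈ n.divisors, lam d * rho c d * c n := by
    intro n hn
    rw [Finset.mem_Icc] at hn
    have hnN : n < N := by have := hN.pos; omega
    have h := F3c N hN c hc n hn.1 hnN
    have hc2 : c n * c n = 1 := by
      have hnd : ¬ N ∣ n := fun e => by have := Nat.le_of_dvd (by omega) e; omega
      rcases hc.val n hnd with h | h <;> rw [h] <;> norm_num
    rw [← Finset.sum_mul, ← h, mul_assoc, hc2, mul_one]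
  rw [Finset.sum_congr rfl h1, swap1 (N - 1) fun d n => lam d * rho c d * c n]
  refine Finset.sum_congr rfl fun d hd => ?_
  rw [Finset.mem_Icc] at hd
  rw [Finset.mul_sum]
  refine Finset.sum_congr rfl fun m _ => ?_
  rw [hc.mul, ← mul_assoc, mul_assoc (lam d), rho_mul_c hN hc d (by omega)]

theorem X_last (N : ℕ) (hN : N.Prime) (c : ℕ → ℝ) (hc : QC N c) :
    ∑ m ∈ Finset.Icc 1 (N - 1), c m = 0 := by
  have h := hc.sum0
  have hN0 := hN.pos
  have h2 : Finset.range N = insert 0 (Finset.Icc 1 (N - 1)) := by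
    ext x
    simp only [Finset.mem_range, Finset.mem_insert, Finset.mem_Icc]
    omega
  rw [h2, Finset.sum_insert (by simp), hc.zero 0 (dvd_zero N), zero_add] at h
  exact h

/-- part 1: small `d` -/
theorem part1 (N : ℕ) (hN : N.Prime) (c : ℕ → ℝ) (hc : QC N c) (hs : sig N c ≤ 1 / 100)
    (z : ℕ) (hz : z ≤ N - 1) (e : ℝ) (he : 0 ≤ e)
    (hX : ∀ d : ℕ, 1 ≤ d → d ≤ z → |∑ m ∈ Finset.Icc 1 ((N - 1) / d), c m| ≤
      (((N - 1) / d : ℕ) : ℝ) * e) :
    |∑ d ∈ Finset.Icc 2 z, lam d * rho c d * ∑ m ∈ Finset.Icc 1 ((N - 1) / d), c m| ≤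
      N * (3 * sig N c) * e := by
  have hN1 : ((N - 1 : ℕ) : ℝ) ≤ N := by exact_mod_cast Nat.sub_le N 1
  calc |∑ d ∈ Finset.Icc 2 z, lam d * rho c d * ∑ m ∈ Finset.Icc 1 ((N - 1) / d), c m|
      ≤ ∑ d ∈ Finset.Icc 2 z, |lam d * rho c d * ∑ m ∈ Finset.Icc 1 ((N - 1) / d), c m| :=
        Finset.abs_sum_le_sum_abs _ _
    _ ≤ ∑ d ∈ Finset.Icc 2 z, rho c d / d * (N * e) := by
        refine Finset.sum_le_sum fun d hd => ?_
        rw [Finset.mem_Icc] at hd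
        have hd0 : (0 : ℝ) < d := by exact_mod_cast (show 0 < d by omega)
        have h1 : |lam d| = 1 := by rcases lam_or d with h | h <;> rw [h] <;> norm_num
        rw [abs_mul, abs_mul, h1, one_mul, abs_of_nonneg (rho_nonneg c d)]
        have h2 : (((N - 1) / d : ℕ) : ℝ) ≤ N / d :=
          (Nat.cast_div_le).trans (div_le_div_of_nonneg_right hN1 hd0.le)
        calc rho c d * |∑ m ∈ Finset.Icc 1 ((N - 1) / d), c m|
            ≤ rho c d * (N / d * e) := by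
              apply mul_le_mul_of_nonneg_left _ (rho_nonneg c d)
              exact (hX d (by omega) hd.2).trans (mul_le_mul_of_nonneg_right h2 he)
          _ = rho c d / d * (N * e) := by ring
    _ = (∑ d ∈ Finset.Icc 2 z, rho c d / d) * (N * e) := by rw [Finset.sum_mul]
    _ ≤ (∑ d ∈ Finset.Icc 2 (N - 1), rho c d / d) * (N * e) := by
        apply mul_le_mul_of_nonneg_right _ (by positivity)
        apply Finset.sum_le_sum_of_subset_of_nonneg (Finset.Icc_subset_Icc_right hz)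
        intro d _ _
        exact div_nonneg (rho_nonneg c d) (Nat.cast_nonneg d)
    _ ≤ 3 * sig N c * (N * e) :=
        mul_le_mul_of_nonneg_right (F5c N hN c hc hs) (by positivity)
    _ = N * (3 * sig N c) * e := by ring

/-- part 2: large `d` with `lam d = 1` -/
theorem part2 (N : ℕ) (hN : N.Prime) (c : ℕ → ℝ) (hc : QC N c) (hs : sig N c ≤ 1 / 100)
    (z : ℕ) (hz : 1 ≤ z) :
    |∑ d ∈ Finset.Ioc z (N - 1), (lam d + 1) * rho c d *
      ∑ m ∈ Finset.Icc 1 ((N - 1) / d), c m| ≤ 12 * N * (sig N c) ^ 2 := by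
  have hN1 : ((N - 1 : ℕ) : ℝ) ≤ N := by exact_mod_cast Nat.sub_le N 1
  calc |∑ d ∈ Finset.Ioc z (N - 1), (lam d + 1) * rho c d *
        ∑ m ∈ Finset.Icc 1 ((N - 1) / d), c m|
      ≤ ∑ d ∈ Finset.Ioc z (N - 1), |(lam d + 1) * rho c d *
          ∑ m ∈ Finset.Icc 1 ((N - 1) / d), c m| := Finset.abs_sum_le_sum_abs _ _
    _ ≤ ∑ d ∈ Finset.Ioc z (N - 1), if lam d = 1 then rho c d / d * (2 * N) else 0 := by
        refine Finset.sum_le_sum fun d hd => ?_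
        rw [Finset.mem_Ioc] at hd
        have hd0 : (0 : ℝ) < d := by exact_mod_cast (show 0 < d by omega)
        rcases lam_or d with h | h
        · rw [if_pos h, h, abs_mul, abs_mul, abs_of_nonneg (rho_nonneg c d)]
          have h2 : (((N - 1) / d : ℕ) : ℝ) ≤ N / d :=
            (Nat.cast_div_le).trans (div_le_div_of_nonneg_right hN1 hd0.le)
          have h3 : |(1 : ℝ) + 1| = 2 := by norm_num
          rw [h3]
          calc 2 * rho c d * |∑ m ∈ Finset.Icc 1 ((N - 1) / d), c m|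
              ≤ 2 * rho c d * (N / d) := by
                apply mul_le_mul_of_nonneg_left _ (mul_nonneg (by norm_num) (rho_nonneg c d))
                exact (abs_X_le hc _).trans h2
            _ = rho c d / d * (2 * N) := by ring
        · rw [h]
          norm_num
    _ = (∑ d ∈ (Finset.Ioc z (N - 1)).filter (fun d => lam d = 1), rho c d / d) * (2 * N) := by
        rw [← Finset.sum_filter, Finset.sum_mul]
    _ ≤ (∑ d ∈ (Finset.Icc 2 (N - 1)).filter (fun d => lam d = 1), rho c d / d) * (2 * N) := by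
        apply mul_le_mul_of_nonneg_right _ (by positivity)
        apply Finset.sum_le_sum_of_subset_of_nonneg
        · apply Finset.filter_subset_filter
          intro x hx
          rw [Finset.mem_Ioc] at hx
          rw [Finset.mem_Icc]
          omega
        · intro d _ _
          exact div_nonneg (rho_nonneg c d) (Nat.cast_nonneg d)
    _ ≤ 6 * (sig N c) ^ 2 * (2 * N) :=
        mul_le_mul_of_nonneg_right (F5d N hN c hc hs) (by positivity)
    _ = 12 * N * (sig N c) ^ 2 := by ring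

/-- `Rho` on an interval -/
theorem Rho_sub (c : ℕ → ℝ) (z y : ℕ) (h : z ≤ y) :
    ∑ d ∈ Finset.Ioc z y, rho c d = Rho c y - Rho c z := by
  unfold Rho
  have : Finset.Icc 1 y = Finset.Icc 1 z ∪ Finset.Ioc z y := by
    ext x; simp only [Finset.mem_Icc, Finset.mem_union, Finset.mem_Ioc]; omega
  rw [this, Finset.sum_union]
  · ring
  · rw [Finset.disjoint_left]
    intro x hx hy
    rw [Finset.mem_Icc] at hx
    rw [Finset.mem_Ioc] at hy
    omega

/-- part 3: large `d`, `lam d` replaced by `-1` -/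
theorem part3 (N : ℕ) (c : ℕ → ℝ) (hc : QC N c) (z M : ℕ) (hz1 : 1 ≤ z) (hzN : z < N)
    (hM : M = (N - 1) / (z + 1)) (L C4 e1 e2 T : ℝ) (hL : 0 ≤ L) (hC4 : 0 ≤ C4) (hT : 0 ≤ T)
    (hc0 : 0 ≤ c0 ∧ c0 ≤ 2) (he1 : 0 ≤ e1) (he2 : 0 ≤ e2)
    (h4 : ∀ y : ℕ, 1 ≤ y → y < N → |Rho c y - c0 * L * y| ≤ C4 * Real.sqrt y * T)
    (hX : |∑ m ∈ Finset.Icc 1 M, c m| ≤ M * e1)
    (hY : |∑ m ∈ Finset.Icc 1 M, c m / m| ≤ e2) :
    |∑ d ∈ Finset.Ioc z (N - 1), rho c d * ∑ m ∈ Finset.Icc 1 ((N - 1) / d), c m| ≤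
      2 * L * N * (e1 + e2) + 2 * L * M +
        C4 * T * (2 * Real.sqrt N * Real.sqrt M + M * Real.sqrt z) := by
  have hN0 : 0 < N := by omega
  have hN1 : ((N - 1 : ℕ) : ℝ) ≤ N := by exact_mod_cast Nat.sub_le N 1
  rw [swap2 (N - 1) z (fun d => rho c d) c, ← hM]
  set E : ℕ → ℝ := fun m => (Rho c ((N - 1) / m) - Rho c z) -
    c0 * L * (((N - 1 : ℕ) : ℝ) / m - z) with hE
  have hmz : ∀ m ∈ Finset.Icc 1 M, z + 1 ≤ (N - 1) / m := by
    intro m hm
    rw [Finset.mem_Icc] at hm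
    rw [Nat.le_div_iff_mul_le (by omega), mul_comm]
    have := (Nat.le_div_iff_mul_le (show 0 < z + 1 by omega)).1 (hm.2.trans (le_of_eq hM))
    exact this
  have hEb : ∀ m ∈ Finset.Icc 1 M, |E m| ≤ 2 * L +
      C4 * T * (Real.sqrt N * (1 / Real.sqrt m) + Real.sqrt z) := by
    intro m hm
    have hmz' := hmz m hm
    rw [Finset.mem_Icc] at hm
    have hm0 : (0 : ℝ) < m := by exact_mod_cast (show 0 < m by omega)
    have hy1 : 1 ≤ (N - 1) / m := by omega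
    have hy2 : (N - 1) / m < N := lt_of_le_of_lt (Nat.div_le_self _ _) (by omega)
    have a1 := h4 _ hy1 hy2
    have a2 := h4 z hz1 hzN
    have a3 : (((N - 1) / m : ℕ) : ℝ) ≤ ((N - 1 : ℕ) : ℝ) / m := Nat.cast_div_le
    have a4 : ((N - 1 : ℕ) : ℝ) / m ≤ (((N - 1) / m : ℕ) : ℝ) + 1 := by
      rw [div_le_iff₀ hm0]
      have : N - 1 < ((N - 1) / m + 1) * m := by
        have := Nat.lt_mul_div_succ (N - 1) (show 0 < m by omega)
        rw [mul_comm]; exact this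
      have h : ((N - 1 : ℕ) : ℝ) < (((N - 1) / m + 1) * m : ℕ) := by exact_mod_cast this
      push_cast at h ⊢
      linarith
    have a5 : Real.sqrt (((N - 1) / m : ℕ) : ℝ) ≤ Real.sqrt N * (1 / Real.sqrt m) := by
      rw [mul_one_div, ← Real.sqrt_div' _ hm0.le]
      exact Real.sqrt_le_sqrt (a3.trans (div_le_div_of_nonneg_right hN1 hm0.le))
    have hcL : 0 ≤ c0 * L := mul_nonneg hc0.1 hL
    have hcL2 : c0 * L ≤ 2 * L := mul_le_mul_of_nonneg_right hc0.2 hL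
    have hCT : 0 ≤ C4 * T := mul_nonneg hC4 hT
    have a6 : C4 * Real.sqrt (((N - 1) / m : ℕ) : ℝ) * T ≤
        C4 * T * (Real.sqrt N * (1 / Real.sqrt m)) := by
      calc C4 * Real.sqrt (((N - 1) / m : ℕ) : ℝ) * T =
          C4 * T * Real.sqrt (((N - 1) / m : ℕ) : ℝ) := by ring
        _ ≤ _ := mul_le_mul_of_nonneg_left a5 hCT
    have a7 : |c0 * L * ((((N - 1) / m : ℕ) : ℝ) - ((N - 1 : ℕ) : ℝ) / m)| ≤ 2 * L := by
      rw [abs_mul, abs_of_nonneg hcL]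
      have : |(((N - 1) / m : ℕ) : ℝ) - ((N - 1 : ℕ) : ℝ) / m| ≤ 1 := by
        rw [abs_le]; constructor <;> linarith
      calc c0 * L * |(((N - 1) / m : ℕ) : ℝ) - ((N - 1 : ℕ) : ℝ) / m| ≤ c0 * L * 1 :=
            mul_le_mul_of_nonneg_left this hcL
        _ ≤ 2 * L := by linarith
    have a8 : E m = (Rho c ((N - 1) / m) - c0 * L * (((N - 1) / m : ℕ) : ℝ)) -
        (Rho c z - c0 * L * z) +
        c0 * L * ((((N - 1) / m : ℕ) : ℝ) - ((N - 1 : ℕ) : ℝ) / m) := by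
      rw [hE]; ring
    rw [a8]
    have b1 := abs_add_le ((Rho c ((N - 1) / m) - c0 * L * (((N - 1) / m : ℕ) : ℝ)) -
        (Rho c z - c0 * L * z)) (c0 * L * ((((N - 1) / m : ℕ) : ℝ) - ((N - 1 : ℕ) : ℝ) / m))
    have b2 := abs_sub (Rho c ((N - 1) / m) - c0 * L * (((N - 1) / m : ℕ) : ℝ))
        (Rho c z - c0 * L * z)
    have b3 : C4 * T * (Real.sqrt N * (1 / Real.sqrt m) + Real.sqrt z) =
      C4 * T * (Real.sqrt N * (1 / Real.sqrt m)) + C4 * Real.sqrt z * T := by ring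
    rw [b3]
    linarith
  have hid : ∑ m ∈ Finset.Icc 1 M, c m * ∑ d ∈ Finset.Ioc z ((N - 1) / m), rho c d =
      c0 * L * (((N - 1 : ℕ) : ℝ) * ∑ m ∈ Finset.Icc 1 M, c m / m -
        z * ∑ m ∈ Finset.Icc 1 M, c m) + ∑ m ∈ Finset.Icc 1 M, c m * E m := by
    rw [Finset.mul_sum, Finset.mul_sum, ← Finset.sum_sub_distrib, Finset.mul_sum,
      ← Finset.sum_add_distrib]
    refine Finset.sum_congr rfl fun m hm => ?_
    have := hmz m hm
    rw [Rho_sub c z _ (by omega), hE]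
    ring
  rw [hid]
  have hM0 : (0 : ℝ) ≤ M := Nat.cast_nonneg M
  have hzM : (z : ℝ) * M ≤ N := by
    have h1 : (z + 1) * M ≤ N - 1 := by rw [hM]; exact Nat.mul_div_le _ _
    have h2 : z * M ≤ N :=
      le_trans (Nat.mul_le_mul_right M (Nat.le_succ z)) (le_trans h1 (Nat.sub_le _ _))
    exact_mod_cast h2
  have hcL : 0 ≤ c0 * L := mul_nonneg hc0.1 hL
  have hcL2 : c0 * L ≤ 2 * L := mul_le_mul_of_nonneg_right hc0.2 hL
  have m1 : |c0 * L * (((N - 1 : ℕ) : ℝ) * ∑ m ∈ Finset.Icc 1 M, c m / m -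
        z * ∑ m ∈ Finset.Icc 1 M, c m)| ≤ 2 * L * N * (e1 + e2) := by
    rw [abs_mul, abs_of_nonneg hcL]
    have t1 : |((N - 1 : ℕ) : ℝ) * ∑ m ∈ Finset.Icc 1 M, c m / m -
        z * ∑ m ∈ Finset.Icc 1 M, c m| ≤ N * (e1 + e2) := by
      have t2 := abs_sub (((N - 1 : ℕ) : ℝ) * ∑ m ∈ Finset.Icc 1 M, c m / m)
        (z * ∑ m ∈ Finset.Icc 1 M, c m)
      have t3 : |((N - 1 : ℕ) : ℝ) * ∑ m ∈ Finset.Icc 1 M, c m / m| ≤ N * e2 := by
        rw [abs_mul, abs_of_nonneg (Nat.cast_nonneg _)]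
        exact mul_le_mul hN1 hY (abs_nonneg _) (Nat.cast_nonneg _)
      have t4 : |(z : ℝ) * ∑ m ∈ Finset.Icc 1 M, c m| ≤ N * e1 := by
        rw [abs_mul, abs_of_nonneg (Nat.cast_nonneg _)]
        calc (z : ℝ) * |∑ m ∈ Finset.Icc 1 M, c m| ≤ z * (M * e1) :=
              mul_le_mul_of_nonneg_left hX (Nat.cast_nonneg _)
          _ = z * M * e1 := by ring
          _ ≤ N * e1 := mul_le_mul_of_nonneg_right hzM he1
      linarith
    calc c0 * L * |((N - 1 : ℕ) : ℝ) * ∑ m ∈ Finset.Icc 1 M, c m / m -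
        z * ∑ m ∈ Finset.Icc 1 M, c m| ≤ 2 * L * (N * (e1 + e2)) :=
          mul_le_mul hcL2 t1 (abs_nonneg _) (by positivity)
      _ = 2 * L * N * (e1 + e2) := by ring
  have m2 : |∑ m ∈ Finset.Icc 1 M, c m * E m| ≤ 2 * L * M +
      C4 * T * (2 * Real.sqrt N * Real.sqrt M + M * Real.sqrt z) := by
    calc |∑ m ∈ Finset.Icc 1 M, c m * E m| ≤ ∑ m ∈ Finset.Icc 1 M, |c m * E m| :=
          Finset.abs_sum_le_sum_abs _ _
      _ ≤ ∑ m ∈ Finset.Icc 1 M, (2 * L +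
          C4 * T * (Real.sqrt N * (1 / Real.sqrt m) + Real.sqrt z)) := by
          refine Finset.sum_le_sum fun m hm => ?_
          rw [abs_mul]
          calc |c m| * |E m| ≤ 1 * |E m| :=
                mul_le_mul_of_nonneg_right (abs_c_le hc m) (abs_nonneg _)
            _ ≤ _ := by rw [one_mul]; exact hEb m hm
      _ = 2 * L * M + C4 * T * (Real.sqrt N * ∑ m ∈ Finset.Icc 1 M, 1 / Real.sqrt m +
          M * Real.sqrt z) := by
          rw [Finset.sum_add_distrib, Finset.sum_const, ← Finset.mul_sum,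
            Finset.sum_add_distrib, ← Finset.mul_sum, Finset.sum_const]
          simp only [Nat.card_Icc, Nat.add_sub_cancel, nsmul_eq_mul]
          ring
      _ ≤ _ := by
          have h1 := sum_inv_sqrt M
          have hCT : 0 ≤ C4 * T := mul_nonneg hC4 hT
          have h2 : Real.sqrt N * ∑ m ∈ Finset.Icc 1 M, 1 / Real.sqrt m ≤
              2 * Real.sqrt N * Real.sqrt M := by
            calc Real.sqrt N * ∑ m ∈ Finset.Icc 1 M, 1 / Real.sqrt m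
                ≤ Real.sqrt N * (2 * Real.sqrt M) :=
                  mul_le_mul_of_nonneg_left h1 (Real.sqrt_nonneg _)
              _ = _ := by ring
          have h3 := mul_le_mul_of_nonneg_left (add_le_add_left h2 (M * Real.sqrt z)) hCT
          linarith
  have m3 := abs_add_le (c0 * L * (((N - 1 : ℕ) : ℝ) * ∑ m ∈ Finset.Icc 1 M, c m / m -
        z * ∑ m ∈ Finset.Icc 1 M, c m)) (∑ m ∈ Finset.Icc 1 M, c m * E m)
  linarith

/-- real number facts about the parameters -/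
theorem params (k : ℕ) (C : ℝ) : ∃ N0 : ℕ, ∀ N : ℕ, N0 ≤ N → ∀ M : ℕ,
    M = (N - 1) / (ZZ N + 1) →
    100 ≤ N ∧ 1 ≤ ZZ N ∧ ZZ N + 1 < N ∧ (N : ℝ) ^ ((2 : ℝ) / 5) ≤ M ∧
      (N : ℝ) ^ ((27 : ℝ) / 50) ≤ ZZ N + 1 ∧ (Real.log N) ^ k ≤ (N : ℝ) ^ ((27 : ℝ) / 50) ∧
      C * (Real.log N) ^ k * ((N : ℝ) ^ ((1 : ℝ) / 4) *
        (2 * Real.sqrt N * Real.sqrt M + M * Real.sqrt (ZZ N))) ≤ (N : ℝ) ^ ((197 : ℝ) / 200) ∧
      100 ≤ Real.log N ∧ C ≤ Real.log N := by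
  obtain ⟨n1, h1⟩ := evlog 8 0 (3 / 50) (by norm_num)
  obtain ⟨n2, h2⟩ := evlog 1 k (27 / 50) (by norm_num)
  obtain ⟨n3, h3⟩ := evlog (3 * |C|) k (1 / 200) (by norm_num)
  obtain ⟨n4, h4⟩ := evlog 4 0 (27 / 50) (by norm_num)
  have hlog : ∃ n5 : ℕ, ∀ N : ℕ, n5 ≤ N → max 100 C ≤ Real.log N := by
    have := (Real.tendsto_log_atTop.comp (tendsto_natCast_atTop_atTop (R := ℝ))).eventually
      (Filter.eventually_ge_atTop (max 100 C))
    exact Filter.eventually_atTop.1 this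
  obtain ⟨n5, h5⟩ := hlog
  refine ⟨n1 + n2 + n3 + n4 + n5 + 100, fun N hN M hM => ?_⟩
  have hN100 : 100 ≤ N := by omega
  have hNr : (100 : ℝ) ≤ N := by exact_mod_cast hN100
  have hN0 : (0 : ℝ) < N := by linarith
  have hN1 : (1 : ℝ) ≤ N := by linarith
  have e1 := h1 N (by omega)
  have e2 := h2 N (by omega)
  have e3 := h3 N (by omega)
  have e4 := h4 N (by omega)
  have e5 := h5 N (by omega)
  rw [pow_zero, mul_one] at e1 e4
  rw [one_mul] at e2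
  set a : ℝ := (N : ℝ) ^ ((27 : ℝ) / 50) with ha
  have ha0 : 0 < a := Real.rpow_pos_of_pos hN0 _
  have hz1 : (ZZ N : ℝ) ≤ a := Nat.floor_le ha0.le
  have hz2 : a < ZZ N + 1 := Nat.lt_floor_add_one a
  have hb : (N : ℝ) ^ ((23 : ℝ) / 50) * a = N := by
    rw [ha, ← Real.rpow_add hN0]; norm_num
  have hb0 : 0 < (N : ℝ) ^ ((23 : ℝ) / 50) := Real.rpow_pos_of_pos hN0 _
  have hb1 : (N : ℝ) ^ ((2 : ℝ) / 5) * (N : ℝ) ^ ((3 : ℝ) / 50) = (N : ℝ) ^ ((23 : ℝ) / 50) := by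
    rw [← Real.rpow_add hN0]; norm_num
  have hc1 : 1 ≤ (N : ℝ) ^ ((2 : ℝ) / 5) := Real.one_le_rpow hN1 (by norm_num)
  have hb8 : 8 * (N : ℝ) ^ ((2 : ℝ) / 5) ≤ (N : ℝ) ^ ((23 : ℝ) / 50) := by
    rw [← hb1]; nlinarith
  have hz1' : 1 ≤ ZZ N := by
    have : (1 : ℝ) < ZZ N + 1 + 0 := by linarith
    have h : (0 : ℝ) < ZZ N := by linarith
    exact_mod_cast h
  have hzN : ZZ N + 1 < N := by
    have h : (ZZ N : ℝ) + 1 < N := by nlinarith
    exact_mod_cast h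
  have hMup : (M : ℝ) ≤ (N : ℝ) ^ ((23 : ℝ) / 50) := by
    have h : M * (ZZ N + 1) ≤ N - 1 := by rw [hM]; exact Nat.div_mul_le_self _ _
    have h' : (M : ℝ) * (ZZ N + 1) ≤ N := by
      have : M * (ZZ N + 1) ≤ N := by omega
      exact_mod_cast this
    have h0 : (0 : ℝ) ≤ M := Nat.cast_nonneg M
    have h'' : (M : ℝ) * a ≤ (N : ℝ) ^ ((23 : ℝ) / 50) * a := by
      rw [hb]
      exact (mul_le_mul_of_nonneg_left hz2.le h0).trans h'
    exact le_of_mul_le_mul_right h'' ha0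
  have hMlo : (N : ℝ) ^ ((2 : ℝ) / 5) ≤ M := by
    have h : N - 1 < (M + 1) * (ZZ N + 1) := by
      rw [hM, mul_comm]; exact Nat.lt_mul_div_succ (N - 1) (by omega)
    have h' : (N : ℝ) ≤ ((M : ℝ) + 1) * (ZZ N + 1) := by
      have : N ≤ (M + 1) * (ZZ N + 1) := by omega
      exact_mod_cast this
    by_contra hcon
    rw [not_le] at hcon
    have h1 : (M : ℝ) + 1 ≤ 2 * (N : ℝ) ^ ((2 : ℝ) / 5) := by linarith
    have h2 : (ZZ N : ℝ) + 1 ≤ 2 * a := by linarith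
    have h3 : ((M : ℝ) + 1) * (ZZ N + 1) ≤ 2 * (N : ℝ) ^ ((2 : ℝ) / 5) * (2 * a) :=
      mul_le_mul h1 h2 (by positivity) (by positivity)
    have h4 : 2 * (N : ℝ) ^ ((2 : ℝ) / 5) * (2 * a) * 2 ≤ N := by
      rw [← hb]
      nlinarith
    linarith
  have hs1 : Real.sqrt N = (N : ℝ) ^ ((1 : ℝ) / 2) := Real.sqrt_eq_rpow N
  have hs2 : Real.sqrt M ≤ (N : ℝ) ^ ((23 : ℝ) / 100) := by
    rw [Real.sqrt_le_left (by positivity)]
    calc (M : ℝ) ≤ (N : ℝ) ^ ((23 : ℝ) / 50) := hMup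
      _ = ((N : ℝ) ^ ((23 : ℝ) / 100)) ^ 2 := by
          rw [← Real.rpow_natCast, ← Real.rpow_mul hN0.le]; norm_num
  have hs3 : Real.sqrt (ZZ N) ≤ (N : ℝ) ^ ((27 : ℝ) / 100) := by
    rw [Real.sqrt_le_left (by positivity)]
    calc (ZZ N : ℝ) ≤ a := hz1
      _ = ((N : ℝ) ^ ((27 : ℝ) / 100)) ^ 2 := by
          rw [ha, ← Real.rpow_natCast, ← Real.rpow_mul hN0.le]; norm_num
  have hs4 : 2 * Real.sqrt N * Real.sqrt M + M * Real.sqrt (ZZ N) ≤
      3 * (N : ℝ) ^ ((73 : ℝ) / 100) := by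
    have t1 : Real.sqrt N * Real.sqrt M ≤ (N : ℝ) ^ ((73 : ℝ) / 100) := by
      calc Real.sqrt N * Real.sqrt M ≤ (N : ℝ) ^ ((1 : ℝ) / 2) * (N : ℝ) ^ ((23 : ℝ) / 100) := by
            rw [hs1]; exact mul_le_mul_of_nonneg_left hs2 (by positivity)
        _ = _ := by rw [← Real.rpow_add hN0]; norm_num
    have t2 : M * Real.sqrt (ZZ N) ≤ (N : ℝ) ^ ((73 : ℝ) / 100) := by
      calc M * Real.sqrt (ZZ N) ≤ (N : ℝ) ^ ((23 : ℝ) / 50) * (N : ℝ) ^ ((27 : ℝ) / 100) :=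
            mul_le_mul hMup hs3 (Real.sqrt_nonneg _) (by positivity)
        _ = _ := by rw [← Real.rpow_add hN0]; norm_num
    have t3 : 2 * Real.sqrt N * Real.sqrt M = 2 * (Real.sqrt N * Real.sqrt M) := by ring
    rw [t3]
    linarith
  refine ⟨hN100, hz1', hzN, hMlo, hz2.le, e2, ?_, (le_max_left _ _).trans e5,
    (le_max_right _ _).trans e5⟩
  have hl0 : 0 ≤ Real.log N := Real.log_nonneg hN1
  have hq0 : 0 ≤ (N : ℝ) ^ ((1 : ℝ) / 4) := by positivity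
  have hw0 : 0 ≤ (N : ℝ) ^ ((1 : ℝ) / 4) *
        (2 * Real.sqrt N * Real.sqrt M + M * Real.sqrt (ZZ N)) := by positivity
  calc C * (Real.log N) ^ k * ((N : ℝ) ^ ((1 : ℝ) / 4) *
        (2 * Real.sqrt N * Real.sqrt M + M * Real.sqrt (ZZ N)))
      ≤ |C| * (Real.log N) ^ k * ((N : ℝ) ^ ((1 : ℝ) / 4) *
        (2 * Real.sqrt N * Real.sqrt M + M * Real.sqrt (ZZ N))) := by
        apply mul_le_mul_of_nonneg_right _ hw0
        exact mul_le_mul_of_nonneg_right (le_abs_self C) (by positivity)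
    _ ≤ |C| * (Real.log N) ^ k * ((N : ℝ) ^ ((1 : ℝ) / 4) *
        (3 * (N : ℝ) ^ ((73 : ℝ) / 100))) := by
        apply mul_le_mul_of_nonneg_left _ (by positivity)
        exact mul_le_mul_of_nonneg_left hs4 hq0
    _ = 3 * |C| * (Real.log N) ^ k * ((N : ℝ) ^ ((1 : ℝ) / 4) *
        (N : ℝ) ^ ((73 : ℝ) / 100)) := by ring
    _ ≤ (N : ℝ) ^ ((1 : ℝ) / 200) * ((N : ℝ) ^ ((1 : ℝ) / 4) *
        (N : ℝ) ^ ((73 : ℝ) / 100)) := by
        exact mul_le_mul_of_nonneg_right e3 (by positivity)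
    _ = (N : ℝ) ^ ((197 : ℝ) / 200) := by
        rw [← Real.rpow_add hN0, ← Real.rpow_add hN0]; norm_num

end F6

theorem F6 (A : ℕ) : ∃ B N0 : ℕ, ∀ N : ℕ, N0 ≤ N → N.Prime → ∀ (c : ℕ → ℝ) (L : ℝ), QC N c →
    LV N c L → (N : ℝ) ^ (-(1 / 90) : ℝ) ≤ L → (∀ q ∈ Qp N c, 100 ≤ q) →
    sig N c ≤ 1 / (Real.log N) ^ B →
    |∑ n ∈ Finset.Icc 1 (N - 1), lam n| ≤ ((DD N c).card : ℝ) / (Real.log N) ^ A := by
  obtain ⟨C1, hC1, hx⟩ := F6x (A + 1)
  obtain ⟨C2, hC2, hy⟩ := F6y (A + 1)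
  obtain ⟨C4, hC4, h4⟩ := F4
  obtain ⟨N1, h5⟩ := F5z
  set C : ℝ := C4 + (12 * (C1 + 2) + 48 + 200 * (C1 + C2 + 6) + 200 + 1) with hC
  obtain ⟨N2, hpar⟩ := F6.params (A + 3) C
  refine ⟨A + 2, N1 + N2, fun N hN hp c L hc hL hLl hq hsig => ?_⟩
  obtain ⟨hN100, hz1, hzN, hMlo, hz2, hk, herr, hl100, hlC⟩ :=
    hpar N (by omega) ((N - 1) / (ZZ N + 1)) rfl
  set z := ZZ N with hz
  set M := (N - 1) / (z + 1) with hM
  set K := Real.log N with hK
  set D : ℝ := ((DD N c).card : ℝ) with hD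
  have hK0 : 0 < K := by linarith
  have hK1 : 1 ≤ K := by linarith
  have hNr : (100 : ℝ) ≤ N := by exact_mod_cast hN100
  have hN0 : (0 : ℝ) < N := by linarith
  have hsig0 : 0 ≤ sig N c := by
    unfold sig; exact Finset.sum_nonneg fun q _ => by positivity
  set u : ℝ := 1 / K ^ (A + 1) with hu
  have hu0 : 0 < u := by positivity
  have hsK : sig N c * K ≤ u := by
    calc sig N c * K ≤ 1 / K ^ (A + 2) * K := mul_le_mul_of_nonneg_right hsig hK0.le
      _ = u := by rw [hu, pow_succ K (A + 1)]; field_simp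
  have hsu : sig N c ≤ u := le_trans (le_mul_of_one_le_right hsig0 hK1) hsK
  have hu100 : u ≤ 1 / 100 := by
    have h1 : (100 : ℝ) ≤ K ^ (A + 1) := by
      calc (100 : ℝ) ≤ K := hl100
        _ = K ^ 1 := (pow_one K).symm
        _ ≤ K ^ (A + 1) := pow_le_pow_right₀ hK1 (by omega)
    exact one_div_le_one_div_of_le (by norm_num) h1
  have hs100 : sig N c ≤ 1 / 100 := hsu.trans hu100
  obtain ⟨hNL, hDlo⟩ := h5 N (by omega) hp c L hc hL hLl hq hs100
  rw [← hD] at hNL hDlo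
  have hD0 : 0 ≤ D := Nat.cast_nonneg _
  have hNs : N * sig N c / 4 ≤ D := F5b N hp hN100 c hc hq hs100
  have hL0 : 0 ≤ L := hL.1
  have hc0 : 0 ≤ c0 ∧ c0 ≤ 2 := ⟨le_trans (by norm_num) F4c.1, F4c.2⟩
  -- decomposition
  have hdec : ∑ n ∈ Finset.Icc 1 (N - 1), lam n =
      ∑ d ∈ Finset.Icc 2 z, lam d * rho c d * ∑ m ∈ Finset.Icc 1 ((N - 1) / d), c m +
      ∑ d ∈ Finset.Ioc z (N - 1), (lam d + 1) * rho c d *
        ∑ m ∈ Finset.Icc 1 ((N - 1) / d), c m -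
      ∑ d ∈ Finset.Ioc z (N - 1), rho c d * ∑ m ∈ Finset.Icc 1 ((N - 1) / d), c m := by
    rw [F6.ident N hp c hc]
    have hset : Finset.Icc 1 (N - 1) = insert 1 (Finset.Icc 2 z ∪ Finset.Ioc z (N - 1)) := by
      ext x; simp only [Finset.mem_Icc, Finset.mem_insert, Finset.mem_union, Finset.mem_Ioc]
      omega
    rw [hset, Finset.sum_insert, Finset.sum_union]
    · rw [Nat.div_one, F6.X_last N hp c hc, mul_zero, zero_add, add_sub_assoc,
        ← Finset.sum_sub_distrib]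
      congr 1
      refine Finset.sum_congr rfl fun d _ => ?_
      ring
    · rw [Finset.disjoint_left]
      intro x hx hy
      rw [Finset.mem_Icc] at hx
      rw [Finset.mem_Ioc] at hy
      omega
    · simp only [Finset.mem_Icc, Finset.mem_union, Finset.mem_Ioc]
      omega
  have hM1 : M < N := lt_of_le_of_lt (Nat.div_le_self _ _) (by omega)
  have hM0r : (0 : ℝ) ≤ M := Nat.cast_nonneg M
  have hCu : C1 / K ^ (A + 1) = C1 * u := by rw [hu]; ring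
  have hCu2 : C2 / K ^ (A + 1) = C2 * u := by rw [hu]; ring
  -- part 1
  have p1 := F6.part1 N hp c hc hs100 z (by omega) (C1 * u + 2 * sig N c) (by positivity) (by
    intro d hd1 hd2
    have hMd : M ≤ (N - 1) / d := Nat.div_le_div_left (by omega) (by omega)
    have := hx N hN100 hp c hc ((N - 1) / d) (lt_of_le_of_lt (Nat.div_le_self _ _) (by omega))
      (hMlo.trans (by exact_mod_cast hMd))
    rw [hCu] at this
    exact this)
  have p2 := F6.part2 N hp c hc hs100 z hz1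
  have hX := hx N hN100 hp c hc M hM1 hMlo
  have hY := hy N hN100 hp c hc M hM1 hMlo
  rw [hCu] at hX
  rw [hCu2] at hY
  have p3 := F6.part3 N c hc z M hz1 (by omega) hM L C4 (C1 * u + 2 * sig N c)
    (C2 * u + 4 * sig N c * K) ((N : ℝ) ^ ((1 : ℝ) / 4) * K ^ 2) hL0 hC4.le (by positivity)
    hc0 (by positivity) (by positivity) (by
      intro y hy1 hy2
      have := h4 N (by omega) hp c L hc hL y hy1 hy2
      rw [mul_assoc (C4 * Real.sqrt y)] at this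
      exact this) hX hY
  -- numerical bounds
  have q1 : N * (3 * sig N c) * (C1 * u + 2 * sig N c) ≤ 12 * D * ((C1 + 2) * u) := by
    have : N * (3 * sig N c) ≤ 12 * D := by linarith
    exact mul_le_mul this (by linarith) (by positivity) (by positivity)
  have q2 : 12 * N * (sig N c) ^ 2 ≤ 48 * D * u := by
    have h1 : 12 * N * (sig N c) ^ 2 = 12 * (N * sig N c) * sig N c := by ring
    rw [h1]
    exact mul_le_mul (by linarith) hsu hsig0 (by positivity)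
  have q3 : 2 * L * N * ((C1 * u + 2 * sig N c) + (C2 * u + 4 * sig N c * K)) ≤
      200 * D * ((C1 + C2 + 6) * u) := by
    have h1 : 2 * L * N ≤ 200 * D := by linarith
    have h2 : (C1 * u + 2 * sig N c) + (C2 * u + 4 * sig N c * K) ≤ (C1 + C2 + 6) * u := by
      linarith
    exact mul_le_mul h1 h2 (by positivity) (by positivity)
  have hKu : K ^ (A + 1) * u = 1 := by rw [hu]; field_simp
  have q4 : 2 * L * M ≤ 200 * D * u := by
    have h1 : M * (z + 1) ≤ N := by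
      have : M * (z + 1) ≤ N - 1 := Nat.div_mul_le_self _ _
      omega
    have h1' : (M : ℝ) * ((z : ℝ) + 1) ≤ N := by exact_mod_cast h1
    have h2 : K ^ (A + 1) ≤ (z : ℝ) + 1 := by
      refine le_trans ?_ (hk.trans hz2)
      exact pow_le_pow_right₀ hK1 (by omega)
    have h3 : (M : ℝ) * K ^ (A + 1) ≤ N := (mul_le_mul_of_nonneg_left h2 hM0r).trans h1'
    have h4 : (M : ℝ) ≤ N * u := by
      calc (M : ℝ) = M * (K ^ (A + 1) * u) := by rw [hKu, mul_one]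
        _ = M * K ^ (A + 1) * u := by ring
        _ ≤ N * u := mul_le_mul_of_nonneg_right h3 hu0.le
    calc 2 * L * M ≤ 2 * L * (N * u) := mul_le_mul_of_nonneg_left h4 (by positivity)
      _ = 2 * (N * L) * u := by ring
      _ ≤ 2 * (100 * D) * u := by
          apply mul_le_mul_of_nonneg_right _ hu0.le
          linarith
      _ = 200 * D * u := by ring
  have q5 : C4 * ((N : ℝ) ^ ((1 : ℝ) / 4) * K ^ 2) *
      (2 * Real.sqrt N * Real.sqrt M + M * Real.sqrt z) ≤ D * u := by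
    have hC4C : C4 ≤ C := by
      rw [hC]
      have : 0 ≤ 12 * (C1 + 2) + 48 + 200 * (C1 + C2 + 6) + 200 + 1 := by positivity
      linarith
    set W : ℝ := (N : ℝ) ^ ((1 : ℝ) / 4) * (2 * Real.sqrt N * Real.sqrt M + M * Real.sqrt z)
      with hW
    have hW0 : 0 ≤ W := by positivity
    have h1 : C4 * ((N : ℝ) ^ ((1 : ℝ) / 4) * K ^ 2) *
        (2 * Real.sqrt N * Real.sqrt M + M * Real.sqrt z) = C4 * K ^ (A + 3) * W * u := by
      calc C4 * ((N : ℝ) ^ ((1 : ℝ) / 4) * K ^ 2) *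
            (2 * Real.sqrt N * Real.sqrt M + M * Real.sqrt z) = C4 * K ^ 2 * W := by
              rw [hW]; ring
        _ = C4 * K ^ 2 * W * (K ^ (A + 1) * u) := by rw [hKu, mul_one]
        _ = C4 * K ^ (A + 3) * W * u := by ring
    rw [h1]
    apply mul_le_mul_of_nonneg_right _ hu0.le
    calc C4 * K ^ (A + 3) * W ≤ C * K ^ (A + 3) * W := by
          apply mul_le_mul_of_nonneg_right _ hW0
          exact mul_le_mul_of_nonneg_right hC4C (by positivity)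
      _ ≤ (N : ℝ) ^ ((197 : ℝ) / 200) := herr
      _ ≤ D := hDlo
  have htot : |∑ n ∈ Finset.Icc 1 (N - 1), lam n| ≤ D * u *
      (12 * (C1 + 2) + 48 + 200 * (C1 + C2 + 6) + 200 + 1) := by
    rw [hdec]
    set S1 := ∑ d ∈ Finset.Icc 2 z, lam d * rho c d * ∑ m ∈ Finset.Icc 1 ((N - 1) / d), c m
    set S2 := ∑ d ∈ Finset.Ioc z (N - 1), (lam d + 1) * rho c d *
        ∑ m ∈ Finset.Icc 1 ((N - 1) / d), c m
    set S3 := ∑ d ∈ Finset.Ioc z (N - 1), rho c d * ∑ m ∈ Finset.Icc 1 ((N - 1) / d), c m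
    have r1 := abs_sub (S1 + S2) S3
    have r2 := abs_add_le S1 S2
    linarith
  have hlast : u * (12 * (C1 + 2) + 48 + 200 * (C1 + C2 + 6) + 200 + 1) ≤ 1 / K ^ A := by
    have h1 : 12 * (C1 + 2) + 48 + 200 * (C1 + C2 + 6) + 200 + 1 ≤ K := by
      refine le_trans ?_ hlC
      rw [hC]; linarith
    calc u * (12 * (C1 + 2) + 48 + 200 * (C1 + C2 + 6) + 200 + 1) ≤ u * K :=
          mul_le_mul_of_nonneg_left h1 hu0.le
      _ = 1 / K ^ A := by rw [hu, pow_succ K A]; field_simp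
  calc |∑ n ∈ Finset.Icc 1 (N - 1), lam n| ≤ D * (u *
      (12 * (C1 + 2) + 48 + 200 * (C1 + C2 + 6) + 200 + 1)) := by rw [← mul_assoc]; exact htot
    _ ≤ D * (1 / K ^ A) := mul_le_mul_of_nonneg_left hlast hD0
    _ = D / K ^ A := by ring

end Pool.Agent.Lib.MP_7b7e48_nt.LG
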