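import Pool.Agent.Lib.MP_7b7e48_nt.LG.Defs
import Pool.Agent.Lib.MP_7b7e48_nt.LG.F5z

/-!
# Module F7 (60 minutes): the exceptional set in intervals

PROOF. `n ∈ DD`, `α ≤ n < β`: `n` has a prime factor `q ∈ Qp`. `q ≤ Z = ZZ N`: at most
`∑_q ((β - α)/q + 1) ≤ (β - α) sig + Z` such `n`. `q > Z`: `n = q k`, `k ≤ N/Z`, and
`#{q ∈ Qp : q > Z, α ≤ q k < β} ≤ (Rho c ((β-1)/k) - Rho c (max Z ((α-1)/k)))/2 + ...` (each prime `q` has
`rho c q = 2`), by `F4` at most `L (β - α)/k + 2 + 2 C √(N/k) N^(1/4) K^2` (`c0 ≤ 2`; `L ≤ 20 log N`).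
Sum over `k ≤ N/Z`: `≤ L (β-α) (1 + K) + C' N^(0.98) K^2`. Now `sig ≤ 4 #DD/N` (`F5b`) and
`L ≤ 100 #DD/N` (`F5z`).
-/

open Finset
open Pool.Agent.Lib.MP_45349e_nt.LS (lam)

namespace Pool.Agent.Lib.MP_7b7e48_nt.LG

private theorem F7_c_one {N : ℕ} (hN : N.Prime) {c : ℕ → ℝ} (hc : QC N c) : c 1 = 1 := by
  have h1 : ¬ N ∣ 1 := fun h => hN.one_lt.ne' (Nat.dvd_one.1 h)
  have h2 := hc.mul 1 1
  rw [mul_one] at h2
  rcases hc.val 1 h1 with h | h
  · exact h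
  · rw [h] at h2
    norm_num at h2

/-- If `c = -1` at all prime factors of `n`, then `lam n = c n`. -/
private theorem F7_eq {N : ℕ} (hN : N.Prime) {c : ℕ → ℝ} (hc : QC N c) :
    ∀ n : ℕ, 1 ≤ n → (∀ p : ℕ, p.Prime → p ∣ n → c p = -1) → lam n = c n := by
  intro n
  induction n using Nat.recOnMul with
  | zero => intro h; omega
  | one =>
    intro _ _
    rw [F7_c_one hN hc]
    unfold lam
    simp
  | prime p hp =>
    intro _ h
    rw [h p hp (dvd_refl p)]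
    unfold lam
    rw [ArithmeticFunction.cardFactors_apply_prime hp, pow_one]
  | mul a b ha hb =>
    intro h1 h2
    have ha0 : a ≠ 0 := by rintro rfl; simp at h1
    have hb0 : b ≠ 0 := by rintro rfl; simp at h1
    have h3 : lam (a * b) = lam a * lam b := by
      unfold lam
      rw [ArithmeticFunction.cardFactors_mul ha0 hb0, pow_add]
    rw [h3, hc.mul a b,
      ha (Nat.one_le_iff_ne_zero.2 ha0) (fun p hp hd => h2 p hp (hd.mul_right b)),
      hb (Nat.one_le_iff_ne_zero.2 hb0) (fun p hp hd => h2 p hp (hd.mul_left a))]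

private theorem F7_mem_DD {N : ℕ} {c : ℕ → ℝ} {n : ℕ} (hn : n ∈ DD N c) :
    n < N ∧ 0 < n ∧ lam n ≠ c n := by
  classical
  unfold DD at hn
  rw [Finset.mem_filter, Finset.mem_range] at hn
  exact hn

private theorem F7_mem_Qp {N : ℕ} {c : ℕ → ℝ} {q : ℕ} :
    q ∈ Qp N c ↔ q < N ∧ q.Prime ∧ c q = 1 := by
  classical
  unfold Qp
  rw [Finset.mem_filter, Finset.mem_range]

/-- An element of the exceptional set has a prime factor in `Qp`. -/
private theorem F7_factor {N : ℕ} (hN : N.Prime) {c : ℕ → ℝ} (hc : QC N c) {n : ℕ}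
    (hn : n ∈ DD N c) : ∃ q ∈ Qp N c, q ∣ n := by
  obtain ⟨h1, h2, h3⟩ := F7_mem_DD hn
  by_contra hcon
  push Not at hcon
  refine h3 (F7_eq hN hc n h2 fun p hp hd => ?_)
  have hle : p ≤ n := Nat.le_of_dvd h2 hd
  have hlt : p < N := lt_of_le_of_lt hle h1
  have hnd : ¬ N ∣ p := fun h => absurd (Nat.le_of_dvd hp.pos h) (by omega)
  rcases hc.val p hnd with h | h
  · exact absurd hd (hcon p (F7_mem_Qp.2 ⟨hlt, hp, h⟩))
  · exact h

private theorem F7_rho_nonneg (c : ℕ → ℝ) (n : ℕ) : 0 ≤ rho c n := by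
  unfold rho
  split_ifs
  · positivity
  · exact le_refl 0

private theorem F7_rho_prime {c : ℕ → ℝ} {q : ℕ} (hq : q.Prime) (h : c q = 1) : rho c q = 2 := by
  unfold rho
  rw [Nat.Prime.primeFactors hq, if_pos (by intro p hp; rw [Finset.mem_singleton.1 hp]; exact h),
    Finset.card_singleton, pow_one]

/-- The count of primes in an interval by means of `Rho`. -/
private theorem F7_count {N : ℕ} {c : ℕ → ℝ} {lo hi : ℕ} (h : lo ≤ hi) (S : Finset ℕ)
    (hS : ∀ q ∈ S, q ∈ Qp N c ∧ lo < q ∧ q ≤ hi) :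
    2 * (S.card : ℝ) ≤ Rho c hi - Rho c lo := by
  have h1 : Rho c hi - Rho c lo = ∑ n ∈ Finset.Ioc lo hi, rho c n := by
    unfold Rho
    have h2 : Finset.Icc 1 hi = Finset.Icc 1 lo ∪ Finset.Ioc lo hi := by
      ext n
      simp only [Finset.mem_union, Finset.mem_Icc, Finset.mem_Ioc]
      omega
    have h3 : Disjoint (Finset.Icc 1 lo) (Finset.Ioc lo hi) := by
      rw [Finset.disjoint_left]
      intro n hn hn'
      simp only [Finset.mem_Icc, Finset.mem_Ioc] at hn hn'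
      omega
    rw [h2, Finset.sum_union h3]
    ring
  have h4 : S ⊆ Finset.Ioc lo hi := fun q hq => by
    rw [Finset.mem_Ioc]
    exact ⟨(hS q hq).2.1, (hS q hq).2.2⟩
  have h5 : ∑ n ∈ S, rho c n = 2 * (S.card : ℝ) := by
    have h6 : ∀ q ∈ S, rho c q = 2 := by
      intro q hq
      have h7 := F7_mem_Qp.1 (hS q hq).1
      exact F7_rho_prime h7.2.1 h7.2.2
    rw [Finset.sum_congr rfl h6, Finset.sum_const, nsmul_eq_mul, mul_comm]
  rw [h1, ← h5]
  exact Finset.sum_le_sum_of_subset_of_nonneg h4 fun n _ _ => F7_rho_nonneg c n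

/-- Multiples of `q` in an interval. -/
private theorem F7_mult (α β q : ℕ) (hq : 0 < q) (hab : α ≤ β) :
    (((Finset.Ico α β).filter (fun n => q ∣ n)).card : ℝ) ≤ ((β : ℝ) - α) / q + 1 := by
  have hqr : (0 : ℝ) < q := by exact_mod_cast hq
  have hab' : (α : ℝ) ≤ β := by exact_mod_cast hab
  rcases Nat.eq_zero_or_pos β with h0 | h0
  · subst h0
    rw [Finset.Ico_eq_empty (by omega), Finset.filter_empty, Finset.card_empty]
    have : 0 ≤ (((0 : ℕ) : ℝ) - α) / q := div_nonneg (by linarith) hqr.le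
    push_cast at this ⊢
    linarith
  have h1 : (Finset.Ico α β).filter (fun n => q ∣ n) ⊆
      (Finset.Ico ((α + q - 1) / q) ((β - 1) / q + 1)).image (fun k => q * k) := by
    intro n hn
    rw [Finset.mem_filter, Finset.mem_Ico] at hn
    obtain ⟨⟨h2, h3⟩, k, rfl⟩ := hn
    rw [Finset.mem_image]
    refine ⟨k, ?_, rfl⟩
    rw [Finset.mem_Ico]
    constructor
    · refine Nat.le_of_lt_succ ((Nat.div_lt_iff_lt_mul hq).2 ?_)
      have : (k + 1) * q = q * k + q := by ring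
      rw [Nat.succ_eq_add_one, this]
      omega
    · refine Nat.lt_succ_of_le ((Nat.le_div_iff_mul_le hq).2 ?_)
      rw [mul_comm]
      omega
  have h2 := (Finset.card_le_card h1).trans Finset.card_image_le
  rw [Nat.card_Ico] at h2
  have h3 : (((β - 1) / q + 1 - (α + q - 1) / q : ℕ) : ℝ) ≤ ((β : ℝ) - α) / q + 1 := by
    rcases le_or_gt ((α + q - 1) / q) ((β - 1) / q + 1) with h | h
    · rw [Nat.cast_sub h]
      push_cast
      have h4 : (((β - 1) / q : ℕ) : ℝ) ≤ (β : ℝ) / q := by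
        refine Nat.cast_div_le.trans ?_
        refine div_le_div_of_nonneg_right ?_ hqr.le
        exact_mod_cast Nat.sub_le β 1
      have h5 : (α : ℝ) / q ≤ (((α + q - 1) / q : ℕ) : ℝ) := by
        rw [div_le_iff₀ hqr]
        have h6 : α ≤ (α + q - 1) / q * q := by
          have h7 := Nat.div_add_mod (α + q - 1) q
          have h8 := Nat.mod_lt (α + q - 1) hq
          have h9 : (α + q - 1) / q * q = q * ((α + q - 1) / q) := Nat.mul_comm _ _
          omega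
        exact_mod_cast h6
      rw [sub_div]
      linarith
    · rw [Nat.sub_eq_zero_of_le h.le]
      have : 0 ≤ ((β : ℝ) - α) / q := div_nonneg (by linarith) hqr.le
      push_cast
      linarith
  exact (by exact_mod_cast h2 : (((Finset.Ico α β).filter (fun n => q ∣ n)).card : ℝ) ≤
    (((β - 1) / q + 1 - (α + q - 1) / q : ℕ) : ℝ)).trans h3

private theorem F7_harm (n : ℕ) : ∑ a ∈ Finset.Icc 1 n, (1 : ℝ) / a ≤ 1 + Real.log n := by
  have h := harmonic_le_one_add_log n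
  rw [harmonic_eq_sum_Icc] at h
  push_cast at h
  refine le_trans (le_of_eq ?_) h
  exact Finset.sum_congr rfl fun a _ => one_div _

/-- `∑ 1/√k ≤ 2 √M`. -/
private theorem F7_sqrt (M : ℕ) : ∑ k ∈ Finset.Icc 1 M, 1 / Real.sqrt k ≤ 2 * Real.sqrt M := by
  induction M with
  | zero => simp
  | succ M ih =>
    rw [Finset.sum_Icc_succ_top (by omega)]
    have h0 : (0 : ℝ) ≤ M := Nat.cast_nonneg M
    have h1 : 0 < Real.sqrt ((M + 1 : ℕ) : ℝ) := Real.sqrt_pos.2 (by exact_mod_cast Nat.succ_pos M)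
    have h2 : 0 ≤ Real.sqrt (M : ℝ) := Real.sqrt_nonneg _
    have h3 : Real.sqrt (M : ℝ) ^ 2 = M := Real.sq_sqrt h0
    have h4 : Real.sqrt ((M + 1 : ℕ) : ℝ) ^ 2 = M + 1 := by
      rw [Real.sq_sqrt (by positivity)]
      push_cast
      ring
    have h5 : 1 / Real.sqrt ((M + 1 : ℕ) : ℝ) ≤
        2 * Real.sqrt ((M + 1 : ℕ) : ℝ) - 2 * Real.sqrt (M : ℝ) := by
      rw [div_le_iff₀ h1]
      nlinarith [sq_nonneg (Real.sqrt ((M + 1 : ℕ) : ℝ) - Real.sqrt (M : ℝ))]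
    linarith

private theorem F7_log_one {N : ℕ} (h3 : 100 ≤ N) : 1 ≤ Real.log N := by
  have h1 : Real.log (Real.exp 1) ≤ Real.log N := by
    refine Real.log_le_log (Real.exp_pos _) ?_
    have h2 := Real.exp_one_lt_d9
    have h4 : (100 : ℝ) ≤ N := by exact_mod_cast h3
    linarith
  rwa [Real.log_exp] at h1

/-- The size of `ZZ N`. -/
private theorem F7_Z {N : ℕ} (h3 : 100 ≤ N) :
    1 ≤ ZZ N ∧ (ZZ N : ℝ) ≤ (N : ℝ) ^ ((27 : ℝ) / 50) ∧
      (N : ℝ) ^ ((27 : ℝ) / 50) / 2 ≤ ZZ N := by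
  have hN : (100 : ℝ) ≤ N := by exact_mod_cast h3
  have h1 : (1 : ℝ) ≤ (N : ℝ) ^ ((27 : ℝ) / 50) :=
    Real.one_le_rpow (by linarith) (by norm_num)
  have h2 : 1 ≤ ZZ N := by
    unfold ZZ
    rw [Nat.one_le_floor_iff]
    exact h1
  refine ⟨h2, ?_, ?_⟩
  · unfold ZZ
    exact Nat.floor_le (by positivity)
  · have h4 : (N : ℝ) ^ ((27 : ℝ) / 50) < ZZ N + 1 := by
      unfold ZZ
      exact Nat.lt_floor_add_one _
    have h5 : (1 : ℝ) ≤ ZZ N := by exact_mod_cast h2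
    linarith

/-- The number of `q > Z` in `Qp` with `α ≤ k q < β`. -/
private theorem F7_k {C4 : ℝ} (hC4 : 0 < C4)
    (h4 : ∀ (N : ℕ), 3 ≤ N → N.Prime → ∀ (c : ℕ → ℝ) (L : ℝ), QC N c →
      LV N c L → ∀ z : ℕ, 1 ≤ z → z < N →
      |Rho c z - c0 * L * z| ≤ C4 * Real.sqrt z * (N : ℝ) ^ ((1 : ℝ) / 4) * (Real.log N) ^ 2)
    {N : ℕ} (h3 : 100 ≤ N) (hN : N.Prime) {c : ℕ → ℝ} {L : ℝ} (hc : QC N c) (hL : LV N c L)
    {α β : ℕ} (hab : α ≤ β) (hbN : β ≤ N) {k : ℕ} (hk : 1 ≤ k) (S : Finset ℕ)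
    (hS : ∀ q ∈ S, q ∈ Qp N c ∧ ZZ N < q ∧ α ≤ k * q ∧ k * q < β) :
    (S.card : ℝ) ≤ L * (((β : ℝ) - α) * (1 / k) + 1) +
      C4 * Real.sqrt N * (N : ℝ) ^ ((1 : ℝ) / 4) * (Real.log N) ^ 2 * (1 / Real.sqrt k) := by
  have hkr : (0 : ℝ) < k := by exact_mod_cast hk
  have hsk : 0 < Real.sqrt k := Real.sqrt_pos.2 hkr
  have hab' : (α : ℝ) ≤ β := by exact_mod_cast hab
  have hL0 : 0 ≤ L := hL.1
  have hlog := F7_log_one h3
  have hR : 0 ≤ L * (((β : ℝ) - α) * (1 / k) + 1) +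
      C4 * Real.sqrt N * (N : ℝ) ^ ((1 : ℝ) / 4) * (Real.log N) ^ 2 * (1 / Real.sqrt k) := by
    have h5 : 0 ≤ ((β : ℝ) - α) * (1 / k) := mul_nonneg (by linarith) (by positivity)
    have h6 : 0 ≤ L * (((β : ℝ) - α) * (1 / k) + 1) := mul_nonneg hL0 (by linarith)
    have h7 : 0 ≤ C4 * Real.sqrt N * (N : ℝ) ^ ((1 : ℝ) / 4) * (Real.log N) ^ 2 *
      (1 / Real.sqrt k) := by positivity
    linarith
  rcases S.eq_empty_or_nonempty with he | ⟨q0, hq0⟩
  · rw [he, Finset.card_empty, Nat.cast_zero]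
    exact hR
  obtain ⟨hq1, hq2, hq3, hq4⟩ := hS q0 hq0
  have hb1 : 1 ≤ β := by omega
  have hcc := F4c
  set hi := (β - 1) / k with hhi
  set lo := max (ZZ N) ((α - 1) / k) with hlo
  have hmem : ∀ q ∈ S, q ∈ Qp N c ∧ lo < q ∧ q ≤ hi := by
    intro q hq
    obtain ⟨g1, g2, g3, g4⟩ := hS q hq
    refine ⟨g1, ?_, ?_⟩
    · rw [hlo, max_lt_iff]
      refine ⟨g2, ?_⟩
      rw [Nat.div_lt_iff_lt_mul hk]
      have hqp : 0 < k * q := Nat.mul_pos hk (by omega)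
      have : q * k = k * q := Nat.mul_comm q k
      omega
    · rw [hhi, Nat.le_div_iff_mul_le hk]
      have : q * k = k * q := Nat.mul_comm q k
      omega
  have hlohi : lo < hi := lt_of_lt_of_le (hmem q0 hq0).2.1 (hmem q0 hq0).2.2
  have hZ := F7_Z h3
  have hlo1 : 1 ≤ lo := le_trans hZ.1 (le_max_left _ _)
  have hhi1 : hi < N := by
    have : hi ≤ β - 1 := Nat.div_le_self _ _
    omega
  have h5 := F7_count hlohi.le S hmem
  have h6 := h4 N (by omega) hN c L hc hL hi (by omega) hhi1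
  have h7 := h4 N (by omega) hN c L hc hL lo hlo1 (by omega)
  have h8 : Real.sqrt hi ≤ Real.sqrt N * (1 / Real.sqrt k) := by
    rw [mul_one_div, ← Real.sqrt_div' _ hkr.le]
    refine Real.sqrt_le_sqrt ?_
    have h9 : (hi : ℝ) ≤ ((β - 1 : ℕ) : ℝ) / k := Nat.cast_div_le
    refine h9.trans (div_le_div_of_nonneg_right ?_ hkr.le)
    have : β - 1 ≤ N := by omega
    exact_mod_cast this
  have h9 : Real.sqrt lo ≤ Real.sqrt hi := Real.sqrt_le_sqrt (by exact_mod_cast hlohi.le)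
  have hX : 0 ≤ C4 * (N : ℝ) ^ ((1 : ℝ) / 4) * (Real.log N) ^ 2 := by positivity
  have h10 : C4 * Real.sqrt hi * (N : ℝ) ^ ((1 : ℝ) / 4) * (Real.log N) ^ 2 ≤
      C4 * Real.sqrt N * (N : ℝ) ^ ((1 : ℝ) / 4) * (Real.log N) ^ 2 * (1 / Real.sqrt k) := by
    calc C4 * Real.sqrt hi * (N : ℝ) ^ ((1 : ℝ) / 4) * (Real.log N) ^ 2
        = C4 * (N : ℝ) ^ ((1 : ℝ) / 4) * (Real.log N) ^ 2 * Real.sqrt hi := by ring
      _ ≤ C4 * (N : ℝ) ^ ((1 : ℝ) / 4) * (Real.log N) ^ 2 *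
          (Real.sqrt N * (1 / Real.sqrt k)) := mul_le_mul_of_nonneg_left h8 hX
      _ = _ := by ring
  have h11 : C4 * Real.sqrt lo * (N : ℝ) ^ ((1 : ℝ) / 4) * (Real.log N) ^ 2 ≤
      C4 * Real.sqrt hi * (N : ℝ) ^ ((1 : ℝ) / 4) * (Real.log N) ^ 2 := by
    calc C4 * Real.sqrt lo * (N : ℝ) ^ ((1 : ℝ) / 4) * (Real.log N) ^ 2
        = C4 * (N : ℝ) ^ ((1 : ℝ) / 4) * (Real.log N) ^ 2 * Real.sqrt lo := by ring
      _ ≤ C4 * (N : ℝ) ^ ((1 : ℝ) / 4) * (Real.log N) ^ 2 * Real.sqrt hi :=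
          mul_le_mul_of_nonneg_left h9 hX
      _ = _ := by ring
  have h12 : (hi : ℝ) - lo ≤ ((β : ℝ) - α) * (1 / k) + 1 := by
    have h13 : (hi : ℝ) ≤ ((β - 1 : ℕ) : ℝ) / k := Nat.cast_div_le
    have h14 : (((α - 1) / k : ℕ) : ℝ) ≤ lo := by exact_mod_cast le_max_right (ZZ N) ((α - 1) / k)
    have h15 : ((α - 1 : ℕ) : ℝ) / k ≤ (((α - 1) / k : ℕ) : ℝ) + 1 := by
      rw [div_le_iff₀ hkr]
      have h16 : α - 1 ≤ ((α - 1) / k + 1) * k := by
        have h17 := Nat.div_add_mod (α - 1) k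
        have h18 := Nat.mod_lt (α - 1) hk
        have h19 : ((α - 1) / k + 1) * k = k * ((α - 1) / k) + k := by ring
        omega
      exact_mod_cast h16
    have h20 : ((β - 1 : ℕ) : ℝ) / k - ((α - 1 : ℕ) : ℝ) / k ≤ ((β : ℝ) - α) * (1 / k) := by
      rw [mul_one_div, ← sub_div]
      refine div_le_div_of_nonneg_right ?_ hkr.le
      have h21 : β - 1 + α ≤ β + (α - 1) := by omega
      have h22 : ((β - 1 : ℕ) : ℝ) + α ≤ β + ((α - 1 : ℕ) : ℝ) := by exact_mod_cast h21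
      linarith
    linarith
  have h13 : c0 * L * hi - c0 * L * lo ≤ 2 * (L * (((β : ℝ) - α) * (1 / k) + 1)) := by
    have h14 : 0 ≤ (hi : ℝ) - lo := by
      have : (lo : ℝ) ≤ hi := by exact_mod_cast hlohi.le
      linarith
    calc c0 * L * hi - c0 * L * lo = c0 * (L * ((hi : ℝ) - lo)) := by ring
      _ ≤ 2 * (L * ((hi : ℝ) - lo)) :=
          mul_le_mul_of_nonneg_right hcc.2 (mul_nonneg hL0 h14)
      _ ≤ 2 * (L * (((β : ℝ) - α) * (1 / k) + 1)) := by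
          refine mul_le_mul_of_nonneg_left ?_ (by norm_num)
          exact mul_le_mul_of_nonneg_left h12 hL0
  have h14 := (abs_le.1 h6).2
  have h15 := (abs_le.1 h7).1
  linarith

theorem F7 : ∃ C : ℝ, ∃ N0 : ℕ, 0 < C ∧ ∀ N : ℕ, N0 ≤ N → N.Prime → ∀ (c : ℕ → ℝ) (L : ℝ),
    QC N c → LV N c L → (N : ℝ) ^ (-(1 / 90) : ℝ) ≤ L → (∀ q ∈ Qp N c, 100 ≤ q) →
    sig N c ≤ 1 / 100 → ∀ α β : ℕ, α ≤ β → β ≤ N →
    (((DD N c).filter (fun n => α ≤ n ∧ n < β)).card : ℝ) ≤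
      C * Real.log N * (((β : ℝ) - α) / N) * (DD N c).card +
        C * (N : ℝ) ^ ((49 : ℝ) / 50) * (Real.log N) ^ 3 := by
  classical
  obtain ⟨C4, hC4, h4⟩ := F4
  obtain ⟨N1, h5z⟩ := F5z
  refine ⟨225 + 3 * C4, max 100 N1, by positivity, ?_⟩
  intro N hN0 hN c L hc hL hLN hq hs α β hab hbN
  have h100 : 100 ≤ N := le_trans (le_max_left _ _) hN0
  have hN1 : N1 ≤ N := le_trans (le_max_right _ _) hN0
  have hb := F5b N hN h100 c hc hq hs
  have hz := (h5z N hN1 hN c L hc hL hLN hq hs).1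
  have hlog := F7_log_one h100
  have hLle := F2_L_le (by omega : 3 ≤ N) hc hL
  obtain ⟨hZ1, hZ2, hZ3⟩ := F7_Z h100
  have hNr : (100 : ℝ) ≤ N := by exact_mod_cast h100
  have hN0' : (0 : ℝ) < N := by linarith
  have hab' : (α : ℝ) ≤ β := by exact_mod_cast hab
  have hL0 : 0 ≤ L := hL.1
  set Z := ZZ N with hZdef
  set M := N / Z with hM
  set K := Real.log N with hK
  set D : ℝ := ((DD N c).card : ℝ) with hD
  -- the two parts
  set S : ℕ → Finset ℕ := fun k =>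
    (Qp N c).filter (fun q => Z < q ∧ α ≤ k * q ∧ k * q < β) with hSdef
  have hcover : (DD N c).filter (fun n => α ≤ n ∧ n < β) ⊆
      ((Qp N c).filter (fun q => q ≤ Z)).biUnion
        (fun q => (Finset.Ico α β).filter (fun n => q ∣ n)) ∪
      (Finset.Icc 1 M).biUnion (fun k => (S k).image (fun q => k * q)) := by
    intro n hn
    rw [Finset.mem_filter] at hn
    obtain ⟨h1, h2, h3⟩ := hn
    obtain ⟨q, hq1, hq2⟩ := F7_factor hN hc h1
    obtain ⟨h6, h7, h8⟩ := F7_mem_DD h1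
    rw [Finset.mem_union, Finset.mem_biUnion, Finset.mem_biUnion]
    rcases le_or_gt q Z with h | h
    · left
      refine ⟨q, ?_, ?_⟩
      · rw [Finset.mem_filter]
        exact ⟨hq1, h⟩
      · rw [Finset.mem_filter, Finset.mem_Ico]
        exact ⟨⟨h2, h3⟩, hq2⟩
    · right
      obtain ⟨k, rfl⟩ := hq2
      have hk : 0 < k := by
        rcases Nat.eq_zero_or_pos k with h9 | h9
        · rw [h9, mul_zero] at h7
          exact absurd h7 (lt_irrefl 0)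
        · exact h9
      refine ⟨k, ?_, ?_⟩
      · rw [Finset.mem_Icc]
        refine ⟨hk, ?_⟩
        rw [hM, Nat.le_div_iff_mul_le (by omega)]
        have h10 : k * Z ≤ k * q := Nat.mul_le_mul_left k h.le
        have h11 : k * q = q * k := Nat.mul_comm k q
        omega
      · rw [Finset.mem_image]
        refine ⟨q, ?_, Nat.mul_comm k q⟩
        rw [hSdef]
        dsimp only
        rw [Finset.mem_filter]
        have h11 : k * q = q * k := Nat.mul_comm k q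
        exact ⟨hq1, h, by omega, by omega⟩
  have hA : ((((Qp N c).filter (fun q => q ≤ Z)).biUnion
      (fun q => (Finset.Ico α β).filter (fun n => q ∣ n))).card : ℝ) ≤
      ((β : ℝ) - α) * sig N c + Z := by
    have h1 : ((((Qp N c).filter (fun q => q ≤ Z)).biUnion
      (fun q => (Finset.Ico α β).filter (fun n => q ∣ n))).card : ℝ) ≤
      ∑ q ∈ (Qp N c).filter (fun q => q ≤ Z),
        (((Finset.Ico α β).filter (fun n => q ∣ n)).card : ℝ) := by
      exact_mod_cast Finset.card_biUnion_le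
    have h2 : ∑ q ∈ (Qp N c).filter (fun q => q ≤ Z),
        (((Finset.Ico α β).filter (fun n => q ∣ n)).card : ℝ) ≤
        ∑ q ∈ (Qp N c).filter (fun q => q ≤ Z), (((β : ℝ) - α) * (1 / q) + 1) := by
      refine Finset.sum_le_sum fun q hq' => ?_
      rw [Finset.mem_filter, F7_mem_Qp] at hq'
      refine (F7_mult α β q hq'.1.2.1.pos hab).trans (le_of_eq ?_)
      ring
    rw [Finset.sum_add_distrib, ← Finset.mul_sum, Finset.sum_const, nsmul_eq_mul, mul_one] at h2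
    have h3 : ∑ q ∈ (Qp N c).filter (fun q => q ≤ Z), 1 / (q : ℝ) ≤ sig N c := by
      unfold sig
      exact Finset.sum_le_sum_of_subset_of_nonneg (Finset.filter_subset _ _)
        fun i _ _ => by positivity
    have h6 : (((Qp N c).filter (fun q => q ≤ Z)).card : ℝ) ≤ Z := by
      have h7 : (Qp N c).filter (fun q => q ≤ Z) ⊆ Finset.Icc 1 Z := by
        intro q hq'
        rw [Finset.mem_filter, F7_mem_Qp] at hq'
        rw [Finset.mem_Icc]
        exact ⟨hq'.1.2.1.pos, hq'.2⟩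
      have h8 := Finset.card_le_card h7
      rw [Nat.card_Icc] at h8
      have h9 : ((Qp N c).filter (fun q => q ≤ Z)).card ≤ Z := by omega
      exact_mod_cast h9
    have h10 : ((β : ℝ) - α) * ∑ q ∈ (Qp N c).filter (fun q => q ≤ Z), 1 / (q : ℝ) ≤
        ((β : ℝ) - α) * sig N c := mul_le_mul_of_nonneg_left h3 (by linarith)
    linarith
  have hB : (((Finset.Icc 1 M).biUnion (fun k => (S k).image (fun q => k * q))).card : ℝ) ≤
      L * (((β : ℝ) - α) * (2 * K)) + L * M +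
        C4 * Real.sqrt N * (N : ℝ) ^ ((1 : ℝ) / 4) * K ^ 2 * (2 * Real.sqrt M) := by
    have h1 : (((Finset.Icc 1 M).biUnion (fun k => (S k).image (fun q => k * q))).card : ℝ) ≤
        ∑ k ∈ Finset.Icc 1 M, ((S k).card : ℝ) := by
      have h2 : ((Finset.Icc 1 M).biUnion (fun k => (S k).image (fun q => k * q))).card ≤
          ∑ k ∈ Finset.Icc 1 M, (S k).card :=
        Finset.card_biUnion_le.trans (Finset.sum_le_sum fun k _ => Finset.card_image_le)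
      exact_mod_cast h2
    have h2 : ∑ k ∈ Finset.Icc 1 M, ((S k).card : ℝ) ≤
        ∑ k ∈ Finset.Icc 1 M, (L * (((β : ℝ) - α) * (1 / k) + 1) +
          C4 * Real.sqrt N * (N : ℝ) ^ ((1 : ℝ) / 4) * K ^ 2 * (1 / Real.sqrt k)) := by
      refine Finset.sum_le_sum fun k hk => ?_
      rw [Finset.mem_Icc] at hk
      refine F7_k hC4 h4 h100 hN hc hL hab hbN hk.1 (S k) ?_
      intro q hq'
      rw [hSdef] at hq'
      dsimp only at hq'
      rw [Finset.mem_filter] at hq'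
      exact hq'
    rw [Finset.sum_add_distrib, ← Finset.mul_sum, ← Finset.mul_sum, Finset.sum_add_distrib,
      ← Finset.mul_sum, Finset.sum_const, nsmul_eq_mul, mul_one, Nat.card_Icc,
      Nat.add_sub_cancel] at h2
    have h3 := F7_harm M
    have h6 : Real.log M ≤ K := by
      rcases Nat.eq_zero_or_pos M with h | h
      · rw [h, Nat.cast_zero, Real.log_zero]
        linarith
      · rw [hK]
        refine Real.log_le_log (by exact_mod_cast h) ?_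
        exact_mod_cast Nat.div_le_self N Z
    have h7 : L * (((β : ℝ) - α) * ∑ k ∈ Finset.Icc 1 M, 1 / (k : ℝ) + M) ≤
        L * (((β : ℝ) - α) * (2 * K) + M) := by
      refine mul_le_mul_of_nonneg_left ?_ hL0
      have h8 : ((β : ℝ) - α) * ∑ k ∈ Finset.Icc 1 M, 1 / (k : ℝ) ≤
          ((β : ℝ) - α) * (2 * K) := mul_le_mul_of_nonneg_left (by linarith) (by linarith)
      linarith
    have h9 : C4 * Real.sqrt N * (N : ℝ) ^ ((1 : ℝ) / 4) * K ^ 2 *
        ∑ k ∈ Finset.Icc 1 M, 1 / Real.sqrt k ≤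
        C4 * Real.sqrt N * (N : ℝ) ^ ((1 : ℝ) / 4) * K ^ 2 * (2 * Real.sqrt M) :=
      mul_le_mul_of_nonneg_left (F7_sqrt M) (by positivity)
    linarith
  have hcard : (((DD N c).filter (fun n => α ≤ n ∧ n < β)).card : ℝ) ≤
      (((β : ℝ) - α) * sig N c + Z) + (L * (((β : ℝ) - α) * (2 * K)) + L * M +
        C4 * Real.sqrt N * (N : ℝ) ^ ((1 : ℝ) / 4) * K ^ 2 * (2 * Real.sqrt M)) := by
    have h1 := (Finset.card_le_card hcover).trans (Finset.card_union_le _ _)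
    have h2 : (((DD N c).filter (fun n => α ≤ n ∧ n < β)).card : ℝ) ≤
        ((((Qp N c).filter (fun q => q ≤ Z)).biUnion
          (fun q => (Finset.Ico α β).filter (fun n => q ∣ n))).card : ℝ) +
        (((Finset.Icc 1 M).biUnion (fun k => (S k).image (fun q => k * q))).card : ℝ) := by
      exact_mod_cast h1
    linarith
  refine hcard.trans ?_
  -- sizes
  have hMle : (M : ℝ) ≤ 2 * (N : ℝ) ^ ((23 : ℝ) / 50) := by
    have h1 : (M : ℝ) ≤ (N : ℝ) / Z := by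
      rw [hM]
      exact Nat.cast_div_le
    have hZr : (0 : ℝ) < Z := by exact_mod_cast hZ1
    refine h1.trans ?_
    rw [div_le_iff₀ hZr]
    have h2 : (N : ℝ) = (N : ℝ) ^ ((23 : ℝ) / 50) * (N : ℝ) ^ ((27 : ℝ) / 50) := by
      rw [← Real.rpow_add hN0']
      norm_num
    have h3 : 0 ≤ (N : ℝ) ^ ((23 : ℝ) / 50) := by positivity
    calc (N : ℝ) = (N : ℝ) ^ ((23 : ℝ) / 50) * (N : ℝ) ^ ((27 : ℝ) / 50) := h2
      _ = 2 * (N : ℝ) ^ ((23 : ℝ) / 50) * ((N : ℝ) ^ ((27 : ℝ) / 50) / 2) := by ring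
      _ ≤ 2 * (N : ℝ) ^ ((23 : ℝ) / 50) * Z :=
          mul_le_mul_of_nonneg_left hZ3 (by positivity)
  have hpow : ∀ a : ℝ, a ≤ 49 / 50 → (N : ℝ) ^ a ≤ (N : ℝ) ^ ((49 : ℝ) / 50) := fun a ha =>
    Real.rpow_le_rpow_of_exponent_le (by linarith) ha
  have hP : 0 < (N : ℝ) ^ ((49 : ℝ) / 50) := by positivity
  have hK3 : 1 ≤ K ^ 3 := one_le_pow₀ hlog
  have hK13 : K ≤ K ^ 3 := by
    calc K = K ^ 1 := (pow_one K).symm
      _ ≤ K ^ 3 := pow_le_pow_right₀ hlog (by norm_num)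
  have hK23 : K ^ 2 ≤ K ^ 3 := pow_le_pow_right₀ hlog (by norm_num)
  have e1 : (Z : ℝ) ≤ (N : ℝ) ^ ((49 : ℝ) / 50) * K ^ 3 := by
    have h1 : (Z : ℝ) ≤ (N : ℝ) ^ ((49 : ℝ) / 50) := hZ2.trans (hpow _ (by norm_num))
    calc (Z : ℝ) ≤ (N : ℝ) ^ ((49 : ℝ) / 50) * 1 := by rw [mul_one]; exact h1
      _ ≤ (N : ℝ) ^ ((49 : ℝ) / 50) * K ^ 3 := mul_le_mul_of_nonneg_left hK3 hP.le
  have e2 : L * M ≤ 20 * ((N : ℝ) ^ ((49 : ℝ) / 50) * K ^ 3) := by
    have h1 : (N : ℝ) ^ ((23 : ℝ) / 50) ≤ (N : ℝ) ^ ((49 : ℝ) / 50) := hpow _ (by norm_num)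
    calc L * M ≤ (10 * K) * (2 * (N : ℝ) ^ ((23 : ℝ) / 50)) :=
          mul_le_mul hLle hMle (Nat.cast_nonneg M) (by linarith)
      _ = 20 * ((N : ℝ) ^ ((23 : ℝ) / 50) * K) := by ring
      _ ≤ 20 * ((N : ℝ) ^ ((49 : ℝ) / 50) * K ^ 3) := by
          refine mul_le_mul_of_nonneg_left ?_ (by norm_num)
          exact mul_le_mul h1 hK13 (by linarith) hP.le
  have e3 : C4 * Real.sqrt N * (N : ℝ) ^ ((1 : ℝ) / 4) * K ^ 2 * (2 * Real.sqrt M) ≤
      3 * C4 * ((N : ℝ) ^ ((49 : ℝ) / 50) * K ^ 3) := by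
    have h1 : Real.sqrt M ≤ 3 / 2 * (N : ℝ) ^ ((23 : ℝ) / 100) := by
      rw [Real.sqrt_le_left (by positivity)]
      have h2 : ((N : ℝ) ^ ((23 : ℝ) / 100)) ^ 2 = (N : ℝ) ^ ((23 : ℝ) / 50) := by
        rw [← Real.rpow_natCast, ← Real.rpow_mul hN0'.le]
        norm_num
      rw [mul_pow, h2]
      have h3 : 0 ≤ (N : ℝ) ^ ((23 : ℝ) / 50) := by positivity
      linarith
    have h2 : Real.sqrt N = (N : ℝ) ^ ((1 : ℝ) / 2) := Real.sqrt_eq_rpow _
    have h3 : (N : ℝ) ^ ((1 : ℝ) / 2) * (N : ℝ) ^ ((1 : ℝ) / 4) * (N : ℝ) ^ ((23 : ℝ) / 100) =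
        (N : ℝ) ^ ((49 : ℝ) / 50) := by
      rw [← Real.rpow_add hN0', ← Real.rpow_add hN0']
      norm_num
    calc C4 * Real.sqrt N * (N : ℝ) ^ ((1 : ℝ) / 4) * K ^ 2 * (2 * Real.sqrt M)
        ≤ C4 * Real.sqrt N * (N : ℝ) ^ ((1 : ℝ) / 4) * K ^ 2 *
          (2 * (3 / 2 * (N : ℝ) ^ ((23 : ℝ) / 100))) := by
          refine mul_le_mul_of_nonneg_left ?_ (by positivity)
          linarith
      _ = 3 * C4 * (((N : ℝ) ^ ((1 : ℝ) / 2) * (N : ℝ) ^ ((1 : ℝ) / 4) *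
          (N : ℝ) ^ ((23 : ℝ) / 100)) * K ^ 2) := by rw [h2]; ring
      _ = 3 * C4 * ((N : ℝ) ^ ((49 : ℝ) / 50) * K ^ 2) := by rw [h3]
      _ ≤ 3 * C4 * ((N : ℝ) ^ ((49 : ℝ) / 50) * K ^ 3) := by
          refine mul_le_mul_of_nonneg_left ?_ (by positivity)
          exact mul_le_mul_of_nonneg_left hK23 hP.le
  have hD0 : 0 ≤ D := Nat.cast_nonneg _
  have hR : 0 ≤ ((β : ℝ) - α) / N := div_nonneg (by linarith) hN0'.le
  have e4 : ((β : ℝ) - α) * sig N c ≤ 4 * (K * (((β : ℝ) - α) / N) * D) := by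
    have h1 : sig N c ≤ 4 * D / N := by
      rw [le_div_iff₀ hN0']
      linarith
    calc ((β : ℝ) - α) * sig N c ≤ ((β : ℝ) - α) * (4 * D / N) :=
          mul_le_mul_of_nonneg_left h1 (by linarith)
      _ = 1 * (4 * (((β : ℝ) - α) / N * D)) := by ring
      _ ≤ K * (4 * (((β : ℝ) - α) / N * D)) :=
          mul_le_mul_of_nonneg_right hlog (mul_nonneg (by norm_num) (mul_nonneg hR hD0))
      _ = 4 * (K * (((β : ℝ) - α) / N) * D) := by ring
  have e5 : L * (((β : ℝ) - α) * (2 * K)) ≤ 200 * (K * (((β : ℝ) - α) / N) * D) := by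
    have h1 : L ≤ 100 * D / N := by
      rw [le_div_iff₀ hN0']
      linarith
    calc L * (((β : ℝ) - α) * (2 * K)) ≤ 100 * D / N * (((β : ℝ) - α) * (2 * K)) :=
          mul_le_mul_of_nonneg_right h1 (mul_nonneg (by linarith) (by linarith))
      _ = 200 * (K * (((β : ℝ) - α) / N) * D) := by ring
  have hX : 0 ≤ K * (((β : ℝ) - α) / N) * D := mul_nonneg (mul_nonneg (by linarith) hR) hD0
  have hY : 0 ≤ (N : ℝ) ^ ((49 : ℝ) / 50) * K ^ 3 := by positivity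
  have hCX : 0 ≤ C4 * (K * (((β : ℝ) - α) / N) * D) := mul_nonneg hC4.le hX
  have hfin : (225 + 3 * C4) * K * (((β : ℝ) - α) / N) * D +
      (225 + 3 * C4) * (N : ℝ) ^ ((49 : ℝ) / 50) * K ^ 3 =
      225 * (K * (((β : ℝ) - α) / N) * D) + 3 * (C4 * (K * (((β : ℝ) - α) / N) * D)) +
      225 * ((N : ℝ) ^ ((49 : ℝ) / 50) * K ^ 3) +
      3 * C4 * ((N : ℝ) ^ ((49 : ℝ) / 50) * K ^ 3) := by ring
  rw [hfin]
  linarith

end Pool.Agent.Lib.MP_7b7e48_nt.LG
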