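import Pool.Agent.Lib.MP_7b7e48_nt.LG.Defs
import Pool.Agent.Lib.MP_7b7e48_nt.LG.CharPar

/-!
# Module FC (60 minutes): Fourier analysis on the characters modulo a prime

Mathlib: `DirichletCharacter.sum_char_inv_mul_char_eq`, `MulChar.sum_eq_zero_of_ne_one` (row
orthogonality: `∑_x χ x = 0` for `χ ≠ 1`; `∑_x (1 : χ) x = N - 1`), `χ⁻¹ x = conj (χ x)` for complex
valued characters (`MulChar.star_apply` or `DirichletCharacter` analogue), `χ 0 = 0` (`N` prime, `N ≥ 2`).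
`FC1`: column orthogonality. `FC2`: expand the square, row orthogonality applied to `χ * ψ⁻¹`.
`FC3`: expand the square, column orthogonality (`a 0 = 0`). `FC4`: `FC1` for `F(k x) - s F(x)`, whose
coefficient is `bc F χ (χ k - s)`, then `FC2`. `FC5`: `FC1` and `FC2`.
-/

open Finset
open Pool.Agent.Lib.MP_45349e_nt.LS (lam)

namespace Pool.Agent.Lib.MP_7b7e48_nt.LG

theorem bc_eq_cf {N : ℕ} [NeZero N] (F : ZMod N → ℝ) (χ : DirichletCharacter ℂ N) :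
    bc F χ = cf (fun x => (F x : ℂ)) χ := by
  unfold bc cf
  rw [one_div]

theorem FC1 (N : ℕ) [NeZero N] (hN : N.Prime) (F : ZMod N → ℝ) (h0 : F 0 = 0) (x : ZMod N) :
    (F x : ℂ) = ∑ χ : DirichletCharacter ℂ N, bc F χ * χ x := by
  haveI : Fact N.Prime := ⟨hN⟩
  have h := cp_inversion (fun x => (F x : ℂ)) (by simp [h0]) x
  rw [h]
  exact Finset.sum_congr rfl fun χ _ => by rw [bc_eq_cf]

theorem FC2 (N : ℕ) [NeZero N] (hN : N.Prime) (β : DirichletCharacter ℂ N → ℂ) :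
    ∑ x : ZMod N, ‖∑ χ : DirichletCharacter ℂ N, β χ * χ x‖ ^ 2 =
      ((N : ℝ) - 1) * ∑ χ : DirichletCharacter ℂ N, ‖β χ‖ ^ 2 := by
  haveI : Fact N.Prime := ⟨hN⟩
  exact cp_parseval Finset.univ β

theorem FC3 (N : ℕ) [NeZero N] (hN : N.Prime) (a : ZMod N → ℂ) (h0 : a 0 = 0) :
    ∑ χ : DirichletCharacter ℂ N, ‖∑ x : ZMod N, a x * χ x‖ ^ 2 =
      ((N : ℝ) - 1) * ∑ x : ZMod N, ‖a x‖ ^ 2 := by
  haveI : Fact N.Prime := ⟨hN⟩
  have hN1 : (0 : ℝ) < (N : ℝ) - 1 := by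
    have : (1 : ℝ) < N := by exact_mod_cast hN.one_lt
    linarith
  have h := cp_parseval_F (fun x => (starRingEnd ℂ) (a x)) (by simp [h0])
  have h1 : ∀ x : ZMod N, ‖(starRingEnd ℂ) (a x)‖ ^ 2 = ‖a x‖ ^ 2 := fun x => by
    rw [RCLike.norm_conj]
  simp_rw [h1] at h
  rw [h]
  have h2 : ∀ χ : DirichletCharacter ℂ N, ‖∑ x : ZMod N, a x * χ x‖ ^ 2 =
      ((N : ℝ) - 1) * (((N : ℝ) - 1) * ‖cf (fun x => (starRingEnd ℂ) (a x)) χ‖ ^ 2) := by
    intro χ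
    have h3 : (starRingEnd ℂ) (∑ x : ZMod N, a x * χ x) =
        ((N : ℂ) - 1) * cf (fun x => (starRingEnd ℂ) (a x)) χ := by
      unfold cf
      rw [← mul_assoc, mul_inv_cancel₀, one_mul, map_sum]
      · exact Finset.sum_congr rfl fun x _ => by rw [map_mul]
      · have : ((N : ℂ) - 1) = (((N : ℝ) - 1 : ℝ) : ℂ) := by push_cast; ring
        rw [this]
        exact_mod_cast hN1.ne'
    have h4 : ‖∑ x : ZMod N, a x * χ x‖ = ((N : ℝ) - 1) * ‖cf (fun x => (starRingEnd ℂ) (a x)) χ‖ := by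
      rw [← RCLike.norm_conj, h3, norm_mul]
      have : ((N : ℂ) - 1) = (((N : ℝ) - 1 : ℝ) : ℂ) := by push_cast; ring
      rw [this, Complex.norm_real, Real.norm_of_nonneg hN1.le]
    rw [h4]
    ring
  simp_rw [h2]
  rw [← Finset.mul_sum, ← Finset.mul_sum]

theorem FC4 (N : ℕ) [NeZero N] (hN : N.Prime) (F : ZMod N → ℝ) (h0 : F 0 = 0) (s : ℝ)
    (k : ZMod N) (hk : k ≠ 0) :
    ∑ x : ZMod N, (F (k * x) - s * F x) ^ 2 =
      ((N : ℝ) - 1) * ∑ χ : DirichletCharacter ℂ N, ‖bc F χ‖ ^ 2 * ‖χ k - (s : ℂ)‖ ^ 2 := by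
  haveI : Fact N.Prime := ⟨hN⟩
  have h := cp_mult (fun x => (F x : ℂ)) (by simp [h0]) (s : ℂ) k
  have h1 : ∀ x : ZMod N, ‖(F (k * x) : ℂ) - (s : ℂ) * (F x : ℂ)‖ ^ 2 =
      (F (k * x) - s * F x) ^ 2 := by
    intro x
    have h2 : (F (k * x) : ℂ) - (s : ℂ) * (F x : ℂ) = ((F (k * x) - s * F x : ℝ) : ℂ) := by
      push_cast
      ring
    rw [h2, Complex.norm_real, Real.norm_eq_abs, sq_abs]
  simp_rw [h1] at h
  rw [h]
  simp_rw [bc_eq_cf]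

theorem FC5 (N : ℕ) [NeZero N] (hN : N.Prime) (F : ZMod N → ℝ) (h0 : F 0 = 0) :
    nsq F = ((N : ℝ) - 1) * ∑ χ : DirichletCharacter ℂ N, ‖bc F χ‖ ^ 2 := by
  haveI : Fact N.Prime := ⟨hN⟩
  have h := cp_parseval_F (fun x => (F x : ℂ)) (by simp [h0])
  simp_rw [bc_eq_cf]
  rw [← h]
  unfold nsq
  refine Finset.sum_congr rfl fun x _ => ?_
  rw [Complex.norm_real, Real.norm_eq_abs, sq_abs]

end Pool.Agent.Lib.MP_7b7e48_nt.LG
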