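import Pool.Agent.Lib.MP_7b7e48_nt.LG.Defs
import Pool.Agent.Lib.MP_7b7e48_nt.LG.E0

/-!
# Both kinds of reflection

`RE M η` is the set of the `0 < n < M` with `lam (M - n) ≠ η * lam n`, and `ES2 M s t` the set of the
`0 < n < M` with `lam n = s`, `lam (M - n) = t`. For `η = - s t` the number of elements of `RE M η` is at most
twice the number of elements of `ES2 M s t`, plus the absolute value of the sum of the Liouville function.
-/

open Finset
open Pool.Agent.Lib.MP_45349e_nt.LS (lam)

namespace Pool.Agent.Lib.MP_7b7e48_nt.LG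

open Classical in
/-- the `0 < n < M` with `lam (M - n) ≠ η * lam n` -/
noncomputable def RE (M : ℕ) (η : ℝ) : Finset ℕ :=
  (Finset.range M).filter fun n => 0 < n ∧ lam (M - n) ≠ η * lam n

open Classical in
/-- the `0 < n < M` with `lam n = s` and `lam (M - n) = t` -/
noncomputable def ES2 (M : ℕ) (s t : ℝ) : Finset ℕ :=
  (Finset.range M).filter fun n => 0 < n ∧ lam n = s ∧ lam (M - n) = t

theorem RE_mem (M : ℕ) (η : ℝ) (n : ℕ) :
    n ∈ RE M η ↔ n < M ∧ 0 < n ∧ lam (M - n) ≠ η * lam n := by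
  unfold RE
  rw [Finset.mem_filter, Finset.mem_range]

theorem ES2_mem (M : ℕ) (s t : ℝ) (n : ℕ) :
    n ∈ ES2 M s t ↔ n < M ∧ 0 < n ∧ lam n = s ∧ lam (M - n) = t := by
  unfold ES2
  rw [Finset.mem_filter, Finset.mem_range]

theorem RE_sym (M : ℕ) (η : ℝ) (hη : η = 1 ∨ η = -1) (n : ℕ) (hn : n ∈ RE M η) :
    M - n ∈ RE M η := by
  rw [RE_mem] at hn ⊢
  obtain ⟨h1, h2, h3⟩ := hn
  refine ⟨by omega, by omega, ?_⟩
  rw [show M - (M - n) = n by omega]
  intro h4
  apply h3
  rw [h4]
  rcases hη with h | h <;> rw [h] <;> ring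

theorem RE_EE (M : ℕ) : RE M (-1) = EE M := by
  ext n
  rw [RE_mem]
  unfold EE
  rw [Finset.mem_filter, Finset.mem_range]
  have h1 : lam n = 1 ∨ lam n = -1 := neg_one_pow_eq_or ℝ _
  have h2 : lam (M - n) = 1 ∨ lam (M - n) = -1 := neg_one_pow_eq_or ℝ _
  refine and_congr_right fun _ => and_congr_right fun _ => ?_
  rcases h1 with h1 | h1 <;> rcases h2 with h2 | h2 <;> rw [h1, h2] <;> norm_num

theorem ES2_ES (M : ℕ) (s : ℝ) : ES2 M s s = ES M s := by
  unfold ES2 ES
  rfl

theorem RE_card (M : ℕ) (s t : ℝ) (hs : s = 1 ∨ s = -1) (ht : t = 1 ∨ t = -1) :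
    ((RE M (-(s * t))).card : ℝ) ≤
      2 * (ES2 M s t).card + |∑ n ∈ Finset.Icc 1 (M - 1), lam n| := by
  classical
  by_cases hst : t = s
  · subst hst
    have h1 : -(t * t) = -1 := by
      rcases ht with h | h <;> rw [h] <;> norm_num
    rw [h1, RE_EE, ES2_ES]
    exact E0a M t ht
  · have hts : t = -s := by
      rcases hs with h | h <;> rcases ht with h' | h'
      · exact absurd (h'.trans h.symm) hst
      · rw [h, h']
      · rw [h, h', neg_neg]
      · exact absurd (h'.trans h.symm) hst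
    have h1 : -(s * t) = 1 := by
      rw [hts]
      rcases hs with h | h <;> rw [h] <;> norm_num
    rw [h1]
    -- the two classes
    have hsub : RE M 1 ⊆ ES2 M s t ∪ (ES2 M s t).image fun n => M - n := by
      intro n hn
      rw [RE_mem] at hn
      obtain ⟨h2, h3, h4⟩ := hn
      rw [one_mul] at h4
      have h5 : lam n = 1 ∨ lam n = -1 := neg_one_pow_eq_or ℝ _
      have h6 : lam (M - n) = 1 ∨ lam (M - n) = -1 := neg_one_pow_eq_or ℝ _
      have h10 : lam (M - n) = -lam n := by
        rcases h5 with h | h <;> rcases h6 with h' | h'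
        · exact absurd (h'.trans h.symm) h4
        · rw [h, h']
        · rw [h, h', neg_neg]
        · exact absurd (h'.trans h.symm) h4
      rw [Finset.mem_union, Finset.mem_image]
      by_cases h7 : lam n = s
      · left
        rw [ES2_mem]
        exact ⟨h2, h3, h7, by rw [h10, h7, hts]⟩
      · right
        have h11 : lam n = -s := by
          rcases hs with h | h <;> rcases h5 with h9 | h9
          · exact absurd (h9.trans h.symm) h7
          · rw [h9, h]
          · rw [h9, h, neg_neg]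
          · exact absurd (h9.trans h.symm) h7
        refine ⟨M - n, ?_, by omega⟩
        rw [ES2_mem]
        rw [show M - (M - n) = n by omega]
        refine ⟨by omega, by omega, ?_, ?_⟩
        · rw [h10, h11, neg_neg]
        · rw [hts, h11]
    have h2 : (RE M 1).card ≤ 2 * (ES2 M s t).card := by
      refine (Finset.card_le_card hsub).trans ((Finset.card_union_le _ _).trans ?_)
      have := Finset.card_image_le (s := ES2 M s t) (f := fun n => M - n)
      omega
    have h3 : ((RE M 1).card : ℝ) ≤ 2 * (ES2 M s t).card := by exact_mod_cast h2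
    have h4 := abs_nonneg (∑ n ∈ Finset.Icc 1 (M - 1), lam n)
    linarith

theorem RE_cardb (A : ℕ) : ∃ C : ℝ, 0 < C ∧ ∀ M : ℕ, 3 ≤ M → ∀ s t : ℝ, (s = 1 ∨ s = -1) →
    (t = 1 ∨ t = -1) →
    ((RE M (-(s * t))).card : ℝ) ≤ 2 * (ES2 M s t).card + C * M / (Real.log M) ^ A := by
  obtain ⟨C, hC, hb⟩ := LA0 A
  refine ⟨C * 2 ^ A, by positivity, fun M hM s t hs ht => ?_⟩
  refine (RE_card M s t hs ht).trans ?_
  have h1 := hb (M - 1) (by omega)
  have hM3 : (3 : ℝ) ≤ M := by exact_mod_cast hM
  have hcast : ((M - 1 : ℕ) : ℝ) = (M : ℝ) - 1 := by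
    rw [Nat.cast_sub (by omega)]
    norm_num
  rw [hcast] at h1
  have hlog0 : 0 < Real.log M := Real.log_pos (by linarith)
  have hlog : Real.log M / 2 ≤ Real.log ((M : ℝ) - 1) := by
    have h2 : Real.log M ≤ Real.log (((M : ℝ) - 1) ^ 2) := by
      apply Real.log_le_log (by linarith)
      nlinarith
    rw [Real.log_pow] at h2
    push_cast at h2
    linarith
  have h3 : C * ((M : ℝ) - 1) / Real.log ((M : ℝ) - 1) ^ A ≤ C * M / (Real.log M / 2) ^ A := by
    apply div_le_div₀
    · positivity
    · nlinarith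
    · positivity
    · exact pow_le_pow_left₀ (by positivity) hlog A
  have h4 : C * M / (Real.log M / 2) ^ A = C * 2 ^ A * M / Real.log M ^ A := by
    rw [div_pow]
    field_simp
  linarith

end Pool.Agent.Lib.MP_7b7e48_nt.LG
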