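import Pool.Agent.Lib.MP_7b7e48_nt.LG.Defs
import Pool.Agent.Lib.MP_7b7e48_nt.LG.EXB
import Pool.Agent.Lib.MP_7b7e48_nt.LG.E0
import Pool.Agent.Lib.MP_7b7e48_nt.LG.Ref
import Pool.Agent.Lib.MP_45349e_nt.LS.LamB

/-!
# Module G1 (60 minutes): the Liouville function changes sign under multiplication by small primes

PROOF. `F = fl N`, `s = η = -1`, `σ = lam` (real valued, multiplicative `LS.lam_mul`), `E` = the `x` with
`x.val ∈ EE N`. `F (-x) = -F x` off `E`: `(-x).val = N - x.val`. `F (j n) = lam j * F n` for `j n < N`. `EXB` with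
`r = 24000 + B + 3`: the set of all `x` with `F (p x) ≠ -F x` has at most
`C K^r (#EE + 1) + |Js| (N/Ga N + 1)` elements (at most `N/G + 1` values `x.val` in a cell), and the sum in
question is at most `4` times this number. `#EE ≤ N/K^A` with `A = r + B + 2`; `(PP N)^6 ≤ K^24000`;
`nsq F = N - 1`.
-/

open Finset
open Pool.Agent.Lib.MP_45349e_nt.LS (lam)

namespace Pool.Agent.Lib.MP_7b7e48_nt.LG

private lemma G1_lam_sq (n : ℕ) : lam n ^ 2 = 1 := by
  unfold Pool.Agent.Lib.MP_45349e_nt.LS.lam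
  rw [← pow_mul, mul_comm, pow_mul]
  norm_num

private lemma G1_lam_or (n : ℕ) : lam n = 1 ∨ lam n = -1 := by
  unfold Pool.Agent.Lib.MP_45349e_nt.LS.lam
  exact neg_one_pow_eq_or ℝ _

private lemma G1_cell (N G j : ℕ) [NeZero N] (hG : 0 < G) (S : Finset (ZMod N))
    (hS : ∀ x ∈ S, G * x.val / N = j) : S.card ≤ N / G + 1 := by
  have hN : 0 < N := Nat.pos_of_ne_zero (NeZero.ne N)
  rcases S.eq_empty_or_nonempty with h0 | hne
  · rw [h0]
    simp
  · set T : Finset ℕ := S.image ZMod.val with hT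
    have hTc : T.card = S.card := Finset.card_image_of_injective _ (ZMod.val_injective N)
    have hTne : T.Nonempty := hne.image _
    set m : ℕ := T.min' hTne with hm
    have hmT : m ∈ T := T.min'_mem hTne
    have hcell : ∀ v ∈ T, j * N ≤ G * v ∧ G * v < (j + 1) * N := by
      intro v hv
      rw [hT, Finset.mem_image] at hv
      obtain ⟨x, hx, rfl⟩ := hv
      have h := hS x hx
      constructor
      · rw [← h]
        exact Nat.div_mul_le_self _ _
      · rw [← h]
        have := Nat.lt_succ_iff.mpr (le_refl (G * x.val / N))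
        exact (Nat.div_lt_iff_lt_mul hN).mp this
    have hsub : T ⊆ Finset.Icc m (m + N / G) := by
      intro v hv
      rw [Finset.mem_Icc]
      refine ⟨T.min'_le v hv, ?_⟩
      have h1 := (hcell v hv).2
      have h2 := (hcell m hmT).1
      have hmv : m ≤ v := T.min'_le v hv
      have h3 : G * (v - m) < N := by
        have e : G * (v - m) = G * v - G * m := Nat.mul_sub G v m
        have e2 : (j + 1) * N = j * N + N := by ring
        omega
      have h4 : v - m ≤ N / G := by
        rw [Nat.le_div_iff_mul_le hG, mul_comm]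
        exact h3.le
      omega
    have h5 := Finset.card_le_card hsub
    rw [Nat.card_Icc, hTc] at h5
    have h6 : m + N / G + 1 - m = N / G + 1 := by
      generalize N / G = q
      omega
    rw [h6] at h5
    exact h5

private lemma G1_logpow (m : ℕ) (c : ℝ) : ∃ N0 : ℕ, ∀ N : ℕ, N0 ≤ N →
    c * (Real.log N) ^ m ≤ N := by
  have h1 := (Real.isLittleO_pow_log_id_atTop (n := m)).bound (c := 1 / (|c| + 1)) (by positivity)
  have h2 := tendsto_natCast_atTop_atTop (R := ℝ) |>.eventually h1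
  rw [Filter.eventually_atTop] at h2
  obtain ⟨N0, h3⟩ := h2
  refine ⟨max N0 1, fun N hN => ?_⟩
  have h4 := h3 N (le_trans (le_max_left _ _) hN)
  have hc : (0 : ℝ) < |c| + 1 := by positivity
  have hN1 : (0 : ℝ) ≤ N := Nat.cast_nonneg N
  rw [id, Real.norm_of_nonneg hN1, Real.norm_eq_abs] at h4
  have h5 : (|c| + 1) * |Real.log (N : ℝ) ^ m| ≤ N := by
    calc (|c| + 1) * |Real.log (N : ℝ) ^ m| ≤ (|c| + 1) * (1 / (|c| + 1) * N) :=
          mul_le_mul_of_nonneg_left h4 hc.le
      _ = N := by field_simp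
  calc c * (Real.log N) ^ m ≤ |c * (Real.log N) ^ m| := le_abs_self _
    _ = |c| * |Real.log (N : ℝ) ^ m| := abs_mul _ _
    _ ≤ (|c| + 1) * |Real.log (N : ℝ) ^ m| := by
        apply mul_le_mul_of_nonneg_right _ (abs_nonneg _)
        linarith
    _ ≤ N := h5

private lemma G1_val (N a : ℕ) [NeZero N] (h : a < N) : ((a : ℕ) : ZMod N).val = a :=
  ZMod.val_cast_of_lt h

private lemma G1_fl (N a : ℕ) [NeZero N] (h0 : 0 < a) (h : a < N) :
    fl N ((a : ℕ) : ZMod N) = lam a := by
  have hv := G1_val N a h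
  have hne : ((a : ℕ) : ZMod N) ≠ 0 := by
    intro h1
    rw [h1, ZMod.val_zero] at hv
    omega
  unfold fl
  rw [if_neg hne, hv]

private lemma G1_fl_sq (N : ℕ) (x : ZMod N) (hx : x ≠ 0) : fl N x ^ 2 = 1 := by
  unfold fl
  rw [if_neg hx]
  exact G1_lam_sq _

private lemma G1_fl_abs (N : ℕ) (x : ZMod N) : |fl N x| ≤ 1 := by
  by_cases hx : x = 0
  · unfold fl
    rw [if_pos hx]
    simp
  · have h := G1_fl_sq N x hx
    rw [← sq_le_one_iff_abs_le_one, h]

private lemma G1_nsq (N : ℕ) [NeZero N] : nsq (fl N) = N - 1 := by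
  classical
  unfold nsq
  have h1 : ∀ x ∈ (Finset.univ : Finset (ZMod N)), fl N x ^ 2 = if x = 0 then 0 else 1 := by
    intro x _
    by_cases hx : x = 0
    · rw [if_pos hx]
      unfold fl
      rw [if_pos hx]
      norm_num
    · rw [if_neg hx]
      exact G1_fl_sq N x hx
  rw [Finset.sum_congr rfl h1]
  have h2 : ∀ x ∈ (Finset.univ : Finset (ZMod N)), (if x = 0 then (0 : ℝ) else 1) =
      1 - if x = 0 then (1 : ℝ) else 0 := by
    intro x _
    by_cases hx : x = 0
    · simp [hx]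
    · simp [hx]
  rw [Finset.sum_congr rfl h2, Finset.sum_sub_distrib, Finset.sum_ite_eq' Finset.univ (0 : ZMod N)]
  simp [ZMod.card]

theorem G1 (B : ℕ) : ∃ A N0 : ℕ, ∀ (N : ℕ) [NeZero N], N0 ≤ N → N.Prime →
    ∀ η : ℝ, (η = 1 ∨ η = -1) → ((RE N η).card : ℝ) ≤ N / (Real.log N) ^ A →
    ∀ p : ℕ, p.Prime → p ≤ PP N →
      ∑ x : ZMod N, (fl N ((p : ZMod N) * x) - (-1) * fl N x) ^ 2 ≤
        nsq (fl N) / (Real.log N) ^ B := by
  classical
  set r : ℕ := 24000 + B + 3 with hr
  obtain ⟨C, N1, hC, hex⟩ := EXB r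
  obtain ⟨N2, hN2⟩ := G1_logpow (r + B) (32 * C)
  obtain ⟨N3, hN3⟩ := G1_logpow 3 1
  obtain ⟨N4, hN4⟩ : ∃ N4 : ℕ, ∀ N : ℕ, N4 ≤ N → 64 * C + 1 ≤ Real.log N := by
    have h1 := (Real.tendsto_log_atTop.comp (tendsto_natCast_atTop_atTop (R := ℝ))).eventually_ge_atTop
      (64 * C + 1)
    rw [Filter.eventually_atTop] at h1
    obtain ⟨N4, h⟩ := h1
    exact ⟨N4, fun N hN => h N hN⟩
  refine ⟨r + B + 2, max (max (max N1 N2) (max N3 N4)) 3, ?_⟩
  intro N _ hN hNp η hη hEE p hp hpP
  have hN1 : N1 ≤ N := le_trans (le_trans (le_trans (le_max_left _ _) (le_max_left _ _))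
    (le_max_left _ _)) hN
  have hN2' : N2 ≤ N := le_trans (le_trans (le_trans (le_max_right _ _) (le_max_left _ _))
    (le_max_left _ _)) hN
  have hN4' : N4 ≤ N := le_trans (le_trans (le_trans (le_max_right _ _) (le_max_right _ _))
    (le_max_left _ _)) hN
  have h3N : 3 ≤ N := le_trans (le_max_right _ _) hN
  have hNR : (3 : ℝ) ≤ N := by exact_mod_cast h3N
  set K : ℝ := Real.log N with hK
  have hK1 : 64 * C + 1 ≤ K := hN4 N hN4'
  have hK0 : 1 ≤ K := by nlinarith
  have hKpos : 0 < K := by linarith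
  -- the set of exceptions of antisymmetry
  set E : Finset (ZMod N) := Finset.univ.filter fun x => x.val ∈ RE N η with hE
  have hEcard : E.card ≤ (RE N η).card := by
    have h1 : E.image ZMod.val ⊆ RE N η := by
      intro v hv
      rw [Finset.mem_image] at hv
      obtain ⟨x, hx, rfl⟩ := hv
      rw [hE, Finset.mem_filter] at hx
      exact hx.2
    have h2 := Finset.card_le_card h1
    rwa [Finset.card_image_of_injective _ (ZMod.val_injective N)] at h2
  have hmemEE : ∀ n : ℕ, n ∈ RE N η ↔ n < N ∧ 0 < n ∧ lam (N - n) ≠ η * lam n := RE_mem N η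
  have hvneg : ∀ x : ZMod N, x ≠ 0 → (-x).val = N - x.val := by
    intro x hx
    rw [ZMod.neg_val, if_neg hx]
  have hvpos : ∀ x : ZMod N, x ≠ 0 → 0 < x.val := by
    intro x hx
    rcases Nat.eq_zero_or_pos x.val with h | h
    · exact absurd ((ZMod.val_eq_zero x).mp h) hx
    · exact h
  have hEneg : ∀ x ∈ E, -x ∈ E := by
    intro x hx
    rw [hE, Finset.mem_filter] at hx ⊢
    refine ⟨Finset.mem_univ _, ?_⟩
    have h1 := (hmemEE x.val).mp hx.2
    have hx0 : x ≠ 0 := by
      intro h0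
      rw [h0, ZMod.val_zero] at h1
      omega
    rw [hvneg x hx0]
    exact RE_sym N η hη x.val hx.2
  have hanti : ∀ x : ZMod N, x ≠ 0 → x ∉ E → fl N (-x) = η * fl N x := by
    intro x hx0 hxE
    have hnx0 : -x ≠ 0 := neg_ne_zero.mpr hx0
    have h1 : x.val ∉ RE N η := by
      intro h
      apply hxE
      rw [hE, Finset.mem_filter]
      exact ⟨Finset.mem_univ _, h⟩
    rw [hmemEE] at h1
    unfold fl
    rw [if_neg hx0, if_neg hnx0, hvneg x hx0]
    by_contra h
    exact h1 ⟨ZMod.val_lt x, hvpos x hx0, h⟩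
  have hmul : ∀ j n : ℕ, 1 ≤ j → j ≤ PP N → 1 ≤ n → j * n < N →
      fl N ((j * n : ℕ) : ZMod N) = lam j * fl N (n : ZMod N) := by
    intro j n hj _ hn hjn
    have hnN : n < N := lt_of_le_of_lt (Nat.le_mul_of_pos_left n hj) hjn
    rw [G1_fl N (j * n) (Nat.mul_pos hj hn) hjn, G1_fl N n hn hnN]
    exact Pool.Agent.Lib.MP_45349e_nt.LS.lam_mul j n (by omega) (by omega)
  obtain ⟨Js, hJs1, hJs2, hJs3⟩ := hex N hN1 hNp (fl N) (-1) η lam E (by norm_num)
    Pool.Agent.Lib.MP_45349e_nt.LS.lam_one (fun j _ _ => G1_lam_sq j)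
    (fun q hq _ => Pool.Agent.Lib.MP_45349e_nt.LS.lam_prime q hq) hEneg hanti hmul p hp hpP
  -- the set of all exceptions
  set Bad : Finset (ZMod N) := Finset.univ.filter fun x =>
    fl N ((p : ZMod N) * x) ≠ (-1) * fl N x with hBad
  set X1 : Finset (ZMod N) := Bad.filter fun x => Ga N * x.val / N ∉ Js with hX1
  set X2 : Finset (ZMod N) := Bad.filter fun x => Ga N * x.val / N ∈ Js with hX2
  have hGa1 : 1 ≤ Ga N := by
    unfold Ga
    rw [Nat.one_le_floor_iff]
    exact Real.one_le_rpow (by linarith) (by norm_num)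
  have hGaN : (Ga N : ℝ) ≤ N := by
    have h1 : (Ga N : ℝ) ≤ (N : ℝ) ^ ((1 : ℝ) / 400) := Nat.floor_le (by positivity)
    have h2 : (N : ℝ) ^ ((1 : ℝ) / 400) ≤ (N : ℝ) ^ (1 : ℝ) :=
      Real.rpow_le_rpow_of_exponent_le (by linarith) (by norm_num)
    rw [Real.rpow_one] at h2
    linarith
  have hcardX1 : (X1.card : ℝ) ≤ C * K ^ r * ((E.card : ℝ) + 1) := by
    apply hJs3
    intro x hx
    rw [hX1, Finset.mem_filter, hBad, Finset.mem_filter] at hx
    refine ⟨?_, hx.1.2, hx.2⟩
    intro h0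
    apply hx.1.2
    rw [h0, mul_zero]
    unfold fl
    rw [if_pos rfl]
    norm_num
  have hcardX2 : (X2.card : ℝ) ≤ Js.card * ((N : ℝ) / Ga N + 1) := by
    have h1 : X2 ⊆ Js.biUnion fun j => Finset.univ.filter fun x : ZMod N => Ga N * x.val / N = j := by
      intro x hx
      rw [hX2, Finset.mem_filter] at hx
      rw [Finset.mem_biUnion]
      exact ⟨_, hx.2, by rw [Finset.mem_filter]; exact ⟨Finset.mem_univ _, rfl⟩⟩
    have h2 : X2.card ≤ Js.card * (N / Ga N + 1) := by
      refine le_trans (Finset.card_le_card h1) ?_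
      apply Finset.card_biUnion_le_card_mul
      intro j _
      apply G1_cell N (Ga N) j (by omega)
      intro x hx
      rw [Finset.mem_filter] at hx
      exact hx.2
    have h3 : (X2.card : ℝ) ≤ Js.card * (((N / Ga N : ℕ) : ℝ) + 1) := by exact_mod_cast h2
    have h4 : ((N / Ga N : ℕ) : ℝ) ≤ (N : ℝ) / Ga N := Nat.cast_div_le
    calc (X2.card : ℝ) ≤ Js.card * (((N / Ga N : ℕ) : ℝ) + 1) := h3
      _ ≤ Js.card * ((N : ℝ) / Ga N + 1) := by
          apply mul_le_mul_of_nonneg_left _ (Nat.cast_nonneg _)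
          linarith
  have hcardBad : (Bad.card : ℝ) = X1.card + X2.card := by
    have h1 := Finset.card_filter_add_card_filter_not (s := Bad) (fun x => Ga N * x.val / N ∈ Js)
    have h2 : X2.card + X1.card = Bad.card := h1
    rw [← h2]
    push_cast
    ring
  have hsum : ∑ x : ZMod N, (fl N ((p : ZMod N) * x) - (-1) * fl N x) ^ 2 ≤ 4 * (Bad.card : ℝ) := by
    calc ∑ x : ZMod N, (fl N ((p : ZMod N) * x) - (-1) * fl N x) ^ 2
        = ∑ x ∈ Bad, (fl N ((p : ZMod N) * x) - (-1) * fl N x) ^ 2 := by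
          symm
          apply Finset.sum_subset (Finset.subset_univ _)
          intro x _ hx
          rw [hBad, Finset.mem_filter] at hx
          have h1 : fl N ((p : ZMod N) * x) = (-1) * fl N x := by
            by_contra h
            exact hx ⟨Finset.mem_univ _, h⟩
          rw [h1]
          ring
      _ ≤ ∑ x ∈ Bad, (4 : ℝ) := by
          apply Finset.sum_le_sum
          intro x _
          have h1 := abs_le.mp (G1_fl_abs N ((p : ZMod N) * x))
          have h2 := abs_le.mp (G1_fl_abs N x)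
          nlinarith [h1.1, h1.2, h2.1, h2.2]
      _ = 4 * (Bad.card : ℝ) := by
          rw [Finset.sum_const, nsmul_eq_mul]
          ring
  have hPP : (PP N : ℝ) ^ 6 ≤ K ^ 24000 := by
    have h1 : (PP N : ℝ) ≤ K ^ 4000 := Nat.floor_le (by positivity)
    calc (PP N : ℝ) ^ 6 ≤ (K ^ 4000) ^ 6 := pow_le_pow_left₀ (Nat.cast_nonneg _) h1 6
      _ = K ^ 24000 := by rw [← pow_mul]
  have hKr : K ^ r = K ^ 24000 * K ^ (B + 3) := by
    rw [hr, ← pow_add]
    congr 1
  have hN0 : (0 : ℝ) < N := by linarith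
  have hGa0 : (0 : ℝ) < Ga N := by exact_mod_cast hGa1
  -- first part
  have hX2b : (X2.card : ℝ) ≤ 2 * C * N / K ^ (B + 3) := by
    calc (X2.card : ℝ) ≤ Js.card * ((N : ℝ) / Ga N + 1) := hcardX2
      _ ≤ (C * (PP N : ℝ) ^ 6 * Ga N / K ^ r) * ((N : ℝ) / Ga N + 1) :=
          mul_le_mul_of_nonneg_right hJs2 (by positivity)
      _ ≤ (C * K ^ 24000 * Ga N / K ^ r) * ((N : ℝ) / Ga N + 1) := by
          apply mul_le_mul_of_nonneg_right _ (by positivity)
          apply div_le_div_of_nonneg_right _ (by positivity)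
          apply mul_le_mul_of_nonneg_right _ hGa0.le
          exact mul_le_mul_of_nonneg_left hPP hC.le
      _ = C * (N + Ga N) / K ^ (B + 3) := by
          rw [hKr]
          have h24 : K ^ 24000 ≠ 0 := by positivity
          have hB3 : K ^ (B + 3) ≠ 0 := by positivity
          field_simp
      _ ≤ C * (N + N) / K ^ (B + 3) := by
          apply div_le_div_of_nonneg_right _ (by positivity)
          apply mul_le_mul_of_nonneg_left _ hC.le
          linarith
      _ = 2 * C * N / K ^ (B + 3) := by ring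
  have hX1b : (X1.card : ℝ) ≤ C * N / K ^ (B + 2) + C * K ^ r := by
    have hE1 : (E.card : ℝ) ≤ N / K ^ (r + B + 2) := by
      have : (E.card : ℝ) ≤ (RE N η).card := by exact_mod_cast hEcard
      linarith
    calc (X1.card : ℝ) ≤ C * K ^ r * ((E.card : ℝ) + 1) := hcardX1
      _ ≤ C * K ^ r * (N / K ^ (r + B + 2) + 1) := by
          apply mul_le_mul_of_nonneg_left _ (by positivity)
          linarith
      _ = C * N / K ^ (B + 2) + C * K ^ r := by
          have e : K ^ (r + B + 2) = K ^ r * K ^ (B + 2) := by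
            rw [← pow_add]
            congr 1
          rw [e]
          have h1 : K ^ r ≠ 0 := by positivity
          have h2 : K ^ (B + 2) ≠ 0 := by positivity
          field_simp
  have hfin : 4 * (Bad.card : ℝ) ≤ ((N : ℝ) - 1) / K ^ B := by
    rw [le_div_iff₀ (by positivity), hcardBad]
    have hKB : 0 < K ^ B := by positivity
    have t2 : (X2.card : ℝ) * K ^ B ≤ 2 * C * N / K ^ 3 := by
      calc (X2.card : ℝ) * K ^ B ≤ (2 * C * N / K ^ (B + 3)) * K ^ B :=
            mul_le_mul_of_nonneg_right hX2b hKB.le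
        _ = 2 * C * N / K ^ 3 := by
            rw [pow_add]
            field_simp
    have t1 : (X1.card : ℝ) * K ^ B ≤ C * N / K ^ 2 + C * K ^ (r + B) := by
      calc (X1.card : ℝ) * K ^ B ≤ (C * N / K ^ (B + 2) + C * K ^ r) * K ^ B :=
            mul_le_mul_of_nonneg_right hX1b hKB.le
        _ = C * N / K ^ 2 + C * K ^ (r + B) := by
            rw [pow_add K r B, pow_add K B 2, add_mul, mul_assoc C (K ^ r) (K ^ B)]
            congr 1
            have h1 : K ^ B ≠ 0 := hKB.ne'
            have h2 : K ^ 2 ≠ 0 := by positivity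
            field_simp
    have t3 : 32 * C * K ^ (r + B) ≤ N := hN2 N hN2'
    have hCK : 64 * C ≤ K := by linarith
    have t4 : 2 * C * N / K ^ 3 ≤ N / 32 := by
      rw [div_le_iff₀ (by positivity)]
      have : K ≤ K ^ 3 := by nlinarith [mul_pos hKpos hKpos]
      nlinarith
    have t5 : C * N / K ^ 2 ≤ N / 64 := by
      rw [div_le_iff₀ (by positivity)]
      have : K ≤ K ^ 2 := by nlinarith
      nlinarith
    nlinarith
  calc ∑ x : ZMod N, (fl N ((p : ZMod N) * x) - (-1) * fl N x) ^ 2 ≤ 4 * (Bad.card : ℝ) := hsum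
    _ ≤ ((N : ℝ) - 1) / K ^ B := hfin
    _ = nsq (fl N) / K ^ B := by rw [G1_nsq N]

end Pool.Agent.Lib.MP_7b7e48_nt.LG
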