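import Pool.Agent.Lib.MP_7b7e48_nt.LG.Defs
import Pool.Agent.Lib.MP_7b7e48_nt.LG.PV
import Pool.Agent.Lib.MP_7b7e48_nt.LG.PC

/-!
# Module S7 (75 minutes): a good character which is rarely bad is trivial or quadratic

PROOF. `K = log N`. Let `s = 1`, `ψ = χ`, or `s = -1`, `ψ = χ^2`; suppose `ψ ≠ 1`. `Y = ⌊N^(1/2+kap)⌋`. Call
`1 ≤ n ≤ Y` nice if all its prime factors `l` satisfy `l ≤ TT N` and `‖χ l - s‖ ≤ 1/(10 K)`. Not nice `n` have
a prime factor counted in `Bad` or in `(TT N, Y]`: at most `Y (1/20 + 1/40)` (`PCb`). For nice `n`: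
`‖ψ l - 1‖ ≤ 2‖χ l - s‖` (`χ² - 1 = (χ - s)(χ + s)` for `s = -1`), so
`‖ψ n - 1‖ ≤ Ω(n) * 2/(10K) ≤ (K/log 2)/(5K) ≤ 3/10` (induction on the factorization, norms `≤ 1`). So
`Re ∑_{n ≤ Y} ψ n ≥ (7/10)(9/10) Y - (1/10) Y - 1 > Y/2 > 4 √N K` (`N` large), contradiction to `PV`.
For `s = -1` moreover `χ ≠ 1` because `‖χ 2 + 1‖ ≤ 1/(10K) < 2` (`2 ≤ PP N`).
-/

open Finset
open Pool.Agent.Lib.MP_45349e_nt.LS (lam)

namespace Pool.Agent.Lib.MP_7b7e48_nt.LG

/-- a character close to `1` at all prime factors of `n` is close to `1` at `n` -/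
private theorem S7_close {N : ℕ} [NeZero N] (ψ : DirichletCharacter ℂ N) (δ : ℝ) (hδ : 0 ≤ δ)
    (n : ℕ) : 1 ≤ n → (∀ l : ℕ, l.Prime → l ∣ n → ‖ψ (l : ZMod N) - 1‖ ≤ δ) →
    ‖ψ (n : ZMod N) - 1‖ ≤ δ * (Real.log n / Real.log 2) := by
  have hl2 : 0 < Real.log 2 := Real.log_pos (by norm_num)
  induction n using induction_on_primes with
  | zero => intro h; omega
  | one =>
    intro _ _
    simp
  | prime_mul p a hp ih =>
    intro h1 h2
    have ha : 1 ≤ a := by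
      rcases Nat.eq_zero_or_pos a with h | h
      · simp [h] at h1
      · exact h
    have h3 := ih ha (fun l hl hd => h2 l hl (hd.mul_left p))
    have h4 := h2 p hp (dvd_mul_right p a)
    have hpr : (2 : ℝ) ≤ p := by exact_mod_cast hp.two_le
    have har : (0 : ℝ) < a := by exact_mod_cast ha
    have e : ψ ((p * a : ℕ) : ZMod N) - 1 =
        ψ (p : ZMod N) * (ψ (a : ZMod N) - 1) + (ψ (p : ZMod N) - 1) := by
      push_cast
      rw [map_mul]
      ring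
    have e2 : ‖ψ (p : ZMod N)‖ ≤ 1 := DirichletCharacter.norm_le_one _ _
    have e3 : Real.log ((p * a : ℕ) : ℝ) = Real.log p + Real.log a := by
      push_cast
      rw [Real.log_mul (by linarith) har.ne']
    have e4 : Real.log 2 ≤ Real.log p := Real.log_le_log (by norm_num) hpr
    calc ‖ψ ((p * a : ℕ) : ZMod N) - 1‖ ≤
        ‖ψ (p : ZMod N) * (ψ (a : ZMod N) - 1)‖ + ‖ψ (p : ZMod N) - 1‖ := by
          rw [e]; exact norm_add_le _ _
      _ ≤ 1 * (δ * (Real.log a / Real.log 2)) + δ := by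
          rw [norm_mul]
          gcongr
      _ ≤ δ * (Real.log ((p * a : ℕ) : ℝ) / Real.log 2) := by
          rw [e3, add_div, mul_add]
          have : 1 ≤ Real.log p / Real.log 2 := by
            rw [le_div_iff₀ hl2]; linarith
          nlinarith

/-- the number of `n ≤ Y` which are divisible by an element of `S` -/
private theorem S7_count (S : Finset ℕ) (Y : ℕ) :
    (((Finset.Icc 1 Y).filter (fun n => ∃ l ∈ S, l ∣ n)).card : ℝ) ≤
      Y * ∑ l ∈ S, 1 / (l : ℝ) := by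
  classical
  have h1 : (Finset.Icc 1 Y).filter (fun n => ∃ l ∈ S, l ∣ n) ⊆
      S.biUnion (fun l => (Finset.Ioc 0 Y).filter (fun n => l ∣ n)) := by
    intro n hn
    rw [Finset.mem_filter, Finset.mem_Icc] at hn
    obtain ⟨⟨h1, h2⟩, l, hl, hd⟩ := hn
    rw [Finset.mem_biUnion]
    refine ⟨l, hl, ?_⟩
    rw [Finset.mem_filter, Finset.mem_Ioc]
    exact ⟨⟨by omega, h2⟩, hd⟩
  have h2 : ((Finset.Icc 1 Y).filter (fun n => ∃ l ∈ S, l ∣ n)).card ≤ ∑ l ∈ S, Y / l := by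
    refine (Finset.card_le_card h1).trans (Finset.card_biUnion_le.trans ?_)
    refine Finset.sum_le_sum fun l _ => ?_
    rw [Nat.Ioc_filter_dvd_card_eq_div]
  calc (((Finset.Icc 1 Y).filter (fun n => ∃ l ∈ S, l ∣ n)).card : ℝ) ≤
      ((∑ l ∈ S, Y / l : ℕ) : ℝ) := by exact_mod_cast h2
    _ = ∑ l ∈ S, ((Y / l : ℕ) : ℝ) := by push_cast; rfl
    _ ≤ ∑ l ∈ S, (Y : ℝ) * (1 / (l : ℝ)) := by
        refine Finset.sum_le_sum fun l _ => ?_
        have := @Nat.cast_div_le ℝ _ _ _ Y l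
        rw [mul_one_div]
        exact this
    _ = Y * ∑ l ∈ S, 1 / (l : ℝ) := by rw [Finset.mul_sum]

/-- if a character is close to `1` at most `n ≤ Y` then its sum is large -/
private theorem S7_sum {N : ℕ} [NeZero N] (ψ : DirichletCharacter ℂ N) (Y : ℕ)
    (p : ℕ → Prop) [DecidablePred p]
    (h1 : ∀ n ∈ Finset.Icc 1 Y, ¬ p n → ‖ψ (n : ZMod N) - 1‖ ≤ 3 / 10)
    (h2 : (((Finset.Icc 1 Y).filter p).card : ℝ) ≤ Y * (3 / 40)) :
    (Y : ℝ) / 2 ≤ ‖∑ n ∈ Finset.Icc 1 Y, ψ (n : ZMod N)‖ := by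
  have h3 : ∑ n ∈ Finset.Icc 1 Y, (7 / 10 - (if p n then 17 / 10 else 0) : ℝ) ≤
      (∑ n ∈ Finset.Icc 1 Y, ψ (n : ZMod N)).re := by
    rw [Complex.re_sum]
    refine Finset.sum_le_sum fun n hn => ?_
    by_cases hp : p n
    · rw [if_pos hp]
      have a1 : ‖ψ (n : ZMod N)‖ ≤ 1 := DirichletCharacter.norm_le_one _ _
      have a2 := Complex.abs_re_le_norm (ψ (n : ZMod N))
      have a3 := neg_abs_le (ψ (n : ZMod N)).re
      linarith
    · rw [if_neg hp]
      have a1 := h1 n hn hp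
      have a2 := Complex.abs_re_le_norm (ψ (n : ZMod N) - 1)
      have a3 := neg_abs_le (ψ (n : ZMod N) - 1).re
      rw [Complex.sub_re, Complex.one_re] at a2 a3
      linarith
  have h4 : ∑ n ∈ Finset.Icc 1 Y, (7 / 10 - (if p n then 17 / 10 else 0) : ℝ) =
      7 / 10 * Y - 17 / 10 * ((Finset.Icc 1 Y).filter p).card := by
    rw [Finset.sum_sub_distrib, Finset.sum_const, Nat.card_Icc, ← Finset.sum_filter,
      Finset.sum_const]
    simp
    ring
  have h5 := Complex.re_le_norm (∑ n ∈ Finset.Icc 1 Y, ψ (n : ZMod N))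
  rw [h4] at h3
  have hY : (0 : ℝ) ≤ Y := Nat.cast_nonneg _
  linarith

/-- numerics -/
private theorem S7_num : ∃ N0 : ℕ, ∀ N : ℕ, N0 ≤ N → 2 ≤ Real.log N ∧
    (N : ℝ) ^ (1 / 2 + kap) ≤ N ∧
    4 * Real.sqrt N * Real.log N < (⌊(N : ℝ) ^ (1 / 2 + kap)⌋₊ : ℝ) / 2 := by
  have h1 : ∀ᶠ x : ℝ in Filter.atTop, 2 ≤ Real.log x :=
    Real.tendsto_log_atTop.eventually_ge_atTop 2
  have h2 := (isLittleO_log_rpow_atTop (show (0 : ℝ) < kap by norm_num [kap])).bound
    (show (0 : ℝ) < 1 / 10 by norm_num)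
  have h3 := Filter.eventually_ge_atTop (1 : ℝ)
  obtain ⟨X, hX⟩ := Filter.eventually_atTop.mp (h1.and (h2.and h3))
  refine ⟨⌈X⌉₊, fun N hN => ?_⟩
  have hNX : X ≤ N := (Nat.le_ceil X).trans (by exact_mod_cast hN)
  obtain ⟨g1, g2, g3⟩ := hX N hNX
  have hpos : (0 : ℝ) < N := by linarith
  have g4 : (N : ℝ) ^ (1 / 2 + kap) = Real.sqrt N * (N : ℝ) ^ kap := by
    rw [Real.rpow_add hpos, Real.sqrt_eq_rpow]
  have hs : 1 ≤ Real.sqrt N := by
    rw [show (1 : ℝ) = Real.sqrt 1 by simp]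
    exact Real.sqrt_le_sqrt g3
  refine ⟨g1, ?_, ?_⟩
  · calc (N : ℝ) ^ (1 / 2 + kap) ≤ (N : ℝ) ^ (1 : ℝ) :=
        Real.rpow_le_rpow_of_exponent_le g3 (by norm_num [kap])
      _ = N := Real.rpow_one _
  · rw [Real.norm_eq_abs, Real.norm_eq_abs, abs_of_nonneg (by linarith),
      abs_of_nonneg (by positivity)] at g2
    have g5 := Nat.lt_floor_add_one ((N : ℝ) ^ (1 / 2 + kap))
    rw [g4] at g5 ⊢
    nlinarith

private theorem S7_core : ∃ N0 : ℕ, ∀ (N : ℕ) [NeZero N], N0 ≤ N → N.Prime → ∀ s : ℝ,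
    ∀ χ ψ : DirichletCharacter ℂ N,
    (∀ l : ℕ, ‖ψ (l : ZMod N) - 1‖ ≤ 2 * ‖χ (l : ZMod N) - (s : ℂ)‖) →
    Bad N s χ ≤ 1 / 20 → ψ = 1 := by
  classical
  obtain ⟨N1, hN1⟩ := S7_num
  obtain ⟨N2, hN2⟩ := PCb
  refine ⟨max 3 (max N1 N2), fun N _ hN hp s χ ψ hψ hB => ?_⟩
  have hN3 : 3 ≤ N := (le_max_left _ _).trans hN
  obtain ⟨g1, g2, g3⟩ := hN1 N ((le_max_left _ _).trans ((le_max_right _ _).trans hN))
  have hC := hN2 N ((le_max_right _ _).trans ((le_max_right _ _).trans hN))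
  by_contra hne
  set Y : ℕ := ⌊(N : ℝ) ^ (1 / 2 + kap)⌋₊ with hY
  set K : ℝ := Real.log N with hK
  have hY0 : (Y : ℝ) ≤ (N : ℝ) ^ (1 / 2 + kap) := Nat.floor_le (by positivity)
  have hYN : Y ≤ N := by
    have : (Y : ℝ) ≤ N := hY0.trans g2
    exact_mod_cast this
  set B : Finset ℕ := (Finset.range (N + 1)).filter (fun l : ℕ => l.Prime ∧ (l : ℝ) ≤ TT N ∧
    1 / (10 * Real.log N) < ‖χ (l : ZMod N) - (s : ℂ)‖) with hBdef
  set C : Finset ℕ := (Finset.range (Y + 1)).filter (fun l : ℕ => l.Prime ∧ TT N < (l : ℝ))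
    with hCdef
  have hBs : ∑ l ∈ B, 1 / (l : ℝ) ≤ 1 / 20 := by
    have : Bad N s χ = ∑ l ∈ B, 1 / (l : ℝ) := by
      unfold Bad
      rfl
    rw [← this]
    exact hB
  have hCs : ∑ l ∈ C, 1 / (l : ℝ) ≤ 1 / 40 := by
    apply hC
    intro l hl
    rw [hCdef, Finset.mem_filter, Finset.mem_range] at hl
    refine ⟨hl.2.1, hl.2.2, ?_⟩
    have : (l : ℝ) ≤ Y := by exact_mod_cast (by omega : l ≤ Y)
    linarith
  have hBC : ∑ l ∈ B ∪ C, 1 / (l : ℝ) ≤ 3 / 40 := by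
    have : ∑ l ∈ B ∪ C, 1 / (l : ℝ) ≤ ∑ l ∈ B, 1 / (l : ℝ) + ∑ l ∈ C, 1 / (l : ℝ) := by
      rw [← Finset.sum_union_inter]
      have : 0 ≤ ∑ l ∈ B ∩ C, 1 / (l : ℝ) := Finset.sum_nonneg fun l _ => by positivity
      linarith
    linarith
  have hcnt := S7_count (B ∪ C) Y
  have hsum := S7_sum ψ Y (fun n => ∃ l ∈ B ∪ C, l ∣ n) (by
    intro n hn hnp
    rw [Finset.mem_Icc] at hn
    have hKpos : 0 < K := by linarith
    have h1 := S7_close ψ (1 / (5 * K)) (by positivity) n hn.1 (by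
      intro l hl hd
      have hln : l ≤ n := Nat.le_of_dvd (by omega) hd
      have h2 : l ∉ B ∪ C := fun h => hnp ⟨l, h, hd⟩
      rw [Finset.mem_union, hBdef, hCdef, Finset.mem_filter, Finset.mem_filter,
        Finset.mem_range, Finset.mem_range] at h2
      push Not at h2
      have h3 : (l : ℝ) ≤ TT N := h2.2 (by omega) hl
      have h4 := h2.1 (by omega) hl h3
      have h5 := hψ l
      have h6 : 2 * (1 / (10 * K)) = 1 / (5 * K) := by
        field_simp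
        norm_num
      linarith)
    have h2 : Real.log n ≤ K := by
      apply Real.log_le_log
      · exact_mod_cast (by omega : 0 < n)
      · exact_mod_cast hn.2.trans hYN
    have h3 : (0.6931471803 : ℝ) < Real.log 2 := Real.log_two_gt_d9
    have h4 : 0 < Real.log 2 := by linarith
    refine h1.trans ?_
    rw [one_div, ← div_eq_inv_mul, div_div, div_le_iff₀ (by positivity)]
    nlinarith) (hcnt.trans (by gcongr))
  have hPV := PV N hp hN3 ψ hne Y
  have : (Y : ℝ) / 2 ≤ 4 * Real.sqrt N * Real.log N := hsum.trans hPV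
  linarith

theorem S7 : ∃ N0 : ℕ, ∀ (N : ℕ) [NeZero N], N0 ≤ N → N.Prime → ∀ s : ℝ, (s = 1 ∨ s = -1) →
    ∀ χ ∈ Good N s, Bad N s χ ≤ 1 / 20 → (s = 1 → χ = 1) ∧ (s = -1 → χ ^ 2 = 1 ∧ χ ≠ 1) := by
  classical
  obtain ⟨N1, hN1⟩ := S7_num
  obtain ⟨N2, hN2⟩ := S7_core
  refine ⟨max 3 (max N1 N2), fun N _ hN hp s hs χ hχ hB => ?_⟩
  have hN3 : 3 ≤ N := (le_max_left _ _).trans hN
  obtain ⟨g1, -, -⟩ := hN1 N ((le_max_left _ _).trans ((le_max_right _ _).trans hN))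
  have hc := hN2 N ((le_max_right _ _).trans ((le_max_right _ _).trans hN)) hp s χ
  refine ⟨?_, ?_⟩
  · intro h1
    refine hc χ (fun l => ?_) hB
    rw [h1, Complex.ofReal_one]
    have := norm_nonneg (χ (l : ZMod N) - 1)
    linarith
  · intro h1
    refine ⟨hc (χ ^ 2) (fun l => ?_) hB, ?_⟩
    · rw [MulChar.pow_apply' _ two_ne_zero, h1]
      have e : χ (l : ZMod N) ^ 2 - 1 =
          (χ (l : ZMod N) - 1) * (χ (l : ZMod N) - ((-1 : ℝ) : ℂ)) := by
        push_cast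
        ring
      rw [e, norm_mul]
      have e2 : ‖χ (l : ZMod N) - 1‖ ≤ 2 := by
        have h2 := norm_sub_le (χ (l : ZMod N)) 1
        have h3 : ‖χ (l : ZMod N)‖ ≤ 1 := DirichletCharacter.norm_le_one _ _
        rw [norm_one] at h2
        linarith
      gcongr
    · intro h2
      have h3 : ∀ p : ℕ, p.Prime → p ≤ PP N →
          ‖χ (p : ZMod N) - (s : ℂ)‖ ≤ 1 / (10 * Real.log N) := by
        have := hχ
        unfold Good at this
        rw [Finset.mem_filter] at this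
        exact this.2
      have h4 : 2 ≤ PP N := by
        unfold PP
        apply Nat.le_floor
        have : (Real.log N) ^ 1 ≤ (Real.log N) ^ 4000 :=
          pow_le_pow_right₀ (by linarith) (by norm_num)
        rw [pow_one] at this
        push_cast
        linarith
      have h5 := h3 2 Nat.prime_two h4
      have h6 : IsUnit ((2 : ℕ) : ZMod N) := by
        rw [ZMod.isUnit_iff_coprime]
        exact (Nat.coprime_primes Nat.prime_two hp).mpr (by omega)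
      rw [h2, MulChar.one_apply h6, h1] at h5
      have h7 : ‖(1 : ℂ) - ((-1 : ℝ) : ℂ)‖ = 2 := by
        push_cast
        norm_num
      rw [h7] at h5
      have h8 : 1 / (10 * Real.log N) ≤ 1 := by
        rw [div_le_one (by linarith)]
        linarith
      linarith

end Pool.Agent.Lib.MP_7b7e48_nt.LG
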