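import Pool.Agent.Lib.MP_7b7e48_nt.LG.Defs
import Pool.Agent.Lib.MP_7b7e48_nt.LG.FC
import Pool.Agent.Lib.MP_7b7e48_nt.LG.PC

/-!
# Module S1: few good characters

`K = log N`, `P = PP N`, `L = P / 2`, `u = ⌈K / log P⌉ - 1`. The products of the `u`-element sets of primes
of `Bl L` are distinct and smaller than `N`; there are at least `(K ^ (3998 + 1/2)) ^ u` of them. A good
character has a large sum over these products, and column orthogonality bounds the number of such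
characters.
-/

open Finset
open Pool.Agent.Lib.MP_45349e_nt.LS (lam)

namespace Pool.Agent.Lib.MP_7b7e48_nt.LG

/-- telescoping for a product of complex numbers close to `s` -/
theorem S1_tel {ι : Type*} (A : Finset ι) (f : ι → ℂ) (s : ℂ) (hs : ‖s‖ = 1) (e : ℝ)
    (h1 : ∀ p ∈ A, ‖f p‖ ≤ 1) (h2 : ∀ p ∈ A, ‖f p - s‖ ≤ e) :
    ‖∏ p ∈ A, f p - s ^ A.card‖ ≤ A.card * e := by
  classical
  induction A using Finset.induction_on with
  | empty => simp
  | insert a A ha ih =>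
    rw [Finset.prod_insert ha, Finset.card_insert_of_notMem ha]
    have ih' := ih (fun p hp => h1 p (Finset.mem_insert_of_mem hp))
      (fun p hp => h2 p (Finset.mem_insert_of_mem hp))
    have ha1 := h1 a (Finset.mem_insert_self a A)
    have ha2 := h2 a (Finset.mem_insert_self a A)
    have e1 : f a * ∏ p ∈ A, f p - s ^ (A.card + 1) =
        f a * (∏ p ∈ A, f p - s ^ A.card) + (f a - s) * s ^ A.card := by
      rw [pow_succ]; ring
    rw [e1]
    have e2 : ‖f a * (∏ p ∈ A, f p - s ^ A.card)‖ ≤ A.card * e := by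
      rw [norm_mul]
      calc ‖f a‖ * ‖∏ p ∈ A, f p - s ^ A.card‖ ≤ 1 * ‖∏ p ∈ A, f p - s ^ A.card‖ :=
            mul_le_mul_of_nonneg_right ha1 (norm_nonneg _)
        _ ≤ A.card * e := by rw [one_mul]; exact ih'
    have e3 : ‖(f a - s) * s ^ A.card‖ ≤ e := by
      rw [norm_mul, norm_pow, hs, one_pow, mul_one]
      exact ha2
    calc ‖f a * (∏ p ∈ A, f p - s ^ A.card) + (f a - s) * s ^ A.card‖
        ≤ ‖f a * (∏ p ∈ A, f p - s ^ A.card)‖ + ‖(f a - s) * s ^ A.card‖ := norm_add_le _ _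
      _ ≤ A.card * e + e := add_le_add e2 e3
      _ = ((A.card + 1 : ℕ) : ℝ) * e := by push_cast; ring

/-- the lower bound for a binomial coefficient -/
theorem S1_choose (m u : ℕ) (X : ℝ) (hX : 0 ≤ X) (h : X * u + u ≤ m) :
    X ^ u ≤ (m.choose u : ℝ) := by
  rcases Nat.eq_zero_or_pos u with rfl | hu
  · simp
  have hu' : (0 : ℝ) < u := by exact_mod_cast hu
  have hum : u ≤ m := by
    have : (u : ℝ) ≤ m := by nlinarith
    exact_mod_cast this
  have h1 : (((m + 1 - u : ℕ) : ℝ)) ^ u ≤ (u.factorial : ℝ) * (m.choose u : ℝ) := by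
    have h2 := Nat.pow_sub_le_descFactorial m u
    rw [Nat.descFactorial_eq_factorial_mul_choose] at h2
    exact_mod_cast h2
  have h3 : X * u ≤ ((m + 1 - u : ℕ) : ℝ) := by
    rw [Nat.cast_sub (by omega)]
    push_cast
    linarith
  have h4 : (X * u) ^ u ≤ (u : ℝ) ^ u * (m.choose u : ℝ) := by
    calc (X * u) ^ u ≤ (((m + 1 - u : ℕ) : ℝ)) ^ u :=
          pow_le_pow_left₀ (by positivity) h3 u
      _ ≤ (u.factorial : ℝ) * (m.choose u : ℝ) := h1
      _ ≤ (u : ℝ) ^ u * (m.choose u : ℝ) := by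
          apply mul_le_mul_of_nonneg_right _ (by positivity)
          exact_mod_cast Nat.factorial_le_pow u
  rw [mul_pow] at h4
  have h5 : (0 : ℝ) < (u : ℝ) ^ u := by positivity
  have h6 : (u : ℝ) ^ u * X ^ u ≤ (u : ℝ) ^ u * (m.choose u : ℝ) := by
    rw [mul_comm]; exact h4
  exact le_of_mul_le_mul_left h6 h5

/-- the counting argument -/
theorem S1_count (N : ℕ) [NeZero N] (hN : N.Prime) (s : ℝ) (hs : s ^ 2 = 1) (T : Finset ℕ) (u : ℕ)
    (hT : ∀ p ∈ T, p.Prime ∧ p ≤ PP N) (hlt : (PP N) ^ u < N)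
    (hu : (u : ℝ) ≤ Real.log N) (hK : 0 < Real.log N) :
    ((Good N s).card : ℝ) * (81 / 100 * (T.card.choose u : ℝ) ^ 2) ≤
      ((N : ℝ) - 1) * (T.card.choose u : ℝ) := by
  classical
  set 𝒜 := T.powersetCard u with h𝒜
  set φ : Finset ℕ → ZMod N := fun A => ((∏ p ∈ A, p : ℕ) : ZMod N) with hφ
  have hcard : 𝒜.card = T.card.choose u := Finset.card_powersetCard u T
  have hmem : ∀ A ∈ 𝒜, A ⊆ T ∧ A.card = u := fun A hA => Finset.mem_powersetCard.1 hA
  have hprodlt : ∀ A ∈ 𝒜, ∏ p ∈ A, p < N := by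
    intro A hA
    obtain ⟨h1, h2⟩ := hmem A hA
    calc ∏ p ∈ A, p ≤ ∏ p ∈ A, PP N := Finset.prod_le_prod' fun p hp => (hT p (h1 hp)).2
      _ = (PP N) ^ u := by rw [Finset.prod_const, h2]
      _ < N := hlt
  have hprodpos : ∀ A ∈ 𝒜, 0 < ∏ p ∈ A, p := by
    intro A hA
    obtain ⟨h1, h2⟩ := hmem A hA
    exact Finset.prod_pos fun p hp => (hT p (h1 hp)).1.pos
  have hinj : Set.InjOn φ 𝒜 := by
    intro A hA B hB hAB
    have hA' := Finset.mem_coe.1 hA
    have hB' := Finset.mem_coe.1 hB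
    have h1 : (∏ p ∈ A, p) = ∏ p ∈ B, p := by
      have h2 : ((∏ p ∈ A, p : ℕ) : ZMod N) = ((∏ p ∈ B, p : ℕ) : ZMod N) := hAB
      rw [ZMod.natCast_eq_natCast_iff'] at h2
      rwa [Nat.mod_eq_of_lt (hprodlt A hA'), Nat.mod_eq_of_lt (hprodlt B hB')] at h2
    have hA1 := Nat.primeFactors_prod (fun p hp => (hT p ((hmem A hA').1 hp)).1)
    have hB1 := Nat.primeFactors_prod (fun p hp => (hT p ((hmem B hB').1 hp)).1)
    rw [← hA1, h1, hB1]
  have hne : ∀ A ∈ 𝒜, φ A ≠ 0 := by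
    intro A hA h0
    have h2 : ((∏ p ∈ A, p : ℕ) : ZMod N) = 0 := h0
    rw [ZMod.natCast_eq_zero_iff] at h2
    exact absurd (Nat.le_of_dvd (hprodpos A hA) h2) (not_le.2 (hprodlt A hA))
  set a : ZMod N → ℂ := fun x => if x ∈ 𝒜.image φ then 1 else 0 with ha
  have ha0 : a 0 = 0 := by
    rw [ha]
    simp only [Finset.mem_image]
    rw [if_neg]
    rintro ⟨A, hA, h⟩
    exact hne A hA h
  have hsum : ∀ χ : DirichletCharacter ℂ N, ∑ x : ZMod N, a x * χ x = ∑ A ∈ 𝒜, χ (φ A) := by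
    intro χ
    have h1 : ∑ x : ZMod N, a x * χ x = ∑ x ∈ 𝒜.image φ, χ x := by
      rw [ha]
      simp only [ite_mul, one_mul, zero_mul]
      rw [Finset.sum_ite_mem, Finset.univ_inter]
    rw [h1, Finset.sum_image hinj]
  have hnorm : ∑ x : ZMod N, ‖a x‖ ^ 2 = (T.card.choose u : ℝ) := by
    have h1 : ∀ x : ZMod N, ‖a x‖ ^ 2 = if x ∈ 𝒜.image φ then (1 : ℝ) else 0 := by
      intro x
      rw [ha]
      by_cases hx : x ∈ 𝒜.image φ
      · simp [hx]
      · simp [hx]
    rw [Finset.sum_congr rfl fun x _ => h1 x, Finset.sum_ite_mem, Finset.univ_inter,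
      Finset.sum_const, Finset.card_image_of_injOn hinj, hcard]
    simp
  have hFC := FC3 N hN a ha0
  rw [hnorm] at hFC
  have hs1 : ‖(s : ℂ)‖ = 1 := by
    rw [Complex.norm_real, Real.norm_eq_abs]
    have : |s| ^ 2 = 1 := by rw [sq_abs]; exact hs
    exact (pow_eq_one_iff_of_nonneg (abs_nonneg s) two_ne_zero).1 this
  have hgood : ∀ χ ∈ Good N s, 81 / 100 * (T.card.choose u : ℝ) ^ 2 ≤
      ‖∑ x : ZMod N, a x * χ x‖ ^ 2 := by
    intro χ hχ
    rw [hsum χ]
    have hχ' : ∀ p : ℕ, p.Prime → p ≤ PP N → ‖χ (p : ZMod N) - (s : ℂ)‖ ≤ 1 / (10 * Real.log N) := by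
      unfold Good at hχ
      exact (Finset.mem_filter.1 hχ).2
    have h1 : ∀ A ∈ 𝒜, ‖χ (φ A) - (s : ℂ) ^ u‖ ≤ 1 / 10 := by
      intro A hA
      obtain ⟨hA1, hA2⟩ := hmem A hA
      have h2 : χ (φ A) = ∏ p ∈ A, χ (p : ZMod N) := by
        rw [hφ]
        simp only [Nat.cast_prod, map_prod]
      rw [h2]
      have h3 := S1_tel A (fun p : ℕ => χ (p : ZMod N)) (s : ℂ) hs1 (1 / (10 * Real.log N))
        (fun p _ => DirichletCharacter.norm_le_one χ _)
        (fun p hp => hχ' p (hT p (hA1 hp)).1 (hT p (hA1 hp)).2)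
      rw [hA2] at h3
      refine h3.trans ?_
      rw [mul_one_div, div_le_div_iff₀ (by positivity) (by norm_num)]
      linarith
    have h4 : ‖∑ A ∈ 𝒜, χ (φ A) - ∑ A ∈ 𝒜, (s : ℂ) ^ u‖ ≤ (T.card.choose u : ℝ) * (1 / 10) := by
      rw [← Finset.sum_sub_distrib]
      refine (norm_sum_le _ _).trans ?_
      refine (Finset.sum_le_sum h1).trans ?_
      rw [Finset.sum_const, hcard, nsmul_eq_mul]
    have h5 : ‖∑ A ∈ 𝒜, (s : ℂ) ^ u‖ = (T.card.choose u : ℝ) := by
      rw [Finset.sum_const, hcard, nsmul_eq_mul, norm_mul, norm_pow, hs1, one_pow, mul_one]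
      simp
    have h6 : 9 / 10 * (T.card.choose u : ℝ) ≤ ‖∑ A ∈ 𝒜, χ (φ A)‖ := by
      have h7 := norm_sub_norm_le (∑ A ∈ 𝒜, (s : ℂ) ^ u) (∑ A ∈ 𝒜, χ (φ A))
      rw [norm_sub_rev] at h7
      rw [h5] at h7
      linarith
    have h8 : (0 : ℝ) ≤ T.card.choose u := by positivity
    calc 81 / 100 * (T.card.choose u : ℝ) ^ 2 = (9 / 10 * (T.card.choose u : ℝ)) ^ 2 := by ring
      _ ≤ ‖∑ A ∈ 𝒜, χ (φ A)‖ ^ 2 := pow_le_pow_left₀ (by positivity) h6 2
  calc ((Good N s).card : ℝ) * (81 / 100 * (T.card.choose u : ℝ) ^ 2)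
      = ∑ χ ∈ Good N s, 81 / 100 * (T.card.choose u : ℝ) ^ 2 := by
        rw [Finset.sum_const, nsmul_eq_mul]
    _ ≤ ∑ χ ∈ Good N s, ‖∑ x : ZMod N, a x * χ x‖ ^ 2 := Finset.sum_le_sum hgood
    _ ≤ ∑ χ : DirichletCharacter ℂ N, ‖∑ x : ZMod N, a x * χ x‖ ^ 2 :=
        Finset.sum_le_sum_of_subset_of_nonneg (Finset.subset_univ _) fun _ _ _ => by positivity
    _ = ((N : ℝ) - 1) * (T.card.choose u : ℝ) := hFC

/-- the analytic conditions on `K = log N` -/
theorem S1_large (L0 : ℕ) : ∃ K0 : ℝ, ∀ K : ℝ, K0 ≤ K → 8 ≤ K ∧ 3 * (L0 : ℝ) ≤ K ∧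
    48000 * Real.log K ≤ Real.sqrt K ∧ 4000 * Real.log K + 1 ≤ K / 8000 := by
  have h1 : ∀ᶠ K : ℝ in Filter.atTop, 48000 * Real.log K ≤ Real.sqrt K := by
    have := (isLittleO_log_rpow_atTop (r := 1 / 2) (by norm_num)).def
      (show (0 : ℝ) < 1 / 48000 by norm_num)
    filter_upwards [this, Filter.eventually_ge_atTop (1 : ℝ)] with K hK hK1
    rw [Real.norm_of_nonneg (Real.log_nonneg hK1), Real.norm_of_nonneg (by positivity)] at hK
    rw [Real.sqrt_eq_rpow]
    linarith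
  have h2 : ∀ᶠ K : ℝ in Filter.atTop, 4000 * Real.log K + 1 ≤ K / 8000 := by
    have := (isLittleO_log_rpow_atTop (r := 1) (by norm_num)).def
      (show (0 : ℝ) < 1 / 64000000 by norm_num)
    filter_upwards [this, Filter.eventually_ge_atTop (16000 : ℝ)] with K hK hK1
    rw [Real.norm_of_nonneg (Real.log_nonneg (by linarith)), Real.norm_of_nonneg (by positivity),
      Real.rpow_one] at hK
    linarith
  have h3 : ∀ᶠ K : ℝ in Filter.atTop, 8 ≤ K ∧ 3 * (L0 : ℝ) ≤ K ∧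
      48000 * Real.log K ≤ Real.sqrt K ∧ 4000 * Real.log K + 1 ≤ K / 8000 := by
    filter_upwards [h1, h2, Filter.eventually_ge_atTop (8 : ℝ),
      Filter.eventually_ge_atTop (3 * (L0 : ℝ))] with K a b c d
    exact ⟨c, d, a, b⟩
  exact Filter.eventually_atTop.1 h3

theorem S1 : ∃ N0 : ℕ, ∀ (N : ℕ) [NeZero N], N0 ≤ N → N.Prime → ∀ s : ℝ, s ^ 2 = 1 →
    ((Good N s).card : ℝ) ≤ (N : ℝ) ^ (kap / 2) := by
  obtain ⟨L0, hL0⟩ := PCa
  obtain ⟨K0, hK0⟩ := S1_large L0
  have hlim : Filter.Tendsto (fun n : ℕ => Real.log (n : ℝ)) Filter.atTop Filter.atTop :=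
    Real.tendsto_log_atTop.comp tendsto_natCast_atTop_atTop
  obtain ⟨N0, hN0⟩ := Filter.eventually_atTop.1 (hlim.eventually_ge_atTop K0)
  refine ⟨N0, fun N _ hN hNp s hs => ?_⟩
  obtain ⟨hK8, hKL, hsq, hlin⟩ := hK0 _ (hN0 N hN)
  set K := Real.log (N : ℝ) with hK
  have hKpos : 0 < K := by linarith
  have hNpos : (0 : ℝ) < N := by exact_mod_cast hNp.pos
  have hlogK : 1 ≤ Real.log K := by
    rw [Real.le_log_iff_exp_le hKpos]
    have := Real.exp_one_lt_d9
    linarith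
  -- the size of `P`
  have hPle : ((PP N : ℕ) : ℝ) ≤ K ^ 4000 := by
    unfold PP
    exact Nat.floor_le (by positivity)
  have hPge : K ^ 4000 - 1 < ((PP N : ℕ) : ℝ) := by
    unfold PP
    exact Nat.sub_one_lt_floor _
  have hKpow : K ≤ K ^ 4000 := le_self_pow₀ (by linarith) (by norm_num)
  have hPbig : (7 : ℝ) < (PP N : ℕ) := by linarith
  have hlogP : Real.log (PP N : ℕ) ≤ 4000 * Real.log K := by
    have := Real.log_le_log (by linarith) hPle
    rwa [Real.log_pow] at this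
  have hlogP1 : 1 ≤ Real.log (PP N : ℕ) := by
    rw [Real.le_log_iff_exp_le (by linarith)]
    have := Real.exp_one_lt_d9
    linarith
  -- the block
  set L := PP N / 2 with hL
  have hL2 : 2 * L ≤ PP N := Nat.mul_div_le _ _
  have hL3 : PP N ≤ 2 * L + 1 := by omega
  have hL3' : ((PP N : ℕ) : ℝ) ≤ 2 * (L : ℝ) + 1 := by exact_mod_cast hL3
  have hL2' : 2 * (L : ℝ) ≤ ((PP N : ℕ) : ℝ) := by exact_mod_cast hL2
  have hLge : K ^ 4000 / 3 ≤ (L : ℝ) := by linarith
  have hLL0 : L0 ≤ L := by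
    have : (L0 : ℝ) ≤ L := by linarith
    exact_mod_cast this
  have hLpos : (1 : ℝ) < L := by linarith
  obtain ⟨hm, _⟩ := hL0 L hLL0
  have hlogL : 0 < Real.log L := Real.log_pos hLpos
  have hlogL2 : Real.log L ≤ 4000 * Real.log K := by
    refine le_trans (Real.log_le_log (by linarith) (by linarith)) hlogP
  set m := (Bl L).card with hmdef
  have hm2 : K ^ 4000 / (24000 * Real.log K) ≤ (m : ℝ) := by
    refine le_trans ?_ hm
    rw [div_le_div_iff₀ (by positivity) (by positivity)]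
    have hA : K ^ 4000 * (2 * Real.log L) ≤ K ^ 4000 * (8000 * Real.log K) :=
      mul_le_mul_of_nonneg_left (by linarith) (by positivity)
    have hB : K ^ 4000 / 3 * (24000 * Real.log K) ≤ (L : ℝ) * (24000 * Real.log K) :=
      mul_le_mul_of_nonneg_right hLge (by positivity)
    linarith
  -- the number `u`
  set u := ⌈K / Real.log (PP N : ℕ)⌉₊ - 1 with hu
  have hcpos : 0 < ⌈K / Real.log (PP N : ℕ)⌉₊ := Nat.ceil_pos.2 (by positivity)
  have hucast : (u : ℝ) = (⌈K / Real.log (PP N : ℕ)⌉₊ : ℝ) - 1 := by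
    rw [hu, Nat.cast_sub (by omega)]; simp
  have hult : (u : ℝ) < K / Real.log (PP N : ℕ) := by
    have := Nat.ceil_lt_add_one (show 0 ≤ K / Real.log (PP N : ℕ) by positivity)
    linarith
  have huge : K / Real.log (PP N : ℕ) - 1 ≤ (u : ℝ) := by
    have := Nat.le_ceil (K / Real.log (PP N : ℕ))
    linarith
  have huK : (u : ℝ) ≤ K := by
    refine hult.le.trans ?_
    rw [div_le_iff₀ (by linarith)]
    nlinarith
  have hPu : (PP N) ^ u < N := by
    have h1 : Real.log (((PP N : ℕ) : ℝ) ^ u) < Real.log N := by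
      rw [Real.log_pow]
      rw [lt_div_iff₀ (by linarith)] at hult
      exact hult
    have h2 : ((PP N : ℕ) : ℝ) ^ u < N := (Real.log_lt_log_iff (by positivity) hNpos).1 h1
    exact_mod_cast h2
  -- counting
  have hcount := S1_count N hNp s hs (Bl L) u (fun p hp => by
    unfold Bl at hp
    rw [Finset.mem_filter, Finset.mem_Ioc] at hp
    exact ⟨hp.2, hp.1.2.trans hL2⟩) hPu huK hKpos
  rw [← hmdef] at hcount
  -- the binomial coefficient
  set X := K ^ 3998 * Real.sqrt K with hX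
  have hX0 : 0 < X := by positivity
  have hsq2 : Real.sqrt K * Real.sqrt K = K := Real.mul_self_sqrt hKpos.le
  have hsqpos : 0 < Real.sqrt K := Real.sqrt_pos.2 hKpos
  have hsq1 : 1 ≤ Real.sqrt K := by linarith
  have hXu : X * u + u ≤ (m : ℝ) := by
    have h1 : 2 * (K ^ 3999 * Real.sqrt K) ≤ K ^ 4000 / (24000 * Real.log K) := by
      rw [le_div_iff₀ (by positivity)]
      have h2 : K ^ 4000 = K ^ 3999 * Real.sqrt K * Real.sqrt K := by
        rw [mul_assoc, hsq2, ← pow_succ]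
      rw [h2]
      have h3 : 0 < K ^ 3999 * Real.sqrt K := by positivity
      nlinarith
    have h4 : X * u ≤ K ^ 3999 * Real.sqrt K := by
      have : K ^ 3999 * Real.sqrt K = X * K := by rw [hX]; ring
      rw [this]
      exact mul_le_mul_of_nonneg_left huK hX0.le
    have h5 : (u : ℝ) ≤ K ^ 3999 * Real.sqrt K := by
      have h6 : K ≤ K ^ 3999 := le_self_pow₀ (by linarith) (by norm_num)
      have h7 : K ^ 3999 * 1 ≤ K ^ 3999 * Real.sqrt K :=
        mul_le_mul_of_nonneg_left hsq1 (by positivity)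
      linarith
    linarith
  have hch := S1_choose m u X hX0.le hXu
  set C := (m.choose u : ℝ) with hC
  have hCpos : 0 < C := lt_of_lt_of_le (by positivity) hch
  -- the logarithm of the binomial coefficient
  have hlogX : Real.log X = (3998 + 1 / 2) * Real.log K := by
    rw [hX, Real.log_mul (by positivity) (by positivity), Real.log_pow, Real.log_sqrt hKpos.le]
    push_cast
    ring
  have hlogC : (u : ℝ) * ((3998 + 1 / 2) * Real.log K) ≤ Real.log C := by
    have := Real.log_le_log (by positivity) hch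
    rwa [Real.log_pow, hlogX] at this
  have hlogC2 : K * (3998 + 1 / 2) / 4000 - (3998 + 1 / 2) * Real.log K ≤ Real.log C := by
    refine le_trans ?_ hlogC
    have h1 : K / (4000 * Real.log K) - 1 ≤ (u : ℝ) := by
      refine le_trans ?_ huge
      have := div_le_div_of_nonneg_left hKpos.le (by linarith) hlogP
      linarith
    have h2 : (K / (4000 * Real.log K) - 1) * ((3998 + 1 / 2) * Real.log K) ≤
        (u : ℝ) * ((3998 + 1 / 2) * Real.log K) :=
      mul_le_mul_of_nonneg_right h1 (by positivity)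
    refine le_trans (le_of_eq ?_) h2
    field_simp
  have hlogC3 : Real.log (100 / 81) + K * (1 - kap / 2) ≤ Real.log C := by
    have h1 : Real.log (100 / 81) ≤ 1 := by
      have := Real.log_le_sub_one_of_pos (show (0 : ℝ) < 100 / 81 by norm_num)
      linarith
    unfold kap
    linarith
  have hCge : 100 / 81 * (N : ℝ) ^ (1 - kap / 2) ≤ C := by
    rw [← Real.log_le_log_iff (by positivity) hCpos, Real.log_mul (by norm_num) (by positivity),
      Real.log_rpow hNpos]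
    linarith
  have hfin : ((Good N s).card : ℝ) * (81 / 100 * C) ≤ N := by
    have h1 : ((Good N s).card : ℝ) * (81 / 100 * C) * C ≤ ((N : ℝ) - 1) * C := by
      have : ((Good N s).card : ℝ) * (81 / 100 * C) * C =
        ((Good N s).card : ℝ) * (81 / 100 * C ^ 2) := by ring
      rw [this]
      exact hcount
    have h2 := le_of_mul_le_mul_right h1 hCpos
    linarith
  have h3 : ((Good N s).card : ℝ) * (N : ℝ) ^ (1 - kap / 2) ≤ N := by
    refine le_trans ?_ hfin
    apply mul_le_mul_of_nonneg_left _ (by positivity)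
    linarith
  have h4 : (N : ℝ) = (N : ℝ) ^ (kap / 2) * (N : ℝ) ^ (1 - kap / 2) := by
    rw [← Real.rpow_add hNpos]
    simp
  have h5 : (0 : ℝ) < (N : ℝ) ^ (1 - kap / 2) := by positivity
  have h6 : ((Good N s).card : ℝ) * (N : ℝ) ^ (1 - kap / 2) ≤
      (N : ℝ) ^ (kap / 2) * (N : ℝ) ^ (1 - kap / 2) := by
    rw [← h4]; exact h3
  exact le_of_mul_le_mul_right h6 h5

end Pool.Agent.Lib.MP_7b7e48_nt.LG
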