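import Pool.Agent.Lib.MP_7b7e48_nt.LG.Defs
import Pool.Agent.Lib.MP_7b7e48_nt.LG.FC

/-!
# Module S2 (45 minutes): the contribution of the bad characters

PROOF. For a prime `p ≤ PP N < N`, `FC4` gives `(N-1) ∑_χ ‖bc‖² ‖χ p - s‖² ≤ δ`. If `χ ∉ Good N s` there is a
prime `p ≤ PP N` with `‖χ p - s‖ > 1/(10 log N)`, so `1 ≤ ∑_p (10 log N)^2 ‖χ p - s‖²`. Sum over `χ`. The
second statement: `F - GG F s` is the sum over the remaining characters (`FC1`), then `FC2`.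
-/

open Finset
open Pool.Agent.Lib.MP_45349e_nt.LS (lam)

namespace Pool.Agent.Lib.MP_7b7e48_nt.LG

private theorem S2_log3 : (1.09 : ℝ) ≤ Real.log 3 := by
  have h1 : Real.exp 1 < 2.7182818286 := Real.exp_one_lt_d9
  have hpos : (0 : ℝ) < 3 / Real.exp 1 := by positivity
  have h2 := Real.one_sub_inv_le_log_of_pos hpos
  rw [Real.log_div (by norm_num) (Real.exp_pos 1).ne', Real.log_exp, inv_div] at h2
  have h3 : Real.exp 1 / 3 < 0.9061 := by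
    rw [div_lt_iff₀ (by norm_num)]
    linarith
  linarith

private theorem S2_two_le (N : ℕ) (h3 : 3 ≤ N) : 2 ≤ PP N := by
  unfold PP
  refine Nat.le_floor ?_
  have h3' : (3 : ℝ) ≤ N := by exact_mod_cast h3
  have h1 : (1.09 : ℝ) ≤ Real.log N := S2_log3.trans (Real.log_le_log (by norm_num) h3')
  have h2 : (2 : ℝ) ≤ (1.09 : ℝ) ^ 12 := by norm_num
  have h4 : (1.09 : ℝ) ^ 12 ≤ (1.09 : ℝ) ^ 4000 := pow_le_pow_right₀ (by norm_num) (by norm_num)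
  have h5 : (1.09 : ℝ) ^ 4000 ≤ (Real.log N) ^ 4000 := pow_le_pow_left₀ (by norm_num) h1 _
  have h6 : (2 : ℝ) ≤ (Real.log N) ^ 4000 := h2.trans (h4.trans h5)
  exact_mod_cast h6

theorem S2 (N : ℕ) [NeZero N] (hN : N.Prime) (h3 : 3 ≤ N) (hP : PP N < N) (s : ℝ) (F : ZMod N → ℝ)
    (h0 : F 0 = 0) (δ : ℝ) (hδ : ∀ p : ℕ, p.Prime → p ≤ PP N →
      ∑ x : ZMod N, (F ((p : ZMod N) * x) - s * F x) ^ 2 ≤ δ) :
    ((N : ℝ) - 1) * ∑ χ ∈ Finset.univ \ Good N s, ‖bc F χ‖ ^ 2 ≤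
      100 * (Real.log N) ^ 2 * PP N * δ := by
  classical
  have h3' : (3 : ℝ) ≤ N := by exact_mod_cast h3
  have hlog : 0 < Real.log N := Real.log_pos (by linarith)
  have hN1 : (0 : ℝ) ≤ (N : ℝ) - 1 := by linarith
  have hδ0 : 0 ≤ δ := by
    refine le_trans ?_ (hδ 2 Nat.prime_two (S2_two_le N h3))
    exact Finset.sum_nonneg fun x _ => sq_nonneg _
  set P : Finset ℕ := (Finset.range (PP N + 1)).filter Nat.Prime with hPdef
  have hPc : (P.card : ℝ) ≤ PP N := by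
    have h1 : P ⊆ Finset.Icc 1 (PP N) := by
      intro p hp
      rw [hPdef, Finset.mem_filter, Finset.mem_range] at hp
      exact Finset.mem_Icc.2 ⟨hp.2.one_lt.le, by omega⟩
    have h2 := Finset.card_le_card h1
    rw [Nat.card_Icc, Nat.add_sub_cancel] at h2
    exact_mod_cast h2
  have hone : ∀ p ∈ P, ((N : ℝ) - 1) * ∑ χ : DirichletCharacter ℂ N,
      ‖bc F χ‖ ^ 2 * ‖χ (p : ZMod N) - (s : ℂ)‖ ^ 2 ≤ δ := by
    intro p hp
    rw [hPdef, Finset.mem_filter, Finset.mem_range] at hp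
    have hk : (p : ZMod N) ≠ 0 := by
      intro h
      rw [ZMod.natCast_eq_zero_iff] at h
      have := Nat.le_of_dvd hp.2.pos h
      omega
    rw [← FC4 N hN F h0 s p hk]
    exact hδ p hp.2 (by omega)
  have hsum : ((N : ℝ) - 1) * ∑ χ : DirichletCharacter ℂ N,
      ‖bc F χ‖ ^ 2 * ∑ p ∈ P, ‖χ (p : ZMod N) - (s : ℂ)‖ ^ 2 ≤ PP N * δ := by
    have h1 : ∑ χ : DirichletCharacter ℂ N, ‖bc F χ‖ ^ 2 * ∑ p ∈ P, ‖χ (p : ZMod N) - (s : ℂ)‖ ^ 2 =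
        ∑ p ∈ P, ∑ χ : DirichletCharacter ℂ N, ‖bc F χ‖ ^ 2 * ‖χ (p : ZMod N) - (s : ℂ)‖ ^ 2 := by
      rw [Finset.sum_comm]
      refine Finset.sum_congr rfl fun χ _ => ?_
      rw [Finset.mul_sum]
    rw [h1, Finset.mul_sum]
    refine (Finset.sum_le_sum hone).trans ?_
    rw [Finset.sum_const, nsmul_eq_mul]
    exact mul_le_mul_of_nonneg_right hPc hδ0
  have hbad : ∀ χ ∈ Finset.univ \ Good N s,
      1 ≤ 100 * (Real.log N) ^ 2 * ∑ p ∈ P, ‖χ (p : ZMod N) - (s : ℂ)‖ ^ 2 := by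
    intro χ hχ
    have h1 : ¬ ∀ p : ℕ, p.Prime → p ≤ PP N → ‖χ (p : ZMod N) - (s : ℂ)‖ ≤ 1 / (10 * Real.log N) := by
      intro h
      refine (Finset.mem_sdiff.1 hχ).2 ?_
      unfold Good
      exact Finset.mem_filter.2 ⟨Finset.mem_univ _, h⟩
    push Not at h1
    obtain ⟨p, hp, hpP, hlt⟩ := h1
    have h2 : ‖χ (p : ZMod N) - (s : ℂ)‖ ^ 2 ≤ ∑ p ∈ P, ‖χ (p : ZMod N) - (s : ℂ)‖ ^ 2 :=
      Finset.single_le_sum (f := fun p : ℕ => ‖χ (p : ZMod N) - (s : ℂ)‖ ^ 2)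
        (fun q _ => sq_nonneg _) (by
          rw [hPdef, Finset.mem_filter, Finset.mem_range]
          exact ⟨by omega, hp⟩)
    have h4 : (1 / (10 * Real.log N)) ^ 2 ≤ ‖χ (p : ZMod N) - (s : ℂ)‖ ^ 2 :=
      pow_le_pow_left₀ (by positivity) hlt.le 2
    have h5 : 100 * (Real.log N) ^ 2 * (1 / (10 * Real.log N)) ^ 2 = 1 := by
      field_simp
      norm_num
    rw [← h5]
    exact mul_le_mul_of_nonneg_left (h4.trans h2) (by positivity)
  calc ((N : ℝ) - 1) * ∑ χ ∈ Finset.univ \ Good N s, ‖bc F χ‖ ^ 2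
      ≤ ((N : ℝ) - 1) * ∑ χ ∈ Finset.univ \ Good N s, ‖bc F χ‖ ^ 2 *
          (100 * (Real.log N) ^ 2 * ∑ p ∈ P, ‖χ (p : ZMod N) - (s : ℂ)‖ ^ 2) := by
        refine mul_le_mul_of_nonneg_left (Finset.sum_le_sum fun χ hχ => ?_) hN1
        exact le_mul_of_one_le_right (sq_nonneg _) (hbad χ hχ)
    _ ≤ ((N : ℝ) - 1) * ∑ χ : DirichletCharacter ℂ N, ‖bc F χ‖ ^ 2 *
          (100 * (Real.log N) ^ 2 * ∑ p ∈ P, ‖χ (p : ZMod N) - (s : ℂ)‖ ^ 2) := by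
        refine mul_le_mul_of_nonneg_left ?_ hN1
        refine Finset.sum_le_sum_of_subset_of_nonneg (Finset.subset_univ _) fun χ _ _ => ?_
        have : 0 ≤ ∑ p ∈ P, ‖χ (p : ZMod N) - (s : ℂ)‖ ^ 2 := Finset.sum_nonneg fun _ _ => sq_nonneg _
        positivity
    _ = 100 * (Real.log N) ^ 2 * (((N : ℝ) - 1) * ∑ χ : DirichletCharacter ℂ N, ‖bc F χ‖ ^ 2 *
          ∑ p ∈ P, ‖χ (p : ZMod N) - (s : ℂ)‖ ^ 2) := by
        rw [mul_left_comm, Finset.mul_sum (a := 100 * (Real.log N) ^ 2)]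
        congr 1
        refine Finset.sum_congr rfl fun χ _ => ?_
        ring
    _ ≤ 100 * (Real.log N) ^ 2 * (PP N * δ) := mul_le_mul_of_nonneg_left hsum (by positivity)
    _ = 100 * (Real.log N) ^ 2 * PP N * δ := by ring

theorem S2' (N : ℕ) [NeZero N] (hN : N.Prime) (s : ℝ) (F : ZMod N → ℝ) (h0 : F 0 = 0) :
    ∑ x : ZMod N, ‖(F x : ℂ) - GG F s x‖ ^ 2 =
      ((N : ℝ) - 1) * ∑ χ ∈ Finset.univ \ Good N s, ‖bc F χ‖ ^ 2 := by
  classical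
  have h := FC2 N hN (fun χ => if χ ∈ Good N s then 0 else bc F χ)
  have e1 : ∀ x : ZMod N, (F x : ℂ) - GG F s x =
      ∑ χ : DirichletCharacter ℂ N, (if χ ∈ Good N s then 0 else bc F χ) * χ x := by
    intro x
    rw [FC1 N hN F h0 x]
    unfold GG
    have e2 : ∑ χ ∈ Good N s, bc F χ * χ x =
        ∑ χ : DirichletCharacter ℂ N, if χ ∈ Good N s then bc F χ * χ x else 0 := by
      rw [Finset.sum_ite_mem, Finset.univ_inter]
    rw [e2, ← Finset.sum_sub_distrib]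
    refine Finset.sum_congr rfl fun χ _ => ?_
    by_cases hχ : χ ∈ Good N s
    · rw [if_pos hχ, if_pos hχ, sub_self, zero_mul]
    · rw [if_neg hχ, if_neg hχ, sub_zero]
  simp only [e1]
  rw [h]
  congr 1
  have e3 : (Finset.univ \ Good N s) = Finset.univ.filter fun χ => χ ∉ Good N s := by
    ext χ
    simp
  rw [e3, Finset.sum_filter]
  refine Finset.sum_congr rfl fun χ _ => ?_
  by_cases hχ : χ ∈ Good N s
  · rw [if_pos hχ, if_neg (not_not.2 hχ), norm_zero]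
    norm_num
  · rw [if_neg hχ, if_pos hχ]

end Pool.Agent.Lib.MP_7b7e48_nt.LG
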