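import Pool.Agent.Lib.MP_7b7e48_nt.LG.SAbad
import Pool.Agent.Lib.MP_7b7e48_nt.LG.S1
import Pool.Agent.Lib.MP_7b7e48_nt.LG.S2
import Pool.Agent.Lib.MP_7b7e48_nt.LG.Dyadic

/-!
# Module SA: the average of `Bad` over the spectral measure

See `SAenv` (fine primes, the chain) and `SAbad` (the sum over all primes); here only the numerical
facts are collected.
-/

set_option autoImplicit false

open Finset Filter

namespace Pool.Agent.Lib.MP_7b7e48_nt.LG

theorem sa_tend : Tendsto (fun N : ℕ => Real.log N) atTop atTop :=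
  Real.tendsto_log_atTop.comp (tendsto_natCast_atTop_atTop (R := ℝ))

/-- `10 log N ≤ N^(kap/2)` for large `N`. -/
theorem sa_num1 : ∀ᶠ N : ℕ in atTop, 10 * Real.log N ≤ (N : ℝ) ^ (kap / 2) := by
  have hk : (0 : ℝ) < kap / 2 := by
    unfold kap
    norm_num
  have h1 := (isLittleO_log_rpow_atTop hk).bound (c := 1 / 10) (by norm_num)
  have h2 := (tendsto_natCast_atTop_atTop (R := ℝ)).eventually h1
  filter_upwards [h2, eventually_ge_atTop 1] with N hN hN1
  have h3 : (1 : ℝ) ≤ N := by exact_mod_cast hN1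
  rw [Real.norm_of_nonneg (Real.log_nonneg h3), Real.norm_of_nonneg (by positivity)] at hN
  linarith

/-- `PP N` is small. -/
theorem sa_num2 : ∀ᶠ N : ℕ in atTop, PP N < N := by
  have h1 : ∀ᶠ K : ℝ in atTop, K ^ 4000 ≤ 1 / 2 * Real.exp K := by
    have h2 := (Real.isLittleO_pow_exp_atTop (n := 4000)).bound (c := 1 / 2) (by norm_num)
    filter_upwards [h2, eventually_ge_atTop (0 : ℝ)] with K hK hK0
    rw [Real.norm_of_nonneg (pow_nonneg hK0 _), Real.norm_of_nonneg (Real.exp_pos K).le] at hK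
    exact hK
  filter_upwards [sa_tend.eventually h1, eventually_ge_atTop 1] with N hN hN1
  have h3 : (0 : ℝ) < N := by exact_mod_cast hN1
  rw [Real.exp_log h3] at hN
  unfold PP
  have h4 : 0 ≤ (Real.log N) ^ 4000 := pow_nonneg (Real.log_natCast_nonneg N) _
  have h5 : ((⌊(Real.log N) ^ 4000⌋₊ : ℕ) : ℝ) < N := by
    refine lt_of_le_of_lt ((Nat.floor_le h4).trans hN) ?_
    linarith
  exact_mod_cast h5

/-- `PP N` is large. -/
theorem sa_num3 (M : ℕ) : ∀ᶠ N : ℕ in atTop, M ≤ PP N := by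
  have h1 : Tendsto (fun N : ℕ => (Real.log N) ^ 4000) atTop atTop :=
    (tendsto_pow_atTop (by norm_num)).comp sa_tend
  have h2 : Tendsto (fun N : ℕ => PP N) atTop atTop :=
    tendsto_nat_floor_atTop.comp h1
  exact h2.eventually (eventually_ge_atTop M)

theorem sa_TT {N : ℕ} (hN : 1 ≤ N) : TT N ≤ N := by
  unfold TT kap
  have h1 : (1 : ℝ) ≤ N := by exact_mod_cast hN
  have h2 : (N : ℝ) ^ (1 / 2 - 1 / 1000 : ℝ) ≤ (N : ℝ) ^ (1 : ℝ) :=
    Real.rpow_le_rpow_of_exponent_le h1 (by norm_num)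
  rw [Real.rpow_one] at h2
  linarith

/-- The condition for the comparison. -/
theorem sa_hX {N : ℕ} (hN : 10 ^ 6 ≤ N) (h10 : 10 * Real.log N ≤ (N : ℝ) ^ (kap / 2)) (g : ℝ)
    (hg : g ≤ (N : ℝ) ^ (kap / 2)) (L : ℕ) (hL : 1 ≤ L) (hLT : (L : ℝ) ≤ TT N / 2) :
    g * (4 * Real.sqrt N * Real.log N) ≤ (((N - 1) / (4 * L) : ℕ) : ℝ) / 2 ∧
    (N : ℝ) - 1 ≤ 5 * L * (((N - 1) / (4 * L) : ℕ) : ℝ) := by
  have hNr : (10 : ℝ) ^ 6 ≤ N := by exact_mod_cast hN
  have hNpos : (0 : ℝ) < N := by linarith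
  have hN1 : (1 : ℝ) ≤ N := by linarith
  have hLr : (1 : ℝ) ≤ L := by exact_mod_cast hL
  set X : ℕ := (N - 1) / (4 * L) with hX
  have h1 : (N : ℝ) - 4 * L ≤ 4 * L * X := by
    have h2 : N - 1 < (4 * L) * (X + 1) := by
      have := Nat.lt_mul_div_succ (N - 1) (show 0 < 4 * L by omega)
      exact this
    have h3 : N ≤ (4 * L) * (X + 1) := by omega
    have h4 : (N : ℝ) ≤ (4 * L) * (X + 1) := by exact_mod_cast h3
    linarith
  have hT : 4 * (L : ℝ) ≤ (N : ℝ) ^ (1 / 2 - kap) := by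
    unfold TT at hLT
    linarith
  have hsmall : (N : ℝ) ^ (1 / 2 - kap) ≤ N / 5 := by
    have h2 : (N : ℝ) ^ (1 / 2 - kap) ≤ (N : ℝ) ^ (1 / 2 : ℝ) := by
      apply Real.rpow_le_rpow_of_exponent_le hN1
      unfold kap
      norm_num
    rw [← Real.sqrt_eq_rpow] at h2
    have h3 : Real.sqrt N ≤ N / 5 := by
      rw [Real.sqrt_le_left (by positivity)]
      nlinarith
    linarith
  have h5 : (N : ℝ) ≤ 5 * L * X := by nlinarith
  refine ⟨?_, by linarith⟩
  -- lower bound for `X`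
  have h6 : (4 / 5 : ℝ) * (N : ℝ) ^ (1 / 2 + kap) ≤ X := by
    have h7 : (4 / 5 : ℝ) * N ≤ (N : ℝ) ^ (1 / 2 - kap) * X := by
      have h8 : (4 : ℝ) * L * X ≤ (N : ℝ) ^ (1 / 2 - kap) * X := by
        gcongr
      nlinarith
    have h8 : (N : ℝ) = (N : ℝ) ^ (1 / 2 - kap) * (N : ℝ) ^ (1 / 2 + kap) := by
      rw [← Real.rpow_add hNpos]
      have : (1 / 2 - kap + (1 / 2 + kap) : ℝ) = 1 := by ring
      rw [this, Real.rpow_one]
    have h9 : (N : ℝ) ^ (1 / 2 - kap) * ((4 / 5 : ℝ) * (N : ℝ) ^ (1 / 2 + kap)) ≤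
        (N : ℝ) ^ (1 / 2 - kap) * X := by
      calc (N : ℝ) ^ (1 / 2 - kap) * ((4 / 5 : ℝ) * (N : ℝ) ^ (1 / 2 + kap)) =
          (4 / 5 : ℝ) * ((N : ℝ) ^ (1 / 2 - kap) * (N : ℝ) ^ (1 / 2 + kap)) := by ring
        _ = (4 / 5 : ℝ) * N := by rw [← h8]
        _ ≤ _ := h7
    exact le_of_mul_le_mul_left h9 (by positivity)
  have h7 : (N : ℝ) ^ (1 / 2 + kap) =
      (N : ℝ) ^ (kap / 2) * (N : ℝ) ^ (kap / 2) * Real.sqrt N := by
    rw [Real.sqrt_eq_rpow, ← Real.rpow_add hNpos, ← Real.rpow_add hNpos]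
    congr 1
    ring
  have hlog : 0 ≤ Real.log N := Real.log_nonneg hN1
  have hs : 0 ≤ Real.sqrt N := Real.sqrt_nonneg _
  calc g * (4 * Real.sqrt N * Real.log N) ≤
      (N : ℝ) ^ (kap / 2) * (4 * Real.sqrt N * Real.log N) := by gcongr
    _ = (N : ℝ) ^ (kap / 2) * (4 / 10 * (10 * Real.log N)) * Real.sqrt N := by ring
    _ ≤ (N : ℝ) ^ (kap / 2) * (4 / 10 * (N : ℝ) ^ (kap / 2)) * Real.sqrt N := by gcongr
    _ = (4 / 5 : ℝ) * (N : ℝ) ^ (1 / 2 + kap) / 2 := by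
      rw [h7]
      ring
    _ ≤ X / 2 := by gcongr

theorem SA (A : ℕ) : ∃ B N0 : ℕ, ∀ (N : ℕ) [NeZero N], N0 ≤ N → N.Prime → ∀ s : ℝ, s ^ 2 = 1 →
    ∀ (F : ZMod N → ℝ) (Q : Finset ℕ), Hyp N s F Q B →
    ((N : ℝ) - 1) * ∑ χ ∈ Finset.univ \ Good N s, ‖bc F χ‖ ^ 2 ≤ nsq F / (Real.log N) ^ A ∧
    ((N : ℝ) - 1) * ∑ χ ∈ Good N s, ‖bc F χ‖ ^ 2 * Bad N s χ ≤ nsq F / (Real.log N) ^ A := by
  obtain ⟨N1, hS1⟩ := S1
  obtain ⟨M, hM2, hM⟩ := dy_lower
  have hev := (sa_num1.and (sa_num2.and ((sa_num3 (2 * M + 8)).and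
    ((sa_tend.eventually (eventually_ge_atTop 100)).and
    ((eventually_ge_atTop (10 ^ 6)).and (eventually_ge_atTop N1))))))
  obtain ⟨N0, hN0⟩ := eventually_atTop.mp hev
  set a : ℕ := A + 4 with ha
  set B : ℕ := a + A + 4012 with hB
  refine ⟨B, N0, ?_⟩
  intro N _ hN hp s hs F Q hyp
  obtain ⟨h10, hPN, hPM, hK100, hN6, hNN1⟩ := hN0 N hN
  have hK : (0 : ℝ) < Real.log N := by linarith
  have hS : 0 < nsq F := hyp.pos
  set K : ℝ := Real.log N with hKdef
  set S : ℝ := nsq F with hSdef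
  have hPPpos : (0 : ℝ) < PP N := by
    have : 0 < PP N := by omega
    exact_mod_cast this
  have hPPle : (PP N : ℝ) ≤ K ^ 4000 := by
    unfold PP
    exact Nat.floor_le (by positivity)
  set D : ℝ := 100 * K ^ 2 * PP N * (S / K ^ B) with hD
  have hDpos : 0 < D := by positivity
  have hs2 := S2 N hp (by omega) hPN s F hyp.zero (S / K ^ B) hyp.inv
  have hs2' := S2' N hp s F hyp.zero
  set L₀ : ℕ := PP N / 2 with hL₀
  set τ : ℝ := K ^ a * D with hτ
  have E : Env N s F Q B a D τ L₀ :=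
    { prime := hp
      three := by omega
      sq := hs
      hyp := hyp
      K100 := hK100
      Dpos := hDpos
      hD := by
        rw [hs2']
        exact hs2
      hτ := rfl
      ha := by omega
      hB := by omega
      L3 := by omega
      LP := by omega
      PL := by omega
      hX := fun L hL hLT => sa_hX hN6 h10 _ (hS1 N hNN1 hp s hs) L (by omega) hLT
      hBl := fun L hL => hM L (by omega)
      hTN := sa_TT (by omega)
      PN := hPN }
  have hfin := E.final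
  rw [← hKdef, ← hSdef] at hfin
  -- numerical facts
  have hDle : D ≤ 100 * K ^ 4002 * (S / K ^ B) := by
    rw [hD]
    calc 100 * K ^ 2 * PP N * (S / K ^ B) ≤ 100 * K ^ 2 * K ^ 4000 * (S / K ^ B) := by gcongr
      _ = 100 * K ^ 4002 * (S / K ^ B) := by
        rw [mul_assoc (100 : ℝ) (K ^ 2) (K ^ 4000), ← pow_add]
  have hKB : K ^ B = K ^ a * K ^ A * (K ^ 4002 * K ^ 10) := by
    rw [hB, ← pow_add, ← pow_add, ← pow_add]
  have hKa : K ^ a = K ^ A * K ^ 4 := by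
    rw [ha, pow_add]
  have hK4 : (100 : ℝ) ^ 4 ≤ K ^ 4 := by gcongr
  have hDD : K ^ a * K ^ A * K ^ 10 * D ≤ 100 * S := by
    calc K ^ a * K ^ A * K ^ 10 * D ≤
        K ^ a * K ^ A * K ^ 10 * (100 * K ^ 4002 * (S / K ^ B)) := by gcongr
      _ = 100 * S := by
        rw [hKB]
        have e1 : K ^ a ≠ 0 := by positivity
        have e2 : K ^ A ≠ 0 := by positivity
        have e3 : K ^ 4002 ≠ 0 := by positivity
        have e4 : K ^ 10 ≠ 0 := by positivity
        generalize K ^ a = x1 at e1 ⊢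
        generalize K ^ A = x2 at e2 ⊢
        generalize K ^ 4002 = x3 at e3 ⊢
        generalize K ^ 10 = x4 at e4 ⊢
        field_simp
  have hKA : 0 < K ^ A := by positivity
  have hSB : K ^ A * K ^ 10 * (S / K ^ B) ≤ S := by
    have e1 : K ^ A * K ^ 10 * (S / K ^ B) = S * ((K ^ A * K ^ 10) / K ^ B) := by ring
    rw [e1]
    have e2 : (K ^ A * K ^ 10) / K ^ B ≤ 1 := by
      rw [div_le_one (by positivity), ← pow_add]
      exact pow_le_pow_right₀ (by linarith) (by omega)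
    calc S * ((K ^ A * K ^ 10) / K ^ B) ≤ S * 1 := by gcongr
      _ = S := mul_one S
  have hs3 : ((N : ℝ) - 1) * ∑ χ ∈ Finset.univ \ Good N s, ‖bc F χ‖ ^ 2 ≤ D := hs2
  clear hPPle hDle hKB E hs2' hs2
  clear_value D B a
  constructor
  · -- bad characters
    refine hs3.trans ?_
    rw [le_div_iff₀ hKA]
    have h1 : 1 ≤ K ^ a := one_le_pow₀ (by linarith)
    have h2 : (100 : ℝ) ≤ K ^ 10 := by
      calc (100 : ℝ) ≤ 100 ^ 10 := by norm_num
        _ ≤ K ^ 10 := by gcongr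
    have h3 : 1 * K ^ A * 100 * D ≤ K ^ a * K ^ A * K ^ 10 * D := by gcongr
    have h4 : D * K ^ A * 100 ≤ 100 * S := by
      calc D * K ^ A * 100 = 1 * K ^ A * 100 * D := by ring
        _ ≤ _ := h3
        _ ≤ _ := hDD
    linarith
  · refine hfin.trans ?_
    rw [le_div_iff₀ hKA]
    -- three terms
    have t1 : (1 + K) * (100 * K ^ 2 * (160 * K ^ 2 * τ)) * K ^ A ≤ S / 4 := by
      have h1 : (1 + K) * (100 * K ^ 2 * (160 * K ^ 2 * τ)) * K ^ A ≤
          (2 * K) * (100 * K ^ 2 * (160 * K ^ 2 * τ)) * K ^ A := by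
        gcongr
        linarith
      refine h1.trans ?_
      have h2 : (2 * K) * (100 * K ^ 2 * (160 * K ^ 2 * τ)) * K ^ A =
          32000 * K ^ 5 * (K ^ a * K ^ A * D) := by
        rw [hτ]
        ring
      rw [h2]
      have h3 : (32000 * K ^ 5 * (K ^ a * K ^ A * D)) * K ^ 5 ≤ (S / 4) * K ^ 5 := by
        have h4 : (32000 * K ^ 5 * (K ^ a * K ^ A * D)) * K ^ 5 =
            32000 * (K ^ a * K ^ A * K ^ 10 * D) := by ring
        rw [h4]
        have h5 : (100 : ℝ) ^ 5 ≤ K ^ 5 := by gcongr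
        have h6 := mul_le_mul_of_nonneg_left h5 (by positivity : 0 ≤ S / 4)
        calc 32000 * (K ^ a * K ^ A * K ^ 10 * D) ≤ 32000 * (100 * S) := by gcongr
          _ ≤ (S / 4) * K ^ 5 := by linarith
      exact le_of_mul_le_mul_right h3 (by positivity)
    have t2 : (1 + K) * (100 * K ^ 2 * (2 * K * (S / K ^ B))) * K ^ A ≤ S / 4 := by
      have h1 : (1 + K) * (100 * K ^ 2 * (2 * K * (S / K ^ B))) * K ^ A ≤
          (2 * K) * (100 * K ^ 2 * (2 * K * (S / K ^ B))) * K ^ A := by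
        gcongr
        linarith
      refine h1.trans ?_
      have h3 : ((2 * K) * (100 * K ^ 2 * (2 * K * (S / K ^ B))) * K ^ A) * K ^ 6 ≤
          (S / 4) * K ^ 6 := by
        have h4 : ((2 * K) * (100 * K ^ 2 * (2 * K * (S / K ^ B))) * K ^ A) * K ^ 6 =
            400 * (K ^ A * K ^ 10 * (S / K ^ B)) := by ring
        rw [h4]
        have h5 : (100 : ℝ) ^ 6 ≤ K ^ 6 := by gcongr
        have h6 := mul_le_mul_of_nonneg_left h5 (by positivity : 0 ≤ S / 4)
        calc 400 * (K ^ A * K ^ 10 * (S / K ^ B)) ≤ 400 * S := by gcongr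
          _ ≤ (S / 4) * K ^ 6 := by linarith
      exact le_of_mul_le_mul_right h3 (by positivity)
    have t3 : S / K ^ B * K ^ A ≤ S / 4 := by
      have h3 : (S / K ^ B * K ^ A) * K ^ 10 ≤ (S / 4) * K ^ 10 := by
        have h4 : (S / K ^ B * K ^ A) * K ^ 10 = K ^ A * K ^ 10 * (S / K ^ B) := by ring
        rw [h4]
        have h5 : (100 : ℝ) ^ 10 ≤ K ^ 10 := by gcongr
        have h6 := mul_le_mul_of_nonneg_left h5 (by positivity : 0 ≤ S / 4)
        refine hSB.trans ?_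
        linarith
      exact le_of_mul_le_mul_right h3 (by positivity)
    have t4 : S * K ^ 2 / K ^ a * K ^ A ≤ S / 4 := by
      have h1 : S * K ^ 2 / K ^ a * K ^ A = S * (1 / K ^ 2) := by
        rw [hKa]
        have e2 : K ^ A ≠ 0 := by positivity
        field_simp
      rw [h1]
      have h2 : 1 / K ^ 2 ≤ 1 / 4 := by
        apply one_div_le_one_div_of_le (by norm_num)
        have h5 : (100 : ℝ) ^ 2 ≤ K ^ 2 := by gcongr
        linarith
      calc S * (1 / K ^ 2) ≤ S * (1 / 4) := by gcongr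
        _ = S / 4 := by ring
    calc ((1 + K) * (100 * K ^ 2 * (160 * K ^ 2 * τ + 2 * K * (S / K ^ B))) + S / K ^ B +
        S * K ^ 2 / K ^ a) * K ^ A =
        (1 + K) * (100 * K ^ 2 * (160 * K ^ 2 * τ)) * K ^ A +
        (1 + K) * (100 * K ^ 2 * (2 * K * (S / K ^ B))) * K ^ A +
        S / K ^ B * K ^ A + S * K ^ 2 / K ^ a * K ^ A := by ring
      _ ≤ S := by linarith

end Pool.Agent.Lib.MP_7b7e48_nt.LG
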