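import Pool.Agent.Lib.MP_7b7e48_nt.LG.Defs

/-!
# Module UQ (30 minutes): there is one quadratic character modulo a prime

PROOF. `(ZMod N)ˣ` is cyclic, generated by `g` (`N` prime). `χ^2 = 1` gives `χ g = ±1`; if `χ g = 1` then
`χ = 1`; so `χ g = -1 = ψ g`, and `χ = ψ` (characters are determined by the value at `g`:
`MulChar.ext`, every unit is a power of `g`).
-/

open Finset

namespace Pool.Agent.Lib.MP_7b7e48_nt.LG

theorem UQ (N : ℕ) [NeZero N] (hN : N.Prime) (χ ψ : DirichletCharacter ℂ N) (h1 : χ ^ 2 = 1)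
    (h2 : χ ≠ 1) (h3 : ψ ^ 2 = 1) (h4 : ψ ≠ 1) : χ = ψ := by
  have := Fact.mk hN
  obtain ⟨g, hg⟩ := IsCyclic.exists_monoid_generator (α := (ZMod N)ˣ)
  have hpow : ∀ (φ : DirichletCharacter ℂ N) (k : ℕ),
      φ (((g ^ k : (ZMod N)ˣ)) : ZMod N) = (φ (g : ZMod N)) ^ k := by
    intro φ k
    rw [Units.val_pow_eq_pow_val, map_pow]
  have key : ∀ φ : DirichletCharacter ℂ N, φ ^ 2 = 1 → φ ≠ 1 → φ (g : ZMod N) = -1 := by
    intro φ e1 e2
    have h : (φ (g : ZMod N)) ^ 2 = 1 := by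
      rw [← MulChar.pow_apply_coe, e1, MulChar.one_apply_coe]
    rw [sq] at h
    rcases mul_self_eq_one_iff.mp h with h5 | h5
    · exfalso
      apply e2
      ext u
      obtain ⟨k, hk⟩ := hg u
      simp only at hk
      rw [← hk, hpow, h5, one_pow, MulChar.one_apply_coe]
    · exact h5
  ext u
  obtain ⟨k, hk⟩ := hg u
  simp only at hk
  rw [← hk, hpow, hpow, key χ h1 h2, key ψ h3 h4]

end Pool.Agent.Lib.MP_7b7e48_nt.LG
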