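import Pool.Agent.Lib.MP_7b7e48_nt.LG.Defs
import Pool.Agent.Lib.MP_7b7e48_nt.LG.SA
import Pool.Agent.Lib.MP_7b7e48_nt.LG.S7
import Pool.Agent.Lib.MP_7b7e48_nt.LG.UQ

/-!
# Module SPEC (45 minutes): the spectral theorem

PROOF. `SA` with `A + 2`. Let `T` be the set of the `χ ∈ Good N s` with `Bad N s χ ≤ 1/20`. Total mass
(`FC5`): `nsq F = (N-1) ∑_χ ‖bc‖²`. Outside `Good`: `≤ S/K^(A+2)`; in `Good` with `Bad > 1/20`:
`≤ 20 S/K^(A+2)`. By `S7` and `UQ` the set `T` has at most one element `χ`, and it is not empty because the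
rest has mass `< S`. So `(N-1)‖bc F χ‖² ≥ (1 - 21/K^(A+2)) S`, and `(N-1)‖bc F χ‖² Bad χ ≤ S/K^(A+2)`.
-/

open Finset Filter
open Pool.Agent.Lib.MP_45349e_nt.LS (lam)

namespace Pool.Agent.Lib.MP_7b7e48_nt.LG

theorem SPEC (A : ℕ) : ∃ B N0 : ℕ, ∀ (N : ℕ) [NeZero N], N0 ≤ N → N.Prime → ∀ s : ℝ,
    (s = 1 ∨ s = -1) → ∀ (F : ZMod N → ℝ) (Q : Finset ℕ), Hyp N s F Q B →
    ∃ χ ∈ Good N s, (s = 1 → χ = 1) ∧ (s = -1 → χ ^ 2 = 1 ∧ χ ≠ 1) ∧
      (1 - 1 / (Real.log N) ^ A) * nsq F ≤ ((N : ℝ) - 1) * ‖bc F χ‖ ^ 2 ∧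
      Bad N s χ ≤ 1 / (Real.log N) ^ A := by
  classical
  obtain ⟨B, N1, hSA⟩ := SA (A + 2)
  obtain ⟨N2, hS7⟩ := S7
  have hev := (sa_tend.eventually (eventually_ge_atTop 100)).and
    ((eventually_ge_atTop (max N1 N2)).and (eventually_ge_atTop 3))
  obtain ⟨N0, hN0⟩ := eventually_atTop.mp hev
  refine ⟨B, N0, ?_⟩
  intro N _ hN hp s hs F Q hyp
  obtain ⟨hK100, hNmax, hN3⟩ := hN0 N hN
  have hsq : s ^ 2 = 1 := by
    rcases hs with h | h <;> rw [h] <;> norm_num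
  obtain ⟨a1, a2⟩ := hSA N ((le_max_left _ _).trans hNmax) hp s hsq F Q hyp
  have hS : 0 < nsq F := hyp.pos
  have hN1 : (0 : ℝ) ≤ (N : ℝ) - 1 := by
    have h1 : (3 : ℝ) ≤ N := by exact_mod_cast hN3
    linarith
  set K : ℝ := Real.log N with hKdef
  have hK : 0 < K := by linarith
  set S : ℝ := nsq F with hSdef
  set W : DirichletCharacter ℂ N → ℝ := fun χ => ((N : ℝ) - 1) * ‖bc F χ‖ ^ 2 with hW
  have hW0 : ∀ χ, 0 ≤ W χ := fun χ => mul_nonneg hN1 (by positivity)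
  have htot : S = ∑ χ : DirichletCharacter ℂ N, W χ := by
    rw [hSdef, FC5 N hp F hyp.zero, mul_sum]
  have hbad0 : ∀ χ, 0 ≤ Bad N s χ := by
    intro χ
    unfold Bad
    exact sum_nonneg fun _ _ => by positivity
  have a1' : ∑ χ ∈ Finset.univ \ Good N s, W χ ≤ S / K ^ (A + 2) := by
    rw [hW]
    simp only
    rw [← mul_sum]
    exact a1
  have a2' : ∑ χ ∈ Good N s, W χ * Bad N s χ ≤ S / K ^ (A + 2) := by
    refine le_trans (le_of_eq ?_) a2
    rw [mul_sum]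
    refine sum_congr rfl fun χ _ => ?_
    simp only [hW]
    ring
  set T : Finset (DirichletCharacter ℂ N) := (Good N s).filter (fun χ => Bad N s χ ≤ 1 / 20)
    with hT
  set T' : Finset (DirichletCharacter ℂ N) := (Good N s).filter (fun χ => ¬ Bad N s χ ≤ 1 / 20)
    with hT'
  have hT'm : ∑ χ ∈ T', W χ ≤ 20 * (S / K ^ (A + 2)) := by
    have h1 : ∑ χ ∈ T', W χ ≤ 20 * ∑ χ ∈ Good N s, W χ * Bad N s χ := by
      rw [mul_sum]
      refine le_trans ?_ (sum_le_sum_of_subset_of_nonneg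
        (filter_subset (fun χ => ¬ Bad N s χ ≤ 1 / 20) (Good N s))
        (fun χ _ _ => mul_nonneg (by norm_num) (mul_nonneg (hW0 χ) (hbad0 χ))))
      refine sum_le_sum fun χ hχ => ?_
      have h2 := (mem_filter.mp hχ).2
      push Not at h2
      have h3 := hW0 χ
      nlinarith
    linarith
  have hsplit : S = ∑ χ ∈ T, W χ + ∑ χ ∈ T', W χ + ∑ χ ∈ Finset.univ \ Good N s, W χ := by
    rw [htot, hT, hT', sum_filter_add_sum_filter_not, add_comm]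
    exact (sum_sdiff (subset_univ (Good N s))).symm
  have hKA : 0 < K ^ A := by positivity
  have hpow : S / K ^ (A + 2) ≤ (S / K ^ A) / 10000 := by
    rw [pow_add, div_div, div_le_div_iff_of_pos_left hS (by positivity) (by positivity)]
    have h1 : (100 : ℝ) ^ 2 ≤ K ^ 2 := by gcongr
    have h2 : (10000 : ℝ) ≤ K ^ 2 := by linarith
    gcongr
  have hSK : S / K ^ A ≤ S := by
    apply div_le_self hS.le
    exact one_le_pow₀ (by linarith)
  have hSK0 : 0 < S / K ^ A := by positivity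
  have hTm : (1 - 1 / K ^ A) * S ≤ ∑ χ ∈ T, W χ ∧ S / 2 ≤ ∑ χ ∈ T, W χ := by
    have h1 : (1 - 1 / K ^ A) * S = S - S / K ^ A := by ring
    rw [h1]
    constructor <;> linarith
  -- uniqueness
  have huniq : ∀ χ ∈ T, ∀ ψ ∈ T, χ = ψ := by
    intro χ hχ ψ hψ
    obtain ⟨g1, b1⟩ := mem_filter.mp hχ
    obtain ⟨g2, b2⟩ := mem_filter.mp hψ
    obtain ⟨p1, m1⟩ := hS7 N ((le_max_right _ _).trans hNmax) hp s hs χ g1 b1
    obtain ⟨p2, m2⟩ := hS7 N ((le_max_right _ _).trans hNmax) hp s hs ψ g2 b2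
    rcases hs with h | h
    · rw [p1 h, p2 h]
    · exact UQ N hp χ ψ (m1 h).1 (m1 h).2 (m2 h).1 (m2 h).2
  have hne : T.Nonempty := by
    by_contra h
    rw [not_nonempty_iff_eq_empty] at h
    rw [h, sum_empty] at hTm
    linarith [hTm.2]
  obtain ⟨χ, hχ⟩ := hne
  have hTs : T = {χ} := by
    ext ψ
    rw [mem_singleton]
    exact ⟨fun h => huniq ψ h χ hχ, fun h => h ▸ hχ⟩
  rw [hTs, sum_singleton] at hTm
  obtain ⟨g1, b1⟩ := mem_filter.mp hχ
  obtain ⟨p1, m1⟩ := hS7 N ((le_max_right _ _).trans hNmax) hp s hs χ g1 b1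
  refine ⟨χ, g1, p1, m1, hTm.1, ?_⟩
  -- the bound for `Bad`
  have h1 : W χ * Bad N s χ ≤ S / K ^ (A + 2) := by
    refine le_trans ?_ a2'
    exact single_le_sum (f := fun χ => W χ * Bad N s χ)
      (fun ψ _ => mul_nonneg (hW0 ψ) (hbad0 ψ)) g1
  have h2 : S / 2 * Bad N s χ ≤ S / 2 * (1 / K ^ A) := by
    have h3 : S / 2 * Bad N s χ ≤ W χ * Bad N s χ := by
      gcongr
      · exact hbad0 χ
      · exact hTm.2
    have h4 : S / 2 * (1 / K ^ A) = (S / K ^ A) / 2 := by ring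
    rw [h4]
    linarith
  exact le_of_mul_le_mul_left h2 (by positivity)

end Pool.Agent.Lib.MP_7b7e48_nt.LG
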