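import Pool.Agent.Lib.MP_7b7e48_nt.LG.Defs
import Pool.Agent.Lib.MP_7b7e48_nt.LG.SPEC
import Pool.Agent.Lib.MP_7b7e48_nt.LG.G1
import Pool.Agent.Lib.MP_7b7e48_nt.LG.QCH
import Pool.Agent.Lib.MP_7b7e48_nt.LG.PC
import Pool.Agent.Lib.MP_45349e_nt.LS.LamB

/-!
# Module G2a (60 minutes): the Liouville function is a quadratic character, up to few exceptions

PROOF. `G1` and `SPEC` (`s = -1`, `F = fl N`, `Q = ∅`; `Hyp.loc` = complete multiplicativity, `lam l = -1`) give
`χ` with `χ^2 = 1`, `χ ≠ 1`, `‖bc F χ‖² ≥ 1 - 1/K^A'` (`nsq F = N - 1`), `Bad N (-1) χ ≤ 1/K^A'`. With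
`c n = Re χ n`: `bc F χ = (1/(N-1)) ∑_{0<n<N} lam n c n` is real, so up to at most `N/K^A'` of the `n` either
`lam n = c n` always or `lam n = - c n` always. The second is impossible: let `M = ⌊N^(1/3)/2⌋`... the primes
`l ∈ Bl M'`, `M' = ⌊N^(1/3)/4⌋`, with `c l = -1` are at least `M'/(4 log N)` many (`PCa`; the others are in
`Bad`: at most `2 M'/K^A'` of them); the products `n = l1 l2 l3 < N` satisfy `lam n = -1 = c n`, and there are at
least `(M'/(4 log N))^3/6 ≥ N/(10^5 K^3)` different ones (`≤ 6` representations each).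
-/

open Finset
open Pool.Agent.Lib.MP_45349e_nt.LS (lam)

namespace Pool.Agent.Lib.MP_7b7e48_nt.LG

private theorem G2a_reindex {β : Type*} [AddCommMonoid β] (N : ℕ) [hN : NeZero N]
    (f : ZMod N → β) : ∑ x : ZMod N, f x = ∑ n ∈ Finset.range N, f (n : ZMod N) := by
  refine Finset.sum_nbij' (fun x => x.val) (fun n => (n : ZMod N)) ?_ ?_ ?_ ?_ ?_
  · intro x _
    exact Finset.mem_range.mpr (ZMod.val_lt x)
  · intro n _
    exact Finset.mem_univ _
  · intro x _
    exact ZMod.natCast_zmod_val x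
  · intro n hn
    exact ZMod.val_cast_of_lt (Finset.mem_range.mp hn)
  · intro x _
    rw [ZMod.natCast_zmod_val x]

private theorem G2a_cast_ne {N : ℕ} [NeZero N] {n : ℕ} (h0 : 0 < n) (hn : n < N) :
    (n : ZMod N) ≠ 0 := by
  intro h
  have h1 := congrArg ZMod.val h
  rw [ZMod.val_cast_of_lt hn, ZMod.val_zero] at h1
  omega

private theorem G2a_fl {N : ℕ} [NeZero N] {n : ℕ} (h0 : 0 < n) (hn : n < N) :
    fl N (n : ZMod N) = lam n := by
  unfold fl
  rw [if_neg (G2a_cast_ne h0 hn), ZMod.val_cast_of_lt hn]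

private theorem G2a_lam (n : ℕ) : lam n = 1 ∨ lam n = -1 := by
  have := Pool.Agent.Lib.MP_45349e_nt.LS.abs_lam n
  rcases abs_cases (lam n) with h | h
  · left; linarith [h.1]
  · right; linarith [h.1]

private theorem G2a_fl0 (N : ℕ) [NeZero N] : fl N ((0 : ℕ) : ZMod N) = 0 := by
  unfold fl
  rw [Nat.cast_zero, if_pos rfl]

private theorem G2a_nsq (N : ℕ) [NeZero N] : nsq (fl N) = (N : ℝ) - 1 := by
  have hN : 0 < N := Nat.pos_of_ne_zero (NeZero.ne N)
  unfold nsq
  rw [G2a_reindex, Finset.sum_range_eq_add_Ico _ hN]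
  have h : ∀ n ∈ Finset.Ico 1 N, fl N (n : ZMod N) ^ 2 = 1 := by
    intro n hn
    rw [Finset.mem_Ico] at hn
    rw [G2a_fl (by omega) hn.2]
    rcases G2a_lam n with h | h <;> rw [h] <;> norm_num
  rw [Finset.sum_congr rfl h, G2a_fl0, Finset.sum_const, Nat.card_Ico, nsmul_eq_mul, Nat.cast_sub hN]
  norm_num

/-- the correlation of `lam` and a function with values `1` and `-1` -/
private theorem G2a_corr (c : ℕ → ℝ) (N : ℕ) (hN : 0 < N)
    (hc : ∀ n, 0 < n → n < N → c n = 1 ∨ c n = -1) :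
    ∑ n ∈ Finset.Ico 1 N, lam n * c n = (N : ℝ) - 1 - 2 * (DD N c).card ∧
    ∑ n ∈ Finset.Ico 1 N, lam n * c n =
      2 * (((Finset.Ico 1 N).filter (fun n => lam n = c n)).card : ℝ) - ((N : ℝ) - 1) := by
  classical
  have hD : DD N c = (Finset.Ico 1 N).filter (fun n => ¬ lam n = c n) := by
    ext n
    unfold DD
    rw [Finset.mem_filter, Finset.mem_filter, Finset.mem_range, Finset.mem_Ico]
    constructor
    · rintro ⟨h1, h2, h3⟩
      exact ⟨⟨h2, h1⟩, h3⟩
    · rintro ⟨⟨h2, h1⟩, h3⟩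
      exact ⟨h1, h2, h3⟩
  have hcard : ((Finset.Ico 1 N).filter (fun n => lam n = c n)).card + (DD N c).card = N - 1 := by
    rw [hD, Finset.card_filter_add_card_filter_not, Nat.card_Ico]
  have hcard' : (((Finset.Ico 1 N).filter (fun n => lam n = c n)).card : ℝ) + (DD N c).card =
      (N : ℝ) - 1 := by
    have := congrArg (Nat.cast : ℕ → ℝ) hcard
    rw [Nat.cast_add, Nat.cast_sub hN, Nat.cast_one] at this
    exact this
  have hs : ∑ n ∈ Finset.Ico 1 N, lam n * c n =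
      (((Finset.Ico 1 N).filter (fun n => lam n = c n)).card : ℝ) - (DD N c).card := by
    rw [← Finset.sum_filter_add_sum_filter_not (Finset.Ico 1 N) (fun n => lam n = c n), ← hD]
    have h1 : ∀ n ∈ (Finset.Ico 1 N).filter (fun n => lam n = c n), lam n * c n = 1 := by
      intro n hn
      rw [Finset.mem_filter] at hn
      rw [← hn.2]
      rcases G2a_lam n with h | h <;> rw [h] <;> norm_num
    have h2 : ∀ n ∈ DD N c, lam n * c n = -1 := by
      intro n hn
      rw [hD, Finset.mem_filter, Finset.mem_Ico] at hn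
      obtain ⟨⟨h3, h4⟩, h5⟩ := hn
      rcases G2a_lam n with h | h <;> rcases hc n (by omega) h4 with h' | h'
      · exact absurd (h.trans h'.symm) h5
      · rw [h, h']; norm_num
      · rw [h, h']; norm_num
      · exact absurd (h.trans h'.symm) h5
    rw [Finset.sum_congr rfl h1, Finset.sum_congr rfl h2, Finset.sum_const, Finset.sum_const]
    simp
    ring
  rw [hs]
  constructor <;> linarith

/-- products of three primes -/
private theorem G2a_prod (c : ℕ → ℝ) (hcm : ∀ m n, c (m * n) = c m * c n) (N M : ℕ)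
    (S : Finset ℕ) (hS : ∀ l ∈ S, l.Prime ∧ l ≤ 2 * M ∧ c l = -1) (h8 : 8 * M ^ 3 < N) :
    S.card ^ 3 ≤ 9 * ((Finset.Ico 1 N).filter (fun n => lam n = c n)).card := by
  classical
  set f : ℕ × ℕ × ℕ → ℕ := fun x => x.1 * x.2.1 * x.2.2 with hf
  have h1 : (S ×ˢ S ×ˢ S).card ≤ 9 * ((S ×ˢ S ×ˢ S).image f).card := by
    apply Finset.card_le_mul_card_image
    intro a ha
    rw [Finset.mem_image] at ha
    obtain ⟨⟨l1, l2, l3⟩, hl, rfl⟩ := ha
    rw [Finset.mem_product, Finset.mem_product] at hl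
    obtain ⟨hl1, hl2, hl3⟩ := hl
    have p1 := (hS _ hl1).1
    have p2 := (hS _ hl2).1
    have p3 := (hS _ hl3).1
    simp only at p1 p2 p3
    set a : ℕ := f (l1, l2, l3) with ha
    have haeq : a = l1 * l2 * l3 := rfl
    have hpf : a.primeFactors.card ≤ 3 := by
      rw [haeq, Nat.primeFactors_mul (mul_ne_zero p1.ne_zero p2.ne_zero) p3.ne_zero,
        Nat.primeFactors_mul p1.ne_zero p2.ne_zero, p1.primeFactors, p2.primeFactors,
        p3.primeFactors]
      refine (Finset.card_union_le _ _).trans ?_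
      have := Finset.card_union_le {l1} ({l2} : Finset ℕ)
      rw [Finset.card_singleton, Finset.card_singleton] at this
      rw [Finset.card_singleton]
      omega
    have hne : a ≠ 0 := by
      rw [haeq]
      exact mul_ne_zero (mul_ne_zero p1.ne_zero p2.ne_zero) p3.ne_zero
    calc ((S ×ˢ S ×ˢ S).filter (fun x => f x = a)).card ≤
        (a.primeFactors ×ˢ a.primeFactors).card := by
          apply Finset.card_le_card_of_injOn (fun x => (x.1, x.2.1))
          · rintro ⟨x1, x2, x3⟩ hx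
            rw [Finset.mem_coe, Finset.mem_filter, Finset.mem_product, Finset.mem_product] at hx
            obtain ⟨⟨hx1, hx2, hx3⟩, hxa⟩ := hx
            rw [Finset.mem_coe, Finset.mem_product]
            refine ⟨?_, ?_⟩
            · rw [Nat.mem_primeFactors]
              refine ⟨(hS _ hx1).1, ?_, hne⟩
              rw [← hxa]
              exact ⟨x2 * x3, by simp only [hf]; ring⟩
            · rw [Nat.mem_primeFactors]
              refine ⟨(hS _ hx2).1, ?_, hne⟩
              rw [← hxa]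
              exact ⟨x1 * x3, by simp only [hf]; ring⟩
          · rintro ⟨x1, x2, x3⟩ hx ⟨y1, y2, y3⟩ hy hxy
            rw [Finset.mem_coe, Finset.mem_filter, Finset.mem_product, Finset.mem_product] at hx hy
            obtain ⟨⟨hx1, hx2, hx3⟩, hxa⟩ := hx
            obtain ⟨⟨hy1, hy2, hy3⟩, hya⟩ := hy
            simp only [Prod.mk.injEq] at hxy ⊢
            obtain ⟨e1, e2⟩ := hxy
            refine ⟨e1, e2, ?_⟩
            have q1 := (hS _ hx1).1.pos
            have q2 := (hS _ hx2).1.pos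
            simp only at q1 q2
            have e3 : x1 * x2 * x3 = x1 * x2 * y3 := by
              have : x1 * x2 * x3 = y1 * y2 * y3 := hxa.trans hya.symm
              rw [this, e1, e2]
            exact Nat.eq_of_mul_eq_mul_left (Nat.mul_pos q1 q2) e3
      _ = a.primeFactors.card * a.primeFactors.card := Finset.card_product _ _
      _ ≤ 3 * 3 := Nat.mul_le_mul hpf hpf
      _ = 9 := by norm_num
  have h2 : (S ×ˢ S ×ˢ S).image f ⊆ (Finset.Ico 1 N).filter (fun n => lam n = c n) := by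
    intro a ha
    rw [Finset.mem_image] at ha
    obtain ⟨⟨l1, l2, l3⟩, hl, rfl⟩ := ha
    rw [Finset.mem_product, Finset.mem_product] at hl
    obtain ⟨hl1, hl2, hl3⟩ := hl
    obtain ⟨p1, b1, c1⟩ := hS _ hl1
    obtain ⟨p2, b2, c2⟩ := hS _ hl2
    obtain ⟨p3, b3, c3⟩ := hS _ hl3
    simp only at p1 p2 p3 b1 b2 b3 c1 c2 c3
    rw [Finset.mem_filter, Finset.mem_Ico]
    have hpos : 0 < l1 * l2 * l3 := Nat.mul_pos (Nat.mul_pos p1.pos p2.pos) p3.pos
    have hlt : l1 * l2 * l3 ≤ 8 * M ^ 3 := by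
      calc l1 * l2 * l3 ≤ (2 * M) * (2 * M) * (2 * M) :=
            Nat.mul_le_mul (Nat.mul_le_mul b1 b2) b3
        _ = 8 * M ^ 3 := by ring
    refine ⟨⟨hpos, lt_of_le_of_lt hlt h8⟩, ?_⟩
    simp only [hf]
    rw [hcm, hcm, c1, c2, c3, Pool.Agent.Lib.MP_45349e_nt.LS.lam_mul _ _
      (mul_ne_zero p1.ne_zero p2.ne_zero) p3.ne_zero,
      Pool.Agent.Lib.MP_45349e_nt.LS.lam_mul _ _ p1.ne_zero p2.ne_zero,
      Pool.Agent.Lib.MP_45349e_nt.LS.lam_prime _ p1,
      Pool.Agent.Lib.MP_45349e_nt.LS.lam_prime _ p2,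
      Pool.Agent.Lib.MP_45349e_nt.LS.lam_prime _ p3]
  have h3 : (S ×ˢ S ×ˢ S).card = S.card ^ 3 := by
    rw [Finset.card_product, Finset.card_product]
    ring
  rw [← h3]
  exact h1.trans (Nat.mul_le_mul_left 9 (Finset.card_le_card h2))

/-- numerics -/
private theorem G2a_num (L0 : ℕ) : ∃ N0 : ℕ, ∀ N : ℕ, N0 ≤ N → 1000000 ≤ Real.log N ∧
    (L0 : ℝ) ≤ (N : ℝ) ^ ((1 : ℝ) / 3) / 4 - 1 ∧
    (N : ℝ) ^ ((1 : ℝ) / 3) / 8 ≤ (N : ℝ) ^ ((1 : ℝ) / 3) / 4 - 1 ∧
    (N : ℝ) ^ ((1 : ℝ) / 3) / 2 ≤ TT N := by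
  have h1 : ∀ᶠ x : ℝ in Filter.atTop, 1000000 ≤ Real.log x :=
    Real.tendsto_log_atTop.eventually_ge_atTop 1000000
  have h2 : ∀ᶠ x : ℝ in Filter.atTop, 8 * (L0 + 1 : ℝ) ≤ x ^ ((1 : ℝ) / 3) :=
    (tendsto_rpow_atTop (by norm_num)).eventually_ge_atTop _
  have h3 := Filter.eventually_ge_atTop (1 : ℝ)
  obtain ⟨X, hX⟩ := Filter.eventually_atTop.mp (h1.and (h2.and h3))
  refine ⟨⌈X⌉₊, fun N hN => ?_⟩
  have hNX : X ≤ N := (Nat.le_ceil X).trans (by exact_mod_cast hN)
  obtain ⟨g1, g2, g3⟩ := hX N hNX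
  have h0 : (0 : ℝ) ≤ L0 := Nat.cast_nonneg _
  have g4 : (N : ℝ) ^ ((1 : ℝ) / 3) ≤ (N : ℝ) ^ (1 / 2 - kap) :=
    Real.rpow_le_rpow_of_exponent_le g3 (by norm_num [kap])
  unfold TT
  refine ⟨g1, ?_, ?_, ?_⟩ <;> linarith

/-- the second possibility does not occur -/
private theorem G2a_second : ∃ N0 : ℕ, ∀ (N : ℕ) [NeZero N], N0 ≤ N → N.Prime →
    ∀ χ : DirichletCharacter ℂ N, χ ^ 2 = 1 → χ ≠ 1 → Bad N (-1) χ ≤ 1 / (Real.log N) ^ 4 →
    ¬ (2 * (((Finset.Ico 1 N).filter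
      (fun n => lam n = (χ (n : ZMod N)).re)).card : ℝ) ≤ N / (Real.log N) ^ 4) := by
  classical
  obtain ⟨L0, hL0⟩ := PCa
  obtain ⟨N0, hN0⟩ := G2a_num (max L0 2)
  refine ⟨max 3 N0, fun N _ hN hp χ h1 h2 hB hcon => ?_⟩
  have hN3 : 3 ≤ N := (le_max_left _ _).trans hN
  obtain ⟨g1, g2, g3, g4⟩ := hN0 N ((le_max_right _ _).trans hN)
  have hNpos : (0 : ℝ) < N := by exact_mod_cast (by omega : 0 < N)
  set K : ℝ := Real.log N with hK
  have hKpos : 0 < K := by linarith
  have hqc := QCH N hp hN3 χ h1 h2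
  set c : ℕ → ℝ := fun n => (χ (n : ZMod N)).re with hc
  set W : ℝ := (N : ℝ) ^ ((1 : ℝ) / 3) with hW
  have hWpos : 0 < W := by positivity
  have hW3 : W ^ 3 = N := by
    rw [hW, ← Real.rpow_natCast, ← Real.rpow_mul hNpos.le]
    norm_num
  set M : ℕ := ⌊W / 4⌋₊ with hM
  have hM1 : W / 4 - 1 < M := by
    have := Nat.lt_floor_add_one (W / 4)
    linarith
  have hM2 : (M : ℝ) ≤ W / 4 := Nat.floor_le (by positivity)
  have hML : L0 ≤ M := by
    have : ((max L0 2 : ℕ) : ℝ) < M := by linarith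
    have h2 : max L0 2 < M := by exact_mod_cast this
    exact (le_max_left _ _).trans h2.le
  have hM2' : 2 ≤ M := by
    have : ((max L0 2 : ℕ) : ℝ) < M := by linarith
    have h2 : max L0 2 < M := by exact_mod_cast this
    exact (le_max_right _ _).trans h2.le
  have hMr : (2 : ℝ) ≤ M := by exact_mod_cast hM2'
  have h8 : 8 * M ^ 3 < N := by
    have : (8 : ℝ) * (M : ℝ) ^ 3 < N := by
      calc (8 : ℝ) * (M : ℝ) ^ 3 ≤ 8 * (W / 4) ^ 3 := by gcongr
        _ = (N : ℝ) / 8 := by rw [div_pow, hW3]; ring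
        _ < (N : ℝ) := by linarith
    exact_mod_cast this
  -- the number of primes with `c l = -1`
  set S : Finset ℕ := (Bl M).filter (fun l => c l = -1) with hS
  set S' : Finset ℕ := (Bl M).filter (fun l => ¬ c l = -1) with hS'
  have hSS : (S.card : ℝ) + S'.card = (Bl M).card := by
    rw [hS, hS']
    exact_mod_cast Finset.card_filter_add_card_filter_not (s := Bl M) (fun l => c l = -1)
  have hBl : (M : ℝ) / (2 * K) ≤ ((Bl M).card : ℝ) := by
    refine le_trans ?_ (hL0 M hML).1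
    have h3 : 0 < Real.log M := Real.log_pos (by linarith)
    have h4 : Real.log M ≤ K := by
      apply Real.log_le_log (by linarith)
      have : M ≤ N := by
        have : M ≤ M ^ 3 := Nat.le_self_pow (by norm_num) M
        omega
      exact_mod_cast this
    gcongr
  have hS'b : (S'.card : ℝ) ≤ 2 * M / K ^ 4 := by
    have h3 : (S'.card : ℝ) * (1 / (2 * M)) ≤ Bad N (-1) χ := by
      unfold Bad
      rw [← nsmul_eq_mul]
      have h4 : S' ⊆ (Finset.range (N + 1)).filter (fun l : ℕ => l.Prime ∧ (l : ℝ) ≤ TT N ∧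
          1 / (10 * Real.log N) < ‖χ (l : ZMod N) - (((-1 : ℝ)) : ℂ)‖) := by
        intro l hl
        rw [hS', Finset.mem_filter] at hl
        obtain ⟨hl1, hl2⟩ := hl
        unfold Bl at hl1
        rw [Finset.mem_filter, Finset.mem_Ioc] at hl1
        obtain ⟨⟨hl3, hl4⟩, hl5⟩ := hl1
        have hl6 : l ≤ N := by
          have : M ≤ M ^ 3 := Nat.le_self_pow (by norm_num) M
          omega
        have hl8 : (l : ℝ) ≤ 2 * M := by exact_mod_cast hl4
        rw [Finset.mem_filter, Finset.mem_range]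
        refine ⟨by omega, hl5, by linarith, ?_⟩
        have hl9 : ¬ N ∣ l := by
          intro h
          have : M ≤ M ^ 3 := Nat.le_self_pow (by norm_num) M
          have h7 : 1 ≤ M ^ 3 := Nat.one_le_pow _ _ (by omega)
          have := Nat.le_of_dvd hl5.pos h
          omega
        have hl7 : c l = 1 := by
          rcases hqc.val l hl9 with h | h
          · exact h
          · exact absurd h hl2
        have hl10 : χ (l : ZMod N) = 1 := by
          rw [QCHa N hp χ h1 l]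
          have : (χ (l : ZMod N)).re = 1 := hl7
          rw [this]
          norm_num
        rw [hl10]
        have : ‖(1 : ℂ) - ((-1 : ℝ) : ℂ)‖ = 2 := by
          push_cast
          norm_num
        rw [this, div_lt_iff₀ (by positivity)]
        linarith
      refine le_trans ?_ (Finset.sum_le_sum_of_subset_of_nonneg h4 fun i _ _ => by positivity)
      apply Finset.card_nsmul_le_sum
      intro l hl
      rw [hS', Finset.mem_filter] at hl
      obtain ⟨hl1, hl2⟩ := hl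
      unfold Bl at hl1
      rw [Finset.mem_filter, Finset.mem_Ioc] at hl1
      obtain ⟨⟨hl3, hl4⟩, hl5⟩ := hl1
      apply one_div_le_one_div_of_le
      · exact_mod_cast hl5.pos
      · exact_mod_cast hl4
    have h4 := h3.trans hB
    rw [mul_one_div, div_le_iff₀ (by positivity)] at h4
    calc (S'.card : ℝ) ≤ 1 / K ^ 4 * (2 * M) := h4
      _ = 2 * M / K ^ 4 := by ring
  have hSc : (M : ℝ) / (4 * K) ≤ S.card := by
    have h3 : 2 * M / K ^ 4 ≤ (M : ℝ) / (4 * K) := by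
      rw [div_le_div_iff₀ (by positivity) (by positivity)]
      have h5 : (8 : ℝ) ≤ K ^ 3 := by
        calc (8 : ℝ) = 2 ^ 3 := by norm_num
          _ ≤ K ^ 3 := by gcongr; linarith
      calc 2 * (M : ℝ) * (4 * K) = (M * K) * 8 := by ring
        _ ≤ (M * K) * K ^ 3 := by gcongr
        _ = M * K ^ 4 := by ring
    have h4 : (M : ℝ) / (2 * K) = M / (4 * K) + M / (4 * K) := by
      field_simp
      norm_num
    linarith
  have hprod := G2a_prod c hqc.mul N M S (by
    intro l hl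
    rw [hS, Finset.mem_filter] at hl
    obtain ⟨hl1, hl2⟩ := hl
    unfold Bl at hl1
    rw [Finset.mem_filter, Finset.mem_Ioc] at hl1
    exact ⟨hl1.2, hl1.1.2, hl2⟩) h8
  have hprod' : (S.card : ℝ) ^ 3 ≤
      9 * ((Finset.Ico 1 N).filter (fun n => lam n = c n)).card := by exact_mod_cast hprod
  have h5 : (W / 8 / (4 * K)) ^ 3 ≤ (S.card : ℝ) ^ 3 := by
    gcongr
    refine le_trans ?_ hSc
    gcongr
    linarith
  have h6 : (W / 8 / (4 * K)) ^ 3 = N / (32768 * K ^ 3) := by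
    rw [div_pow, div_pow, mul_pow, hW3]
    field_simp
    norm_num
  have h7 : (N : ℝ) / (32768 * K ^ 3) ≤ 9 / 2 * (N / K ^ 4) := by
    rw [← h6]
    have : (((Finset.Ico 1 N).filter (fun n => lam n = c n)).card : ℝ) ≤ (N / K ^ 4) / 2 := by
      have := hcon
      linarith
    linarith
  rw [mul_div_assoc', div_le_div_iff₀ (by positivity) (by positivity)] at h7
  have h8 : (N : ℝ) * K ^ 3 * K ≤ N * K ^ 3 * 147456 := by
    calc (N : ℝ) * K ^ 3 * K = N * K ^ 4 := by ring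
      _ ≤ 9 / 2 * N * (32768 * K ^ 3) := h7
      _ = N * K ^ 3 * 147456 := by ring
  have h9 : K ≤ 147456 := le_of_mul_le_mul_left h8 (by positivity)
  linarith

theorem G2a (B : ℕ) : ∃ A N0 : ℕ, ∀ (N : ℕ) [NeZero N], N0 ≤ N → N.Prime →
    ∀ η : ℝ, (η = 1 ∨ η = -1) → ((RE N η).card : ℝ) ≤ N / (Real.log N) ^ A →
    ∃ χ ∈ Good N (-1), χ ^ 2 = 1 ∧ χ ≠ 1 ∧ Bad N (-1) χ ≤ 1 / (Real.log N) ^ B ∧
      ((DD N (fun n => (χ (n : ZMod N)).re)).card : ℝ) ≤ N / (Real.log N) ^ B := by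
  classical
  obtain ⟨B', N1, hSP⟩ := SPEC (B + 4)
  obtain ⟨A, N2, hG1⟩ := G1 B'
  obtain ⟨N3, hsec⟩ := G2a_second
  obtain ⟨N4, hnum⟩ := G2a_num 0
  refine ⟨A, max 3 (max (max N1 N2) (max N3 N4)), fun N _ hN hp η hη hE => ?_⟩
  have hN3 : 3 ≤ N := (le_max_left _ _).trans hN
  have hN1 : N1 ≤ N := (le_max_left _ _).trans ((le_max_left _ _).trans ((le_max_right _ _).trans hN))
  have hN2 : N2 ≤ N :=
    (le_max_right _ _).trans ((le_max_left _ _).trans ((le_max_right _ _).trans hN))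
  have hN3' : N3 ≤ N :=
    (le_max_left _ _).trans ((le_max_right _ _).trans ((le_max_right _ _).trans hN))
  have hN4 : N4 ≤ N :=
    (le_max_right _ _).trans ((le_max_right _ _).trans ((le_max_right _ _).trans hN))
  obtain ⟨g1, -, -, -⟩ := hnum N hN4
  have hNr : (3 : ℝ) ≤ N := by exact_mod_cast hN3
  set K : ℝ := Real.log N with hK
  have hKpos : 0 < K := by linarith
  have hK1 : 1 ≤ K := by linarith
  have hyp : Hyp N (-1) (fl N) ∅ B' := by
    refine ⟨?_, ?_, ?_, ?_, ?_, ?_⟩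
    · have := G2a_fl0 N
      rwa [Nat.cast_zero] at this
    · rw [G2a_nsq]; linarith
    · intro p hpp hpP
      exact hG1 N hN2 hp η hη hE p hpp hpP
    · intro l hl _ _ n hn hln
      have hn' : n < N := by
        have : 1 * n ≤ l * n := Nat.mul_le_mul_right n hl.one_lt.le
        omega
      rw [G2a_fl (Nat.mul_pos hl.pos hn) hln, G2a_fl hn hn',
        Pool.Agent.Lib.MP_45349e_nt.LS.lam_mul _ _ hl.ne_zero (by omega),
        Pool.Agent.Lib.MP_45349e_nt.LS.lam_prime _ hl]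
    · intro q hq
      exact absurd hq (Finset.notMem_empty q)
    · rw [Finset.sum_empty]
      positivity
  obtain ⟨χ, hχG, -, hχ2, hmass, hbad⟩ := hSP N hN1 hp (-1) (Or.inr rfl) (fl N) ∅ hyp
  obtain ⟨hsq, hne⟩ := hχ2 rfl
  have hqc := QCH N hp hN3 χ hsq hne
  set c : ℕ → ℝ := fun n => (χ (n : ZMod N)).re with hc
  have hpowB : K ^ B ≤ K ^ (B + 4) := pow_le_pow_right₀ hK1 (by omega)
  have hpow4 : K ^ 4 ≤ K ^ (B + 4) := pow_le_pow_right₀ hK1 (by omega)
  have hcorr := G2a_corr c N (by omega) (by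
    intro n h0 hn
    apply hqc.val
    intro h
    have := Nat.le_of_dvd h0 h
    omega)
  have hbc : bc (fl N) χ =
      (((1 / ((N : ℝ) - 1)) * ∑ n ∈ Finset.Ico 1 N, lam n * c n : ℝ) : ℂ) := by
    unfold bc
    rw [G2a_reindex, Finset.sum_range_eq_add_Ico _ (by omega : 0 < N), G2a_fl0]
    push_cast
    rw [zero_mul, zero_add]
    congr 1
    refine Finset.sum_congr rfl fun n hn => ?_
    rw [Finset.mem_Ico] at hn
    rw [G2a_fl (by omega) hn.2, QCHa N hp χ hsq n, Complex.conj_ofReal]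
  set m : ℝ := (1 / ((N : ℝ) - 1)) * ∑ n ∈ Finset.Ico 1 N, lam n * c n with hm
  have hN1pos : 0 < (N : ℝ) - 1 := by linarith
  have hmN : ((N : ℝ) - 1) * m = ∑ n ∈ Finset.Ico 1 N, lam n * c n := by
    rw [hm]
    field_simp
  rw [hbc, G2a_nsq, Complex.norm_real, Real.norm_eq_abs, sq_abs, mul_comm] at hmass
  have hm2 : 1 - 1 / K ^ (B + 4) ≤ m ^ 2 := le_of_mul_le_mul_left hmass hN1pos
  have hd0 : (0 : ℝ) ≤ (DD N c).card := Nat.cast_nonneg _
  have ha0 : (0 : ℝ) ≤ ((Finset.Ico 1 N).filter (fun n => lam n = c n)).card := Nat.cast_nonneg _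
  obtain ⟨hc1, hc2⟩ := hcorr
  have hm_le : m ≤ 1 := by
    have : ((N : ℝ) - 1) * m ≤ ((N : ℝ) - 1) * 1 := by linarith
    exact le_of_mul_le_mul_left this hN1pos
  have hm_ge : -1 ≤ m := by
    have : ((N : ℝ) - 1) * (-1) ≤ ((N : ℝ) - 1) * m := by linarith
    exact le_of_mul_le_mul_left this hN1pos
  have hepos : 0 < 1 / K ^ (B + 4) := by positivity
  rcases le_or_gt 0 m with h0 | h0
  · refine ⟨χ, hχG, hsq, hne, hbad.trans ?_, ?_⟩
    · apply one_div_le_one_div_of_le (by positivity) hpowB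
    · have h1 : 1 - 1 / K ^ (B + 4) ≤ m := by nlinarith
      have h2 : ((N : ℝ) - 1) * (1 - 1 / K ^ (B + 4)) ≤ ((N : ℝ) - 1) * m := by gcongr
      have h3 : 2 * ((DD N c).card : ℝ) ≤ ((N : ℝ) - 1) * (1 / K ^ (B + 4)) := by linarith
      have h4 : ((N : ℝ) - 1) * (1 / K ^ (B + 4)) ≤ N * (1 / K ^ B) := by
        gcongr
        linarith
      have h5 : (N : ℝ) * (1 / K ^ B) = N / K ^ B := mul_one_div _ _
      change ((DD N c).card : ℝ) ≤ N / K ^ B
      linarith
  · exfalso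
    apply hsec N hN3' hp χ hsq hne (hbad.trans ?_)
    · have h1 : 1 - 1 / K ^ (B + 4) ≤ -m := by nlinarith
      have h2 : ((N : ℝ) - 1) * (1 - 1 / K ^ (B + 4)) ≤ ((N : ℝ) - 1) * (-m) := by gcongr
      have h3 : 2 * (((Finset.Ico 1 N).filter (fun n => lam n = c n)).card : ℝ) ≤
          ((N : ℝ) - 1) * (1 / K ^ (B + 4)) := by linarith
      have h4 : ((N : ℝ) - 1) * (1 / K ^ (B + 4)) ≤ N * (1 / K ^ 4) := by
        gcongr
        linarith
      have h5 : (N : ℝ) * (1 / K ^ 4) = N / K ^ 4 := mul_one_div _ _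
      exact h3.trans (h4.trans h5.le)
    · apply one_div_le_one_div_of_le (by positivity) hpow4

end Pool.Agent.Lib.MP_7b7e48_nt.LG
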