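import Pool.Agent.Lib.MP_7b7e48_nt.LG.Defs
import Pool.Agent.Lib.MP_7b7e48_nt.LG.PC
import Pool.Agent.Lib.MP_7b7e48_nt.LG.QCH

/-!
# Module G2b (75 minutes): the primes with `c q = 1` are few

PROOF. `c n = Re χ n`, `g n = lam n * c n` (completely multiplicative on `1 ≤ n < N`, `DD` = where `g = -1`).
(1) `q ∈ Qp`, `q ≤ TT N`: `‖χ q + 1‖ = 2 > 1/(10 K)`, so `∑ 1/q ≤ Bad ≤ 1/K^A`.
(2) `q > TT N`: blocks `q ∈ [M, 2M)`, `M = 2^i`. If `8 M (PP N + 2)^2 ≥ N`: `#(Qp ∩ [M,2M)) ≤ #DD
≤ N/K^A ≤ 8 M (PP N + 2)^2/K^A` (`q ∈ DD`). Otherwise `M1 = Nat.sqrt (N/(8 M))` is `≥ PP N` and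
`2 M1 ≤ TT N`: the primes `l` of `Bl M1` with `c l = -1` are at least `M1/(4 log N)` (`PCa`, the others are
in `Bad`); `q l1 l2 < 8 M M1^2 ≤ N`, `g(q l1 l2) = -1`, each `n ∈ DD` has at most `2`
representations (`q` is larger than `l1`, `l2`), so `#(Qp ∩ [M,2M)) (M1/(4K))^2 ≤ 2 #DD`, i.e.
`≤ C M K^(2-A)` (`M1^2 ≥ N/(32 M)`). Sum over the `≤ 3K` blocks. `A = B + 8002`.
-/

open Finset
open Pool.Agent.Lib.MP_45349e_nt.LS (lam)

namespace Pool.Agent.Lib.MP_7b7e48_nt.LG

private theorem G2b_lam1 (q : ℕ) (hq : q.Prime) : lam q = -1 := by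
  unfold lam
  rw [ArithmeticFunction.cardFactors_apply_prime hq]
  norm_num

private theorem G2b_lam3 (q a b : ℕ) (hq : q.Prime) (ha : a.Prime) (hb : b.Prime) :
    lam (q * a * b) = -1 := by
  unfold lam
  rw [ArithmeticFunction.cardFactors_mul (mul_ne_zero hq.ne_zero ha.ne_zero) hb.ne_zero,
    ArithmeticFunction.cardFactors_mul hq.ne_zero ha.ne_zero,
    ArithmeticFunction.cardFactors_apply_prime hq, ArithmeticFunction.cardFactors_apply_prime ha,
    ArithmeticFunction.cardFactors_apply_prime hb]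
  norm_num

private theorem G2b_comb (S G D : Finset ℕ) (U : ℕ) (hS : ∀ q ∈ S, q.Prime ∧ U < q)
    (hG : ∀ l ∈ G, l.Prime ∧ l ≤ U)
    (hm : ∀ q ∈ S, ∀ a ∈ G, ∀ b ∈ G, q * a * b ∈ D) : S.card * G.card ^ 2 ≤ 2 * D.card := by
  classical
  have h := Finset.card_le_mul_card_image_of_maps_to (s := S ×ˢ (G ×ˢ G)) (t := D)
    (f := fun t : ℕ × ℕ × ℕ => t.1 * t.2.1 * t.2.2) (by
      rintro ⟨q, a, b⟩ h
      simp only [Finset.mem_product] at h
      exact hm q h.1 a h.2.1 b h.2.2) 2 (by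
      intro n _
      by_cases he : ((S ×ˢ (G ×ˢ G)).filter (fun t : ℕ × ℕ × ℕ => t.1 * t.2.1 * t.2.2 = n)) = ∅
      · rw [he]; simp
      · obtain ⟨⟨q0, a, b⟩, h0⟩ := Finset.nonempty_iff_ne_empty.mpr he
        simp only [Finset.mem_filter, Finset.mem_product] at h0
        obtain ⟨⟨hq0, ha, hb⟩, hn⟩ := h0
        have hsub : ((S ×ˢ (G ×ˢ G)).filter (fun t : ℕ × ℕ × ℕ => t.1 * t.2.1 * t.2.2 = n)) ⊆
            {(q0, a, b), (q0, b, a)} := by
          rintro ⟨q, c, d⟩ h1
          simp only [Finset.mem_filter, Finset.mem_product] at h1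
          obtain ⟨⟨hq, hc, hd⟩, hn1⟩ := h1
          have hqp := (hS q hq).1
          have hq0p := (hS q0 hq0).1
          have hqU := (hS q hq).2
          have hap := (hG a ha).1
          have hbp := (hG b hb).1
          have hcp := (hG c hc).1
          have hdp := (hG d hd).1
          have haU := (hG a ha).2
          have hbU := (hG b hb).2
          have hdv : q ∣ q0 * a * b := by
            rw [hn, ← hn1]; exact Dvd.intro _ (by ring : q * (c * d) = q * c * d)
          have hq1 : q = q0 := by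
            rcases (Nat.Prime.dvd_mul hqp).1 hdv with h | h
            · rcases (Nat.Prime.dvd_mul hqp).1 h with h | h
              · exact (Nat.prime_dvd_prime_iff_eq hqp hq0p).1 h
              · have := (Nat.prime_dvd_prime_iff_eq hqp hap).1 h
                omega
            · have := (Nat.prime_dvd_prime_iff_eq hqp hbp).1 h
              omega
          subst hq1
          have hcd : c * d = a * b := by
            have h2 : q * (c * d) = q * (a * b) := by
              rw [← mul_assoc, ← mul_assoc, hn, hn1]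
            exact Nat.eq_of_mul_eq_mul_left hqp.pos h2
          have hc1 : c ∣ a * b := by rw [← hcd]; exact Dvd.intro _ rfl
          rcases (Nat.Prime.dvd_mul hcp).1 hc1 with h | h
          · have h3 := (Nat.prime_dvd_prime_iff_eq hcp hap).1 h
            subst h3
            have h4 := Nat.eq_of_mul_eq_mul_left hcp.pos hcd
            subst h4
            simp
          · have h3 := (Nat.prime_dvd_prime_iff_eq hcp hbp).1 h
            subst h3
            have h4 : d = a := by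
              apply Nat.eq_of_mul_eq_mul_left hcp.pos
              rw [hcd, mul_comm]
            subst h4
            simp
        exact (Finset.card_le_card hsub).trans Finset.card_le_two)
  rw [Finset.card_product, Finset.card_product] at h
  calc S.card * G.card ^ 2 = S.card * (G.card * G.card) := by ring
    _ ≤ 2 * D.card := h

/-- facts which hold for large `N` -/
private theorem G2b_large (L0 : ℕ) : ∃ N0 : ℕ, ∀ N : ℕ, N0 ≤ N →
    (3100 : ℝ) ≤ Real.log N ∧ L0 ≤ PP N ∧ ((PP N : ℕ) : ℝ) + 2 ≤ 2 * (Real.log N) ^ 4000 ∧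
    (N : ℝ) ≤ (TT N) ^ 3 ∧ 0 < TT N ∧ TT N < N ∧ 3 ≤ N ∧ L0 ≤ N := by
  have h1 : Filter.Tendsto (fun n : ℕ => Real.log n) Filter.atTop Filter.atTop :=
    Real.tendsto_log_atTop.comp tendsto_natCast_atTop_atTop
  have h2 := (h1.eventually_ge_atTop (3100 + (L0 : ℝ))).and (Filter.eventually_ge_atTop (512 + L0))
  obtain ⟨N0, hN0⟩ := Filter.eventually_atTop.1 h2
  refine ⟨N0, fun N hN => ?_⟩
  obtain ⟨hK, hN1⟩ := hN0 N hN
  have hL0 : (0 : ℝ) ≤ L0 := Nat.cast_nonneg _
  have hK1 : (3100 : ℝ) ≤ Real.log N := by linarith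
  have hKL : (L0 : ℝ) ≤ Real.log N := by linarith
  have hpow : Real.log N ≤ (Real.log N) ^ 4000 := by
    exact le_self_pow₀ (by linarith) (by norm_num)
  have hNr : (512 : ℝ) ≤ N := by
    have : 512 ≤ N := by omega
    exact_mod_cast this
  have hN0' : (0 : ℝ) < N := by linarith
  have hexp : (N : ℝ) ^ ((1 : ℝ) / 2 - kap) ≤ N := by
    calc (N : ℝ) ^ ((1 : ℝ) / 2 - kap) ≤ (N : ℝ) ^ (1 : ℝ) :=
          Real.rpow_le_rpow_of_exponent_le (by linarith) (by unfold kap; norm_num)
      _ = N := Real.rpow_one _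
  have hTpos : 0 < TT N := by
    unfold TT; positivity
  refine ⟨hK1, ?_, ?_, ?_, hTpos, ?_, by omega, by omega⟩
  · unfold PP
    exact Nat.le_floor (by linarith)
  · have : ((PP N : ℕ) : ℝ) ≤ (Real.log N) ^ 4000 := by
      unfold PP
      exact Nat.floor_le (by positivity)
    linarith
  · unfold TT
    have e1 : ((N : ℝ) ^ ((1 : ℝ) / 2 - kap) / 2) ^ 3 = (N : ℝ) ^ (3 * ((1 : ℝ) / 2 - kap)) / 8 := by
      rw [div_pow, ← Real.rpow_natCast ((N : ℝ) ^ ((1 : ℝ) / 2 - kap)) 3, ← Real.rpow_mul hN0'.le]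
      norm_num
      congr 1
      ring
    rw [e1]
    have e2 : (N : ℝ) ^ ((1 : ℝ) + 1 / 3) ≤ (N : ℝ) ^ (3 * ((1 : ℝ) / 2 - kap)) :=
      Real.rpow_le_rpow_of_exponent_le (by linarith) (by unfold kap; norm_num)
    have e3 : (N : ℝ) ^ ((1 : ℝ) + 1 / 3) = N * (N : ℝ) ^ ((1 : ℝ) / 3) := by
      rw [Real.rpow_add hN0', Real.rpow_one]
    have e4 : (8 : ℝ) ≤ (N : ℝ) ^ ((1 : ℝ) / 3) := by
      calc (8 : ℝ) = ((8 : ℝ) ^ (3 : ℝ)) ^ ((1 : ℝ) / 3) := by
            rw [← Real.rpow_mul (by norm_num)]; norm_num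
        _ ≤ (N : ℝ) ^ ((1 : ℝ) / 3) := by
            apply Real.rpow_le_rpow (by positivity) _ (by norm_num)
            norm_num
            linarith
    have e5 : (N : ℝ) * 8 ≤ N * (N : ℝ) ^ ((1 : ℝ) / 3) := mul_le_mul_of_nonneg_left e4 hN0'.le
    linarith
  · unfold TT
    have : (0 : ℝ) < (N : ℝ) ^ ((1 : ℝ) / 2 - kap) := by positivity
    linarith

private theorem G2b_block (L0 : ℕ) (hL0 : ∀ L : ℕ, L0 ≤ L → (L : ℝ) / (2 * Real.log L) ≤
    ((Bl L).card : ℝ) ∧ ((Bl L).card : ℝ) ≤ 2 * L / Real.log L) (A N : ℕ) [NeZero N]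
    (hA : 8002 ≤ A) (hN : N.Prime) (hK : (3100 : ℝ) ≤ Real.log N) (hP : L0 ≤ PP N)
    (hP2 : ((PP N : ℕ) : ℝ) + 2 ≤ 2 * (Real.log N) ^ 4000) (hT3 : (N : ℝ) ≤ (TT N) ^ 3)
    (hT0 : 0 < TT N) (hTN : TT N < N) (χ : DirichletCharacter ℂ N) (hQ : QC N
      (fun n => (χ (n : ZMod N)).re)) (hre : ∀ n : ℕ, χ (n : ZMod N) = (((χ (n : ZMod N)).re : ℝ) : ℂ))
    (hBad : Bad N (-1) χ ≤ 1 / (Real.log N) ^ A)
    (hD : ((DD N (fun n => (χ (n : ZMod N)).re)).card : ℝ) ≤ N / (Real.log N) ^ A)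
    (M : ℕ) (S : Finset ℕ) (hS : ∀ q ∈ S, q ∈ Qp N (fun n => (χ (n : ZMod N)).re) ∧ TT N < q ∧
      M ≤ q ∧ q < 2 * M) :
    (S.card : ℝ) ≤ 1024 * (Real.log N) ^ 8000 / (Real.log N) ^ A * M := by
  classical
  set c : ℕ → ℝ := fun n => (χ (n : ZMod N)).re with hc
  set K : ℝ := Real.log N with hKd
  have hK0 : 0 < K := by linarith
  have hKA : 0 < K ^ A := by positivity
  rcases S.eq_empty_or_nonempty with hSe | ⟨q1, hq1⟩
  · subst hSe
    simp
    positivity
  obtain ⟨_, hTq1, hMq1, hq1M⟩ := hS q1 hq1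
  have hTM : TT N < 2 * M := by
    have : (q1 : ℝ) < 2 * M := by exact_mod_cast hq1M
    linarith
  have hM0 : 0 < M := by omega
  have hMr : (0 : ℝ) < M := by exact_mod_cast hM0
  by_cases hcase : N ≤ 8 * M * (PP N + 2) ^ 2
  · -- all `q` are in `DD`
    have hsub : S ⊆ DD N c := by
      intro q hq
      have h1 := (hS q hq).1
      unfold Qp at h1
      rw [Finset.mem_filter] at h1
      unfold DD
      rw [Finset.mem_filter]
      refine ⟨h1.1, h1.2.1.pos, ?_⟩
      rw [G2b_lam1 q h1.2.1, h1.2.2]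
      norm_num
    have h2 : (S.card : ℝ) ≤ N / K ^ A := by
      refine le_trans ?_ hD
      exact_mod_cast Finset.card_le_card hsub
    have h3 : (N : ℝ) ≤ 8 * M * (((PP N : ℕ) : ℝ) + 2) ^ 2 := by exact_mod_cast hcase
    have h4 : (((PP N : ℕ) : ℝ) + 2) ^ 2 ≤ (2 * K ^ 4000) ^ 2 := by
      apply pow_le_pow_left₀ (by positivity) hP2
    have h5 : (2 * K ^ 4000) ^ 2 = 4 * K ^ 8000 := by
      rw [mul_pow, ← pow_mul]; norm_num
    rw [h5] at h4
    have h6 : (N : ℝ) ≤ 32 * K ^ 8000 * M := by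
      calc (N : ℝ) ≤ 8 * M * (((PP N : ℕ) : ℝ) + 2) ^ 2 := h3
        _ ≤ 8 * M * (4 * K ^ 8000) := by
            apply mul_le_mul_of_nonneg_left h4; positivity
        _ = 32 * K ^ 8000 * M := by ring
    calc (S.card : ℝ) ≤ N / K ^ A := h2
      _ ≤ (32 * K ^ 8000 * M) / K ^ A := by
          apply div_le_div_of_nonneg_right h6 hKA.le
      _ ≤ (1024 * K ^ 8000 * M) / K ^ A := by
          apply div_le_div_of_nonneg_right _ hKA.le
          have : 0 ≤ K ^ 8000 * M := by positivity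
          nlinarith
      _ = 1024 * K ^ 8000 / K ^ A * M := by ring
  · push Not at hcase
    set M1 : ℕ := Nat.sqrt (N / (8 * M)) with hM1d
    have h8M : 0 < 8 * M := by omega
    have hM1sq : M1 ^ 2 ≤ N / (8 * M) := by
      rw [hM1d, sq]; exact Nat.sqrt_le _
    have hPM1 : PP N + 2 ≤ M1 := by
      rw [hM1d, Nat.le_sqrt, ← sq]
      rw [Nat.le_div_iff_mul_le h8M]
      calc (PP N + 2) ^ 2 * (8 * M) = 8 * M * (PP N + 2) ^ 2 := by ring
        _ ≤ N := hcase.le
    have hprod : 8 * M * M1 ^ 2 ≤ N := by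
      calc 8 * M * M1 ^ 2 ≤ 8 * M * (N / (8 * M)) := Nat.mul_le_mul_left _ hM1sq
        _ ≤ N := Nat.mul_div_le _ _
    have hupper : N < 32 * M * M1 ^ 2 := by
      have h1 : N / (8 * M) < (M1 + 1) ^ 2 := by
        rw [hM1d, sq]; exact Nat.lt_succ_sqrt _
      have h2 : N < (M1 + 1) ^ 2 * (8 * M) := (Nat.div_lt_iff_lt_mul h8M).1 h1
      have h3 : (M1 + 1) ^ 2 ≤ (2 * M1) ^ 2 := Nat.pow_le_pow_left (by omega) 2
      calc N < (M1 + 1) ^ 2 * (8 * M) := h2
        _ ≤ (2 * M1) ^ 2 * (8 * M) := Nat.mul_le_mul_right _ h3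
        _ = 32 * M * M1 ^ 2 := by ring
    have hM1r : (2 : ℝ) ≤ M1 := by
      have : 2 ≤ M1 := by omega
      exact_mod_cast this
    have hM1T : 2 * (M1 : ℝ) ≤ TT N := by
      have h1 : 8 * (M : ℝ) * (M1 : ℝ) ^ 2 ≤ N := by exact_mod_cast hprod
      have h2 : 4 * TT N * (M1 : ℝ) ^ 2 ≤ 8 * (M : ℝ) * (M1 : ℝ) ^ 2 := by
        apply mul_le_mul_of_nonneg_right _ (by positivity)
        linarith
      have h3 : TT N * (2 * (M1 : ℝ)) ^ 2 ≤ TT N * (TT N) ^ 2 := by
        calc TT N * (2 * (M1 : ℝ)) ^ 2 = 4 * TT N * (M1 : ℝ) ^ 2 := by ring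
          _ ≤ (TT N) ^ 3 := by linarith
          _ = TT N * (TT N) ^ 2 := by ring
      have h4 : (2 * (M1 : ℝ)) ^ 2 ≤ (TT N) ^ 2 := le_of_mul_le_mul_left h3 hT0
      exact le_of_sq_le_sq h4 hT0.le
    have hlb := (hL0 M1 (by omega)).1
    have hlogM1 : Real.log M1 ≤ K := by
      apply Real.log_le_log (by linarith)
      linarith
    have hlogM1' : 0 < Real.log M1 := Real.log_pos (by linarith)
    have hlb2 : (M1 : ℝ) / (2 * K) ≤ ((Bl M1).card : ℝ) := by
      refine le_trans ?_ hlb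
      apply div_le_div_of_nonneg_left (by linarith) (by positivity)
      linarith
    -- the primes with `c l ≠ -1`
    have hBlmem : ∀ l ∈ Bl M1, l.Prime ∧ M1 < l ∧ l ≤ 2 * M1 := by
      intro l hl
      unfold Bl at hl
      rw [Finset.mem_filter, Finset.mem_Ioc] at hl
      exact ⟨hl.2, hl.1.1, hl.1.2⟩
    have hval : ∀ l ∈ Bl M1, c l = 1 ∨ c l = -1 := by
      intro l hl
      obtain ⟨hp, h1, h2⟩ := hBlmem l hl
      apply hQ.val
      intro hdvd
      have h3 : N ≤ l := Nat.le_of_dvd hp.pos hdvd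
      have h4 : (l : ℝ) ≤ 2 * M1 := by exact_mod_cast h2
      have h5 : (N : ℝ) ≤ l := by exact_mod_cast h3
      linarith
    set G : Finset ℕ := (Bl M1).filter (fun l => c l = -1) with hG
    set G' : Finset ℕ := (Bl M1).filter (fun l => ¬ c l = -1) with hG'
    have hcard : (Bl M1).card = G.card + G'.card := by
      rw [hG, hG', Finset.card_filter_add_card_filter_not]
    have hG'b : (G'.card : ℝ) ≤ 2 * M1 / K ^ A := by
      have h1 : ∑ l ∈ G', 1 / (l : ℝ) ≤ Bad N (-1) χ := by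
        unfold Bad
        apply Finset.sum_le_sum_of_subset_of_nonneg
        · intro l hl
          rw [hG', Finset.mem_filter] at hl
          obtain ⟨hlB, hne⟩ := hl
          obtain ⟨hp, h1, h2⟩ := hBlmem l hlB
          have h4 : (l : ℝ) ≤ 2 * M1 := by exact_mod_cast h2
          have h5 : (l : ℝ) < N := by linarith
          have h6 : l < N := by exact_mod_cast h5
          rw [Finset.mem_filter]
          refine ⟨Finset.mem_range.2 (by omega), hp, by linarith, ?_⟩
          have h7 : c l = 1 := by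
            rcases hval l hlB with h | h
            · exact h
            · exact absurd h hne
          have h8 : χ (l : ZMod N) = 1 := by
            rw [hre l]
            have : (χ (l : ZMod N)).re = 1 := h7
            rw [this]; simp
          rw [h8]
          have h9 : ‖(1 : ℂ) - ((-1 : ℝ) : ℂ)‖ = 2 := by
            push_cast
            rw [sub_neg_eq_add]
            norm_num
          rw [h9]
          have h10 : 1 / (10 * Real.log N) ≤ 1 := by
            rw [div_le_one (by positivity)]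
            linarith
          linarith
        · intro l _ _
          positivity
      have h2 : (G'.card : ℝ) * (1 / (2 * M1)) ≤ ∑ l ∈ G', 1 / (l : ℝ) := by
        rw [← nsmul_eq_mul]
        apply Finset.card_nsmul_le_sum
        intro l hl
        rw [hG', Finset.mem_filter] at hl
        obtain ⟨hp, h1, h2⟩ := hBlmem l hl.1
        apply one_div_le_one_div_of_le
        · exact_mod_cast hp.pos
        · exact_mod_cast h2
      have h3 : (G'.card : ℝ) * (1 / (2 * M1)) ≤ 1 / K ^ A := by linarith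
      have hne : (2 * (M1 : ℝ)) ≠ 0 := by
        have : (0 : ℝ) < M1 := by linarith
        positivity
      have h4 : (G'.card : ℝ) = (G'.card : ℝ) * (1 / (2 * M1)) * (2 * M1) := by
        rw [mul_assoc, one_div_mul_cancel hne, mul_one]
      rw [h4]
      calc (G'.card : ℝ) * (1 / (2 * M1)) * (2 * M1) ≤ 1 / K ^ A * (2 * M1) := by
            apply mul_le_mul_of_nonneg_right h3; positivity
        _ = 2 * M1 / K ^ A := by ring
    have hGb : (M1 : ℝ) / (4 * K) ≤ (G.card : ℝ) := by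
      have h1 : ((Bl M1).card : ℝ) = (G.card : ℝ) + (G'.card : ℝ) := by exact_mod_cast hcard
      have h2 : 2 * (M1 : ℝ) / K ^ A ≤ M1 / (4 * K) := by
        rw [div_le_div_iff₀ hKA (by positivity)]
        have h3 : K ^ 2 ≤ K ^ A := pow_le_pow_right₀ (by linarith) (by omega)
        have h4 : 8 * K ≤ K ^ 2 := by nlinarith
        calc 2 * (M1 : ℝ) * (4 * K) = M1 * (8 * K) := by ring
          _ ≤ M1 * K ^ A := by
              apply mul_le_mul_of_nonneg_left _ (by positivity)
              linarith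
      have h5 : (M1 : ℝ) / (2 * K) = M1 / (4 * K) + M1 / (4 * K) := by
        field_simp
        norm_num
      linarith
    have hcomb := G2b_comb S G (DD N c) (2 * M1) (by
        intro q hq
        obtain ⟨h1, h2, _, _⟩ := hS q hq
        unfold Qp at h1
        rw [Finset.mem_filter] at h1
        refine ⟨h1.2.1, ?_⟩
        have h3 : (2 * M1 : ℝ) < q := by linarith
        exact_mod_cast h3) (by
        intro l hl
        rw [hG, Finset.mem_filter] at hl
        obtain ⟨hp, h1, h2⟩ := hBlmem l hl.1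
        exact ⟨hp, h2⟩) (by
        intro q hq a ha b hb
        obtain ⟨h1, h2, h3, h4⟩ := hS q hq
        unfold Qp at h1
        rw [Finset.mem_filter] at h1
        rw [hG, Finset.mem_filter] at ha hb
        obtain ⟨hap, ha1, ha2⟩ := hBlmem a ha.1
        obtain ⟨hbp, hb1, hb2⟩ := hBlmem b hb.1
        unfold DD
        rw [Finset.mem_filter, Finset.mem_range]
        refine ⟨?_, ?_, ?_⟩
        · have h5 : q * (a * b) < 2 * M * (2 * M1 * (2 * M1)) := by
            apply Nat.mul_lt_mul_of_lt_of_le h4 (Nat.mul_le_mul ha2 hb2)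
            have : 0 < 2 * M1 := by omega
            exact Nat.mul_pos this this
          calc q * a * b = q * (a * b) := by ring
            _ < 2 * M * (2 * M1 * (2 * M1)) := h5
            _ = 8 * M * M1 ^ 2 := by ring
            _ ≤ N := hprod
        · exact Nat.mul_pos (Nat.mul_pos h1.2.1.pos hap.pos) hbp.pos
        · rw [G2b_lam3 q a b h1.2.1 hap hbp]
          have hm1 : c (q * a * b) = c q * c a * c b := by
            rw [hQ.mul, hQ.mul]
          rw [hm1, h1.2.2, ha.2, hb.2]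
          norm_num)
    have hcr : (S.card : ℝ) * (G.card : ℝ) ^ 2 ≤ 2 * ((DD N c).card : ℝ) := by
      have := (Nat.cast_le (α := ℝ)).2 hcomb
      rw [Nat.cast_mul, Nat.cast_mul, Nat.cast_pow] at this
      exact this
    have h1 : (S.card : ℝ) * ((M1 : ℝ) / (4 * K)) ^ 2 ≤ 2 * (N / K ^ A) := by
      calc (S.card : ℝ) * ((M1 : ℝ) / (4 * K)) ^ 2 ≤ (S.card : ℝ) * (G.card : ℝ) ^ 2 := by
            apply mul_le_mul_of_nonneg_left _ (Nat.cast_nonneg _)
            apply pow_le_pow_left₀ _ hGb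
            exact div_nonneg (by linarith) (by linarith)
        _ ≤ 2 * ((DD N c).card : ℝ) := hcr
        _ ≤ 2 * (N / K ^ A) := by linarith
    have h2 : (N : ℝ) ≤ 32 * M * (M1 : ℝ) ^ 2 := by exact_mod_cast hupper.le
    have h3 : (S.card : ℝ) * ((M1 : ℝ) / (4 * K)) ^ 2 ≤ 2 * ((32 * M * (M1 : ℝ) ^ 2) / K ^ A) := by
      refine h1.trans ?_
      apply mul_le_mul_of_nonneg_left _ (by norm_num)
      exact div_le_div_of_nonneg_right h2 hKA.le
    have h4 : (S.card : ℝ) ≤ 1024 * K ^ 2 / K ^ A * M := by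
      have hx : (0 : ℝ) < ((M1 : ℝ) / (4 * K)) ^ 2 := by positivity
      apply le_of_mul_le_mul_right _ hx
      refine h3.trans (le_of_eq ?_)
      field_simp
      norm_num
    refine h4.trans ?_
    apply mul_le_mul_of_nonneg_right _ hMr.le
    apply div_le_div_of_nonneg_right _ hKA.le
    apply mul_le_mul_of_nonneg_left _ (by norm_num)
    exact pow_le_pow_right₀ (by linarith) (by norm_num)

theorem G2b (B : ℕ) : ∃ A N0 : ℕ, ∀ (N : ℕ) [NeZero N], N0 ≤ N → N.Prime →
    ∀ χ : DirichletCharacter ℂ N, χ ^ 2 = 1 → χ ≠ 1 → Bad N (-1) χ ≤ 1 / (Real.log N) ^ A →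
    ((DD N (fun n => (χ (n : ZMod N)).re)).card : ℝ) ≤ N / (Real.log N) ^ A →
    sig N (fun n => (χ (n : ZMod N)).re) ≤ 1 / (Real.log N) ^ B := by
  classical
  obtain ⟨L0, hL0⟩ := PCa
  obtain ⟨N0, hN0⟩ := G2b_large L0
  refine ⟨B + 8002, N0, ?_⟩
  intro N _ hNN hN χ h1 h2 hBad hD
  obtain ⟨hK, hP, hP2, hT3, hT0, hTN, h3N, _⟩ := hN0 N hNN
  have hQ := QCH N hN h3N χ h1 h2
  have hre := QCHa N hN χ h1
  set c : ℕ → ℝ := fun n => (χ (n : ZMod N)).re with hc
  set K : ℝ := Real.log N with hKd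
  have hK0 : 0 < K := by linarith
  have hKA : 0 < K ^ (B + 8002) := by positivity
  -- splitting
  have hsplit : sig N c = ∑ q ∈ (Qp N c).filter (fun q : ℕ => (q : ℝ) ≤ TT N), 1 / (q : ℝ) +
      ∑ q ∈ (Qp N c).filter (fun q : ℕ => ¬ (q : ℝ) ≤ TT N), 1 / (q : ℝ) := by
    unfold sig
    rw [Finset.sum_filter_add_sum_filter_not]
  have hsmall : ∑ q ∈ (Qp N c).filter (fun q : ℕ => (q : ℝ) ≤ TT N), 1 / (q : ℝ) ≤
      1 / K ^ (B + 8002) := by
    refine le_trans ?_ hBad
    unfold Bad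
    apply Finset.sum_le_sum_of_subset_of_nonneg
    · intro q hq
      rw [Finset.mem_filter] at hq
      obtain ⟨hq1, hq2⟩ := hq
      unfold Qp at hq1
      rw [Finset.mem_filter, Finset.mem_range] at hq1
      rw [Finset.mem_filter]
      refine ⟨Finset.mem_range.2 (by omega), hq1.2.1, hq2, ?_⟩
      have h8 : χ (q : ZMod N) = 1 := by
        rw [hre q]
        have : (χ (q : ZMod N)).re = 1 := hq1.2.2
        rw [this]; simp
      rw [h8]
      have h9 : ‖(1 : ℂ) - ((-1 : ℝ) : ℂ)‖ = 2 := by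
        push_cast
        rw [sub_neg_eq_add]
        norm_num
      rw [h9]
      have h10 : 1 / (10 * Real.log N) ≤ 1 := by
        rw [div_le_one (by positivity)]
        linarith
      linarith
    · intro l _ _
      positivity
  have hlarge : ∑ q ∈ (Qp N c).filter (fun q : ℕ => ¬ (q : ℝ) ≤ TT N), 1 / (q : ℝ) ≤
      3 * K * (1024 * K ^ 8000 / K ^ (B + 8002)) := by
    set Q' := (Qp N c).filter (fun q : ℕ => ¬ (q : ℝ) ≤ TT N) with hQ'
    have hmaps : ∀ q ∈ Q', Nat.log 2 q ∈ Finset.range (Nat.log 2 N + 1) := by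
      intro q hq
      rw [hQ', Finset.mem_filter] at hq
      have hq1 := hq.1
      unfold Qp at hq1
      rw [Finset.mem_filter, Finset.mem_range] at hq1
      rw [Finset.mem_range, Nat.lt_succ_iff]
      exact Nat.log_mono_right hq1.1.le
    rw [← Finset.sum_fiberwise_of_maps_to hmaps]
    have hblk : ∀ i ∈ Finset.range (Nat.log 2 N + 1),
        ∑ q ∈ Q' with Nat.log 2 q = i, 1 / (q : ℝ) ≤ 1024 * K ^ 8000 / K ^ (B + 8002) := by
      intro i _
      set S := Q'.filter (fun q => Nat.log 2 q = i) with hS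
      have hSm : ∀ q ∈ S, q ∈ Qp N c ∧ TT N < q ∧ 2 ^ i ≤ q ∧ q < 2 * 2 ^ i := by
        intro q hq
        rw [hS, Finset.mem_filter, hQ', Finset.mem_filter] at hq
        obtain ⟨⟨hq1, hq2⟩, hq3⟩ := hq
        push Not at hq2
        have hq4 := hq1
        unfold Qp at hq4
        rw [Finset.mem_filter, Finset.mem_range] at hq4
        refine ⟨hq1, hq2, ?_, ?_⟩
        · rw [← hq3]
          exact Nat.pow_log_le_self 2 hq4.2.1.ne_zero
        · rw [← hq3, ← pow_succ']
          exact Nat.lt_pow_succ_log_self (by norm_num) q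
      have hcardS := G2b_block L0 hL0 (B + 8002) N (by omega) hN hK hP hP2 hT3 hT0 hTN χ hQ hre hBad hD
        (2 ^ i) S hSm
      have hpi : (0 : ℝ) < ((2 ^ i : ℕ) : ℝ) := by positivity
      calc ∑ q ∈ S, 1 / (q : ℝ) ≤ S.card • (1 / ((2 ^ i : ℕ) : ℝ)) := by
            apply Finset.sum_le_card_nsmul
            intro q hq
            obtain ⟨_, _, h3, _⟩ := hSm q hq
            apply one_div_le_one_div_of_le hpi
            exact_mod_cast h3
        _ = (S.card : ℝ) * (1 / ((2 ^ i : ℕ) : ℝ)) := by rw [nsmul_eq_mul]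
        _ ≤ (1024 * K ^ 8000 / K ^ (B + 8002) * ((2 ^ i : ℕ) : ℝ)) * (1 / ((2 ^ i : ℕ) : ℝ)) := by
            apply mul_le_mul_of_nonneg_right hcardS (by positivity)
        _ = 1024 * K ^ 8000 / K ^ (B + 8002) := by
            rw [mul_assoc, mul_one_div_cancel hpi.ne', mul_one]
    calc ∑ i ∈ Finset.range (Nat.log 2 N + 1), ∑ q ∈ Q' with Nat.log 2 q = i, 1 / (q : ℝ)
        ≤ (Finset.range (Nat.log 2 N + 1)).card • (1024 * K ^ 8000 / K ^ (B + 8002)) :=
          Finset.sum_le_card_nsmul _ _ _ hblk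
      _ = ((Nat.log 2 N + 1 : ℕ) : ℝ) * (1024 * K ^ 8000 / K ^ (B + 8002)) := by
          rw [nsmul_eq_mul, Finset.card_range]
      _ ≤ 3 * K * (1024 * K ^ 8000 / K ^ (B + 8002)) := by
          apply mul_le_mul_of_nonneg_right _ (by positivity)
          have h5 : (2 : ℝ) ^ (Nat.log 2 N) ≤ N := by
            exact_mod_cast Nat.pow_log_le_self 2 (NeZero.ne N)
          have h6 : (Nat.log 2 N : ℝ) * Real.log 2 ≤ K := by
            rw [← Real.log_pow]
            exact Real.log_le_log (by positivity) h5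
          have h7 : (1 / 2 : ℝ) ≤ Real.log 2 := by
            have := Real.log_two_gt_d9
            linarith
          have h8 : (0 : ℝ) ≤ (Nat.log 2 N : ℝ) := Nat.cast_nonneg _
          push_cast
          nlinarith
  rw [hsplit]
  have h5 : 3 * K * (1024 * K ^ 8000 / K ^ (B + 8002)) = 3072 * (K ^ 8001 / K ^ (B + 8002)) := by
    ring
  rw [h5] at hlarge
  have h6 : K ^ 8001 / K ^ (B + 8002) = 1 / (K * K ^ B) := by
    rw [show B + 8002 = 8001 + (1 + B) by ring, pow_add K 8001, pow_add K 1 B, pow_one]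
    rw [div_mul_eq_div_div, div_self (by positivity)]
  have h7 : 1 / K ^ (B + 8002) ≤ 1 / (K * K ^ B) := by
    apply one_div_le_one_div_of_le (by positivity)
    rw [← pow_succ']
    exact pow_le_pow_right₀ (by linarith) (by omega)
  rw [h6] at hlarge
  have h8 : 3073 * (1 / (K * K ^ B)) ≤ 1 / K ^ B := by
    rw [← div_div, ← mul_div_assoc]
    apply div_le_div_of_nonneg_right _ (by positivity)
    rw [mul_one_div, div_le_one hK0]
    linarith
  linarith

end Pool.Agent.Lib.MP_7b7e48_nt.LG
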