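import Pool.Agent.Lib.MP_7b7e48_nt.LG.Defs
import Pool.Agent.Lib.MP_7b7e48_nt.LG.G2a
import Pool.Agent.Lib.MP_7b7e48_nt.LG.G2b
import Pool.Agent.Lib.MP_7b7e48_nt.LG.F1

/-!
# Module G2c (40 minutes): the Siegel scenario

PROOF. Combine `G2a`, `G2b`, `QCH`, `F1` (for `N` large `κ N^(-1/100) ≥ N^(-1/90)`). `c p = -1` for primes
`p ≤ PP N`: `χ ∈ Good N (-1)`, `χ p = ±1` real. So all `q ∈ Qp` are `> PP N ≥ 100`. `c (N-1) = -1`: otherwise
`c (N - n) = c n` for all `n`; all `n ∉ EE`, `n ∉ DD`, `N - n ∉ DD` satisfy `lam (N-n) = -lam n`,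
`lam (N - n) = c (N-n) = c n = lam n`: contradiction as soon as `#EE + 2 #DD < N - 1`. So
`c (N - n) = - c n` for `0 < n < N` (`χ (-1) = -1`).
-/

open Finset
open Pool.Agent.Lib.MP_45349e_nt.LS (lam)

namespace Pool.Agent.Lib.MP_7b7e48_nt.LG

private theorem G2c_pow_mono {x : ℝ} (hx : 1 ≤ x) {a b : ℕ} (hab : a ≤ b) {y : ℝ} (hy : 0 ≤ y) :
    y / x ^ b ≤ y / x ^ a := by
  apply div_le_div_of_nonneg_left hy (by positivity)
  exact pow_le_pow_right₀ hx hab

theorem G2c (B : ℕ) (δ : ℝ) (hδ : 0 < δ) (hδ9 : δ ≤ 1 / 90) :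
    ∃ A N0 : ℕ, ∀ (N : ℕ) [NeZero N], N0 ≤ N → N.Prime →
    ∀ η : ℝ, (η = 1 ∨ η = -1) → ((RE N η).card : ℝ) ≤ N / (Real.log N) ^ A →
    ∃ (c : ℕ → ℝ) (L : ℝ), QC N c ∧ LV N c L ∧ (N : ℝ) ^ (-(1 / 90) : ℝ) ≤ L ∧
      (N : ℝ) ^ (-δ) ≤ L ∧
      (∀ p : ℕ, p.Prime → p ≤ PP N → c p = -1) ∧ (∀ q ∈ Qp N c, PP N < q) ∧ 100 ≤ PP N ∧
      (∀ n : ℕ, 0 < n → n < N → c (N - n) = η * c n) ∧
      ((DD N c).card : ℝ) ≤ N / (Real.log N) ^ B ∧ sig N c ≤ 1 / (Real.log N) ^ B := by
  obtain ⟨Ab, Nb, hb⟩ := G2b B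
  obtain ⟨Aa, Na, ha⟩ := G2a (Ab + B + 1)
  obtain ⟨κ, hκ, hF1⟩ := F1 (δ / 2) (by linarith)
  -- large `N`
  have hlim1 : Filter.Tendsto (fun N : ℕ => Real.log (N : ℝ)) Filter.atTop Filter.atTop :=
    Real.tendsto_log_atTop.comp tendsto_natCast_atTop_atTop
  have hlim2 : Filter.Tendsto (fun N : ℕ => (N : ℝ) ^ (δ / 2)) Filter.atTop Filter.atTop :=
    (tendsto_rpow_atTop (by linarith)).comp tendsto_natCast_atTop_atTop
  obtain ⟨N1, hN1⟩ := Filter.eventually_atTop.1 (hlim1.eventually_ge_atTop 10)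
  obtain ⟨N2, hN2⟩ := Filter.eventually_atTop.1 (hlim2.eventually_ge_atTop (1 / κ))
  refine ⟨Aa + 1, max (max Na Nb) (max (max N1 N2) 10), ?_⟩
  intro N _ hN hp η hη hEE
  have hNa : Na ≤ N := (le_max_left _ _).trans ((le_max_left _ _).trans hN)
  have hNb : Nb ≤ N := (le_max_right _ _).trans ((le_max_left _ _).trans hN)
  have hN1' : N1 ≤ N := (le_max_left _ _).trans ((le_max_left _ _).trans ((le_max_right _ _).trans hN))
  have hN2' : N2 ≤ N := (le_max_right _ _).trans ((le_max_left _ _).trans ((le_max_right _ _).trans hN))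
  have hN10 : 10 ≤ N := (le_max_right _ _).trans ((le_max_right _ _).trans hN)
  have hlog : 10 ≤ Real.log N := hN1 N hN1'
  have hlog1 : 1 ≤ Real.log N := by linarith
  have hNR : (10 : ℝ) ≤ N := by exact_mod_cast hN10
  have hN0 : (0 : ℝ) < N := by linarith
  have hEE' : ((RE N η).card : ℝ) ≤ N / (Real.log N) ^ Aa :=
    hEE.trans (G2c_pow_mono hlog1 (Nat.le_succ _) hN0.le)
  obtain ⟨χ, hχG, hχ2, hχ1, hBad, hDD⟩ := ha N hNa hp η hη hEE'
  have hsig := hb N hNb hp χ hχ2 hχ1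
    (hBad.trans (G2c_pow_mono hlog1 (by omega) zero_le_one))
    (hDD.trans (G2c_pow_mono hlog1 (by omega) hN0.le))
  obtain ⟨L, hLV, hL⟩ := hF1 N (by omega) hp χ hχ2 hχ1
  have hQC := QCH N hp (by omega) χ hχ2 hχ1
  set c : ℕ → ℝ := fun n => (χ (n : ZMod N)).re with hc
  have hreal : ∀ n : ℕ, χ (n : ZMod N) = ((c n : ℝ) : ℂ) := fun n => QCHa N hp χ hχ2 n
  have hgood : ∀ p : ℕ, p.Prime → p ≤ PP N → ‖χ (p : ZMod N) - ((-1 : ℝ) : ℂ)‖ ≤
      1 / (10 * Real.log N) := by
    classical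
    have h := hχG
    unfold Good at h
    exact (Finset.mem_filter.1 h).2
  have hcp : ∀ p : ℕ, p.Prime → p ≤ PP N → c p = -1 := by
    intro p hpp hle
    have h1 := hgood p hpp hle
    rw [hreal p, ← Complex.ofReal_sub, Complex.norm_real, Real.norm_eq_abs] at h1
    have h2 : 1 / (10 * Real.log N) < 1 := by
      rw [div_lt_one (by linarith)]
      linarith
    have h3 := lt_of_le_of_lt h1 h2
    by_cases hdv : N ∣ p
    · rw [hQC.zero p hdv] at h3
      norm_num at h3
    · rcases hQC.val p hdv with h | h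
      · rw [h] at h3
        norm_num at h3
      · exact h
  have hQp : ∀ q ∈ Qp N c, PP N < q := by
    intro q hq
    unfold Qp at hq
    obtain ⟨-, hqp, hq1⟩ := Finset.mem_filter.1 hq
    by_contra hcon
    have := hcp q hqp (not_lt.1 hcon)
    rw [this] at hq1
    norm_num at hq1
  have hPP : 100 ≤ PP N := by
    unfold PP
    apply Nat.le_floor
    have h1 : (10 : ℝ) ^ 4000 ≤ (Real.log N) ^ 4000 := pow_le_pow_left₀ (by norm_num) hlog 4000
    have h2 : (100 : ℝ) ≤ 10 ^ 4000 := by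
      calc (100 : ℝ) = 10 ^ 2 := by norm_num
        _ ≤ 10 ^ 4000 := pow_le_pow_right₀ (by norm_num) (by norm_num)
    calc ((100 : ℕ) : ℝ) = 100 := by norm_num
      _ ≤ 10 ^ 4000 := h2
      _ ≤ (Real.log N) ^ 4000 := h1
  have hLbig' : (N : ℝ) ^ (-δ) ≤ L := by
    refine le_trans ?_ hL
    have h1 : 1 / κ ≤ (N : ℝ) ^ (δ / 2) := hN2 N hN2'
    have h2 : 1 ≤ κ * (N : ℝ) ^ (δ / 2) := by
      rw [div_le_iff₀ hκ] at h1
      linarith
    have h3 : (N : ℝ) ^ (-(δ / 2)) = (N : ℝ) ^ (δ / 2) * (N : ℝ) ^ (-δ) := by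
      rw [← Real.rpow_add hN0]
      congr 1
      ring
    rw [h3, ← mul_assoc]
    have h4 : 0 ≤ (N : ℝ) ^ (-δ) := Real.rpow_nonneg hN0.le _
    calc (N : ℝ) ^ (-δ) = 1 * (N : ℝ) ^ (-δ) := (one_mul _).symm
      _ ≤ κ * (N : ℝ) ^ (δ / 2) * (N : ℝ) ^ (-δ) :=
        mul_le_mul_of_nonneg_right h2 h4
  have hLbig : (N : ℝ) ^ (-(1 / 90) : ℝ) ≤ L := by
    refine le_trans ?_ hLbig'
    exact Real.rpow_le_rpow_of_exponent_le (by linarith) (by linarith)
  have hDD1 : ((DD N c).card : ℝ) ≤ N / 10 := by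
    refine hDD.trans ?_
    apply div_le_div_of_nonneg_left hN0.le (by norm_num)
    calc (10 : ℝ) ≤ Real.log N := hlog
      _ = Real.log N ^ 1 := (pow_one _).symm
      _ ≤ Real.log N ^ (Ab + B + 1) := pow_le_pow_right₀ hlog1 (by omega)
  have hEE1 : ((RE N η).card : ℝ) ≤ N / 10 := by
    refine hEE.trans ?_
    apply div_le_div_of_nonneg_left hN0.le (by norm_num)
    calc (10 : ℝ) ≤ Real.log N := hlog
      _ = Real.log N ^ 1 := (pow_one _).symm
      _ ≤ Real.log N ^ (Aa + 1) := pow_le_pow_right₀ hlog1 (by omega)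
  -- the sign of `χ (-1)`
  have hneg : ∀ n : ℕ, n < N → χ ((N - n : ℕ) : ZMod N) = χ (-1) * χ (n : ZMod N) := by
    intro n hn
    rw [← map_mul]
    congr 1
    rw [Nat.cast_sub hn.le, ZMod.natCast_self]
    ring
  have hsq : χ (-1) * χ (-1) = 1 := by
    rw [← map_mul]
    norm_num
  have hpm : χ (-1) = (η : ℂ) ∨ χ (-1) = -(η : ℂ) := by
    have h0 : χ (-1) = 1 ∨ χ (-1) = -1 := mul_self_eq_one_iff.1 hsq
    rcases hη with hη | hη <;> rw [hη]
    · push_cast
      exact h0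
    · push_cast
      rw [neg_neg]
      exact h0.symm
  have hηη : η * η = 1 := by
    rcases hη with h | h <;> rw [h] <;> norm_num
  have hm1 : χ (-1) = (η : ℂ) := by
    rcases hpm with h | h
    · exact h
    · exfalso
      have hsub : Finset.Ioo 0 N ⊆ RE N η ∪ (DD N c ∪ (DD N c).image fun n => N - n) := by
        intro n hn
        obtain ⟨hn0, hnN⟩ := Finset.mem_Ioo.1 hn
        by_contra hcon
        rw [Finset.mem_union, Finset.mem_union, not_or, not_or] at hcon
        obtain ⟨h1, h2, h3⟩ := hcon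
        have e1 : lam (N - n) = η * lam n := by
          by_contra he
          apply h1
          rw [RE_mem]
          exact ⟨hnN, hn0, he⟩
        have e2 : lam n = c n := by
          by_contra he
          apply h2
          unfold DD
          exact Finset.mem_filter.2 ⟨Finset.mem_range.2 hnN, hn0, he⟩
        have e3 : lam (N - n) = c (N - n) := by
          by_contra he
          apply h3
          rw [Finset.mem_image]
          refine ⟨N - n, ?_, by omega⟩
          unfold DD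
          exact Finset.mem_filter.2 ⟨Finset.mem_range.2 (by omega), by omega, he⟩
        have e4 : c (N - n) = -(η * c n) := by
          show (χ ((N - n : ℕ) : ZMod N)).re = -(η * (χ (n : ZMod N)).re)
          rw [hneg n hnN, h, ← Complex.ofReal_neg, Complex.re_ofReal_mul]
          ring
        have e5 : lam n = 1 ∨ lam n = -1 := neg_one_pow_eq_or ℝ _
        rw [e3, e4, e2] at e1
        have e6 : η * c n = 0 := by linarith
        have e7 : c n = 0 := by
          calc c n = (η * η) * c n := by rw [hηη, one_mul]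
            _ = η * (η * c n) := by ring
            _ = 0 := by rw [e6, mul_zero]
        rw [e2, e7] at e5
        rcases e5 with h' | h' <;> norm_num at h'
      have hcard := Finset.card_le_card hsub
      have h1 : (RE N η ∪ (DD N c ∪ (DD N c).image fun n => N - n)).card ≤
          (RE N η).card + ((DD N c).card + (DD N c).card) := by
        refine (Finset.card_union_le _ _).trans ?_
        apply Nat.add_le_add_left
        refine (Finset.card_union_le _ _).trans ?_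
        apply Nat.add_le_add_left
        exact Finset.card_image_le
      rw [Nat.card_Ioo] at hcard
      have h2 : N - 0 - 1 ≤ (RE N η).card + ((DD N c).card + (DD N c).card) := hcard.trans h1
      have h3 : (N : ℝ) - 1 ≤ (RE N η).card + ((DD N c).card + (DD N c).card) := by
        have : N ≤ (RE N η).card + ((DD N c).card + (DD N c).card) + 1 := by omega
        have h4 : (N : ℝ) ≤ (((RE N η).card + ((DD N c).card + (DD N c).card) + 1 : ℕ) : ℝ) := by
          exact_mod_cast this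
        push_cast at h4
        linarith
      linarith
  refine ⟨c, L, hQC, hLV, hLbig, hLbig', hcp, hQp, hPP, ?_, ?_, hsig⟩
  · intro n hn0 hnN
    show (χ ((N - n : ℕ) : ZMod N)).re = η * (χ (n : ZMod N)).re
    rw [hneg n hnN, hm1, Complex.re_ofReal_mul]
  · exact hDD.trans (G2c_pow_mono hlog1 (by omega) hN0.le)

end Pool.Agent.Lib.MP_7b7e48_nt.LG
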