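import Pool.Agent.Lib.MP_7b7e48_nt.LG.Defs
import Pool.Agent.Lib.MP_45349e_nt.LS.LamB
import Pool.Agent.Lib.MP_7b7e48_nt.LG.EXB
import Pool.Agent.Lib.MP_7b7e48_nt.LG.F7
import Pool.Agent.Lib.MP_7b7e48_nt.LG.Ref

/-!
# Module G3 (90 minutes): the exceptional set is nearly invariant under small primes

PROOF. `F = fd N c`, `s = η = 1`, `σ = 1`, `E` = the `x` with `x.val ∈ EE N`. `F (-x) = F x` off `E`: if exactly
one of `n`, `N - n` is in `DD` then `lam n = lam (N-n)` (`c (N-n) = - c n`). `F (j n) = F n` for `j ≤ PP N`,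
`j n < N`: `lam j = c j` (all prime factors `p ≤ PP N` have `c p = -1 = lam p`). `EXB` with
`r = 28000 + B + 10`. The sum in question is the number of `x` with `F (p x) ≠ F x`. Outside the cells in `Js`:
`≤ C K^r (#EE + 1) ≤ #DD/K^(B+1)` (`A = r + B + 2`; `#DD ≥ N^(0.985)`). Inside: `x ∈ DD` or `p x ∈ DD`. A cell
`j` is `{x : α ≤ x.val < β}`, `α = ⌈j N/G⌉`, `β = ⌈(j+1) N/G⌉`, `β - α ≤ N/G + 1` (`G = Ga N`); `F7`: at most
`C K (2/G) #DD + C N^(49/50) K^3` elements of `DD`. `p x` for `x` in the cell: `p x.val ∈ [p α, p β)`, an interval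
of length `≤ p (N/G + 1) < N`, reduced modulo `N` it lies in at most two intervals of `[0,N)` of at most
this length (`x ↦ p x` injective): `F7` twice. Total for `Js`: `|Js| (3 C K (4 p/G) #DD + 3 C N^(49/50) K^3)`,
`|Js| ≤ C (PP N)^6 G/K^r`; first part `≤ C' K^(1 + 28000 - r) #DD`, second part `≤ G N^(49/50) K^C''
≤ N^(0.9826) ≤ #DD/K^(B+2)` (`G ≤ N^(1/400)`, `#DD ≥ N^(0.985)`).
-/

open Finset
open Pool.Agent.Lib.MP_45349e_nt.LS (lam)

namespace Pool.Agent.Lib.MP_7b7e48_nt.LG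

/-- powers of the logarithm are small -/
theorem G3_ev (n : ℕ) (C ε : ℝ) (hε : 0 < ε) :
    ∃ N0 : ℕ, ∀ N : ℕ, N0 ≤ N → C * (Real.log N) ^ n ≤ (N : ℝ) ^ ε := by
  have h1 := isLittleO_log_rpow_rpow_atTop (n : ℝ) hε
  have h2 := h1.def (show (0 : ℝ) < 1 / (|C| + 1) by positivity)
  rw [Filter.eventually_atTop] at h2
  obtain ⟨x0, hx0⟩ := h2
  refine ⟨max 1 ⌈x0⌉₊, fun N hN => ?_⟩
  have hN1 : 1 ≤ N := le_trans (le_max_left _ _) hN
  have hN2 : x0 ≤ N := by
    have h3 : ⌈x0⌉₊ ≤ N := le_trans (le_max_right _ _) hN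
    exact (Nat.le_ceil x0).trans (by exact_mod_cast h3)
  have h3 := hx0 N hN2
  rw [Real.rpow_natCast, Real.norm_eq_abs, Real.norm_eq_abs] at h3
  have h4 : 0 ≤ Real.log N := Real.log_natCast_nonneg N
  rw [abs_of_nonneg (pow_nonneg h4 n), abs_of_nonneg (Real.rpow_nonneg (Nat.cast_nonneg N) ε)] at h3
  have h5 : 0 ≤ (N : ℝ) ^ ε := Real.rpow_nonneg (Nat.cast_nonneg N) ε
  calc C * Real.log N ^ n ≤ |C| * Real.log N ^ n :=
        mul_le_mul_of_nonneg_right (le_abs_self C) (pow_nonneg h4 n)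
    _ ≤ |C| * (1 / (|C| + 1) * (N : ℝ) ^ ε) := mul_le_mul_of_nonneg_left h3 (abs_nonneg C)
    _ = (|C| / (|C| + 1)) * (N : ℝ) ^ ε := by ring
    _ ≤ 1 * (N : ℝ) ^ ε := by
        refine mul_le_mul_of_nonneg_right ?_ h5
        rw [div_le_one (by positivity)]
        linarith
    _ = _ := one_mul _

theorem G3_card (N : ℕ) [NeZero N] (T : Finset ℕ) (hT : T ⊆ Finset.range N) :
    (Finset.univ.filter (fun x : ZMod N => x.val ∈ T)).card = T.card := by
  refine Finset.card_bij (fun x _ => x.val) ?_ ?_ ?_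
  · intro x hx
    exact (Finset.mem_filter.1 hx).2
  · intro x _ y _ h
    exact ZMod.val_injective N h
  · intro n hn
    have h1 : n < N := Finset.mem_range.1 (hT hn)
    refine ⟨(n : ZMod N), ?_, ZMod.val_cast_of_lt h1⟩
    rw [Finset.mem_filter]
    refine ⟨Finset.mem_univ _, ?_⟩
    rw [ZMod.val_cast_of_lt h1]
    exact hn

theorem G3_cell (N : ℕ) [NeZero N] (hN : N.Prime) (D : Finset ℕ) (U V : ℝ) (hU : 0 ≤ U)
    (hI : ∀ α β : ℕ, α ≤ β → β ≤ N →
      ((D.filter (fun n => α ≤ n ∧ n < β)).card : ℝ) ≤ U * ((β : ℝ) - α) + V)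
    (p : ℕ) (hp : 1 ≤ p) (hpN : p < N) (G : ℕ) (hG : 1 ≤ G) (j : ℕ) (hj : j < G)
    (X : Finset (ZMod N))
    (hX : ∀ x ∈ X, G * x.val / N = j ∧ (x.val ∈ D ∨ ((p : ZMod N) * x).val ∈ D)) :
    (X.card : ℝ) ≤ 3 * (U * (p * ((N : ℝ) / G + 2)) + V) := by
  classical
  have hN0 : 0 < N := hN.pos
  have : Fact N.Prime := ⟨hN⟩
  set α := j * N / G with hα
  set β := min N ((j + 1) * N / G + 1) with hβ
  have hαN : α ≤ N := by
    rw [hα]
    calc j * N / G ≤ G * N / G := Nat.div_le_div_right (Nat.mul_le_mul_right _ hj.le)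
      _ = N := Nat.mul_div_cancel_left N hG
  have hαβ : α ≤ β := by
    refine le_min hαN ?_
    have : j * N / G ≤ (j + 1) * N / G := Nat.div_le_div_right (Nat.mul_le_mul_right _ (by omega))
    omega
  have hlen : ((β : ℝ) - α) ≤ (N : ℝ) / G + 2 := by
    have h1 : (β : ℝ) ≤ ((j + 1) * N / G : ℕ) + 1 := by
      have : β ≤ (j + 1) * N / G + 1 := min_le_right _ _
      exact_mod_cast this
    have h2 : (((j + 1) * N / G : ℕ) : ℝ) ≤ ((j + 1 : ℕ) * N : ℕ) / (G : ℝ) := Nat.cast_div_le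
    have h3 : ((j * N : ℕ) : ℝ) / G - 1 ≤ α := by
      have h4 : j * N < G * (α + 1) := by
        rw [hα]
        exact Nat.lt_mul_div_succ (j * N) hG
      have h5 : ((j * N : ℕ) : ℝ) ≤ (G : ℝ) * (α + 1) := by exact_mod_cast h4.le
      have h6 : (0 : ℝ) < G := by exact_mod_cast hG
      have h7 : ((j * N : ℕ) : ℝ) / G ≤ α + 1 := by
        rw [div_le_iff₀ h6]
        linarith
      linarith
    have h6 : (0 : ℝ) < G := by exact_mod_cast hG
    have h8 : (((j + 1 : ℕ) * N : ℕ) : ℝ) / (G : ℝ) = ((j * N : ℕ) : ℝ) / G + (N : ℝ) / G := by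
      push_cast
      field_simp
    rw [h8] at h2
    linarith
  have hmem : ∀ x ∈ X, α ≤ x.val ∧ x.val < β := by
    intro x hx
    have h1 := (hX x hx).1
    have h2 : j * N ≤ G * x.val := by
      rw [← h1]
      exact Nat.div_mul_le_self _ _
    have h3 : G * x.val < (j + 1) * N := by
      rw [← h1, mul_comm _ N]
      exact Nat.lt_mul_div_succ _ hN0
    constructor
    · rw [hα]
      exact Nat.div_le_of_le_mul h2
    · refine lt_min (ZMod.val_lt x) ?_
      have h4 : x.val ≤ (j + 1) * N / G := by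
        rw [Nat.le_div_iff_mul_le hG, mul_comm]
        exact h3.le
      omega
  set ℓ := p * (β - α) with hℓ
  set a0 := (p * α) % N with ha0
  have hlen2 : (ℓ : ℝ) ≤ p * ((N : ℝ) / G + 2) := by
    rw [hℓ, Nat.cast_mul, Nat.cast_sub hαβ]
    exact mul_le_mul_of_nonneg_left hlen (Nat.cast_nonneg p)
  have hlen1 : ((β : ℝ) - α) ≤ p * ((N : ℝ) / G + 2) := by
    refine hlen.trans ?_
    have h1 : (1 : ℝ) ≤ p := by exact_mod_cast hp
    have h2 : 0 ≤ (N : ℝ) / G + 2 := by positivity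
    nlinarith
  have ha0N : a0 < N := Nat.mod_lt _ hN0
  -- first part
  have hA : ((X.filter (fun x => x.val ∈ D)).card : ℝ) ≤ U * (p * ((N : ℝ) / G + 2)) + V := by
    have h1 : (X.filter (fun x => x.val ∈ D)).card ≤
        (D.filter (fun n => α ≤ n ∧ n < β)).card := by
      refine Finset.card_le_card_of_injOn (fun x => x.val) ?_ ?_
      · intro x hx
        rw [Finset.mem_coe, Finset.mem_filter] at hx
        rw [Finset.mem_coe, Finset.mem_filter]
        exact ⟨hx.2, hmem x hx.1⟩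
      · intro x _ y _ h
        exact ZMod.val_injective N h
    have h2 : ((X.filter (fun x => x.val ∈ D)).card : ℝ) ≤
        (D.filter (fun n => α ≤ n ∧ n < β)).card := by exact_mod_cast h1
    have h3 := hI α β hαβ (min_le_left _ _)
    have h4 := mul_le_mul_of_nonneg_left hlen1 hU
    linarith
  -- second part
  have hB : ((X.filter (fun x => ¬ x.val ∈ D)).card : ℝ) ≤
      2 * (U * (p * ((N : ℝ) / G + 2)) + V) := by
    have h1 : (X.filter (fun x => ¬ x.val ∈ D)).card ≤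
        ((D.filter (fun n => a0 ≤ n ∧ n < min N (a0 + ℓ))) ∪
          (D.filter (fun n => 0 ≤ n ∧ n < min N ℓ))).card := by
      refine Finset.card_le_card_of_injOn (fun x => ((p : ZMod N) * x).val) ?_ ?_
      · intro x hx
        rw [Finset.mem_coe, Finset.mem_filter] at hx
        have hD : ((p : ZMod N) * x).val ∈ D := by
          rcases (hX x hx.1).2 with h | h
          · exact absurd h hx.2
          · exact h
        obtain ⟨h2, h3⟩ := hmem x hx.1
        have hw : ((p : ZMod N) * x).val = (p * x.val) % N := by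
          rw [ZMod.val_mul, ZMod.val_cast_of_lt hpN]
        have hwN : ((p : ZMod N) * x).val < N := ZMod.val_lt _
        have ht : p * x.val = p * α + p * (x.val - α) := by
          rw [← mul_add]
          congr 1
          omega
        have htl : p * (x.val - α) < ℓ := by
          rw [hℓ]
          exact Nat.mul_lt_mul_of_pos_left (by omega) hp
        have hw2 : ((p : ZMod N) * x).val = (a0 + p * (x.val - α)) % N := by
          rw [hw, ht, ha0, Nat.mod_add_mod]
        rw [Finset.mem_coe, Finset.mem_union, Finset.mem_filter, Finset.mem_filter]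
        show (_ ∧ a0 ≤ ((p : ZMod N) * x).val ∧ ((p : ZMod N) * x).val < min N (a0 + ℓ)) ∨
          (_ ∧ 0 ≤ ((p : ZMod N) * x).val ∧ ((p : ZMod N) * x).val < min N ℓ)
        by_cases h5 : a0 + p * (x.val - α) < N
        · left
          refine ⟨hD, ?_, ?_⟩
          · rw [hw2, Nat.mod_eq_of_lt h5]
            omega
          · refine lt_min hwN ?_
            rw [hw2, Nat.mod_eq_of_lt h5]
            omega
        · right
          refine ⟨hD, Nat.zero_le _, lt_min hwN ?_⟩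
          have h6 : (a0 + p * (x.val - α)) % N ≤ a0 + p * (x.val - α) - N := by
            rw [Nat.mod_eq_sub_mod (by omega)]
            exact Nat.mod_le _ _
          rw [hw2]
          omega
      · intro x _ y _ h
        have h2 := ZMod.val_injective N h
        have h3 : (p : ZMod N) ≠ 0 := by
          intro h4
          rw [ZMod.natCast_eq_zero_iff] at h4
          exact absurd (Nat.le_of_dvd hp h4) (by omega)
        exact mul_left_cancel₀ h3 h2
    have h2 := h1.trans (Finset.card_union_le _ _)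
    have h3 : ((X.filter (fun x => ¬ x.val ∈ D)).card : ℝ) ≤
        (D.filter (fun n => a0 ≤ n ∧ n < min N (a0 + ℓ))).card +
          (D.filter (fun n => 0 ≤ n ∧ n < min N ℓ)).card := by exact_mod_cast h2
    have h4 := hI a0 (min N (a0 + ℓ)) (le_min ha0N.le (by omega)) (min_le_left _ _)
    have h5 := hI 0 (min N ℓ) (Nat.zero_le _) (min_le_left _ _)
    have h6 : ((min N (a0 + ℓ) : ℕ) : ℝ) - a0 ≤ p * ((N : ℝ) / G + 2) := by
      have h7 : ((min N (a0 + ℓ) : ℕ) : ℝ) ≤ a0 + ℓ := by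
        have : min N (a0 + ℓ) ≤ a0 + ℓ := min_le_right _ _
        exact_mod_cast this
      linarith
    have h7 : ((min N ℓ : ℕ) : ℝ) - (0 : ℕ) ≤ p * ((N : ℝ) / G + 2) := by
      have h8 : ((min N ℓ : ℕ) : ℝ) ≤ ℓ := by
        have : min N ℓ ≤ ℓ := min_le_right _ _
        exact_mod_cast this
      rw [Nat.cast_zero]
      linarith
    have h8 := mul_le_mul_of_nonneg_left h6 hU
    have h9 := mul_le_mul_of_nonneg_left h7 hU
    have h10 := h4.trans (add_le_add_left h8 V)
    have h11 := h5.trans (add_le_add_left h9 V)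
    linarith
  have hsum : (X.card : ℝ) = (X.filter (fun x => x.val ∈ D)).card +
      (X.filter (fun x => ¬ x.val ∈ D)).card := by
    rw [← Finset.card_filter_add_card_filter_not (s := X) (fun x => x.val ∈ D)]
    push_cast
    ring
  rw [hsum]
  linarith

theorem G3_lam_c (N : ℕ) (c : ℕ → ℝ) (hN : 1 < N) (hc : QC N c) (P : ℕ)
    (h : ∀ p : ℕ, p.Prime → p ≤ P → c p = -1) :
    ∀ j, 1 ≤ j → j ≤ P → c j = lam j := by
  intro j
  induction j using Nat.strong_induction_on with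
  | _ j ih =>
    intro h1 h2
    by_cases hj : j = 1
    · subst hj
      have h3 := hc.mul 1 1
      rcases hc.val 1 (fun h5 => by
        have := Nat.le_of_dvd one_pos h5
        omega) with h4 | h4
      · rw [h4, MP_45349e_nt.LS.lam_one]
      · rw [mul_one, h4] at h3
        norm_num at h3
    · obtain ⟨p, hp, m, hm⟩ := Nat.exists_prime_and_dvd hj
      have hm0 : m ≠ 0 := by
        rintro rfl
        omega
      have hmj : m < j := by
        rw [hm]
        have := hp.two_le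
        nlinarith [Nat.pos_of_ne_zero hm0]
      have hpj : p ≤ j := by
        rw [hm]
        exact Nat.le_mul_of_pos_right p (Nat.pos_of_ne_zero hm0)
      rw [hm, hc.mul, MP_45349e_nt.LS.lam_mul p m hp.ne_zero hm0, h p hp (hpj.trans h2),
        MP_45349e_nt.LS.lam_prime p hp,
        ih m hmj (Nat.one_le_iff_ne_zero.2 hm0) (hmj.le.trans h2)]

theorem G3_num (B : ℕ) (C1 C2 K P G n m d J p : ℝ) (hC1 : 0 < C1) (hC2 : 0 < C2) (hK : 1 ≤ K)
    (hK2 : 27 * C1 * C2 ≤ K) (hP0 : 0 ≤ P) (hP : P ≤ K ^ 4000) (hG : 1 ≤ G) (hGn : G ≤ n)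
    (hd : 0 ≤ d) (hp0 : 0 ≤ p) (hp : p ≤ P) (hJ : J ≤ C1 * P ^ 6 * G / K ^ (28002 + B))
    (hm : 0 ≤ m) (hfin : 9 * C1 * C2 * K ^ B * (G * m) ≤ d) :
    J * (3 * (C2 * K / n * d * (p * (n / G + 2)) + C2 * m * K ^ 3)) ≤ 2 / 3 * (d / K ^ B) := by
  have hK0 : 0 < K := by linarith
  have hG0 : 0 < G := by linarith
  have hn0 : 0 < n := by linarith
  have hKB : 0 < K ^ B := by positivity
  have e1 : n / G + 2 ≤ 3 * n / G := by
    have : 1 ≤ n / G := by rwa [one_le_div hG0]
    have h2 : 3 * n / G = n / G + 2 * (n / G) := by ring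
    rw [h2]
    linarith
  have e2 : C2 * K / n * d * (p * (n / G + 2)) ≤ 3 * C2 * K * d * P / G := by
    calc C2 * K / n * d * (p * (n / G + 2)) ≤ C2 * K / n * d * (P * (3 * n / G)) := by
          refine mul_le_mul_of_nonneg_left ?_ (by positivity)
          exact mul_le_mul hp e1 (by positivity) hP0
      _ = 3 * C2 * K * d * P / G := by field_simp
  have e3 : J * (3 * (C2 * K / n * d * (p * (n / G + 2)) + C2 * m * K ^ 3)) ≤
      C1 * P ^ 6 * G / K ^ (28002 + B) *
        (3 * (3 * C2 * K * d * P / G + C2 * m * K ^ 3)) := by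
    refine mul_le_mul hJ ?_ (by positivity) (by positivity)
    linarith
  have e4 : C1 * P ^ 6 * G / K ^ (28002 + B) *
        (3 * (3 * C2 * K * d * P / G + C2 * m * K ^ 3)) =
      9 * C1 * C2 * (P ^ 7 * K) * d / K ^ (28002 + B) +
        3 * C1 * C2 * (P ^ 6 * K ^ 3) * (G * m) / K ^ (28002 + B) := by
    field_simp
    ring
  have e5 : P ^ 7 * K ≤ K ^ 28001 := by
    calc P ^ 7 * K ≤ (K ^ 4000) ^ 7 * K := by gcongr
      _ = K ^ 28001 := by rw [← pow_mul, ← pow_succ]
  have e6 : P ^ 6 * K ^ 3 ≤ K ^ (28002 + B) := by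
    calc P ^ 6 * K ^ 3 ≤ (K ^ 4000) ^ 6 * K ^ 3 := by gcongr
      _ = K ^ 24003 := by rw [← pow_mul, ← pow_add]
      _ ≤ K ^ (28002 + B) := pow_le_pow_right₀ hK (by omega)
  have hr : K ^ (28002 + B) = K ^ 28001 * K * K ^ B := by
    rw [← pow_succ, ← pow_add]
  have e7 : 9 * C1 * C2 * (P ^ 7 * K) * d / K ^ (28002 + B) ≤ 1 / 3 * (d / K ^ B) := by
    calc 9 * C1 * C2 * (P ^ 7 * K) * d / K ^ (28002 + B)
        ≤ 9 * C1 * C2 * K ^ 28001 * d / K ^ (28002 + B) := by gcongr
      _ = 9 * C1 * C2 / K * (d / K ^ B) := by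
          rw [hr]
          field_simp
      _ ≤ 1 / 3 * (d / K ^ B) := by
          refine mul_le_mul_of_nonneg_right ?_ (by positivity)
          rw [div_le_iff₀ hK0]
          linarith
  have e8 : 3 * C1 * C2 * (P ^ 6 * K ^ 3) * (G * m) / K ^ (28002 + B) ≤ 1 / 3 * (d / K ^ B) := by
    calc 3 * C1 * C2 * (P ^ 6 * K ^ 3) * (G * m) / K ^ (28002 + B)
        ≤ 3 * C1 * C2 * K ^ (28002 + B) * (G * m) / K ^ (28002 + B) := by gcongr
      _ = 3 * C1 * C2 * (G * m) := by field_simp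
      _ ≤ 1 / 3 * (d / K ^ B) := by
          rw [mul_div_assoc', le_div_iff₀ hKB]
          linarith
  rw [e4] at e3
  linarith

theorem G3 (B : ℕ) : ∃ A N0 : ℕ, ∀ (N : ℕ) [NeZero N], N0 ≤ N → N.Prime → ∀ (c : ℕ → ℝ) (L : ℝ),
    QC N c → LV N c L → (N : ℝ) ^ (-(1 / 90) : ℝ) ≤ L → (∀ p : ℕ, p.Prime → p ≤ PP N → c p = -1) →
    (∀ q ∈ Qp N c, PP N < q) → 100 ≤ PP N → ∀ η : ℝ, (η = 1 ∨ η = -1) →
    (∀ n : ℕ, 0 < n → n < N → c (N - n) = η * c n) →
    sig N c ≤ 1 / 100 → ((RE N η).card : ℝ) ≤ (DD N c).card / (Real.log N) ^ A →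
    ∀ p : ℕ, p.Prime → p ≤ PP N →
      ∑ x : ZMod N, (fd N c ((p : ZMod N) * x) - 1 * fd N c x) ^ 2 ≤
        nsq (fd N c) / (Real.log N) ^ B := by
  classical
  obtain ⟨C1, N1, hC1, hE⟩ := EXB (28002 + B)
  obtain ⟨C2, N2, hC2, hF⟩ := F7
  obtain ⟨N3, hZ⟩ := F5z
  obtain ⟨N4, h4⟩ := G3_ev (28002 + B + B) (6 * C1) (197 / 200) (by norm_num)
  obtain ⟨N5, h5⟩ := G3_ev B (9 * C1 * C2) (1 / 400) (by norm_num)
  obtain ⟨N6, h6⟩ := G3_ev 4000 1 (1 / 2) (by norm_num)
  have hlog : Filter.Tendsto (fun N : ℕ => Real.log (N : ℝ)) Filter.atTop Filter.atTop :=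
    Real.tendsto_log_atTop.comp tendsto_natCast_atTop_atTop
  obtain ⟨N7, h7⟩ := Filter.eventually_atTop.1
    (hlog.eventually_ge_atTop (1 + 6 * C1 + 27 * C1 * C2))
  refine ⟨28003 + B + B, max N1 (max N2 (max N3 (max N4 (max N5 (max N6 (max N7 4)))))), ?_⟩
  intro N _ hN hNp c L hc hL hL90 hsmall hqbig hPP η hη hneg hsig hEE p hp hpP
  simp only [max_le_iff] at hN
  obtain ⟨hN1, hN2, hN3, hN4, hN5, hN6, hN7, hN8⟩ := hN
  have : Fact N.Prime := ⟨hNp⟩
  set K := Real.log N with hK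
  have hC12 : 0 < C1 * C2 := mul_pos hC1 hC2
  have hKge := h7 N hN7
  have hK1 : 1 ≤ K := by
    have : 0 < 27 * C1 * C2 := by positivity
    linarith
  have hK2 : 27 * C1 * C2 ≤ K := by linarith
  have hK3 : 6 * C1 ≤ K := by
    have : 0 < 27 * C1 * C2 := by positivity
    linarith
  have hK0 : 0 < K := by linarith
  have hNR : (4 : ℝ) ≤ N := by exact_mod_cast hN8
  have hN0 : (0 : ℝ) < N := by linarith
  -- bounds for PP and Ga
  have hPle : (PP N : ℝ) ≤ K ^ 4000 := by
    unfold PP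
    exact Nat.floor_le (by positivity)
  have hPN : PP N < N := by
    have h8 : (PP N : ℝ) ≤ (N : ℝ) ^ ((1 : ℝ) / 2) := by
      have := h6 N hN6
      rw [one_mul] at this
      exact hPle.trans this
    have h9 : (N : ℝ) ^ ((1 : ℝ) / 2) < (N : ℝ) ^ (1 : ℝ) :=
      Real.rpow_lt_rpow_of_exponent_lt (by linarith) (by norm_num)
    rw [Real.rpow_one] at h9
    exact_mod_cast h8.trans_lt h9
  have hG1 : 1 ≤ Ga N := by
    unfold Ga
    rw [Nat.one_le_floor_iff]
    exact Real.one_le_rpow (by linarith) (by norm_num)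
  have hGle : (Ga N : ℝ) ≤ (N : ℝ) ^ ((1 : ℝ) / 400) := by
    unfold Ga
    exact Nat.floor_le (by positivity)
  have hGN : (Ga N : ℝ) ≤ N := by
    refine hGle.trans ?_
    calc (N : ℝ) ^ ((1 : ℝ) / 400) ≤ (N : ℝ) ^ (1 : ℝ) :=
          Real.rpow_le_rpow_of_exponent_le (by linarith) (by norm_num)
      _ = N := Real.rpow_one _
  set D := DD N c with hD
  have hDr : D ⊆ Finset.range N := Finset.filter_subset _ _
  have hq100 : ∀ q ∈ Qp N c, 100 ≤ q := fun q hq => hPP.trans (hqbig q hq).le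
  obtain ⟨-, hd⟩ := hZ N hN3 hNp c L hc hL hL90 hq100 hsig
  have hlamc := G3_lam_c N c (by omega) hc (PP N) hsmall
  have hlamv : ∀ n, lam n = 1 ∨ lam n = -1 := fun n => by
    have := MP_45349e_nt.LS.abs_lam n
    rcases abs_eq (zero_le_one) |>.1 this with h | h
    · exact Or.inl h
    · exact Or.inr h
  have hmemD : ∀ n, n ∈ D ↔ (n < N ∧ 0 < n ∧ lam n ≠ c n) := by
    intro n
    rw [hD]
    unfold DD
    rw [Finset.mem_filter, Finset.mem_range]
  have hcv : ∀ n, 0 < n → n < N → c n = 1 ∨ c n = -1 := fun n h1 h2 =>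
    hc.val n (fun h3 => by
      have := Nat.le_of_dvd h1 h3
      omega)
  -- the exceptional set
  set E : Finset (ZMod N) := Finset.univ.filter (fun x => x.val ∈ RE N η) with hEdef
  have hEEr : RE N η ⊆ Finset.range N := Finset.filter_subset _ _
  have hEcard : E.card = (RE N η).card := G3_card N (RE N η) hEEr
  have hnegval : ∀ x : ZMod N, x ≠ 0 → (-x).val = N - x.val := by
    intro x hx
    rw [ZMod.neg_val, if_neg hx]
  have hvpos : ∀ x : ZMod N, x ≠ 0 → 0 < x.val := fun x hx =>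
    Nat.pos_of_ne_zero (fun h => hx ((ZMod.val_eq_zero x).1 h))
  have hmemEE : ∀ n, n ∈ RE N η ↔ (n < N ∧ 0 < n ∧ lam (N - n) ≠ η * lam n) := RE_mem N η
  have hE1 : ∀ x ∈ E, -x ∈ E := by
    intro x hx
    rw [hEdef, Finset.mem_filter] at hx ⊢
    refine ⟨Finset.mem_univ _, ?_⟩
    have h8 := (hmemEE _).1 hx.2
    have hx0 : x ≠ 0 := by
      rintro rfl
      rw [ZMod.val_zero] at h8
      omega
    rw [hnegval x hx0]
    exact RE_sym N η hη x.val hx.2
  have hη0 : η ≠ 0 := by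
    rcases hη with h | h <;> rw [h] <;> norm_num
  have hE2 : ∀ x, x ≠ 0 → x ∉ E → fd N c (-x) = 1 * fd N c x := by
    intro x hx hxE
    have hv := hvpos x hx
    have hvN := ZMod.val_lt x
    have h9 : lam (N - x.val) = η * lam x.val := by
      by_contra h9
      apply hxE
      rw [hEdef, Finset.mem_filter]
      exact ⟨Finset.mem_univ _, (hmemEE _).2 ⟨hvN, hv, h9⟩⟩
    have h10 : (-x).val ∈ D ↔ x.val ∈ D := by
      rw [hmemD, hmemD, hnegval x hx, h9, hneg x.val hv hvN]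
      constructor
      · rintro ⟨-, -, h⟩
        exact ⟨hvN, hv, fun h' => h (by rw [h'])⟩
      · rintro ⟨-, -, h⟩
        exact ⟨by omega, by omega, fun h' => h (mul_left_cancel₀ hη0 h')⟩
    unfold fd
    rw [one_mul]
    by_cases h11 : x.val ∈ D
    · rw [if_pos (h10.2 h11), if_pos h11]
    · rw [if_neg (fun h => h11 (h10.1 h)), if_neg h11]
  have hloc : ∀ j n : ℕ, 1 ≤ j → j ≤ PP N → 1 ≤ n → j * n < N →
      fd N c ((j * n : ℕ) : ZMod N) = (fun _ : ℕ => (1 : ℝ)) j * fd N c (n : ZMod N) := by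
    intro j n hj1 hj2 hn hjn
    have hnN : n < N := lt_of_le_of_lt (Nat.le_mul_of_pos_left n hj1) hjn
    have h8 : j * n ∈ D ↔ n ∈ D := by
      have h9 := hlamc j hj1 hj2
      have h10 : lam j ≠ 0 := by
        rcases hlamv j with h | h <;> rw [h] <;> norm_num
      rw [hmemD, hmemD, MP_45349e_nt.LS.lam_mul j n (by omega) (by omega), hc.mul, h9]
      constructor
      · rintro ⟨-, -, h⟩
        exact ⟨hnN, hn, fun h' => h (by rw [h'])⟩
      · rintro ⟨-, -, h⟩
        exact ⟨hjn, Nat.mul_pos hj1 hn, fun h' => h (mul_left_cancel₀ h10 h')⟩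
    show fd N c ((j * n : ℕ) : ZMod N) = 1 * fd N c (n : ZMod N)
    unfold fd
    rw [one_mul, ZMod.val_cast_of_lt hjn, ZMod.val_cast_of_lt hnN]
    by_cases h11 : n ∈ D
    · rw [if_pos (h8.2 h11), if_pos h11]
    · rw [if_neg (fun h => h11 (h8.1 h)), if_neg h11]
  obtain ⟨Js, hJ1, hJ2, hJ3⟩ := hE N hN1 hNp (fd N c) 1 1 (fun _ => 1) E (by norm_num) rfl
    (fun _ _ _ => by norm_num) (fun _ _ _ => rfl) hE1 hE2 hloc p hp hpP
  -- the sum is a number of elements
  have hfv : ∀ x : ZMod N, fd N c x = if x.val ∈ D then 1 else 0 := fun x => rfl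
  set S : Finset (ZMod N) := Finset.univ.filter
    (fun x => fd N c ((p : ZMod N) * x) ≠ fd N c x) with hS
  have hsum : ∑ x : ZMod N, (fd N c ((p : ZMod N) * x) - 1 * fd N c x) ^ 2 = (S.card : ℝ) := by
    rw [hS, Finset.card_filter, Nat.cast_sum]
    refine Finset.sum_congr rfl fun x _ => ?_
    rw [hfv, hfv]
    by_cases h8 : ((p : ZMod N) * x).val ∈ D <;> by_cases h9 : x.val ∈ D <;> simp [h8, h9]
  have hnsq : nsq (fd N c) = (D.card : ℝ) := by
    unfold nsq
    rw [← G3_card N D hDr, Finset.card_filter, Nat.cast_sum]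
    refine Finset.sum_congr rfl fun x _ => ?_
    rw [hfv]
    by_cases h9 : x.val ∈ D <;> simp [h9]
  rw [hsum, hnsq]
  set d : ℝ := (D.card : ℝ) with hd_def
  have hd0 : 0 ≤ d := Nat.cast_nonneg _
  have hKB : 0 < K ^ B := by positivity
  -- outside of the cells
  have hA1 : ((S.filter (fun x => ¬ (Ga N * x.val / N ∈ Js))).card : ℝ) ≤
      1 / 3 * (d / K ^ B) := by
    have h8 := hJ3 (S.filter (fun x => ¬ (Ga N * x.val / N ∈ Js))) (by
      intro x hx
      rw [Finset.mem_filter, hS, Finset.mem_filter] at hx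
      refine ⟨?_, ?_, hx.2⟩
      · rintro rfl
        exact hx.1.2 (by rw [mul_zero])
      · rw [one_mul]
        exact hx.1.2)
    refine h8.trans ?_
    rw [hEcard]
    have h9 : C1 * K ^ (28002 + B) * ((RE N η).card + 1) ≤
        C1 * K ^ (28002 + B) * (d / K ^ (28003 + B + B) + 1) := by
      refine mul_le_mul_of_nonneg_left ?_ (by positivity)
      linarith
    refine h9.trans ?_
    have h10 : C1 * K ^ (28002 + B) * (d / K ^ (28003 + B + B)) = C1 / K * (d / K ^ B) := by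
      have h11 : K ^ (28003 + B + B) = K ^ (28002 + B) * K * K ^ B := by
        rw [← pow_succ, ← pow_add]
        congr 1
        ring
      rw [h11]
      field_simp
    have h11 : C1 / K * (d / K ^ B) ≤ 1 / 6 * (d / K ^ B) := by
      refine mul_le_mul_of_nonneg_right ?_ (by positivity)
      rw [div_le_iff₀ hK0]
      linarith
    have h12 : C1 * K ^ (28002 + B) ≤ 1 / 6 * (d / K ^ B) := by
      rw [mul_div_assoc', le_div_iff₀ hKB]
      have h13 := (h4 N hN4).trans hd
      rw [pow_add K (28002 + B) B] at h13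
      linarith
    rw [mul_add, mul_one, h10]
    linarith
  -- inside of the cells
  have hA2 : ((S.filter (fun x => Ga N * x.val / N ∈ Js)).card : ℝ) ≤
      2 / 3 * (d / K ^ B) := by
    set V : ℝ := C2 * (N : ℝ) ^ ((49 : ℝ) / 50) * K ^ 3 with hV
    set U : ℝ := C2 * K / N * d with hU
    have hI : ∀ α β : ℕ, α ≤ β → β ≤ N →
        ((D.filter (fun n => α ≤ n ∧ n < β)).card : ℝ) ≤ U * ((β : ℝ) - α) + V := by
      intro α β hαβ hβ
      have h8 := hF N hN2 hNp c L hc hL hL90 hq100 hsig α β hαβ hβ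
      refine h8.trans (le_of_eq ?_)
      rw [hU, hV]
      ring
    have h9 : (S.filter (fun x => Ga N * x.val / N ∈ Js)).card =
        ∑ j ∈ Js, ((S.filter (fun x => Ga N * x.val / N ∈ Js)).filter
          (fun x => Ga N * x.val / N = j)).card :=
      Finset.card_eq_sum_card_fiberwise (fun x hx => by
        rw [Finset.mem_coe, Finset.mem_filter] at hx
        exact hx.2)
    have h10 : ((S.filter (fun x => Ga N * x.val / N ∈ Js)).card : ℝ) ≤
        Js.card * (3 * (U * (p * ((N : ℝ) / Ga N + 2)) + V)) := by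
      rw [h9, Nat.cast_sum, ← nsmul_eq_mul, ← Finset.sum_const]
      refine Finset.sum_le_sum fun j hj => ?_
      refine G3_cell N hNp D U V (by positivity) hI p hp.one_lt.le (by omega) (Ga N) hG1 j
        (hJ1 j hj) _ ?_
      intro x hx
      rw [Finset.mem_filter, Finset.mem_filter, hS, Finset.mem_filter] at hx
      refine ⟨hx.2, ?_⟩
      by_contra h11
      rw [not_or] at h11
      apply hx.1.1.2
      rw [hfv, hfv, if_neg h11.1, if_neg h11.2]
    refine h10.trans ?_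
    refine G3_num B C1 C2 K (PP N) (Ga N) N ((N : ℝ) ^ ((49 : ℝ) / 50)) d Js.card p hC1 hC2 hK1
      hK2 (Nat.cast_nonneg _) hPle (by exact_mod_cast hG1) hGN hd0 (Nat.cast_nonneg _)
      (by exact_mod_cast hpP) hJ2 (by positivity) ?_
    have h11 := h5 N hN5
    calc 9 * C1 * C2 * K ^ B * (Ga N * (N : ℝ) ^ ((49 : ℝ) / 50))
        ≤ (N : ℝ) ^ ((1 : ℝ) / 400) * ((N : ℝ) ^ ((1 : ℝ) / 400) * (N : ℝ) ^ ((49 : ℝ) / 50)) := by
          refine mul_le_mul h11 ?_ (by positivity) (by positivity)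
          exact mul_le_mul_of_nonneg_right hGle (by positivity)
      _ = (N : ℝ) ^ ((197 : ℝ) / 200) := by
          rw [← Real.rpow_add hN0, ← Real.rpow_add hN0]
          norm_num
      _ ≤ d := hd
  have hsplit : (S.card : ℝ) = (S.filter (fun x => Ga N * x.val / N ∈ Js)).card +
      (S.filter (fun x => ¬ (Ga N * x.val / N ∈ Js))).card := by
    rw [← Finset.card_filter_add_card_filter_not (s := S) (fun x => Ga N * x.val / N ∈ Js)]
    push_cast
    ring
  rw [hsplit]
  linarith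

end Pool.Agent.Lib.MP_7b7e48_nt.LG
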