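import Pool.Agent.Lib.MP_7b7e48_nt.LG.Defs
import Pool.Agent.Lib.MP_7b7e48_nt.LG.G2c
import Pool.Agent.Lib.MP_7b7e48_nt.LG.G3
import Pool.Agent.Lib.MP_7b7e48_nt.LG.F6
import Pool.Agent.Lib.MP_7b7e48_nt.LG.SPEC
import Pool.Agent.Lib.MP_7b7e48_nt.LG.Ref
import Pool.Agent.Lib.MP_45349e_nt.LS.LamB

/-!
# Module G4 (60 minutes): primes

PROOF. Suppose `N` is a large prime and `#ES N s < N^(9/10)`. `E0b` (`A` large): `#EE ≤ N/K^A`. `G2c` gives
`c, L`. `F6`: `|∑ lam| ≤ #DD/K^(A'+1)`, `E0a`: `#EE ≤ 2 N^(9/10) + #DD/K^(A'+1) ≤ #DD/K^A'` (`#DD ≥ N^(197/200)`,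
`F5z`). `G3`, then `SPEC` with `s = 1`, `A = 1`, `F = fd N c`, `Q = Qp N c` (`Hyp.loc`: for a prime
`l ∉ Qp`, `l < N`: `c l = -1 = lam l`, so `l n ∈ DD` iff `n ∈ DD`; `Hyp.rsm`: `sig` small; `Hyp.pos`: `DD`
nonempty): `χ = 1`, `bc F 1 = #DD/(N-1)`, `nsq F = #DD`, so `(1 - 1/K) #DD ≤ #DD^2/(N-1)`, i.e.
`#DD ≥ (N-1)/2`, against `#DD ≤ N/K^B`.
-/

open Finset
open Pool.Agent.Lib.MP_45349e_nt.LS (lam)

namespace Pool.Agent.Lib.MP_7b7e48_nt.LG

theorem G4_log (A : ℕ) (C δ : ℝ) (hC : 0 ≤ C) (hδ : 0 < δ) : ∃ N0 : ℕ, ∀ N : ℕ, N0 ≤ N →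
    C * (Real.log N) ^ A ≤ (N : ℝ) ^ δ := by
  have h1 := (Real.isLittleO_pow_log_id_atTop (n := A)).comp_tendsto (tendsto_rpow_atTop hδ)
  have h2 := h1.comp_tendsto tendsto_natCast_atTop_atTop
  have h3 := h2.bound (show (0 : ℝ) < δ ^ A / (C + 1) by positivity)
  obtain ⟨N0, hN0⟩ := Filter.eventually_atTop.mp h3
  refine ⟨max N0 1, fun N hN => ?_⟩
  have h4 := hN0 N (le_trans (le_max_left _ _) hN)
  have hN1 : 1 ≤ N := le_trans (le_max_right _ _) hN
  have hNr : (1 : ℝ) ≤ N := by exact_mod_cast hN1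
  simp only [Function.comp, id] at h4
  rw [Real.log_rpow (by linarith), Real.norm_of_nonneg (by positivity),
    Real.norm_of_nonneg (by positivity), mul_pow] at h4
  have hlog : 0 ≤ Real.log N := Real.log_natCast_nonneg N
  have h5 : Real.log N ^ A ≤ 1 / (C + 1) * (N : ℝ) ^ δ := by
    have h6 : 0 < δ ^ A := by positivity
    have h7 : δ ^ A * Real.log N ^ A ≤ δ ^ A * (1 / (C + 1) * (N : ℝ) ^ δ) := by
      refine le_trans h4 (le_of_eq ?_)
      ring
    exact le_of_mul_le_mul_left h7 h6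
  calc C * Real.log N ^ A ≤ (C + 1) * Real.log N ^ A := by
        apply mul_le_mul_of_nonneg_right (by linarith) (by positivity)
    _ ≤ (C + 1) * (1 / (C + 1) * (N : ℝ) ^ δ) := by
        apply mul_le_mul_of_nonneg_left h5 (by linarith)
    _ = (N : ℝ) ^ δ := by
        field_simp

theorem G4_K (A : ℝ) : ∃ N0 : ℕ, ∀ N : ℕ, N0 ≤ N → A ≤ Real.log N := by
  have h := Real.tendsto_log_atTop.comp (tendsto_natCast_atTop_atTop (R := ℝ))
  obtain ⟨N0, h0⟩ := Filter.eventually_atTop.mp (h.eventually_ge_atTop A)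
  exact ⟨N0, h0⟩

theorem G4_nsq (N : ℕ) [NeZero N] (c : ℕ → ℝ) : nsq (fd N c) = (DD N c).card ∧
    ∑ x : ZMod N, fd N c x = (DD N c).card := by
  classical
  have h1 : ∀ x : ZMod N, fd N c x ^ 2 = fd N c x := by
    intro x
    unfold fd
    split_ifs <;> norm_num
  have h2 : ∑ x : ZMod N, fd N c x = (DD N c).card := by
    unfold fd
    rw [← Finset.sum_filter, Finset.sum_const, nsmul_eq_mul, mul_one]
    congr 1
    refine Finset.card_bij (fun x _ => x.val) ?_ ?_ ?_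
    · intro x hx
      exact (Finset.mem_filter.mp hx).2
    · intro x _ y _ hxy
      exact ZMod.val_injective N hxy
    · intro n hn
      have hlt : n < N := Finset.mem_range.mp (Finset.mem_filter.mp hn).1
      refine ⟨(n : ZMod N), ?_, ZMod.val_cast_of_lt hlt⟩
      refine Finset.mem_filter.mpr ⟨Finset.mem_univ _, ?_⟩
      rw [ZMod.val_cast_of_lt hlt]
      exact hn
  refine ⟨?_, h2⟩
  unfold nsq
  rw [← h2]
  exact Finset.sum_congr rfl fun x _ => h1 x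

theorem G4_zero (N : ℕ) [NeZero N] (c : ℕ → ℝ) : fd N c 0 = 0 := by
  unfold fd
  rw [if_neg]
  rw [ZMod.val_zero]
  intro h
  exact lt_irrefl 0 (Finset.mem_filter.mp h).2.1

theorem G4_loc (N : ℕ) [NeZero N] (c : ℕ → ℝ) (hc : QC N c) (l n : ℕ) (hl : l.Prime)
    (hlQ : l ∉ Qp N c) (hn : 1 ≤ n) (hln : l * n < N) :
    fd N c ((l * n : ℕ) : ZMod N) = 1 * fd N c (n : ZMod N) := by
  have hlN : l < N := lt_of_le_of_lt (Nat.le_mul_of_pos_right l hn) hln
  have hnN : n < N := lt_of_le_of_lt (Nat.le_mul_of_pos_left n hl.pos) hln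
  have hcl : c l = -1 := by
    rcases hc.val l (fun h => absurd (Nat.le_of_dvd hl.pos h) (by omega)) with h | h
    · exact absurd (Finset.mem_filter.mpr ⟨Finset.mem_range.mpr hlN, hl, h⟩) hlQ
    · exact h
  have hll : lam l = -1 := MP_45349e_nt.LS.lam_prime l hl
  have hmem : (l * n) ∈ DD N c ↔ n ∈ DD N c := by
    unfold DD
    rw [Finset.mem_filter, Finset.mem_filter, Finset.mem_range, Finset.mem_range, hc.mul,
      MP_45349e_nt.LS.lam_mul l n hl.ne_zero (by omega), hcl, hll]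
    constructor
    · rintro ⟨_, _, h⟩
      exact ⟨hnN, hn, fun h2 => h (by rw [h2])⟩
    · rintro ⟨_, _, h⟩
      exact ⟨hln, Nat.mul_pos hl.pos hn, fun h2 => h (by linarith)⟩
  unfold fd
  rw [ZMod.val_cast_of_lt hln, ZMod.val_cast_of_lt hnN, one_mul]
  by_cases h : n ∈ DD N c
  · rw [if_pos h, if_pos (hmem.mpr h)]
  · rw [if_neg h, if_neg (fun h2 => h (hmem.mp h2))]

theorem G4_bc (N : ℕ) [NeZero N] (hN : N.Prime) (c : ℕ → ℝ) :
    ‖bc (fd N c) (1 : DirichletCharacter ℂ N)‖ = (DD N c).card / ((N : ℝ) - 1) := by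
  haveI : Fact N.Prime := ⟨hN⟩
  have h1 : ∑ x : ZMod N, (fd N c x : ℂ) * (starRingEnd ℂ) ((1 : DirichletCharacter ℂ N) x) =
      (((DD N c).card : ℝ) : ℂ) := by
    rw [← (G4_nsq N c).2, Complex.ofReal_sum]
    refine Finset.sum_congr rfl fun x _ => ?_
    by_cases hx : x = 0
    · rw [hx, G4_zero]
      simp
    · rw [MulChar.one_apply (isUnit_iff_ne_zero.mpr hx)]
      simp
  have h2 : (0 : ℝ) < (N : ℝ) - 1 := by
    have : (1 : ℝ) < N := by exact_mod_cast hN.one_lt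
    linarith
  unfold bc
  rw [h1]
  have h3 : (1 / ((N : ℂ) - 1)) * (((DD N c).card : ℝ) : ℂ) =
      (((DD N c).card / ((N : ℝ) - 1) : ℝ) : ℂ) := by
    push_cast
    ring
  rw [h3, Complex.norm_real, Real.norm_of_nonneg (by positivity)]

/-- **Primes.** Every pattern of signs has at least `N ^ (1 - ε)` representations. -/
theorem G4 (ε : ℝ) (hε : 0 < ε) : ∃ N0 : ℕ, ∀ N : ℕ, N0 ≤ N → N.Prime → ∀ s t : ℝ,
    (s = 1 ∨ s = -1) → (t = 1 ∨ t = -1) → (N : ℝ) ^ (1 - ε) ≤ (ES2 N s t).card := by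
  have hδ : 0 < min (ε / 2) (1 / 90) := lt_min (by linarith) (by norm_num)
  obtain ⟨BS, NS, hS⟩ := SPEC 1
  obtain ⟨A3, N3, h3⟩ := G3 BS
  obtain ⟨B6, N6, h6⟩ := F6 (A3 + 1)
  obtain ⟨A2, N2, h2⟩ := G2c (max (max B6 BS) 2) (min (ε / 2) (1 / 90)) hδ (min_le_right _ _)
  obtain ⟨N5, h5⟩ := F5z
  obtain ⟨C, hC, hE⟩ := RE_cardb (A2 + 1)
  obtain ⟨n1, hn1⟩ := G4_log A2 4 ε (by norm_num) hε
  obtain ⟨n2, hn2⟩ := G4_log A3 400 (ε / 2) (by norm_num) (by linarith)
  obtain ⟨n3, hn3⟩ := G4_K (max 100 (2 * C))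
  refine ⟨NS + N3 + N6 + N2 + N5 + n1 + n2 + n3 + 3, fun N hN hp s t hs ht => ?_⟩
  by_contra hcon
  push Not at hcon
  haveI : NeZero N := ⟨hp.ne_zero⟩
  have hη : -(s * t) = 1 ∨ -(s * t) = -1 := by
    rcases hs with h | h <;> rcases ht with h' | h' <;> rw [h, h'] <;> norm_num
  have hRE := RE_card N s t hs ht
  have hEN := hE N (by omega) s t hs ht
  obtain ⟨η, hηd⟩ : ∃ η : ℝ, η = -(s * t) := ⟨_, rfl⟩
  rw [← hηd] at hη hRE hEN
  have hK := hn3 N (by omega)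
  have hK100 : 100 ≤ Real.log N := le_trans (le_max_left _ _) hK
  have hKC : 2 * C ≤ Real.log N := le_trans (le_max_right _ _) hK
  have hN0 : (0 : ℝ) < N := by exact_mod_cast hp.pos
  have hN3 : (3 : ℝ) ≤ N := by exact_mod_cast (by omega : 3 ≤ N)
  set K := Real.log N with hKdef
  have hKpos : 0 < K := by linarith
  have hKA2 : 0 < K ^ A2 := pow_pos hKpos _
  have hKA3 : 0 < K ^ A3 := pow_pos hKpos _
  -- (a)
  have ha : ((RE N η).card : ℝ) ≤ N / K ^ A2 := by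
    have h8 := hn1 N (by omega)
    have h9 : 2 * (N : ℝ) ^ (1 - ε) ≤ (N / K ^ A2) / 2 := by
      rw [div_div, le_div_iff₀ (by positivity)]
      have h10 : (N : ℝ) ^ (1 - ε) * (N : ℝ) ^ ε = N := by
        rw [← Real.rpow_add hN0, sub_add_cancel, Real.rpow_one]
      have h11 : (0 : ℝ) ≤ (N : ℝ) ^ (1 - ε) := by positivity
      calc 2 * (N : ℝ) ^ (1 - ε) * (K ^ A2 * 2)
          = (N : ℝ) ^ (1 - ε) * (4 * K ^ A2) := by ring
        _ ≤ (N : ℝ) ^ (1 - ε) * (N : ℝ) ^ ε :=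
            mul_le_mul_of_nonneg_left h8 h11
        _ = N := h10
    have h12 : C * N / K ^ (A2 + 1) ≤ (N / K ^ A2) / 2 := by
      rw [pow_succ, div_le_div_iff₀ (by positivity) (by positivity)]
      have h13 : C * N * 2 * K ^ A2 ≤ N * (K ^ A2 * K) := by
        have : (C * 2) * (N * K ^ A2) ≤ K * (N * K ^ A2) := by
          apply mul_le_mul_of_nonneg_right (by linarith) (by positivity)
        linarith
      rw [div_mul_eq_mul_div, le_div_iff₀ (by positivity)]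
      linarith
    linarith
  obtain ⟨c, L, hc, hLV, hL, hLδ, hcp, hQ, hPP, hneg, hD, hsig⟩ := h2 N (by omega) hp η hη ha
  have hKpow : ∀ m n : ℕ, m ≤ n → 1 / K ^ n ≤ 1 / K ^ m := by
    intro m n hmn
    exact one_div_le_one_div_of_le (pow_pos hKpos _) (pow_le_pow_right₀ (by linarith) hmn)
  have hsig100 : sig N c ≤ 1 / 100 := by
    refine le_trans hsig (le_trans (hKpow 1 _ (le_trans (by norm_num) (le_max_right _ _))) ?_)
    rw [pow_one]
    exact one_div_le_one_div_of_le (by norm_num) hK100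
  have hQ100 : ∀ q ∈ Qp N c, 100 ≤ q := fun q hq => le_trans hPP (hQ q hq).le
  obtain ⟨hD5', hD5⟩ := h5 N (by omega) hp c L hc hLV hL hQ100 hsig100
  have hDpos : (0 : ℝ) < (DD N c).card := lt_of_lt_of_le (by positivity) hD5
  have h7 := h6 N (by omega) hp c L hc hLV hL hQ100 (le_trans hsig
    (hKpow _ _ (le_trans (le_max_left _ _) (le_max_left _ _))))
  -- the exceptional set is larger than the number of representations
  have hDbig : (N : ℝ) ^ (1 - ε / 2) ≤ 100 * (DD N c).card := by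
    refine le_trans ?_ hD5'
    have h8 : (N : ℝ) ^ (1 - ε / 2) = N * (N : ℝ) ^ (-(ε / 2)) := by
      rw [sub_eq_add_neg, Real.rpow_add hN0, Real.rpow_one]
    rw [h8]
    refine mul_le_mul_of_nonneg_left (le_trans ?_ hLδ) hN0.le
    refine Real.rpow_le_rpow_of_exponent_le (by linarith) ?_
    have := min_le_left (ε / 2) ((1 : ℝ) / 90)
    linarith
  -- (f)
  have hf : ((RE N η).card : ℝ) ≤ (DD N c).card / K ^ A3 := by
    have h9 := hn2 N (by omega)
    have h10 : 2 * (N : ℝ) ^ (1 - ε) ≤ ((DD N c).card / K ^ A3) / 2 := by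
      rw [div_div, le_div_iff₀ (by positivity)]
      have h11 : (N : ℝ) ^ (1 - ε) * (N : ℝ) ^ (ε / 2) = (N : ℝ) ^ (1 - ε / 2) := by
        rw [← Real.rpow_add hN0]
        congr 1
        ring
      have h12 : (0 : ℝ) ≤ (N : ℝ) ^ (1 - ε) := by positivity
      have h13 : (N : ℝ) ^ (1 - ε) * (400 * K ^ A3) ≤ 100 * (DD N c).card :=
        calc (N : ℝ) ^ (1 - ε) * (400 * K ^ A3) ≤ (N : ℝ) ^ (1 - ε) * (N : ℝ) ^ (ε / 2) :=
            mul_le_mul_of_nonneg_left h9 h12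
          _ = (N : ℝ) ^ (1 - ε / 2) := h11
          _ ≤ 100 * (DD N c).card := hDbig
      linarith
    have h13 : ((DD N c).card : ℝ) / K ^ (A3 + 1) ≤ ((DD N c).card / K ^ A3) / 2 := by
      rw [pow_succ, div_div]
      apply div_le_div_of_nonneg_left hDpos.le (by positivity)
      apply mul_le_mul_of_nonneg_left (by linarith) hKA3.le
    linarith
  have hinv := h3 N (by omega) hp c L hc hLV hL hcp hQ hPP η hη hneg hsig100 hf
  have hyp : Hyp N 1 (fd N c) (Qp N c) BS :=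
    { zero := G4_zero N c
      pos := by rw [(G4_nsq N c).1]; exact hDpos
      inv := hinv
      loc := fun l hl hlQ _ n hn hln => G4_loc N c hc l n hl hlQ hn hln
      big := hQ
      rsm := le_trans hsig (hKpow _ _ (le_trans (le_max_right _ _) (le_max_left _ _))) }
  obtain ⟨χ, _, hχ1, _, hχ2, _⟩ := hS N (by omega) hp 1 (Or.inl rfl) (fd N c) (Qp N c) hyp
  rw [hχ1 rfl, G4_bc N hp c, (G4_nsq N c).1, pow_one] at hχ2
  have hN1 : (0 : ℝ) < (N : ℝ) - 1 := by linarith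
  have h14 : (1 - 1 / K) * ((N : ℝ) - 1) ≤ (DD N c).card := by
    have h15 : ((N : ℝ) - 1) * (((DD N c).card : ℝ) / ((N : ℝ) - 1)) ^ 2 =
        (DD N c).card * (DD N c).card / ((N : ℝ) - 1) := by
      field_simp
    rw [h15, le_div_iff₀ hN1] at hχ2
    have h16 : (1 - 1 / K) * ((N : ℝ) - 1) * (DD N c).card ≤ (DD N c).card * (DD N c).card := by
      linarith
    exact le_of_mul_le_mul_right h16 hDpos
  have h17 : 1 / K ≤ 1 / 100 := one_div_le_one_div_of_le (by norm_num) hK100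
  have h18 : ((DD N c).card : ℝ) ≤ N * (1 / 100) := by
    refine le_trans hD ?_
    rw [div_eq_mul_one_div]
    apply mul_le_mul_of_nonneg_left _ hN0.le
    refine le_trans (hKpow 1 _ (le_trans (by norm_num) (le_max_right _ _))) ?_
    rw [pow_one]
    exact h17
  nlinarith

end Pool.Agent.Lib.MP_7b7e48_nt.LG
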