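import Pool.Agent.Lib.MP_7b7e48_nt.LG.Defs
import Pool.Agent.Lib.MP_7b7e48_nt.LG.BM
import Pool.Agent.Lib.MP_7b7e48_nt.LG.Ref
import Pool.Agent.Lib.MP_45349e_nt.LS.LamB

/-!
# Module H1 (75 minutes): prime powers: near periodicity

Here `M = p^j`, `F : ZMod M → ℝ`, `F x = lam x.val` for `x ≠ 0`, `F 0 = 0`.
PROOF. Let `s = ±1` and suppose `#ES (p^j) s ≤ 1`. `E0b` with `A = 2`: `#EE ≤ 2 + C p^j/(j log p)^2`. `BM p` with
`σ = lam`, `η = -1`, `E` = the `x` with `x.val ∈ EE M`: for all `x : ZMod M` with `p x ≠ 0` but `C' p^j/j^2` ones: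
`F (p x) = -F x`. If `n < p^j`, `n' = n % p^(j-1)`, `n' ≠ 0`, then `p n = p n'` in `ZMod M`, not `0`, so
`lam n = lam n'` unless `n` or `n'` is exceptional: at most `(1 + p) C' p^j/j^2` values of `n` (each `n'` has
`p` values of `n`), plus the `p` values with `n' = 0`.
-/

open Finset
open Pool.Agent.Lib.MP_45349e_nt.LS (lam)

namespace Pool.Agent.Lib.MP_7b7e48_nt.LG

private theorem H1_lam (n : ℕ) : lam n = 1 ∨ lam n = -1 := by
  unfold lam
  exact neg_one_pow_eq_or ℝ _

private theorem H1_pow (j : ℕ) : j ^ 2 ≤ 2 * 2 ^ j := by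
  induction j with
  | zero => norm_num
  | succ k ih =>
    rcases Nat.lt_or_ge k 3 with h | h
    · interval_cases k <;> norm_num
    · rw [pow_succ 2 k]
      nlinarith

/-- the values in the fibre of `n % q` -/
private theorem H1_fib (p q : ℕ) (hq : 0 < q) (r : ℕ) (T : Finset ℕ) (hT : ∀ n ∈ T, n < q * p ∧ n % q = r) :
    T.card ≤ p := by
  have h1 : T ⊆ (Finset.range p).image (fun a => q * a + r) := by
    intro n hn
    obtain ⟨h2, h3⟩ := hT n hn
    rw [Finset.mem_image]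
    refine ⟨n / q, Finset.mem_range.2 ((Nat.div_lt_iff_lt_mul hq).2 (by rw [mul_comm]; exact h2)), ?_⟩
    rw [← h3]
    exact Nat.div_add_mod n q
  refine (Finset.card_le_card h1).trans (Finset.card_image_le.trans ?_)
  rw [Finset.card_range]

/-- the combinatorial part -/
private theorem H1_comb (p : ℕ) (hp : p.Prime) (j : ℕ) (hj : 1 ≤ j) [NeZero (p ^ j)] (T : Finset ℕ)
    (hT : ∀ n ∈ T, n < p ^ j ∧ lam n ≠ lam (n % p ^ (j - 1))) :
    T.card ≤ p + (1 + p) * (exc (p ^ j) (fl (p ^ j)) (lam p) p).card := by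
  classical
  set q : ℕ := p ^ (j - 1) with hq
  have hqp : p ^ j = q * p := by
    rw [hq, ← pow_succ]
    congr 1
    omega
  have hq0 : 0 < q := pow_pos hp.pos _
  set X := exc (p ^ j) (fl (p ^ j)) (lam p) p with hX
  set T0 := T.filter (fun n => n % q = 0) with hT0
  set T1 := T.filter (fun n => ((n : ℕ) : ZMod (p ^ j)) ∈ X) with hT1
  set T2 := T.filter (fun n => ((n % q : ℕ) : ZMod (p ^ j)) ∈ X) with hT2
  have hsub : T ⊆ T0 ∪ (T1 ∪ T2) := by
    intro n hn
    obtain ⟨h1, h2⟩ := hT n hn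
    rw [Finset.mem_union, Finset.mem_union, hT0, hT1, hT2, Finset.mem_filter, Finset.mem_filter,
      Finset.mem_filter]
    by_contra hcon
    push Not at hcon
    obtain ⟨g0, g1, g2⟩ := hcon
    have k0 : n % q ≠ 0 := g0 hn
    have k1 := g1 hn
    have k2 := g2 hn
    have hlt : n % q < q := Nat.mod_lt _ hq0
    have hqle : q ≤ p ^ j := by rw [hqp]; exact Nat.le_mul_of_pos_right _ hp.pos
    have hn0 : n ≠ 0 := by
      rintro rfl
      exact k0 (Nat.zero_mod _)
    have hval1 : ((n : ℕ) : ZMod (p ^ j)).val = n := ZMod.val_natCast_of_lt h1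
    have hval2 : ((n % q : ℕ) : ZMod (p ^ j)).val = n % q := ZMod.val_natCast_of_lt (by omega)
    have hne1 : ((n : ℕ) : ZMod (p ^ j)) ≠ 0 := by
      intro h
      rw [← ZMod.val_eq_zero, hval1] at h
      exact hn0 h
    have hne2 : ((n % q : ℕ) : ZMod (p ^ j)) ≠ 0 := by
      intro h
      rw [← ZMod.val_eq_zero, hval2] at h
      exact k0 h
    have heq : ((p : ℕ) : ZMod (p ^ j)) * ((n : ℕ) : ZMod (p ^ j)) =
        ((p : ℕ) : ZMod (p ^ j)) * ((n % q : ℕ) : ZMod (p ^ j)) := by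
      have h3 : p * n = p * (n % q) + p ^ j * (n / q) := by
        have h4 := Nat.div_add_mod n q
        calc p * n = p * (q * (n / q) + n % q) := by rw [h4]
          _ = p * (n % q) + (q * p) * (n / q) := by ring
          _ = _ := by rw [← hqp]
      rw [← Nat.cast_mul, ← Nat.cast_mul, h3, Nat.cast_add, Nat.cast_mul (p ^ j), ZMod.natCast_self,
        zero_mul, add_zero]
    have hnz : ((p : ℕ) : ZMod (p ^ j)) * ((n % q : ℕ) : ZMod (p ^ j)) ≠ 0 := by
      intro h
      rw [← Nat.cast_mul, ZMod.natCast_eq_zero_iff, hqp, mul_comm q p] at h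
      have h5 := Nat.dvd_of_mul_dvd_mul_left hp.pos h
      exact k0 (Nat.eq_zero_of_dvd_of_lt h5 hlt)
    have e1 : fl (p ^ j) (((p : ℕ) : ZMod (p ^ j)) * ((n : ℕ) : ZMod (p ^ j))) =
        lam p * fl (p ^ j) ((n : ℕ) : ZMod (p ^ j)) := by
      by_contra hc
      apply k1
      rw [hX]
      unfold exc
      rw [Finset.mem_filter]
      exact ⟨Finset.mem_univ _, by rw [heq]; exact hnz, hc⟩
    have e2 : fl (p ^ j) (((p : ℕ) : ZMod (p ^ j)) * ((n % q : ℕ) : ZMod (p ^ j))) =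
        lam p * fl (p ^ j) ((n % q : ℕ) : ZMod (p ^ j)) := by
      by_contra hc
      apply k2
      rw [hX]
      unfold exc
      rw [Finset.mem_filter]
      exact ⟨Finset.mem_univ _, hnz, hc⟩
    rw [heq, e2] at e1
    have e3 : fl (p ^ j) ((n : ℕ) : ZMod (p ^ j)) = lam n := by
      unfold fl
      rw [if_neg hne1, hval1]
    have e4 : fl (p ^ j) ((n % q : ℕ) : ZMod (p ^ j)) = lam (n % q) := by
      unfold fl
      rw [if_neg hne2, hval2]
    rw [e3, e4] at e1
    have e5 : lam p ≠ 0 := by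
      rcases H1_lam p with h | h <;> rw [h] <;> norm_num
    exact h2 (mul_left_cancel₀ e5 e1).symm
  have c0 : T0.card ≤ p := by
    refine H1_fib p q hq0 0 T0 ?_
    intro n hn
    rw [hT0, Finset.mem_filter] at hn
    exact ⟨by rw [← hqp]; exact (hT n hn.1).1, hn.2⟩
  have c1 : T1.card ≤ X.card := by
    refine Finset.card_le_card_of_injOn (fun n => ((n : ℕ) : ZMod (p ^ j))) ?_ ?_
    · intro n hn
      have hn' := Finset.mem_filter.1 (Finset.mem_coe.1 hn)
      exact hn'.2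
    · intro n hn m hm h
      have hn' := Finset.mem_filter.1 (Finset.mem_coe.1 hn)
      have hm' := Finset.mem_filter.1 (Finset.mem_coe.1 hm)
      have h1 := congrArg ZMod.val h
      simp only at h1
      rw [ZMod.val_natCast_of_lt (hT n hn'.1).1, ZMod.val_natCast_of_lt (hT m hm'.1).1] at h1
      exact h1
  have c2 : T2.card ≤ p * X.card := by
    refine Finset.card_le_mul_card_image_of_maps_to (f := fun n => ((n % q : ℕ) : ZMod (p ^ j)))
      ?_ p ?_
    · intro n hn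
      exact (Finset.mem_filter.1 hn).2
    · intro x hx
      refine H1_fib p q hq0 x.val _ ?_
      intro n hn
      rw [Finset.mem_filter] at hn
      have hn' := Finset.mem_filter.1 hn.1
      have h1 := (hT n hn'.1).1
      refine ⟨by rw [← hqp]; exact h1, ?_⟩
      rw [← hn.2]
      have hlt : n % q < q := Nat.mod_lt _ hq0
      have hqle : q ≤ p ^ j := by rw [hqp]; exact Nat.le_mul_of_pos_right _ hp.pos
      rw [ZMod.val_natCast_of_lt (by omega)]
  calc T.card ≤ (T0 ∪ (T1 ∪ T2)).card := Finset.card_le_card hsub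
    _ ≤ T0.card + (T1 ∪ T2).card := Finset.card_union_le _ _
    _ ≤ T0.card + (T1.card + T2.card) := by
        have := Finset.card_union_le T1 T2
        omega
    _ ≤ p + (X.card + p * X.card) := by omega
    _ = p + (1 + p) * X.card := by ring

/-- the application of `BM` -/
private theorem H1_exc (p : ℕ) (hp : p.Prime) : ∃ C : ℝ, 0 < C ∧ ∀ (M : ℕ) [NeZero M],
    ∀ η : ℝ, (η = 1 ∨ η = -1) →
    ((exc M (fl M) (lam p) p).card : ℝ) ≤ C * ((RE M η).card + 1) := by
  classical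
  obtain ⟨C, hC, hB⟩ := BM p hp.one_lt.le
  refine ⟨C, hC, ?_⟩
  intro M _ η hη
  set E : Finset (ZMod M) := Finset.univ.filter (fun x => x.val ∈ RE M η) with hE
  have hneg : ∀ x : ZMod M, x ≠ 0 → (-x).val = M - x.val := by
    intro x hx
    haveI : NeZero x := ⟨hx⟩
    exact ZMod.val_neg_of_ne_zero x
  have hvpos : ∀ x : ZMod M, x ≠ 0 → 0 < x.val := by
    intro x hx
    rcases Nat.eq_zero_or_pos x.val with h | h
    · exact absurd ((ZMod.val_eq_zero x).1 h) hx
    · exact h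
  have h := hB M (fl M) lam η E (Pool.Agent.Lib.MP_45349e_nt.LS.lam_one) ?_ ?_ ?_ ?_
  · refine h.trans ?_
    have hc : E.card ≤ (RE M η).card := by
      refine Finset.card_le_card_of_injOn ZMod.val ?_ ?_
      · intro x hx
        exact (Finset.mem_filter.1 (Finset.mem_coe.1 hx)).2
      · intro x _ y _ hxy
        exact ZMod.val_injective M hxy
    have hc' : (E.card : ℝ) ≤ (RE M η).card := by exact_mod_cast hc
    exact mul_le_mul_of_nonneg_left (by linarith) hC.le
  · intro i _ _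
    rcases H1_lam i with h | h <;> rw [h] <;> norm_num
  · intro x hx
    have hx' := (Finset.mem_filter.1 hx).2
    have hx'' := hx'
    rw [RE_mem] at hx''
    have hx0 : x ≠ 0 := by
      rintro rfl
      rw [ZMod.val_zero] at hx''
      exact lt_irrefl _ hx''.2.1
    rw [hE, Finset.mem_filter]
    refine ⟨Finset.mem_univ _, ?_⟩
    rw [hneg x hx0]
    exact RE_sym M η hη x.val hx'
  · intro x hx0 hxE
    have hnx0 : -x ≠ 0 := neg_ne_zero.2 hx0
    unfold fl
    rw [if_neg hx0, if_neg hnx0, hneg x hx0]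
    by_contra hc
    apply hxE
    rw [hE, Finset.mem_filter]
    refine ⟨Finset.mem_univ _, ?_⟩
    rw [RE_mem]
    exact ⟨ZMod.val_lt x, hvpos x hx0, hc⟩
  · intro i n hi _ hn hlt
    have hv1 : ((i * n : ℕ) : ZMod M).val = i * n := ZMod.val_natCast_of_lt hlt
    have hn' : n < M := lt_of_le_of_lt (Nat.le_mul_of_pos_left n hi) hlt
    have hv2 : ((n : ℕ) : ZMod M).val = n := ZMod.val_natCast_of_lt hn'
    have h1 : ((i * n : ℕ) : ZMod M) ≠ 0 := by
      intro h
      rw [← ZMod.val_eq_zero, hv1] at h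
      have : 0 < i * n := Nat.mul_pos hi hn
      omega
    have h2 : ((n : ℕ) : ZMod M) ≠ 0 := by
      intro h
      rw [← ZMod.val_eq_zero, hv2] at h
      omega
    unfold fl
    rw [if_neg h1, if_neg h2, hv1, hv2]
    exact Pool.Agent.Lib.MP_45349e_nt.LS.lam_mul i n (by omega) (by omega)

theorem H1 (p : ℕ) (hp : p.Prime) (R : ℕ) : ∃ C : ℝ, 0 < C ∧ ∀ j : ℕ, 1 ≤ j → ∀ s t : ℝ,
    (s = 1 ∨ s = -1) → (t = 1 ∨ t = -1) → (ES2 (p ^ j) s t).card ≤ R → ∀ T : Finset ℕ,
    (∀ n ∈ T, n < p ^ j ∧ lam n ≠ lam (n % p ^ (j - 1))) →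
    (T.card : ℝ) ≤ C * (p : ℝ) ^ j / (j : ℝ) ^ 2 := by
  obtain ⟨C1, hC1, h1⟩ := H1_exc p hp
  obtain ⟨C2, hC2, h2⟩ := RE_cardb 2
  have hp2 : (2 : ℝ) ≤ p := by exact_mod_cast hp.two_le
  have hlp : 0 < Real.log p := Real.log_pos (by linarith)
  have hD : 0 < C2 / (Real.log p) ^ 2 := by positivity
  refine ⟨2 * p + (1 + p) * C1 * (4 * R + 6 + C2 / (Real.log p) ^ 2), by positivity, ?_⟩
  intro j hj s t hs ht hES T hT
  have hη : -(s * t) = 1 ∨ -(s * t) = -1 := by
    rcases hs with h | h <;> rcases ht with h' | h' <;> rw [h, h'] <;> norm_num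
  haveI : NeZero (p ^ j) := ⟨(pow_pos hp.pos j).ne'⟩
  have hj' : (1 : ℝ) ≤ j := by exact_mod_cast hj
  have hj2 : (0 : ℝ) < (j : ℝ) ^ 2 := by positivity
  set X : ℝ := (p : ℝ) ^ j / (j : ℝ) ^ 2 with hX
  have hX1 : 1 ≤ 2 * X := by
    rw [hX, ← mul_div_assoc, le_div_iff₀ hj2, one_mul]
    have g1 : ((j : ℝ)) ^ 2 ≤ 2 * 2 ^ j := by exact_mod_cast H1_pow j
    have g2 : (2 : ℝ) ^ j ≤ (p : ℝ) ^ j := pow_le_pow_left₀ (by norm_num) hp2 j
    linarith
  have hX0 : 0 < X := by linarith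
  have hgoal : (2 * p + (1 + p) * C1 * (4 * R + 6 + C2 / (Real.log p) ^ 2)) * (p : ℝ) ^ j / (j : ℝ) ^ 2 =
      (2 * p + (1 + p) * C1 * (4 * R + 6 + C2 / (Real.log p) ^ 2)) * X := by
    rw [hX, mul_div_assoc]
  rw [hgoal]
  rcases Nat.lt_or_ge j 2 with hlt | hge
  · have hj1 : j = 1 := by omega
    subst hj1
    have g1 : T.card ≤ p := by
      have : T ⊆ Finset.range p := by
        intro n hn
        have := (hT n hn).1
        rw [pow_one] at this
        exact Finset.mem_range.2 this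
      have := Finset.card_le_card this
      rwa [Finset.card_range] at this
    have g2 : (T.card : ℝ) ≤ p := by exact_mod_cast g1
    have g3 : (p : ℝ) ≤ 2 * p * X := by nlinarith
    have g4 : 0 ≤ (1 + p) * C1 * (4 * R + 6 + C2 / (Real.log p) ^ 2) * X := by positivity
    nlinarith
  · have hM3 : 3 ≤ p ^ j := by
      have : p ^ 2 ≤ p ^ j := Nat.pow_le_pow_right hp.pos hge
      have := hp.two_le
      nlinarith
    have k1 := h2 (p ^ j) hM3 s t hs ht
    have k2 := h1 (p ^ j) _ hη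
    have k3 := H1_comb p hp j hj T hT
    have k3' : (T.card : ℝ) ≤ p + (1 + p) * (exc (p ^ j) (fl (p ^ j)) (lam p) p).card := by
      exact_mod_cast k3
    have k4 : ((ES2 (p ^ j) s t).card : ℝ) ≤ R := by exact_mod_cast hES
    have k4' : (0 : ℝ) ≤ R := Nat.cast_nonneg R
    have k5 : C2 * ((p ^ j : ℕ) : ℝ) / (Real.log ((p ^ j : ℕ) : ℝ)) ^ 2 =
        C2 / (Real.log p) ^ 2 * X := by
      rw [hX]
      push_cast
      rw [Real.log_pow]
      field_simp
    rw [k5] at k1
    have k6 : ((RE (p ^ j) (-(s * t))).card : ℝ) + 1 ≤ (4 * R + 6 + C2 / (Real.log p) ^ 2) * X := by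
      nlinarith
    have k7 : ((exc (p ^ j) (fl (p ^ j)) (lam p) p).card : ℝ) ≤
        C1 * ((4 * R + 6 + C2 / (Real.log p) ^ 2) * X) :=
      k2.trans (mul_le_mul_of_nonneg_left k6 hC1.le)
    have k8 : (1 + (p : ℝ)) * (exc (p ^ j) (fl (p ^ j)) (lam p) p).card ≤
        (1 + p) * (C1 * ((4 * R + 6 + C2 / (Real.log p) ^ 2) * X)) :=
      mul_le_mul_of_nonneg_left k7 (by positivity)
    have k9 : (p : ℝ) ≤ 2 * p * X := by nlinarith
    calc (T.card : ℝ) ≤ p + (1 + p) * (exc (p ^ j) (fl (p ^ j)) (lam p) p).card := k3'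
      _ ≤ 2 * p * X + (1 + p) * (C1 * ((4 * R + 6 + C2 / (Real.log p) ^ 2) * X)) := by linarith
      _ = _ := by ring

end Pool.Agent.Lib.MP_7b7e48_nt.LG
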