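import Pool.Agent.Lib.MP_7b7e48_nt.LG.Defs
import Pool.Agent.Lib.MP_7b7e48_nt.LG.H1
import Pool.Agent.Lib.MP_7b7e48_nt.LG.LA1
import Pool.Agent.Lib.MP_7b7e48_nt.GT.ExpTools

/-!
# Module H2 (75 minutes): prime powers

PROOF. Suppose `#ES (p^v) s ≤ 1`. Then `#ES (p^j) (s (-1)^(v-j)) ≤ 1` for `j ≤ v` (multiply by `p^(v-j)`). Let
`T_j` = the `n < p^v` with `lam (n % p^j) ≠ lam (n % p^(j-1))`: `#T_j ≤ p^(v-j) * C p^j/j^2 = C p^v/j^2` by `H1`
(each residue modulo `p^j` has `p^(v-j)` values of `n < p^v`). So for `i ≤ v`, all `n < p^v` but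
`C p^v ∑_{j > i} 1/j^2 ≤ C p^v/i` satisfy `lam n = lam (n % p^i)`. Fix `i` with `C/i ≤ 1/10`. Then
`∑_{n < p^v} lam n * lam (n % p^i) ≥ (8/10) p^v - ...` (values `±1`; `lam 0 = 1` in `LS.lam`, `Ω 0 = 0`). But
with `a = n % p^i` fixed, `∑_{n < p^v, n ≡ a (p^i)} lam n = (1/p^i) ∑_{t mod p^i} e(-a t/p^i) ∑_n lam n e(n t/p^i)`
is `≤ C p^v/(log p^v)` by `LA1 1`, so the sum is `≤ p^i (C p^v/(v log p) + 1)`: contradiction for
`v ≥ V`.
-/

open Finset
open Pool.Agent.Lib.MP_45349e_nt.LS (lam)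

namespace Pool.Agent.Lib.MP_7b7e48_nt.LG

private theorem H2_abs (n : ℕ) : |lam n| = 1 := by
  unfold lam
  rw [abs_pow, abs_neg, abs_one, one_pow]

private theorem H2_pm (n : ℕ) : lam n = 1 ∨ lam n = -1 := by
  unfold lam
  exact neg_one_pow_eq_or ℝ _

private theorem H2_mul (p : ℕ) (hp : p.Prime) (k n : ℕ) (hn : n ≠ 0) :
    lam (p ^ k * n) = (-1) ^ k * lam n := by
  unfold lam
  rw [ArithmeticFunction.cardFactors_mul (pow_ne_zero _ hp.ne_zero) hn,
    ArithmeticFunction.cardFactors_apply_prime_pow hp, pow_add]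

/-- scaling -/
private theorem H2_scale (p : ℕ) (hp : p.Prime) (v j : ℕ) (hj : j ≤ v) (s t : ℝ) (R : ℕ)
    (h : (ES2 (p ^ v) s t).card ≤ R) :
    (ES2 (p ^ j) (s * (-1) ^ (v - j)) (t * (-1) ^ (v - j))).card ≤ R := by
  refine le_trans ?_ h
  have hpow : p ^ v = p ^ (v - j) * p ^ j := by
    rw [← pow_add]
    congr 1
    omega
  have hpos : 0 < p ^ (v - j) := pow_pos hp.pos _
  refine card_le_card_of_injOn (fun n => p ^ (v - j) * n) ?_ ?_
  · intro n hn
    have hn' := hn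
    rw [mem_coe] at hn'
    rw [ES2_mem] at hn'
    obtain ⟨h1, h2, h3, h4⟩ := hn'
    have hsq : ((-1 : ℝ) ^ (v - j)) * (-1) ^ (v - j) = 1 := by
      rw [← pow_add]
      exact Even.neg_one_pow ⟨_, rfl⟩
    rw [mem_coe, ES2_mem]
    refine ⟨?_, ?_, ?_, ?_⟩
    · rw [hpow]
      exact Nat.mul_lt_mul_of_pos_left h1 hpos
    · exact Nat.mul_pos hpos h2
    · rw [H2_mul p hp _ _ (by omega), h3]
      calc (-1 : ℝ) ^ (v - j) * (s * (-1) ^ (v - j)) = s * ((-1 : ℝ) ^ (v - j) * (-1) ^ (v - j)) := by ring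
        _ = s := by rw [hsq, mul_one]
    · rw [hpow, ← Nat.mul_sub, H2_mul p hp _ _ (by omega), h4]
      calc (-1 : ℝ) ^ (v - j) * (t * (-1) ^ (v - j)) = t * ((-1 : ℝ) ^ (v - j) * (-1) ^ (v - j)) := by ring
        _ = t := by rw [hsq, mul_one]
  · intro a _ b _ hab
    exact Nat.eq_of_mul_eq_mul_left hpos hab

private theorem H2_count (p : ℕ) (hp : p.Prime) (v j : ℕ) (hj : j ≤ v) (R : ℕ → Prop)
    [DecidablePred R] (hR : ∀ n, R n ↔ R (n % p ^ j)) :
    ((range (p ^ v)).filter R).card ≤ p ^ (v - j) * ((range (p ^ j)).filter R).card := by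
  have hpow : p ^ v = p ^ j * p ^ (v - j) := by
    rw [← pow_add]
    congr 1
    omega
  have hpos : 0 < p ^ j := pow_pos hp.pos _
  have h1 : ((range (p ^ v)).filter R).card ≤
      (((range (p ^ j)).filter R) ×ˢ (range (p ^ (v - j)))).card := by
    refine card_le_card_of_injOn (fun n => (n % p ^ j, n / p ^ j)) ?_ ?_
    · intro n hn
      rw [mem_coe, mem_filter, mem_range] at hn
      rw [mem_coe, mem_product, mem_filter, mem_range, mem_range]
      refine ⟨⟨Nat.mod_lt _ hpos, (hR n).mp hn.2⟩, ?_⟩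
      rw [Nat.div_lt_iff_lt_mul hpos, mul_comm, ← hpow]
      exact hn.1
    · intro a _ b _ hab
      simp only [Prod.mk.injEq] at hab
      rw [← Nat.mod_add_div a (p ^ j), ← Nat.mod_add_div b (p ^ j), hab.1, hab.2]
  rw [card_product, card_range] at h1
  rw [mul_comm]
  exact h1

/-- the exceptions for `lam n = lam (n % p^i)` -/
private theorem H2_bad (p : ℕ) (hp : p.Prime) (R : ℕ) (C : ℝ) (hC0 : 0 < C)
    (hC : ∀ j : ℕ, 1 ≤ j → ∀ s t : ℝ, (s = 1 ∨ s = -1) → (t = 1 ∨ t = -1) →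
      (ES2 (p ^ j) s t).card ≤ R →
      ∀ T : Finset ℕ, (∀ n ∈ T, n < p ^ j ∧ lam n ≠ lam (n % p ^ (j - 1))) →
      (T.card : ℝ) ≤ C * (p : ℝ) ^ j / (j : ℝ) ^ 2)
    (v i : ℕ) (hi : 1 ≤ i) (hiv : i ≤ v) (s t : ℝ) (hs : s = 1 ∨ s = -1) (ht : t = 1 ∨ t = -1)
    (h : (ES2 (p ^ v) s t).card ≤ R) :
    (((range (p ^ v)).filter fun n => lam n ≠ lam (n % p ^ i)).card : ℝ) ≤
      C * (p : ℝ) ^ v / i := by
  classical
  let T : ℕ → Finset ℕ := fun j =>
    (range (p ^ v)).filter fun n => lam (n % p ^ j) ≠ lam (n % p ^ (j - 1))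
  have hT : ∀ j ∈ Ioc i v, ((T j).card : ℝ) ≤ C * (p : ℝ) ^ v * ((j : ℝ) ^ 2)⁻¹ := by
    intro j hj
    rw [mem_Ioc] at hj
    have hmod : ∀ n, (n % p ^ j) % p ^ (j - 1) = n % p ^ (j - 1) := by
      intro n
      exact Nat.mod_mod_of_dvd _ (pow_dvd_pow p (by omega))
    have h1 := H2_count p hp v j hj.2 (fun n => lam (n % p ^ j) ≠ lam (n % p ^ (j - 1))) (by
      intro n
      rw [Nat.mod_mod, hmod])
    have hsg : ∀ u : ℝ, (u = 1 ∨ u = -1) → u * (-1) ^ (v - j) = 1 ∨ u * (-1) ^ (v - j) = -1 := by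
      intro u hu
      rcases hu with rfl | rfl
      · rw [one_mul]
        exact neg_one_pow_eq_or ℝ _
      · rcases neg_one_pow_eq_or ℝ (v - j) with h2 | h2
        · right; rw [h2]; ring
        · left; rw [h2]; ring
    have h2 := hC j (by omega) _ _ (hsg s hs) (hsg t ht) (H2_scale p hp v j hj.2 s t R h)
      ((range (p ^ j)).filter fun n => lam (n % p ^ j) ≠ lam (n % p ^ (j - 1))) (by
        intro n hn
        rw [mem_filter, mem_range] at hn
        refine ⟨hn.1, ?_⟩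
        have h3 := hn.2
        rwa [Nat.mod_eq_of_lt hn.1] at h3)
    have h3 : ((T j).card : ℝ) ≤ (p : ℝ) ^ (v - j) * (C * (p : ℝ) ^ j / (j : ℝ) ^ 2) := by
      have h4 : ((T j).card : ℝ) ≤ (p : ℝ) ^ (v - j) *
          (((range (p ^ j)).filter fun n => lam (n % p ^ j) ≠ lam (n % p ^ (j - 1))).card : ℝ) := by
        exact_mod_cast h1
      exact le_trans h4 (mul_le_mul_of_nonneg_left h2 (by positivity))
    refine le_trans h3 (le_of_eq ?_)
    have h5 : (p : ℝ) ^ v = (p : ℝ) ^ (v - j) * (p : ℝ) ^ j := by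
      rw [← pow_add]
      congr 1
      omega
    rw [h5]
    ring
  have hsub : ((range (p ^ v)).filter fun n => lam n ≠ lam (n % p ^ i)) ⊆ (Ioc i v).biUnion T := by
    intro n hn
    rw [mem_filter, mem_range] at hn
    rw [mem_biUnion]
    by_contra hcon
    push Not at hcon
    have key : ∀ k, i ≤ k → k ≤ v → lam (n % p ^ k) = lam (n % p ^ i) := by
      intro k hk
      induction k, hk using Nat.le_induction with
      | base => intro _; rfl
      | succ k hk ih =>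
        intro hkv
        have h1 := hcon (k + 1) (by rw [mem_Ioc]; omega)
        simp only [T, mem_filter, mem_range, not_and, not_not] at h1
        have h2 := h1 hn.1
        rw [Nat.add_sub_cancel] at h2
        rw [h2]
        exact ih (by omega)
    have h1 := key v hiv le_rfl
    rw [Nat.mod_eq_of_lt hn.1] at h1
    exact hn.2 h1
  have hcard : (((range (p ^ v)).filter fun n => lam n ≠ lam (n % p ^ i)).card : ℝ) ≤
      ∑ j ∈ Ioc i v, ((T j).card : ℝ) := by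
    have h1 := le_trans (card_le_card hsub) card_biUnion_le
    exact_mod_cast h1
  refine le_trans hcard (le_trans (sum_le_sum hT) ?_)
  rw [← mul_sum]
  have h1 : ∑ j ∈ Ioc i v, ((j : ℝ) ^ 2)⁻¹ ≤ (i : ℝ)⁻¹ := by
    refine le_trans (sum_Ioc_inv_sq_le_sub (by omega) hiv) ?_
    have : (0 : ℝ) ≤ (v : ℝ)⁻¹ := by positivity
    linarith
  rw [div_eq_mul_inv]
  exact mul_le_mul_of_nonneg_left h1 (by positivity)

/-- lower bound -/
private theorem H2_lower (M q : ℕ) :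
    (M : ℝ) - 2 * (((range M).filter fun n => lam n ≠ lam (n % q)).card : ℝ) ≤
      ∑ n ∈ range M, lam n * lam (n % q) := by
  have h1 : ∀ n ∈ range M, (1 : ℝ) - 2 * (if lam n ≠ lam (n % q) then 1 else 0) ≤
      lam n * lam (n % q) := by
    intro n _
    rcases H2_pm n with h | h <;> rcases H2_pm (n % q) with h' | h' <;> rw [h, h'] <;> norm_num
  have h2 := sum_le_sum h1
  rw [sum_sub_distrib, ← mul_sum, sum_const, card_range, nsmul_eq_mul, mul_one, sum_boole] at h2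
  exact h2

/-- upper bound -/
private theorem H2_upper (M q : ℕ) (hq : 0 < q) (D : ℝ)
    (hD : ∀ α : ℝ, ‖∑ n ∈ range M, ((lam n : ℝ) : ℂ) * Pool.Agent.Lib.GT.e ((n : ℝ) * α)‖ ≤ D) :
    ∑ n ∈ range M, lam n * lam (n % q) ≤ q * D := by
  have hq0 : (q : ℝ) ≠ 0 := by positivity
  have hqc : (q : ℂ) ≠ 0 := by exact_mod_cast hq.ne'
  -- the indicator of `n % q = a`
  have horth : ∀ n a : ℕ, a < q → ∑ t ∈ range q,
      Pool.Agent.Lib.GT.e ((((n : ℤ) - a : ℤ) : ℝ) / q * t) = if n % q = a then (q : ℂ) else 0 := by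
    intro n a ha
    by_cases hna : n % q = a
    · rw [if_pos hna]
      have h1 : ((n : ℤ) - a) = q * ((n / q : ℕ) : ℤ) := by
        have := Nat.mod_add_div n q
        rw [hna] at this
        have h2 : (n : ℤ) = a + q * ((n / q : ℕ) : ℤ) := by exact_mod_cast this.symm
        rw [h2]; ring
      have h2 : ∀ t ∈ range q, Pool.Agent.Lib.GT.e ((((n : ℤ) - a : ℤ) : ℝ) / q * t) = 1 := by
        intro t _
        have h3 : (((n : ℤ) - a : ℤ) : ℝ) / q * t = (((n / q : ℕ) : ℤ) * (t : ℤ) : ℤ) := by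
          rw [h1]
          push_cast
          field_simp
        rw [h3]
        exact Pool.Agent.Lib.GT.e_int _
      rw [sum_congr rfl h2, sum_const, card_range, nsmul_eq_mul, mul_one]
    · rw [if_neg hna]
      refine Pool.Agent.Lib.GT.RE.sum_e_div_range q hq _ ?_
      intro hdvd
      apply hna
      have h1 : (n : ℤ) ≡ a [ZMOD q] := (Int.modEq_iff_dvd.mpr (by
        have : (a : ℤ) - n = -((n : ℤ) - a) := by ring
        rw [this]
        exact hdvd.neg_right))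
      have h2 : n ≡ a [MOD q] := (Int.natCast_modEq_iff).mp h1
      unfold Nat.ModEq at h2
      rw [Nat.mod_eq_of_lt ha] at h2
      exact h2
  have hexp : ((∑ n ∈ range M, lam n * lam (n % q) : ℝ) : ℂ) =
      (1 / (q : ℂ)) * ∑ a ∈ range q, ∑ t ∈ range q, ((lam a : ℝ) : ℂ) *
        Pool.Agent.Lib.GT.e (-(a : ℝ) / q * t) *
        ∑ n ∈ range M, ((lam n : ℝ) : ℂ) * Pool.Agent.Lib.GT.e ((n : ℝ) * ((t : ℝ) / q)) := by
    have h1 : ∀ n ∈ range M, ((lam n * lam (n % q) : ℝ) : ℂ) =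
        (1 / (q : ℂ)) * ∑ a ∈ range q, ((lam a : ℝ) : ℂ) * ((lam n : ℝ) : ℂ) *
          (if n % q = a then (q : ℂ) else 0) := by
      intro n _
      rw [sum_eq_single (n % q)]
      · rw [if_pos rfl]
        push_cast
        field_simp
      · intro b _ hb
        rw [if_neg (Ne.symm hb), mul_zero]
      · intro hc
        exact absurd (mem_range.mpr (Nat.mod_lt _ hq)) hc
    rw [Complex.ofReal_sum, sum_congr rfl h1, ← mul_sum, sum_comm]
    congr 1
    refine sum_congr rfl fun a ha => ?_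
    have h2 : ∀ n ∈ range M, ((lam a : ℝ) : ℂ) * ((lam n : ℝ) : ℂ) *
        (if n % q = a then (q : ℂ) else 0) = ∑ t ∈ range q, ((lam a : ℝ) : ℂ) *
          Pool.Agent.Lib.GT.e (-(a : ℝ) / q * t) *
          (((lam n : ℝ) : ℂ) * Pool.Agent.Lib.GT.e ((n : ℝ) * ((t : ℝ) / q))) := by
      intro n _
      rw [← horth n a (mem_range.mp ha), mul_sum]
      refine sum_congr rfl fun t _ => ?_
      have h3 : (((n : ℤ) - a : ℤ) : ℝ) / q * t = -(a : ℝ) / q * t + (n : ℝ) * ((t : ℝ) / q) := by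
        push_cast
        ring
      rw [h3, Pool.Agent.Lib.GT.e_add]
      ring
    rw [sum_congr rfl h2, sum_comm]
    refine sum_congr rfl fun t _ => ?_
    rw [mul_sum]
  have hnorm : ‖((∑ n ∈ range M, lam n * lam (n % q) : ℝ) : ℂ)‖ ≤ q * D := by
    rw [hexp, norm_mul]
    have h1 : ‖(1 / (q : ℂ))‖ = 1 / (q : ℝ) := by
      rw [norm_div, norm_one, Complex.norm_natCast]
    have h2 : ‖∑ a ∈ range q, ∑ t ∈ range q, ((lam a : ℝ) : ℂ) *
        Pool.Agent.Lib.GT.e (-(a : ℝ) / q * t) *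
        ∑ n ∈ range M, ((lam n : ℝ) : ℂ) * Pool.Agent.Lib.GT.e ((n : ℝ) * ((t : ℝ) / q))‖ ≤
        ∑ a ∈ range q, ∑ t ∈ range q, D := by
      refine le_trans (norm_sum_le _ _) (sum_le_sum fun a _ => ?_)
      refine le_trans (norm_sum_le _ _) (sum_le_sum fun t _ => ?_)
      rw [norm_mul, norm_mul, Pool.Agent.Lib.GT.norm_e, mul_one, Complex.norm_real,
        Real.norm_eq_abs, H2_abs, one_mul]
      exact hD _
    rw [h1]
    have h3 : ∑ a ∈ range q, ∑ t ∈ range q, D = (q : ℝ) * (q * D) := by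
      rw [sum_const, sum_const, card_range, nsmul_eq_mul, nsmul_eq_mul]
    rw [h3] at h2
    have h4 : (1 / (q : ℝ)) * ((q : ℝ) * (q * D)) = q * D := by
      field_simp
    rw [← h4]
    exact mul_le_mul_of_nonneg_left h2 (by positivity)
  rw [Complex.norm_real, Real.norm_eq_abs] at hnorm
  exact le_trans (le_abs_self _) hnorm

/-- **Prime powers.** The number of representations of every pattern of signs tends to infinity. -/
theorem H2 (p : ℕ) (hp : p.Prime) (R : ℕ) : ∃ V : ℕ, ∀ v : ℕ, V ≤ v → ∀ s t : ℝ,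
    (s = 1 ∨ s = -1) → (t = 1 ∨ t = -1) → R < (ES2 (p ^ v) s t).card := by
  obtain ⟨C, hC0, hC⟩ := H1 p hp R
  obtain ⟨C1, hC10, hC1⟩ := LA1 1
  obtain ⟨i, hi1, hi2⟩ : ∃ i : ℕ, 1 ≤ i ∧ 10 * C ≤ i := by
    obtain ⟨k, hk⟩ := exists_nat_ge (10 * C)
    exact ⟨k + 1, by omega, le_trans hk (by push_cast; linarith)⟩
  set q := p ^ i with hq
  have hqpos : 0 < q := pow_pos hp.pos _
  have hlog2 : 0 < Real.log 2 := Real.log_pos (by norm_num)
  obtain ⟨V1, hV1⟩ : ∃ V1 : ℕ, 10 * q * C1 / Real.log 2 ≤ V1 := exists_nat_ge _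
  obtain ⟨V2, hV2⟩ : ∃ V2 : ℕ, (20 * q : ℝ) ≤ V2 := exists_nat_ge _
  refine ⟨max (max i 2) (max (V1 + 1) (V2 + 1)), ?_⟩
  intro v hv s t hs ht
  by_contra hcon
  have hcard : (ES2 (p ^ v) s t).card ≤ R := by omega
  have hvi : i ≤ v := le_trans (by simp) hv
  have hv2 : 2 ≤ v := le_trans (by simp) hv
  have hvV1 : V1 + 1 ≤ v := le_trans (by simp) hv
  have hvV2 : V2 + 1 ≤ v := le_trans (by simp) hv
  have hbad := H2_bad p hp R C hC0 hC v i hi1 hvi s t hs ht hcard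
  have hlow := H2_lower (p ^ v) q
  have hpv : (0 : ℝ) < (p : ℝ) ^ v := by
    have : 0 < p := hp.pos
    positivity
  have hi0 : (0 : ℝ) < i := by
    have : 0 < i := hi1
    exact_mod_cast this
  have hb2 : C * (p : ℝ) ^ v / i ≤ (p : ℝ) ^ v / 10 := by
    rw [div_le_div_iff₀ hi0 (by norm_num)]
    nlinarith
  have hYge : 2 ≤ p ^ v := by
    calc 2 ≤ p := hp.two_le
      _ = p ^ 1 := (pow_one p).symm
      _ ≤ p ^ v := Nat.pow_le_pow_right hp.pos (by omega)
  have hlogpv : (v : ℝ) * Real.log 2 ≤ Real.log ((p ^ v : ℕ) : ℝ) := by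
    push_cast
    rw [Real.log_pow]
    refine mul_le_mul_of_nonneg_left ?_ (by positivity)
    exact Real.log_le_log (by norm_num) (by exact_mod_cast hp.two_le)
  have hv0 : (0 : ℝ) < v := by
    have : 0 < v := by omega
    exact_mod_cast this
  -- exponential sums
  have hD : ∀ α : ℝ, ‖∑ n ∈ range (p ^ v), ((lam n : ℝ) : ℂ) *
      Pool.Agent.Lib.GT.e ((n : ℝ) * α)‖ ≤ C1 * (p : ℝ) ^ v / (v * Real.log 2) + 2 := by
    intro α
    have h1 := hC1 (p ^ v) hYge α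
    have h2 : ∑ n ∈ range (p ^ v), ((lam n : ℝ) : ℂ) * Pool.Agent.Lib.GT.e ((n : ℝ) * α) =
        (∑ n ∈ Icc 1 (p ^ v), ((lam n : ℝ) : ℂ) * Pool.Agent.Lib.GT.e ((n : ℝ) * α)) +
        ((lam 0 : ℝ) : ℂ) * Pool.Agent.Lib.GT.e (((0 : ℕ) : ℝ) * α) -
        ((lam (p ^ v) : ℝ) : ℂ) * Pool.Agent.Lib.GT.e (((p ^ v : ℕ) : ℝ) * α) := by
      have h3 : ∑ n ∈ range (p ^ v + 1), ((lam n : ℝ) : ℂ) * Pool.Agent.Lib.GT.e ((n : ℝ) * α) =
          (∑ n ∈ Icc 1 (p ^ v), ((lam n : ℝ) : ℂ) * Pool.Agent.Lib.GT.e ((n : ℝ) * α)) +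
          ((lam 0 : ℝ) : ℂ) * Pool.Agent.Lib.GT.e (((0 : ℕ) : ℝ) * α) := by
        rw [range_eq_Ico, ← sum_Ioo_add_eq_sum_Ico (by omega)]
        rfl
      rw [sum_range_succ] at h3
      rw [← h3]
      ring
    have hn : ∀ n : ℕ, ‖((lam n : ℝ) : ℂ) * Pool.Agent.Lib.GT.e ((n : ℝ) * α)‖ = 1 := by
      intro n
      rw [norm_mul, Pool.Agent.Lib.GT.norm_e, mul_one, Complex.norm_real, Real.norm_eq_abs, H2_abs]
    rw [h2]
    refine le_trans (norm_sub_le _ _) ?_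
    refine le_trans (add_le_add (norm_add_le _ _) le_rfl) ?_
    rw [hn 0, hn (p ^ v)]
    have h4 : C1 * ((p ^ v : ℕ) : ℝ) / Real.log ((p ^ v : ℕ) : ℝ) ^ 1 ≤
        C1 * (p : ℝ) ^ v / (v * Real.log 2) := by
      rw [pow_one]
      push_cast at hlogpv ⊢
      exact div_le_div_of_nonneg_left (by positivity) (by positivity) hlogpv
    linarith
  have hup := H2_upper (p ^ v) q hqpos _ hD
  have hqp : (0 : ℝ) < q := by exact_mod_cast hqpos
  -- numerics
  have hn1 : (q : ℝ) * (C1 * (p : ℝ) ^ v / (v * Real.log 2)) ≤ (p : ℝ) ^ v / 10 := by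
    have h1 : 10 * q * C1 / Real.log 2 ≤ v := by
      have : (V1 : ℝ) ≤ v := by
        have : V1 ≤ v := by omega
        exact_mod_cast this
      linarith
    rw [div_le_iff₀ hlog2] at h1
    rw [mul_div_assoc', div_le_div_iff₀ (by positivity) (by norm_num)]
    nlinarith
  have hn2 : (q : ℝ) * 2 ≤ (p : ℝ) ^ v / 10 := by
    have h1 : (v : ℝ) ≤ (p : ℝ) ^ v := by
      have : v < p ^ v := Nat.lt_pow_self hp.one_lt
      have h2 : v ≤ p ^ v := this.le
      exact_mod_cast h2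
    have h2 : (V2 : ℝ) ≤ v := by
      have : V2 ≤ v := by omega
      exact_mod_cast this
    linarith
  have hcast : (((p ^ v : ℕ)) : ℝ) = (p : ℝ) ^ v := by push_cast; rfl
  rw [hcast] at hlow
  rw [mul_add] at hup
  linarith

end Pool.Agent.Lib.MP_7b7e48_nt.LG
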