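import Pool.Agent.Lib.MP_7b7e48_nt.LG.G4
import Pool.Agent.Lib.MP_7b7e48_nt.LG.H2

/-!
# Every large integer

`ES2 N s t` is the set of the `0 < n < N` with `lam n = s`, `lam (N - n) = t`.

* `H3a`: for every `R` all large `N` satisfy `R < #ES2 N s t` for all four patterns of signs.
* `H3b`: for every `ε > 0`, all large primes `l` and all multiples `N` of `l`: `l ^ (1 - ε) ≤ #ES2 N s t`.

The number of representations of `N = M m` is at least the number of representations of `M`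
(multiply by `m`, the signs are multiplied by `lam m`). `N` has a large prime factor (`G4`), or it is divisible by
a high power of a small prime (`H2`).
-/

open Finset
open Pool.Agent.Lib.MP_45349e_nt.LS (lam)

namespace Pool.Agent.Lib.MP_7b7e48_nt.LG

theorem H3_pm (n : ℕ) : lam n = 1 ∨ lam n = -1 := by
  unfold MP_45349e_nt.LS.lam
  exact neg_one_pow_eq_or ℝ _

/-- from a divisor to `N` -/
theorem H3_lift (M m : ℕ) (hm : 0 < m) (s t : ℝ) :
    (ES2 M (s * lam m) (t * lam m)).card ≤ (ES2 (M * m) s t).card := by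
  have hsq : lam m * lam m = 1 := by
    rcases H3_pm m with h2 | h2 <;> rw [h2] <;> norm_num
  refine Finset.card_le_card_of_injOn (fun n => n * m) ?_ ?_
  · intro n hn
    have hn' := Finset.mem_coe.1 hn
    rw [ES2_mem] at hn'
    obtain ⟨h1, h2, h3, h4⟩ := hn'
    rw [Finset.mem_coe, ES2_mem]
    refine ⟨Nat.mul_lt_mul_of_pos_right h1 hm, Nat.mul_pos h2 hm, ?_, ?_⟩
    · rw [MP_45349e_nt.LS.lam_mul n m (by omega) (by omega), h3, mul_assoc, hsq, mul_one]
    · rw [← Nat.sub_mul, MP_45349e_nt.LS.lam_mul (M - n) m (by omega) (by omega), h4, mul_assoc,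
        hsq, mul_one]
  · intro a _ b _ hab
    exact Nat.eq_of_mul_eq_mul_right hm hab

theorem H3_sgn (s : ℝ) (hs : s = 1 ∨ s = -1) (m : ℕ) : s * lam m = 1 ∨ s * lam m = -1 := by
  rcases hs with h1 | h1 <;> rcases H3_pm m with h2 | h2 <;> rw [h1, h2] <;> norm_num

/-- a large integer has a large prime factor or is divisible by a high power of a small prime -/
theorem H3_div (N0 V : ℕ) : ∃ N1 : ℕ, ∀ N : ℕ, N1 ≤ N → 0 < N ∧
    ((∃ l : ℕ, l.Prime ∧ N0 ≤ l ∧ l ∣ N) ∨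
      ∃ p v : ℕ, p.Prime ∧ p < N0 ∧ V ≤ v ∧ p ^ v ∣ N) := by
  refine ⟨∏ p ∈ (Finset.range N0).filter Nat.Prime, p ^ V + 1, fun N hN => ?_⟩
  have hN0 : 0 < N := by omega
  refine ⟨hN0, ?_⟩
  by_contra hcon
  push Not at hcon
  obtain ⟨h1, h2⟩ := hcon
  have h3 : ∀ p ∈ N.primeFactors, p ∈ (Finset.range N0).filter Nat.Prime := by
    intro p hp
    have hpp := Nat.prime_of_mem_primeFactors hp
    refine Finset.mem_filter.mpr ⟨?_, hpp⟩
    rw [Finset.mem_range]
    by_contra h4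
    exact h1 p hpp (by omega) (Nat.dvd_of_mem_primeFactors hp)
  have h4 : ∀ p ∈ N.primeFactors, N.factorization p ≤ V := by
    intro p hp
    have hpp := Nat.prime_of_mem_primeFactors hp
    by_contra h5
    have h6 := Finset.mem_range.mp (Finset.mem_filter.mp (h3 p hp)).1
    exact h2 p (N.factorization p) hpp h6 (by omega) (Nat.ordProj_dvd N p)
  have h5 : N ≤ ∏ p ∈ N.primeFactors, p ^ V := by
    calc N = ∏ p ∈ N.primeFactors, p ^ N.factorization p :=
          Nat.prod_primeFactors_pow_factorization hN0.ne'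
      _ ≤ ∏ p ∈ N.primeFactors, p ^ V := Finset.prod_le_prod' fun p hp =>
          Nat.pow_le_pow_right (Nat.prime_of_mem_primeFactors hp).pos (h4 p hp)
  have h6 : ∏ p ∈ N.primeFactors, p ^ V ≤ ∏ p ∈ (Finset.range N0).filter Nat.Prime, p ^ V := by
    refine Finset.prod_le_prod_of_subset_of_one_le' h3 fun p hp _ => ?_
    exact Nat.one_le_pow _ _ (Finset.mem_filter.mp hp).2.pos
  omega

/-- **Large prime factors.** -/
theorem H3b (ε : ℝ) (hε : 0 < ε) : ∃ N0 : ℕ, ∀ l m : ℕ, N0 ≤ l → l.Prime → 0 < m → ∀ s t : ℝ,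
    (s = 1 ∨ s = -1) → (t = 1 ∨ t = -1) → (l : ℝ) ^ (1 - ε) ≤ (ES2 (l * m) s t).card := by
  obtain ⟨N0, h⟩ := G4 ε hε
  refine ⟨N0, fun l m hl hp hm s t hs ht => ?_⟩
  refine (h l hl hp _ _ (H3_sgn s hs m) (H3_sgn t ht m)).trans ?_
  exact_mod_cast H3_lift l m hm s t

/-- **Every pattern of signs has many representations.** -/
theorem H3a (R : ℕ) : ∃ N0 : ℕ, ∀ N : ℕ, N0 ≤ N → ∀ s t : ℝ, (s = 1 ∨ s = -1) →
    (t = 1 ∨ t = -1) → R < (ES2 N s t).card := by
  obtain ⟨N1, h1⟩ := H3b (1 / 2) (by norm_num)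
  have h2 : ∀ p : ℕ, ∃ V : ℕ, p.Prime → ∀ v : ℕ, V ≤ v → ∀ s t : ℝ, (s = 1 ∨ s = -1) →
      (t = 1 ∨ t = -1) → R < (ES2 (p ^ v) s t).card := by
    intro p
    by_cases hp : p.Prime
    · obtain ⟨V, hV⟩ := H2 p hp R
      exact ⟨V, fun _ => hV⟩
    · exact ⟨0, fun h => absurd h hp⟩
  choose V hV using h2
  obtain ⟨N2, h3⟩ := H3_div (max N1 ((R + 1) ^ 2))
    (∑ p ∈ Finset.range (max N1 ((R + 1) ^ 2)), V p)
  refine ⟨N2, fun N hN s t hs ht => ?_⟩
  obtain ⟨hN0, h4⟩ := h3 N hN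
  rcases h4 with ⟨l, hl, hl2, hl3⟩ | ⟨p, v, hp, hp2, hv, hdv⟩
  · obtain ⟨m, rfl⟩ := hl3
    have hm : 0 < m := Nat.pos_of_mul_pos_left hN0
    have h5 := h1 l m (le_trans (le_max_left _ _) hl2) hl hm s t hs ht
    have h6 : (((R + 1) ^ 2 : ℕ) : ℝ) ≤ l := by
      exact_mod_cast le_trans (le_max_right _ _) hl2
    have h7 : (R : ℝ) + 1 ≤ (l : ℝ) ^ (1 - 1 / 2 : ℝ) := by
      have e : (1 - 1 / 2 : ℝ) = 1 / 2 := by norm_num
      rw [e, ← Real.sqrt_eq_rpow]
      refine Real.le_sqrt_of_sq_le ?_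
      push_cast at h6
      exact h6
    have h8 : (R : ℝ) + 1 ≤ ((ES2 (l * m) s t).card : ℝ) := le_trans h7 h5
    have h9 : R + 1 ≤ (ES2 (l * m) s t).card := by exact_mod_cast h8
    exact h9
  · obtain ⟨m, rfl⟩ := hdv
    have hm : 0 < m := Nat.pos_of_mul_pos_left hN0
    refine lt_of_lt_of_le ?_ (H3_lift (p ^ v) m hm s t)
    refine hV p hp v (le_trans ?_ hv) _ _ (H3_sgn s hs m) (H3_sgn t ht m)
    exact Finset.single_le_sum (f := V) (fun _ _ => Nat.zero_le _) (Finset.mem_range.mpr hp2)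

end Pool.Agent.Lib.MP_7b7e48_nt.LG
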