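import Pool.Agent.Lib.MP_7b7e48_nt.LG.Defs
import Pool.Agent.Lib.MP_7b7e48_nt.LG.CharPar
import Pool.Agent.Lib.MP_7b7e48_nt.LG.PV

/-!
# Module NO (45 minutes): near orthogonality on short intervals

PROOF. Expand `‖∑_χ β χ * χ n‖^2` and sum over `n ≤ X`: diagonal terms `∑ ‖β χ‖^2 * X` (`‖χ n‖ = 1` for
`1 ≤ n ≤ X < N`), off diagonal terms `β χ conj(β ψ) ∑_{n ≤ X} (χ ψ⁻¹) n` with `χ ψ⁻¹ ≠ 1`, bounded by `PV`;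
`∑_{χ,ψ} ‖β χ‖ ‖β ψ‖ ≤ T.card * ∑ ‖β χ‖^2`.
-/

open Finset
open Pool.Agent.Lib.MP_45349e_nt.LS (lam)

namespace Pool.Agent.Lib.MP_7b7e48_nt.LG

theorem NO (N : ℕ) [NeZero N] (hN : N.Prime) (h3 : 3 ≤ N) (T : Finset (DirichletCharacter ℂ N))
    (β : DirichletCharacter ℂ N → ℂ) (X : ℕ) (hX : X < N) :
    ((X : ℝ) - T.card * (4 * Real.sqrt N * Real.log N)) * ∑ χ ∈ T, ‖β χ‖ ^ 2 ≤
      ∑ n ∈ Finset.Icc 1 X, ‖∑ χ ∈ T, β χ * χ (n : ZMod N)‖ ^ 2 :=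
  cp_near hN h3 T β X hX

end Pool.Agent.Lib.MP_7b7e48_nt.LG
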