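import Pool.Agent.Lib.MP_7b7e48_nt.LG.Defs

/-!
# Module S3 (45 minutes): sum over a block of primes

PROOF. For `l ∈ T`, `n ≤ (N-1)/(4L)`: `m = l n ≤ N - 1`, `s F n = F (l n)` by `hloc` (`s^2 = 1` not needed), so
`TL F s L l = ∑_n ‖F(l n) - GG F s (l n)‖²`. Sum over `l ∈ T`: each `0 < m < N` is `l n` for at most
`log m/log L ≤ log N` primes `l ∈ T` (they divide `m` and are `> L ≥ 3 > e`: the product of the primes
in `T` dividing `m` divides `m`, so `L^k ≤ m`). So the double sum is at most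
`log N * ∑_x ‖F x - GG F s x‖²` (the residues of different `m < N` are different).
-/

open Finset

namespace Pool.Agent.Lib.MP_7b7e48_nt.LG

theorem S3 (N : ℕ) [NeZero N] (hN : N.Prime) (s : ℝ) (F : ZMod N → ℝ) (L : ℕ) (hL : 3 ≤ L)
    (T : Finset ℕ) (hT : ∀ l ∈ T, l.Prime ∧ L < l ∧ l ≤ 4 * L)
    (hloc : ∀ l ∈ T, ∀ n : ℕ, 1 ≤ n → l * n < N →
      F ((l * n : ℕ) : ZMod N) = s * F (n : ZMod N)) :
    ∑ l ∈ T, TL F s L l ≤ Real.log N * ∑ x : ZMod N, ‖(F x : ℂ) - GG F s x‖ ^ 2 := by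
  have hNpos : 0 < N := hN.pos
  have hL0 : 0 < L := by omega
  -- the function `w`
  set w : ℕ → ℝ := fun m => ‖(F (m : ZMod N) : ℂ) - GG F s (m : ZMod N)‖ ^ 2 with hw
  have hw0 : ∀ m, 0 ≤ w m := fun m => by simp only [hw]; positivity
  have hlt : ∀ l ∈ T, ∀ n ∈ Finset.Icc 1 ((N - 1) / (4 * L)), l * n < N := by
    intro l hl n hn
    obtain ⟨-, -, hl4⟩ := hT l hl
    rw [Finset.mem_Icc] at hn
    have h1 : n * (4 * L) ≤ N - 1 := by
      calc n * (4 * L) ≤ (N - 1) / (4 * L) * (4 * L) := Nat.mul_le_mul_right _ hn.2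
        _ ≤ N - 1 := Nat.div_mul_le_self _ _
    have h2 : l * n ≤ n * (4 * L) := by
      rw [mul_comm l n]
      exact Nat.mul_le_mul_left _ hl4
    omega
  have hTL : ∀ l ∈ T, TL F s L l = ∑ n ∈ Finset.Icc 1 ((N - 1) / (4 * L)), w (l * n) := by
    intro l hl
    unfold TL
    refine Finset.sum_congr rfl (fun n hn => ?_)
    have hn' := Finset.mem_Icc.mp hn
    rw [← hloc l hl n hn'.1 (hlt l hl n hn)]
  -- regroup
  have hre : ∀ l ∈ T, ∑ n ∈ Finset.Icc 1 ((N - 1) / (4 * L)), w (l * n) ≤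
      ∑ m ∈ Finset.Ico 1 N, if l ∣ m then w m else 0 := by
    intro l hl
    have hlpos : 0 < l := (hT l hl).1.pos
    rw [← Finset.sum_filter]
    have hinj : Set.InjOn (fun n => l * n) (Finset.Icc 1 ((N - 1) / (4 * L)) : Set ℕ) := by
      intro a _ b _ hab
      exact Nat.eq_of_mul_eq_mul_left hlpos hab
    have himg : ∑ n ∈ Finset.Icc 1 ((N - 1) / (4 * L)), w (l * n) =
        ∑ m ∈ (Finset.Icc 1 ((N - 1) / (4 * L))).image (fun n => l * n), w m := by
      rw [Finset.sum_image hinj]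
    rw [himg]
    refine Finset.sum_le_sum_of_subset_of_nonneg ?_ (fun m _ _ => hw0 m)
    intro m hm
    rw [Finset.mem_image] at hm
    obtain ⟨n, hn, rfl⟩ := hm
    have hn' := Finset.mem_Icc.mp hn
    rw [Finset.mem_filter, Finset.mem_Ico]
    exact ⟨⟨Nat.mul_pos hlpos hn'.1, hlt l hl n hn⟩, Dvd.intro n rfl⟩
  have hsum : ∑ l ∈ T, TL F s L l ≤ ∑ m ∈ Finset.Ico 1 N,
      ((T.filter (fun l => l ∣ m)).card : ℝ) * w m := by
    calc ∑ l ∈ T, TL F s L l = ∑ l ∈ T, ∑ n ∈ Finset.Icc 1 ((N - 1) / (4 * L)), w (l * n) :=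
          Finset.sum_congr rfl hTL
      _ ≤ ∑ l ∈ T, ∑ m ∈ Finset.Ico 1 N, (if l ∣ m then w m else 0) := Finset.sum_le_sum hre
      _ = ∑ m ∈ Finset.Ico 1 N, ∑ l ∈ T, (if l ∣ m then w m else 0) := Finset.sum_comm
      _ = _ := by
          refine Finset.sum_congr rfl (fun m _ => ?_)
          rw [← Finset.sum_filter, Finset.sum_const, nsmul_eq_mul]
  -- the number of primes in `T` dividing `m`
  have hcard : ∀ m ∈ Finset.Ico 1 N, ((T.filter (fun l => l ∣ m)).card : ℝ) ≤ Real.log N := by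
    intro m hm
    rw [Finset.mem_Ico] at hm
    have hprod : ∏ l ∈ T.filter (fun l => l ∣ m), l ∣ m := by
      refine Finset.prod_primes_dvd m ?_ ?_
      · intro l hl
        exact (hT l (Finset.mem_filter.mp hl).1).1.prime
      · intro l hl
        exact (Finset.mem_filter.mp hl).2
    have h1 : L ^ (T.filter (fun l => l ∣ m)).card ≤ ∏ l ∈ T.filter (fun l => l ∣ m), l := by
      refine Finset.pow_card_le_prod _ _ _ ?_
      intro l hl
      exact (hT l (Finset.mem_filter.mp hl).1).2.1.le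
    have h2 : L ^ (T.filter (fun l => l ∣ m)).card ≤ N :=
      h1.trans ((Nat.le_of_dvd hm.1 hprod).trans hm.2.le)
    have h3 : Real.exp ((T.filter (fun l => l ∣ m)).card : ℝ) ≤ (N : ℝ) := by
      have h4 : Real.exp 1 ≤ (L : ℝ) := by
        have h5 := Real.exp_one_lt_d9
        have h6 : (3 : ℝ) ≤ (L : ℝ) := by exact_mod_cast hL
        linarith
      calc Real.exp ((T.filter (fun l => l ∣ m)).card : ℝ)
          = (Real.exp 1) ^ (T.filter (fun l => l ∣ m)).card := by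
            rw [← Real.exp_nat_mul, mul_one]
        _ ≤ (L : ℝ) ^ (T.filter (fun l => l ∣ m)).card :=
            pow_le_pow_left₀ (Real.exp_pos 1).le h4 _
        _ ≤ (N : ℝ) := by exact_mod_cast h2
    have h7 : (0 : ℝ) < N := by exact_mod_cast hNpos
    exact (Real.le_log_iff_exp_le h7).mpr h3
  have hfin : ∑ m ∈ Finset.Ico 1 N, w m ≤ ∑ x : ZMod N, ‖(F x : ℂ) - GG F s x‖ ^ 2 := by
    have hinj : Set.InjOn (fun m : ℕ => (m : ZMod N)) (Finset.Ico 1 N : Set ℕ) := by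
      intro a ha b hb hab
      have ha' := (Finset.mem_Ico.mp (Finset.mem_coe.mp ha)).2
      have hb' := (Finset.mem_Ico.mp (Finset.mem_coe.mp hb)).2
      have h := congrArg ZMod.val hab
      simp only at h
      rwa [ZMod.val_natCast_of_lt ha', ZMod.val_natCast_of_lt hb'] at h
    have himg : ∑ m ∈ Finset.Ico 1 N, w m =
        ∑ x ∈ (Finset.Ico 1 N).image (fun m : ℕ => (m : ZMod N)),
          ‖(F x : ℂ) - GG F s x‖ ^ 2 := by
      rw [Finset.sum_image hinj]
    rw [himg]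
    exact Finset.sum_le_sum_of_subset_of_nonneg (Finset.subset_univ _)
      (fun _ _ _ => by positivity)
  have hlog : 0 ≤ Real.log N := Real.log_natCast_nonneg N
  calc ∑ l ∈ T, TL F s L l ≤ ∑ m ∈ Finset.Ico 1 N,
        ((T.filter (fun l => l ∣ m)).card : ℝ) * w m := hsum
    _ ≤ ∑ m ∈ Finset.Ico 1 N, Real.log N * w m :=
        Finset.sum_le_sum (fun m hm => mul_le_mul_of_nonneg_right (hcard m hm) (hw0 m))
    _ = Real.log N * ∑ m ∈ Finset.Ico 1 N, w m := by rw [Finset.mul_sum]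
    _ ≤ _ := mul_le_mul_of_nonneg_left hfin hlog

end Pool.Agent.Lib.MP_7b7e48_nt.LG
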