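import Pool.Agent.Lib.MP_7b7e48_nt.LG.Defs
import Pool.Agent.Lib.MP_7b7e48_nt.LG.NO

/-!
# Module S4 (40 minutes): comparison of two primes

PROOF. `NO` with `T = Good N s`, `β χ = bc F χ (χ l - χ l')`, `X = (N-1)/(4L)`: by `hX` the left factor is
`≥ X/2`. `∑_χ β χ * χ n = GG F s (l n) - GG F s (l' n)`, and
`‖a - b‖² ≤ 2‖s F n - a‖² + 2‖s F n - b‖²`.
-/

open Finset

namespace Pool.Agent.Lib.MP_7b7e48_nt.LG

theorem S4 (N : ℕ) [NeZero N] (hN : N.Prime) (h3 : 3 ≤ N) (s : ℝ) (F : ZMod N → ℝ) (L : ℕ)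
    (hL : 1 ≤ L)
    (hX : ((Good N s).card : ℝ) * (4 * Real.sqrt N * Real.log N) ≤ (((N - 1) / (4 * L) : ℕ) : ℝ) / 2)
    (l l' : ℕ) :
    (((N - 1) / (4 * L) : ℕ) : ℝ) *
      ∑ χ ∈ Good N s, ‖bc F χ‖ ^ 2 * ‖χ (l : ZMod N) - χ (l' : ZMod N)‖ ^ 2 ≤
      4 * (TL F s L l + TL F s L l') := by
  have hNpos : 0 < N := by omega
  have hXN : (N - 1) / (4 * L) < N :=
    lt_of_le_of_lt (Nat.div_le_self _ _) (by omega)
  have h1 := NO N hN h3 (Good N s)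
    (fun χ => bc F χ * (χ (l : ZMod N) - χ (l' : ZMod N))) ((N - 1) / (4 * L)) hXN
  have hnorm : ∀ χ : DirichletCharacter ℂ N,
      ‖bc F χ * (χ (l : ZMod N) - χ (l' : ZMod N))‖ ^ 2 =
        ‖bc F χ‖ ^ 2 * ‖χ (l : ZMod N) - χ (l' : ZMod N)‖ ^ 2 := by
    intro χ
    rw [norm_mul, mul_pow]
  simp only [hnorm] at h1
  have hpt : ∀ n ∈ Finset.Icc 1 ((N - 1) / (4 * L)),
      ‖∑ χ ∈ Good N s, bc F χ * (χ (l : ZMod N) - χ (l' : ZMod N)) * χ (n : ZMod N)‖ ^ 2 ≤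
        2 * ‖((s * F (n : ZMod N) : ℝ) : ℂ) - GG F s ((l * n : ℕ) : ZMod N)‖ ^ 2 +
        2 * ‖((s * F (n : ZMod N) : ℝ) : ℂ) - GG F s ((l' * n : ℕ) : ZMod N)‖ ^ 2 := by
    intro n _
    have e1 : ∑ χ ∈ Good N s, bc F χ * (χ (l : ZMod N) - χ (l' : ZMod N)) * χ (n : ZMod N) =
        GG F s ((l * n : ℕ) : ZMod N) - GG F s ((l' * n : ℕ) : ZMod N) := by
      unfold GG
      rw [← Finset.sum_sub_distrib]
      refine Finset.sum_congr rfl (fun χ _ => ?_)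
      push_cast
      rw [map_mul, map_mul]
      ring
    rw [e1]
    have e2 : GG F s ((l * n : ℕ) : ZMod N) - GG F s ((l' * n : ℕ) : ZMod N) =
        (((s * F (n : ZMod N) : ℝ) : ℂ) - GG F s ((l' * n : ℕ) : ZMod N)) -
        (((s * F (n : ZMod N) : ℝ) : ℂ) - GG F s ((l * n : ℕ) : ZMod N)) := by ring
    rw [e2]
    have e3 := norm_sub_le (((s * F (n : ZMod N) : ℝ) : ℂ) - GG F s ((l' * n : ℕ) : ZMod N))
      (((s * F (n : ZMod N) : ℝ) : ℂ) - GG F s ((l * n : ℕ) : ZMod N))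
    have e4 := norm_nonneg ((((s * F (n : ZMod N) : ℝ) : ℂ) - GG F s ((l' * n : ℕ) : ZMod N)) -
        (((s * F (n : ZMod N) : ℝ) : ℂ) - GG F s ((l * n : ℕ) : ZMod N)))
    generalize ‖(((s * F (n : ZMod N) : ℝ) : ℂ) - GG F s ((l' * n : ℕ) : ZMod N)) -
        (((s * F (n : ZMod N) : ℝ) : ℂ) - GG F s ((l * n : ℕ) : ZMod N))‖ = u at e3 e4 ⊢
    generalize ‖((s * F (n : ZMod N) : ℝ) : ℂ) - GG F s ((l' * n : ℕ) : ZMod N)‖ = v at e3 ⊢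
    generalize ‖((s * F (n : ZMod N) : ℝ) : ℂ) - GG F s ((l * n : ℕ) : ZMod N)‖ = w at e3 ⊢
    nlinarith [sq_nonneg (v - w)]
  have h2 := Finset.sum_le_sum hpt
  rw [Finset.sum_add_distrib, ← Finset.mul_sum, ← Finset.mul_sum] at h2
  have h3' : 0 ≤ ∑ χ ∈ Good N s, ‖bc F χ‖ ^ 2 * ‖χ (l : ZMod N) - χ (l' : ZMod N)‖ ^ 2 :=
    Finset.sum_nonneg (fun _ _ => by positivity)
  have h4 : (((N - 1) / (4 * L) : ℕ) : ℝ) / 2 ≤
      (((N - 1) / (4 * L) : ℕ) : ℝ) - (Good N s).card * (4 * Real.sqrt N * Real.log N) := by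
    linarith
  have h5 := mul_le_mul_of_nonneg_right h4 h3'
  unfold TL
  linarith

end Pool.Agent.Lib.MP_7b7e48_nt.LG
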