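import Pool.Agent.Lib.MP_7b7e48_nt.LG.SAenv

/-!
# Module SA, second part: the average of `Bad`
-/

set_option autoImplicit false

open Finset

namespace Pool.Agent.Lib.MP_7b7e48_nt.LG

variable {N : ℕ} [NeZero N] {s : ℝ} {F : ZMod N → ℝ} {Q : Finset ℕ} {B a : ℕ} {D τ : ℝ} {L₀ : ℕ}

/-- The index of the block of `l`. -/
def ib (L₀ l : ℕ) : ℕ := Nat.log 2 ((l - 1) / L₀)

theorem ib_spec (L₀ l : ℕ) (h3 : 3 ≤ L₀) (hl : 2 * L₀ < l) :
    2 ^ ib L₀ l * L₀ < l ∧ l ≤ 2 * (2 ^ ib L₀ l * L₀) ∧ 1 ≤ ib L₀ l := by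
  set q : ℕ := (l - 1) / L₀ with hq
  have hL : 0 < L₀ := by omega
  have hq2 : 2 ≤ q := by
    rw [hq, Nat.le_div_iff_mul_le hL]
    omega
  have h1 : 2 ^ Nat.log 2 q ≤ q := Nat.pow_log_le_self 2 (by omega)
  have h2 : q < 2 ^ (Nat.log 2 q + 1) := Nat.lt_pow_succ_log_self (by norm_num) q
  have h4 : q * L₀ ≤ l - 1 := Nat.div_mul_le_self _ _
  have h5 : l - 1 < (q + 1) * L₀ := by
    have := Nat.lt_div_mul_add hL (a := l - 1)
    rw [← hq] at this
    rw [add_mul, one_mul]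
    exact this
  have e : ib L₀ l = Nat.log 2 q := rfl
  rw [e]
  refine ⟨?_, ?_, ?_⟩
  · have h6 : 2 ^ Nat.log 2 q * L₀ ≤ q * L₀ := Nat.mul_le_mul_right _ h1
    omega
  · have h6 : (q + 1) * L₀ ≤ 2 ^ (Nat.log 2 q + 1) * L₀ := Nat.mul_le_mul_right _ h2
    have h7 : 2 ^ (Nat.log 2 q + 1) * L₀ = 2 * (2 ^ Nat.log 2 q * L₀) := by
      rw [pow_succ]
      ring
    omega
  · exact (Nat.le_log_iff_pow_le (by norm_num) (by omega)).mpr (by simpa using hq2)

/-- The number of blocks. -/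
theorem Env.steps (E : Env N s F Q B a D τ L₀) (i : ℕ)
    (hiT : ((2 ^ (i - 1) * L₀ : ℕ) : ℝ) ≤ TT N / 2) :
    i ≤ Nat.log 2 N + 1 ∧ ((Nat.log 2 N : ℕ) : ℝ) + 2 ≤ 2 * Real.log N := by
  have hN : 0 < N := E.prime.pos
  have hNr : (0 : ℝ) < N := by exact_mod_cast hN
  constructor
  · have h1 : 2 ^ (i - 1) ≤ N := by
      have h2 : ((2 ^ (i - 1) * L₀ : ℕ) : ℝ) ≤ N := by
        have h3 := E.hTN
        have h4 : 0 ≤ TT N := by
          unfold TT
          positivity
        linarith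
      have h3 : 2 ^ (i - 1) * L₀ ≤ N := by exact_mod_cast h2
      refine le_trans ?_ h3
      exact Nat.le_mul_of_pos_right _ (by have := E.L3; omega)
    have h2 := (Nat.le_log_iff_pow_le (b := 2) (by norm_num) (by omega)).mpr h1
    omega
  · have h1 : (2 : ℝ) ^ Nat.log 2 N ≤ N := by
      exact_mod_cast Nat.pow_log_le_self 2 (by omega : N ≠ 0)
    have h2 : (Nat.log 2 N : ℝ) * Real.log 2 ≤ Real.log N := by
      rw [← Real.log_pow]
      exact Real.log_le_log (by positivity) h1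
    have h3 := Real.log_two_gt_d9
    have h4 := E.K100
    have h5 : (0 : ℝ) ≤ (Nat.log 2 N : ℝ) := Nat.cast_nonneg _
    nlinarith

open Classical in
/-- The mass of the good characters which are not close to `s` at `l`. -/
noncomputable def mass (N : ℕ) [NeZero N] (s : ℝ) (F : ZMod N → ℝ) (l : ℕ) : ℝ :=
  ∑ χ ∈ (Good N s).filter (fun χ => 1 / (10 * Real.log N) < ‖χ (l : ZMod N) - (s : ℂ)‖),
    ((N : ℝ) - 1) * ‖bc F χ‖ ^ 2

theorem Env.N1 (E : Env N s F Q B a D τ L₀) : (0 : ℝ) ≤ (N : ℝ) - 1 := by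
  have h1 : 1 ≤ N := E.prime.one_lt.le
  have h2 : ((1 : ℕ) : ℝ) ≤ N := by exact_mod_cast h1
  rw [Nat.cast_one] at h2
  linarith

theorem Env.mass_nonneg (E : Env N s F Q B a D τ L₀) (l : ℕ) : 0 ≤ mass N s F l :=
  sum_nonneg fun _ _ => mul_nonneg E.N1 (by positivity)

theorem Env.mass_le (E : Env N s F Q B a D τ L₀) (l : ℕ) : mass N s F l ≤ nsq F := by
  classical
  rw [FC5 N E.prime F E.hyp.zero, mul_sum]
  exact sum_le_sum_of_subset_of_nonneg (subset_univ _)
    fun _ _ _ => mul_nonneg E.N1 (by positivity)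

theorem Env.mass_small (E : Env N s F Q B a D τ L₀) (l : ℕ) (hl : l.Prime) (hlP : l ≤ PP N) :
    mass N s F l = 0 := by
  classical
  unfold mass
  apply sum_eq_zero
  intro χ hχ
  exfalso
  obtain ⟨h1, h2⟩ := mem_filter.mp hχ
  unfold Good at h1
  have h3 := (mem_filter.mp h1).2 l hl hlP
  linarith

theorem Env.mass_fine (E : Env N s F Q B a D τ L₀) (l : ℕ) (Z : ℝ)
    (h : ∑ χ ∈ Good N s, (((N : ℝ) - 1) * ‖bc F χ‖ ^ 2) * ‖χ (l : ZMod N) - (s : ℂ)‖ ^ 2 ≤ Z) :
    mass N s F l ≤ 100 * (Real.log N) ^ 2 * Z := by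
  classical
  have hK := E.Kpos
  have h1 : mass N s F l * (1 / (10 * Real.log N)) ^ 2 ≤ Z := by
    refine le_trans ?_ h
    unfold mass
    rw [sum_mul]
    refine le_trans ?_ (sum_le_sum_of_subset_of_nonneg (filter_subset
      (fun χ => 1 / (10 * Real.log N) < ‖χ (l : ZMod N) - (s : ℂ)‖) (Good N s))
      (fun χ _ _ => mul_nonneg (mul_nonneg E.N1 (by positivity)) (by positivity)))
    refine sum_le_sum fun χ hχ => ?_
    obtain ⟨_, h2⟩ := mem_filter.mp hχ
    have h3 : (0 : ℝ) ≤ 1 / (10 * Real.log N) := by positivity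
    refine mul_le_mul_of_nonneg_left ?_ (mul_nonneg E.N1 (by positivity))
    exact pow_le_pow_left₀ h3 h2.le 2
  have h2 : mass N s F l = (mass N s F l * (1 / (10 * Real.log N)) ^ 2) *
      (100 * (Real.log N) ^ 2) := by
    field_simp
    norm_num
  rw [h2]
  calc (mass N s F l * (1 / (10 * Real.log N)) ^ 2) * (100 * (Real.log N) ^ 2) ≤
      Z * (100 * (Real.log N) ^ 2) := by gcongr
    _ = _ := by ring

open Classical in
theorem Env.swap (E : Env N s F Q B a D τ L₀) :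
    ((N : ℝ) - 1) * ∑ χ ∈ Good N s, ‖bc F χ‖ ^ 2 * Bad N s χ =
      ∑ l ∈ (range (N + 1)).filter (fun l : ℕ => l.Prime ∧ (l : ℝ) ≤ TT N),
        1 / (l : ℝ) * mass N s F l := by
  unfold Bad mass
  rw [mul_sum]
  have h1 : ∀ χ ∈ Good N s, ((N : ℝ) - 1) * (‖bc F χ‖ ^ 2 *
      ∑ l ∈ (Finset.range (N + 1)).filter (fun l : ℕ => l.Prime ∧ (l : ℝ) ≤ TT N ∧
        1 / (10 * Real.log N) < ‖χ (l : ZMod N) - (s : ℂ)‖), 1 / (l : ℝ)) =
      ∑ l ∈ (range (N + 1)).filter (fun l : ℕ => l.Prime ∧ (l : ℝ) ≤ TT N),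
        if 1 / (10 * Real.log N) < ‖χ (l : ZMod N) - (s : ℂ)‖ then
          1 / (l : ℝ) * (((N : ℝ) - 1) * ‖bc F χ‖ ^ 2) else 0 := by
    intro χ _
    rw [← sum_filter, filter_filter]
    have h2 : (range (N + 1)).filter (fun l : ℕ => (l.Prime ∧ (l : ℝ) ≤ TT N) ∧
        1 / (10 * Real.log N) < ‖χ (l : ZMod N) - (s : ℂ)‖) =
        (Finset.range (N + 1)).filter (fun l : ℕ => l.Prime ∧ (l : ℝ) ≤ TT N ∧
        1 / (10 * Real.log N) < ‖χ (l : ZMod N) - (s : ℂ)‖) := by
      ext l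
      simp only [mem_filter, and_assoc]
    rw [h2, mul_sum, mul_sum]
    refine sum_congr rfl fun l _ => ?_
    ring
  rw [sum_congr rfl h1, sum_comm]
  refine sum_congr rfl fun l _ => ?_
  rw [mul_sum, sum_filter]

open Classical in
theorem Env.final (E : Env N s F Q B a D τ L₀) :
    ((N : ℝ) - 1) * ∑ χ ∈ Good N s, ‖bc F χ‖ ^ 2 * Bad N s χ ≤
      (1 + Real.log N) * (100 * (Real.log N) ^ 2 * (160 * (Real.log N) ^ 2 * τ +
        2 * Real.log N * (nsq F / (Real.log N) ^ B))) +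
      nsq F / (Real.log N) ^ B + nsq F * (Real.log N) ^ 2 / (Real.log N) ^ a := by
  have hK := E.Kpos
  have hK100 := E.K100
  have hτ := E.τpos
  have hS : 0 < nsq F := E.hyp.pos
  have hNpos : 0 < N := E.prime.pos
  rw [E.swap]
  set R : Finset ℕ := (range (N + 1)).filter (fun l : ℕ => l.Prime ∧ (l : ℝ) ≤ TT N) with hR
  set Z : ℝ := 160 * (Real.log N) ^ 2 * τ + 2 * Real.log N * (nsq F / (Real.log N) ^ B) with hZ
  have hZ0 : 0 ≤ Z := by positivity
  set U : Finset ℕ := R.filter (fun l => PP N < l ∧ l ∉ Q ∧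
    τ / ((2 ^ (ib L₀ l - 1) * L₀ : ℕ) : ℝ) < TL F s (2 ^ (ib L₀ l - 1) * L₀) l) with hU
  have hmemR : ∀ l ∈ R, l.Prime ∧ (l : ℝ) ≤ TT N ∧ l ≤ N := by
    intro l hl
    obtain ⟨h1, h2⟩ := mem_filter.mp hl
    exact ⟨h2.1, h2.2, by have := mem_range.mp h1; omega⟩
  -- pointwise bound
  have hpt : ∀ l ∈ R, 1 / (l : ℝ) * mass N s F l ≤
      1 / (l : ℝ) * (100 * (Real.log N) ^ 2 * Z) +
      ((if l ∈ Q then 1 / (l : ℝ) else 0) * nsq F + (if l ∈ U then 1 / (l : ℝ) else 0) * nsq F) := by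
    intro l hl
    obtain ⟨hp, hT, _⟩ := hmemR l hl
    have hl0 : (0 : ℝ) ≤ 1 / (l : ℝ) := by positivity
    have hA : 0 ≤ 1 / (l : ℝ) * (100 * (Real.log N) ^ 2 * Z) := by positivity
    have hB : 0 ≤ (if l ∈ Q then 1 / (l : ℝ) else 0) * nsq F := by
      split_ifs <;> positivity
    have hC : 0 ≤ (if l ∈ U then 1 / (l : ℝ) else 0) * nsq F := by
      split_ifs <;> positivity
    by_cases h1 : l ≤ PP N
    · rw [E.mass_small l hp h1, mul_zero]
      positivity
    · push Not at h1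
      by_cases h2 : l ∈ Q
      · rw [if_pos h2]
        have h3 : 1 / (l : ℝ) * mass N s F l ≤ 1 / (l : ℝ) * nsq F := by
          gcongr
          exact E.mass_le l
        linarith
      · by_cases h3 : l ∈ U
        · rw [if_pos h3]
          have h4 : 1 / (l : ℝ) * mass N s F l ≤ 1 / (l : ℝ) * nsq F := by
            gcongr
            exact E.mass_le l
          linarith
        · -- fine
          have h2L : 2 * L₀ < l := lt_of_le_of_lt E.LP h1
          obtain ⟨i1, i2, i3⟩ := ib_spec L₀ l E.L3 h2L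
          set i : ℕ := ib L₀ l with hi
          have h4 : TL F s (2 ^ (i - 1) * L₀) l ≤ τ / ((2 ^ (i - 1) * L₀ : ℕ) : ℝ) := by
            by_contra h5
            push Not at h5
            exact h3 (mem_filter.mpr ⟨hl, h1, h2, h5⟩)
          have h5 : 2 * (2 ^ (i - 1) * L₀) = 2 ^ i * L₀ := by
            rw [← mul_assoc, ← pow_succ']
            congr 2
            omega
          have hiT : ((2 ^ (i - 1) * L₀ : ℕ) : ℝ) ≤ TT N / 2 := by
            have h6 : 2 * (2 ^ (i - 1) * L₀) ≤ l := by omega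
            have h7 : 2 * ((2 ^ (i - 1) * L₀ : ℕ) : ℝ) ≤ l := by exact_mod_cast h6
            linarith
          have h6 := E.chain i l i3 hiT h4
          obtain ⟨s1, s2⟩ := E.steps i hiT
          have hir : (i : ℝ) + 1 ≤ 2 * Real.log N := by
            have h7 : (i : ℝ) ≤ (Nat.log 2 N : ℝ) + 1 := by exact_mod_cast s1
            linarith
          have h7 : ((i : ℝ) + 1) * (i * (40 * τ) + nsq F / (Real.log N) ^ B) ≤ Z := by
            calc ((i : ℝ) + 1) * (i * (40 * τ) + nsq F / (Real.log N) ^ B) ≤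
                (2 * Real.log N) * ((2 * Real.log N) * (40 * τ) +
                  nsq F / (Real.log N) ^ B) := by
                  gcongr
                  linarith
              _ = Z := by
                rw [hZ]
                ring
          have h8 := E.mass_fine l Z (h6.trans h7)
          have h9 : 1 / (l : ℝ) * mass N s F l ≤ 1 / (l : ℝ) * (100 * (Real.log N) ^ 2 * Z) := by
            gcongr
          linarith
  refine (sum_le_sum hpt).trans ?_
  rw [sum_add_distrib, sum_add_distrib, ← sum_mul, ← sum_mul, ← sum_mul]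
  -- sum of reciprocals
  have r1 : ∑ l ∈ R, 1 / (l : ℝ) ≤ 1 + Real.log N := by
    have h1 : ∑ l ∈ R, 1 / (l : ℝ) ≤ ∑ l ∈ Icc 1 N, ((l : ℕ) : ℝ)⁻¹ := by
      have h2 : R ⊆ Icc 1 N := by
        intro l hl
        obtain ⟨h3, _, h4⟩ := hmemR l hl
        exact mem_Icc.mpr ⟨h3.pos, h4⟩
      simp_rw [one_div]
      exact sum_le_sum_of_subset_of_nonneg h2 (fun _ _ _ => by positivity)
    have h2 := harmonic_le_one_add_log N
    simp_rw [harmonic_eq_sum_Icc, Rat.cast_sum, Rat.cast_inv, Rat.cast_natCast] at h2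
    exact h1.trans h2
  have r2 : ∑ l ∈ R, (if l ∈ Q then 1 / (l : ℝ) else 0) ≤ 1 / (Real.log N) ^ B := by
    rw [← sum_filter]
    refine le_trans ?_ E.hyp.rsm
    exact sum_le_sum_of_subset_of_nonneg (fun l hl => (mem_filter.mp hl).2)
      (fun _ _ _ => by positivity)
  have r3 : ∑ l ∈ R, (if l ∈ U then 1 / (l : ℝ) else 0) ≤
      (Real.log N) ^ 2 / (Real.log N) ^ a := by
    rw [← sum_filter]
    have h1 : R.filter (fun l => l ∈ U) = U := by
      ext l
      rw [mem_filter]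
      exact ⟨fun h => h.2, fun h => ⟨(mem_filter.mp h).1, h⟩⟩
    rw [h1]
    have hmaps : ∀ l ∈ U, ib L₀ l ∈ Icc 1 (Nat.log 2 N + 1) ∧
        ((2 ^ (ib L₀ l - 1) * L₀ : ℕ) : ℝ) ≤ TT N / 2 ∧
        2 * (2 ^ (ib L₀ l - 1) * L₀) < l ∧ l ≤ 4 * (2 ^ (ib L₀ l - 1) * L₀) := by
      intro l hl
      obtain ⟨h2, h3, _⟩ := mem_filter.mp hl
      obtain ⟨hp, hT, _⟩ := hmemR l h2
      have h2L : 2 * L₀ < l := lt_of_le_of_lt E.LP h3
      obtain ⟨i1, i2, i3⟩ := ib_spec L₀ l E.L3 h2L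
      have h5 : 2 * (2 ^ (ib L₀ l - 1) * L₀) = 2 ^ ib L₀ l * L₀ := by
        rw [← mul_assoc, ← pow_succ']
        congr 2
        omega
      have hiT : ((2 ^ (ib L₀ l - 1) * L₀ : ℕ) : ℝ) ≤ TT N / 2 := by
        have h6 : 2 * (2 ^ (ib L₀ l - 1) * L₀) ≤ l := by omega
        have h7 : 2 * ((2 ^ (ib L₀ l - 1) * L₀ : ℕ) : ℝ) ≤ l := by exact_mod_cast h6
        linarith
      obtain ⟨s1, _⟩ := E.steps (ib L₀ l) hiT
      exact ⟨mem_Icc.mpr ⟨i3, s1⟩, hiT, by omega, by omega⟩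
    rw [← sum_fiberwise_of_maps_to (fun l hl => (hmaps l hl).1)]
    have hfib : ∀ i ∈ Icc 1 (Nat.log 2 N + 1), ∑ l ∈ U.filter (fun l => ib L₀ l = i),
        1 / (l : ℝ) ≤ Real.log N / (2 * (Real.log N) ^ a) := by
      intro i hi
      by_cases hne : (U.filter (fun l => ib L₀ l = i)).Nonempty
      · obtain ⟨l₁, hl₁⟩ := hne
        obtain ⟨hl₁U, hl₁i⟩ := mem_filter.mp hl₁
        have hiT := (hmaps l₁ hl₁U).2.1
        rw [hl₁i] at hiT
        set L : ℕ := 2 ^ (i - 1) * L₀ with hL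
        have hL0 : L₀ ≤ L := by
          rw [hL]
          exact Nat.le_mul_of_pos_left _ (by positivity)
        have hLpos : (0 : ℝ) < L := by
          have : 0 < L := by have := E.L3; omega
          exact_mod_cast this
        have hc := E.count L hL0 hiT (U.filter (fun l => ib L₀ l = i)) (by
          intro l hl
          obtain ⟨h2, h3⟩ := mem_filter.mp hl
          obtain ⟨h4, h5, h6, h7⟩ := mem_filter.mp h2
          obtain ⟨_, _, h8, h9⟩ := hmaps l h2
          rw [h3] at h7 h8 h9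
          rw [← hL] at h7 h8 h9
          exact ⟨(hmemR l h4).1, h6, by omega, h9, h7⟩)
        calc ∑ l ∈ U.filter (fun l => ib L₀ l = i), 1 / (l : ℝ) ≤
            ∑ _l ∈ U.filter (fun l => ib L₀ l = i), 1 / (2 * (L : ℝ)) := by
              refine sum_le_sum fun l hl => ?_
              obtain ⟨h2, h3⟩ := mem_filter.mp hl
              obtain ⟨_, _, h8, _⟩ := hmaps l h2
              rw [h3, ← hL] at h8
              have h9 : 2 * (L : ℝ) ≤ l := by exact_mod_cast h8.le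
              exact one_div_le_one_div_of_le (by positivity) h9
          _ = (U.filter (fun l => ib L₀ l = i)).card * (1 / (2 * (L : ℝ))) := by
              rw [sum_const, nsmul_eq_mul]
          _ ≤ Real.log N / (2 * (Real.log N) ^ a) := by
              rw [mul_one_div, div_le_div_iff₀ (by positivity) (by positivity)]
              linarith
      · rw [not_nonempty_iff_eq_empty.mp hne, sum_empty]
        positivity
    refine (sum_le_sum hfib).trans ?_
    rw [sum_const, nsmul_eq_mul, Nat.card_Icc, Nat.add_sub_cancel]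
    -- any element gives the bound for the number of steps
    have hsteps : ((Nat.log 2 N : ℕ) : ℝ) + 2 ≤ 2 * Real.log N := by
      have h2 : (2 : ℝ) ^ Nat.log 2 N ≤ N := by
        exact_mod_cast Nat.pow_log_le_self 2 (by omega : N ≠ 0)
      have h3 : (Nat.log 2 N : ℝ) * Real.log 2 ≤ Real.log N := by
        rw [← Real.log_pow]
        exact Real.log_le_log (by positivity) h2
      have h4 := Real.log_two_gt_d9
      have h5 : (0 : ℝ) ≤ (Nat.log 2 N : ℝ) := Nat.cast_nonneg _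
      nlinarith
    calc ((Nat.log 2 N + 1 : ℕ) : ℝ) * (Real.log N / (2 * (Real.log N) ^ a)) ≤
        (2 * Real.log N) * (Real.log N / (2 * (Real.log N) ^ a)) := by
          gcongr
          push_cast
          linarith
      _ = (Real.log N) ^ 2 / (Real.log N) ^ a := by
          field_simp
  calc (∑ l ∈ R, 1 / (l : ℝ)) * (100 * (Real.log N) ^ 2 * Z) +
      ((∑ l ∈ R, (if l ∈ Q then 1 / (l : ℝ) else 0)) * nsq F +
        (∑ l ∈ R, (if l ∈ U then 1 / (l : ℝ) else 0)) * nsq F) ≤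
      (1 + Real.log N) * (100 * (Real.log N) ^ 2 * Z) +
        (1 / (Real.log N) ^ B * nsq F + (Real.log N) ^ 2 / (Real.log N) ^ a * nsq F) := by
        gcongr
    _ = _ := by
      ring

end Pool.Agent.Lib.MP_7b7e48_nt.LG
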