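import Pool.Agent.Lib.MP_7b7e48_nt.LG.Defs
import Pool.Agent.Lib.MP_7b7e48_nt.LG.S3
import Pool.Agent.Lib.MP_7b7e48_nt.LG.S4
import Pool.Agent.Lib.MP_7b7e48_nt.LG.CH
import Pool.Agent.Lib.MP_7b7e48_nt.LG.FC

/-!
# Module SA, first part: fine primes and the chain
-/

set_option autoImplicit false

open Finset

namespace Pool.Agent.Lib.MP_7b7e48_nt.LG

/-- The situation in the proof of `SA`: all numerical facts. -/
structure Env (N : ℕ) [NeZero N] (s : ℝ) (F : ZMod N → ℝ) (Q : Finset ℕ) (B a : ℕ)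
    (D τ : ℝ) (L₀ : ℕ) : Prop where
  prime : N.Prime
  three : 3 ≤ N
  sq : s ^ 2 = 1
  hyp : Hyp N s F Q B
  K100 : 100 ≤ Real.log N
  Dpos : 0 < D
  hD : ∑ x : ZMod N, ‖(F x : ℂ) - GG F s x‖ ^ 2 ≤ D
  hτ : τ = (Real.log N) ^ a * D
  ha : 4 ≤ a
  hB : 3 ≤ B
  L3 : 3 ≤ L₀
  LP : 2 * L₀ ≤ PP N
  PL : PP N ≤ 2 * L₀ + 1
  hX : ∀ L : ℕ, L₀ ≤ L → (L : ℝ) ≤ TT N / 2 →
    ((Good N s).card : ℝ) * (4 * Real.sqrt N * Real.log N) ≤ (((N - 1) / (4 * L) : ℕ) : ℝ) / 2 ∧
    (N : ℝ) - 1 ≤ 5 * L * (((N - 1) / (4 * L) : ℕ) : ℝ)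
  hBl : ∀ L : ℕ, L₀ ≤ L → (L : ℝ) / (2 * Real.log L) ≤ ((Bl L).card : ℝ)
  hTN : TT N ≤ N
  PN : PP N < N

variable {N : ℕ} [NeZero N] {s : ℝ} {F : ZMod N → ℝ} {Q : Finset ℕ} {B a : ℕ} {D τ : ℝ} {L₀ : ℕ}

theorem Env.Kpos (E : Env N s F Q B a D τ L₀) : 0 < Real.log N := by
  linarith [E.K100]

theorem Env.τpos (E : Env N s F Q B a D τ L₀) : 0 < τ := by
  rw [E.hτ]
  exact mul_pos (pow_pos E.Kpos a) E.Dpos

open Classical in
/-- Few primes of a block are not fine. -/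
theorem Env.count (E : Env N s F Q B a D τ L₀) (L : ℕ) (hL : L₀ ≤ L) (hLT : (L : ℝ) ≤ TT N / 2)
    (T : Finset ℕ) (hT : ∀ l ∈ T, l.Prime ∧ l ∉ Q ∧ L < l ∧ l ≤ 4 * L ∧ τ / L < TL F s L l) :
    (T.card : ℝ) * (Real.log N) ^ a ≤ Real.log N * L := by
  have hLpos : (0 : ℝ) < L := by
    have h1 : 0 < L := by have := E.L3; omega
    exact_mod_cast h1
  have h1 := S3 N E.prime s F L (E.L3.trans hL) T
    (fun l hl => ⟨(hT l hl).1, (hT l hl).2.2.1, (hT l hl).2.2.2.1⟩)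
    (fun l hl n hn hln => E.hyp.loc l (hT l hl).1 (hT l hl).2.1 (by
      have h2 : (l : ℝ) ≤ 4 * L := by exact_mod_cast (hT l hl).2.2.2.1
      linarith) n hn hln)
  have h2 : (T.card : ℝ) * (τ / L) ≤ ∑ l ∈ T, TL F s L l := by
    rw [← nsmul_eq_mul, ← sum_const]
    exact sum_le_sum fun l hl => (hT l hl).2.2.2.2.le
  have h3 : (T.card : ℝ) * (τ / L) ≤ Real.log N * D := by
    refine h2.trans (h1.trans ?_)
    exact mul_le_mul_of_nonneg_left E.hD E.Kpos.le
  rw [E.hτ] at h3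
  have h4 : (T.card : ℝ) * ((Real.log N) ^ a * D / L) =
      ((T.card : ℝ) * (Real.log N) ^ a) * (D / L) := by ring
  have h5 : Real.log N * D = (Real.log N * L) * (D / L) := by
    field_simp
  rw [h4, h5] at h3
  exact le_of_mul_le_mul_right h3 (div_pos E.Dpos hLpos)

/-- Comparison of two fine primes. -/
theorem Env.cmp (E : Env N s F Q B a D τ L₀) (L : ℕ) (hL : L₀ ≤ L) (hLT : (L : ℝ) ≤ TT N / 2)
    (l l' : ℕ) (hl : TL F s L l ≤ τ / L) (hl' : TL F s L l' ≤ τ / L) :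
    ∑ χ ∈ Good N s, (((N : ℝ) - 1) * ‖bc F χ‖ ^ 2) * ‖χ (l : ZMod N) - χ (l' : ZMod N)‖ ^ 2 ≤
      40 * τ := by
  have hLpos : (0 : ℝ) < L := by
    have h1 : 0 < L := by have := E.L3; omega
    exact_mod_cast h1
  obtain ⟨h1, h2⟩ := E.hX L hL hLT
  have h3 := S4 N E.prime E.three s F L (by have := E.L3; omega) h1 l l'
  set X : ℝ := (((N - 1) / (4 * L) : ℕ) : ℝ) with hX
  set Sg : ℝ := ∑ χ ∈ Good N s, ‖bc F χ‖ ^ 2 * ‖χ (l : ZMod N) - χ (l' : ZMod N)‖ ^ 2 with hSg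
  have h4 : ∑ χ ∈ Good N s, (((N : ℝ) - 1) * ‖bc F χ‖ ^ 2) *
      ‖χ (l : ZMod N) - χ (l' : ZMod N)‖ ^ 2 = ((N : ℝ) - 1) * Sg := by
    rw [hSg, mul_sum]
    refine sum_congr rfl fun χ _ => ?_
    ring
  rw [h4]
  have h5 : 0 ≤ Sg := sum_nonneg fun _ _ => by positivity
  have h6 : X * Sg ≤ 8 * (τ / L) := by linarith
  calc ((N : ℝ) - 1) * Sg ≤ (5 * L * X) * Sg := by gcongr
    _ = 5 * L * (X * Sg) := by ring
    _ ≤ 5 * L * (8 * (τ / L)) := by gcongr
    _ = 40 * τ := by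
      field_simp
      ring

/-- `l` is a fine prime in block `j`. -/
def Fine (N : ℕ) [NeZero N] (s : ℝ) (F : ZMod N → ℝ) (Q : Finset ℕ) (τ : ℝ) (L₀ : ℕ)
    (j l : ℕ) : Prop :=
  l ∈ Bl (2 ^ j * L₀) ∧ l ∉ Q ∧ TL F s (2 ^ j * L₀) l ≤ τ / ((2 ^ j * L₀ : ℕ) : ℝ) ∧
    (1 ≤ j → TL F s (2 ^ (j - 1) * L₀) l ≤ τ / ((2 ^ (j - 1) * L₀ : ℕ) : ℝ))

open Classical in
/-- There is a fine prime in every block. -/
theorem Env.exists_fine (E : Env N s F Q B a D τ L₀) (j : ℕ)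
    (hj : ((2 ^ j * L₀ : ℕ) : ℝ) ≤ TT N / 2) : ∃ l, Fine N s F Q τ L₀ j l := by
  set L : ℕ := 2 ^ j * L₀ with hLdef
  have hL₀ : L₀ ≤ L := by
    rw [hLdef]
    exact Nat.le_mul_of_pos_left _ (by positivity)
  have hLpos : 0 < L := by have := E.L3; omega
  have hLr : (0 : ℝ) < L := by exact_mod_cast hLpos
  have hK := E.K100
  have hKpos := E.Kpos
  by_contra hno
  push Not at hno
  -- three sets cover the block
  set T1 : Finset ℕ := (Bl L).filter (fun l => l ∉ Q ∧ τ / L < TL F s L l) with hT1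
  set T2 : Finset ℕ := (Bl L).filter (fun l => l ∉ Q ∧ 1 ≤ j ∧
    τ / ((2 ^ (j - 1) * L₀ : ℕ) : ℝ) < TL F s (2 ^ (j - 1) * L₀) l) with hT2
  set T3 : Finset ℕ := (Bl L).filter (fun l => l ∈ Q) with hT3
  have hmem : ∀ l ∈ Bl L, L < l ∧ l ≤ 2 * L ∧ l.Prime := by
    intro l hl
    have h1 := mem_filter.mp hl
    have h2 := mem_Ioc.mp h1.1
    exact ⟨h2.1, h2.2, h1.2⟩
  have hcov : Bl L ⊆ T1 ∪ (T2 ∪ T3) := by
    intro l hl
    by_cases hQ : l ∈ Q
    · exact mem_union_right _ (mem_union_right _ (mem_filter.mpr ⟨hl, hQ⟩))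
    · by_cases h1 : TL F s L l ≤ τ / L
      · by_cases h2 : 1 ≤ j → TL F s (2 ^ (j - 1) * L₀) l ≤ τ / ((2 ^ (j - 1) * L₀ : ℕ) : ℝ)
        · exact absurd ⟨hl, hQ, h1, h2⟩ (hno l)
        · push Not at h2
          exact mem_union_right _ (mem_union_left _ (mem_filter.mpr ⟨hl, hQ, h2.1, h2.2⟩))
      · push Not at h1
        exact mem_union_left _ (mem_filter.mpr ⟨hl, hQ, h1⟩)
  have hcard : ((Bl L).card : ℝ) ≤ T1.card + (T2.card + T3.card) := by
    have h1 := card_le_card hcov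
    have h2 := card_union_le T1 (T2 ∪ T3)
    have h3 := card_union_le T2 T3
    have h4 : (Bl L).card ≤ T1.card + (T2.card + T3.card) := by omega
    exact_mod_cast h4
  -- T1
  have c1 : (T1.card : ℝ) * (Real.log N) ^ a ≤ Real.log N * L := by
    refine E.count L hL₀ hj T1 ?_
    intro l hl
    obtain ⟨h1, h2, h3⟩ := mem_filter.mp hl
    obtain ⟨h4, h5, h6⟩ := hmem l h1
    exact ⟨h6, h2, h4, by omega, h3⟩
  -- T2
  have c2 : (T2.card : ℝ) * (Real.log N) ^ a ≤ Real.log N * L := by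
    by_cases hj1 : 1 ≤ j
    · set L' : ℕ := 2 ^ (j - 1) * L₀ with hL'
      have hLL : L = 2 * L' := by
        rw [hLdef, hL', ← mul_assoc, ← pow_succ']
        congr 2
        omega
      have hL'0 : L₀ ≤ L' := by
        rw [hL']
        exact Nat.le_mul_of_pos_left _ (by positivity)
      have hLL' : (L' : ℝ) ≤ L := by
        have : L' ≤ L := by omega
        exact_mod_cast this
      have h1 := E.count L' hL'0 (hLL'.trans hj) T2 (by
        intro l hl
        obtain ⟨h1, h2, h3, h4⟩ := mem_filter.mp hl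
        obtain ⟨h5, h6, h7⟩ := hmem l h1
        exact ⟨h7, h2, by omega, by omega, h4⟩)
      refine h1.trans ?_
      gcongr
    · have h1 : T2 = ∅ := by
        rw [hT2, filter_eq_empty_iff]
        intro l _ h
        exact hj1 h.2.1
      rw [h1, card_empty, Nat.cast_zero, zero_mul]
      positivity
  -- T3
  have c3 : (T3.card : ℝ) * (Real.log N) ^ B ≤ 2 * L := by
    have h1 : (T3.card : ℝ) * (1 / (2 * L)) ≤ ∑ q ∈ Q, 1 / (q : ℝ) := by
      rw [← nsmul_eq_mul, ← sum_const]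
      calc ∑ _q ∈ T3, (1 / (2 * (L : ℝ))) ≤ ∑ q ∈ T3, 1 / (q : ℝ) := by
            refine sum_le_sum fun q hq => ?_
            obtain ⟨h4, h5, h6⟩ := hmem q (mem_filter.mp hq).1
            have h7 : (0 : ℝ) < q := by exact_mod_cast h6.pos
            have h8 : (q : ℝ) ≤ 2 * L := by exact_mod_cast h5
            exact one_div_le_one_div_of_le h7 h8
        _ ≤ ∑ q ∈ Q, 1 / (q : ℝ) :=
            sum_le_sum_of_subset_of_nonneg (fun q hq => (mem_filter.mp hq).2)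
              (fun _ _ _ => by positivity)
    have h2 := h1.trans E.hyp.rsm
    rw [mul_one_div, div_le_div_iff₀ (by positivity) (by positivity), one_mul] at h2
    exact h2
  -- total
  have c0 := E.hBl L hL₀
  have hlogL : Real.log L ≤ Real.log N := by
    apply Real.log_le_log hLr
    have h1 := E.hTN
    have h2 : 0 ≤ TT N := by
      unfold TT
      positivity
    linarith
  have hlogLpos : 0 < Real.log L := by
    apply Real.log_pos
    have h1 : 1 < L := by have := E.L3; omega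
    exact_mod_cast h1
  have c0' : (L : ℝ) / (2 * Real.log N) ≤ ((Bl L).card : ℝ) := by
    refine le_trans ?_ c0
    gcongr
  have hp : ∀ (m : ℕ) (t : ℝ) (u : ℝ), 0 ≤ t → 3 ≤ m → t * (Real.log N) ^ m ≤ u →
      t * (Real.log N) ^ 3 ≤ u := by
    intro m t u ht hm h
    refine le_trans ?_ h
    gcongr
    linarith
  have hp' : (T1.card : ℝ) * (Real.log N) ^ 3 ≤ L := by
    have h1 : (T1.card : ℝ) * (Real.log N) ^ 4 ≤ Real.log N * L := by
      refine le_trans ?_ c1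
      gcongr
      · linarith
      · exact E.ha
    have h2 : (T1.card : ℝ) * (Real.log N) ^ 4 = Real.log N * (T1.card * (Real.log N) ^ 3) := by
      ring
    rw [h2] at h1
    exact le_of_mul_le_mul_left h1 hKpos
  have hp2' : (T2.card : ℝ) * (Real.log N) ^ 3 ≤ L := by
    have h1 : (T2.card : ℝ) * (Real.log N) ^ 4 ≤ Real.log N * L := by
      refine le_trans ?_ c2
      gcongr
      · linarith
      · exact E.ha
    have h2 : (T2.card : ℝ) * (Real.log N) ^ 4 = Real.log N * (T2.card * (Real.log N) ^ 3) := by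
      ring
    rw [h2] at h1
    exact le_of_mul_le_mul_left h1 hKpos
  have hp3' : (T3.card : ℝ) * (Real.log N) ^ 3 ≤ 2 * L :=
    hp B _ _ (Nat.cast_nonneg _) E.hB c3
  have h1 : (L : ℝ) / (2 * Real.log N) * (Real.log N) ^ 3 ≤ 4 * (L : ℝ) := by
    have h10 := mul_le_mul_of_nonneg_right (c0'.trans hcard)
      (pow_nonneg hKpos.le 3 : 0 ≤ (Real.log N) ^ 3)
    linarith
  have h2 : (L : ℝ) / (2 * Real.log N) * (Real.log N) ^ 3 = L * ((Real.log N) ^ 2 / 2) := by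
    field_simp
  rw [h2] at h1
  have h3 : (Real.log N) ^ 2 / 2 ≤ 4 := by
    have h4 : (L : ℝ) * ((Real.log N) ^ 2 / 2) ≤ L * 4 := by linarith
    exact le_of_mul_le_mul_left h4 hLr
  nlinarith

/-- The chain. -/
theorem Env.chain (E : Env N s F Q B a D τ L₀) (i l : ℕ) (hi : 1 ≤ i)
    (hiT : ((2 ^ (i - 1) * L₀ : ℕ) : ℝ) ≤ TT N / 2)
    (hl : TL F s (2 ^ (i - 1) * L₀) l ≤ τ / ((2 ^ (i - 1) * L₀ : ℕ) : ℝ)) :
    ∑ χ ∈ Good N s, (((N : ℝ) - 1) * ‖bc F χ‖ ^ 2) * ‖χ (l : ZMod N) - (s : ℂ)‖ ^ 2 ≤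
      (i + 1) * (i * (40 * τ) + nsq F / (Real.log N) ^ B) := by
  classical
  haveI : Fact N.Prime := ⟨E.prime⟩
  have hN1 : (0 : ℝ) ≤ (N : ℝ) - 1 := by
    have h1 : 1 ≤ N := E.prime.one_lt.le
    have h2 : ((1 : ℕ) : ℝ) ≤ N := by exact_mod_cast h1
    rw [Nat.cast_one] at h2
    linarith
  have hmono : ∀ j, j ≤ i - 1 → ((2 ^ j * L₀ : ℕ) : ℝ) ≤ TT N / 2 := by
    intro j hj
    refine le_trans ?_ hiT
    have h1 : 2 ^ j * L₀ ≤ 2 ^ (i - 1) * L₀ :=
      Nat.mul_le_mul_right _ (Nat.pow_le_pow_right (by norm_num) hj)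
    exact_mod_cast h1
  have hex : ∀ j, ∃ l', j ≤ i - 1 → Fine N s F Q τ L₀ j l' := by
    intro j
    by_cases hj : j ≤ i - 1
    · obtain ⟨l', hl'⟩ := E.exists_fine j (hmono j hj)
      exact ⟨l', fun _ => hl'⟩
    · exact ⟨0, fun h => absurd h hj⟩
  choose lf hlf using hex
  set v : ℕ → DirichletCharacter ℂ N → ℂ := fun j χ =>
    χ ((if j = i then l else lf j : ℕ) : ZMod N) with hv
  have hL0 : ∀ j, L₀ ≤ 2 ^ j * L₀ := fun j => Nat.le_mul_of_pos_left _ (by positivity)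
  have h1 := CH (Good N s) (fun χ => ((N : ℝ) - 1) * ‖bc F χ‖ ^ 2)
    (fun χ _ => mul_nonneg hN1 (by positivity)) v (s : ℂ) (40 * τ)
    (nsq F / (Real.log N) ^ B) i (by
      intro j hj
      have hji : j ≠ i := by omega
      have hf := hlf j (by omega)
      by_cases hj1 : j + 1 = i
      · have e1 : ∀ χ : DirichletCharacter ℂ N, v (j + 1) χ = χ (l : ZMod N) := by
          intro χ
          simp only [hv, if_pos hj1]
        have e2 : ∀ χ : DirichletCharacter ℂ N, v j χ = χ (lf j : ZMod N) := by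
          intro χ
          simp only [hv, if_neg hji]
        simp_rw [e1, e2]
        have hj2 : i - 1 = j := by omega
        rw [hj2] at hl hiT
        exact E.cmp (2 ^ j * L₀) (hL0 j) hiT (lf j) l hf.2.2.1 hl
      · have e1 : ∀ χ : DirichletCharacter ℂ N, v (j + 1) χ = χ (lf (j + 1) : ZMod N) := by
          intro χ
          simp only [hv, if_neg hj1]
        have e2 : ∀ χ : DirichletCharacter ℂ N, v j χ = χ (lf j : ZMod N) := by
          intro χ
          simp only [hv, if_neg hji]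
        simp_rw [e1, e2]
        have hf' := hlf (j + 1) (by omega)
        have h2 := hf'.2.2.2 (by omega)
        rw [Nat.add_sub_cancel] at h2
        exact E.cmp (2 ^ j * L₀) (hL0 j) (hmono j (by omega)) (lf j) (lf (j + 1)) hf.2.2.1 h2)
    (by
      have h0i : 0 ≠ i := by omega
      have e1 : ∀ χ : DirichletCharacter ℂ N, v 0 χ = χ (lf 0 : ZMod N) := by
        intro χ
        simp only [hv, if_neg h0i]
      simp_rw [e1]
      have hf := hlf 0 (by omega)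
      have hm := mem_filter.mp hf.1
      rw [pow_zero, one_mul] at hm
      have hm2 := (mem_Ioc.mp hm.1).2
      have h2 := E.hyp.inv (lf 0) hm.2 (hm2.trans E.LP)
      have hne : (lf 0 : ZMod N) ≠ 0 := by
        intro h
        rw [ZMod.natCast_eq_zero_iff] at h
        have h4 := Nat.le_of_dvd hm.2.pos h
        have h5 := E.PN
        have h6 := E.LP
        omega
      have h3 := FC4 N E.prime F E.hyp.zero s (lf 0 : ZMod N) hne
      rw [h3, mul_sum] at h2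
      refine le_trans ?_ h2
      refine le_trans (sum_le_sum_of_subset_of_nonneg (subset_univ _)
        (fun χ _ _ => mul_nonneg (mul_nonneg hN1 (by positivity)) (by positivity))) ?_
      refine sum_le_sum fun χ _ => ?_
      rw [mul_assoc])
  have e3 : ∀ χ : DirichletCharacter ℂ N, v i χ = χ (l : ZMod N) := by
    intro χ
    simp only [hv, if_true]
  simp_rw [e3] at h1
  exact h1

end Pool.Agent.Lib.MP_7b7e48_nt.LG
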