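import Mathlib
import Pool.Agent.Lib.MP_7b7e48_nt.LG.CharPar

/-!
# S1: few characters are close to `s` on all primes up to a power of `log N`
-/

set_option autoImplicit false

open Finset

namespace Pool.Agent.Lib.MP_7b7e48_nt.LG

theorem s1_prod {ι : Type*} (T : Finset ι) (z : ι → ℂ) (s : ℂ) (hz : ∀ i ∈ T, ‖z i‖ ≤ 1)
    (hs : ‖s‖ ≤ 1) : ‖∏ i ∈ T, z i - s ^ T.card‖ ≤ ∑ i ∈ T, ‖z i - s‖ := by
  classical
  induction T using Finset.induction_on with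
  | empty => simp
  | insert a T ha ih =>
    have h1 := ih (fun i hi => hz i (mem_insert_of_mem hi))
    rw [prod_insert ha, sum_insert ha, card_insert_of_notMem ha, pow_succ]
    have h2 : z a * ∏ i ∈ T, z i - s ^ T.card * s =
        z a * (∏ i ∈ T, z i - s ^ T.card) + (z a - s) * s ^ T.card := by ring
    rw [h2]
    refine (norm_add_le _ _).trans ?_
    rw [norm_mul, norm_mul, norm_pow]
    have h3 : ‖z a‖ ≤ 1 := hz a (mem_insert_self a T)
    have h4 : ‖s‖ ^ T.card ≤ 1 := pow_le_one₀ (norm_nonneg _) hs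
    have h5 : ‖z a‖ * ‖∏ i ∈ T, z i - s ^ T.card‖ ≤ 1 * ∑ i ∈ T, ‖z i - s‖ := by gcongr
    have h6 : ‖z a - s‖ * ‖s‖ ^ T.card ≤ ‖z a - s‖ * 1 := by gcongr
    linarith

/-- Sum of a function supported on a set of integers in `(0, N)`. -/
theorem s1_sum {N : ℕ} [NeZero N] {E : Type*} [AddCommMonoid E] (A : Finset ℕ)
    (hA : ∀ a ∈ A, 0 < a ∧ a < N) (g : ZMod N → E) :
    ∑ x : ZMod N, (if x.val ∈ A then g x else 0) = ∑ a ∈ A, g (a : ZMod N) := by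
  rw [← Finset.sum_filter]
  refine Finset.sum_nbij' (fun x => x.val) (fun a => (a : ZMod N)) ?_ ?_ ?_ ?_ ?_
  · intro x hx
    exact (mem_filter.mp hx).2
  · intro a ha
    refine mem_filter.mpr ⟨mem_univ _, ?_⟩
    rw [ZMod.val_cast_of_lt (hA a ha).2]
    exact ha
  · intro x _
    exact ZMod.natCast_zmod_val x
  · intro a ha
    exact ZMod.val_cast_of_lt (hA a ha).2
  · intro x _
    simp only [ZMod.natCast_val, ZMod.cast_id', id_eq]

/-- Dual large sieve for a single set. -/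
theorem s1_card {N : ℕ} [hN : Fact N.Prime] (A : Finset ℕ) (hA : ∀ a ∈ A, 0 < a ∧ a < N)
    (G : Finset (DirichletCharacter ℂ N)) (t : ℂ) (ht : ‖t‖ = 1)
    (hG : ∀ χ ∈ G, ∀ a ∈ A, ‖χ (a : ZMod N) - t‖ ≤ 1 / 10) :
    (G.card : ℝ) * (81 / 100 * (A.card : ℝ)) ≤ N - 1 := by
  have hN1 : (0 : ℝ) < (N : ℝ) - 1 := by
    have h1 : 1 < N := (Fact.out : N.Prime).one_lt
    have h2 : ((1 : ℕ) : ℝ) < N := by exact_mod_cast h1
    rw [Nat.cast_one] at h2
    linarith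
  by_cases hA0 : A.card = 0
  · rw [hA0]
    simp only [Nat.cast_zero, mul_zero]
    exact hN1.le
  have hApos : (0 : ℝ) < A.card := by
    exact_mod_cast Nat.pos_of_ne_zero hA0
  set F : ZMod N → ℂ := fun x => if x.val ∈ A then 1 else 0 with hF
  have hF0 : F 0 = 0 := by
    simp only [hF, ZMod.val_zero]
    rw [if_neg]
    intro h
    exact absurd (hA 0 h).1 (lt_irrefl 0)
  have h1 : ∑ x : ZMod N, ‖F x‖ ^ 2 = A.card := by
    have h2 : ∀ x : ZMod N, ‖F x‖ ^ 2 = if x.val ∈ A then (1 : ℝ) else 0 := by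
      intro x
      simp only [hF]
      split_ifs <;> simp
    simp_rw [h2]
    rw [s1_sum A hA (fun _ => (1 : ℝ))]
    simp
  have h2 := cp_parseval_F F hF0
  rw [h1] at h2
  have h3 : ∀ χ ∈ G, 81 / 100 * (A.card : ℝ) ^ 2 / ((N : ℝ) - 1) ^ 2 ≤ ‖cf F χ‖ ^ 2 := by
    intro χ hχ
    have h4 : ∑ y : ZMod N, F y * (starRingEnd ℂ) (χ y) =
        ∑ a ∈ A, (starRingEnd ℂ) (χ (a : ZMod N)) := by
      rw [← s1_sum A hA (fun y => (starRingEnd ℂ) (χ y))]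
      refine sum_congr rfl fun y _ => ?_
      simp only [hF]
      split_ifs <;> simp
    have h5 : ‖∑ a ∈ A, (starRingEnd ℂ) (χ (a : ZMod N)) - A.card * (starRingEnd ℂ) t‖ ≤
        A.card * (1 / 10) := by
      have h6 : ∑ a ∈ A, (starRingEnd ℂ) (χ (a : ZMod N)) - A.card * (starRingEnd ℂ) t =
          ∑ a ∈ A, (starRingEnd ℂ) (χ (a : ZMod N) - t) := by
        simp only [map_sub, sum_sub_distrib, sum_const, nsmul_eq_mul]
      rw [h6]
      refine (norm_sum_le _ _).trans ?_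
      rw [← nsmul_eq_mul, ← sum_const]
      refine sum_le_sum fun a ha => ?_
      rw [RCLike.norm_conj]
      exact hG χ hχ a ha
    have h6 : (A.card : ℝ) * (9 / 10) ≤ ‖∑ a ∈ A, (starRingEnd ℂ) (χ (a : ZMod N))‖ := by
      have h7 : ‖(A.card : ℂ) * (starRingEnd ℂ) t‖ = A.card := by
        rw [norm_mul, RCLike.norm_conj, ht, mul_one]
        simp
      have h8 := norm_sub_norm_le ((A.card : ℂ) * (starRingEnd ℂ) t)
        (∑ a ∈ A, (starRingEnd ℂ) (χ (a : ZMod N)))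
      rw [h7, norm_sub_rev] at h8
      linarith
    unfold cf
    rw [h4, norm_mul, norm_inv]
    have h7 : ‖(N : ℂ) - 1‖ = (N : ℝ) - 1 := by
      have h8 : (N : ℂ) - 1 = (((N : ℝ) - 1 : ℝ) : ℂ) := by push_cast; rfl
      rw [h8, Complex.norm_real, Real.norm_of_nonneg hN1.le]
    rw [h7, mul_pow, inv_pow, div_eq_inv_mul]
    gcongr
    calc 81 / 100 * (A.card : ℝ) ^ 2 = ((A.card : ℝ) * (9 / 10)) ^ 2 := by ring
      _ ≤ _ := by gcongr
  have h4 : (G.card : ℝ) * (81 / 100 * (A.card : ℝ) ^ 2 / ((N : ℝ) - 1) ^ 2) ≤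
      ∑ χ : DirichletCharacter ℂ N, ‖cf F χ‖ ^ 2 := by
    calc (G.card : ℝ) * (81 / 100 * (A.card : ℝ) ^ 2 / ((N : ℝ) - 1) ^ 2) =
        ∑ χ ∈ G, (81 / 100 * (A.card : ℝ) ^ 2 / ((N : ℝ) - 1) ^ 2) := by
          rw [sum_const, nsmul_eq_mul]
      _ ≤ ∑ χ ∈ G, ‖cf F χ‖ ^ 2 := sum_le_sum h3
      _ ≤ _ := sum_le_sum_of_subset_of_nonneg (subset_univ _) (fun _ _ _ => by positivity)
  have h5 : ((N : ℝ) - 1) * ((G.card : ℝ) * (81 / 100 * (A.card : ℝ) ^ 2 / ((N : ℝ) - 1) ^ 2)) ≤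
      A.card :=
    (mul_le_mul_of_nonneg_left h4 hN1.le).trans h2.symm.le
  have h6 : ((N : ℝ) - 1) * ((G.card : ℝ) * (81 / 100 * (A.card : ℝ) ^ 2 / ((N : ℝ) - 1) ^ 2)) =
      ((G.card : ℝ) * (81 / 100 * (A.card : ℝ))) * A.card / ((N : ℝ) - 1) := by
    field_simp
  rw [h6, div_le_iff₀ hN1] at h5
  have h7 : ((G.card : ℝ) * (81 / 100 * (A.card : ℝ))) * A.card ≤ ((N : ℝ) - 1) * A.card := by
    linarith
  exact le_of_mul_le_mul_right h7 hApos

/-- The products of `u` distinct primes up to `n`. -/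
noncomputable def prodSet (n u : ℕ) : Finset ℕ :=
  ((Nat.primesLE n).powersetCard u).image (fun T => ∏ p ∈ T, p)

theorem prodSet_card (n u : ℕ) : (prodSet n u).card = (Nat.primeCounting n).choose u := by
  unfold prodSet
  rw [Finset.card_image_of_injOn, card_powersetCard, Nat.primesLE_card_eq_primeCounting]
  intro T hT T' hT' h
  have h1 := (mem_powersetCard.mp (mem_coe.mp hT)).1
  have h2 := (mem_powersetCard.mp (mem_coe.mp hT')).1
  have h3 : (∏ p ∈ T, p) = ∏ p ∈ T', p := h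
  rw [← Nat.primeFactors_prod (s := T) (fun p hp => (Nat.mem_primesLE.mp (h1 hp)).2), h3,
    Nat.primeFactors_prod (fun p hp => (Nat.mem_primesLE.mp (h2 hp)).2)]

theorem prodSet_lt {n u N : ℕ} (hN : N.Prime) (hn : n < N) (hu : n ^ u ≤ N) {a : ℕ}
    (ha : a ∈ prodSet n u) : 0 < a ∧ a < N := by
  obtain ⟨T, hT, rfl⟩ := mem_image.mp ha
  obtain ⟨h1, h2⟩ := mem_powersetCard.mp hT
  have hp : ∀ p ∈ T, p ≤ n ∧ p.Prime := fun p hp => Nat.mem_primesLE.mp (h1 hp)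
  refine ⟨prod_pos fun p hpT => (hp p hpT).2.pos, ?_⟩
  have h3 : ∏ p ∈ T, p ≤ N := by
    calc ∏ p ∈ T, p ≤ n ^ T.card := prod_le_pow_card _ _ _ (fun p hpT => (hp p hpT).1)
      _ = n ^ u := by rw [h2]
      _ ≤ N := hu
  refine lt_of_le_of_ne h3 fun h4 => ?_
  have h5 : N ∣ ∏ p ∈ T, p := by rw [h4]
  obtain ⟨p, hpT, h6⟩ := (hN.prime.dvd_finsetProd_iff _).mp h5
  have h7 := Nat.le_of_dvd (hp p hpT).2.pos h6
  have h8 := (hp p hpT).1
  omega

/-- Combinatorial core of S1. -/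
theorem s1_core {N : ℕ} [hN : Fact N.Prime] (n u : ℕ) (hn : n < N) (hu : n ^ u ≤ N) (s : ℂ)
    (hs : ‖s‖ = 1) (ε : ℝ) (hε : u * ε ≤ 1 / 10) (G : Finset (DirichletCharacter ℂ N))
    (hG : ∀ χ ∈ G, ∀ p : ℕ, p.Prime → p ≤ n → ‖χ (p : ZMod N) - s‖ ≤ ε) :
    (G.card : ℝ) * (81 / 100 * ((Nat.primeCounting n).choose u : ℝ)) ≤ N - 1 := by
  rw [← prodSet_card]
  refine s1_card (prodSet n u) (fun a ha => prodSet_lt Fact.out hn hu ha) G (s ^ u)
    (by rw [norm_pow, hs, one_pow]) ?_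
  intro χ hχ a ha
  obtain ⟨T, hT, rfl⟩ := mem_image.mp ha
  obtain ⟨h1, h2⟩ := mem_powersetCard.mp hT
  have h3 := s1_prod T (fun p => χ (p : ZMod N)) s
    (fun p _ => DirichletCharacter.norm_le_one χ _) hs.le
  rw [h2] at h3
  have h4 : χ ((∏ p ∈ T, p : ℕ) : ZMod N) = ∏ p ∈ T, χ (p : ZMod N) := by
    rw [Nat.cast_prod, map_prod]
  rw [h4]
  refine h3.trans ?_
  calc ∑ p ∈ T, ‖χ (p : ZMod N) - s‖ ≤ ∑ p ∈ T, ε := by
        refine sum_le_sum fun p hp => ?_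
        have h5 := Nat.mem_primesLE.mp (h1 hp)
        exact hG χ hχ p h5.2 h5.1
    _ = u * ε := by rw [sum_const, h2, nsmul_eq_mul]
    _ ≤ 1 / 10 := hε

end Pool.Agent.Lib.MP_7b7e48_nt.LG
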