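import Mathlib
import Pool.Agent.Lib.MP_7b7e48_nt.LG.SOne

/-!
# S1, numerical part
-/

set_option autoImplicit false

open Finset Filter

namespace Pool.Agent.Lib.MP_7b7e48_nt.LG

theorem s1_log (c : ℝ) (hc : 0 < c) : ∀ᶠ K : ℝ in atTop, Real.log K ≤ c * K := by
  have h1 := Real.isLittleO_log_id_atTop.bound hc
  filter_upwards [h1, eventually_ge_atTop (1 : ℝ)] with K hK hK1
  rw [Real.norm_of_nonneg (Real.log_nonneg hK1), id, Real.norm_of_nonneg (by linarith)] at hK
  exact hK

theorem s1_pi : ∀ᶠ n : ℕ in atTop, (n : ℝ) / (2 * Real.log n) ≤ Nat.primeCounting n := by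
  have h1 : ∀ᶠ n : ℕ in atTop, Real.log n ≤ 1 / 40 * n :=
    (tendsto_natCast_atTop_atTop (R := ℝ)).eventually (s1_log (1 / 40) (by norm_num))
  filter_upwards [h1, eventually_ge_atTop 100] with n hn hn1
  have hn2 : (100 : ℝ) ≤ n := by exact_mod_cast hn1
  have hlog : 0 < Real.log n := Real.log_pos (by linarith)
  refine le_trans ?_ (Chebyshev.pi_ge n)
  rw [div_le_div_iff₀ (by positivity) hlog]
  have h2 : Real.log ((n : ℝ) + 1) ≤ Real.log n + 1 := by
    have h3 : Real.log ((n : ℝ) + 1) ≤ Real.log (n * Real.exp 1) := by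
      apply Real.log_le_log (by positivity)
      have h4 := Real.exp_one_gt_d9
      nlinarith
    rw [Real.log_mul (by positivity) (Real.exp_pos _).ne', Real.log_exp] at h3
    exact h3
  have h3 := Real.log_two_gt_d9
  have h4 : (n : ℝ) ≤ (n * Real.log 2 - Real.log (n + 1)) * 2 := by nlinarith
  calc (n : ℝ) * Real.log n ≤ ((n * Real.log 2 - Real.log (n + 1)) * 2) * Real.log n := by
        gcongr
    _ = _ := by ring

theorem s1_num : ∀ᶠ K : ℝ in atTop, ∃ u : ℕ, (⌊K ^ 4000⌋₊ : ℝ) < Real.exp K ∧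
    (⌊K ^ 4000⌋₊ : ℝ) ^ u ≤ Real.exp K ∧ (u : ℝ) ≤ K ∧
    Real.exp K ≤ Real.exp (K / 2000) *
      (81 / 100 * ((Nat.primeCounting ⌊K ^ 4000⌋₊).choose u : ℝ)) := by
  have hfl : Tendsto (fun K : ℝ => ⌊K ^ 4000⌋₊) atTop atTop :=
    tendsto_nat_floor_atTop.comp (tendsto_pow_atTop (by norm_num))
  filter_upwards [hfl.eventually s1_pi, s1_log (1 / (4000 * 16000)) (by norm_num),
    eventually_ge_atTop (10 ^ 9 : ℝ)] with K hpi hK hK1
  set L : ℝ := Real.log K with hL
  have hKpos : 0 < K := by linarith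
  have hL1 : 5 ≤ L := by
    rw [hL, Real.le_log_iff_exp_le hKpos]
    have h1 : Real.exp 5 = Real.exp 1 ^ 5 := by
      rw [← Real.exp_nat_mul]
      norm_num
    rw [h1]
    have h2 := Real.exp_one_lt_d9
    have h3 : Real.exp 1 ^ 5 ≤ 3 ^ 5 := by
      have h4 := Real.exp_pos 1
      gcongr
      linarith
    norm_num at h3
    linarith
  have hKe : Real.exp L = K := Real.exp_log hKpos
  obtain ⟨P, hP⟩ : ∃ P : ℝ, P = K ^ 4000 := ⟨_, rfl⟩
  rw [← hP] at hpi ⊢
  have hPe : P = Real.exp (4000 * L) := by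
    rw [hP, ← hKe, ← Real.exp_nat_mul]
    norm_num
  have hPpos : 0 < P := by rw [hPe]; exact Real.exp_pos _
  have hPK : 8 * K ≤ P := by
    have h1 : K ^ 2 ≤ P := by
      rw [hP]
      exact pow_le_pow_right₀ (by linarith) (by norm_num)
    nlinarith
  set n : ℕ := ⌊P⌋₊ with hn
  have hnP : (n : ℝ) ≤ P := Nat.floor_le hPpos.le
  have hPn : P < n + 1 := Nat.lt_floor_add_one P
  have hn2 : P / 2 ≤ n := by linarith
  have hnpos : (1 : ℝ) < n := by linarith
  have hlogn : Real.log n ≤ 4000 * L := by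
    have h1 := Real.log_le_log (by linarith) hnP
    rw [hPe, Real.log_exp] at h1
    exact h1
  have hlogn0 : 0 < Real.log n := Real.log_pos hnpos
  set q : ℝ := K / (4000 * L) with hq
  have hq0 : 0 < q := by positivity
  set u : ℕ := ⌊q⌋₊ with hu
  have huq : (u : ℝ) ≤ q := Nat.floor_le hq0.le
  have hqu : q < u + 1 := Nat.lt_floor_add_one q
  have hqL : q * (4000 * L) = K := by
    rw [hq]
    field_simp
  -- the counting function
  have hpi2 : P / (16000 * L) ≤ Nat.primeCounting n := by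
    refine le_trans ?_ hpi
    rw [div_le_div_iff₀ (by positivity) (by positivity)]
    nlinarith
  have hsub : P / (32000 * L) ≤ ((Nat.primeCounting n + 1 - u : ℕ) : ℝ) := by
    have h1 : ((Nat.primeCounting n : ℝ) + 1) - u ≤ ((Nat.primeCounting n + 1 - u : ℕ) : ℝ) := by
      have h2 : Nat.primeCounting n + 1 ≤ (Nat.primeCounting n + 1 - u) + u := by omega
      have h3 : ((Nat.primeCounting n : ℝ) + 1) ≤
          ((Nat.primeCounting n + 1 - u : ℕ) : ℝ) + u := by exact_mod_cast h2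
      linarith
    refine le_trans ?_ h1
    have h2 : P / (16000 * L) = P / (32000 * L) + P / (32000 * L) := by
      field_simp
      norm_num
    have h3 : q ≤ P / (32000 * L) := by
      rw [hq, div_le_div_iff₀ (by positivity) (by positivity)]
      nlinarith
    linarith
  have hchoose : (P / (8 * K)) ^ u ≤ ((Nat.primeCounting n).choose u : ℝ) := by
    refine le_trans ?_ (Nat.pow_le_choose (α := ℝ) u (Nat.primeCounting n))
    have h1 : ((u.factorial : ℕ) : ℝ) ≤ q ^ u := by
      calc ((u.factorial : ℕ) : ℝ) ≤ ((u ^ u : ℕ) : ℝ) := by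
            exact_mod_cast Nat.factorial_le_pow u
        _ = (u : ℝ) ^ u := by push_cast; rfl
        _ ≤ q ^ u := by gcongr
    have h2 : (P / (8 * K)) ^ u = (P / (32000 * L)) ^ u / q ^ u := by
      have h3 : P / (8 * K) = P / (32000 * L) / q := by
        rw [hq]
        field_simp
        norm_num
      rw [h3, div_pow]
    rw [h2]
    have h3 : 0 < ((u.factorial : ℕ) : ℝ) := by exact_mod_cast u.factorial_pos
    gcongr
  -- exponents
  have hlog8 : Real.log 8 ≤ 5 / 2 := by
    rw [Real.log_le_iff_le_exp (by norm_num)]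
    have h1 : Real.exp (5 / 2) = Real.exp (1 / 2) ^ 5 := by
      rw [← Real.exp_nat_mul]
      norm_num
    rw [h1]
    have h2 : (1.6 : ℝ) ≤ Real.exp (1 / 2) := by
      have h3 := Real.quadratic_le_exp_of_nonneg (x := (1 / 2 : ℝ)) (by norm_num)
      norm_num at h3 ⊢
      linarith
    calc (8 : ℝ) ≤ 1.6 ^ 5 := by norm_num
      _ ≤ _ := by gcongr
  have hE : P / (8 * K) = Real.exp (4000 * L - L - Real.log 8) := by
    rw [Real.exp_sub, Real.exp_sub, ← hPe, hKe, Real.exp_log (by norm_num)]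
    field_simp
  have hchoose2 : Real.exp (K - 3 / 2 * K / 4000 - 4000 * L) ≤
      ((Nat.primeCounting n).choose u : ℝ) := by
    refine le_trans ?_ hchoose
    rw [hE, ← Real.exp_nat_mul]
    apply Real.exp_le_exp.mpr
    have h1 : q * (4000 * L) - (3 / 2) * (q * L) - 4000 * L ≤
        u * (4000 * L - L - Real.log 8) := by
      have h2 : 0 ≤ 4000 * L - L - Real.log 8 := by linarith
      have h3 : (q - 1) * (4000 * L - L - Real.log 8) ≤ u * (4000 * L - L - Real.log 8) := by
        gcongr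
        linarith
      have h4 : 0 ≤ Real.log 8 := Real.log_nonneg (by norm_num)
      nlinarith
    have h2 : (3 / 2) * (q * L) = 3 / 2 * K / 4000 := by
      rw [hq]
      field_simp
    rw [hqL, h2] at h1
    exact h1
  refine ⟨u, ?_, ?_, ?_, ?_⟩
  · refine lt_of_le_of_lt hnP ?_
    rw [hPe]
    apply Real.exp_lt_exp.mpr
    nlinarith
  · calc (n : ℝ) ^ u ≤ P ^ u := by gcongr
      _ = Real.exp (u * (4000 * L)) := by rw [hPe, ← Real.exp_nat_mul]
      _ ≤ Real.exp K := by
        apply Real.exp_le_exp.mpr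
        rw [← hqL]
        gcongr
  · refine huq.trans ?_
    rw [hq]
    apply div_le_self hKpos.le
    linarith
  · have h1 : Real.exp K ≤ Real.exp (K / 2000) *
        (81 / 100 * Real.exp (K - 3 / 2 * K / 4000 - 4000 * L)) := by
      have h2 : Real.exp (-1 / 4) ≤ 81 / 100 := by
        have h3 : Real.exp (-1 / 4) = (Real.exp (1 / 4))⁻¹ := by
          rw [← Real.exp_neg]
          norm_num
        rw [h3, inv_le_comm₀ (Real.exp_pos _) (by norm_num)]
        have h4 := Real.quadratic_le_exp_of_nonneg (x := (1 / 4 : ℝ)) (by norm_num)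
        norm_num at h4 ⊢
        linarith
      calc Real.exp K ≤ Real.exp (K / 2000 + (-1 / 4 + (K - 3 / 2 * K / 4000 - 4000 * L))) := by
            apply Real.exp_le_exp.mpr
            nlinarith
        _ = Real.exp (K / 2000) * (Real.exp (-1 / 4) *
            Real.exp (K - 3 / 2 * K / 4000 - 4000 * L)) := by
            rw [Real.exp_add, Real.exp_add (-1 / 4)]
        _ ≤ _ := by gcongr
    refine h1.trans ?_
    gcongr

/-- S1 with a general finite set of characters. -/
theorem s1_thm : ∃ N₀ : ℕ, ∀ N : ℕ, N₀ ≤ N → ∀ (_ : Fact N.Prime) (s : ℂ), ‖s‖ = 1 →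
    ∀ G : Finset (DirichletCharacter ℂ N),
      (∀ χ ∈ G, ∀ p : ℕ, p.Prime → (p : ℝ) ≤ Real.log N ^ 4000 →
        ‖χ (p : ZMod N) - s‖ ≤ 1 / (10 * Real.log N)) →
      (G.card : ℝ) ≤ (N : ℝ) ^ (1 / 2000 : ℝ) := by
  have h1 : Tendsto (fun N : ℕ => Real.log N) atTop atTop :=
    Real.tendsto_log_atTop.comp (tendsto_natCast_atTop_atTop (R := ℝ))
  have h2 := (h1.eventually s1_num).and ((h1.eventually (eventually_ge_atTop 1)).and
    (eventually_ge_atTop 2))
  obtain ⟨N₀, hN₀⟩ := eventually_atTop.mp h2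
  refine ⟨N₀, ?_⟩
  intro N hN hNp s hs G hG
  obtain ⟨⟨u, hu1, hu2, hu3, hu4⟩, hK1, hN2⟩ := hN₀ N hN
  have hNpos : (0 : ℝ) < N := by
    have : 0 < N := by omega
    exact_mod_cast this
  rw [Real.exp_log hNpos] at hu1 hu2 hu4
  set K : ℝ := Real.log N with hK
  have hKpos : 0 < K := by linarith
  set n : ℕ := ⌊K ^ 4000⌋₊ with hn
  have h3 := s1_core n u (by exact_mod_cast hu1) (by exact_mod_cast hu2) s hs
    (1 / (10 * K)) (by
      rw [mul_one_div, div_le_div_iff₀ (by positivity) (by norm_num)]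
      linarith) G (by
      intro χ hχ p hp hpn
      refine hG χ hχ p hp ?_
      calc (p : ℝ) ≤ n := by exact_mod_cast hpn
        _ ≤ _ := Nat.floor_le (by positivity))
  have h4 : (N : ℝ) ^ (1 / 2000 : ℝ) = Real.exp (K / 2000) := by
    rw [Real.rpow_def_of_pos hNpos, ← hK]
    congr 1
    ring
  rw [h4]
  set c : ℝ := 81 / 100 * ((Nat.primeCounting n).choose u : ℝ) with hc
  have h5 : 0 < c := by
    have h6 : 0 < Real.exp (K / 2000) * c := lt_of_lt_of_le hNpos hu4
    exact (pos_iff_pos_of_mul_pos h6).mp (Real.exp_pos _)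
  have h6 : (G.card : ℝ) * c ≤ Real.exp (K / 2000) * c := by linarith
  exact le_of_mul_le_mul_right h6 h5

end Pool.Agent.Lib.MP_7b7e48_nt.LG
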